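import Pool.Agent.Lib.MP_b66790_nt.Hecke.Sl31

/-!
# Surjectivity of the braid group onto `SL(2, ℤ)` and the Smith normal form of a `2 × 2` matrix
-/

namespace MPb66790.HK31

theorem S_inv31 : (u1_31 * u2_31 * u1_31)⁻¹ = ModularGroup.S := by decide

theorem T_eq31 : u1_31 = ModularGroup.T := by decide

/-- S1. -/
theorem m3_surj31 : Function.Surjective m3_31 := by
  rw [← MonoidHom.range_eq_top, eq_top_iff, ← SpecialLinearGroup.SL2Z_generators,
    Subgroup.closure_le]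
  have h1 : m3_31 (FreeGroup.of 0) = u1_31 := by simp [m3_31]
  have h2 : m3_31 (FreeGroup.of 1) = u2_31 := by simp [m3_31]
  rintro M (rfl | rfl)
  · refine ⟨(FreeGroup.of 0 * FreeGroup.of 1 * FreeGroup.of 0)⁻¹, ?_⟩
    rw [map_inv, map_mul, map_mul, h1, h2, S_inv31]
  · exact ⟨FreeGroup.of 0, by rw [h1, T_eq31]⟩

/-- The Smith normal form of the matrix with entries `p q r s`. -/
def Sm31 (p q r s : ℤ) : Prop :=
  ∃ (A B : SL) (d N : ℕ), 0 < d ∧ 0 < N ∧
    (!![p, q; r, s] : Matrix (Fin 2) (Fin 2) ℤ) = A.1 * !![(d : ℤ) * N, 0; 0, d] * B.1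

/-- `[1 t; 0 1]`. -/
def up31 (t : ℤ) : SL := ⟨!![1, t; 0, 1], by simp [Matrix.det_fin_two]⟩

/-- `[1 0; t 1]`. -/
def lo31 (t : ℤ) : SL := ⟨!![1, 0; t, 1], by simp [Matrix.det_fin_two]⟩

/-- `[0 1; -1 0]`. -/
def ww31 : SL := ⟨!![0, 1; -1, 0], by simp [Matrix.det_fin_two]⟩

theorem Sm31.left (P : SL) {p q r s p' q' r' s' : ℤ}
    (e : P.1 * (!![p, q; r, s] : Matrix (Fin 2) (Fin 2) ℤ) = !![p', q'; r', s'])
    (h : Sm31 p' q' r' s') : Sm31 p q r s := by
  obtain ⟨A, B, d, N, hd, hN, he⟩ := h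
  refine ⟨P⁻¹ * A, B, d, N, hd, hN, ?_⟩
  have h1 : (P⁻¹ : SL).1 * P.1 = 1 := by
    have : (P⁻¹ * P : SL).1 = 1 := by rw [inv_mul_cancel]; rfl
    exact this
  calc (!![p, q; r, s] : Matrix (Fin 2) (Fin 2) ℤ)
      = ((P⁻¹ : SL).1 * P.1) * !![p, q; r, s] := by rw [h1, one_mul]
    _ = (P⁻¹ : SL).1 * (P.1 * !![p, q; r, s]) := by rw [mul_assoc]
    _ = (P⁻¹ : SL).1 * (A.1 * !![(d : ℤ) * N, 0; 0, d] * B.1) := by rw [e, he]
    _ = (P⁻¹ * A : SL).1 * !![(d : ℤ) * N, 0; 0, d] * B.1 := by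
        have : (P⁻¹ * A : SL).1 = (P⁻¹ : SL).1 * A.1 := rfl
        rw [this]
        simp only [mul_assoc]

theorem Sm31.right (Q : SL) {p q r s p' q' r' s' : ℤ}
    (e : (!![p, q; r, s] : Matrix (Fin 2) (Fin 2) ℤ) * Q.1 = !![p', q'; r', s'])
    (h : Sm31 p' q' r' s') : Sm31 p q r s := by
  obtain ⟨A, B, d, N, hd, hN, he⟩ := h
  refine ⟨A, B * Q⁻¹, d, N, hd, hN, ?_⟩
  have h1 : Q.1 * (Q⁻¹ : SL).1 = 1 := by
    have : (Q * Q⁻¹ : SL).1 = 1 := by rw [mul_inv_cancel]; rfl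
    exact this
  calc (!![p, q; r, s] : Matrix (Fin 2) (Fin 2) ℤ)
      = !![p, q; r, s] * (Q.1 * (Q⁻¹ : SL).1) := by rw [h1, mul_one]
    _ = (!![p, q; r, s] * Q.1) * (Q⁻¹ : SL).1 := by rw [mul_assoc]
    _ = (A.1 * !![(d : ℤ) * N, 0; 0, d] * B.1) * (Q⁻¹ : SL).1 := by rw [e, he]
    _ = A.1 * !![(d : ℤ) * N, 0; 0, d] * (B * Q⁻¹ : SL).1 := by
        have : (B * Q⁻¹ : SL).1 = B.1 * (Q⁻¹ : SL).1 := rfl
        rw [this]
        simp only [mul_assoc]

theorem Sm31.row {p q r s : ℤ} (t : ℤ) (h : Sm31 (p + t * r) (q + t * s) r s) : Sm31 p q r s :=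
  Sm31.left (up31 t) (by simp [up31]) h

theorem Sm31.row' {p q r s : ℤ} (t : ℤ) (h : Sm31 p q (r + t * p) (s + t * q)) : Sm31 p q r s :=
  Sm31.left (lo31 t) (by simp [lo31, add_comm]) h

theorem Sm31.col {p q r s : ℤ} (t : ℤ) (h : Sm31 (p + t * q) q (r + t * s) s) : Sm31 p q r s :=
  Sm31.right (lo31 t) (by simp [lo31, mul_comm]) h

theorem Sm31.rsw {p q r s : ℤ} (h : Sm31 r s (-p) (-q)) : Sm31 p q r s :=
  Sm31.left ww31 (by simp [ww31]) h

theorem Sm31.csw {p q r s : ℤ} (h : Sm31 (-q) p (-s) r) : Sm31 p q r s :=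
  Sm31.right ww31 (by simp [ww31]) h

theorem Sm31.neg {p q r s : ℤ} (h : Sm31 (-p) (-q) (-r) (-s)) : Sm31 p q r s :=
  Sm31.left (-1) (by simp [Matrix.neg_of]) h

theorem Sm31.diag {s m : ℤ} (hs : s ≠ 0) (hm : 0 < m) : Sm31 (s * m) 0 0 s := by
  rcases lt_or_gt_of_ne hs with h | h
  · apply Sm31.neg
    refine ⟨1, 1, s.natAbs, m.natAbs, by omega, by omega, ?_⟩
    have e1 : ((s.natAbs : ℕ) : ℤ) = -s := by omega
    have e2 : ((m.natAbs : ℕ) : ℤ) = m := by omega
    rw [e1, e2]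
    simp
  · refine ⟨1, 1, s.natAbs, m.natAbs, by omega, by omega, ?_⟩
    have e1 : ((s.natAbs : ℕ) : ℤ) = s := by omega
    have e2 : ((m.natAbs : ℕ) : ℤ) = m := by omega
    rw [e1, e2]
    simp

theorem sm_aux (n : ℕ) : ∀ p q r s : ℤ, s ≠ 0 → s.natAbs ≤ n → 0 < p * s - q * r →
    Sm31 p q r s := by
  induction n with
  | zero => intro p q r s hs hn; omega
  | succ n ih =>
    -- the case where `s` does not divide the upper right entry
    have hrow : ∀ p q r s : ℤ, s ≠ 0 → s.natAbs ≤ n + 1 → 0 < p * s - q * r → ¬ s ∣ q →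
        Sm31 p q r s := by
      intro p q r s hs hn hd hq
      have h0 : q % s ≠ 0 := fun h => hq (Int.dvd_of_emod_eq_zero h)
      have h1 : 0 ≤ q % s := Int.emod_nonneg q hs
      have h2 : q % s < |s| := Int.emod_lt_abs q hs
      have h3 : q + -(q / s) * s = q % s := by
        have := Int.emod_add_mul_ediv q s
        linarith [mul_comm s (q / s)]
      apply Sm31.row (-(q / s))
      apply Sm31.rsw
      rw [h3]
      apply ih
      · omega
      · rw [Int.natAbs_neg]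
        have : |s| = (s.natAbs : ℤ) := Int.abs_eq_natAbs s
        omega
      · rw [← h3]
        nlinarith
    have hcol : ∀ p q r s : ℤ, s ≠ 0 → s.natAbs ≤ n + 1 → 0 < p * s - q * r → ¬ s ∣ r →
        Sm31 p q r s := by
      intro p q r s hs hn hd hr
      have h0 : r % s ≠ 0 := fun h => hr (Int.dvd_of_emod_eq_zero h)
      have h1 : 0 ≤ r % s := Int.emod_nonneg r hs
      have h2 : r % s < |s| := Int.emod_lt_abs r hs
      have h3 : r + -(r / s) * s = r % s := by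
        have := Int.emod_add_mul_ediv r s
        linarith [mul_comm s (r / s)]
      apply Sm31.col (-(r / s))
      apply Sm31.csw
      rw [h3]
      apply ih
      · omega
      · have : |s| = (s.natAbs : ℤ) := Int.abs_eq_natAbs s
        omega
      · rw [← h3]
        nlinarith
    intro p q r s hs hn hd
    by_cases hq : s ∣ q
    · by_cases hr : s ∣ r
      · obtain ⟨q0, rfl⟩ := hq
        obtain ⟨r0, rfl⟩ := hr
        apply Sm31.row (-q0)
        have e1 : s * q0 + -q0 * s = 0 := by ring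
        rw [e1]
        apply Sm31.col (-r0)
        have e2 : s * r0 + -r0 * s = 0 := by ring
        rw [e2, mul_zero, add_zero]
        have hd' : 0 < (p + -q0 * (s * r0)) * s := by nlinarith
        generalize p + -q0 * (s * r0) = p' at hd'
        by_cases hp : s ∣ p'
        · obtain ⟨m, rfl⟩ := hp
          apply Sm31.diag hs
          have : 0 < m * (s * s) := by nlinarith
          exact pos_of_mul_pos_left this (mul_self_nonneg s)
        · apply Sm31.row' 1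
          have e3 : (0 : ℤ) + 1 * p' = p' := by ring
          have e4 : s + 1 * 0 = s := by ring
          rw [e3, e4]
          exact hcol p' 0 p' s hs hn (by linarith) hp
      · exact hcol p q r s hs hn hd hr
    · exact hrow p q r s hs hn hd hq

/-- S2: Smith normal form of an integral `2 × 2` matrix of positive determinant. -/
theorem smith31 (g : Matrix (Fin 2) (Fin 2) ℤ) (hg : 0 < g.det) :
    ∃ (A B : SL) (d N : ℕ), 0 < d ∧ 0 < N ∧ g = A.1 * !![(d : ℤ) * N, 0; 0, d] * B.1 := by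
  have hd : 0 < g 0 0 * g 1 1 - g 0 1 * g 1 0 := by rwa [Matrix.det_fin_two] at hg
  have h : Sm31 (g 0 0) (g 0 1) (g 1 0) (g 1 1) := by
    by_cases h1 : g 1 1 = 0
    · have h2 : g 1 0 ≠ 0 := by
        intro h2
        rw [h1, h2] at hd
        simp at hd
      apply Sm31.csw
      exact sm_aux _ _ _ _ _ h2 le_rfl (by linarith)
    · exact sm_aux _ _ _ _ _ h1 le_rfl hd
  obtain ⟨A, B, d, N, h1, h2, h3⟩ := h
  exact ⟨A, B, d, N, h1, h2, by rw [← h3]; exact Matrix.eta_fin_two g⟩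

end MPb66790.HK31
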