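import Pool.Agent.Lib.MP_b66790_nt.Hecke.Stmt24b
import Pool.Agent.Lib.MP_b66790_nt.Hecke.Smith31
import Pool.Agent.Lib.MP_b66790_nt.ModP

/-!
# From the diagonal matrices to all matrices
-/

namespace MPb66790.HK24

open MPb66790 MPb66790.CY24 Function

/-! ### The relation `SameDessin` -/

theorem sd_refl67 (H : Subgroup (FHat 2)) : SameDessin H H := ⟨1, fun x => by simp⟩

theorem sd_symm67 {H K : Subgroup (FHat 2)} (h : SameDessin H K) : SameDessin K H := by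
  obtain ⟨g, hg⟩ := h
  refine ⟨g⁻¹, fun x => ?_⟩
  have e : g * (g⁻¹ * x * g⁻¹⁻¹) * g⁻¹ = x := by group
  rw [hg, e]

theorem sd_trans67 {H K L : Subgroup (FHat 2)} (h1 : SameDessin H K) (h2 : SameDessin K L) :
    SameDessin H L := by
  obtain ⟨g, hg⟩ := h1
  obtain ⟨g', hg'⟩ := h2
  refine ⟨g' * g, fun x => ?_⟩
  have e : g' * (g * x * g⁻¹) * g'⁻¹ = g' * g * x * (g' * g)⁻¹ := by group
  rw [hg, hg', e]

theorem sd_map67 {H K : Subgroup (FHat 2)} (α : FHat 2 →* FHat 2) (h : SameDessin H K) :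
    SameDessin (H.map α) (K.map α) := by
  obtain ⟨g, hg⟩ := h
  refine ⟨α g, fun x => ?_⟩
  constructor
  · rintro ⟨h, hh, rfl⟩
    exact ⟨g * h * g⁻¹, (hg h).1 hh, by rw [map_mul, map_mul, map_inv]⟩
  · rintro ⟨k, hk, he⟩
    refine ⟨g⁻¹ * k * g, (hg _).2 ?_, ?_⟩
    · have e : g * (g⁻¹ * k * g) * g⁻¹ = k := by group
      rw [e]
      exact hk
    · rw [map_mul, map_mul, map_inv, he]
      group

theorem sd_conj67 (g : FHat 2) (H : Subgroup (FHat 2)) :
    SameDessin H (H.map (MulAut.conj g).toMonoidHom) := by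
  refine ⟨g, fun x => ?_⟩
  constructor
  · intro hx
    exact ⟨x, hx, rfl⟩
  · rintro ⟨y, hy, he⟩
    have e : g * y * g⁻¹ = g * x * g⁻¹ := he
    have e2 : y = x := mul_left_cancel (mul_right_cancel e)
    rwa [← e2]

/-! ### Extension of endomorphisms of the free group -/

/-- The extension of an endomorphism of the free group to the free profinite group. -/
noncomputable def hx (θ : F2 →* F2) : FHat 2 →ₜ* FHat 2 := lft (of.comp θ)

theorem hx_of (θ : F2 →* F2) (w : F2) : hx θ (of w) = of (θ w) := lft_of _ _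

theorem hx_hx {θ θ' : F2 →* F2} (h : ∀ w, θ (θ' w) = w) (w : FHat 2) : hx θ (hx θ' w) = w := by
  refine hat_ext (φ := (hx θ).toMonoidHom.comp (hx θ').toMonoidHom) (ψ := MonoidHom.id _)
    ((hx θ).continuous_toFun.comp (hx θ').continuous_toFun) continuous_id (fun g => ?_) w
  show hx θ (hx θ' (of g)) = of g
  rw [hx_of, hx_of, h]

theorem map_hx_hx {θ θ' : F2 →* F2} (h : ∀ w, θ (θ' w) = w) (H : Subgroup (FHat 2)) :
    (H.map (hx θ').toMonoidHom).map (hx θ).toMonoidHom = H := by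
  ext x
  constructor
  · rintro ⟨_, ⟨y, hy, rfl⟩, rfl⟩
    have e : hx θ (hx θ' y) = y := hx_hx h y
    show hx θ (hx θ' y) ∈ H
    rw [e]
    exact hy
  · intro hxx
    exact ⟨_, ⟨x, hxx, rfl⟩, hx_hx h x⟩

theorem cl_map67 (θ : F2 →* F2) (H : Subgroup F2) :
    cl (H.map θ) = (cl H).map (hx θ).toMonoidHom := by
  have hcl : IsClosedMap (hx θ) := (hx θ).continuous_toFun.isClosedMap
  apply SetLike.coe_injective
  have e1 : (((H.map θ).map of : Subgroup (FHat 2)) : Set (FHat 2)) =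
      (hx θ) '' ((H.map of : Subgroup (FHat 2)) : Set (FHat 2)) := by
    ext x
    constructor
    · rintro ⟨_, ⟨y, hy, rfl⟩, rfl⟩
      exact ⟨of y, ⟨y, hy, rfl⟩, hx_of θ y⟩
    · rintro ⟨_, ⟨y, hy, rfl⟩, rfl⟩
      exact ⟨_, ⟨y, hy, rfl⟩, (hx_of θ y).symm⟩
  show closure (((H.map θ).map of : Subgroup (FHat 2)) : Set (FHat 2)) =
    (hx θ) '' closure ((H.map of : Subgroup (FHat 2)) : Set (FHat 2))
  rw [e1]
  exact hcl.closure_image_eq_of_continuous (hx θ).continuous_toFun _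

/-- `θ` commutes with the action up to conjugation. -/
def Comp67 (θ : F2 →* F2) : Prop := ∀ (lam : ZHat) (f : FHat 2), IsGT lam f →
  ∀ H : Subgroup (FHat 2), SameDessin (act lam f (H.map (hx θ).toMonoidHom))
    ((act lam f H).map (hx θ).toMonoidHom)

theorem Comp67.comp {θ ψ : F2 →* F2} (h1 : Comp67 θ) (h2 : Comp67 ψ) : Comp67 (θ.comp ψ) := by
  intro lam f h H
  have e : ∀ H : Subgroup (FHat 2), H.map (hx (θ.comp ψ)).toMonoidHom =
      (H.map (hx ψ).toMonoidHom).map (hx θ).toMonoidHom := by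
    intro H
    rw [Subgroup.map_map]
    congr 1
    ext w
    refine hat_ext (φ := (hx (θ.comp ψ)).toMonoidHom)
      (ψ := (hx θ).toMonoidHom.comp (hx ψ).toMonoidHom) (hx (θ.comp ψ)).continuous_toFun
      ((hx θ).continuous_toFun.comp (hx ψ).continuous_toFun) (fun g => ?_) w
    show hx (θ.comp ψ) (of g) = hx θ (hx ψ (of g))
    rw [hx_of, hx_of, hx_of]
    rfl
  rw [e, e]
  exact sd_trans67 (h1 lam f h _) (sd_map67 _ (h2 lam f h H))

theorem Comp67.inv {θ θ' : F2 →* F2} (h1 : Comp67 θ) (e1 : ∀ w, θ (θ' w) = w)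
    (e2 : ∀ w, θ' (θ w) = w) : Comp67 θ' := by
  intro lam f h H
  have h2 := sd_map67 (hx θ').toMonoidHom (h1 lam f h (H.map (hx θ').toMonoidHom))
  rw [map_hx_hx e1, map_hx_hx e2] at h2
  exact sd_symm67 h2

/-! ### Matrices up to sign -/

/-- Equality up to sign. -/
def PM (M N : Matrix (Fin 2) (Fin 2) ℤ) : Prop := M = N ∨ M = -N

theorem PM.refl (M : Matrix (Fin 2) (Fin 2) ℤ) : PM M M := Or.inl rfl

theorem PM.symm {M N : Matrix (Fin 2) (Fin 2) ℤ} (h : PM M N) : PM N M := by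
  rcases h with h | h
  · exact Or.inl h.symm
  · exact Or.inr (by rw [h, neg_neg])

theorem PM.trans {M N P : Matrix (Fin 2) (Fin 2) ℤ} (h : PM M N) (h' : PM N P) : PM M P := by
  rcases h with rfl | rfl <;> rcases h' with rfl | rfl
  · exact Or.inl rfl
  · exact Or.inr rfl
  · exact Or.inr rfl
  · exact Or.inl (neg_neg _)

theorem PM.mul {M N M' N' : Matrix (Fin 2) (Fin 2) ℤ} (h : PM M N) (h' : PM M' N') :
    PM (M * M') (N * N') := by
  rcases h with rfl | rfl <;> rcases h' with rfl | rfl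
  · exact Or.inl rfl
  · exact Or.inr (by simp)
  · exact Or.inr (by simp)
  · exact Or.inl (by simp)

theorem PM.left (A : Matrix (Fin 2) (Fin 2) ℤ) {M N : Matrix (Fin 2) (Fin 2) ℤ} (h : PM M N) :
    PM (A * M) (A * N) := (PM.refl A).mul h

theorem PM.right (A : Matrix (Fin 2) (Fin 2) ℤ) {M N : Matrix (Fin 2) (Fin 2) ℤ} (h : PM M N) :
    PM (M * A) (N * A) := h.mul (PM.refl A)

theorem PM.inv {g h : Matrix.SpecialLinearGroup (Fin 2) ℤ} (e : PM g.1 h.1) :
    PM (g⁻¹).1 (h⁻¹).1 := by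
  have e1 : ∀ g : Matrix.SpecialLinearGroup (Fin 2) ℤ,
      (g⁻¹).1 = !![g.1 1 1, -g.1 0 1; -g.1 1 0, g.1 0 0] := fun g => by
    rw [show (g⁻¹).1 = g.1.adjugate from Matrix.SpecialLinearGroup.coe_inv g,
      Matrix.adjugate_fin_two]
  rw [e1, e1]
  rcases e with e | e
  · exact Or.inl (by rw [e])
  · refine Or.inr ?_
    rw [e]
    ext i j
    fin_cases i <;> fin_cases j <;> simp

theorem PM.smul {c : ℤ} (hc : c ≠ 0) {M N : Matrix (Fin 2) (Fin 2) ℤ}
    (h : PM (c • M) (c • N)) : PM M N := by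
  have hinj : ∀ {M N : Matrix (Fin 2) (Fin 2) ℤ}, c • M = c • N → M = N := by
    intro M N h
    ext i j
    have h1 := congrFun (congrFun h i) j
    simp only [Matrix.smul_apply, smul_eq_mul] at h1
    exact mul_left_cancel₀ hc h1
  rcases h with h | h
  · exact Or.inl (hinj h)
  · refine Or.inr (hinj ?_)
    rw [h, smul_neg]

theorem pm_hom {φ ψ : F2 →* Matrix.SpecialLinearGroup (Fin 2) ℤ}
    (h : ∀ i, PM (φ (FreeGroup.of i)).1 (ψ (FreeGroup.of i)).1) (w : F2) :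
    PM (φ w).1 (ψ w).1 := by
  induction w using FreeGroup.induction_on with
  | C1 =>
    rw [map_one, map_one]
    exact PM.refl _
  | of i => exact h i
  | inv_of i hi =>
    rw [map_inv, map_inv]
    exact hi.inv
  | mul x y hx hy =>
    rw [map_mul, map_mul]
    exact hx.mul hy

/-- The matrix `B` is realised by an automorphism. -/
def Adm (B : Matrix.SpecialLinearGroup (Fin 2) ℤ) : Prop := ∃ θ θ' : F2 →* F2,
  (∀ w, θ (θ' w) = w) ∧ (∀ w, θ' (θ w) = w) ∧
  (∀ h, PM (mat (θ h)).1 (B * mat h * B⁻¹).1) ∧ Comp67 θ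

theorem Adm.mul {A B : Matrix.SpecialLinearGroup (Fin 2) ℤ} (hA : Adm A) (hB : Adm B) :
    Adm (A * B) := by
  obtain ⟨θ, θ', e1, e2, hm, hc⟩ := hA
  obtain ⟨ψ, ψ', e3, e4, hn, hp⟩ := hB
  refine ⟨θ.comp ψ, ψ'.comp θ', fun w => ?_, fun w => ?_, fun h => ?_, hc.comp hp⟩
  · show θ (ψ (ψ' (θ' w))) = w
    rw [e3, e1]
  · show ψ' (θ' (θ (ψ w))) = w
    rw [e2, e4]
  · have h1 := (hm (ψ h)).trans (((hn h).left A.1).right (A⁻¹).1)
    have e : (A * B * mat h * (A * B)⁻¹).1 = A.1 * (B * mat h * B⁻¹).1 * (A⁻¹).1 := by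
      have : A * B * mat h * (A * B)⁻¹ = A * (B * mat h * B⁻¹) * A⁻¹ := by group
      rw [this]
      rfl
    rw [e]
    exact h1

theorem Adm.inv {A : Matrix.SpecialLinearGroup (Fin 2) ℤ} (hA : Adm A) : Adm A⁻¹ := by
  obtain ⟨θ, θ', e1, e2, hm, hc⟩ := hA
  refine ⟨θ', θ, e2, e1, fun h => ?_, hc.inv e1 e2⟩
  have h1 := ((hm (θ' h)).left (A⁻¹).1).right A.1
  rw [e1] at h1
  have e : (A⁻¹).1 * (A * mat (θ' h) * A⁻¹).1 * A.1 = (mat (θ' h)).1 := by
    have : A⁻¹ * (A * mat (θ' h) * A⁻¹) * A = mat (θ' h) := by group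
    exact congrArg Subtype.val this
  rw [e] at h1
  rw [inv_inv]
  exact h1.symm

theorem adm_one : Adm 1 := by
  refine ⟨MonoidHom.id _, MonoidHom.id _, fun w => rfl, fun w => rfl, fun h => ?_, ?_⟩
  · rw [one_mul, inv_one, mul_one]
    exact PM.refl _
  · intro lam f h H
    have e : ∀ H : Subgroup (FHat 2), H.map (hx (MonoidHom.id F2)).toMonoidHom = H := by
      intro H
      have e1 := map_hx_hx (θ := MonoidHom.id F2) (θ' := MonoidHom.id F2) (fun w => rfl) H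
      have e2 : ∀ w, hx (MonoidHom.id F2) w = w := by
        intro w
        refine hat_ext (φ := (hx (MonoidHom.id F2)).toMonoidHom) (ψ := MonoidHom.id _)
          (hx (MonoidHom.id F2)).continuous_toFun continuous_id (fun g => ?_) w
        exact hx_of _ g
      ext x
      constructor
      · rintro ⟨y, hy, rfl⟩
        show hx (MonoidHom.id F2) y ∈ H
        rw [e2]
        exact hy
      · intro hxx
        exact ⟨x, hxx, e2 x⟩
    rw [e, e]
    exact sd_refl67 _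

/-! ### The generators -/

/-- `x ↦ y`, `y ↦ x`. -/
def tS : F2 →* F2 := FreeGroup.lift ![FreeGroup.of 1, FreeGroup.of 0]

/-- `x ↦ x`, `y ↦ y⁻¹ x⁻¹`. -/
def tT : F2 →* F2 :=
  FreeGroup.lift ![FreeGroup.of 0, (FreeGroup.of 1)⁻¹ * (FreeGroup.of 0)⁻¹]

/-- `x ↦ x`, `y ↦ x⁻¹ y⁻¹`. -/
def tT' : F2 →* F2 :=
  FreeGroup.lift ![FreeGroup.of 0, (FreeGroup.of 0)⁻¹ * (FreeGroup.of 1)⁻¹]

theorem f2_ext {G : Type} [Group G] {φ ψ : F2 →* G} (h0 : φ (FreeGroup.of 0) = ψ (FreeGroup.of 0))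
    (h1 : φ (FreeGroup.of 1) = ψ (FreeGroup.of 1)) (w : F2) : φ w = ψ w := by
  have h : φ = ψ := by
    refine FreeGroup.ext_hom φ ψ fun i => ?_
    fin_cases i
    · exact h0
    · exact h1
  rw [h]

theorem mat_0 : (mat (FreeGroup.of 0)).1 = !![1, 2; 0, 1] := by simp [mat]

theorem mat_1 : (mat (FreeGroup.of 1)).1 = !![1, 0; -2, 1] := by simp [mat]

theorem sd_swp (lam : ZHat) (f : FHat 2) (h : IsGT lam f) (H : Subgroup (FHat 2)) :
    SameDessin (act lam f (swp H)) (swp (act lam f H)) := by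
  obtain ⟨g, hg⟩ := (stL lam f h H).1
  rw [hg]
  exact sd_symm67 (sd_conj67 g _)

theorem sd_rot (lam : ZHat) (f : FHat 2) (h : IsGT lam f) (H : Subgroup (FHat 2)) :
    SameDessin (act lam f (rot H)) (rot (act lam f H)) := by
  obtain ⟨g, hg⟩ := (stL lam f h H).2
  rw [hg]
  exact sd_symm67 (sd_conj67 g _)

theorem adm_S : Adm ModularGroup.S := by
  have e1 : ∀ w, tS (tS w) = w := fun w => f2_ext (φ := tS.comp tS) (ψ := MonoidHom.id _)
    (by simp [tS]) (by simp [tS]) w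
  refine ⟨tS, tS, e1, e1, fun h => ?_, ?_⟩
  · refine pm_hom (φ := mat.comp tS)
      (ψ := (MulAut.conj ModularGroup.S).toMonoidHom.comp mat) (fun i => Or.inl ?_) h
    fin_cases i
    · show (mat (tS (FreeGroup.of 0))).1 =
        (ModularGroup.S * mat (FreeGroup.of 0) * ModularGroup.S⁻¹).1
      have e : tS (FreeGroup.of 0) = FreeGroup.of 1 := by simp [tS]
      rw [e]
      decide
    · show (mat (tS (FreeGroup.of 1))).1 =
        (ModularGroup.S * mat (FreeGroup.of 1) * ModularGroup.S⁻¹).1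
      have e : tS (FreeGroup.of 1) = FreeGroup.of 0 := by simp [tS]
      rw [e]
      decide
  · intro lam f h H
    have e : ∀ H : Subgroup (FHat 2), H.map (hx tS).toMonoidHom = swp H := by
      intro H
      unfold swp
      congr 1
      ext w
      refine FHat2_ext (φ := (hx tS).toMonoidHom) (ψ := (ev ![Y, X] : FHat 2 →ₜ* FHat 2).toMonoidHom)
        (hx tS).continuous_toFun (ev ![Y, X] : FHat 2 →ₜ* FHat 2).continuous_toFun ?_ ?_ w
      · show hx tS (of (FreeGroup.of 0)) = ev ![Y, X] (gen 0)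
        rw [hx_of, ev_gen]
        simp [tS]
        rfl
      · show hx tS (of (FreeGroup.of 1)) = ev ![Y, X] (gen 1)
        rw [hx_of, ev_gen]
        simp [tS]
        rfl
    rw [e, e]
    exact sd_swp lam f h H

theorem adm_T : Adm ModularGroup.T := by
  refine ⟨tT, tT', fun w => f2_ext (φ := tT.comp tT') (ψ := MonoidHom.id _)
    (by simp [tT, tT']) (by simp [tT, tT']) w, fun w => f2_ext (φ := tT'.comp tT)
    (ψ := MonoidHom.id _) (by simp [tT, tT']) (by simp [tT, tT']) w, fun h => ?_, ?_⟩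
  · refine pm_hom (φ := mat.comp tT)
      (ψ := (MulAut.conj ModularGroup.T).toMonoidHom.comp mat) (fun i => ?_) h
    fin_cases i
    · refine Or.inl ?_
      show (mat (tT (FreeGroup.of 0))).1 =
        (ModularGroup.T * mat (FreeGroup.of 0) * ModularGroup.T⁻¹).1
      have e : tT (FreeGroup.of 0) = FreeGroup.of 0 := by simp [tT]
      rw [e]
      decide
    · refine Or.inr ?_
      show (mat (tT (FreeGroup.of 1))).1 =
        -(ModularGroup.T * mat (FreeGroup.of 1) * ModularGroup.T⁻¹).1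
      have e : tT (FreeGroup.of 1) = (FreeGroup.of 1)⁻¹ * (FreeGroup.of 0)⁻¹ := by simp [tT]
      rw [e, map_mul, map_inv, map_inv]
      decide
  · intro lam f h H
    have e : ∀ H : Subgroup (FHat 2), H.map (hx tT).toMonoidHom = cj X (swp (rot H)) := by
      intro H
      unfold cj swp rot
      rw [Subgroup.map_map, Subgroup.map_map]
      congr 1
      ext w
      refine FHat2_ext (φ := (hx tT).toMonoidHom)
        (ψ := ((MulAut.conj X).toMonoidHom.comp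
          (ev ![Y, X] : FHat 2 →ₜ* FHat 2).toMonoidHom).comp
          (ev ![Y, MPb66790.Z] : FHat 2 →ₜ* FHat 2).toMonoidHom)
        (hx tT).continuous_toFun ?_ ?_ ?_ w
      · have hc := (ev ![Y, X] : FHat 2 →ₜ* FHat 2).continuous_toFun.comp
          (ev ![Y, MPb66790.Z] : FHat 2 →ₜ* FHat 2).continuous_toFun
        exact (continuous_const.mul hc).mul continuous_const
      · show hx tT (of (FreeGroup.of 0)) =
          X * ev ![Y, X] (ev ![Y, MPb66790.Z] (gen 0)) * X⁻¹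
        rw [hx_of, ev_gen]
        have e1 : tT (FreeGroup.of 0) = FreeGroup.of 0 := by simp [tT]
        rw [e1]
        show X = X * ev ![Y, X] (gen 1) * X⁻¹
        rw [ev_gen]
        show X = X * X * X⁻¹
        group
      · show hx tT (of (FreeGroup.of 1)) =
          X * ev ![Y, X] (ev ![Y, MPb66790.Z] (gen 1)) * X⁻¹
        rw [hx_of, ev_gen]
        have e1 : tT (FreeGroup.of 1) = (FreeGroup.of 1)⁻¹ * (FreeGroup.of 0)⁻¹ := by simp [tT]
        rw [e1]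
        show of ((FreeGroup.of 1)⁻¹ * (FreeGroup.of 0)⁻¹) = X * ev ![Y, X] (X * Y)⁻¹ * X⁻¹
        rw [map_inv, map_mul, map_mul, map_inv, map_inv]
        have e2 : ev ![Y, X] X = Y := ev_gen _ 0
        have e3 : ev ![Y, X] Y = X := ev_gen _ 1
        rw [e2, e3]
        show Y⁻¹ * X⁻¹ = X * (Y * X)⁻¹ * X⁻¹
        group
    rw [e, e]
    have h1 : act lam f (cj X (swp (rot H))) =
        cj (phi lam f X) (act lam f (swp (rot H))) := map_cj _ _ _
    rw [h1]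
    refine sd_trans67 (sd_symm67 (sd_conj67 _ _)) ?_
    refine sd_trans67 (sd_swp lam f h _) ?_
    refine sd_trans67 (sd_map67 _ (sd_rot lam f h H)) ?_
    exact sd_conj67 X _

theorem adm_all (B : Matrix.SpecialLinearGroup (Fin 2) ℤ) : Adm B := by
  have hB : B ∈ Subgroup.closure
      ({ModularGroup.S, ModularGroup.T} : Set (Matrix.SpecialLinearGroup (Fin 2) ℤ)) := by
    rw [SpecialLinearGroup.SL2Z_generators]
    trivial
  induction hB using Subgroup.closure_induction with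
  | mem x hx =>
    rcases hx with rfl | rfl
    · exact adm_S
    · exact adm_T
  | one => exact adm_one
  | mul x y _ _ hx hy => exact hx.mul hy
  | inv x _ hx => exact hx.inv

theorem finIndex_map67 {θ θ' : F2 →* F2} (e1 : ∀ w, θ (θ' w) = w) (e2 : ∀ w, θ' (θ w) = w)
    {H : Subgroup F2} (hH : H.FiniteIndex) : (H.map θ).FiniteIndex := by
  refine ⟨?_⟩
  rw [Subgroup.index_map_of_bijective ⟨LeftInverse.injective e2, RightInverse.surjective e1⟩]
  exact hH.index_ne_zero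

theorem inv_mul_val (A : Matrix.SpecialLinearGroup (Fin 2) ℤ) : (A⁻¹).1 * A.1 = 1 := by
  have h : (A⁻¹ * A) = 1 := inv_mul_cancel A
  exact congrArg Subtype.val h

theorem mul_inv_val (A : Matrix.SpecialLinearGroup (Fin 2) ℤ) : A.1 * (A⁻¹).1 = 1 := by
  have h : (A * A⁻¹) = 1 := mul_inv_cancel A
  exact congrArg Subtype.val h

/-- The main step: from `StDiag` to `StAll`. -/
theorem core67 (P : Matrix.SpecialLinearGroup (Fin 2) ℤ → Prop)
    (hP : ∀ A γ, P γ → P (A * γ * A⁻¹)) {lam : ZHat} {f : FHat 2} (h : IsGT lam f)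
    (hD : ∀ (n : ℕ) (H K : Subgroup (FHat 2)), Isog !![(n : ℤ) + 1, 0; 0, 1] H K →
      ∃ γ : Matrix.SpecialLinearGroup (Fin 2) ℤ, P γ ∧
        Isog (γ.1 * !![(n : ℤ) + 1, 0; 0, 1]) (act lam f H) (act lam f K))
    (g : Matrix (Fin 2) (Fin 2) ℤ) (hg : 0 < g.det) {H K : Subgroup (FHat 2)} (hI : Isog g H K) :
    ∃ γ : Matrix.SpecialLinearGroup (Fin 2) ℤ, P γ ∧
      Isog (γ.1 * g) (act lam f H) (act lam f K) := by
  obtain ⟨A, B, d, N, hd, hN, he⟩ := HK31.smith31 g hg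
  obtain ⟨n, rfl⟩ : ∃ n, N = n + 1 := ⟨N - 1, by omega⟩
  set D : Matrix (Fin 2) (Fin 2) ℤ := !![(n : ℤ) + 1, 0; 0, 1] with hDdef
  have hd' : (d : ℤ) ≠ 0 := by exact_mod_cast hd.ne'
  have hgd : g = (d : ℤ) • (A.1 * D * B.1) := by
    rw [he]
    have e : (!![(d : ℤ) * ((n + 1 : ℕ) : ℤ), 0; 0, (d : ℤ)] : Matrix (Fin 2) (Fin 2) ℤ) =
        (d : ℤ) • D := by
      ext i j
      fin_cases i <;> fin_cases j <;> simp [hDdef]
    rw [e, Matrix.mul_smul, Matrix.smul_mul]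
  obtain ⟨θ, θ', e1, e2, hm, hc⟩ := adm_all B
  obtain ⟨ψ, ψ', e3, e4, hn, hp⟩ := adm_all A⁻¹
  obtain ⟨H₀, K₀, f1, f2, hk, kh, s1, s2⟩ := hI
  -- from `g` to `D`
  have down : ∀ a b : F2, Sim g a b → Sim D (θ a) (ψ b) := by
    intro a b hab
    have h0 : PM (g * (mat a).1) ((mat b).1 * g) := hab
    rw [hgd, Matrix.smul_mul, Matrix.mul_smul] at h0
    have h1 := PM.smul hd' h0
    have h2 := (h1.left (A⁻¹).1).right (B⁻¹).1
    have h3 : PM (D * (mat (θ a)).1) (D * (B * mat a * B⁻¹).1) := (hm a).left D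
    have h4 : PM ((mat (ψ b)).1 * D) ((A⁻¹ * mat b * A⁻¹⁻¹).1 * D) := (hn b).right D
    have e5 : D * (B * mat a * B⁻¹).1 =
        (A⁻¹).1 * (A.1 * D * B.1 * (mat a).1) * (B⁻¹).1 := by
      show D * (B.1 * (mat a).1 * (B⁻¹).1) = _
      calc D * (B.1 * (mat a).1 * (B⁻¹).1) = 1 * D * B.1 * (mat a).1 * (B⁻¹).1 := by
            simp only [one_mul, mul_assoc]
        _ = _ := by rw [← inv_mul_val A]; simp only [mul_assoc]
    have e6 : (A⁻¹ * mat b * A⁻¹⁻¹).1 * D =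
        (A⁻¹).1 * ((mat b).1 * (A.1 * D * B.1)) * (B⁻¹).1 := by
      rw [inv_inv]
      show (A⁻¹).1 * (mat b).1 * A.1 * D = _
      calc (A⁻¹).1 * (mat b).1 * A.1 * D = (A⁻¹).1 * (mat b).1 * A.1 * D * 1 := by rw [mul_one]
        _ = _ := by rw [← mul_inv_val B]; simp only [mul_assoc]
    rw [e5] at h3
    rw [e6] at h4
    exact (h3.trans h2).trans h4.symm
  have I1 : Isog D (cl (H₀.map θ)) (cl (K₀.map ψ)) := by
    refine ⟨H₀.map θ, K₀.map ψ, finIndex_map67 e1 e2 f1, finIndex_map67 e3 e4 f2, ?_, ?_,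
      sd_refl67 _, sd_refl67 _⟩
    · rintro _ ⟨a, ha, rfl⟩
      obtain ⟨b, hb, hab⟩ := hk a ha
      exact ⟨ψ b, ⟨b, hb, rfl⟩, down a b hab⟩
    · rintro _ ⟨b, hb, rfl⟩
      obtain ⟨a, ha, hab⟩ := kh b hb
      exact ⟨θ a, ⟨a, ha, rfl⟩, down a b hab⟩
  obtain ⟨γ, hγ, H₁, K₁, f3, f4, hk1, kh1, s3, s4⟩ := hD n _ _ I1
  have up : ∀ a b : F2, Sim (γ.1 * D) (θ a) (ψ b) → Sim ((A * γ * A⁻¹).1 * g) a b := by
    intro a b hab
    have h0 : PM (γ.1 * D * (mat (θ a)).1) ((mat (ψ b)).1 * (γ.1 * D)) := hab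
    have h1 : PM (γ.1 * D * (B * mat a * B⁻¹).1) ((A⁻¹ * mat b * A⁻¹⁻¹).1 * (γ.1 * D)) :=
      (((hm a).left (γ.1 * D)).symm.trans h0).trans ((hn b).right (γ.1 * D))
    have h2 := (h1.left A.1).right B.1
    have e5 : A.1 * (γ.1 * D * (B * mat a * B⁻¹).1) * B.1 =
        (A.1 * γ.1 * D * B.1) * (mat a).1 := by
      show A.1 * (γ.1 * D * (B.1 * (mat a).1 * (B⁻¹).1)) * B.1 = _
      calc A.1 * (γ.1 * D * (B.1 * (mat a).1 * (B⁻¹).1)) * B.1 =
          A.1 * γ.1 * D * B.1 * (mat a).1 * ((B⁻¹).1 * B.1) := by simp only [mul_assoc]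
        _ = _ := by rw [inv_mul_val, mul_one]
    have e6 : A.1 * ((A⁻¹ * mat b * A⁻¹⁻¹).1 * (γ.1 * D)) * B.1 =
        (mat b).1 * (A.1 * γ.1 * D * B.1) := by
      rw [inv_inv]
      show A.1 * ((A⁻¹).1 * (mat b).1 * A.1 * (γ.1 * D)) * B.1 = _
      calc A.1 * ((A⁻¹).1 * (mat b).1 * A.1 * (γ.1 * D)) * B.1 =
          (A.1 * (A⁻¹).1) * (mat b).1 * (A.1 * γ.1 * D * B.1) := by simp only [mul_assoc]
        _ = _ := by rw [mul_inv_val, one_mul]
    rw [e5, e6] at h2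
    have e7 : (A * γ * A⁻¹).1 * g = (d : ℤ) • (A.1 * γ.1 * D * B.1) := by
      rw [hgd, Matrix.mul_smul]
      congr 1
      show A.1 * γ.1 * (A⁻¹).1 * (A.1 * D * B.1) = _
      calc A.1 * γ.1 * (A⁻¹).1 * (A.1 * D * B.1) =
          A.1 * γ.1 * ((A⁻¹).1 * A.1) * D * B.1 := by simp only [mul_assoc]
        _ = _ := by rw [inv_mul_val, mul_one]
    show PM ((A * γ * A⁻¹).1 * g * (mat a).1) ((mat b).1 * ((A * γ * A⁻¹).1 * g))
    rw [e7, Matrix.smul_mul, Matrix.mul_smul]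
    rcases h2 with h2 | h2
    · exact Or.inl (by rw [h2])
    · exact Or.inr (by rw [h2, smul_neg])
  refine ⟨A * γ * A⁻¹, hP A γ hγ, H₁.map θ', K₁.map ψ', finIndex_map67 e2 e1 f3, finIndex_map67 e4 e3 f4,
    ?_, ?_, ?_, ?_⟩
  · rintro _ ⟨a, ha, rfl⟩
    obtain ⟨b, hb, hab⟩ := hk1 a ha
    refine ⟨ψ' b, ⟨b, hb, rfl⟩, up _ _ ?_⟩
    rw [e1, e3]
    exact hab
  · rintro _ ⟨b, hb, rfl⟩
    obtain ⟨a, ha, hab⟩ := kh1 b hb
    refine ⟨θ' a, ⟨a, ha, rfl⟩, up _ _ ?_⟩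
    rw [e1, e3]
    exact hab
  · rw [cl_map67] at s3 ⊢
    have t1 := sd_trans67 s3 (sd_trans67 (hc lam f h (cl H₀))
      (sd_map67 (hx θ).toMonoidHom (sd_map67 (phi lam f).toMonoidHom s1)))
    have t2 := sd_map67 (hx θ').toMonoidHom t1
    rw [map_hx_hx e2] at t2
    exact t2
  · rw [cl_map67] at s4 ⊢
    have t1 := sd_trans67 s4 (sd_trans67 (hp lam f h (cl K₀))
      (sd_map67 (hx ψ).toMonoidHom (sd_map67 (phi lam f).toMonoidHom s2)))
    have t2 := sd_map67 (hx ψ').toMonoidHom t1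
    rw [map_hx_hx e4] at t2
    exact t2

theorem stAllOfDiag_67 : StAllOfDiag := by
  intro hD lam f h g hg H K hI
  obtain ⟨γ, -, hγ⟩ := core67 (fun _ => True) (fun _ _ _ => trivial) h
    (fun n H K hI => by
      obtain ⟨γ, hγ⟩ := hD lam f h n H K hI
      exact ⟨γ, trivial, hγ⟩) g hg hI
  exact ⟨γ, hγ⟩

/-- The exact form: without a twist in the diagonal case there is none in general. -/
theorem stAllX_67 {lam : ZHat} {f : FHat 2} (h : IsGT lam f)
    (hD : ∀ (n : ℕ) (H K : Subgroup (FHat 2)), Isog !![(n : ℤ) + 1, 0; 0, 1] H K →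
      Isog !![(n : ℤ) + 1, 0; 0, 1] (act lam f H) (act lam f K))
    (g : Matrix (Fin 2) (Fin 2) ℤ) (hg : 0 < g.det) {H K : Subgroup (FHat 2)} (hI : Isog g H K) :
    Isog g (act lam f H) (act lam f K) := by
  obtain ⟨γ, e, hγ⟩ := core67 (fun γ => γ = 1)
    (fun A γ e => by rw [e, mul_one, mul_inv_cancel]) h
    (fun n H K hI => ⟨1, rfl, by
      have e : ((1 : Matrix.SpecialLinearGroup (Fin 2) ℤ)).1 * !![(n : ℤ) + 1, 0; 0, 1] =
          !![(n : ℤ) + 1, 0; 0, 1] := one_mul _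
      rw [e]
      exact hD n H K hI⟩) g hg hI
  have e2 : γ.1 * g = g := by
    rw [e]
    exact one_mul _
  rw [e2] at hγ
  exact hγ

end MPb66790.HK24
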