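import Pool.Agent.Lib.MP_b66790_nt.Hecke.Stmt24b

/-!
# The isogeny of degree `N` of the punctured torus on the free group: `Theta_N`

`b = of 0` and `a = of 1` are the generators of the free group. `ch w` is the exponent sum of `b`
in `w` modulo `N`; `th i w` is the cocycle with `th i a = a` if `i = 0` and `b a b⁻¹` otherwise,
`th i b = b` if `i + 1 = 0` and `1` otherwise. On the kernel of `ch` the map `th 0` is a
homomorphism, `a ↦ a`, `b ^ i a b ^ (-i) ↦ b a b⁻¹` (`0 < i < N`), `b ^ N ↦ b`.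
-/

namespace MPb66790.Th57

open MPb66790.HK24

/-- the first generator -/
def a : F2 := FreeGroup.of 1

/-- the second generator -/
def b : F2 := FreeGroup.of 0

theorem hom_ext2 {G : Type*} [Group G] {f g : F2 →* G} (ha : f a = g a) (hb : f b = g b) :
    f = g := by
  ext i
  fin_cases i
  · exact hb
  · exact ha

/-- homomorphism given by two values -/
def hom2 {G : Type*} [Group G] (u v : G) : F2 →* G := FreeGroup.lift ![v, u]

@[simp] theorem hom2_a {G : Type*} [Group G] (u v : G) : hom2 u v a = u := by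
  simp [hom2, a]

@[simp] theorem hom2_b {G : Type*} [Group G] (u v : G) : hom2 u v b = v := by
  simp [hom2, b]

theorem cD_eq : cD = a * b * a⁻¹ * b⁻¹ := rfl



/-- the element `b a b⁻¹` -/
def d : F2 := b * a * b⁻¹

section
variable (N : ℕ)

/-- the shift by `m` on functions on `ZMod N` -/
def shf (m : ZMod N) : MulAut (ZMod N → F2) where
  toFun g i := g (i + m)
  invFun g i := g (i - m)
  left_inv g := by
    funext i
    simp
  right_inv g := by
    funext i
    simp
  map_mul' g h := rfl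

/-- the shift as a homomorphism -/
def shft : Multiplicative (ZMod N) →* MulAut (ZMod N → F2) where
  toFun m := shf N m.toAdd
  map_one' := by
    ext g i
    show g (i + 0) = g i
    rw [add_zero]
  map_mul' m m' := by
    ext g i
    show g (i + (m.toAdd + m'.toAdd)) = g (i + m.toAdd + m'.toAdd)
    rw [add_assoc]

/-- the wreath product -/
abbrev Wr : Type := (ZMod N → F2) ⋊[shft N] Multiplicative (ZMod N)

/-- the homomorphism to the wreath product -/
noncomputable def wh : F2 →* Wr N := hom2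
  ⟨fun i => if i = 0 then a else d, 1⟩
  ⟨fun i => if i + 1 = 0 then b else 1, Multiplicative.ofAdd 1⟩

/-- the exponent sum of `b` modulo `N`, as a homomorphism -/
def chi : F2 →* Multiplicative (ZMod N) := hom2 1 (Multiplicative.ofAdd 1)

/-- the exponent sum of `b` modulo `N` -/
def ch (w : F2) : ZMod N := (chi N w).toAdd

/-- the cocycle -/
noncomputable def th (i : ZMod N) (w : F2) : F2 := (wh N w).left i

end

variable {N : ℕ}

theorem wh_right (w : F2) : (wh N w).right = chi N w := by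
  have h : (SemidirectProduct.rightHom (φ := shft N)).comp (wh N) = chi N := by
    refine hom_ext2 ?_ ?_
    · show ((wh N) a).right = chi N a
      unfold wh chi
      rw [hom2_a, hom2_a]
    · show ((wh N) b).right = chi N b
      unfold wh chi
      rw [hom2_b, hom2_b]
  exact DFunLike.congr_fun h w

@[simp] theorem ch_a : ch N a = 0 := by
  unfold ch chi
  rw [hom2_a]
  rfl

@[simp] theorem ch_b : ch N b = 1 := by
  unfold ch chi
  rw [hom2_b]
  rfl

@[simp] theorem ch_mul (w w' : F2) : ch N (w * w') = ch N w + ch N w' := by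
  unfold ch
  rw [map_mul]
  rfl

@[simp] theorem ch_one : ch N 1 = 0 := by
  unfold ch
  rw [map_one]
  rfl

@[simp] theorem ch_inv (w : F2) : ch N w⁻¹ = -ch N w := by
  unfold ch
  rw [map_inv]
  rfl

@[simp] theorem ch_pow (w : F2) (k : ℕ) : ch N (w ^ k) = k * ch N w := by
  induction k with
  | zero => simp
  | succ k ih => rw [pow_succ, ch_mul, ih]; push_cast; ring

theorem mem_ker {w : F2} : w ∈ (chi N).ker ↔ ch N w = 0 := by
  rw [MonoidHom.mem_ker]
  rfl

@[simp] theorem th_a (i : ZMod N) : th N i a = if i = 0 then a else d := by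
  unfold th wh
  rw [hom2_a]

@[simp] theorem th_b (i : ZMod N) : th N i b = if i + 1 = 0 then b else 1 := by
  unfold th wh
  rw [hom2_b]

theorem th_mul (i : ZMod N) (w w' : F2) : th N i (w * w') = th N i w * th N (i + ch N w) w' := by
  unfold th
  rw [map_mul, SemidirectProduct.mul_left, wh_right]
  rfl

@[simp] theorem th_one (i : ZMod N) : th N i 1 = 1 := by
  unfold th
  rw [map_one]
  rfl

theorem th_inv (i : ZMod N) (w : F2) : th N i w⁻¹ = (th N (i - ch N w) w)⁻¹ := by
  have h := th_mul (i - ch N w) w w⁻¹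
  rw [mul_inv_cancel, th_one, sub_add_cancel] at h
  exact (inv_eq_of_mul_eq_one_right h.symm).symm

theorem th_conj (i : ZMod N) (u w : F2) (hw : ch N w = 0) :
    th N i (u * w * u⁻¹) = th N i u * th N (i + ch N u) w * (th N i u)⁻¹ := by
  rw [th_mul, th_mul, th_inv]
  simp [hw]

/-- the commutator is invisible at the other punctures -/
theorem th_cc_ne {i : ZMod N} (hi : i ≠ 0) : th N i cD = 1 := by
  rw [cD_eq]
  rw [th_mul, th_mul, th_mul, th_inv, th_inv, th_a, th_b]
  simp only [ch_mul, ch_inv, ch_a, ch_b]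
  by_cases h1 : i + 1 = 0
  · simp [hi, h1, d, mul_assoc]
  · simp [hi, h1]

theorem ch_cc : ch N cD = 0 := by
  rw [cD_eq]
  simp

theorem th_cc : th N 0 cD = cD := by
  rw [cD_eq]
  rw [th_mul, th_mul, th_mul, th_inv, th_inv, th_a, th_b]
  simp only [ch_mul, ch_inv, ch_a, ch_b]
  by_cases h1 : (1 : ZMod N) = 0
  · simp [h1]
  · simp [h1, d, mul_assoc]

/-- `Theta_N` on the subgroup of `b`-exponent `0` modulo `N` -/
noncomputable def Tht (N : ℕ) : (chi N).ker →* F2 where
  toFun w := th N 0 w.1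
  map_one' := th_one 0
  map_mul' w w' := by
    show th N 0 (w.1 * w'.1) = _
    rw [th_mul, mem_ker.1 w.2, add_zero]

section fac

set_option linter.unusedSectionVars false

variable [NeZero N]

/-- the path of `w` starting at `i`, closed up by powers of `b` -/
def br (i : ZMod N) (w : F2) : (chi N).ker :=
  ⟨b ^ i.val * w * (b ^ (i + ch N w).val)⁻¹, by
    rw [mem_ker]
    simp⟩

theorem br_mul (i : ZMod N) (w w' : F2) : br i (w * w') = br i w * br (i + ch N w) w' := by
  apply Subtype.ext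
  show b ^ i.val * (w * w') * (b ^ (i + ch N (w * w')).val)⁻¹ =
    (b ^ i.val * w * (b ^ (i + ch N w).val)⁻¹) *
      (b ^ (i + ch N w).val * w' * (b ^ (i + ch N w + ch N w').val)⁻¹)
  rw [ch_mul, add_assoc]
  group

theorem br_one (i : ZMod N) : br i (1 : F2) = 1 := by
  apply Subtype.ext
  show b ^ i.val * 1 * (b ^ (i + ch N 1).val)⁻¹ = 1
  rw [ch_one, add_zero, mul_one, mul_inv_cancel]

theorem br_inv (i : ZMod N) (w : F2) : br i w⁻¹ = (br (i - ch N w) w)⁻¹ := by
  have h := br_mul (i - ch N w) w w⁻¹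
  rw [mul_inv_cancel, br_one, sub_add_cancel] at h
  exact (inv_eq_of_mul_eq_one_right h.symm).symm

theorem br_zero {w : F2} (hw : w ∈ (chi N).ker) : br (0 : ZMod N) w = ⟨w, hw⟩ := by
  apply Subtype.ext
  show b ^ (0 : ZMod N).val * w * (b ^ (0 + ch N w).val)⁻¹ = w
  rw [mem_ker.1 hw, add_zero, ZMod.val_zero]
  simp

theorem val_succ (i : ZMod N) : (i + 1 = 0 ∧ i.val + 1 = N ∧ (i + 1).val = 0) ∨
    (i + 1 ≠ 0 ∧ (i + 1).val = i.val + 1) := by
  have h1 : i + 1 = ((i.val + 1 : ℕ) : ZMod N) := by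
    push_cast
    rw [ZMod.natCast_val, ZMod.cast_id]
  have h2 : i.val < N := ZMod.val_lt i
  rcases Nat.lt_or_ge (i.val + 1) N with h3 | h3
  · right
    have h4 : (i + 1).val = i.val + 1 := by
      rw [h1, ZMod.val_natCast, Nat.mod_eq_of_lt h3]
    refine ⟨?_, h4⟩
    intro h0
    rw [h0, ZMod.val_zero] at h4
    omega
  · left
    have h4 : i.val + 1 = N := by omega
    have h5 : i + 1 = 0 := by rw [h1, h4, ZMod.natCast_self]
    exact ⟨h5, h4, by rw [h5, ZMod.val_zero]⟩

/-- `b ^ j g b ^ -j` in the kernel -/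
def kj (j : ℕ) (g : F2) (hg : ch N g = 0) : (chi N).ker :=
  ⟨b ^ j * g * (b ^ j)⁻¹, by
    rw [mem_ker]
    simp [hg]⟩

variable {G : Type*} [Group G] (φ : (chi N).ker →* G)

theorem a_mem : a ∈ (chi N).ker := mem_ker.2 ch_a

theorem bN_mem : b ^ N ∈ (chi N).ker := mem_ker.2 (by simp)

/-- the factor map -/
def fc : F2 →* G := hom2 (φ ⟨a, a_mem⟩) (φ ⟨b ^ N, bN_mem⟩)

theorem fac_a (h : ∀ j : ℕ, 0 < j → j < N → φ (kj j cD ch_cc) = 1) (j : ℕ) (hj : 0 < j)
    (hjN : j ≤ N) : φ (kj j a ch_a) = fc φ d := by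
  induction hjN using Nat.decreasingInduction with
  | self =>
    have e : (kj N a ch_a : (chi N).ker) = ⟨b ^ N, bN_mem⟩ * ⟨a, a_mem⟩ * ⟨b ^ N, bN_mem⟩⁻¹ := rfl
    rw [e, map_mul, map_mul, map_inv]
    unfold fc d
    rw [map_mul, map_mul, map_inv, hom2_a, hom2_b]
  | of_succ k hk ih =>
    have h1 := ih (Nat.succ_pos k)
    have e : (kj k cD ch_cc : (chi N).ker) = kj k a ch_a * (kj (k + 1) a ch_a)⁻¹ := by
      apply Subtype.ext
      show b ^ k * cD * (b ^ k)⁻¹ = b ^ k * a * (b ^ k)⁻¹ * (b ^ (k + 1) * a * (b ^ (k + 1))⁻¹)⁻¹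
      rw [cD_eq]
      rw [pow_succ]
      group
    have h2 := h k hj hk
    rw [e, map_mul, map_inv, mul_inv_eq_one] at h2
    rw [h2, h1]

theorem fac_br (h : ∀ j : ℕ, 0 < j → j < N → φ (kj j cD ch_cc) = 1) (w : F2) :
    ∀ i : ZMod N, φ (br i w) = fc φ (th N i w) := by
  have hmul : ∀ w w' : F2, (∀ i : ZMod N, φ (br i w) = fc φ (th N i w)) →
      (∀ i : ZMod N, φ (br i w') = fc φ (th N i w')) →
      ∀ i : ZMod N, φ (br i (w * w')) = fc φ (th N i (w * w')) := by
    intro w w' h1 h2 i
    rw [br_mul, th_mul, map_mul, map_mul, h1, h2]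
  have hinv : ∀ w : F2, (∀ i : ZMod N, φ (br i w) = fc φ (th N i w)) →
      ∀ i : ZMod N, φ (br i w⁻¹) = fc φ (th N i w⁻¹) := by
    intro w h1 i
    rw [br_inv, th_inv, map_inv, map_inv, h1]
  have ha : ∀ i : ZMod N, φ (br i a) = fc φ (th N i a) := by
    intro i
    rw [th_a]
    by_cases hi : i = 0
    · rw [if_pos hi, hi, br_zero a_mem]
      unfold fc
      rw [hom2_a]
    · rw [if_neg hi]
      have hv : 0 < i.val := by
        rcases Nat.eq_zero_or_pos i.val with h0 | h0
        · exact absurd ((ZMod.val_eq_zero i).1 h0) hi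
        · exact h0
      have e : br i a = kj i.val a ch_a := by
        apply Subtype.ext
        show b ^ i.val * a * (b ^ (i + ch N a).val)⁻¹ = b ^ i.val * a * (b ^ i.val)⁻¹
        rw [ch_a, add_zero]
      rw [e]
      exact fac_a φ h _ hv (ZMod.val_lt i).le
  have hb : ∀ i : ZMod N, φ (br i b) = fc φ (th N i b) := by
    intro i
    rw [th_b]
    rcases val_succ i with ⟨h1, h2, h3⟩ | ⟨h1, h2⟩
    · rw [if_pos h1]
      have e : br i b = ⟨b ^ N, bN_mem⟩ := by
        apply Subtype.ext
        show b ^ i.val * b * (b ^ (i + ch N b).val)⁻¹ = b ^ N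
        rw [ch_b, h3, pow_zero, inv_one, mul_one, ← pow_succ, h2]
      rw [e]
      unfold fc
      rw [hom2_b]
    · rw [if_neg h1, map_one]
      have e : br i b = 1 := by
        apply Subtype.ext
        show b ^ i.val * b * (b ^ (i + ch N b).val)⁻¹ = 1
        rw [ch_b, h2, ← pow_succ, mul_inv_cancel]
      rw [e, map_one]
  have hgen : ∀ k : Fin 2, ∀ i : ZMod N,
      φ (br i (FreeGroup.of k)) = fc φ (th N i (FreeGroup.of k)) := by
    intro k
    fin_cases k
    · exact hb
    · exact ha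
  refine FreeGroup.induction_on w ?_ hgen (fun k _ => hinv _ (hgen k)) (fun u v hu hv => hmul u v hu hv)
  intro i
  rw [br_one, th_one, map_one, map_one]

/-- A homomorphism on the kernel of `chi` which kills the commutators at the other punctures
factors through `Theta_N`. -/
theorem fac (h : ∀ j : ℕ, 0 < j → j < N → φ (kj j cD ch_cc) = 1) (w : (chi N).ker) :
    φ w = fc φ (Tht N w) := by
  have h1 := fac_br φ h w.1 0
  rw [br_zero w.2] at h1
  exact h1

end fac

/-- `Theta_N` kills the conjugates of `cD` by elements outside the kernel. -/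
theorem th_conj_cc (u : F2) (hu : ch N u ≠ 0) : th N 0 (u * cD * u⁻¹) = 1 := by
  rw [th_conj 0 u cD ch_cc, th_cc_ne (by rwa [zero_add]), mul_one, mul_inv_cancel]

/-- An automorphism fixing `c` which preserves the kernel of `chi` descends along `Theta_N` to an
endomorphism fixing `c`. -/
theorem descend [NeZero N] {β : MulAut F2} (hβ : β cD = cD)
    (hst : ∀ w, ch N (β w) = 0 ↔ ch N w = 0) :
    ∃ τ : F2 →* F2, τ cD = cD ∧ ∀ w, ch N w = 0 → th N 0 (β w) = τ (th N 0 w) := by
  let φ : (chi N).ker →* F2 :=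
    { toFun := fun w => th N 0 (β w.1)
      map_one' := by
        show th N 0 (β 1) = 1
        rw [map_one, th_one]
      map_mul' := fun w w' => by
        show th N 0 (β (w.1 * w'.1)) = th N 0 (β w.1) * th N 0 (β w'.1)
        rw [map_mul, th_mul, (hst _).2 (mem_ker.1 w.2), add_zero] }
  have hφ : ∀ j : ℕ, 0 < j → j < N → φ (kj j cD ch_cc) = 1 := by
    intro j h1 h2
    show th N 0 (β (b ^ j * cD * (b ^ j)⁻¹)) = 1
    rw [map_mul, map_mul, map_inv, hβ]
    refine th_conj_cc _ ?_
    rw [Ne, hst]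
    rw [ch_pow, ch_b, mul_one]
    intro h0
    rw [ZMod.natCast_eq_zero_iff] at h0
    exact absurd (Nat.le_of_dvd h1 h0) (by omega)
  have hf := fac φ hφ
  have hcc : (fc φ) cD = cD := by
    have h1 := hf ⟨cD, mem_ker.2 ch_cc⟩
    have h2 : Tht N ⟨cD, mem_ker.2 ch_cc⟩ = cD := th_cc
    rw [h2] at h1
    rw [← h1]
    show th N 0 (β cD) = cD
    rw [hβ, th_cc]
  exact ⟨fc φ, hcc, fun w hw => hf ⟨w, mem_ker.2 hw⟩⟩

end MPb66790.Th57
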