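import Pool.Agent.Lib.MP_b66790_nt.Hecke.N57
import Pool.Agent.Lib.MP_b66790_nt.Hecke.Th57

/-!
# Discrete elements of the stabiliser have discrete partners
-/

namespace MPb66790.CN57

open MPb66790 MPb66790.HK24 MPb66790.CY24 MPb66790.Th57

/-! ### The action of the squares of the braid generators -/

/-- `a ↦ a`, `b ↦ b a⁻¹` -/
def P1 : MulAut F2 := MonoidHom.toMulEquiv (hom2 a (b * a⁻¹)) (hom2 a (b * a))
  (hom_ext2 (by simp) (by simp)) (hom_ext2 (by simp) (by simp))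

/-- `a ↦ a b`, `b ↦ b` -/
def P2 : MulAut F2 := MonoidHom.toMulEquiv (hom2 (a * b) b) (hom2 (a * b⁻¹) b)
  (hom_ext2 (by simp) (by simp)) (hom_ext2 (by simp) (by simp))

theorem P1_a : P1 a = a := hom2_a a (b * a⁻¹)
theorem P1_b : P1 b = b * a⁻¹ := hom2_b a (b * a⁻¹)
theorem P2_a : P2 a = a * b := hom2_a (a * b) b
theorem P2_b : P2 b = b := hom2_b (a * b) b

theorem jD_a : jD a = aD := by
  simp [jD, a]

theorem jD_b : jD b = aD⁻¹ * (σ 1 * aD * (σ 1)⁻¹) := by
  simp [jD, b]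

theorem CJ_P1 (w : F2) : CJ (σ 0) w (P1 w) := by
  have h : (MulAut.conj (σ 0)).toMonoidHom.comp jD = jD.comp P1.toMonoidHom := by
    refine hom_ext2 ?_ ?_
    · show σ 0 * jD a * (σ 0)⁻¹ = jD (P1 a)
      rw [P1_a, jD_a]
      exact N57.id0 isBraid_σ.2.2
    · show σ 0 * jD b * (σ 0)⁻¹ = jD (P1 b)
      rw [P1_b, map_mul, map_inv, jD_a, jD_b]
      have h1 := N57.id0 isBraid_σ.2.2
      have h2 := N57.id1 isBraid_σ.1 isBraid_σ.2.1
      have e : σ 0 * (aD⁻¹ * (σ 1 * aD * (σ 1)⁻¹)) * (σ 0)⁻¹ =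
          (σ 0 * (σ 0 * (σ 2)⁻¹) * (σ 0)⁻¹)⁻¹ *
            (σ 0 * (σ 1 * (σ 0 * (σ 2)⁻¹) * (σ 1)⁻¹) * (σ 0)⁻¹) := by
        unfold aD
        group
      rw [e, h1, h2]
      unfold aD
      group
  exact DFunLike.congr_fun h w

theorem CJ_P2 (w : F2) : CJ (σ 1) w (P2 w) := by
  have h : (MulAut.conj (σ 1)).toMonoidHom.comp jD = jD.comp P2.toMonoidHom := by
    refine hom_ext2 ?_ ?_
    · show σ 1 * jD a * (σ 1)⁻¹ = jD (P2 a)
      rw [P2_a, map_mul, jD_a, jD_b]
      group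
    · show σ 1 * jD b * (σ 1)⁻¹ = jD (P2 b)
      rw [P2_b, jD_b]
      have h2 := N57.id2 isBraid_σ.1 isBraid_σ.2.1 isBraid_σ.2.2
      have e : σ 1 * (aD⁻¹ * (σ 1 * aD * (σ 1)⁻¹)) * (σ 1)⁻¹ =
          (σ 1 * (σ 0 * (σ 2)⁻¹) * (σ 1)⁻¹)⁻¹ *
            (σ 1 * (σ 1 * (σ 0 * (σ 2)⁻¹) * (σ 1)⁻¹) * (σ 1)⁻¹) := by
        unfold aD
        group
      rw [e, h2]
      unfold aD
      group
  exact DFunLike.congr_fun h w

/-- The action of the free group of `σ₁²`, `σ₂²`. -/
def Ac : F2 →* MulAut F2 := FreeGroup.lift ![P1 ^ 2, P2 ^ 2]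

theorem CJ_mul {g g' : Braid4} {α β : MulAut F2} (h : ∀ w, CJ g w (α w))
    (h' : ∀ w, CJ g' w (β w)) (w : F2) : CJ (g * g') w ((α * β) w) := by
  unfold CJ at *
  rw [MulAut.mul_apply, ← h, ← h']
  group

theorem CJ_inv {g : Braid4} {α : MulAut F2} (h : ∀ w, CJ g w (α w)) (w : F2) :
    CJ g⁻¹ w (α⁻¹ w) := by
  unfold CJ at *
  have h2 := h (α⁻¹ w)
  rw [← MulAut.mul_apply, mul_inv_cancel, MulAut.one_apply] at h2
  rw [← h2]
  group

theorem iotaD_0 : iotaD (FreeGroup.of 0) = σ 0 ^ 2 := by simp [iotaD]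
theorem iotaD_1 : iotaD (FreeGroup.of 1) = σ 1 ^ 2 := by simp [iotaD]
theorem Ac_0 : Ac (FreeGroup.of 0) = P1 ^ 2 := by simp [Ac]
theorem Ac_1 : Ac (FreeGroup.of 1) = P2 ^ 2 := by simp [Ac]

/-- induction on words for homomorphisms-like predicates -/
theorem word_ind {p : F2 → Prop} (h1 : p 1) (h0 : p (FreeGroup.of 0)) (h1' : p (FreeGroup.of 1))
    (hi : ∀ x, p x → p x⁻¹) (hm : ∀ x y, p x → p y → p (x * y)) (w : F2) : p w := by
  have hg : ∀ i : Fin 2, p (FreeGroup.of i) := by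
    intro i
    fin_cases i
    · exact h0
    · exact h1'
  exact FreeGroup.induction_on w h1 hg (fun i _ => hi _ (hg i)) (fun x y hx hy => hm x y hx hy)

theorem CJ_Ac (h : F2) : ∀ w, CJ (iotaD h) w (Ac h w) := by
  refine word_ind (p := fun h => ∀ w, CJ (iotaD h) w (Ac h w)) ?_ ?_ ?_ ?_ ?_ h
  · intro w
    unfold CJ
    simp
  · rw [iotaD_0, Ac_0, pow_two, pow_two]
    exact CJ_mul CJ_P1 CJ_P1
  · rw [iotaD_1, Ac_1, pow_two, pow_two]
    exact CJ_mul CJ_P2 CJ_P2
  · intro x hx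
    rw [map_inv, map_inv]
    exact CJ_inv hx
  · intro x y hx hy
    rw [map_mul, map_mul]
    exact CJ_mul hx hy

theorem P1_c : P1 cD = cD := by
  rw [cD_eq]
  simp [P1_a, P1_b, mul_assoc]

theorem P2_c : P2 cD = cD := by
  rw [cD_eq]
  simp [P2_a, P2_b, mul_assoc]

theorem Ac_c (h : F2) : Ac h cD = cD := by
  refine word_ind (p := fun h => Ac h cD = cD) ?_ ?_ ?_ ?_ ?_ h
  · simp
  · rw [Ac_0, pow_two, MulAut.mul_apply, P1_c, P1_c]
  · rw [Ac_1, pow_two, MulAut.mul_apply, P2_c, P2_c]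
  · intro x hx
    rw [map_inv]
    have h2 : (Ac x)⁻¹ (Ac x cD) = cD := by
      rw [← MulAut.mul_apply, inv_mul_cancel, MulAut.one_apply]
    rwa [hx] at h2
  · intro x y hx hy
    rw [map_mul, MulAut.mul_apply, hy, hx]

/-! ### Homology -/

theorem vec_mul (x y : F2) : vec (x * y) = vec x + vec y := by
  unfold vec
  rw [map_mul]
  rfl

theorem vec_inv (x : F2) : vec x⁻¹ = -vec x := by
  unfold vec
  rw [map_inv]
  rfl

theorem vec_one : vec 1 = 0 := by
  unfold vec
  rw [map_one]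
  rfl

theorem vec_a : vec a = ![1, 0] := by
  simp [vec, vecH, a]

theorem vec_b : vec b = ![0, 1] := by
  simp [vec, vecH, b]

theorem vec_lin {α : MulAut F2} {M : Matrix (Fin 2) (Fin 2) ℤ}
    (ha : vec (α a) = M.mulVec (vec a)) (hb : vec (α b) = M.mulVec (vec b)) (w : F2) :
    vec (α w) = M.mulVec (vec w) := by
  refine word_ind (p := fun w => vec (α w) = M.mulVec (vec w)) ?_ hb ha ?_ ?_ w
  · rw [map_one, vec_one, Matrix.mulVec_zero]
  · intro x hx
    rw [map_inv, vec_inv, vec_inv, hx, Matrix.mulVec_neg]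
  · intro x y hx hy
    rw [map_mul, vec_mul, vec_mul, hx, hy, Matrix.mulVec_add]

theorem vec_Ac (h : F2) : ∀ w, vec (Ac h w) = (matP h).1.mulVec (vec w) := by
  refine word_ind (p := fun h => ∀ w, vec (Ac h w) = (matP h).1.mulVec (vec w)) ?_ ?_ ?_ ?_ ?_ h
  · intro w
    simp
  · have hm : (matP (FreeGroup.of 0)).1 = !![1, -2; 0, 1] := by simp [matP]
    rw [hm, Ac_0]
    refine vec_lin ?_ ?_
    · rw [pow_two, MulAut.mul_apply, P1_a, P1_a, vec_a]
      ext i
      fin_cases i <;> simp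
    · rw [pow_two, MulAut.mul_apply, P1_b, map_mul, map_inv, P1_a, P1_b, vec_mul, vec_mul, vec_inv,
        vec_a, vec_b]
      ext i
      fin_cases i <;> simp
  · have hm : (matP (FreeGroup.of 1)).1 = !![1, 0; 2, 1] := by simp [matP]
    rw [hm, Ac_1]
    refine vec_lin ?_ ?_
    · rw [pow_two, MulAut.mul_apply, P2_a, map_mul, P2_a, P2_b, vec_mul, vec_mul, vec_a, vec_b]
      ext i
      fin_cases i <;> simp
    · rw [pow_two, MulAut.mul_apply, P2_b, P2_b, vec_b]
      ext i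
      fin_cases i <;> simp
  · intro x hx w
    have h1 := hx (Ac x⁻¹ w)
    rw [← MulAut.mul_apply, ← map_mul, mul_inv_cancel, map_one, MulAut.one_apply] at h1
    rw [h1, Matrix.mulVec_mulVec, ← Matrix.SpecialLinearGroup.coe_mul, ← map_mul, inv_mul_cancel,
      map_one]
    simp
  · intro x y hx hy w
    rw [map_mul, MulAut.mul_apply, hx, hy, Matrix.mulVec_mulVec, map_mul,
      Matrix.SpecialLinearGroup.coe_mul]

theorem ch_vec (N : ℕ) (w : F2) : ch N w = ((vec w 1 : ℤ) : ZMod N) := by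
  refine word_ind (p := fun w => ch N w = ((vec w 1 : ℤ) : ZMod N)) ?_ ?_ ?_ ?_ ?_ w
  · rw [ch_one, vec_one]
    simp
  · have h1 : ch N b = ((vec b 1 : ℤ) : ZMod N) := by
      rw [ch_b, vec_b]
      simp
    exact h1
  · have h1 : ch N a = ((vec a 1 : ℤ) : ZMod N) := by
      rw [ch_a, vec_a]
      simp
    exact h1
  · intro x hx
    rw [ch_inv, vec_inv, hx]
    simp
  · intro x y hx hy
    rw [ch_mul, vec_mul, hx, hy]
    simp

theorem stab {N : ℕ} {h : F2} (hd : (N : ℤ) ∣ (matP h).1 1 0) (w : F2) :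
    ch N (Ac h w) = 0 ↔ ch N w = 0 := by
  have h0 : (((matP h).1 1 0 : ℤ) : ZMod N) = 0 := (ZMod.intCast_zmod_eq_zero_iff_dvd _ _).2 hd
  have hdet := (matP h).2
  rw [Matrix.det_fin_two] at hdet
  have hdet2 := congrArg (fun z : ℤ => (z : ZMod N)) hdet
  push_cast at hdet2
  rw [h0, mul_zero, sub_zero] at hdet2
  have h1 : ch N (Ac h w) = (((matP h).1 1 1 : ℤ) : ZMod N) * ch N w := by
    rw [ch_vec, vec_Ac, ch_vec]
    simp only [Matrix.mulVec, dotProduct, Fin.sum_univ_two]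
    push_cast
    rw [h0]
    ring
  constructor
  · intro h2
    rw [h1] at h2
    have h3 : (((matP h).1 0 0 : ℤ) : ZMod N) * ((((matP h).1 1 1 : ℤ) : ZMod N) * ch N w) = 0 := by
      rw [h2, mul_zero]
    rwa [← mul_assoc, hdet2, one_mul] at h3
  · intro h2
    rw [h1, h2, mul_zero]

/-! ### The discrete covering maps -/

section cov

variable (n : ℕ)

/-- discrete `covMap` -/
def covD : FreeGroup (Fin (n + 2)) →* F2 :=
  FreeGroup.lift (mk (b ^ (n + 1)) (fun j : ZMod (n + 1) => b ^ j.val * a * (b ^ j.val)⁻¹))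

/-- discrete `isoMap` -/
def isoD : FreeGroup (Fin (n + 2)) →* F2 :=
  FreeGroup.lift (mk b (fun j : ZMod (n + 1) => if j = 0 then a else b * a * b⁻¹))

/-- the discrete generators -/
def dy (j : ZMod (n + 1)) : FreeGroup (Fin (n + 2)) :=
  FreeGroup.of (Fin.succ (⟨j.val, ZMod.val_lt j⟩ : Fin (n + 1)))

variable {n}

theorem lift_dy {G : Type} [Group G] (v : G) (w : ZMod (n + 1) → G) (j : ZMod (n + 1)) :
    FreeGroup.lift (mk v w) (dy n j) = w j := by
  unfold dy
  rw [FreeGroup.lift_apply_of, mk_succ]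
  show w ((j.val : ℕ) : ZMod (n + 1)) = w j
  rw [ZMod.natCast_zmod_val]

theorem lift_d0 {G : Type} [Group G] (v : G) (w : ZMod (n + 1) → G) :
    FreeGroup.lift (mk v w) (FreeGroup.of (0 : Fin (n + 2))) = v := by
  rw [FreeGroup.lift_apply_of, mk_zero]

theorem of_eq (i : Fin (n + 2)) : (FreeGroup.of i = FreeGroup.of (0 : Fin (n + 2))) ∨
    ∃ j : ZMod (n + 1), FreeGroup.of i = dy n j := by
  refine Fin.cases (Or.inl rfl) (fun j => Or.inr ⟨((j : ℕ) : ZMod (n + 1)), ?_⟩) i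
  unfold dy
  congr 2
  apply Fin.ext
  show (j : ℕ) = ((j : ℕ) : ZMod (n + 1)).val
  rw [ZMod.val_natCast, Nat.mod_eq_of_lt j.2]

theorem word_ind' {p : FreeGroup (Fin (n + 2)) → Prop} (h1 : p 1)
    (h0 : p (FreeGroup.of 0)) (hy : ∀ j, p (dy n j))
    (hi : ∀ x, p x → p x⁻¹) (hm : ∀ x y, p x → p y → p (x * y)) (w) : p w := by
  have hg : ∀ i, p (FreeGroup.of i) := by
    intro i
    rcases of_eq i with e | ⟨j, e⟩
    · rw [e]; exact h0
    · rw [e]; exact hy j
  exact FreeGroup.induction_on w h1 hg (fun i _ => hi _ (hg i)) (fun x y hx hy => hm x y hx hy)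

theorem th_pow_lt (k : ℕ) (hk : k < n + 1) : th (n + 1) 0 (b ^ k) = 1 := by
  induction k with
  | zero => rw [pow_zero, th_one]
  | succ k ih =>
    rw [pow_succ, th_mul, ih (by omega), one_mul, th_b, if_neg]
    rw [ch_pow, ch_b, mul_one, zero_add]
    intro h0
    have h1 : ((k + 1 : ℕ) : ZMod (n + 1)) = 0 := by push_cast; exact h0
    rw [ZMod.natCast_eq_zero_iff] at h1
    exact absurd (Nat.le_of_dvd (Nat.succ_pos k) h1) (by omega)

theorem th_pow_N : th (n + 1) 0 (b ^ (n + 1)) = b := by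
  rw [pow_succ, th_mul, th_pow_lt n (Nat.lt_succ_self n), one_mul, th_b, if_pos]
  rw [ch_pow, ch_b, mul_one, zero_add]
  have h1 : ((n + 1 : ℕ) : ZMod (n + 1)) = 0 := ZMod.natCast_self _
  push_cast at h1
  exact h1

theorem cov_spec (v : FreeGroup (Fin (n + 2))) :
    ch (n + 1) (covD n v) = 0 ∧ th (n + 1) 0 (covD n v) = isoD n v := by
  refine word_ind' (p := fun v => ch (n + 1) (covD n v) = 0 ∧
    th (n + 1) 0 (covD n v) = isoD n v) ?_ ?_ ?_ ?_ ?_ v
  · rw [map_one, map_one, ch_one, th_one]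
    exact ⟨rfl, rfl⟩
  · unfold covD isoD
    rw [lift_d0, lift_d0, th_pow_N]
    refine ⟨?_, rfl⟩
    rw [ch_pow, ch_b, mul_one]
    exact ZMod.natCast_self _
  · intro j
    unfold covD isoD
    rw [lift_dy, lift_dy]
    refine ⟨by simp, ?_⟩
    rw [th_conj _ _ _ ch_a, th_pow_lt _ (ZMod.val_lt j), ch_pow, ch_b, mul_one, zero_add,
      ZMod.natCast_zmod_val, th_a]
    simp [d]
  · intro x hx
    rw [map_inv, map_inv, ch_inv, th_inv, hx.1, sub_zero, hx.2]
    exact ⟨neg_zero, rfl⟩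
  · intro x y hx hy
    rw [map_mul, map_mul, ch_mul, th_mul, hx.1, hy.1, hx.2, zero_add, hy.2]
    exact ⟨rfl, rfl⟩

theorem br_range (w : F2) : ∀ i : ZMod (n + 1), (br i w).1 ∈ (covD n).range := by
  refine word_ind (p := fun w => ∀ i : ZMod (n + 1), (br i w).1 ∈ (covD n).range) ?_ ?_ ?_ ?_ ?_ w
  · intro i
    rw [br_one]
    exact one_mem _
  · intro i
    show (br i b).1 ∈ (covD n).range
    rcases val_succ i with ⟨h1, h2, h3⟩ | ⟨h1, h2⟩
    · have e : (br i b).1 = b ^ (n + 1) := by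
        show b ^ i.val * b * (b ^ (i + ch (n + 1) b).val)⁻¹ = b ^ (n + 1)
        rw [ch_b, h3, pow_zero, inv_one, mul_one, ← pow_succ, h2]
      rw [e]
      refine ⟨FreeGroup.of 0, ?_⟩
      unfold covD
      rw [lift_d0]
    · have e : (br i b).1 = 1 := by
        show b ^ i.val * b * (b ^ (i + ch (n + 1) b).val)⁻¹ = 1
        rw [ch_b, h2, ← pow_succ, mul_inv_cancel]
      rw [e]
      exact one_mem _
  · intro i
    show (br i a).1 ∈ (covD n).range
    refine ⟨dy n i, ?_⟩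
    unfold covD
    rw [lift_dy]
    show b ^ i.val * a * (b ^ i.val)⁻¹ = b ^ i.val * a * (b ^ (i + ch (n + 1) a).val)⁻¹
    rw [ch_a, add_zero]
  · intro x hx i
    rw [br_inv]
    exact inv_mem (hx _)
  · intro x y hx hy i
    rw [br_mul]
    exact mul_mem (hx _) (hy _)

theorem cov_surj {w : F2} (hw : ch (n + 1) w = 0) : ∃ v, covD n v = w := by
  have h := br_range (n := n) w 0
  rw [br_zero (mem_ker.2 hw)] at h
  exact h

theorem cov_of (v : FreeGroup (Fin (n + 2))) : covMap n (of v) = of (covD n v) := by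
  have h : ((covMap n).toMonoidHom.comp of) = (of.comp (covD n)) := by
    ext i
    rcases of_eq i with e | ⟨j, e⟩
    · rw [e]
      show covMap n (g0 n) = of (covD n (FreeGroup.of 0))
      unfold covD
      rw [cov_g0, lift_d0, map_pow]
      rfl
    · rw [e]
      show covMap n (gy j) = of (covD n (dy n j))
      unfold covD
      rw [cov_gy, lift_dy, map_mul, map_mul, map_inv, map_pow]
      rfl
  exact DFunLike.congr_fun h v

theorem iso_of (v : FreeGroup (Fin (n + 2))) : isoMap n (of v) = of (isoD n v) := by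
  have h : ((isoMap n).toMonoidHom.comp of) = (of.comp (isoD n)) := by
    ext i
    rcases of_eq i with e | ⟨j, e⟩
    · rw [e]
      show isoMap n (g0 n) = of (isoD n (FreeGroup.of 0))
      unfold isoD isoMap
      rw [ev_g0, lift_d0]
      rfl
    · rw [e]
      show isoMap n (gy j) = of (isoD n (dy n j))
      unfold isoD isoMap
      rw [ev_gy, lift_dy]
      split_ifs
      · rfl
      · rw [map_mul, map_mul, map_inv]
        rfl
  exact DFunLike.congr_fun h v

theorem jH_of (w : F2) : jH (of w) = of (jD w) := by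
  have h : (jH.toMonoidHom.comp of) = (of.comp jD) := by
    refine hom_ext2 ?_ ?_
    · show jH Y = of (jD a)
      rw [jD_a]
      unfold jH aD pB
      show ev ![pB⁻¹ * rB, s 0 * (s 2)⁻¹] (gen 1) = _
      rw [ev_gen]
      simp [of_σ]
    · show jH X = of (jD b)
      rw [jD_b]
      unfold jH
      show ev ![pB⁻¹ * rB, pB] (gen 0) = _
      rw [ev_gen]
      simp [of_σ, rB, pB, aD]
  exact DFunLike.congr_fun h w

end cov

/-- CN. -/
theorem stCN_57 : StCN := by
  intro n h hd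
  have hd' : ((n + 1 : ℕ) : ℤ) ∣ (matP h).1 1 0 := by
    push_cast
    exact hd
  obtain ⟨τ, hτ, h1⟩ := descend (N := n + 1) (Ac_c h) (stab hd')
  obtain ⟨g, hg, h2⟩ := N57.stN_57 τ hτ
  refine ⟨g, hg, fun w => ?_⟩
  let E : Set (FHat (n + 2) × FHat (n + 2)) :=
    {p | of (iotaD h) * jH (covMap n p.1) * (of (iotaD h))⁻¹ = jH (covMap n p.2) ∧
      of g * jH (isoMap n p.1) * (of g)⁻¹ = jH (isoMap n p.2)}
  have hE : IsClosed E := by
    have c1 : Continuous fun p : FHat (n + 2) × FHat (n + 2) => jH (covMap n p.1) :=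
      jH.continuous_toFun.comp ((covMap n).continuous_toFun.comp continuous_fst)
    have c2 : Continuous fun p : FHat (n + 2) × FHat (n + 2) => jH (covMap n p.2) :=
      jH.continuous_toFun.comp ((covMap n).continuous_toFun.comp continuous_snd)
    have c3 : Continuous fun p : FHat (n + 2) × FHat (n + 2) => jH (isoMap n p.1) :=
      jH.continuous_toFun.comp ((isoMap n).continuous_toFun.comp continuous_fst)
    have c4 : Continuous fun p : FHat (n + 2) × FHat (n + 2) => jH (isoMap n p.2) :=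
      jH.continuous_toFun.comp ((isoMap n).continuous_toFun.comp continuous_snd)
    exact (isClosed_eq ((continuous_const.mul c1).mul continuous_const) c2).inter
      (isClosed_eq ((continuous_const.mul c3).mul continuous_const) c4)
  have hP : IsClosed (Prod.fst '' E) := (hE.isCompact.image continuous_fst).isClosed
  have hw : w ∈ Prod.fst '' E := by
    refine hat_induction hP (fun v => ?_) w
    have hc := cov_spec (n := n) v
    obtain ⟨v', hv'⟩ := cov_surj (n := n) ((stab hd' (covD n v)).2 hc.1)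
    refine ⟨(of v, of v'), ⟨?_, ?_⟩, rfl⟩
    · show of (iotaD h) * jH (covMap n (of v)) * (of (iotaD h))⁻¹ = jH (covMap n (of v'))
      rw [cov_of, cov_of, jH_of, jH_of, ← map_inv, ← map_mul, ← map_mul, hv']
      exact congrArg of (CJ_Ac h (covD n v))
    · show of g * jH (isoMap n (of v)) * (of g)⁻¹ = jH (isoMap n (of v'))
      rw [iso_of, iso_of, jH_of, jH_of, ← map_inv, ← map_mul, ← map_mul, ← hc.2,
        ← (cov_spec (n := n) v').2, hv', h1 _ hc.1]
      exact congrArg of (h2 _)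
  obtain ⟨⟨x, y⟩, ⟨e1, e2⟩, rfl⟩ := hw
  exact ⟨y, e1, e2⟩

end MPb66790.CN57
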