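import Mathlib

/-!
# Row SL2: the free group on two generators and the braid group on three strands in `SL(2, ℤ)`
-/

namespace MPb66790.HK31

/-- The group `SL(2, ℤ)`. -/
abbrev SL : Type := Matrix.SpecialLinearGroup (Fin 2) ℤ

/-- `[1 2; 0 1]`. -/
def matX31 : SL := ⟨!![1, 2; 0, 1], by simp [Matrix.det_fin_two]⟩

/-- `[1 0; -2 1]`. -/
def matY31 : SL := ⟨!![1, 0; -2, 1], by simp [Matrix.det_fin_two]⟩

/-- The representation of the free group on two generators. -/
def mat31 : FreeGroup (Fin 2) →* SL := FreeGroup.lift ![matX31, matY31]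

theorem mat31_zero : mat31 (FreeGroup.of 0) = matX31 := by simp [mat31]

theorem mat31_one : mat31 (FreeGroup.of 1) = matY31 := by simp [mat31]

theorem det31 (M : SL) : M 0 0 * M 1 1 - M 0 1 * M 1 0 = 1 := by
  have h := M.2
  rw [Matrix.det_fin_two] at h
  exact h

theorem ext31 {M N : SL} (h00 : M 0 0 = N 0 0) (h01 : M 0 1 = N 0 1) (h10 : M 1 0 = N 1 0)
    (h11 : M 1 1 = N 1 1) : M = N := by
  apply Matrix.SpecialLinearGroup.ext
  intro i j
  fin_cases i <;> fin_cases j <;> assumption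

/-! ### entries of products -/

theorem mul31 (M N : SL) (i j : Fin 2) : (M * N) i j = M i 0 * N 0 j + M i 1 * N 1 j := by
  have h : (M * N : SL) i j = (M.1 * N.1) i j := rfl
  rw [h, Matrix.mul_apply, Fin.sum_univ_two]

theorem neg31 (M : SL) (i j : Fin 2) : (-M) i j = -M i j := rfl

theorem X_mul (M : SL) : (matX31 * M) 0 0 = M 0 0 + 2 * M 1 0 ∧ (matX31 * M) 0 1 = M 0 1 + 2 * M 1 1 ∧
    (matX31 * M) 1 0 = M 1 0 ∧ (matX31 * M) 1 1 = M 1 1 := by
  simp only [mul31]
  simp [matX31]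

theorem Xi_mul (M : SL) : (matX31⁻¹ * M) 0 0 = M 0 0 - 2 * M 1 0 ∧
    (matX31⁻¹ * M) 0 1 = M 0 1 - 2 * M 1 1 ∧ (matX31⁻¹ * M) 1 0 = M 1 0 ∧
    (matX31⁻¹ * M) 1 1 = M 1 1 := by
  have h := X_mul (matX31⁻¹ * M)
  rw [mul_inv_cancel_left] at h
  obtain ⟨h1, h2, h3, h4⟩ := h
  refine ⟨?_, ?_, h3.symm, h4.symm⟩
  · rw [h1, h3]; ring
  · rw [h2, h4]; ring

theorem Y_mul (M : SL) : (matY31 * M) 0 0 = M 0 0 ∧ (matY31 * M) 0 1 = M 0 1 ∧
    (matY31 * M) 1 0 = M 1 0 - 2 * M 0 0 ∧ (matY31 * M) 1 1 = M 1 1 - 2 * M 0 1 := by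
  simp only [mul31]
  refine ⟨?_, ?_, ?_, ?_⟩ <;> simp [matY31] <;> ring

theorem Yi_mul (M : SL) : (matY31⁻¹ * M) 0 0 = M 0 0 ∧ (matY31⁻¹ * M) 0 1 = M 0 1 ∧
    (matY31⁻¹ * M) 1 0 = M 1 0 + 2 * M 0 0 ∧ (matY31⁻¹ * M) 1 1 = M 1 1 + 2 * M 0 1 := by
  have h := Y_mul (matY31⁻¹ * M)
  rw [mul_inv_cancel_left] at h
  obtain ⟨h1, h2, h3, h4⟩ := h
  refine ⟨h1.symm, h2.symm, ?_, ?_⟩
  · rw [h3, h1]; ring
  · rw [h4, h2]; ring

/-! ### D1: the principal congruence subgroup of level two -/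

theorem X_zpow (m : ℤ) : (matX31 ^ m) 0 0 = 1 ∧ (matX31 ^ m) 0 1 = 2 * m ∧ (matX31 ^ m) 1 0 = 0 ∧
    (matX31 ^ m) 1 1 = 1 := by
  induction m using Int.induction_on with
  | zero => simp
  | succ n ih =>
    rw [add_comm, _root_.zpow_add, zpow_one]
    obtain ⟨h1, h2, h3, h4⟩ := X_mul (matX31 ^ (n : ℤ))
    obtain ⟨i1, i2, i3, i4⟩ := ih
    rw [h1, h2, h3, h4, i1, i2, i3, i4]
    refine ⟨by ring, by ring, rfl, rfl⟩
  | pred n ih =>
    rw [sub_eq_add_neg, add_comm, _root_.zpow_add, zpow_neg_one]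
    obtain ⟨h1, h2, h3, h4⟩ := Xi_mul (matX31 ^ (-n : ℤ))
    obtain ⟨i1, i2, i3, i4⟩ := ih
    rw [h1, h2, h3, h4, i1, i2, i3, i4]
    refine ⟨by ring, by ring, rfl, rfl⟩

/-- Up to sign in the image of the free group. -/
def Im31 (M : SL) : Prop := ∃ k, mat31 k = M ∨ mat31 k = -M

theorem Im31.of_mul (g : FreeGroup (Fin 2)) {M : SL} (h : Im31 (mat31 g * M)) : Im31 M := by
  obtain ⟨k, hk | hk⟩ := h
  · exact ⟨g⁻¹ * k, Or.inl (by rw [map_mul, hk, map_inv, inv_mul_cancel_left])⟩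
  · exact ⟨g⁻¹ * k, Or.inr (by
      rw [map_mul, hk, map_inv, mul_neg, inv_mul_cancel_left])⟩

theorem d1_aux (n : ℕ) : ∀ M : SL, (M 0 0).natAbs + (M 1 0).natAbs ≤ n → Odd (M 0 0) →
    Even (M 0 1) → Even (M 1 0) → Im31 M := by
  induction n with
  | zero =>
    intro M hn h00 _ _
    obtain ⟨t, ht⟩ := h00
    omega
  | succ n ih =>
    intro M hn h00 h01 h10
    obtain ⟨p, hp⟩ := h00
    obtain ⟨q, hq⟩ := h01
    obtain ⟨r, hr⟩ := h10
    by_cases h0 : M 1 0 = 0
    · have hd := det31 M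
      rw [h0, mul_zero, sub_zero] at hd
      rcases Int.mul_eq_one_iff_eq_one_or_neg_one.1 hd with ⟨h1, h2⟩ | ⟨h1, h2⟩
      · refine ⟨FreeGroup.of 0 ^ q, Or.inl ?_⟩
        rw [map_zpow, mat31_zero]
        obtain ⟨i1, i2, i3, i4⟩ := X_zpow q
        exact ext31 (by rw [i1, h1]) (by rw [i2, hq]; ring) (by rw [i3, h0]) (by rw [i4, h2])
      · refine ⟨FreeGroup.of 0 ^ (-q), Or.inr ?_⟩
        rw [map_zpow, mat31_zero]
        obtain ⟨i1, i2, i3, i4⟩ := X_zpow (-q)
        exact ext31 (by rw [i1, neg31, h1]; rfl) (by rw [i2, neg31, hq]; ring)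
          (by rw [i3, neg31, h0]; rfl) (by rw [i4, neg31, h2]; rfl)
    · by_cases hlt : (M 0 0).natAbs < (M 1 0).natAbs
      · by_cases hs : 0 < M 0 0 ∧ 0 < M 1 0 ∨ M 0 0 < 0 ∧ M 1 0 < 0
        · apply Im31.of_mul (FreeGroup.of 1)
          rw [mat31_one]
          obtain ⟨i1, i2, i3, i4⟩ := Y_mul M
          refine ih _ ?_ ⟨p, by rw [i1, hp]⟩ ⟨q, by rw [i2, hq]⟩ ⟨r - M 0 0, by rw [i3, hr]; ring⟩
          rw [i1, i3]
          omega
        · apply Im31.of_mul (FreeGroup.of 1)⁻¹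
          rw [map_inv, mat31_one]
          obtain ⟨i1, i2, i3, i4⟩ := Yi_mul M
          refine ih _ ?_ ⟨p, by rw [i1, hp]⟩ ⟨q, by rw [i2, hq]⟩ ⟨r + M 0 0, by rw [i3, hr]; ring⟩
          rw [i1, i3]
          omega
      · by_cases hs : 0 < M 0 0 ∧ 0 < M 1 0 ∨ M 0 0 < 0 ∧ M 1 0 < 0
        · apply Im31.of_mul (FreeGroup.of 0)⁻¹
          rw [map_inv, mat31_zero]
          obtain ⟨i1, i2, i3, i4⟩ := Xi_mul M
          refine ih _ ?_ ⟨p - M 1 0, by rw [i1, hp]; ring⟩ ⟨q - M 1 1, by rw [i2, hq]; ring⟩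
            ⟨r, by rw [i3, hr]⟩
          rw [i1, i3]
          omega
        · apply Im31.of_mul (FreeGroup.of 0)
          rw [mat31_zero]
          obtain ⟨i1, i2, i3, i4⟩ := X_mul M
          refine ih _ ?_ ⟨p + M 1 0, by rw [i1, hp]; ring⟩ ⟨q + M 1 1, by rw [i2, hq]; ring⟩
            ⟨r, by rw [i3, hr]⟩
          rw [i1, i3]
          omega

/-- D1. -/
theorem d1_31 (M : SL) (h00 : Odd (M 0 0)) (h01 : Even (M 0 1)) (h10 : Even (M 1 0)) :
    ∃ k, mat31 k = M ∨ mat31 k = -M := d1_aux _ M le_rfl h00 h01 h10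

/-! ### D0: faithfulness -/

/-- The first two ping-pong sets. -/
def SX : Fin 2 → Set SL
  | 0 => {M | (0 < M 1 0 ∧ M 1 0 ≤ M 0 0) ∨ (M 1 0 < 0 ∧ M 0 0 ≤ M 1 0)}
  | 1 => {M | (0 < M 0 0 ∧ M 1 0 ≤ -M 0 0) ∨ (M 0 0 < 0 ∧ -M 0 0 ≤ M 1 0)}

/-- The last two ping-pong sets. -/
def SY : Fin 2 → Set SL
  | 0 => {M | M 1 0 = 0 ∨ (0 < M 1 0 ∧ M 0 0 < -M 1 0) ∨ (M 1 0 < 0 ∧ -M 1 0 < M 0 0)}
  | 1 => {M | M 0 0 = 0 ∨ (0 < M 0 0 ∧ M 0 0 < M 1 0) ∨ (M 0 0 < 0 ∧ M 1 0 < M 0 0)}

theorem col31 (M : SL) : M 0 0 ≠ 0 ∨ M 1 0 ≠ 0 := by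
  by_contra h
  push Not at h
  have hd := det31 M
  rw [h.1, h.2] at hd
  simp at hd

open Pointwise in
theorem mat31_injective : Function.Injective mat31 := by
  apply FreeGroup.injective_lift_of_ping_pong (α := SL) ![matX31, matY31] SX SY
  · intro i
    fin_cases i
    · refine ⟨⟨!![1, 0; 1, 1], by simp [Matrix.det_fin_two]⟩, ?_⟩
      left
      simp
    · refine ⟨⟨!![1, 0; -1, 1], by simp [Matrix.det_fin_two]⟩, ?_⟩
      left
      simp
  · intro i j hij
    rw [Function.onFun, Set.disjoint_left]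
    intro M h1 h2
    have h0 := col31 M
    fin_cases i <;> fin_cases j
    · exact hij rfl
    · simp only [SX, Set.mem_ofPred_eq] at h1 h2
      omega
    · simp only [SX, Set.mem_ofPred_eq] at h1 h2
      omega
    · exact hij rfl
  · intro i j hij
    rw [Function.onFun, Set.disjoint_left]
    intro M h1 h2
    have h0 := col31 M
    fin_cases i <;> fin_cases j
    · exact hij rfl
    · simp only [SY, Set.mem_ofPred_eq] at h1 h2
      omega
    · simp only [SY, Set.mem_ofPred_eq] at h1 h2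
      omega
    · exact hij rfl
  · intro i j
    rw [Set.disjoint_left]
    intro M h1 h2
    have h0 := col31 M
    fin_cases i <;> fin_cases j <;> simp only [SX, SY, Set.mem_ofPred_eq] at h1 h2 <;> omega
  · intro i
    rintro _ ⟨M, hM, rfl⟩
    have h0 := col31 M
    fin_cases i
    · obtain ⟨i1, i2, i3, i4⟩ := X_mul M
      change matX31 * M ∈ SX 0
      change M ∉ SY 0 at hM
      simp only [SX, SY, Set.mem_ofPred_eq] at hM ⊢
      rw [i1, i3]
      omega
    · obtain ⟨i1, i2, i3, i4⟩ := Y_mul M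
      change matY31 * M ∈ SX 1
      change M ∉ SY 1 at hM
      simp only [SX, SY, Set.mem_ofPred_eq] at hM ⊢
      rw [i1, i3]
      omega
  · intro i
    rintro _ ⟨M, hM, rfl⟩
    have h0 := col31 M
    fin_cases i
    · obtain ⟨i1, i2, i3, i4⟩ := Xi_mul M
      change matX31⁻¹ * M ∈ SY 0
      change M ∉ SX 0 at hM
      simp only [SX, SY, Set.mem_ofPred_eq] at hM ⊢
      rw [i1, i3]
      omega
    · obtain ⟨i1, i2, i3, i4⟩ := Yi_mul M
      change matY31⁻¹ * M ∈ SY 1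
      change M ∉ SX 1 at hM
      simp only [SX, SY, Set.mem_ofPred_eq] at hM ⊢
      rw [i1, i3]
      omega

/-- D0. -/
theorem d0_31 (k : FreeGroup (Fin 2)) (h : mat31 k = 1 ∨ mat31 k = -1) : k = 1 := by
  rcases h with h | h
  · exact mat31_injective (by rw [h, map_one])
  · have h2 : mat31 (k ^ 2) = 1 := by rw [map_pow, h]; simp
    have h3 : k ^ 2 = 1 := mat31_injective (by rw [h2, map_one])
    exact (pow_eq_one_iff_left (two_ne_zero)).1 h3

theorem sign31 {k l : FreeGroup (Fin 2)} (h : mat31 k = mat31 l ∨ mat31 k = -mat31 l) : k = l := by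
  have h1 : k * l⁻¹ = 1 := by
    apply d0_31
    rw [map_mul, map_inv]
    rcases h with h | h
    · left; rw [h, mul_inv_cancel]
    · right; rw [h, neg_mul, mul_inv_cancel]
  exact mul_inv_eq_one.1 h1

/-! ### D3: braids on three strands -/

section braid

variable {G : Type*} [Group G] {x y : G}

/-- `ζ = (x y) ^ 3`. -/
def zt31 (x y : G) : G := (x * y) ^ 3

theorem zt_eq (h : x * y * x = y * x * y) : zt31 x y = (x * y * x) * (x * y * x) := by
  have : zt31 x y = (x * y * x) * (y * x * y) := by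
    simp only [zt31, pow_succ, pow_zero, one_mul, mul_assoc]
  rw [this, ← h]

theorem gx31 (h : x * y * x = y * x * y) : (x * y * x) * x = y * (x * y * x) := by
  calc (x * y * x) * x = (y * x * y) * x := by rw [h]
    _ = y * (x * y * x) := by simp only [mul_assoc]

theorem gy31 (h : x * y * x = y * x * y) : (x * y * x) * y = x * (x * y * x) := by
  calc (x * y * x) * y = x * (y * x * y) := by simp only [mul_assoc]
    _ = x * (x * y * x) := by rw [← h]

theorem zt_x (h : x * y * x = y * x * y) : zt31 x y * x = x * zt31 x y := by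
  rw [zt_eq h]
  calc (x * y * x) * (x * y * x) * x = (x * y * x) * ((x * y * x) * x) := by rw [mul_assoc]
    _ = (x * y * x) * (y * (x * y * x)) := by rw [gx31 h]
    _ = ((x * y * x) * y) * (x * y * x) := by rw [mul_assoc (x * y * x) y]
    _ = x * (x * y * x) * (x * y * x) := by rw [gy31 h]
    _ = x * ((x * y * x) * (x * y * x)) := by rw [mul_assoc]

theorem zt_y (h : x * y * x = y * x * y) : zt31 x y * y = y * zt31 x y := by
  rw [zt_eq h]
  calc (x * y * x) * (x * y * x) * y = (x * y * x) * ((x * y * x) * y) := by rw [mul_assoc]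
    _ = (x * y * x) * (x * (x * y * x)) := by rw [gy31 h]
    _ = ((x * y * x) * x) * (x * y * x) := by rw [mul_assoc (x * y * x) x]
    _ = y * (x * y * x) * (x * y * x) := by rw [gx31 h]
    _ = y * ((x * y * x) * (x * y * x)) := by rw [mul_assoc]

theorem zt_comm (h : x * y * x = y * x * y) (k : FreeGroup (Fin 2)) :
    Commute (zt31 x y) (FreeGroup.lift ![x ^ 2, y ^ 2] k) := by
  have hx : Commute (zt31 x y) x := zt_x h
  have hy : Commute (zt31 x y) y := zt_y h
  induction k using FreeGroup.induction_on with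
  | C1 => rw [map_one]; exact Commute.one_right _
  | of i =>
    rw [FreeGroup.lift_apply_of]
    fin_cases i
    · exact hx.pow_right 2
    · exact hy.pow_right 2
  | inv_of i ih => rw [map_inv]; exact ih.inv_right
  | mul a b iha ihb => rw [map_mul]; exact iha.mul_right ihb

/-- The subgroup of the `k(x², y²) ζ ^ n`. -/
def hs31 (h : x * y * x = y * x * y) : Subgroup G where
  carrier := {g | ∃ (k : FreeGroup (Fin 2)) (n : ℤ), g = FreeGroup.lift ![x ^ 2, y ^ 2] k * zt31 x y ^ n}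
  mul_mem' := by
    rintro _ _ ⟨k, n, rfl⟩ ⟨l, m, rfl⟩
    refine ⟨k * l, n + m, ?_⟩
    have hc : Commute (zt31 x y ^ n) (FreeGroup.lift ![x ^ 2, y ^ 2] l) := (zt_comm h l).zpow_left n
    rw [map_mul, _root_.zpow_add, mul_assoc, ← mul_assoc (zt31 x y ^ n), hc.eq]
    simp only [mul_assoc]
  one_mem' := ⟨1, 0, by simp⟩
  inv_mem' := by
    rintro _ ⟨k, n, rfl⟩
    refine ⟨k⁻¹, -n, ?_⟩
    have hc : Commute (zt31 x y ^ (-n)) (FreeGroup.lift ![x ^ 2, y ^ 2] k⁻¹) :=
      (zt_comm h k⁻¹).zpow_left (-n)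
    rw [mul_inv_rev, ← map_inv, ← zpow_neg, hc.eq]

theorem x2_mem (h : x * y * x = y * x * y) : x ^ 2 ∈ hs31 h :=
  ⟨FreeGroup.of 0, 0, by simp⟩

theorem y2_mem (h : x * y * x = y * x * y) : y ^ 2 ∈ hs31 h :=
  ⟨FreeGroup.of 1, 0, by simp⟩

theorem zt_mem (h : x * y * x = y * x * y) : zt31 x y ∈ hs31 h :=
  ⟨1, 1, by simp⟩

/-- `y x² y⁻¹` is pure. -/
theorem yx_mem (h : x * y * x = y * x * y) : y * x ^ 2 * y⁻¹ ∈ hs31 h := by
  have h1 : y * x ^ 2 * y⁻¹ = (x ^ 2)⁻¹ * zt31 x y * (y ^ 2)⁻¹ := by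
    rw [eq_mul_inv_iff_mul_eq, eq_inv_mul_iff_mul_eq, zt_eq h]
    calc x ^ 2 * (y * x ^ 2 * y⁻¹ * y ^ 2) = x * (x * y * x) * (x * y) := by
          rw [pow_two, pow_two]
          group
      _ = (x * y * x) * y * (x * y) := by rw [gy31 h]
      _ = (x * y * x) * (y * x * y) := by simp only [mul_assoc]
      _ = (x * y * x) * (x * y * x) := by rw [← h]
  rw [h1]
  exact mul_mem (mul_mem (inv_mem (x2_mem h)) (zt_mem h)) (inv_mem (y2_mem h))

/-- `x y² x⁻¹` is pure. -/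
theorem xy_mem (h : x * y * x = y * x * y) : x * y ^ 2 * x⁻¹ ∈ hs31 h := by
  have h1 : x * y ^ 2 * x⁻¹ = (y ^ 2)⁻¹ * zt31 x y * (x ^ 2)⁻¹ := by
    rw [eq_mul_inv_iff_mul_eq, eq_inv_mul_iff_mul_eq, zt_eq h]
    calc y ^ 2 * (x * y ^ 2 * x⁻¹ * x ^ 2) = y * (y * x * y) * (y * x) := by
          rw [pow_two, pow_two]
          group
      _ = y * (x * y * x) * (y * x) := by rw [← h]
      _ = (x * y * x) * x * (y * x) := by rw [gx31 h]
      _ = (x * y * x) * (x * y * x) := by simp only [mul_assoc]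
  rw [h1]
  exact mul_mem (mul_mem (inv_mem (y2_mem h)) (zt_mem h)) (inv_mem (x2_mem h))

/-- Coset representatives of the pure braids. -/
def rp31 (x y : G) : Fin 6 → G := ![1, x, y, x * y, y * x, x * y * x]

/-- `g ∈ H r` for one of the representatives. -/
def Cs31 (h : x * y * x = y * x * y) (g : G) : Prop := ∃ p ∈ hs31 h, ∃ i, g = p * rp31 x y i

theorem cs_of (h : x * y * x = y * x * y) {g u : G} (i : Fin 6) (hu : g * u⁻¹ ∈ hs31 h)
    (e : u = rp31 x y i) : Cs31 h g := ⟨g * u⁻¹, hu, i, by rw [← e, inv_mul_cancel_right]⟩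

theorem cs_mul_left (h : x * y * x = y * x * y) {p g : G} (hp : p ∈ hs31 h) (hg : Cs31 h g) :
    Cs31 h (p * g) := by
  obtain ⟨q, hq, i, rfl⟩ := hg
  exact ⟨p * q, mul_mem hp hq, i, by rw [mul_assoc]⟩

theorem rp_x (h : x * y * x = y * x * y) (i : Fin 6) : Cs31 h (rp31 x y i * x) := by
  fin_cases i
  · exact cs_of h 1 (u := x) (by simp [rp31, one_mem]) rfl
  · exact cs_of h 0 (u := 1) (by simpa [rp31, pow_two] using x2_mem h) rfl
  · exact cs_of h 4 (u := y * x) (by simp [rp31, one_mem]) rfl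
  · exact cs_of h 5 (u := x * y * x) (by simp [rp31, one_mem]) rfl
  · refine cs_of h 2 (u := y) ?_ rfl
    have e : rp31 x y 4 * x * y⁻¹ = y * x ^ 2 * y⁻¹ := by
      rw [pow_two]
      simp [rp31, mul_assoc]
    exact e ▸ yx_mem h
  · refine cs_of h 3 (u := x * y) ?_ rfl
    have e : rp31 x y 5 * x * (x * y)⁻¹ = y ^ 2 := by
      have : rp31 x y 5 * x = y * (x * y * x) := gx31 h
      rw [this, h, pow_two]
      group
    exact e ▸ y2_mem h

theorem rp_xi (h : x * y * x = y * x * y) (i : Fin 6) : Cs31 h (rp31 x y i * x⁻¹) := by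
  fin_cases i
  · refine cs_of h 1 (u := x) ?_ rfl
    have e : rp31 x y 0 * x⁻¹ * x⁻¹ = (x ^ 2)⁻¹ := by
      rw [pow_two]
      simp [rp31]
    exact e ▸ inv_mem (x2_mem h)
  · exact cs_of h 0 (u := 1) (by simp [rp31, one_mem]) rfl
  · refine cs_of h 4 (u := y * x) ?_ rfl
    have e : rp31 x y 2 * x⁻¹ * (y * x)⁻¹ = (y * x ^ 2 * y⁻¹)⁻¹ := by
      have : rp31 x y 2 = y := rfl
      rw [this, pow_two]
      group
    exact e ▸ inv_mem (yx_mem h)
  · refine cs_of h 5 (u := x * y * x) ?_ rfl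
    have e : rp31 x y 3 * x⁻¹ * (x * y * x)⁻¹ = (y ^ 2)⁻¹ := by
      have h3 : rp31 x y 3 = x * y := rfl
      have h4 : (x * y * x) * x * (x * y)⁻¹ = y ^ 2 := by
        rw [gx31 h, h, pow_two]
        group
      rw [h3, ← h4]
      group
    exact e ▸ inv_mem (y2_mem h)
  · exact cs_of h 2 (u := y) (by simp [rp31, one_mem]) rfl
  · exact cs_of h 3 (u := x * y) (by simp [rp31, one_mem]) rfl

theorem rp_yi (h : x * y * x = y * x * y) (i : Fin 6) : Cs31 h (rp31 x y i * y⁻¹) := by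
  fin_cases i
  · refine cs_of h 2 (u := y) ?_ rfl
    have e : rp31 x y 0 * y⁻¹ * y⁻¹ = (y ^ 2)⁻¹ := by
      rw [pow_two]
      simp [rp31]
    exact e ▸ inv_mem (y2_mem h)
  · refine cs_of h 3 (u := x * y) ?_ rfl
    have e : rp31 x y 1 * y⁻¹ * (x * y)⁻¹ = (x * y ^ 2 * x⁻¹)⁻¹ := by
      have : rp31 x y 1 = x := rfl
      rw [this, pow_two]
      group
    exact e ▸ inv_mem (xy_mem h)
  · exact cs_of h 0 (u := 1) (by simp [rp31, one_mem]) rfl
  · exact cs_of h 1 (u := x) (by simp [rp31, one_mem]) rfl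
  · refine cs_of h 5 (u := x * y * x) ?_ rfl
    have e : rp31 x y 4 * y⁻¹ * (x * y * x)⁻¹ = (x ^ 2)⁻¹ := by
      have h3 : rp31 x y 4 = y * x := rfl
      have h4 : (x * y * x) * y * (y * x)⁻¹ = x ^ 2 := by
        rw [gy31 h, pow_two]
        group
      rw [h3, ← h4]
      group
    exact e ▸ inv_mem (x2_mem h)
  · refine cs_of h 4 (u := y * x) ?_ rfl
    have e : rp31 x y 5 * y⁻¹ * (y * x)⁻¹ = 1 := by
      have : rp31 x y 5 = x * y * x := rfl
      rw [this, h]
      group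
    exact e ▸ one_mem _

theorem rp_y (h : x * y * x = y * x * y) (i : Fin 6) : Cs31 h (rp31 x y i * y) := by
  fin_cases i
  · exact cs_of h 2 (u := y) (by simp [rp31, one_mem]) rfl
  · exact cs_of h 3 (u := x * y) (by simp [rp31, one_mem]) rfl
  · exact cs_of h 0 (u := 1) (by simpa [rp31, pow_two] using y2_mem h) rfl
  · refine cs_of h 1 (u := x) ?_ rfl
    have e : rp31 x y 3 * y * x⁻¹ = x * y ^ 2 * x⁻¹ := by
      rw [pow_two]
      simp [rp31, mul_assoc]
    exact e ▸ xy_mem h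
  · refine cs_of h 5 (u := x * y * x) ?_ rfl
    have e : rp31 x y 4 * y * (x * y * x)⁻¹ = 1 := by
      have : rp31 x y 4 * y = y * x * y := rfl
      rw [this, ← h, mul_inv_cancel]
    exact e ▸ one_mem _
  · refine cs_of h 4 (u := y * x) ?_ rfl
    have e : rp31 x y 5 * y * (y * x)⁻¹ = x ^ 2 := by
      have : rp31 x y 5 * y = x * (x * y * x) := gy31 h
      rw [this, pow_two]
      group
    exact e ▸ x2_mem h

theorem cs_x (h : x * y * x = y * x * y) {g : G} (hg : Cs31 h g) : Cs31 h (g * x) := by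
  obtain ⟨p, hp, i, rfl⟩ := hg
  rw [mul_assoc]
  exact cs_mul_left h hp (rp_x h i)

theorem cs_y (h : x * y * x = y * x * y) {g : G} (hg : Cs31 h g) : Cs31 h (g * y) := by
  obtain ⟨p, hp, i, rfl⟩ := hg
  rw [mul_assoc]
  exact cs_mul_left h hp (rp_y h i)

theorem cs_xi (h : x * y * x = y * x * y) {g : G} (hg : Cs31 h g) : Cs31 h (g * x⁻¹) := by
  obtain ⟨p, hp, i, rfl⟩ := hg
  rw [mul_assoc]
  exact cs_mul_left h hp (rp_xi h i)

theorem cs_yi (h : x * y * x = y * x * y) {g : G} (hg : Cs31 h g) : Cs31 h (g * y⁻¹) := by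
  obtain ⟨p, hp, i, rfl⟩ := hg
  rw [mul_assoc]
  exact cs_mul_left h hp (rp_yi h i)

theorem cs_all (h : x * y * x = y * x * y) (w : FreeGroup (Fin 2)) :
    ∀ g : G, Cs31 h g → Cs31 h (g * FreeGroup.lift ![x, y] w) := by
  induction w using FreeGroup.induction_on with
  | C1 => intro g hg; rwa [map_one, mul_one]
  | of i =>
    intro g hg
    rw [FreeGroup.lift_apply_of]
    fin_cases i
    · exact cs_x h hg
    · exact cs_y h hg
  | inv_of i _ =>
    intro g hg
    rw [map_inv, FreeGroup.lift_apply_of]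
    fin_cases i
    · exact cs_xi h hg
    · exact cs_yi h hg
  | mul a b iha ihb =>
    intro g hg
    rw [map_mul, ← mul_assoc]
    exact ihb _ (iha _ hg)

/-- Every braid on three strands is `k(x², y²) ζ ^ n r` with one of the six representatives. -/
theorem pb_31 (h : x * y * x = y * x * y) (w : FreeGroup (Fin 2)) :
    ∃ (k : FreeGroup (Fin 2)) (n : ℤ) (i : Fin 6), FreeGroup.lift ![x, y] w =
      FreeGroup.lift ![x ^ 2, y ^ 2] k * ((x * y) ^ 3) ^ n *
        (![1, x, y, x * y, y * x, x * y * x] : Fin 6 → G) i := by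
  have h1 : Cs31 h (1 * FreeGroup.lift ![x, y] w) :=
    cs_all h w 1 ⟨1, one_mem _, 0, by simp [rp31]⟩
  rw [one_mul] at h1
  obtain ⟨p, ⟨k, n, hk⟩, i, hi⟩ := h1
  exact ⟨k, n, i, by rw [hi, hk]; rfl⟩

end braid

/-- `[1 1; 0 1]`. -/
def u1_31 : SL := ⟨!![1, 1; 0, 1], by simp [Matrix.det_fin_two]⟩

/-- `[1 0; -1 1]`. -/
def u2_31 : SL := ⟨!![1, 0; -1, 1], by simp [Matrix.det_fin_two]⟩

/-- The matrix of a word in the braid generators `σ₁, σ₂`. -/
def m3_31 : FreeGroup (Fin 2) →* SL := FreeGroup.lift ![u1_31, u2_31]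

theorem u_braid : u1_31 * u2_31 * u1_31 = u2_31 * u1_31 * u2_31 := by decide

theorem u1_sq : u1_31 ^ 2 = matX31 := by decide

theorem u2_sq : u2_31 ^ 2 = matY31 := by decide

theorem u_cube : (u1_31 * u2_31) ^ 3 = -1 := by decide

theorem lift_sq31 (k : FreeGroup (Fin 2)) : FreeGroup.lift ![u1_31 ^ 2, u2_31 ^ 2] k = mat31 k := by
  rw [u1_sq, u2_sq]
  rfl

theorem neg_one_zpow31 (n : ℤ) : (-1 : SL) ^ n = 1 ∨ (-1 : SL) ^ n = -1 := by
  rcases Int.even_or_odd n with h | h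
  · left; exact h.neg_one_zpow
  · right; exact h.neg_one_zpow

/-- Reduction modulo two. -/
def red31 : SL →* Matrix.SpecialLinearGroup (Fin 2) (ZMod 2) :=
  Matrix.SpecialLinearGroup.map (Int.castRingHom (ZMod 2))

theorem red_mat (k : FreeGroup (Fin 2)) : red31 (mat31 k) = 1 := by
  have h : red31.comp mat31 = 1 := by
    apply FreeGroup.ext_hom
    intro i
    fin_cases i
    · show red31 (mat31 (FreeGroup.of 0)) = 1
      rw [mat31_zero]
      decide
    · show red31 (mat31 (FreeGroup.of 1)) = 1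
      rw [mat31_one]
      decide
  exact DFunLike.congr_fun h k

theorem red_neg : red31 (-1) = 1 := by decide

theorem red_rep (i : Fin 6) (h : red31 ((![1, u1_31, u2_31, u1_31 * u2_31, u2_31 * u1_31,
    u1_31 * u2_31 * u1_31] : Fin 6 → SL) i) = 1) : i = 0 := by
  revert h
  revert i
  decide

/-- D3: the kernel of the projective representation of the braid group on three strands consists
of the powers of `ζ = (x y) ^ 3` (in every group with two elements `x, y` such that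
`x y x = y x y`). -/
theorem d3_31 {G : Type*} [Group G] {x y : G} (h : x * y * x = y * x * y) (w : FreeGroup (Fin 2))
    (hw : m3_31 w = 1 ∨ m3_31 w = -1) : ∃ n : ℤ, FreeGroup.lift ![x, y] w = ((x * y) ^ 3) ^ n := by
  have h' : ((x, u1_31) : G × SL) * (y, u2_31) * (x, u1_31) =
      (y, u2_31) * (x, u1_31) * (y, u2_31) := Prod.ext h u_braid
  obtain ⟨k, n, i, hi⟩ := pb_31 h' w
  have h1 : (FreeGroup.lift ![x, y] w : G) = (FreeGroup.lift ![(x, u1_31), (y, u2_31)] w :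
      G × SL).1 := by
    have : (FreeGroup.lift ![x, y] : FreeGroup (Fin 2) →* G) =
        (MonoidHom.fst G SL).comp (FreeGroup.lift ![(x, u1_31), (y, u2_31)]) := by
      apply FreeGroup.ext_hom
      intro j
      fin_cases j <;> simp
    exact DFunLike.congr_fun this w
  have h2 : m3_31 w = (FreeGroup.lift ![(x, u1_31), (y, u2_31)] w : G × SL).2 := by
    have : (FreeGroup.lift ![u1_31, u2_31] : FreeGroup (Fin 2) →* SL) =
        (MonoidHom.snd G SL).comp (FreeGroup.lift ![(x, u1_31), (y, u2_31)]) := by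
      apply FreeGroup.ext_hom
      intro j
      fin_cases j <;> simp
    exact DFunLike.congr_fun this w
  have h3 : (FreeGroup.lift ![((x, u1_31) : G × SL) ^ 2, (y, u2_31) ^ 2] k : G × SL).2 =
      mat31 k := by
    have : mat31 = (MonoidHom.snd G SL).comp
        (FreeGroup.lift ![((x, u1_31) : G × SL) ^ 2, (y, u2_31) ^ 2]) := by
      apply FreeGroup.ext_hom
      intro j
      fin_cases j
      · show mat31 (FreeGroup.of 0) = _
        rw [mat31_zero, ← u1_sq]
        simp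
      · show mat31 (FreeGroup.of 1) = _
        rw [mat31_one, ← u2_sq]
        simp
    exact (DFunLike.congr_fun this k).symm
  have h4 : m3_31 w = mat31 k * (-1) ^ n * (![1, u1_31, u2_31, u1_31 * u2_31, u2_31 * u1_31,
      u1_31 * u2_31 * u1_31] : Fin 6 → SL) i := by
    rw [h2, hi, Prod.snd_mul, Prod.snd_mul, h3]
    congr 1
    · congr 1
      show ((u1_31 * u2_31) ^ 3) ^ n = _
      rw [u_cube]
    · fin_cases i <;> rfl
  have h5 : i = 0 := by
    apply red_rep
    have e := congrArg red31 h4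
    rw [map_mul, map_mul, red_mat, one_mul, map_zpow, red_neg, one_zpow, one_mul] at e
    rw [← e]
    rcases hw with hw | hw
    · rw [hw, map_one]
    · rw [hw, red_neg]
  subst h5
  have h6 : k = 1 := by
    apply d0_31
    have e : m3_31 w = mat31 k * (-1) ^ n := by rw [h4]; exact mul_one _
    rcases neg_one_zpow31 n with hn | hn <;> rw [hn] at e <;> rcases hw with hw | hw <;>
      rw [hw] at e
    · left; rw [mul_one] at e; exact e.symm
    · right; rw [mul_one] at e; exact e.symm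
    · right
      rw [mul_neg, mul_one] at e
      rw [e, neg_neg]
    · left
      rw [mul_neg, mul_one] at e
      exact (neg_injective e).symm
  subst h6
  refine ⟨n, ?_⟩
  rw [h1, hi, map_one, one_mul]
  show ((x * y) ^ 3) ^ n * 1 = _
  rw [mul_one]

end MPb66790.HK31
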