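import Pool.Agent.Lib.MP_b66790_nt.Hecke.CN57
import Pool.Agent.Lib.MP_b66790_nt.Hecke.Sl31
import Pool.Agent.Lib.MP_b66790_nt.ModD

/-!
# Rows M0 - M5: the braid group on three strands and its matrices
-/

namespace MPb66790.M31

open MPb66790 MPb66790.HK24 MPb66790.CY24 MPb66790.Th57 MPb66790.CN57 MPb66790.HK31 Function

/-! ### `jD` is injective -/

theorem jD_inj : Injective jD := by
  rw [injective_iff_map_eq_one]
  intro w hw
  have h1 : (brd (isBraid_tZ F2)).comp jD =
      (FreeGroup.lift ![(pZ F2)⁻¹ * rZ F2, pZ F2] : F2 →* Equiv.Perm (F2 × F2 → F2)) := by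
    have ha : brd (isBraid_tZ F2) aD = pZ F2 := by
      unfold aD
      rw [map_mul, map_inv]
      simp only [brd_σ]
      exact t0Z_t2Z F2
    apply FreeGroup.ext_hom
    intro i
    fin_cases i
    · show brd (isBraid_tZ F2) (jD (FreeGroup.of 0)) = FreeGroup.lift _ (FreeGroup.of 0)
      rw [FreeGroup.lift_apply_of]
      have : jD (FreeGroup.of 0) = aD⁻¹ * (σ 1 * aD * (σ 1)⁻¹) := by simp [jD]
      rw [this, map_mul, map_mul, map_mul, map_inv, map_inv, ha]
      simp only [brd_σ]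
      exact congrArg ((pZ F2)⁻¹ * ·) (t1Z_pZ F2)
    · show brd (isBraid_tZ F2) (jD (FreeGroup.of 1)) = FreeGroup.lift _ (FreeGroup.of 1)
      rw [FreeGroup.lift_apply_of]
      have : jD (FreeGroup.of 1) = aD := by simp [jD]
      rw [this, ha]
      rfl
  have h2 : (FreeGroup.lift ![(pZ F2)⁻¹ * rZ F2, pZ F2] : F2 →* Equiv.Perm (F2 × F2 → F2)) w = 1 := by
    rw [← h1]
    show brd (isBraid_tZ F2) (jD w) = 1
    rw [hw, map_one]
  have h3 : ∀ (v : F2) (F : F2 × F2 → F2) (ab : F2 × F2),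
      (FreeGroup.lift ![(pZ F2)⁻¹ * rZ F2, pZ F2] : F2 →* Equiv.Perm (F2 × F2 → F2)) v F ab =
        FreeGroup.lift ![ab.1⁻¹ * ab.2, ab.1] v * F ab := by
    intro v F ab
    have e : (FreeGroup.lift ![(pZ F2)⁻¹ * rZ F2, pZ F2] : F2 →* Equiv.Perm (F2 × F2 → F2)) =
        (MulAction.toPermHom (F2 × F2 → F2) (F2 × F2 → F2)).comp
          (FreeGroup.lift ![Prod.fst⁻¹ * Prod.snd, Prod.fst]) := by
      apply FreeGroup.ext_hom
      intro i
      fin_cases i
      · show FreeGroup.lift ![(pZ F2)⁻¹ * rZ F2, pZ F2] (FreeGroup.of 0) =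
          (MulAction.toPermHom (F2 × F2 → F2) (F2 × F2 → F2))
            (FreeGroup.lift ![Prod.fst⁻¹ * Prod.snd, Prod.fst] (FreeGroup.of 0))
        rw [FreeGroup.lift_apply_of, FreeGroup.lift_apply_of]
        show (pZ F2)⁻¹ * rZ F2 = (MulAction.toPermHom (F2 × F2 → F2) (F2 × F2 → F2))
            (Prod.fst⁻¹ * Prod.snd)
        rw [map_mul, map_inv]
        rfl
      · show FreeGroup.lift ![(pZ F2)⁻¹ * rZ F2, pZ F2] (FreeGroup.of 1) =
          (MulAction.toPermHom (F2 × F2 → F2) (F2 × F2 → F2))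
            (FreeGroup.lift ![Prod.fst⁻¹ * Prod.snd, Prod.fst] (FreeGroup.of 1))
        rw [FreeGroup.lift_apply_of, FreeGroup.lift_apply_of]
        rfl
    rw [e]
    show (FreeGroup.lift ![Prod.fst⁻¹ * Prod.snd, Prod.fst] v : F2 × F2 → F2) ab * F ab = _
    congr 1
    have e2 : (Pi.evalMonoidHom (fun _ : F2 × F2 => F2) ab).comp
        (FreeGroup.lift ![Prod.fst⁻¹ * Prod.snd, Prod.fst]) =
        (FreeGroup.lift ![ab.1⁻¹ * ab.2, ab.1] : F2 →* F2) := by
      apply FreeGroup.ext_hom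
      intro i
      fin_cases i
      · simp
      · simp
    exact DFunLike.congr_fun e2 v
  have h4 := h3 w 1 (FreeGroup.of 1, FreeGroup.of 1 * FreeGroup.of 0)
  rw [h2] at h4
  have h5 : (FreeGroup.lift ![(FreeGroup.of 1 : F2)⁻¹ * (FreeGroup.of 1 * FreeGroup.of 0),
      FreeGroup.of 1] : F2 →* F2) = MonoidHom.id F2 := by
    apply FreeGroup.ext_hom
    intro i
    fin_cases i
    · simp
    · simp
  change (1 : F2) = FreeGroup.lift ![(FreeGroup.of 1 : F2)⁻¹ * (FreeGroup.of 1 * FreeGroup.of 0),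
      FreeGroup.of 1] w * 1 at h4
  rw [h5, mul_one] at h4
  exact h4.symm

theorem cj_unique {g : Braid4} {w v v' : F2} (h : CJ g w v) (h' : CJ g w v') : v' = v :=
  jD_inj (h'.symm.trans h)

/-! ### The action of words in `σ₁, σ₂` -/

/-- The word in `σ₁, σ₂`. -/
def wB : F2 →* Braid4 := FreeGroup.lift ![σ 0, σ 1]

/-- Its action. -/
def Ax : F2 →* MulAut F2 := FreeGroup.lift ![P1, P2]

theorem CJ_Ax (v : F2) : ∀ w, CJ (wB v) w (Ax v w) := by
  refine word_ind (p := fun v => ∀ w, CJ (wB v) w (Ax v w)) ?_ ?_ ?_ ?_ ?_ v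
  · intro w
    unfold CJ
    simp
  · have h1 : wB (FreeGroup.of 0) = σ 0 := by simp [wB]
    have h2 : Ax (FreeGroup.of 0) = P1 := by simp [Ax]
    rw [h1, h2]
    exact CJ_P1
  · have h1 : wB (FreeGroup.of 1) = σ 1 := by simp [wB]
    have h2 : Ax (FreeGroup.of 1) = P2 := by simp [Ax]
    rw [h1, h2]
    exact CJ_P2
  · intro x hx
    rw [map_inv, map_inv]
    exact CJ_inv hx
  · intro x y hx hy
    rw [map_mul, map_mul]
    exact CJ_mul hx hy

theorem B3_range {g : Braid4} (hg : g ∈ B3) : ∃ v, g = wB v := by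
  have h : B3 ≤ wB.range := by
    unfold B3
    rw [Subgroup.closure_le]
    rintro x (rfl | rfl)
    · exact ⟨FreeGroup.of 0, by simp [wB]⟩
    · exact ⟨FreeGroup.of 1, by simp [wB]⟩
  obtain ⟨v, hv⟩ := h hg
  exact ⟨v, hv.symm⟩

/-- Row M0. -/
theorem stM0_31 : StM0 := by
  intro g hg w
  obtain ⟨v, rfl⟩ := B3_range hg
  exact ⟨_, CJ_Ax v w⟩

/-- Row M1. -/
theorem stM1_31 : StM1 := by
  intro k w w' h
  rw [cj_unique (CJ_Ac k w) h]
  exact vec_Ac k w

/-! ### Matrices -/

/-- Conjugation by `diag(1, -1)`, as a function. -/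
def cEf (M : SL) : SL := ⟨!![M 0 0, -M 0 1; -M 1 0, M 1 1], by
    rw [Matrix.det_fin_two_of]
    have := det31 M
    linarith⟩

theorem cEf_entry (M : SL) : (cEf M) 0 0 = M 0 0 ∧ (cEf M) 0 1 = -M 0 1 ∧ (cEf M) 1 0 = -M 1 0 ∧
    (cEf M) 1 1 = M 1 1 := ⟨rfl, rfl, rfl, rfl⟩

/-- Conjugation by `diag(1, -1)`. -/
def cE : SL →* SL where
  toFun := cEf
  map_one' := by
    obtain ⟨h1, h2, h3, h4⟩ := cEf_entry 1
    apply ext31
    · rw [h1]
    · rw [h2]; rfl
    · rw [h3]; rfl
    · rw [h4]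
  map_mul' M N := by
    obtain ⟨h1, h2, h3, h4⟩ := cEf_entry (M * N)
    obtain ⟨i1, i2, i3, i4⟩ := cEf_entry M
    obtain ⟨j1, j2, j3, j4⟩ := cEf_entry N
    apply ext31
    · rw [h1, mul31, mul31, i1, i2, j1, j3]; ring
    · rw [h2, mul31, mul31, i1, i2, j2, j4]; ring
    · rw [h3, mul31, mul31, i3, i4, j1, j3]; ring
    · rw [h4, mul31, mul31, i3, i4, j2, j4]; ring

theorem cE_entry (M : SL) : (cE M) 0 0 = M 0 0 ∧ (cE M) 0 1 = -M 0 1 ∧ (cE M) 1 0 = -M 1 0 ∧
    (cE M) 1 1 = M 1 1 := ⟨rfl, rfl, rfl, rfl⟩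

theorem cE_cE (M : SL) : cE (cE M) = M := by
  obtain ⟨h1, h2, h3, h4⟩ := cE_entry (cE M)
  obtain ⟨i1, i2, i3, i4⟩ := cE_entry M
  apply ext31
  · rw [h1, i1]
  · rw [h2, i2, neg_neg]
  · rw [h3, i3, neg_neg]
  · rw [h4, i4]

theorem cE_neg (M : SL) : cE (-M) = -cE M := by
  obtain ⟨h1, h2, h3, h4⟩ := cE_entry (-M)
  obtain ⟨i1, i2, i3, i4⟩ := cE_entry M
  apply ext31
  · rw [h1, neg31, neg31, i1]
  · rw [h2, neg31, neg31, i2]
  · rw [h3, neg31, neg31, i3]
  · rw [h4, neg31, neg31, i4]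

theorem matP_cE (k : F2) : matP k = cE (mat31 k) := by
  have h : matP = cE.comp mat31 := by
    apply FreeGroup.ext_hom
    intro i
    fin_cases i
    · show matP (FreeGroup.of 0) = cE (mat31 (FreeGroup.of 0))
      rw [mat31_zero]
      have h0 : matP (FreeGroup.of 0) = ⟨!![1, -2; 0, 1], by simp [Matrix.det_fin_two]⟩ := by
        simp only [matP, FreeGroup.lift_apply_of]
        rfl
      rw [h0]
      obtain ⟨i1, i2, i3, i4⟩ := cE_entry matX31
      apply ext31
      · rw [i1]; rfl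
      · rw [i2]; rfl
      · rw [i3]; rfl
      · rw [i4]; rfl
    · show matP (FreeGroup.of 1) = cE (mat31 (FreeGroup.of 1))
      rw [mat31_one]
      have h0 : matP (FreeGroup.of 1) = ⟨!![1, 0; 2, 1], by simp [Matrix.det_fin_two]⟩ := by
        simp only [matP, FreeGroup.lift_apply_of]
        rfl
      rw [h0]
      obtain ⟨i1, i2, i3, i4⟩ := cE_entry matY31
      apply ext31
      · rw [i1]; rfl
      · rw [i2]; rfl
      · rw [i3]; rfl
      · rw [i4]; rfl
  exact DFunLike.congr_fun h k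

theorem mat31_cE (k : F2) : mat31 k = cE (matP k) := by rw [matP_cE, cE_cE]

/-- The matrix of a word in `σ₁, σ₂` on the homology. -/
def mQ (v : F2) : SL := cE (m3_31 v)

theorem mQ_mul (v w : F2) : mQ (v * w) = mQ v * mQ w := by
  unfold mQ
  rw [map_mul, map_mul]

theorem mQ_one : mQ 1 = 1 := by
  unfold mQ
  rw [map_one, map_one]

theorem vec_Ax (v : F2) : ∀ w, vec (Ax v w) = (mQ v).1.mulVec (vec w) := by
  refine word_ind (p := fun v => ∀ w, vec (Ax v w) = (mQ v).1.mulVec (vec w)) ?_ ?_ ?_ ?_ ?_ v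
  · intro w
    rw [mQ_one]
    simp
  · have hm : (mQ (FreeGroup.of 0)).1 = !![1, -1; 0, 1] := by
      have : m3_31 (FreeGroup.of 0) = u1_31 := by simp [m3_31]
      unfold mQ
      rw [this]
      ext i j
      fin_cases i <;> fin_cases j <;> rfl
    have h2 : Ax (FreeGroup.of 0) = P1 := by simp [Ax]
    rw [hm, h2]
    refine vec_lin ?_ ?_
    · rw [P1_a, vec_a]
      ext i
      fin_cases i <;> simp
    · rw [P1_b, vec_mul, vec_inv, vec_a, vec_b]
      ext i
      fin_cases i <;> simp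
  · have hm : (mQ (FreeGroup.of 1)).1 = !![1, 0; 1, 1] := by
      have : m3_31 (FreeGroup.of 1) = u2_31 := by simp [m3_31]
      unfold mQ
      rw [this]
      ext i j
      fin_cases i <;> fin_cases j <;> rfl
    have h2 : Ax (FreeGroup.of 1) = P2 := by simp [Ax]
    rw [hm, h2]
    refine vec_lin ?_ ?_
    · rw [P2_a, vec_mul, vec_a, vec_b]
      ext i
      fin_cases i <;> simp
    · rw [P2_b, vec_b]
      ext i
      fin_cases i <;> simp
  · intro x hx w
    have h1 := hx (Ax x⁻¹ w)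
    rw [← MulAut.mul_apply, ← map_mul, mul_inv_cancel, map_one, MulAut.one_apply] at h1
    have h3 : (mQ x⁻¹).1 * (mQ x).1 = 1 := by
      have e : mQ x⁻¹ * mQ x = 1 := by rw [← mQ_mul, inv_mul_cancel, mQ_one]
      exact congrArg Subtype.val e
    rw [h1, Matrix.mulVec_mulVec, h3, Matrix.one_mulVec]
  · intro x y hx hy w
    have h3 : (mQ (x * y)).1 = (mQ x).1 * (mQ y).1 := congrArg Subtype.val (mQ_mul x y)
    rw [map_mul, MulAut.mul_apply, hx, hy, Matrix.mulVec_mulVec, h3]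

/-- The columns of the matrix. -/
theorem col_a (v : F2) (i : Fin 2) : vec (Ax v a) i = (mQ v) i 0 := by
  rw [vec_Ax, vec_a]
  simp [Matrix.mulVec, dotProduct, Fin.sum_univ_two]

theorem col_b (v : F2) (i : Fin 2) : vec (Ax v b) i = (mQ v) i 1 := by
  rw [vec_Ax, vec_b]
  simp [Matrix.mulVec, dotProduct, Fin.sum_univ_two]

/-! ### Normal form with matrices -/

theorem nf31 (v : F2) : ∃ (k : F2) (n : ℤ) (i : Fin 6), wB v = iotaD k * zD ^ n *
      (![1, σ 0, σ 1, σ 0 * σ 1, σ 1 * σ 0, σ 0 * σ 1 * σ 0] : Fin 6 → Braid4) i ∧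
    m3_31 v = mat31 k * (-1) ^ n * (![1, u1_31, u2_31, u1_31 * u2_31, u2_31 * u1_31,
      u1_31 * u2_31 * u1_31] : Fin 6 → SL) i := by
  have h' : ((σ 0, u1_31) : Braid4 × SL) * (σ 1, u2_31) * (σ 0, u1_31) =
      (σ 1, u2_31) * (σ 0, u1_31) * (σ 1, u2_31) := Prod.ext isBraid_σ.1 u_braid
  obtain ⟨k, n, i, hi⟩ := pb_31 h' v
  have h1 : wB v = (FreeGroup.lift ![(σ 0, u1_31), (σ 1, u2_31)] v : Braid4 × SL).1 := by
    have : wB = (MonoidHom.fst Braid4 SL).comp (FreeGroup.lift ![(σ 0, u1_31), (σ 1, u2_31)]) := by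
      apply FreeGroup.ext_hom
      intro j
      fin_cases j <;> simp [wB]
    exact DFunLike.congr_fun this v
  have h2 : m3_31 v = (FreeGroup.lift ![(σ 0, u1_31), (σ 1, u2_31)] v : Braid4 × SL).2 := by
    have : (FreeGroup.lift ![u1_31, u2_31] : F2 →* SL) =
        (MonoidHom.snd Braid4 SL).comp (FreeGroup.lift ![(σ 0, u1_31), (σ 1, u2_31)]) := by
      apply FreeGroup.ext_hom
      intro j
      fin_cases j <;> simp
    exact DFunLike.congr_fun this v
  have h3 : (FreeGroup.lift ![((σ 0, u1_31) : Braid4 × SL) ^ 2, (σ 1, u2_31) ^ 2] k :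
      Braid4 × SL).2 = mat31 k := by
    have : mat31 = (MonoidHom.snd Braid4 SL).comp
        (FreeGroup.lift ![((σ 0, u1_31) : Braid4 × SL) ^ 2, (σ 1, u2_31) ^ 2]) := by
      apply FreeGroup.ext_hom
      intro j
      fin_cases j
      · show mat31 (FreeGroup.of 0) = _
        rw [mat31_zero, ← u1_sq]
        simp
      · show mat31 (FreeGroup.of 1) = _
        rw [mat31_one, ← u2_sq]
        simp
    exact (DFunLike.congr_fun this k).symm
  have h4 : (FreeGroup.lift ![((σ 0, u1_31) : Braid4 × SL) ^ 2, (σ 1, u2_31) ^ 2] k :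
      Braid4 × SL).1 = iotaD k := by
    have : iotaD = (MonoidHom.fst Braid4 SL).comp
        (FreeGroup.lift ![((σ 0, u1_31) : Braid4 × SL) ^ 2, (σ 1, u2_31) ^ 2]) := by
      apply FreeGroup.ext_hom
      intro j
      fin_cases j <;> simp [iotaD]
    exact (DFunLike.congr_fun this k).symm
  refine ⟨k, n, i, ?_, ?_⟩
  · rw [h1, hi, Prod.fst_mul, Prod.fst_mul, h4]
    congr 1
    fin_cases i <;> rfl
  · rw [h2, hi, Prod.snd_mul, Prod.snd_mul, h3]
    congr 1
    · congr 1
      show ((u1_31 * u2_31) ^ 3) ^ n = _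
      rw [u_cube]
    · fin_cases i <;> rfl

theorem nf_red {v : F2} (hv : red31 (m3_31 v) = 1) :
    ∃ (k : F2) (n : ℤ), wB v = iotaD k * zD ^ n ∧ m3_31 v = mat31 k * (-1) ^ n := by
  obtain ⟨k, n, i, h1, h2⟩ := nf31 v
  have h5 : i = 0 := by
    apply red_rep
    have e := congrArg red31 h2
    rw [map_mul, map_mul, red_mat, one_mul, map_zpow, red_neg, one_zpow, one_mul, hv] at e
    exact e.symm
  subst h5
  exact ⟨k, n, h1.trans (mul_one _), h2.trans (mul_one _)⟩

theorem red_entries {M : SL} (h00 : (2 : ℤ) ∣ M 0 0 - 1) (h01 : (2 : ℤ) ∣ M 0 1)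
    (h10 : (2 : ℤ) ∣ M 1 0) (h11 : (2 : ℤ) ∣ M 1 1 - 1) : red31 M = 1 := by
  have key : ∀ z : ℤ, (2 : ℤ) ∣ z → ((z : ℤ) : ZMod 2) = 0 := fun z hz =>
    (ZMod.intCast_zmod_eq_zero_iff_dvd z 2).2 hz
  apply Matrix.SpecialLinearGroup.ext
  intro i j
  show ((M i j : ℤ) : ZMod 2) = (1 : Matrix (Fin 2) (Fin 2) (ZMod 2)) i j
  fin_cases i <;> fin_cases j
  · have := key _ h00
    rw [Int.cast_sub, Int.cast_one, sub_eq_zero] at this
    exact this
  · exact key _ h01
  · exact key _ h10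
  · have := key _ h11
    rw [Int.cast_sub, Int.cast_one, sub_eq_zero] at this
    exact this

/-- Row M2. -/
theorem stM2_31 : StM2 := by
  intro g hg h
  obtain ⟨v, rfl⟩ := B3_range hg
  have ha := h a _ (CJ_Ax v a)
  have hb := h b _ (CJ_Ax v b)
  have e := cE_entry (m3_31 v)
  have hred : red31 (m3_31 v) = 1 := by
    apply red_entries
    · have := ha 0
      rw [col_a, vec_a] at this
      have e1 : (mQ v) 0 0 = m3_31 v 0 0 := e.1
      rw [e1] at this
      simpa using this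
    · have := hb 0
      rw [col_b, vec_b] at this
      have e1 : (mQ v) 0 1 = -m3_31 v 0 1 := e.2.1
      rw [e1] at this
      simpa using this
    · have := ha 1
      rw [col_a, vec_a] at this
      have e1 : (mQ v) 1 0 = -m3_31 v 1 0 := e.2.2.1
      rw [e1] at this
      simpa using this
    · have := hb 1
      rw [col_b, vec_b] at this
      have e1 : (mQ v) 1 1 = m3_31 v 1 1 := e.2.2.2
      rw [e1] at this
      simpa using this
  obtain ⟨k, n, h1, -⟩ := nf_red hred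
  exact ⟨k, n, h1⟩

/-- Row M3. -/
theorem stM3_31 : StM3 := by
  intro g hg h
  obtain ⟨v, rfl⟩ := B3_range hg
  have e := cE_entry (m3_31 v)
  have hm : m3_31 v = 1 ∨ m3_31 v = -1 := by
    rcases h with h | h
    · left
      have ha := h a _ (CJ_Ax v a)
      have hb := h b _ (CJ_Ax v b)
      apply ext31
      · have := congrFun ha 0
        rw [col_a, vec_a] at this
        exact e.1.symm.trans this
      · have := congrFun hb 0
        rw [col_b, vec_b] at this
        have e1 : (mQ v) 0 1 = -m3_31 v 0 1 := e.2.1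
        rw [e1] at this
        simpa using this
      · have := congrFun ha 1
        rw [col_a, vec_a] at this
        have e1 : (mQ v) 1 0 = -m3_31 v 1 0 := e.2.2.1
        rw [e1] at this
        simpa using this
      · have := congrFun hb 1
        rw [col_b, vec_b] at this
        exact e.2.2.2.symm.trans this
    · right
      have ha := h a _ (CJ_Ax v a)
      have hb := h b _ (CJ_Ax v b)
      apply ext31
      · have := congrFun ha 0
        rw [col_a, vec_a] at this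
        exact e.1.symm.trans this
      · have := congrFun hb 0
        rw [col_b, vec_b] at this
        have e1 : (mQ v) 0 1 = -m3_31 v 0 1 := e.2.1
        rw [e1] at this
        simpa using this
      · have := congrFun ha 1
        rw [col_a, vec_a] at this
        have e1 : (mQ v) 1 0 = -m3_31 v 1 0 := e.2.2.1
        rw [e1] at this
        simpa using this
      · have := congrFun hb 1
        rw [col_b, vec_b] at this
        exact e.2.2.2.symm.trans this
  obtain ⟨n, hn⟩ := d3_31 (x := σ 0) (y := σ 1) isBraid_σ.1 v hm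
  exact ⟨n, hn⟩

/-- Row M4. -/
theorem stM4_31 : StM4 := by
  intro k h
  apply d0_31
  rw [mat31_cE]
  rcases h with h | h
  · left
    have : matP k = 1 := Subtype.ext h
    rw [this, map_one]
  · right
    have : matP k = -1 := Subtype.ext h
    rw [this, cE_neg, map_one]

/-- Row M5. -/
theorem stM5_31 : StM5 := by
  intro w w' h
  have h0 : zD = wB ((FreeGroup.of 0 * FreeGroup.of 1) ^ 3) := by
    rw [map_pow, map_mul]
    simp [wB, zD]
  have h1 : mQ ((FreeGroup.of 0 * FreeGroup.of 1) ^ 3) = -1 := by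
    unfold mQ
    rw [map_pow, map_mul]
    have e0 : m3_31 (FreeGroup.of 0) = u1_31 := by simp [m3_31]
    have e1 : m3_31 (FreeGroup.of 1) = u2_31 := by simp [m3_31]
    rw [e0, e1, u_cube, cE_neg, map_one]
  rw [h0] at h
  rw [cj_unique (CJ_Ax _ w) h, vec_Ax, h1]
  show (-1 : Matrix (Fin 2) (Fin 2) ℤ).mulVec (vec w) = -vec w
  rw [Matrix.neg_mulVec, Matrix.one_mulVec]

end MPb66790.M31
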