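import Pool.Agent.Lib.MP_b66790_nt.Hecke.RM3_51
import Pool.Agent.Lib.MP_b66790_nt.Hecke.M31

/-!
# Discrete elements of the stabiliser in `B₃` have discrete partners
-/

namespace MPb66790.CNB57

open MPb66790 MPb66790.HK24 MPb66790.CY24 MPb66790.Th57 MPb66790.CN57 MPb66790.M31
open MPb66790.HK24.RM51 MPb66790.HK24.RM3_51

theorem Ax_c (v : F2) : Ax v cD = cD := by
  refine word_ind (p := fun v => Ax v cD = cD) ?_ ?_ ?_ ?_ ?_ v
  · rw [map_one]
    rfl
  · have h2 : Ax (FreeGroup.of 0) = P1 := by simp [Ax]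
    rw [h2]
    exact P1_c
  · have h2 : Ax (FreeGroup.of 1) = P2 := by simp [Ax]
    rw [h2]
    exact P2_c
  · intro x hx
    rw [map_inv]
    have h1 : (Ax x)⁻¹ (Ax x cD) = cD := MulAut.inv_apply_self _ _ _
    rw [hx] at h1
    exact h1
  · intro x y hx hy
    rw [map_mul, MulAut.mul_apply, hy, hx]

theorem stab57 {N : ℕ} {α : MulAut F2} {M : Matrix.SpecialLinearGroup (Fin 2) ℤ}
    (hv : ∀ w, vec (α w) = M.1.mulVec (vec w)) (hd : (N : ℤ) ∣ M.1 1 0) (w : F2) :
    ch N (α w) = 0 ↔ ch N w = 0 := by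
  have h0 : ((M.1 1 0 : ℤ) : ZMod N) = 0 := (ZMod.intCast_zmod_eq_zero_iff_dvd _ _).2 hd
  have hdet := M.2
  rw [Matrix.det_fin_two] at hdet
  have hdet2 := congrArg (fun z : ℤ => (z : ZMod N)) hdet
  push_cast at hdet2
  rw [h0, mul_zero, sub_zero] at hdet2
  have h1 : ch N (α w) = ((M.1 1 1 : ℤ) : ZMod N) * ch N w := by
    rw [ch_vec, hv, ch_vec]
    simp only [Matrix.mulVec, dotProduct, Fin.sum_univ_two]
    push_cast
    rw [h0]
    ring
  constructor
  · intro h2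
    rw [h1] at h2
    have h3 : ((M.1 0 0 : ℤ) : ZMod N) * (((M.1 1 1 : ℤ) : ZMod N) * ch N w) = 0 := by
      rw [h2, mul_zero]
    rwa [← mul_assoc, hdet2, one_mul] at h3
  · intro h2
    rw [h1, h2, mul_zero]

/-- The partner of an element with its action and its matrix. -/
theorem partner {n : ℕ} {g : Braid4} {α : MulAut F2} {M : Matrix.SpecialLinearGroup (Fin 2) ℤ}
    (hα : ∀ w, CJ g w (α w)) (hc : α cD = cD) (hv : ∀ w, vec (α w) = M.1.mulVec (vec w))
    (hd : ((n : ℤ) + 1) ∣ M.1 1 0) : ∃ β ∈ B3, Rel n (of g) (of β) := by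
  have hd' : ((n + 1 : ℕ) : ℤ) ∣ M.1 1 0 := by
    push_cast
    exact hd
  obtain ⟨τ, hτ, h1⟩ := descend (N := n + 1) hc (stab57 hv hd')
  obtain ⟨g', hg, h2⟩ := N57.stN_57 τ hτ
  refine ⟨g', hg, fun w => ?_⟩
  let E : Set (FHat (n + 2) × FHat (n + 2)) :=
    {p | of g * jH (covMap n p.1) * (of g)⁻¹ = jH (covMap n p.2) ∧
      of g' * jH (isoMap n p.1) * (of g')⁻¹ = jH (isoMap n p.2)}
  have hE : IsClosed E := by
    have c1 : Continuous fun p : FHat (n + 2) × FHat (n + 2) => jH (covMap n p.1) :=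
      jH.continuous_toFun.comp ((covMap n).continuous_toFun.comp continuous_fst)
    have c2 : Continuous fun p : FHat (n + 2) × FHat (n + 2) => jH (covMap n p.2) :=
      jH.continuous_toFun.comp ((covMap n).continuous_toFun.comp continuous_snd)
    have c3 : Continuous fun p : FHat (n + 2) × FHat (n + 2) => jH (isoMap n p.1) :=
      jH.continuous_toFun.comp ((isoMap n).continuous_toFun.comp continuous_fst)
    have c4 : Continuous fun p : FHat (n + 2) × FHat (n + 2) => jH (isoMap n p.2) :=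
      jH.continuous_toFun.comp ((isoMap n).continuous_toFun.comp continuous_snd)
    exact (isClosed_eq ((continuous_const.mul c1).mul continuous_const) c2).inter
      (isClosed_eq ((continuous_const.mul c3).mul continuous_const) c4)
  have hP : IsClosed (Prod.fst '' E) := (hE.isCompact.image continuous_fst).isClosed
  have hw : w ∈ Prod.fst '' E := by
    refine hat_induction hP (fun v => ?_) w
    have hc := cov_spec (n := n) v
    obtain ⟨v', hv'⟩ := cov_surj (n := n) ((stab57 hv hd' (covD n v)).2 hc.1)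
    refine ⟨(of v, of v'), ⟨?_, ?_⟩, rfl⟩
    · show of g * jH (covMap n (of v)) * (of g)⁻¹ = jH (covMap n (of v'))
      rw [cov_of, cov_of, jH_of, jH_of, ← map_inv, ← map_mul, ← map_mul, hv']
      exact congrArg of (hα (covD n v))
    · show of g' * jH (isoMap n (of v)) * (of g')⁻¹ = jH (isoMap n (of v'))
      rw [iso_of, iso_of, jH_of, jH_of, ← map_inv, ← map_mul, ← map_mul, ← hc.2,
        ← (cov_spec (n := n) v').2, hv', h1 _ hc.1]
      exact congrArg of (h2 _)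
  obtain ⟨⟨x, y⟩, ⟨e1, e2⟩, rfl⟩ := hw
  exact ⟨y, e1, e2⟩

/-- Row CNB. -/
theorem stCNB_57 : StCNB := by
  intro n g hg hd
  obtain ⟨v, rfl⟩ := B3_range hg
  refine partner (CJ_Ax v) (Ax_c v) (vec_Ax v) ?_
  have h1 := hd _ (CJ_Ax v (FreeGroup.of 1))
  have h2 : vec (Ax v (FreeGroup.of 1)) 1 = (mQ v) 1 0 := col_a v 1
  rw [h2] at h1
  exact h1

/-! ### SIM3 -/

theorem iotD3_mem (k : F2) : iotD3 k ∈ B3 := by
  have h0 : σ 0 ∈ B3 := Subgroup.subset_closure (Or.inl rfl)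
  have h1 : σ 1 ∈ B3 := Subgroup.subset_closure (Or.inr rfl)
  refine word_ind (p := fun k => iotD3 k ∈ B3) ?_ ?_ ?_ ?_ ?_ k
  · rw [map_one]
    exact B3.one_mem
  · have e : iotD3 (FreeGroup.of 0) = σ 1 * σ 0 := by simp [iotD3]
    rw [e]
    exact B3.mul_mem h1 h0
  · have e : iotD3 (FreeGroup.of 1) = (σ 0 * σ 1 * σ 0)⁻¹ := by simp [iotD3]
    rw [e]
    exact B3.inv_mem (B3.mul_mem (B3.mul_mem h0 h1) h0)
  · intro x hx
    rw [map_inv]
    exact B3.inv_mem hx
  · intro x y hx hy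
    rw [map_mul]
    exact B3.mul_mem hx hy

theorem comm_zD_B3 {g : Braid4} (hg : g ∈ B3) : Commute zD g := by
  have h : B3 ≤ Subgroup.centralizer {zD} := by
    unfold B3
    rw [Subgroup.closure_le]
    rintro x (rfl | rfl)
    · exact Subgroup.mem_centralizer_iff.2 fun y hy => by
        rw [Set.mem_singleton_iff.1 hy]
        exact (comm_cube_aux isBraid_σ.1).eq
    · exact Subgroup.mem_centralizer_iff.2 fun y hy => by
        rw [Set.mem_singleton_iff.1 hy]
        exact (comm_cube_aux' isBraid_σ.1).eq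
  exact Subgroup.mem_centralizer_iff.1 (h hg) zD rfl

theorem dg_cancel {n : ℕ} {A C : Matrix (Fin 2) (Fin 2) ℤ} (h : A * dg n = C * dg n) :
    A = C := by
  have hn : ((n : ℤ) + 1) ≠ 0 := by positivity
  have m00 := congrFun (congrFun h 0) 0
  have m01 := congrFun (congrFun h 0) 1
  have m10 := congrFun (congrFun h 1) 0
  have m11 := congrFun (congrFun h 1) 1
  simp [dg, Matrix.mul_apply, Fin.sum_univ_two] at m00 m01 m10 m11
  ext i j
  fin_cases i <;> fin_cases j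
  · exact m00.resolve_right hn
  · exact m01
  · exact m10.resolve_right hn
  · exact m11

/-- Row SIM3. -/
theorem stSim3_57 : StSim3 := by
  intro n h k hS
  obtain ⟨s, hs, hM⟩ : ∃ s : ℤ, (s = 1 ∨ s = -1) ∧
      dg n * (matP3 h).1 = s • ((matP3 k).1 * dg n) := by
    rcases hS with e | e
    · exact ⟨1, Or.inl rfl, by rw [e, one_smul]⟩
    · exact ⟨-1, Or.inr rfl, by rw [e, neg_smul, one_smul]⟩
  have hvh : ∀ w, vec (Ac3 h w) = (matP3 h).1.mulVec (vec w) := mem_Vm3 h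
  have hdiv : ((n : ℤ) + 1) ∣ (matP3 h).1 1 0 := by
    have h10 := congrFun (congrFun hM 1) 0
    simp [dg, Matrix.mul_apply, Fin.sum_univ_two] at h10
    rw [h10]
    exact ⟨s * (matP3 k).1 1 0, by ring⟩
  have hα : ∀ w, CJ (iotD3 h) w (Ac3 h w) := mem_Ac3 h
  obtain ⟨β, hβ, hR⟩ := stCNB_57 n (iotD3 h) (iotD3_mem h) (fun w' hw' => by
    rw [cj_unique (hα (FreeGroup.of 1)) hw', hvh]
    have e1 : vec (FreeGroup.of 1) = ![1, 0] := vec_a
    rw [e1]
    simpa [Matrix.mulVec, dotProduct, Fin.sum_univ_two] using hdiv)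
  obtain ⟨v, rfl⟩ := B3_range hβ
  have hm := rm_gen (n := n) (g := iotD3 h) (g' := wB v) (α := Ac3 h) (α' := Ax v) hα (CJ_Ax v)
    hvh (vec_Ax v) hR
  have h2 : (mQ v).1 * dg n = (s • (matP3 k).1) * dg n := by
    rw [← hm, hM, Matrix.smul_mul]
  have hQ : (mQ v).1 = s • (matP3 k).1 := dg_cancel h2
  have hg : wB v * (iotD3 k)⁻¹ ∈ B3 := B3.mul_mem hβ (B3.inv_mem (iotD3_mem k))
  have key : ∀ w w', CJ (wB v * (iotD3 k)⁻¹) w w' → vec w' = s • vec w := by
    intro w w' hw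
    have h3 : CJ (wB v * (iotD3 k)⁻¹) w ((Ax v * (Ac3 k)⁻¹) w) :=
      (Pr.mul_mem (x := (wB v, Ax v)) (CJ_Ax v) (Pr.inv_mem (mem_Ac3 k))) w
    rw [cj_unique h3 hw]
    show vec (Ax v ((Ac3 k)⁻¹ w)) = s • vec w
    rw [vec_Ax, hQ]
    have h7 : vec (Ac3 k ((Ac3 k)⁻¹ w)) = (matP3 k).1.mulVec (vec ((Ac3 k)⁻¹ w)) :=
      mem_Vm3 k ((Ac3 k)⁻¹ w)
    rw [MulAut.apply_inv_self] at h7
    rw [Matrix.smul_mulVec, ← h7]
  obtain ⟨j, hj⟩ := stM3_31 _ hg (by
    rcases hs with rfl | rfl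
    · exact Or.inl fun w w' hw => by rw [key w w' hw, one_smul]
    · exact Or.inr fun w w' hw => by rw [key w w' hw, neg_smul, one_smul])
  refine ⟨j, ?_⟩
  have e : wB v = iotD3 k * zD ^ j := by
    rw [← ((comm_zD_B3 (iotD3_mem k)).zpow_left j).eq, ← hj, inv_mul_cancel_right]
  rw [← e]
  exact hR

end MPb66790.CNB57
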