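import Pool.Agent.Lib.MP_b66790_nt.ModL
import Pool.Agent.Lib.MP_b66790_nt.CY.Lift24

/-!
# Centralizers in the free profinite group on two generators
-/

namespace MPb66790.Cent24

open MPb66790 MPb66790.CY24 Function Equiv

section fin

variable {Q : Type} [Group Q] [Finite Q]

/-- The action of `x` on the cover `Q × ZMod L`: the second coordinate changes at the point `1`. -/
noncomputable def cx (L : ℕ) (α : Q) : Perm (Q × ZMod L) := by
  classical
  exact
  { toFun := fun z => (α * z.1, if z.1 = 1 then z.2 + 1 else z.2)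
    invFun := fun z => (α⁻¹ * z.1, if α⁻¹ * z.1 = 1 then z.2 - 1 else z.2)
    left_inv := by
      rintro ⟨q, i⟩
      show (α⁻¹ * (α * q), if α⁻¹ * (α * q) = 1 then (if q = 1 then i + 1 else i) - 1 else
        (if q = 1 then i + 1 else i)) = (q, i)
      rw [inv_mul_cancel_left]
      by_cases h : q = 1
      · rw [if_pos h, if_pos h, add_sub_cancel_right]
      · rw [if_neg h, if_neg h]
    right_inv := by
      rintro ⟨q, i⟩
      show (α * (α⁻¹ * q), if α⁻¹ * q = 1 then (if α⁻¹ * q = 1 then i - 1 else i) + 1 else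
        (if α⁻¹ * q = 1 then i - 1 else i)) = (q, i)
      rw [mul_inv_cancel_left]
      by_cases h : α⁻¹ * q = 1
      · rw [if_pos h, if_pos h, sub_add_cancel]
      · rw [if_neg h, if_neg h] }

/-- The action of `y`. -/
def cy (L : ℕ) (β : Q) : Perm (Q × ZMod L) where
  toFun := fun z => (β * z.1, z.2)
  invFun := fun z => (β⁻¹ * z.1, z.2)
  left_inv := by
    rintro ⟨q, i⟩
    show (β⁻¹ * (β * q), i) = (q, i)
    rw [inv_mul_cancel_left]
  right_inv := by
    rintro ⟨q, i⟩
    show (β * (β⁻¹ * q), i) = (q, i)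
    rw [mul_inv_cancel_left]

theorem cx_one (L : ℕ) (α : Q) (i : ZMod L) : cx L α (1, i) = (α, i + 1) := by
  classical
  show (α * 1, if (1 : Q) = 1 then i + 1 else i) = (α, i + 1)
  rw [if_pos rfl, mul_one]

theorem cx_ne (L : ℕ) (α : Q) {q : Q} (h : q ≠ 1) (i : ZMod L) : cx L α (q, i) = (α * q, i) := by
  classical
  show (α * q, if q = 1 then i + 1 else i) = (α * q, i)
  rw [if_neg h]

theorem cx_pow_one (L : ℕ) (α : Q) (i : ZMod L) (m : ℕ) (h1 : 1 ≤ m) (h2 : m ≤ orderOf α) :
    (cx L α ^ m) (1, i) = (α ^ m, i + 1) := by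
  induction m, h1 using Nat.le_induction with
  | base => rw [pow_one, cx_one, pow_one]
  | succ m h1 ih =>
    have hne : α ^ m ≠ 1 := fun e => by
      have := orderOf_le_of_pow_eq_one (by omega : 0 < m) e
      omega
    rw [pow_succ', Perm.mul_apply, ih (by omega), cx_ne L α hne, ← pow_succ']

theorem cx_order (L : ℕ) (α : Q) (i : ZMod L) : (cx L α ^ orderOf α) (1, i) = (1, i + 1) := by
  have h := cx_pow_one L α i (orderOf α) (orderOf_pos α) le_rfl
  rw [h, pow_orderOf_eq_one]

theorem cx_order_pow (L : ℕ) (α : Q) (i : ZMod L) (k : ℕ) :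
    ((cx L α ^ orderOf α) ^ k) (1, i) = (1, i + k) := by
  induction k with
  | zero => simp
  | succ k ih =>
    rw [pow_succ', Perm.mul_apply, ih, cx_order]
    push_cast
    rw [add_assoc]

theorem cx_pow_ne (L : ℕ) (α : Q) {q : Q} (h : ∀ m : ℕ, α ^ m * q ≠ 1) (i : ZMod L) (m : ℕ) :
    (cx L α ^ m) (q, i) = (α ^ m * q, i) := by
  induction m with
  | zero => simp
  | succ m ih =>
    rw [pow_succ', Perm.mul_apply, ih, cx_ne L α (h m), ← mul_assoc, ← pow_succ']

theorem fst_word (L : ℕ) (α β : Q) (g : FreeGroup (Fin 2)) :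
    ∀ z : Q × ZMod L, (FreeGroup.lift ![cx L α, cy L β] g z).1 = FreeGroup.lift ![α, β] g * z.1 := by
  induction g using FreeGroup.induction_on with
  | C1 =>
    intro z
    simp
  | of i =>
    intro z
    fin_cases i
    · show (FreeGroup.lift ![cx L α, cy L β] (FreeGroup.of 0) z).1 =
        FreeGroup.lift ![α, β] (FreeGroup.of 0) * z.1
      rw [FreeGroup.lift_apply_of, FreeGroup.lift_apply_of]
      rfl
    · show (FreeGroup.lift ![cx L α, cy L β] (FreeGroup.of 1) z).1 =
        FreeGroup.lift ![α, β] (FreeGroup.of 1) * z.1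
      rw [FreeGroup.lift_apply_of, FreeGroup.lift_apply_of]
      rfl
  | inv_of i ih =>
    intro z
    have h := ih ((FreeGroup.lift ![cx L α, cy L β] (FreeGroup.of i))⁻¹ z)
    have e : (FreeGroup.lift ![cx L α, cy L β] (FreeGroup.of i))
        ((FreeGroup.lift ![cx L α, cy L β] (FreeGroup.of i))⁻¹ z) = z :=
      Equiv.apply_symm_apply _ _
    rw [e] at h
    rw [map_inv, map_inv, h, inv_mul_cancel_left]
  | mul a b ha hb =>
    intro z
    rw [map_mul, map_mul, Perm.mul_apply, ha, hb, mul_assoc]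

theorem fst_hat (L : ℕ) [NeZero L] (α β : Q) (w : FHat 2) (z : Q × ZMod L) :
    (evF ![cx L α, cy L β] w z).1 = evF ![α, β] w * z.1 := by
  obtain ⟨g, h1, h2⟩ := exists_rep₂ (FreeGroup.lift ![cx L α, cy L β])
    (FreeGroup.lift ![α, β]) w
  show (lftF (FreeGroup.lift ![cx L α, cy L β]) w z).1 = lftF (FreeGroup.lift ![α, β]) w * z.1
  rw [h1, h2, fst_word]

/-- In every finite quotient, an element that commutes with a power of `x` acts as a power
of `x`. -/
theorem fin_cent {w : FHat 2} {k : ℕ} (hk : 0 < k) (hw : Commute w (X ^ k)) (α β : Q) :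
    ∃ m : ℕ, evF ![α, β] w = α ^ m := by
  by_contra hne
  push Not at hne
  let L := k + 1
  let T : FHat 2 →* Perm (Q × ZMod L) := evF ![cx L α, cy L β]
  have hX : T X = cx L α := evF_gen _ _
  have hc : Commute (T w) ((cx L α ^ orderOf α) ^ k) := by
    have h1 : Commute (T w) (cx L α ^ k) := by
      have h2 : Commute (T w) (T (X ^ k)) := hw.map T
      rwa [map_pow, hX] at h2
    have h3 := h1.pow_right (orderOf α)
    rwa [← pow_mul, mul_comm k, pow_mul] at h3
  have h1 : ∀ i : ZMod L, (T w (1, i)).1 = evF ![α, β] w := by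
    intro i
    have := fst_hat L α β w (1, i)
    rwa [mul_one] at this
  have h2 : ∀ m : ℕ, α ^ m * evF ![α, β] w ≠ 1 := by
    intro m hm
    have e1 : evF ![α, β] w = (α ^ m)⁻¹ := eq_inv_of_mul_eq_one_right hm
    have h3 : α ^ (orderOf α * m - m) * α ^ m = 1 := by
      have h4 : m ≤ orderOf α * m := Nat.le_mul_of_pos_left m (orderOf_pos α)
      rw [← pow_add, Nat.sub_add_cancel h4, pow_mul, pow_orderOf_eq_one, one_pow]
    exact hne (orderOf α * m - m) (by rw [e1]; exact (eq_inv_of_mul_eq_one_left h3).symm)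
  have h3 : ((cx L α ^ orderOf α) ^ k) (T w (1, 0)) = T w (1, 0) := by
    have e : T w (1, 0) = (evF ![α, β] w, (T w (1, 0)).2) := Prod.ext (h1 0) rfl
    rw [e, ← pow_mul, cx_pow_ne L α h2, pow_mul, pow_orderOf_eq_one, one_pow, one_mul]
  have h4 : T w (1, (k : ZMod L)) = T w (1, 0) := by
    have e := congrArg (fun p : Perm (Q × ZMod L) => p (1, 0)) hc.eq
    have e' : T w (((cx L α ^ orderOf α) ^ k) (1, 0)) =
        ((cx L α ^ orderOf α) ^ k) (T w (1, 0)) := e
    rwa [cx_order_pow, zero_add, h3] at e'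
  have h5 := (T w).injective h4
  have h6 : (k : ZMod L) = 0 := congrArg Prod.snd h5
  rw [ZMod.natCast_eq_zero_iff] at h6
  have := Nat.le_of_dvd hk h6
  omega

end fin

/-- The centralizer of a power of `x`. -/
theorem cent_X {w : FHat 2} {k : ℕ} (hk : 0 < k) (hw : Commute w (X ^ k)) :
    ∃ e : ZHat, w = pow X e := by
  by_contra hne
  let C : Set (FHat 2) := Set.range (ev (fun _ : Fin 1 => X) : ZHat →ₜ* FHat 2)
  have hC : IsClosed C := (isCompact_range
    (ev (fun _ : Fin 1 => X) : ZHat →ₜ* FHat 2).continuous_toFun).isClosed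
  have hwC : w ∉ C := by
    rintro ⟨e, he⟩
    exact hne ⟨e, he.symm⟩
  obtain ⟨Q, i1, i2, φ, -, h2⟩ := sep hC hwC
  have e1 : ∀ z : FHat 2, lftF φ z = evF ![φ (FreeGroup.of 0), φ (FreeGroup.of 1)] z := by
    intro z
    rw [lftF_eq_evF]
    congr 2
    funext i
    fin_cases i <;> rfl
  obtain ⟨m, hm⟩ := fin_cent hk hw (φ (FreeGroup.of 0)) (φ (FreeGroup.of 1))
  refine h2 (X ^ m) ⟨zgen ^ m, ?_⟩ ?_
  · show pow X (zgen ^ m) = X ^ m
    exact pow_zgen_pow X m
  · rw [e1 w, hm, map_pow]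
    congr 1
    rw [e1]
    exact evF_gen _ _

/-- The centralizer of a power of `y`. -/
theorem cent_Y {w : FHat 2} {k : ℕ} (hk : 0 < k) (hw : Commute w (Y ^ k)) :
    ∃ e : ZHat, w = pow Y e := by
  have h1 : Commute (swpMap w) (X ^ k) := by
    have := hw.map swpMap.toMonoidHom
    have e : swpMap.toMonoidHom (Y ^ k) = X ^ k := by
      show swpMap (Y ^ k) = X ^ k
      rw [map_pow, swpMap_Y]
    rw [e] at this
    exact this
  obtain ⟨e, he⟩ := cent_X hk h1
  refine ⟨e, ?_⟩
  have h2 : swpMap (swpMap w) = w := by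
    have h3 : swpMap (swpMap w) = ev (fun i : Fin 2 => gen i) w := by
      unfold swpMap
      rw [map_ev2]
      have e1 : ev ![Y, X] Y = X := ev_gen _ _
      have e2 : ev ![Y, X] X = Y := ev_gen _ _
      rw [e1, e2]
      congr 2
      funext i
      fin_cases i <;> rfl
    rw [h3, ev_gen_self]
  rw [← h2, he, map_pow', swpMap_X]

/-- The centralizer of `x ^ k, y ^ l` is trivial. -/
theorem cent_XY {w : FHat 2} {k l : ℕ} (hk : 0 < k) (hl : 0 < l) (h1 : Commute w (X ^ k))
    (h2 : Commute w (Y ^ l)) : w = 1 := by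
  obtain ⟨e, he⟩ := cent_X hk h1
  obtain ⟨e', he'⟩ := cent_Y hl h2
  have h3 : (ev ![1, Y] : FHat 2 →ₜ* FHat 2) w = 1 := by
    have e1 : (ev ![1, Y] : FHat 2 →ₜ* FHat 2) X = 1 := ev_gen _ _
    rw [he, map_pow', e1]
    exact one_pow' e
  have h4 : (ev ![1, Y] : FHat 2 →ₜ* FHat 2) w = w := by
    have e1 : (ev ![1, Y] : FHat 2 →ₜ* FHat 2) Y = Y := ev_gen _ _
    rw [he', map_pow', e1]
  rw [← h4, h3]

end MPb66790.Cent24
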