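import Pool.Agent.Lib.MP_b66790_nt.ModL
import Pool.Agent.Lib.MP_b66790_nt.CY.Cov24

/-!
# Commensurabilities of dessins on the same curve: definitions and statements of the modules

`b = X`, `a = Y` are the two generators of the kernel of `rho`, the fundamental group of a once
punctured torus; `c = a b a⁻¹ b⁻¹` is the loop around the puncture.
-/

namespace MPb66790.HK24

open MPb66790 MPb66790.CY24 Function

/-- The free group of words in the loops `x, y`. -/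
abbrev F2 : Type := FreeGroup (Fin 2)

/-- Powers of 2 x 2 integer matrices: the standard positive representation of the fundamental group
of the sphere minus `0, 1, ∞` (up to sign: the principal congruence subgroup of level two). -/
def mat : F2 →* Matrix.SpecialLinearGroup (Fin 2) ℤ :=
  FreeGroup.lift ![⟨!![1, 2; 0, 1], by simp [Matrix.det_fin_two]⟩,
    ⟨!![1, 0; -2, 1], by simp [Matrix.det_fin_two]⟩]

/-- `g` conjugates `h` to `k` up to sign. -/
def Sim (g : Matrix (Fin 2) (Fin 2) ℤ) (h k : F2) : Prop :=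
  g * (mat h).1 = (mat k).1 * g ∨ g * (mat h).1 = -((mat k).1 * g)

/-- The closure of a subgroup of the free group in the free profinite group. -/
noncomputable def cl (H : Subgroup F2) : Subgroup (FHat 2) := (H.map of).topologicalClosure

/-- The dessins `H` and `K` are related by `g`. -/
def Isog (g : Matrix (Fin 2) (Fin 2) ℤ) (H K : Subgroup (FHat 2)) : Prop :=
  ∃ H₀ K₀ : Subgroup F2, H₀.FiniteIndex ∧ K₀.FiniteIndex ∧
    (∀ h ∈ H₀, ∃ k ∈ K₀, Sim g h k) ∧ (∀ k ∈ K₀, ∃ h ∈ H₀, Sim g h k) ∧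
    SameDessin (cl H₀) H ∧ SameDessin (cl K₀) K

/-! ## The once punctured torus -/

/-- `b = X ↦ p⁻¹ r`, `a = Y ↦ p`. -/
noncomputable def jH : FHat 2 →ₜ* Hat Braid4 := ev ![pB⁻¹ * rB, pB]

/-- `x ↦ σ₁²`, `y ↦ σ₂²`. -/
noncomputable def iota : FHat 2 →ₜ* Hat Braid4 := ev ![s 0 ^ 2, s 1 ^ 2]

/-- `c = a b a⁻¹ b⁻¹`. -/
noncomputable def cc : FHat 2 := Y * X * Y⁻¹ * X⁻¹

/-- The isogeny of degree `n + 1`: `b ^ (n + 1) ↦ b`, `a ↦ a`, `b ^ i a b ^ (-i) ↦ b a b⁻¹`. -/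
noncomputable def isoMap (n : ℕ) : FHat (n + 2) →ₜ* FHat 2 :=
  ev (mk X (fun j : ZMod (n + 1) => if j = 0 then Y else X * Y * X⁻¹))

/-- The conjugations by `g` and by `g'` correspond under the isogeny of degree `n + 1`. -/
def Rel (n : ℕ) (g g' : Hat Braid4) : Prop := ∀ w : FHat (n + 2), ∃ w' : FHat (n + 2),
  g * jH (covMap n w) * g⁻¹ = jH (covMap n w') ∧
  g' * jH (isoMap n w) * g'⁻¹ = jH (isoMap n w')

/-! ## Discrete versions -/

/-- `a = σ₁ σ₃⁻¹`. -/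
def aD : Braid4 := σ 0 * (σ 2)⁻¹

/-- `b = X ↦ a⁻¹ σ₂ a σ₂⁻¹`, `a = Y ↦ a`. -/
def jD : F2 →* Braid4 := FreeGroup.lift ![aD⁻¹ * (σ 1 * aD * (σ 1)⁻¹), aD]

/-- `x ↦ σ₁²`, `y ↦ σ₂²`. -/
def iotaD : F2 →* Braid4 := FreeGroup.lift ![σ 0 ^ 2, σ 1 ^ 2]

/-- `ζ = (σ₁ σ₂)³`. -/
def zD : Braid4 := (σ 0 * σ 1) ^ 3

/-- The braid group on three strands. -/
def B3 : Subgroup Braid4 := Subgroup.closure {σ 0, σ 1}

/-- `c = a b a⁻¹ b⁻¹`. -/
def cD : F2 := FreeGroup.of 1 * FreeGroup.of 0 * (FreeGroup.of 1)⁻¹ * (FreeGroup.of 0)⁻¹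

/-- The matrices of `σ₁²`, `σ₂²` on the homology of the torus in the basis `a, b`. -/
def matP : F2 →* Matrix.SpecialLinearGroup (Fin 2) ℤ :=
  FreeGroup.lift ![⟨!![1, -2; 0, 1], by simp [Matrix.det_fin_two]⟩,
    ⟨!![1, 0; 2, 1], by simp [Matrix.det_fin_two]⟩]

/-- The exponents of `a = Y` and of `b = X`, as a vector `(a, b)`. -/
def vecH : F2 →* Multiplicative (Fin 2 → ℤ) :=
  FreeGroup.lift ![Multiplicative.ofAdd ![0, 1], Multiplicative.ofAdd ![1, 0]]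

/-- The homology class of a word in `b = X`, `a = Y`. -/
def vec (w : F2) : Fin 2 → ℤ := Multiplicative.toAdd (vecH w)

/-- The conjugation by `g` maps the word `w` in `b = X`, `a = Y` to the word `w'`. -/
def CJ (g : Braid4) (w w' : F2) : Prop := g * jD w * g⁻¹ = jD w'

/-! ## Statements -/

/-- NIELSEN (57). -/
def StN : Prop := ∀ τ : F2 →* F2, τ cD = cD → ∃ g ∈ B3, ∀ w, CJ g w (τ w)

/-- MATRICES (31), part 0. -/
def StM0 : Prop := ∀ g ∈ B3, ∀ w, ∃ w', CJ g w w'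

/-- MATRICES (31), part 1. -/
def StM1 : Prop := ∀ k w w', CJ (iotaD k) w w' → vec w' = (matP k).1.mulVec (vec w)

/-- MATRICES (31), part 2. -/
def StM2 : Prop := ∀ g ∈ B3, (∀ w w', CJ g w w' → ∀ i, (2 : ℤ) ∣ vec w' i - vec w i) →
  ∃ (k : F2) (j : ℤ), g = iotaD k * zD ^ j

/-- MATRICES (31), part 3. -/
def StM3 : Prop := ∀ g ∈ B3,
  ((∀ w w', CJ g w w' → vec w' = vec w) ∨ (∀ w w', CJ g w w' → vec w' = -vec w)) →
  ∃ j : ℤ, g = zD ^ j

/-- MATRICES (31), part 4 (Sanov). -/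
def StM4 : Prop := ∀ k : F2, (matP k).1 = 1 ∨ (matP k).1 = -1 → k = 1

/-- MATRICES (31), part 5. -/
def StM5 : Prop := ∀ w w', CJ zD w w' → vec w' = -vec w

/-- FAITH (67). -/
def StF : Prop := ∀ (u : FHat 2) (e : ZHat),
  (∀ w : FHat 2, Commute (iota u * pow cB e) (jH w)) → u = 1

/-- DISCRETE IS DENSE (graph lemma). `R` is a subgroup of `F2 × F2` whose projections have finite
index and which is the graph of an injection. -/
def StG : Prop := ∀ R : Subgroup (F2 × F2),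
  (R.map (MonoidHom.fst F2 F2)).FiniteIndex → (R.map (MonoidHom.snd F2 F2)).FiniteIndex →
  (∀ k, ((1 : F2), k) ∈ R → k = 1) → (∀ h, (h, (1 : F2)) ∈ R → h = 1) →
  (∀ (h : F2) (v : FHat 2), ((of h, v) : FHat 2 × FHat 2) ∈
      closure ((fun p : F2 × F2 => ((of p.1, of p.2) : FHat 2 × FHat 2)) '' (R : Set (F2 × F2))) →
    ∃ k, v = of k ∧ (h, k) ∈ R) ∧
  (∀ (u : FHat 2) (k : F2), ((u, of k) : FHat 2 × FHat 2) ∈
      closure ((fun p : F2 × F2 => ((of p.1, of p.2) : FHat 2 × FHat 2)) '' (R : Set (F2 × F2))) →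
    ∃ h, u = of h ∧ (h, k) ∈ R)

/-- The main theorem for the diagonal matrices. -/
def StDiag : Prop := ∀ (lam : ZHat) (f : FHat 2), IsGT lam f → ∀ (n : ℕ) (H K : Subgroup (FHat 2)),
  Isog !![(n : ℤ) + 1, 0; 0, 1] H K →
  ∃ γ : Matrix.SpecialLinearGroup (Fin 2) ℤ,
    Isog (γ.1 * !![(n : ℤ) + 1, 0; 0, 1]) (act lam f H) (act lam f K)

/-- The main theorem. -/
def StAll : Prop := ∀ (lam : ZHat) (f : FHat 2), IsGT lam f →
  ∀ (g : Matrix (Fin 2) (Fin 2) ℤ), 0 < g.det → ∀ (H K : Subgroup (FHat 2)), Isog g H K →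
  ∃ γ : Matrix.SpecialLinearGroup (Fin 2) ℤ, Isog (γ.1 * g) (act lam f H) (act lam f K)

/-- FROM THE DIAGONAL CASE TO ALL (Smith normal form, `S₃`-equivariance `stL`). -/
def StAllOfDiag : Prop := StDiag → StAll

end MPb66790.HK24
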