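import Pool.Agent.Lib.MP_b66790_nt.CY.Fin24
import Pool.Agent.Lib.MP_b66790_nt.Hecke.Stmts24

/-!
# Chains of dessins on one surface

The equivalence relation on dessins generated by conjugation, by the correspondences `Isog g` and
by composition with the cyclic Belyi functions of the sphere is preserved by every element of the
profinite Grothendieck-Teichmueller group.
-/

namespace MPb66790.HK24

open MPb66790 MPb66790.CY24 Function

/-- One step between two dessins `H`, `K` (open subgroups) on the same surface: they are equal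
(conjugate), or they are related by an integer matrix `g` with `det g > 0`, or `K` is the
composition of `H` with `1 - z`, `1 / (1 - z)` or a cyclic Belyi function `γ` of the sphere. -/
def Step (H K : Subgroup (FHat 2)) : Prop :=
  IsOpen (H : Set (FHat 2)) ∧ IsOpen (K : Set (FHat 2)) ∧
  (SameDessin H K ∨ (∃ g : Matrix (Fin 2) (Fin 2) ℤ, 0 < g.det ∧ Isog g H K) ∨
    ∃ γ : Cyc, γ.Good ∧ K = γ.apply H)

/-- The equivalence relation generated by `Step`. -/
def Chain (H K : Subgroup (FHat 2)) : Prop := Relation.EqvGen Step H K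

namespace Chain57

variable {lam : ZHat} {f : FHat 2}

theorem isOpen_act57 (h : IsGT lam f) {H : Subgroup (FHat 2)} (hH : IsOpen (H : Set (FHat 2))) :
    IsOpen (act lam f H : Set (FHat 2)) := by
  let e := Equiv.ofBijective (phi lam f) h.bij
  have hc : Continuous e := (phi lam f).continuous_toFun
  exact (hc.homeoOfEquivCompactToT2 (f := e)).isOpenMap _ hH

theorem sd_act57 {H K : Subgroup (FHat 2)} (hs : SameDessin H K) :
    SameDessin (act lam f H) (act lam f K) := by
  obtain ⟨g, hg⟩ := hs
  refine ⟨phi lam f g, fun x => ?_⟩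
  constructor
  · rintro ⟨y, hy, rfl⟩
    refine ⟨g * y * g⁻¹, (hg y).1 hy, ?_⟩
    show phi lam f (g * y * g⁻¹) = phi lam f g * phi lam f y * (phi lam f g)⁻¹
    rw [map_mul, map_mul, map_inv]
  · rintro ⟨y, hy, e⟩
    have e' : phi lam f y = phi lam f g * x * (phi lam f g)⁻¹ := e
    refine ⟨g⁻¹ * y * g, (hg _).2 ?_, ?_⟩
    · have e2 : g * (g⁻¹ * y * g) * g⁻¹ = y := by group
      rw [e2]
      exact hy
    · show phi lam f (g⁻¹ * y * g) = x
      rw [map_mul, map_mul, map_inv, e']
      group

theorem sd_cj57 (g : FHat 2) (A : Subgroup (FHat 2)) : SameDessin A (cj g A) := by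
  refine ⟨g, fun x => ?_⟩
  constructor
  · intro hx
    exact ⟨x, hx, rfl⟩
  · rintro ⟨y, hy, e⟩
    have e' : g * y * g⁻¹ = g * x * g⁻¹ := e
    have e2 : y = x := by
      have e3 := mul_right_cancel e'
      exact mul_left_cancel e3
    rw [← e2]
    exact hy

theorem isOpen_cj57 (g : FHat 2) {A : Subgroup (FHat 2)} (hA : IsOpen (A : Set (FHat 2))) :
    IsOpen (cj g A : Set (FHat 2)) := by
  have e : (cj g A : Set (FHat 2)) = (fun x => g⁻¹ * x * g) ⁻¹' (A : Set (FHat 2)) := by
    ext x
    constructor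
    · rintro ⟨y, hy, rfl⟩
      show g⁻¹ * (g * y * g⁻¹) * g ∈ A
      have e2 : g⁻¹ * (g * y * g⁻¹) * g = y := by group
      rw [e2]
      exact hy
    · intro hx
      refine ⟨_, hx, ?_⟩
      show g * (g⁻¹ * x * g) * g⁻¹ = x
      group
  rw [e]
  exact hA.preimage ((continuous_const.mul continuous_id).mul continuous_const)

theorem step_act (hA : ∀ g : Matrix (Fin 2) (Fin 2) ℤ, 0 < g.det →
      ∀ H K : Subgroup (FHat 2), Isog g H K → Isog g (act lam f H) (act lam f K))
    (h : IsGT lam f) {H K : Subgroup (FHat 2)} (hs : Step H K) :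
    Chain (act lam f H) (act lam f K) := by
  obtain ⟨oH, oK, hs⟩ := hs
  have pH := isOpen_act57 h oH
  have pK := isOpen_act57 h oK
  rcases hs with hs | ⟨g, hg, hs⟩ | ⟨γ, hγ, rfl⟩
  · exact Relation.EqvGen.rel _ _ ⟨pH, pK, Or.inl (sd_act57 hs)⟩
  · exact Relation.EqvGen.rel _ _ ⟨pH, pK, Or.inr (Or.inl ⟨g, hg, hA g hg H K hs⟩)⟩
  · obtain ⟨g, h1⟩ := CY24.apply_act h γ hγ H
    have h2 := good_twist h hγ
    have o2 : IsOpen ((γ.twist lam).apply (act lam f H) : Set (FHat 2)) := isOpen_apply _ pH
    refine Relation.EqvGen.trans _ ((γ.twist lam).apply (act lam f H)) _ ?_ ?_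
    · exact Relation.EqvGen.rel _ _ ⟨pH, o2, Or.inr (Or.inr ⟨_, h2, rfl⟩)⟩
    · refine Relation.EqvGen.rel _ _ ⟨o2, pK, Or.inl ?_⟩
      rw [h1]
      exact sd_cj57 _ _

/-- Every element of the profinite Grothendieck-Teichmueller group preserves chains. -/
theorem chain_act (hA : ∀ g : Matrix (Fin 2) (Fin 2) ℤ, 0 < g.det →
      ∀ H K : Subgroup (FHat 2), Isog g H K → Isog g (act lam f H) (act lam f K))
    (h : IsGT lam f) {H K : Subgroup (FHat 2)} (hc : Chain H K) :
    Chain (act lam f H) (act lam f K) := by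
  unfold Chain at hc
  induction hc with
  | rel x y hxy => exact step_act hA h hxy
  | refl x => exact Relation.EqvGen.refl _
  | symm x y _ ih => exact Relation.EqvGen.symm _ _ ih
  | trans x y z _ _ ih1 ih2 => exact Relation.EqvGen.trans _ _ _ ih1 ih2

end Chain57

end MPb66790.HK24
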