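import Pool.Agent.Lib.MP_b66790_nt.Hecke.Fin3_24

/-!
# Composition with Chebyshev polynomials: definitions and statements of the modules

`T` is the Chebyshev polynomial of degree `n + 1`, `T (cos t) = cos ((n + 1) t)`; `x`, `y` are the
loops around `1`, `-1`. The preimages of `1, -1` are the points `cos (π j / (n + 1))`,
`0 ≤ j ≤ n + 1`.
-/

namespace MPb66790.HK24

open MPb66790 MPb66790.CY24 Function

/-- The image under `T` of a loop around the point `cos (π j / m)`, `m` the degree of `T`. -/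
noncomputable def chebLoop (m j : ℕ) : FHat 2 :=
  (Y * X) ^ (j / 2) * (if j % 2 = 0 then X else Y) ^ (if j = 0 ∨ j = m then 1 else 2) *
    ((Y * X) ^ (j / 2))⁻¹

/-- The map induced on fundamental groups by the Chebyshev polynomial of degree `n + 1`, from the
sphere minus `∞` and the points `cos (π j / (n + 1))` to the sphere minus `1, -1, ∞`. -/
noncomputable def chebCov (n : ℕ) : FHat (n + 2) →ₜ* FHat 2 :=
  ev (fun j : Fin (n + 2) => chebLoop (n + 1) j)

/-- The map induced by the inclusion into the sphere minus `1, -1, ∞`. -/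
noncomputable def chebFill (n : ℕ) : FHat (n + 2) →ₜ* FHat 2 :=
  ev (fun j : Fin (n + 2) => if (j : ℕ) = 0 then X else if (j : ℕ) = n + 1 then Y else 1)

/-- The subgroup of the dessin `T ∘ β` if `H` is the subgroup of the dessin `β`. -/
noncomputable def cheb (n : ℕ) (H : Subgroup (FHat 2)) : Subgroup (FHat 2) :=
  (H.comap (chebFill n).toMonoidHom).map (chebCov n).toMonoidHom

/-! ## Correspondences -/

/-- The Landen correspondence: `x² ↦ y`, `y² ↦ x⁻¹ y x`, `y x ↦ x⁻²`. -/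
noncomputable def LT : Subgroup (FHat 2 × FHat 2) :=
  ((ev ![X ^ 2, Y ^ 2, Y * X] : FHat 3 →ₜ* FHat 2).toMonoidHom.prod
    (ev ![Y, X⁻¹ * Y * X, (X ^ 2)⁻¹] : FHat 3 →ₜ* FHat 2).toMonoidHom).range

/-- Another form of the Landen correspondence: `x ↦ x²`, `y² ↦ y`, `y x y⁻¹ ↦ (y x)⁻²`. -/
noncomputable def LT1 : Subgroup (FHat 2 × FHat 2) :=
  ((ev ![X, Y ^ 2, Y * X * Y⁻¹] : FHat 3 →ₜ* FHat 2).toMonoidHom.prod
    (ev ![X ^ 2, Y, ((Y * X) ^ 2)⁻¹] : FHat 3 →ₜ* FHat 2).toMonoidHom).range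

/-- The correspondence of `T`. -/
noncomputable def RC (n : ℕ) : Subgroup (FHat 2 × FHat 2) :=
  ((chebCov n).toMonoidHom.prod (chebFill n).toMonoidHom).range

/-- The correspondence of `z ^ (n + 1)`. -/
noncomputable def CC (n : ℕ) : Subgroup (FHat 2 × FHat 2) :=
  ((covMap n).toMonoidHom.prod (ev (fillTwo n 0) : FHat (n + 2) →ₜ* FHat 2).toMonoidHom).range

/-- The sum of the exponents of `x` and `y`, modulo two. -/
noncomputable def par : FHat 2 →* Multiplicative (ZMod 2) :=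
  evF (fun _ => Multiplicative.ofAdd (1 : ZMod 2))

/-! ## Rows -/

/-- LAN1 (31): `F` commutes with the Landen correspondence. From `stepX` for `n = 1`, the closure
lemma `stCl_32 …`, `stSim_67 stM3_31`, `stM4_31`; the exponent `m` of `stepX` is even (`θ`: the
permutation representation `y ↦ (0 1)`, `x ↦ (0 2)(1 3)` on four points applied to the pair of
`(y², y)`), and `(x, x²)` is in `LT1`. -/
def StLan1 : Prop := ∀ (lam : ZHat) (f : FHat 2), IsGT lam f → ∃ a : FHat 2, ∀ u v,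
  (u, v) ∈ LT1 → (a * phi lam f u * a⁻¹, phi lam f v) ∈ LT1

/-- LAN (67, from LAN1): `(u, v) ∈ LT ↔ (y (rot u) y⁻¹, v) ∈ LT1` with `rot : x ↦ y`,
`y ↦ z = (x y)⁻¹`, and `phi` commutes with `rot` up to an inner automorphism. -/
def StLan : Prop := ∀ (lam : ZHat) (f : FHat 2), IsGT lam f → ∃ d : FHat 2, ∀ u v,
  (u, v) ∈ LT → (d * phi lam f u * d⁻¹, phi lam f v) ∈ LT

/-- CYC (24 / 51): `F` commutes with `z ^ (n + 1)`; the conjugating element has an even exponent of
`x`. -/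
def StCyc : Prop := ∀ (lam : ZHat) (f : FHat 2), IsGT lam f → ∀ n : ℕ, ∃ c : FHat 2, chi 1 c = 1 ∧
  ∀ u v, (u, v) ∈ CC n → (phi lam f u, c * phi lam f v * c⁻¹) ∈ CC n

/-- MATCH1 (57): from `T` to `z ^ (n + 1)`. -/
def StMatch1 : Prop := ∀ (n : ℕ) (u v : FHat 2), (u, v) ∈ RC n → par u = 1 →
  ∃ u' v', (u, u') ∈ LT ∧ (v, v') ∈ LT ∧ (u', v') ∈ CC n

/-- MATCH2 (32): from `z ^ (n + 1)` to `T`. -/
def StMatch2 : Prop := ∀ (n : ℕ) (u' v' : FHat 2), (u', v') ∈ CC n → chi 1 v' = 1 →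
  ∃ u v, (u, u') ∈ LT ∧ (v, v') ∈ LT ∧ (u, v) ∈ RC n

/-- INJ (51): `LT` is the graph of a bijection between the elements of even length and the elements
with an even exponent of `x`. -/
def StInj : Prop := (∀ u v v', (u, v) ∈ LT → (u, v') ∈ LT → v = v') ∧
  (∀ u u' v, (u, v) ∈ LT → (u', v) ∈ LT → u = u') ∧
  (∀ u, par u = 1 → ∃ v, (u, v) ∈ LT) ∧ (∀ v, chi 1 v = 1 → ∃ u, (u, v) ∈ LT) ∧
  (∀ u v, (u, v) ∈ LT → par u = 1 ∧ chi 1 v = 1)

/-- The theorem: `F (T ∘ β) = T ∘ F β`. -/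
def StCheb : Prop := ∀ (lam : ZHat) (f : FHat 2), IsGT lam f → ∀ (n : ℕ) (H : Subgroup (FHat 2)),
  SameDessin (act lam f (cheb n H)) (cheb n (act lam f H))

end MPb66790.HK24
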