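import Pool.Agent.Lib.MP_b66790_nt.Hecke.Rel24
import Pool.Agent.Lib.MP_b66790_nt.ModP

/-!
# Closures, matrices and the relation of partners
-/

namespace MPb66790.HK24

open MPb66790 MPb66790.CY24 Function

/-! ## Subgroups of finite index and open subgroups -/

theorem cl_open {U : Subgroup (FHat 2)} (hU : IsOpen (U : Set (FHat 2))) :
    cl (U.comap (of : F2 →* FHat 2)) = U := by
  have hc : IsClosed (U : Set (FHat 2)) := Subgroup.isClosed_of_isOpen U hU
  apply le_antisymm
  · refine Subgroup.topologicalClosure_minimal _ ?_ hc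
    rintro _ ⟨x, hx, rfl⟩
    exact hx
  · intro x hx
    have h1 := (of_dense (Γ := F2)).open_subset_closure_inter hU hx
    refine closure_mono ?_ h1
    rintro _ ⟨hy, ⟨g, rfl⟩⟩
    exact ⟨g, hy, rfl⟩

theorem exists_open (H : Subgroup F2) [H.FiniteIndex] : ∃ U : Subgroup (FHat 2),
    IsOpen (U : Set (FHat 2)) ∧ U.comap (of : F2 →* FHat 2) = H := by
  let φ : F2 →* Equiv.Perm (F2 ⧸ H) := MulAction.toPermHom F2 (F2 ⧸ H)
  let U : Subgroup (FHat 2) := (MulAction.stabilizer (Equiv.Perm (F2 ⧸ H)) ((1 : F2) : F2 ⧸ H)).comap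
    (lftF φ)
  have hU : (U : Set (FHat 2)) = lftF φ ⁻¹'
      (MulAction.stabilizer (Equiv.Perm (F2 ⧸ H)) ((1 : F2) : F2 ⧸ H) : Set _) := rfl
  refine ⟨U, ?_, ?_⟩
  · rw [hU]
    exact (isClopen_lftF φ _).isOpen
  ext g
  show lftF φ (of g) • ((1 : F2) : F2 ⧸ H) = ((1 : F2) : F2 ⧸ H) ↔ g ∈ H
  rw [lftF_of]
  show ((g * 1 : F2) : F2 ⧸ H) = ((1 : F2) : F2 ⧸ H) ↔ g ∈ H
  rw [QuotientGroup.eq, mul_one, mul_one, inv_mem_iff]

theorem isOpen_cl (H : Subgroup F2) [H.FiniteIndex] : IsOpen (cl H : Set (FHat 2)) := by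
  obtain ⟨U, hU, e⟩ := exists_open H
  rw [← e, cl_open hU]
  exact hU

theorem comap_cl (H : Subgroup F2) [H.FiniteIndex] : (cl H).comap (of : F2 →* FHat 2) = H := by
  obtain ⟨U, hU, e⟩ := exists_open H
  conv_lhs => rw [← e, cl_open hU]
  exact e

theorem fi_comap {A B : Type} [Group A] [Group B] (θ : A →* B) (K : Subgroup B) [K.FiniteIndex] :
    (K.comap θ).FiniteIndex := by
  refine ⟨?_⟩
  rw [Subgroup.index_comap]
  exact (Subgroup.isFiniteRelIndex_of_finiteIndex (H := K) (K := θ.range)).relIndex_ne_zero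

theorem finiteIndex_comap {U : Subgroup (FHat 2)} (hU : IsOpen (U : Set (FHat 2))) :
    (U.comap (of : F2 →* FHat 2)).FiniteIndex := by
  have h1 : Finite (FHat 2 ⧸ U) := Subgroup.quotient_finite_of_isOpen U hU
  have h2 : U.FiniteIndex := Subgroup.finiteIndex_of_finite_quotient
  exact fi_comap _ _

/-! ## Matrices -/

/-- The reflection. -/
def EE : Matrix (Fin 2) (Fin 2) ℤ := !![1, 0; 0, -1]

theorem EE_mul : EE * EE = 1 := by
  unfold EE
  ext i j
  fin_cases i <;> fin_cases j <;> simp [Matrix.mul_apply, Fin.sum_univ_two]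

theorem matP_eq (k : F2) : (matP k).1 = EE * (mat k).1 * EE := by
  have hinv : ∀ A B : Matrix.SpecialLinearGroup (Fin 2) ℤ, A.1 = EE * B.1 * EE →
      (A⁻¹).1 = EE * (B⁻¹).1 * EE := by
    intro A B h
    rw [Matrix.SpecialLinearGroup.coe_inv, Matrix.SpecialLinearGroup.coe_inv, h]
    have eE : Matrix.adjugate EE = -EE := by
      unfold EE
      rw [Matrix.adjugate_fin_two]
      ext i j
      fin_cases i <;> fin_cases j <;> simp
    rw [Matrix.adjugate_mul_distrib, Matrix.adjugate_mul_distrib, eE]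
    simp [mul_assoc]
  induction k using FreeGroup.induction_on with
  | C1 => simp [EE_mul]
  | of i =>
    fin_cases i
    · show (matP (FreeGroup.of 0)).1 = EE * (mat (FreeGroup.of 0)).1 * EE
      unfold matP mat EE
      rw [FreeGroup.lift_apply_of, FreeGroup.lift_apply_of]
      ext i j
      fin_cases i <;> fin_cases j <;> simp [Matrix.mul_apply, Fin.sum_univ_two]
    · show (matP (FreeGroup.of 1)).1 = EE * (mat (FreeGroup.of 1)).1 * EE
      unfold matP mat EE
      rw [FreeGroup.lift_apply_of, FreeGroup.lift_apply_of]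
      ext i j
      fin_cases i <;> fin_cases j <;> simp [Matrix.mul_apply, Fin.sum_univ_two]
  | inv_of i ih =>
    rw [map_inv, map_inv]
    exact hinv _ _ ih
  | mul a b ha hb =>
    rw [map_mul, map_mul, Matrix.SpecialLinearGroup.coe_mul, Matrix.SpecialLinearGroup.coe_mul,
      ha, hb]
    calc EE * (mat a).1 * EE * (EE * (mat b).1 * EE)
        = EE * (mat a).1 * (EE * EE) * (mat b).1 * EE := by noncomm_ring
      _ = _ := by rw [EE_mul]; noncomm_ring

theorem mat_eq (k : F2) : (mat k).1 = EE * (matP k).1 * EE := by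
  rw [matP_eq]
  calc (mat k).1 = (EE * EE) * (mat k).1 * (EE * EE) := by rw [EE_mul]; simp
    _ = _ := by noncomm_ring

/-- `SimP` for `g` is `Sim` for `E g E`. -/
theorem sim_of_simP {g : Matrix (Fin 2) (Fin 2) ℤ} {h k : F2} (hs : SimP g h k) :
    Sim (EE * g * EE) h k := by
  have key : ∀ ε : ℤ, g * (matP h).1 = ε • ((matP k).1 * g) →
      EE * g * EE * (mat h).1 = ε • ((mat k).1 * (EE * g * EE)) := by
    intro ε e
    rw [mat_eq h, mat_eq k]
    calc EE * g * EE * (EE * (matP h).1 * EE) = EE * g * (EE * EE) * (matP h).1 * EE := by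
          noncomm_ring
      _ = EE * (g * (matP h).1) * EE := by rw [EE_mul]; noncomm_ring
      _ = ε • (EE * (matP k).1 * g * EE) := by
          rw [e, mul_smul_comm, smul_mul_assoc]
          noncomm_ring
      _ = ε • (EE * (matP k).1 * (EE * EE) * g * EE) := by rw [EE_mul, mul_one]
      _ = _ := by noncomm_ring
  rcases hs with e | e
  · left
    have := key 1 (by rw [one_smul]; exact e)
    rwa [one_smul] at this
  · right
    have := key (-1) (by rw [neg_one_smul]; exact e)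
    rwa [neg_one_smul] at this

theorem simP_of_sim {g : Matrix (Fin 2) (Fin 2) ℤ} {h k : F2} (hs : Sim g h k) :
    SimP (EE * g * EE) h k := by
  have key : ∀ ε : ℤ, g * (mat h).1 = ε • ((mat k).1 * g) →
      EE * g * EE * (matP h).1 = ε • ((matP k).1 * (EE * g * EE)) := by
    intro ε e
    rw [matP_eq h, matP_eq k]
    calc EE * g * EE * (EE * (mat h).1 * EE) = EE * g * (EE * EE) * (mat h).1 * EE := by
          noncomm_ring
      _ = EE * (g * (mat h).1) * EE := by rw [EE_mul]; noncomm_ring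
      _ = ε • (EE * (mat k).1 * g * EE) := by
          rw [e, mul_smul_comm, smul_mul_assoc]
          noncomm_ring
      _ = ε • (EE * (mat k).1 * (EE * EE) * g * EE) := by rw [EE_mul, mul_one]
      _ = _ := by noncomm_ring
  rcases hs with e | e
  · left
    have := key 1 (by rw [one_smul]; exact e)
    rwa [one_smul] at this
  · right
    have := key (-1) (by rw [neg_one_smul]; exact e)
    rwa [neg_one_smul] at this

theorem EE_dg (n : ℕ) : EE * dg n * EE = dg n := by
  unfold EE dg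
  ext i j
  fin_cases i <;> fin_cases j <;> simp [Matrix.mul_apply, Fin.sum_univ_two]

/-! ## Closedness of the relation -/

theorem isClosed_proj {A B : Type} [TopologicalSpace A] [TopologicalSpace B] [CompactSpace A]
    [CompactSpace B] [T2Space A] {C : Set (A × B)} (hC : IsClosed C) :
    IsClosed {a : A | ∃ b, (a, b) ∈ C} := by
  have e : {a : A | ∃ b, (a, b) ∈ C} = Prod.fst '' C := by
    ext a
    constructor
    · rintro ⟨b, hb⟩
      exact ⟨_, hb, rfl⟩
    · rintro ⟨⟨a', b⟩, hb, rfl⟩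
      exact ⟨b, hb⟩
  rw [e]
  exact (hC.isCompact.image continuous_fst).isClosed

theorem isClosed_Rel (n : ℕ) : IsClosed {p : Hat Braid4 × Hat Braid4 | Rel n p.1 p.2} := by
  have e : {p : Hat Braid4 × Hat Braid4 | Rel n p.1 p.2} =
      ⋂ w : FHat (n + 2), {p : Hat Braid4 × Hat Braid4 | ∃ w' : FHat (n + 2),
        p.1 * jH (covMap n w) * p.1⁻¹ = jH (covMap n w') ∧
        p.2 * jH (isoMap n w) * p.2⁻¹ = jH (isoMap n w')} := by
    ext p
    simp [Rel]
  rw [e]
  refine isClosed_iInter fun w => ?_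
  refine isClosed_proj (C := {q : (Hat Braid4 × Hat Braid4) × FHat (n + 2) |
    q.1.1 * jH (covMap n w) * q.1.1⁻¹ = jH (covMap n q.2) ∧
        q.1.2 * jH (isoMap n w) * q.1.2⁻¹ = jH (isoMap n q.2)}) ?_
  have cj : Continuous jH := jH.continuous_toFun
  have cc1 : Continuous (covMap n) := (covMap n).continuous_toFun
  have cc2 : Continuous (isoMap n) := (isoMap n).continuous_toFun
  refine IsClosed.inter ?_ ?_
  · exact isClosed_eq (((continuous_fst.comp continuous_fst).mul continuous_const).mul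
      (continuous_fst.comp continuous_fst).inv) (cj.comp (cc1.comp continuous_snd))
  · exact isClosed_eq (((continuous_snd.comp continuous_fst).mul continuous_const).mul
      (continuous_snd.comp continuous_fst).inv) (cj.comp (cc2.comp continuous_snd))

/-- Partners up to powers of `ζ`. -/
def CR (n : ℕ) : Set (FHat 2 × FHat 2) :=
  {p | ∃ e : ZHat, Rel n (iota p.1) (iota p.2 * pow cB e)}

theorem isClosed_CR (n : ℕ) : IsClosed (CR n) := by
  refine isClosed_proj (C := {q : (FHat 2 × FHat 2) × ZHat |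
    Rel n (iota q.1.1) (iota q.1.2 * pow cB q.2)}) ?_
  have ci : Continuous iota := iota.continuous_toFun
  have cp : Continuous (fun e : ZHat => pow cB e) := (ev (fun _ : Fin 1 => cB)).continuous_toFun
  have c : Continuous (fun q : (FHat 2 × FHat 2) × ZHat =>
      ((iota q.1.1, iota q.1.2 * pow cB q.2) : Hat Braid4 × Hat Braid4)) :=
    (ci.comp (continuous_fst.comp continuous_fst)).prodMk
      ((ci.comp (continuous_snd.comp continuous_fst)).mul (cp.comp continuous_snd))
  exact (isClosed_Rel n).preimage c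

theorem iota_of (k : F2) : iota (of k) = of (iotaD k) := by
  have e : iota.toMonoidHom.comp (of : F2 →* FHat 2) = (of : Braid4 →* Hat Braid4).comp iotaD := by
    refine FreeGroup.ext_hom _ _ fun i => ?_
    fin_cases i
    · show iota X = of (iotaD (FreeGroup.of 0))
      have e1 : iota X = s 0 ^ 2 := ev_gen _ _
      rw [e1]
      unfold iotaD
      rw [FreeGroup.lift_apply_of]
      show _ = of (σ 0 ^ 2)
      rw [map_pow, of_σ]
    · show iota Y = of (iotaD (FreeGroup.of 1))
      have e1 : iota Y = s 1 ^ 2 := ev_gen _ _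
      rw [e1]
      unfold iotaD
      rw [FreeGroup.lift_apply_of]
      show _ = of (σ 1 ^ 2)
      rw [map_pow, of_σ]
  exact DFunLike.congr_fun e k

theorem of_zD (j : ℤ) : of (zD ^ j) = pow cB (zgen ^ j) := by
  have e1 : of zD = cB := by
    unfold zD cB
    rw [map_pow, map_mul, of_σ, of_σ]
  have e2 : pow cB (zgen ^ j) = (pow cB zgen) ^ j :=
    map_zpow (ev (fun _ : Fin 1 => cB)) zgen j
  rw [map_zpow, e1, e2, pow_zgen]

theorem CR_of_simP (hS : StSim) {n : ℕ} {h k : F2} (hs : SimP (dg n) h k) :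
    ((of h, of k) : FHat 2 × FHat 2) ∈ CR n := by
  obtain ⟨j, hj⟩ := hS n h k hs
  refine ⟨zgen ^ j, ?_⟩
  show Rel n (iota (of h)) (iota (of k) * pow cB (zgen ^ j))
  rw [iota_of, iota_of, ← of_zD, ← map_mul]
  exact hj

theorem stepA (hS : StSim) {n : ℕ} {H K : Subgroup F2}
    (h : ∀ h ∈ H, ∃ k ∈ K, SimP (dg n) h k) : ∀ u ∈ cl H, ∃ v ∈ cl K, (u, v) ∈ CR n := by
  have hK : IsClosed (cl K : Set (FHat 2)) := Subgroup.isClosed_topologicalClosure _
  have h1 : IsClosed {u : FHat 2 | ∃ v, (u, v) ∈ {p : FHat 2 × FHat 2 | p.2 ∈ cl K} ∩ CR n} :=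
    isClosed_proj ((hK.preimage continuous_snd).inter (isClosed_CR n))
  intro u hu
  have h2 : u ∈ {u : FHat 2 | ∃ v, (u, v) ∈ {p : FHat 2 × FHat 2 | p.2 ∈ cl K} ∩ CR n} := by
    have h3 : u ∈ closure ((H.map (of : F2 →* FHat 2) : Subgroup (FHat 2)) : Set (FHat 2)) := hu
    refine closure_minimal ?_ h1 h3
    rintro _ ⟨x, hx, rfl⟩
    obtain ⟨k, hk, hs⟩ := h x hx
    exact ⟨of k, Subgroup.le_topologicalClosure _ ⟨k, hk, rfl⟩, CR_of_simP hS hs⟩
  obtain ⟨v, hv, hr⟩ := h2
  exact ⟨v, hv, hr⟩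

theorem stepA' (hS : StSim) {n : ℕ} {H K : Subgroup F2}
    (h : ∀ k ∈ K, ∃ h ∈ H, SimP (dg n) h k) : ∀ v ∈ cl K, ∃ u ∈ cl H, (u, v) ∈ CR n := by
  have hH : IsClosed (cl H : Set (FHat 2)) := Subgroup.isClosed_topologicalClosure _
  have h1 : IsClosed {v : FHat 2 | ∃ u, (v, u) ∈ {p : FHat 2 × FHat 2 | p.2 ∈ cl H} ∩
      (Prod.swap ⁻¹' CR n)} :=
    isClosed_proj ((hH.preimage continuous_snd).inter ((isClosed_CR n).preimage continuous_swap))
  intro v hv
  have h2 : v ∈ {v : FHat 2 | ∃ u, (v, u) ∈ {p : FHat 2 × FHat 2 | p.2 ∈ cl H} ∩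
      (Prod.swap ⁻¹' CR n)} := by
    have h3 : v ∈ closure ((K.map (of : F2 →* FHat 2) : Subgroup (FHat 2)) : Set (FHat 2)) := hv
    refine closure_minimal ?_ h1 h3
    rintro _ ⟨x, hx, rfl⟩
    obtain ⟨k, hk, hs⟩ := h x hx
    exact ⟨of k, Subgroup.le_topologicalClosure _ ⟨k, hk, rfl⟩, CR_of_simP hS hs⟩
  obtain ⟨u, hu, hr⟩ := h2
  exact ⟨u, hu, hr⟩

end MPb66790.HK24
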