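import Pool.Agent.Lib.MP_b66790_nt.ModM
import Pool.Agent.Lib.MP_b66790_nt.ModW
import Pool.Agent.Lib.MP_b66790_nt.ModG
import Pool.Agent.Lib.MP_b66790_nt.ModB
import Pool.Agent.Lib.MP_b66790_nt.ModD
import Pool.Agent.Lib.MP_b66790_nt.ModA

/-!
# Row FAITH: the braid group on three strands acts faithfully modulo its centre

If `u(σ₁², σ₂²) (σ₁σ₂)^{3e}` centralises the image of `jMap` then `u = 1`.
-/

namespace MPb66790.Hecke

open Function MPb66790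

section W

variable {G : Type} [Group G] (x y : G)

theorem phiW_13 (h) : phiW x y ⟨σ 1 * σ 0 ^ 2 * (σ 1)⁻¹, h⟩ = 1 := by
  show (actW x y (σ 1 * σ 0 ^ 2 * (σ 1)⁻¹) (bW G)).1.1 = 1
  unfold actW
  rw [map_mul, map_mul, map_inv, map_pow, brd_σ, brd_σ, pow_two]
  have h1 : (sW x y 1)⁻¹ (bW G) = ((y⁻¹, 1), 0) := by
    rw [Equiv.Perm.inv_eq_iff_eq]
    simp [sW, bW, S1, pS, Equiv.swap_apply_def]
  have h2 : (sW x y 0 * sW x y 0) ((y⁻¹, 1), 0) = ((y⁻¹, 1), 0) := by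
    simp [sW]
  rw [Equiv.Perm.mul_apply, Equiv.Perm.mul_apply, h1, h2, ← h1, ← Equiv.Perm.mul_apply,
    mul_inv_cancel, Equiv.Perm.one_apply]
  rfl

theorem phiW_24 (h) : phiW x y ⟨σ 1 * σ 2 ^ 2 * (σ 1)⁻¹, h⟩ = x⁻¹ * y⁻¹ := by
  show (actW x y (σ 1 * σ 2 ^ 2 * (σ 1)⁻¹) (bW G)).1.1 = x⁻¹ * y⁻¹
  unfold actW
  rw [map_mul, map_mul, map_inv, map_pow, brd_σ, brd_σ, pow_two]
  have h1 : (sW x y 1)⁻¹ (bW G) = ((y⁻¹, 1), 0) := by
    rw [Equiv.Perm.inv_eq_iff_eq]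
    simp [sW, bW, S1, pS, Equiv.swap_apply_def]
  rw [Equiv.Perm.mul_apply, Equiv.Perm.mul_apply, h1]
  simp [sW, S1, S2, pS, Equiv.swap_apply_def]

end W

/-- The map forgetting the first strand, with more values. -/
theorem exists_Psi67 : ∃ Ψ : ∀ g : Hat Braid4, perm g = 1 → FHat 2,
    (∀ g g' h h' h'', Ψ (g * g') h'' = Ψ g h * Ψ g' h') ∧
    (∀ g h h', Ψ g⁻¹ h' = (Ψ g h)⁻¹) ∧
    (∀ (n : ℕ) (v : Fin n → Hat Braid4) (hv : ∀ i, perm (v i) = 1) (x : FHat n) (h),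
      Ψ (ev v x) h = ev (fun i => Ψ (v i) (hv i)) x) ∧
    (∀ h, Ψ (s 0 ^ 2) h = 1) ∧ (∀ h, Ψ (s 2 ^ 2) h = X) ∧ (∀ h, Ψ (s 1 ^ 2) h = Y) ∧
    (∀ h, Ψ (s 1 * s 0 ^ 2 * (s 1)⁻¹) h = 1) ∧
    (∀ h, Ψ (s 1 * s 2 ^ 2 * (s 1)⁻¹) h = X⁻¹ * Y⁻¹) := by
  obtain ⟨Φ, hc, hΦ⟩ := stG Braid4 (Equiv.Perm (Fin 4)) permHom (FHat 2) (phiW X Y)
  have key : ∀ (g : Braid4) (g' : Hat Braid4) (e : of g = g') (z : FHat 2)
      (hz : ∀ h, phiW X Y ⟨g, h⟩ = z) (h : perm g' = 1), Φ ⟨g', h⟩ = z := by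
    intro g g' e z hz h
    subst e
    have h1 : g ∈ permHom.ker := by
      rw [MonoidHom.mem_ker]
      unfold perm at h
      rwa [lftF_of] at h
    rw [hΦ g h1 h, hz]
  refine ⟨fun g hg => Φ ⟨g, hg⟩, ?_, ?_, ?_, ?_, ?_, ?_, ?_, ?_⟩
  · intro g g' h h' h''
    rw [← map_mul]
    rfl
  · intro g h h'
    rw [← map_inv]
    rfl
  · intro n v hv x h
    exact Phi_ev Φ hc v hv x h
  · refine key (σ 0 ^ 2) _ (by rw [map_pow, of_σ]) _ fun h => ?_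
    show (actW X Y (σ 0 ^ 2) (bW (FHat 2))).1.1 = 1
    unfold actW
    rw [map_pow, brd_σ, pow_two]
    simp [sW, bW]
  · refine key (σ 2 ^ 2) _ (by rw [map_pow, of_σ]) _ fun h => ?_
    show (actW X Y (σ 2 ^ 2) (bW (FHat 2))).1.1 = X
    unfold actW
    rw [map_pow, brd_σ, pow_two]
    simp [sW, bW, S2, pS, Equiv.swap_apply_def]
  · refine key (σ 1 ^ 2) _ (by rw [map_pow, of_σ]) _ fun h => ?_
    show (actW X Y (σ 1 ^ 2) (bW (FHat 2))).1.1 = Y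
    unfold actW
    rw [map_pow, brd_σ, pow_two]
    simp [sW, bW, S1, pS, Equiv.swap_apply_def]
  · exact key (σ 1 * σ 0 ^ 2 * (σ 1)⁻¹) _ (by simp only [map_mul, map_inv, map_pow, of_σ]) _
      fun h => phiW_13 X Y h
  · exact key (σ 1 * σ 2 ^ 2 * (σ 1)⁻¹) _ (by simp only [map_mul, map_inv, map_pow, of_σ]) _
      fun h => phiW_24 X Y h

/-- The centre of the free profinite group on two generators is trivial. -/
theorem center67 {w : FHat 2} (hX : Commute w X) (hY : Commute w Y) : w = 1 := by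
  obtain ⟨e, he⟩ := stC w 0 hX
  obtain ⟨e', he'⟩ := stC w 1 hY
  have h1 : ev ![X, 1] w = w := by
    conv_lhs => rw [he]
    rw [ev_pow, ev_gen, he]
    rfl
  have h2 : ev ![X, 1] w = 1 := by
    rw [he', ev_pow, ev_gen]
    exact one_pow' _
  rw [← h1, h2]

theorem theta_surj67 (w : FHat 2) : ∃ v, theta v = w := ⟨theta w, theta_theta w⟩

/-- Row FAITH. -/
theorem faith67 (u : FHat 2) (e : ZHat)
    (h : ∀ w : FHat 2, Commute (ev ![s 0 ^ 2, s 1 ^ 2] u * pow cB e) (jMap w)) : u = 1 := by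
  obtain ⟨Ψ, hmul, hinv, hev, h0, h2, h1, h13, h24⟩ := exists_Psi67
  have hcongr : ∀ g g' (e : g = g') h h', Ψ g h = Ψ g' h' := by
    intro g g' e h h'
    subst e
    rfl
  -- conjugation by `Dl`
  have hg : Dl * (ev ![s 0 ^ 2, s 1 ^ 2] u * pow cB e) * Dl⁻¹ =
      ev ![s 2 ^ 2, s 1 ^ 2] u * pow dB e := by
    rw [conj_mul', conj_ev2, conj_pow', conj_cB, conj_sq_zero, conj_sq_one]
  have hc : ∀ w : FHat 2, Commute (ev ![s 2 ^ 2, s 1 ^ 2] u * pow dB e) (jMap w) := by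
    intro w
    obtain ⟨v, rfl⟩ := theta_surj67 w
    rw [← hg, ← stD3 v]
    show _ * _ = _ * _
    rw [← conj_mul', ← conj_mul', (h v).eq]
  have pm := perm_sq
  have p13 : perm (s 1 * s 0 ^ 2 * (s 1)⁻¹) = 1 := by
    rw [map_mul, map_mul, pm, mul_one, map_inv, mul_inv_cancel]
  have p24 : perm (s 1 * s 2 ^ 2 * (s 1)⁻¹) = 1 := by
    rw [map_mul, map_mul, pm, mul_one, map_inv, mul_inv_cancel]
  have pu : perm (ev ![s 2 ^ 2, s 1 ^ 2] u) = 1 := perm_ev2_one (pm 2) (pm 1) u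
  have pd : perm (pow dB e) = 1 := perm_ev_one (fun _ => perm_dB) e
  have pg : perm (ev ![s 2 ^ 2, s 1 ^ 2] u * pow dB e) = 1 := by rw [map_mul, pu, pd, mul_one]
  -- a general commutation principle
  have hcm : ∀ a b (ha : perm a = 1) (hb : perm b = 1), Commute a b → Commute (Ψ a ha) (Ψ b hb) := by
    intro a b ha hb hab
    have pab : perm (a * b) = 1 := by rw [map_mul, ha, hb, mul_one]
    have pba : perm (b * a) = 1 := by rw [map_mul, ha, hb, mul_one]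
    show _ * _ = _ * _
    rw [← hmul a b ha hb pab, ← hmul b a hb ha pba]
    exact hcongr _ _ hab.eq _ _
  -- the value at `dB`
  have hd : Ψ dB perm_dB = 1 := by
    refine center67 ?_ ?_
    · rw [← h2 (pm 2)]
      exact hcm _ _ _ _ (comm_dB_two.pow_right 2)
    · rw [← h1 (pm 1)]
      exact hcm _ _ _ _ (comm_dB_one.pow_right 2)
  have hgv : Ψ (ev ![s 2 ^ 2, s 1 ^ 2] u * pow dB e) pg = u := by
    rw [hmul _ _ pu pd pg]
    have e1 : Ψ (pow dB e) pd = 1 := by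
      have := hev 1 (fun _ => dB) (fun _ => perm_dB) e pd
      rw [hd] at this
      refine Eq.trans this ?_
      exact one_pow' e
    have e2 : Ψ (ev ![s 2 ^ 2, s 1 ^ 2] u) pu = u := by
      have hv : ∀ i : Fin 2, perm ((![s 2 ^ 2, s 1 ^ 2] : Fin 2 → Hat Braid4) i) = 1 := by
        intro i
        fin_cases i
        · exact pm 2
        · exact pm 1
      rw [hev 2 _ hv u pu]
      have e3 : (fun i => Ψ ((![s 2 ^ 2, s 1 ^ 2] : Fin 2 → Hat Braid4) i) (hv i)) =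
          (fun i => gen i : Fin 2 → FHat 2) := by
        funext i
        fin_cases i
        · exact h2 _
        · exact h1 _
      rw [e3, ev_gen_self]
    rw [e1, e2, mul_one]
  -- the element `a²`
  have ha : jMap (X ^ 2) = s 0 ^ 2 * (s 2 ^ 2)⁻¹ := by
    rw [map_pow]
    have e1 : jMap X = pB := ev_gen _ 0
    rw [e1]
    unfold pB
    rw [comm_zero_two.inv_right.mul_pow, inv_pow]
  have hb : jMap (Y ^ 2) = (s 1 * s 0 ^ 2 * (s 1)⁻¹) * (s 1 * s 2 ^ 2 * (s 1)⁻¹)⁻¹ := by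
    rw [map_pow]
    have e1 : jMap Y = rB := ev_gen _ 1
    rw [e1]
    unfold rB pB
    rw [← conj_pow'', comm_zero_two.inv_right.mul_pow]
    group
  have hX : Commute u X := by
    have p1 : perm (s 0 ^ 2 * (s 2 ^ 2)⁻¹) = 1 := by
      rw [map_mul, map_inv, pm, pm, inv_one, mul_one]
    have e1 := hcm _ _ pg p1 (by rw [← ha]; exact hc _)
    have p2 : perm (s 2 ^ 2)⁻¹ = 1 := by rw [map_inv, pm, inv_one]
    rw [hgv, hmul _ _ (pm 0) p2 p1, h0, one_mul, hinv _ (pm 2) p2, h2] at e1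
    exact Commute.inv_right_iff.1 e1
  have hYX : Commute u (X⁻¹ * Y⁻¹)⁻¹ := by
    have p1 : perm ((s 1 * s 0 ^ 2 * (s 1)⁻¹) * (s 1 * s 2 ^ 2 * (s 1)⁻¹)⁻¹) = 1 := by
      rw [map_mul, map_inv, p13, p24, inv_one, mul_one]
    have e1 := hcm _ _ pg p1 (by rw [← hb]; exact hc _)
    have p2 : perm (s 1 * s 2 ^ 2 * (s 1)⁻¹)⁻¹ = 1 := by rw [map_inv, p24, inv_one]
    rw [hgv, hmul _ _ p13 p2 p1, h13, one_mul, hinv _ p24 p2, h24] at e1
    exact e1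
  refine center67 hX ?_
  have e1 : Commute u ((X⁻¹ * Y⁻¹)⁻¹ * X⁻¹) := hYX.mul_right hX.inv_right
  have e2 : (X⁻¹ * Y⁻¹)⁻¹ * X⁻¹ = (Y : FHat 2) := by group
  rwa [e2] at e1

end MPb66790.Hecke
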