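import Pool.Agent.Lib.MP_b66790_nt.Hecke.Stmt24b
import Pool.Agent.Lib.MP_b66790_nt.Hecke.Faith67

/-!
# Row F: the faithfulness statement for the basis `b = X`, `a = Y`
-/

namespace MPb66790.HK24

open MPb66790 MPb66790.CY24 Function

theorem jH_X : jH X = pB⁻¹ * rB := ev_gen _ 0

theorem jH_Y : jH Y = pB := ev_gen _ 1

theorem jMap_eq (w : FHat 2) : jMap w = jH (ev ![Y, Y * X] w) := by
  rw [map_ev]
  unfold jMap
  congr 2
  funext i
  fin_cases i
  · show pB = jH Y
    rw [jH_Y]
  · show rB = jH (Y * X)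
    rw [map_mul, jH_X, jH_Y, mul_inv_cancel_left]

/-- Row F. -/
theorem stF_67 : StF := by
  intro u e h
  refine Hecke.faith67 u e fun w => ?_
  rw [jMap_eq]
  exact h _

end MPb66790.HK24
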