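import Pool.Agent.Lib.MP_b66790_nt.Hecke.Stmt24b
import Pool.Agent.Lib.MP_b66790_nt.ModB
import Pool.Agent.Lib.MP_b66790_nt.ModF

/-!
# Rows IND and ALPHA: the endomorphism induced under the isogeny
-/

namespace MPb66790.HK24

open MPb66790 MPb66790.CY24 Function

section

variable {n : ℕ}

theorem iso_g0 : isoMap n (g0 n) = X := ev_g0 _ _

theorem iso_gy (j : ZMod (n + 1)) : isoMap n (gy j) = if j = 0 then Y else X * Y * X⁻¹ :=
  ev_gy _ _ _

/-- The lift of `b ^ (i + 1) a b ^ (-(i + 1))`. -/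
noncomputable def nx (i : ZMod (n + 1)) : FHat (n + 2) :=
  if i + 1 = 0 then g0 n * gy 0 * (g0 n)⁻¹ else gy (i + 1)

theorem val_add_one_eq {i : ZMod (n + 1)} (h : i + 1 ≠ 0) : (i + 1).val = i.val + 1 := by
  have h1 : i.val < n + 1 := ZMod.val_lt i
  rw [ZMod.val_add]
  rcases Nat.eq_zero_or_pos n with rfl | hn
  · have hs : Subsingleton (ZMod (0 + 1)) := inferInstanceAs (Subsingleton (ZMod 1))
    exact absurd (Subsingleton.elim (i + 1) 0) h
  · have h2 : (1 : ZMod (n + 1)).val = 1 := by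
      rw [ZMod.val_one_eq_one_mod, Nat.mod_eq_of_lt (by omega)]
    rw [h2]
    refine Nat.mod_eq_of_lt ?_
    by_contra h3
    have h4 : i.val + 1 = n + 1 := by omega
    apply h
    have h5 : ((i.val + 1 : ℕ) : ZMod (n + 1)) = 0 := by
      rw [h4, ZMod.natCast_self]
    rw [Nat.cast_add, ZMod.natCast_zmod_val, Nat.cast_one] at h5
    exact h5

theorem val_eq_of {i : ZMod (n + 1)} (h : i + 1 = 0) : i.val = n := by
  have h1 : i.val < n + 1 := ZMod.val_lt i
  have h2 : ((i.val + 1 : ℕ) : ZMod (n + 1)) = 0 := by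
    rw [Nat.cast_add, ZMod.natCast_zmod_val, Nat.cast_one, h]
  rw [ZMod.natCast_eq_zero_iff] at h2
  have h3 := Nat.le_of_dvd (Nat.succ_pos _) h2
  omega

theorem cov_nx (i : ZMod (n + 1)) :
    covMap n (nx i) = X ^ (i.val + 1) * Y * (X ^ (i.val + 1))⁻¹ := by
  unfold nx
  split_ifs with h
  · rw [map_mul, map_mul, map_inv, cov_g0, cov_gy, ZMod.val_zero, val_eq_of h]
    group
  · rw [cov_gy, val_add_one_eq h]

theorem iso_nx {i : ZMod (n + 1)} (hi : i ≠ 0) : isoMap n (nx i) = isoMap n (gy i) := by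
  rw [iso_gy, if_neg hi]
  unfold nx
  split_ifs with h
  · rw [map_mul, map_mul, map_inv, iso_g0, iso_gy, if_pos rfl]
  · rw [iso_gy, if_neg h]

/-- The lift of `b ^ i c b ^ (-i)`. -/
noncomputable def cl67 (i : ZMod (n + 1)) : FHat (n + 2) := gy i * (nx i)⁻¹

theorem cov_cl (i : ZMod (n + 1)) : covMap n (cl67 i) = X ^ i.val * cc * (X ^ i.val)⁻¹ := by
  unfold cl67 cc
  rw [map_mul, map_inv, cov_nx, cov_gy, pow_succ]
  group

theorem iso_cl {i : ZMod (n + 1)} (hi : i ≠ 0) : isoMap n (cl67 i) = 1 := by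
  unfold cl67
  rw [map_mul, map_inv, iso_nx hi, mul_inv_cancel]

end

/-- Row IND. -/
theorem stInd_67 : StInd := by
  rintro n φ ⟨l, hl⟩ hY hX
  -- the image of the covering group
  have hchi : ∀ w, ∃ k, covMap n k = φ (covMap n w) := by
    intro w
    refine exists_cov_of_chi ?_
    have h1 : ((chi n).comp φ.toMonoidHom).comp (covMap n).toMonoidHom = 1 := by
      ext w
      refine gen_ext (H := Multiplicative (ZMod (n + 1)))
        (φ := ((chi n).comp φ.toMonoidHom).comp (covMap n).toMonoidHom) (ψ := 1) ?_ continuous_const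
        ?_ (fun j => ?_) w
      · have hc : Continuous (chi n) := continuous_lftF _
        exact (hc.comp φ.continuous_toFun).comp (covMap n).continuous_toFun
      · show chi n (φ (covMap n (g0 n))) = 1
        rw [cov_g0, map_pow, map_pow]
        have : ∀ z : Multiplicative (ZMod (n + 1)), z ^ (n + 1) = 1 := by
          intro z
          have h2 : (n + 1) • (Multiplicative.toAdd z) = 0 := by simp
          exact h2
        exact this _
      · show chi n (φ (covMap n (gy j))) = 1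
        rw [cov_gy]
        simp only [map_mul, map_inv, hY]
        group
    exact DFunLike.congr_fun h1 w
  choose L hL using hchi
  let Φ : FHat (n + 2) →ₜ* FHat (n + 2) := ev (mk (L (g0 n)) (fun j => L (gy j)))
  have hΦ0 : Φ (g0 n) = L (g0 n) := ev_g0 _ _
  have hΦ1 : ∀ j, Φ (gy j) = L (gy j) := fun j => ev_gy _ _ _
  have hΦ : ∀ w, covMap n (Φ w) = φ (covMap n w) := by
    intro w
    refine gen_ext (φ := (covMap n).toMonoidHom.comp Φ.toMonoidHom)
      (ψ := φ.toMonoidHom.comp (covMap n).toMonoidHom)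
      ((covMap n).continuous_toFun.comp Φ.continuous_toFun)
      (φ.continuous_toFun.comp (covMap n).continuous_toFun) ?_ (fun j => ?_) w
    · show covMap n (Φ (g0 n)) = φ (covMap n (g0 n))
      rw [hΦ0, hL]
    · show covMap n (Φ (gy j)) = φ (covMap n (gy j))
      rw [hΦ1, hL]
  -- the other punctures are killed
  have hkill : ∀ i : ZMod (n + 1), i ≠ 0 → isoMap n (Φ (cl67 i)) = 1 := by
    intro i hi
    have hi1 : i.val < n + 1 := ZMod.val_lt i
    have hi0 : 0 < i.val := Nat.pos_of_ne_zero fun h => hi ((ZMod.val_eq_zero i).1 h)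
    obtain ⟨r, hr, k, hk⟩ := exists_cov n (φ X ^ i.val)
    have hr0 : r ≠ 0 := by
      rintro rfl
      apply hX i.val hi0 hi1
      rw [← map_pow, hk, pow_zero, one_mul, chi_cov]
    have hrv : ((r : ℕ) : ZMod (n + 1)).val = r := by
      rw [ZMod.val_natCast, Nat.mod_eq_of_lt hr]
    have hrz : ((r : ℕ) : ZMod (n + 1)) ≠ 0 := by
      intro h
      apply hr0
      rw [← hrv, h, ZMod.val_zero]
    have e1 : φ X ^ i.val = covMap n (taun n r k) * X ^ r := by
      rw [hk, cov_taun]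
      group
    have e2 : covMap n (Φ (cl67 i)) =
        covMap n (taun n r k * pow (cl67 ((r : ℕ) : ZMod (n + 1))) l * (taun n r k)⁻¹) := by
      rw [hΦ, cov_cl, map_mul, map_mul, map_inv, map_pow, e1, hl]
      rw [map_mul, map_mul, map_inv, map_pow' (covMap n), cov_cl, hrv, ← conj_pow']
      group
    have e3 := cov_inj e2
    rw [e3, map_mul, map_mul, map_inv, map_pow' (isoMap n), iso_cl hrz, one_pow', mul_one,
      mul_inv_cancel]
  have hstep : ∀ i : ZMod (n + 1), i ≠ 0 → isoMap n (Φ (gy i)) = isoMap n (Φ (nx i)) := by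
    intro i hi
    have h := hkill i hi
    unfold cl67 at h
    rw [map_mul, map_mul, map_inv, map_inv] at h
    exact mul_inv_eq_one.1 h
  have hall : ∀ m : ℕ, ∀ i : ZMod (n + 1), i ≠ 0 → i.val + m = n →
      isoMap n (Φ (gy i)) = isoMap n (Φ (g0 n * gy 0 * (g0 n)⁻¹)) := by
    intro m
    induction m with
    | zero =>
      intro i hi h
      rw [hstep i hi]
      unfold nx
      have h1 : i + 1 = 0 := by
        by_contra h2
        have h3 := val_add_one_eq h2
        have h4 : (i + 1).val < n + 1 := ZMod.val_lt _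
        omega
      rw [if_pos h1]
    | succ m ih =>
      intro i hi h
      rw [hstep i hi]
      have h1 : i + 1 ≠ 0 := by
        intro h2
        have := val_eq_of h2
        omega
      unfold nx
      rw [if_neg h1]
      exact ih (i + 1) h1 (by rw [val_add_one_eq h1]; omega)
  let α : FHat 2 →ₜ* FHat 2 := ev ![isoMap n (Φ (g0 n)), isoMap n (Φ (gy 0))]
  have hα0 : α X = isoMap n (Φ (g0 n)) := ev_gen _ 0
  have hα1 : α Y = isoMap n (Φ (gy 0)) := ev_gen _ 1
  refine ⟨α, fun w => ⟨Φ w, (hΦ w).symm, ?_⟩⟩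
  refine gen_ext (φ := α.toMonoidHom.comp (isoMap n).toMonoidHom)
    (ψ := (isoMap n).toMonoidHom.comp Φ.toMonoidHom)
    (α.continuous_toFun.comp (isoMap n).continuous_toFun)
    ((isoMap n).continuous_toFun.comp Φ.continuous_toFun) ?_ (fun j => ?_) w
  · show α (isoMap n (g0 n)) = isoMap n (Φ (g0 n))
    rw [iso_g0, hα0]
  · show α (isoMap n (gy j)) = isoMap n (Φ (gy j))
    rw [iso_gy]
    split_ifs with hj
    · rw [hj, hα1]
    · have hv : j.val < n + 1 := ZMod.val_lt j
      rw [hall (n - j.val) j hj (by omega)]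
      simp only [map_mul, map_inv, hα0, hα1]

/-- Row ALPHA. -/
theorem stAlpha_67 : StAlpha := by
  rintro Ψ hΨ ⟨l, hl⟩ ⟨t, ht⟩ hX n
  have hY : chi n (Ψ Y) = 1 := by
    rw [ht]
    have h : chi n (ev ![Y, X * Y * X⁻¹] t) =
        evF (fun i => chi n ((![Y, X * Y * X⁻¹] : Fin 2 → FHat 2) i)) t := evF_ev _ _ _
    rw [h]
    refine evF_one (fun i => ?_) t
    fin_cases i
    · exact chi_Y
    · show chi n (X * Y * X⁻¹) = 1
      rw [map_mul, map_mul, chi_Y, mul_one, map_inv, mul_inv_cancel]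
  obtain ⟨α, hα⟩ := stInd_67 n Ψ ⟨l, hl⟩ hY (by
    intro i hi0 hi h
    rw [hX n, chi_X, ofAdd_pow] at h
    have h1 : ((i : ℕ) : ZMod (n + 1)) = 0 := h
    rw [ZMod.natCast_eq_zero_iff] at h1
    have := Nat.le_of_dvd hi0 h1
    omega)
  -- lifts of `a` and of `b a b⁻¹`
  obtain ⟨dl, hdc, hdi⟩ : ∃ dl : FHat (n + 2), covMap n dl = X * Y * X⁻¹ ∧
      isoMap n dl = X * Y * X⁻¹ := by
    rcases Nat.eq_zero_or_pos n with rfl | hn
    · refine ⟨g0 0 * gy 0 * (g0 0)⁻¹, ?_, ?_⟩
      · rw [map_mul, map_mul, map_inv, cov_g0, cov_gy, ZMod.val_zero]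
        group
      · rw [map_mul, map_mul, map_inv, iso_g0, iso_gy, if_pos rfl]
    · have h1 : (1 : ZMod (n + 1)).val = 1 := by
        rw [ZMod.val_one_eq_one_mod, Nat.mod_eq_of_lt (by omega)]
      refine ⟨gy 1, ?_, ?_⟩
      · rw [cov_gy, h1, pow_one]
      · rw [iso_gy, if_neg]
        intro h
        rw [h, ZMod.val_zero] at h1
        exact absurd h1 (by norm_num)
  have hac : covMap n (gy 0) = Y := by
    rw [cov_gy, ZMod.val_zero]
    group
  have hai : isoMap n (gy 0) = Y := by rw [iso_gy, if_pos rfl]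
  -- the subgroup on which the isogeny is the identity
  have hT : ∀ s : FHat 2, covMap n (ev ![gy 0, dl] s) = ev ![Y, X * Y * X⁻¹] s ∧
      isoMap n (ev ![gy 0, dl] s) = ev ![Y, X * Y * X⁻¹] s := by
    intro s
    rw [map_ev, map_ev]
    constructor
    · congr 2
      funext i
      fin_cases i
      · exact hac
      · exact hdc
    · congr 2
      funext i
      fin_cases i
      · exact hai
      · exact hdi
  -- `α = Ψ` there, on elements whose image stays there
  have key : ∀ w : FHat (n + 2), ∀ v s : FHat 2, covMap n w = v → isoMap n w = v →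
      Ψ v = ev ![Y, X * Y * X⁻¹] s → α v = Ψ v := by
    intro w v s h1 h2 h3
    obtain ⟨w', h4, h5⟩ := hα w
    rw [h1, h3, ← (hT s).1] at h4
    have h6 := cov_inj h4
    rw [h2] at h5
    rw [h5, ← h6, (hT s).2, h3]
  have hαY : α Y = Ψ Y := key (gy 0) Y t hac hai ht
  -- the element `b a b⁻¹`
  have hd : (X * Y * X⁻¹ : FHat 2) = cc⁻¹ * Y := by
    unfold cc
    group
  have hcs : ∃ s, (cc : FHat 2) = ev ![Y, X * Y * X⁻¹] s := by
    refine ⟨gen 0 * (gen 1)⁻¹, ?_⟩
    rw [map_mul, map_inv, ev_gen, ev_gen]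
    show cc = Y * (X * Y * X⁻¹)⁻¹
    unfold cc
    group
  obtain ⟨s, hs⟩ := hcs
  have hαd : α (X * Y * X⁻¹) = Ψ (X * Y * X⁻¹) := by
    refine key dl _ ((pow s l)⁻¹ * t) hdc hdi ?_
    have e1 : Ψ (X * Y * X⁻¹) = Ψ (cc⁻¹ * Y) := congrArg _ hd
    rw [e1, map_mul, map_inv, hl, ht, map_mul, map_inv, ev_pow, ← hs]
  -- `b`
  obtain ⟨x', hx'⟩ := hΨ.2 (α X)
  have h1 : Ψ (x' * Y * x'⁻¹) = Ψ (X * Y * X⁻¹) := by
    rw [← hαd, map_mul, map_mul, map_inv, hx', map_mul, map_mul, map_inv, hαY]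
  have h2 := hΨ.1 h1
  have h3 : Commute (X⁻¹ * x') (gen 1) := by
    show X⁻¹ * x' * Y = Y * (X⁻¹ * x')
    calc X⁻¹ * x' * Y = X⁻¹ * (x' * Y * x'⁻¹) * x' := by group
      _ = X⁻¹ * (X * Y * X⁻¹) * x' := by rw [h2]
      _ = Y * (X⁻¹ * x') := by group
  obtain ⟨k, hk⟩ := stC _ 1 h3
  have hx : x' = X * pow Y k := by
    have h4 : X⁻¹ * x' = pow Y k := hk
    rw [← h4]
    group
  refine ⟨k, fun w => ?_⟩
  obtain ⟨w', h4, h5⟩ := hα w
  refine ⟨w', h4, ?_⟩
  rw [← h5]
  have h6 : ∀ v, α v = Ψ (ev ![X * pow Y k, Y] v) := by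
    intro v
    refine ev_hom_ext (φ := α.toMonoidHom)
      (ψ := Ψ.toMonoidHom.comp (ev ![X * pow Y k, Y]).toMonoidHom) α.continuous_toFun
      (Ψ.continuous_toFun.comp (ev ![X * pow Y k, Y]).continuous_toFun) (fun i => ?_) v
    show α (gen i) = Ψ (ev ![X * pow Y k, Y] (gen i))
    rw [ev_gen]
    fin_cases i
    · show α X = Ψ (X * pow Y k)
      rw [← hx, hx']
    · exact hαY
  exact h6 _

end MPb66790.HK24
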