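import Pool.Agent.Lib.MP_b66790_nt.Hecke.Stmt24b
import Pool.Agent.Lib.MP_b66790_nt.Hecke.F67
import Pool.Agent.Lib.MP_b66790_nt.Hecke.Ind67
import Pool.Agent.Lib.MP_b66790_nt.ModF
import Pool.Agent.Lib.MP_b66790_nt.ModD

/-!
# Row CL: the closure lemma
-/

namespace MPb66790.HK24.Cl32

open MPb66790 MPb66790.CY24 MPb66790.HK24 Function

theorem jH_inj : Injective jH := by
  let κ : FHat 2 →ₜ* FHat 2 := ev ![X⁻¹ * Y, X]
  let κ' : FHat 2 →ₜ* FHat 2 := ev ![Y, Y * X]
  have k1 : κ X = X⁻¹ * Y := ev_gen _ 0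
  have k2 : κ Y = X := ev_gen _ 1
  have l1 : κ' X = Y := ev_gen _ 0
  have l2 : κ' Y = Y * X := ev_gen _ 1
  have hk : ∀ w, κ' (κ w) = w := by
    intro w
    refine FHat2_ext (φ := κ'.toMonoidHom.comp κ.toMonoidHom) (ψ := MonoidHom.id _)
      (κ'.continuous_toFun.comp κ.continuous_toFun) continuous_id ?_ ?_ w
    · show κ' (κ X) = X
      rw [k1, map_mul, map_inv, l1, l2, inv_mul_cancel_left]
    · show κ' (κ Y) = Y
      rw [k2, l1]
  have hj : ∀ w, jH w = jMap (κ w) := by
    intro w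
    rw [jMap_eq]
    show jH w = jH (κ' (κ w))
    rw [hk]
  intro a b h
  rw [hj, hj] at h
  have h2 := stD1 h
  rw [← hk a, h2, hk]

theorem iota_of (k : F2) : iota (of k) = of (iotaD k) := by
  unfold iota ev
  rw [lft_of]
  have h : (FreeGroup.lift ![s 0 ^ 2, s 1 ^ 2] : F2 →* Hat Braid4) = of.comp iotaD := by
    ext i
    fin_cases i
    · simp [iotaD, of_σ]
    · simp [iotaD, of_σ]
  rw [h]
  rfl

theorem jH_of (w : F2) : jH (of w) = of (jD w) := by
  unfold jH ev
  rw [lft_of]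
  have h : (FreeGroup.lift ![pB⁻¹ * rB, pB] : F2 →* Hat Braid4) = of.comp jD := by
    ext i
    fin_cases i
    · simp [jD, aD, pB, rB, of_σ]
    · simp [jD, aD, pB, of_σ]
  rw [h]
  rfl

theorem of_zD : of zD = cB := by
  unfold zD cB
  rw [map_pow, map_mul, of_σ, of_σ]

/-- `Rel` is closed. -/
theorem rel_closed (n : ℕ) : IsClosed {p : Hat Braid4 × Hat Braid4 | Rel n p.1 p.2} := by
  have h : {p : Hat Braid4 × Hat Braid4 | Rel n p.1 p.2} = ⋂ w : FHat (n + 2),
      Prod.fst '' {q : (Hat Braid4 × Hat Braid4) × FHat (n + 2) |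
        q.1.1 * jH (covMap n w) * q.1.1⁻¹ = jH (covMap n q.2) ∧
        q.1.2 * jH (isoMap n w) * q.1.2⁻¹ = jH (isoMap n q.2)} := by
    ext p
    simp only [Set.mem_ofPred_eq, Set.mem_iInter, Set.mem_image, Prod.exists]
    constructor
    · intro hp w
      obtain ⟨w', h1, h2⟩ := hp w
      exact ⟨p.1, p.2, w', ⟨h1, h2⟩, rfl⟩
    · intro hp w
      obtain ⟨a, b, w', ⟨h1, h2⟩, rfl⟩ := hp w
      exact ⟨w', h1, h2⟩
  rw [h]
  refine isClosed_iInter fun w => ?_
  refine (IsClosed.isCompact ?_).image continuous_fst |>.isClosed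
  refine IsClosed.inter ?_ ?_
  · refine isClosed_eq ?_ ?_
    · exact ((continuous_fst.comp continuous_fst).mul continuous_const).mul
        (continuous_fst.comp continuous_fst).inv
    · exact jH.continuous_toFun.comp ((covMap n).continuous_toFun.comp continuous_snd)
  · refine isClosed_eq ?_ ?_
    · exact ((continuous_snd.comp continuous_fst).mul continuous_const).mul
        (continuous_snd.comp continuous_fst).inv
    · exact jH.continuous_toFun.comp ((isoMap n).continuous_toFun.comp continuous_snd)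

/-- The matrix of the action modulo `n + 1`. -/
noncomputable def MM (n : ℕ) : FHat 2 →* Matrix.SpecialLinearGroup (Fin 2) (ZMod (n + 1)) :=
  lftF ((Matrix.SpecialLinearGroup.map (Int.castRingHom (ZMod (n + 1)))).comp matP)

theorem MM_of (n : ℕ) (k : F2) : (MM n (of k)).1 1 0 = (((matP k).1 1 0 : ℤ) : ZMod (n + 1)) := by
  unfold MM
  rw [lftF_of]
  rfl

theorem chi_of (n : ℕ) (w : F2) :
    chi n (of w) = Multiplicative.ofAdd ((vec w 1 : ℤ) : ZMod (n + 1)) := by
  induction w using FreeGroup.induction_on with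
  | C1 =>
    rw [map_one, map_one]
    simp [vec]
  | of i =>
    fin_cases i
    · show chi n X = _
      rw [chi_X]
      simp [vec, vecH]
    · show chi n Y = _
      rw [chi_Y]
      simp [vec, vecH]
  | inv_of i ih =>
    rw [map_inv, map_inv]
    have h : vec (FreeGroup.of i)⁻¹ = -vec (FreeGroup.of i) := by
      unfold vec
      rw [map_inv, toAdd_inv]
    rw [show (FreeGroup.of i : F2) = pure i from rfl] at *
    rw [ih, h]
    simp
  | mul x y hx hy =>
    rw [map_mul, map_mul, hx, hy]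
    have h : vec (x * y) = vec x + vec y := by
      unfold vec
      rw [map_mul, toAdd_mul]
    rw [h]
    simp [← ofAdd_add]

/-- The lower left entry of the matrix of `iota x` is the `X`-exponent of the image of `Y`. -/
theorem entry (hM0 : StM0) (hM1 : StM1) (n : ℕ) (x z : FHat 2)
    (h : iota x * jH Y * (iota x)⁻¹ = jH z) :
    chi n z = Multiplicative.ofAdd ((MM n x).1 1 0) := by
  have key : ∀ x : FHat 2, x ∈ Prod.fst '' {q : FHat 2 × FHat 2 |
      iota q.1 * jH Y * (iota q.1)⁻¹ = jH q.2 ∧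
      chi n q.2 = Multiplicative.ofAdd ((MM n q.1).1 1 0)} := by
    refine fun x => hat_induction ?_ (fun k => ?_) x
    · refine (IsClosed.isCompact ?_).image continuous_fst |>.isClosed
      refine IsClosed.inter ?_ ?_
      · refine isClosed_eq ?_ ?_
        · exact ((iota.continuous_toFun.comp continuous_fst).mul continuous_const).mul
            (iota.continuous_toFun.comp continuous_fst).inv
        · exact jH.continuous_toFun.comp continuous_snd
      · have hh : {q : FHat 2 × FHat 2 | chi n q.2 = Multiplicative.ofAdd ((MM n q.1).1 1 0)} =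
            ⋃ c : ZMod (n + 1), ((MM n) ⁻¹' {A | A.1 1 0 = c}) ×ˢ
              ((chi n) ⁻¹' {Multiplicative.ofAdd c}) := by
          ext q
          simp only [Set.mem_ofPred_eq, Set.mem_iUnion, Set.mem_prod, Set.mem_preimage,
            Set.mem_singleton_iff]
          constructor
          · intro hq
            exact ⟨_, rfl, hq⟩
          · rintro ⟨c, h1, h2⟩
            rw [h2, h1]
        change IsClosed {q : FHat 2 × FHat 2 | chi n q.2 =
          Multiplicative.ofAdd ((MM n q.1).1 1 0)}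
        rw [hh]
        refine isClosed_iUnion_of_finite fun c => ?_
        exact (isClopen_lftF _ _).isClosed.prod (isClopen_lftF _ _).isClosed
    · have hB : iotaD k ∈ B3 := by
        have hr : (iotaD).range ≤ B3 := by
          rw [MonoidHom.range_eq_map, ← FreeGroup.closure_range_of, MonoidHom.map_closure,
            Subgroup.closure_le]
          rintro _ ⟨_, ⟨i, rfl⟩, rfl⟩
          fin_cases i
          · simp only [iotaD]
            show (FreeGroup.lift ![σ 0 ^ 2, σ 1 ^ 2]) (FreeGroup.of 0) ∈ B3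
            rw [FreeGroup.lift_apply_of]
            exact pow_mem (Subgroup.subset_closure (by simp)) 2
          · simp only [iotaD]
            show (FreeGroup.lift ![σ 0 ^ 2, σ 1 ^ 2]) (FreeGroup.of 1) ∈ B3
            rw [FreeGroup.lift_apply_of]
            exact pow_mem (Subgroup.subset_closure (by simp)) 2
        exact hr ⟨k, rfl⟩
      obtain ⟨w', hw'⟩ := hM0 (iotaD k) hB (FreeGroup.of 1)
      have h1 := hM1 k _ _ hw'
      refine ⟨(of k, of w'), ⟨?_, ?_⟩, rfl⟩
      · show iota (of k) * jH (of (FreeGroup.of 1)) * (iota (of k))⁻¹ = jH (of w')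
        rw [iota_of, jH_of, jH_of, ← map_inv, ← map_mul, ← map_mul]
        exact congrArg _ hw'
      · show chi n (of w') = Multiplicative.ofAdd ((MM n (of k)).1 1 0)
        rw [chi_of, MM_of, h1]
        congr 2
        have hv : vec (FreeGroup.of 1) = ![1, 0] := by simp [vec, vecH]
        rw [hv]
        simp [Matrix.mulVec, dotProduct, Fin.sum_univ_two]
  obtain ⟨⟨x', z'⟩, ⟨h1, h2⟩, h3⟩ := key x
  simp only at h1 h2 h3
  subst h3
  rw [h1] at h
  rw [← jH_inj h]
  exact h2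

/-- The permutations of the strands of `a` and of `b`. -/
def pa : Equiv.Perm (Fin 4) := permHom aD

def pb : Equiv.Perm (Fin 4) := permHom (aD⁻¹ * (σ 1 * aD * (σ 1)⁻¹))

theorem permHom_σ (i : Fin 3) : permHom (σ i) = Equiv.swap i.castSucc i.succ := brd_σ _ _

theorem pa_eq : pa = Equiv.swap 0 1 * (Equiv.swap 2 3)⁻¹ := by
  unfold pa aD
  rw [map_mul, map_inv, permHom_σ, permHom_σ]
  rfl

theorem pb_eq : pb = (Equiv.swap 0 1 * (Equiv.swap 2 3)⁻¹)⁻¹ * (Equiv.swap 1 2 *
    (Equiv.swap 0 1 * (Equiv.swap 2 3)⁻¹) * (Equiv.swap 1 2)⁻¹) := by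
  unfold pb aD
  simp only [map_mul, map_inv, permHom_σ]
  rfl

theorem perm_jH_Y : perm (jH Y) = pa := by
  rw [jH_Y]
  unfold pB
  rw [map_mul, map_inv, perm_zero, perm_two, pa_eq]

theorem perm_jH_X : perm (jH X) = pb := by
  rw [jH_X]
  unfold rB pB
  simp only [map_mul, map_inv, perm_zero, perm_one, perm_two, pb_eq]

/-- The value on a homology class modulo two. -/
def PH (x : Fin 2 → ZMod 2) : Equiv.Perm (Fin 4) := pa ^ (x 0).val * pb ^ (x 1).val

theorem PH_add (a b c d : ZMod 2) : PH ![a, b] * PH ![c, d] = PH ![a + c, b + d] := by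
  unfold PH
  rw [pa_eq, pb_eq]
  revert a b c d
  decide

theorem PH_inj (a b c d : ZMod 2) (h : PH ![a, b] = PH ![c, d]) : a = c ∧ b = d := by
  unfold PH at h
  rw [pa_eq, pb_eq] at h
  revert a b c d
  decide

theorem v4_fix (π : Equiv.Perm (Fin 4)) (h1 : Commute π pa) (h2 : Commute π pb) (h3 : π 3 = 3) :
    π = 1 := by
  have h1' : π * pa = pa * π := h1
  have h2' : π * pb = pb * π := h2
  rw [pa_eq] at h1'
  rw [pb_eq] at h2'
  have key : ∀ π : Equiv.Perm (Fin 4), π * (Equiv.swap 0 1 * (Equiv.swap 2 3)⁻¹) =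
      Equiv.swap 0 1 * (Equiv.swap 2 3)⁻¹ * π →
      π * ((Equiv.swap 0 1 * (Equiv.swap 2 3)⁻¹)⁻¹ * (Equiv.swap 1 2 *
        (Equiv.swap 0 1 * (Equiv.swap 2 3)⁻¹) * (Equiv.swap 1 2)⁻¹)) =
      (Equiv.swap 0 1 * (Equiv.swap 2 3)⁻¹)⁻¹ * (Equiv.swap 1 2 *
        (Equiv.swap 0 1 * (Equiv.swap 2 3)⁻¹) * (Equiv.swap 1 2)⁻¹) * π → π 3 = 3 → π = 1 := by
    decide
  exact key π h1' h2' h3

theorem perm_jD (w : F2) : permHom (jD w) = PH ![((vec w 0 : ℤ) : ZMod 2), ((vec w 1 : ℤ) : ZMod 2)] := by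
  induction w using FreeGroup.induction_on with
  | C1 =>
    rw [map_one, map_one]
    simp [vec, PH]
  | of i =>
    fin_cases i
    · show permHom (jD (FreeGroup.of 0)) = _
      have h : jD (FreeGroup.of 0) = aD⁻¹ * (σ 1 * aD * (σ 1)⁻¹) := by simp [jD]
      have hv : vec (FreeGroup.of 0) = ![0, 1] := by simp [vec, vecH]
      rw [h]
      show pb = PH ![((vec (FreeGroup.of 0) 0 : ℤ) : ZMod 2), ((vec (FreeGroup.of 0) 1 : ℤ) : ZMod 2)]
      rw [hv]
      simp [PH, ZMod.val_one]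
    · show permHom (jD (FreeGroup.of 1)) = _
      have h : jD (FreeGroup.of 1) = aD := by simp [jD]
      have hv : vec (FreeGroup.of 1) = ![1, 0] := by simp [vec, vecH]
      rw [h]
      show pa = PH ![((vec (FreeGroup.of 1) 0 : ℤ) : ZMod 2), ((vec (FreeGroup.of 1) 1 : ℤ) : ZMod 2)]
      rw [hv]
      simp [PH, ZMod.val_one]
  | inv_of i ih =>
    have hv : vec (FreeGroup.of i)⁻¹ = -vec (FreeGroup.of i) := by
      unfold vec
      rw [map_inv, toAdd_inv]
    rw [map_inv, map_inv, ih, hv]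
    rw [inv_eq_iff_mul_eq_one]
    rw [PH_add]
    simp only [Pi.neg_apply, Int.cast_neg, add_neg_cancel]
    simp [PH]
  | mul x y hx hy =>
    rw [map_mul, map_mul, hx, hy, PH_add]
    have hv : vec (x * y) = vec x + vec y := by
      unfold vec
      rw [map_mul, toAdd_mul]
    rw [hv]
    simp

theorem B3_fix {β : Braid4} (hβ : β ∈ B3) : permHom β 3 = 3 := by
  unfold B3 at hβ
  induction hβ using Subgroup.closure_induction with
  | mem x hx =>
    rcases hx with rfl | rfl
    · rw [permHom_σ]; decide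
    · rw [permHom_σ]; decide
  | one => rw [map_one]; rfl
  | mul x y _ _ hx hy => rw [map_mul, Equiv.Perm.mul_apply, hy, hx]
  | inv x _ hx => rw [map_inv, Equiv.Perm.inv_eq_iff_eq, hx]

/-- A discrete element of `B3` whose permutation centralises those of `a` and `b` is pure. -/
theorem pure_of (hM2 : StM2) {β : Braid4} (hβ : β ∈ B3) (h1 : Commute (permHom β) pa)
    (h2 : Commute (permHom β) pb) : ∃ (k : F2) (j : ℤ), β = iotaD k * zD ^ j := by
  have h3 : permHom β = 1 := v4_fix _ h1 h2 (B3_fix hβ)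
  refine hM2 β hβ fun w w' hw => ?_
  have h4 : permHom (jD w) = permHom (jD w') := by
    have := congrArg permHom hw
    rw [map_mul, map_mul, map_inv, h3, inv_one, mul_one, one_mul] at this
    exact this
  rw [perm_jD, perm_jD] at h4
  obtain ⟨h5, h6⟩ := PH_inj _ _ _ _ h4
  intro i
  fin_cases i
  · exact (ZMod.intCast_eq_intCast_iff_dvd_sub _ _ 2).1 h5
  · exact (ZMod.intCast_eq_intCast_iff_dvd_sub _ _ 2).1 h6

/-- Discrete pairs, with a partner in `B3`. -/
def PP (n : ℕ) : Set (FHat 2 × Hat Braid4) := {p | ∃ h : F2, ∃ β ∈ B3, p = (of h, of β) ∧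
  Rel n (of (iotaD h)) (of β)}

/-- Discrete pure triples. -/
def QQ (n : ℕ) : Set (FHat 2 × (FHat 2 × ZHat)) := {q | ∃ (h k : F2) (j : ℤ),
  q = (of h, (of k, zgen ^ j)) ∧ Rel n (of (iotaD h)) (of (iotaD k * zD ^ j))}

theorem exists_beta (hCN : StCN) (n : ℕ) (u : FHat 2) (hu : (MM n u).1 1 0 = 0) :
    ∃ b, (u, b) ∈ closure (PP n) := by
  have hcl : IsClosed (Prod.fst '' closure (PP n)) :=
    (isClosed_closure.isCompact.image continuous_fst).isClosed
  have hO : IsOpen {x : FHat 2 | (MM n x).1 1 0 = 0} :=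
    (isClopen_lftF _ {A : Matrix.SpecialLinearGroup (Fin 2) (ZMod (n + 1)) | A.1 1 0 = 0}).isOpen
  have h1 := (of_dense (Γ := F2)).open_subset_closure_inter hO
  have h2 : closure ({x : FHat 2 | (MM n x).1 1 0 = 0} ∩ Set.range (of : F2 → FHat 2)) ⊆
      Prod.fst '' closure (PP n) := by
    refine closure_minimal ?_ hcl
    rintro _ ⟨hx, ⟨k, rfl⟩⟩
    have hx' : (MM n (of k)).1 1 0 = 0 := hx
    rw [MM_of, ZMod.intCast_zmod_eq_zero_iff_dvd] at hx'
    obtain ⟨β, hβ, hr⟩ := hCN n k (by push_cast at hx'; exact hx')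
    exact ⟨(of k, of β), subset_closure ⟨k, β, hβ, rfl, hr⟩, rfl⟩
  obtain ⟨⟨x, b⟩, hb, hxu⟩ := h2 (h1 hu)
  simp only at hxu
  subst hxu
  exact ⟨b, hb⟩

theorem iso_surj (n : ℕ) (x : FHat 2) : ∃ w, isoMap n w = x := by
  have h : x ∈ (isoMap n).toMonoidHom.range := by
    have hx := ev_mem (v := (fun i => gen i : Fin 2 → FHat 2)) (S := (isoMap n).toMonoidHom.range)
      (isCompact_range (isoMap n).continuous_toFun).isClosed (fun i => by
        fin_cases i
        · exact ⟨g0 n, iso_g0⟩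
        · exact ⟨gy 0, by
            have := iso_gy (n := n) 0
            rw [if_pos rfl] at this
            exact this⟩) x
    rwa [ev_gen_self] at hx
  exact h

theorem comm_of_rel {n : ℕ} {g b b' : Hat Braid4} (h : Rel n g b) (h' : Rel n g b') (x : FHat 2) :
    Commute (b⁻¹ * b') (jH x) := by
  obtain ⟨w, rfl⟩ := iso_surj n x
  obtain ⟨w1, h1, h2⟩ := h w
  obtain ⟨w2, h3, h4⟩ := h' w
  have h5 : w1 = w2 := cov_inj (jH_inj (h1.symm.trans h3))
  subst h5
  have h6 : b * jH (isoMap n w) * b⁻¹ = b' * jH (isoMap n w) * b'⁻¹ := h2.trans h4.symm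
  show b⁻¹ * b' * jH (isoMap n w) = jH (isoMap n w) * (b⁻¹ * b')
  calc b⁻¹ * b' * jH (isoMap n w) = b⁻¹ * (b' * jH (isoMap n w) * b'⁻¹) * b' := by group
    _ = b⁻¹ * (b * jH (isoMap n w) * b⁻¹) * b' := by rw [h6]
    _ = jH (isoMap n w) * (b⁻¹ * b') := by group

theorem comm_cB_iota (x : FHat 2) : Commute cB (iota x) := by
  unfold iota
  refine commute_ev (fun i => ?_) x
  fin_cases i
  · exact comm_cB_zero.pow_right 2
  · exact comm_cB_one.pow_right 2

theorem pow_zp (g : Hat Braid4) (j : ℤ) : pow g (zgen ^ j) = g ^ j := by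
  unfold MPb66790.pow
  rw [map_zpow]
  congr 1
  exact pow_zgen g

theorem zhat_comm (g : Hat Braid4) (a b : ZHat) : Commute (pow g a) (pow g b) := by
  have h1 : Commute g (pow g a) := commute_pow (Commute.refl g) a
  exact commute_pow h1.symm b

theorem perm_iota (x : FHat 2) : perm (iota x) = 1 := perm_ev2_one (perm_sq 0) (perm_sq 1) x

theorem perm_cB : perm cB = 1 := by
  unfold cB
  rw [map_pow, map_mul, perm_zero, perm_one]
  decide

theorem perm_powcB (e : ZHat) : perm (pow cB e) = 1 := perm_ev_one (fun _ => perm_cB) e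

theorem matrix_zero (hM0 : StM0) (hM1 : StM1) {n : ℕ} {u : FHat 2} {g : Hat Braid4}
    (hrel : Rel n (iota u) g) : (MM n u).1 1 0 = 0 := by
  obtain ⟨w', h1, -⟩ := hrel (gy 0)
  have hY : covMap n (gy 0) = Y := by
    rw [cov_gy, ZMod.val_zero]
    group
  rw [hY] at h1
  have h2 := entry hM0 hM1 n u _ h1
  rw [chi_cov] at h2
  exact (Multiplicative.ofAdd.injective h2).symm

theorem rel_closure {n : ℕ} {p : FHat 2 × Hat Braid4} (hp : p ∈ closure (PP n)) :
    Rel n (iota p.1) p.2 := by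
  have hc : IsClosed ((fun p : FHat 2 × Hat Braid4 => ((iota p.1, p.2) : Hat Braid4 × Hat Braid4)) ⁻¹'
      {p : Hat Braid4 × Hat Braid4 | Rel n p.1 p.2}) :=
    (rel_closed n).preimage ((iota.continuous_toFun.comp continuous_fst).prodMk continuous_snd)
  have h1 : closure (PP n) ⊆
      ((fun p : FHat 2 × Hat Braid4 => ((iota p.1, p.2) : Hat Braid4 × Hat Braid4)) ⁻¹'
      {p : Hat Braid4 × Hat Braid4 | Rel n p.1 p.2}) := by
    refine closure_minimal ?_ hc
    rintro _ ⟨h, β, hβ, rfl, hr⟩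
    have h2 : Rel n (iota (of h)) (of β) := by
      rw [iota_of]
      exact hr
    exact h2
  exact h1 hp

/-- Elements whose permutation centralises those of `a` and `b`. -/
def WW : Set (Hat Braid4) := perm ⁻¹' {π | Commute π pa ∧ Commute π pb}

theorem WW_open : IsOpen WW := (isClopen_lftF _ _).isOpen

theorem mem_WW {b g : Hat Braid4} (hcomm : ∀ x, Commute (b⁻¹ * g) (jH x)) (hpg : perm g = 1) :
    b ∈ WW := by
  have hpb : ∀ x, Commute (perm b) (perm (jH x)) := by
    intro x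
    have h1 : perm (b⁻¹ * g) * perm (jH x) = perm (jH x) * perm (b⁻¹ * g) := by
      rw [← map_mul, ← map_mul, (hcomm x).eq]
    have h0 : perm (b⁻¹ * g) = (perm b)⁻¹ := by rw [map_mul, map_inv, hpg, mul_one]
    rw [h0] at h1
    have h2 : Commute (perm b)⁻¹ (perm (jH x)) := h1
    exact Commute.inv_left_iff.1 h2
  exact ⟨by rw [← perm_jH_Y]; exact hpb Y, by rw [← perm_jH_X]; exact hpb X⟩

/-- The map from triples to pairs. -/
noncomputable def GG (q : FHat 2 × (FHat 2 × ZHat)) : FHat 2 × Hat Braid4 :=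
  (q.1, iota q.2.1 * pow cB q.2.2)

theorem GG_cont : Continuous GG := by
  have h1 : Continuous (fun e : ZHat => pow cB e) := (ev (fun _ => cB)).continuous_toFun
  exact continuous_fst.prodMk
    ((iota.continuous_toFun.comp (continuous_fst.comp continuous_snd)).mul
      (h1.comp (continuous_snd.comp continuous_snd)))

theorem PP_GG (hM2 : StM2) {n : ℕ} {p : FHat 2 × Hat Braid4} (hp : p ∈ PP n) (hW : p.2 ∈ WW) :
    p ∈ GG '' QQ n := by
  obtain ⟨h, β, hβ, rfl, hr⟩ := hp
  have hW2 : Commute (perm (of β)) pa ∧ Commute (perm (of β)) pb := hW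
  have hpe : perm (of β) = permHom β := lftF_of _ _
  rw [hpe] at hW2
  obtain ⟨k, j, rfl⟩ := pure_of hM2 hβ hW2.1 hW2.2
  refine ⟨(of h, (of k, zgen ^ j)), ⟨h, k, j, rfl, hr⟩, ?_⟩
  unfold GG
  rw [map_mul, map_zpow, of_zD, ← iota_of, pow_zp]

theorem exists_triple (hM2 : StM2) {n : ℕ} {u : FHat 2} {b : Hat Braid4}
    (hb : (u, b) ∈ closure (PP n)) (hbW : b ∈ WW) :
    ∃ (v' : FHat 2) (e' : ZHat), (u, (v', e')) ∈ closure (QQ n) ∧ iota v' * pow cB e' = b := by
  have hop : IsOpen (Prod.snd ⁻¹' WW : Set (FHat 2 × Hat Braid4)) :=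
    WW_open.preimage continuous_snd
  have h1 : (u, b) ∈ closure ((Prod.snd ⁻¹' WW) ∩ PP n) := hop.inter_closure ⟨hbW, hb⟩
  have hcl : IsClosed (GG '' closure (QQ n)) := (isClosed_closure.isCompact.image GG_cont).isClosed
  have h2 : closure ((Prod.snd ⁻¹' WW) ∩ PP n) ⊆ GG '' closure (QQ n) := by
    refine closure_minimal ?_ hcl
    rintro p ⟨hp1, hp2⟩
    obtain ⟨q, hq, hqp⟩ := PP_GG hM2 hp2 hp1
    exact ⟨q, subset_closure hq, hqp⟩
  obtain ⟨⟨x, ⟨v', e'⟩⟩, hq, hqe⟩ := h2 h1
  have e1 : x = u := congrArg Prod.fst hqe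
  have e2 : iota v' * pow cB e' = b := congrArg Prod.snd hqe
  subst e1
  exact ⟨v', e', hq, e2⟩

theorem mem_R0 (hRM : StRM) {n : ℕ} {q : FHat 2 × (FHat 2 × ZHat)} (hq : q ∈ closure (QQ n)) :
    (q.1, q.2.1) ∈ R0 n := by
  unfold R0
  have hc : Continuous (fun q : FHat 2 × (FHat 2 × ZHat) => ((q.1, q.2.1) : FHat 2 × FHat 2)) :=
    continuous_fst.prodMk (continuous_fst.comp continuous_snd)
  have h1 := map_mem_closure (t := {p : FHat 2 × FHat 2 | ∃ h k : F2, SimP (dg n) h k ∧
    p = (of h, of k)}) hc hq (by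
      rintro _ ⟨h, k, j, rfl, hr⟩
      exact ⟨h, k, hRM n h k j hr, rfl⟩)
  exact h1

theorem alg (v v' : FHat 2) (e e' : ZHat) : (iota v' * pow cB e')⁻¹ * (iota v * pow cB e) =
    iota (v'⁻¹ * v) * pow cB (e'⁻¹ * e) := by
  have c1 : Commute (pow cB e') (iota v') := (commute_pow (comm_cB_iota v').symm e').symm
  have c2 : Commute (pow cB e') (iota v) := (commute_pow (comm_cB_iota v).symm e').symm
  have h2 : pow cB (e'⁻¹ * e) = (pow cB e')⁻¹ * pow cB e := by
    rw [pow_mul']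
    congr 1
    unfold MPb66790.pow
    rw [map_inv]
  rw [h2, map_mul, map_inv, mul_inv_rev]
  generalize pow cB e' = c at *
  generalize pow cB e = c' at *
  generalize iota v' = x at *
  generalize iota v = y at *
  have c3 : c⁻¹ * x⁻¹ = x⁻¹ * c⁻¹ := (c1.inv_inv).eq
  have c4 : c⁻¹ * y = y * c⁻¹ := (c2.inv_left).eq
  calc c⁻¹ * x⁻¹ * (y * c') = (c⁻¹ * x⁻¹) * y * c' := by group
    _ = x⁻¹ * (c⁻¹ * y) * c' := by rw [c3]; group
    _ = x⁻¹ * y * (c⁻¹ * c') := by rw [c4]; group

/-- Row CL. -/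
theorem stCl_32 (hCN : StCN) (hM0 : StM0) (hM1 : StM1) (hM2 : StM2) (hRM : StRM) (hF : StF) :
    StCl := by
  intro n u v e hrel
  obtain ⟨b, hb⟩ := exists_beta hCN n u (matrix_zero hM0 hM1 hrel)
  have hcomm := comm_of_rel (rel_closure hb) hrel
  have hpg : perm (iota v * pow cB e) = 1 := by
    rw [map_mul, perm_iota, perm_powcB, one_mul]
  obtain ⟨v', e', hq, hbe⟩ := exists_triple hM2 hb (mem_WW hcomm hpg)
  have hR := mem_R0 hRM hq
  have h3 : v'⁻¹ * v = 1 := by
    refine hF (v'⁻¹ * v) (e'⁻¹ * e) fun w => ?_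
    rw [← alg, hbe]
    exact hcomm w
  have h4 : v = v' := (inv_mul_eq_one.1 h3).symm
  rw [h4]
  exact hR

end MPb66790.HK24.Cl32
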