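import Pool.Agent.Lib.MP_b66790_nt.Hecke.Stmt24b
import Pool.Agent.Lib.MP_b66790_nt.ModD

/-!
# The action of the profinite Grothendieck-Teichmueller group on the profinite braid group
-/

namespace MPb66790.HK24

open MPb66790 MPb66790.CY24 Function

section gen

variable {G : Type} [Group G] [TopologicalSpace G] [IsTopologicalGroup G] [CompactSpace G]
  [TotallyDisconnectedSpace G]

theorem ev_mul_central {a b z w : G} (h1 : Commute z a) (h2 : Commute z b) (h3 : Commute w a)
    (h4 : Commute w b) (u : FHat 2) : ev ![a * z, b * w] u = ev ![a, b] u * ev ![z, w] u := by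
  have hc : ∀ u v : FHat 2, Commute (ev ![z, w] u) (ev ![a, b] v) := by
    intro u v
    refine commute_ev2 ?_ ?_ v
    · exact (commute_ev2 h1.symm h3.symm u).symm
    · exact (commute_ev2 h2.symm h4.symm u).symm
  let ψ : FHat 2 →* G := MonoidHom.mk' (fun u => ev ![a, b] u * ev ![z, w] u) (fun u v => by
    show ev ![a, b] (u * v) * ev ![z, w] (u * v) =
      ev ![a, b] u * ev ![z, w] u * (ev ![a, b] v * ev ![z, w] v)
    rw [map_mul, map_mul]
    calc ev ![a, b] u * ev ![a, b] v * (ev ![z, w] u * ev ![z, w] v)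
        = ev ![a, b] u * (ev ![a, b] v * ev ![z, w] u) * ev ![z, w] v := by group
      _ = ev ![a, b] u * (ev ![z, w] u * ev ![a, b] v) * ev ![z, w] v := by rw [(hc u v).eq]
      _ = _ := by group)
  refine FHat2_ext (φ := (ev ![a * z, b * w]).toMonoidHom) (ψ := ψ)
    (ev ![a * z, b * w]).continuous_toFun ?_ ?_ ?_ u
  · exact (ev ![a, b]).continuous_toFun.mul (ev ![z, w]).continuous_toFun
  · show ev ![a * z, b * w] X = ev ![a, b] X * ev ![z, w] X
    unfold X
    rw [ev_gen, ev_gen, ev_gen]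
    rfl
  · show ev ![a * z, b * w] Y = ev ![a, b] Y * ev ![z, w] Y
    unfold Y
    rw [ev_gen, ev_gen, ev_gen]
    rfl

theorem ev_central {f : FHat 2} (hf : f ∈ (commutator (FHat 2)).topologicalClosure)
    {a b z w : G} (h1 : Commute z a) (h2 : Commute z b) (h3 : Commute w a)
    (h4 : Commute w b) (h5 : Commute z w) : ev ![a * z, b * w] f = ev ![a, b] f := by
  rw [ev_mul_central h1 h2 h3 h4, ev_comm hf h5, mul_one]

theorem pow_inv24 (g : G) (e : ZHat) : pow g⁻¹ e = (pow g e)⁻¹ := by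
  have h : ∀ e, pow g⁻¹ e * pow g e = 1 := by
    intro e
    let ψ : ZHat →* G := MonoidHom.mk' (fun a => (pow g a)⁻¹) (fun a b => by
      show (pow g (a * b))⁻¹ = (pow g a)⁻¹ * (pow g b)⁻¹
      rw [pow_mul', mul_inv_rev]
      have hc : Commute (pow g a) (pow g b) := commute_pow (commute_pow (Commute.refl g) a).symm b
      exact (hc.inv_inv).eq.symm)
    have h1 : pow g⁻¹ e = ψ e := by
      refine ev_hom_ext (φ := (ev (fun _ : Fin 1 => g⁻¹)).toMonoidHom) (ψ := ψ)
        (ev (fun _ : Fin 1 => g⁻¹)).continuous_toFun ?_ (fun i => ?_) e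
      · exact (ev (fun _ : Fin 1 => g)).continuous_toFun.inv
      · show ev (fun _ : Fin 1 => g⁻¹) (gen i) = (ev (fun _ : Fin 1 => g) (gen i))⁻¹
        rw [ev_gen, ev_gen]
    rw [h1]
    show (pow g e)⁻¹ * pow g e = 1
    group
  exact eq_inv_of_mul_eq_one_left (h e)

theorem pow_mul_comm24 {x y : G} (hxy : Commute x y) (e : ZHat) :
    pow (x * y) e = pow x e * pow y e := by
  have hcc : ∀ a b : ZHat, Commute (pow x a) (pow y b) := fun a b =>
    commute_pow (commute_pow hxy.symm a).symm b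
  let ψ : ZHat →* G := MonoidHom.mk' (fun a => pow x a * pow y a) (fun a b => by
    show pow x (a * b) * pow y (a * b) = pow x a * pow y a * (pow x b * pow y b)
    rw [pow_mul', pow_mul']
    calc pow x a * pow x b * (pow y a * pow y b)
        = pow x a * (pow x b * pow y a) * pow y b := by group
      _ = pow x a * (pow y a * pow x b) * pow y b := by rw [(hcc b a).eq]
      _ = _ := by group)
  refine ev_hom_ext (φ := (ev (fun _ : Fin 1 => x * y)).toMonoidHom) (ψ := ψ)
    (ev (fun _ : Fin 1 => x * y)).continuous_toFun ?_ (fun i => ?_) e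
  · exact (ev (fun _ : Fin 1 => x)).continuous_toFun.mul
      (ev (fun _ : Fin 1 => y)).continuous_toFun
  · show ev (fun _ : Fin 1 => x * y) (gen i) = ev (fun _ : Fin 1 => x) (gen i) *
      ev (fun _ : Fin 1 => y) (gen i)
    rw [ev_gen, ev_gen, ev_gen]

/-- The hexagon in a group with a braid relation. -/
theorem hex {lam : ZHat} {f : FHat 2} (h : IsGT lam f) {a b : G} (hb : a * b * a = b * a * b)
    {m : ZHat} (hm : lam = zgen * m * m) (h3' : ThreeCycle m f) :
    pow a lam * ((ev ![a ^ 2, b ^ 2] f)⁻¹ * pow b lam * ev ![a ^ 2, b ^ 2] f) * pow a lam =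
      a * b * a * pow ((a * b) ^ 3) m * ev ![a ^ 2, b ^ 2] f := by
  have htwo : ev ![X, Y] f * ev ![Y, X] f = 1 := h.two
  have h3 : ev ![Z, X] f * pow Z m * ev ![Y, Z] f * pow Y m * ev ![X, Y] f * pow X m = 1 := h3'
  set x := a ^ 2 with hx
  set y := b ^ 2 with hy
  set ζ := (a * b) ^ 3 with hζ
  set A := ev ![x, y] f with hA
  set z := (x * y)⁻¹ with hz
  have cza : Commute ζ a := comm_cube_aux hb
  have czb : Commute ζ b := comm_cube_aux' hb
  have czx : Commute ζ x := cza.pow_right 2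
  have czy : Commute ζ y := czb.pow_right 2
  have eX : ev ![x, y] X = x := ev_gen _ _
  have eY : ev ![x, y] Y = y := ev_gen _ _
  have eZ : ev ![x, y] Z = z := by
    unfold Z
    rw [map_inv, map_mul, eX, eY]
  have h4 := congrArg (ev ![x, y]) h3
  simp only [map_mul, map_one, map_pow', map_ev2, eX, eY, eZ] at h4
  rw [← hA] at h4
  have e1 : ev ![y, z] f = (ev ![z, y] f)⁻¹ := ev_two htwo z y
  have e2 : ev ![z, x] f = (ev ![x, z] f)⁻¹ := ev_two htwo x z
  rw [e1, e2] at h4
  have h5 : pow y m * A * pow x m = ev ![z, y] f * (pow z m)⁻¹ * ev ![x, z] f := by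
    have h6 : ((ev ![x, z] f)⁻¹ * pow z m * (ev ![z, y] f)⁻¹) * (pow y m * A * pow x m) = 1 := by
      rw [← h4]
      group
    rw [eq_inv_of_mul_eq_one_right h6]
    group
  have g1 : b * z * b⁻¹ = x * ζ⁻¹ := by
    have e : ζ * x⁻¹ = b * (x * y) * b⁻¹ := by
      rw [mul_inv_eq_iff_eq_mul, hζ, hx, hy, cube_eq]
      calc a * b * a * (b * a * b) = b * a * b * (a * b * a) := by rw [← hb]
        _ = b * a * (b * a * b) * a := by group
        _ = b * a * (a * b * a) * a := by rw [hb]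
        _ = b * (a ^ 2 * b ^ 2) * b⁻¹ * a ^ 2 := by
            simp only [pow_two]
            group
    have e' := congrArg (·⁻¹) e
    simp only [mul_inv_rev, inv_inv] at e'
    rw [e', hz]
    group
  have g2 : a⁻¹ * z * a = y * ζ⁻¹ := by
    have e : ζ * y⁻¹ = a⁻¹ * (x * y) * a := by
      rw [mul_inv_eq_iff_eq_mul, hζ, hx, hy, cube_eq]
      calc a * b * a * (b * a * b) = a * b * (a * b * a) * b := by group
        _ = a * b * (b * a * b) * b := by rw [hb]
        _ = a⁻¹ * (a ^ 2 * b ^ 2) * a * b ^ 2 := by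
            simp only [pow_two]
            group
    have e' := congrArg (·⁻¹) e
    simp only [mul_inv_rev, inv_inv] at e'
    rw [e', hz]
    group
  have g3 : x * (b * a) = b * a * y := by
    rw [hx, hy]
    calc a ^ 2 * (b * a) = a * (a * b * a) := by
            simp only [pow_two]
            group
      _ = a * (b * a * b) := by rw [hb]
      _ = (a * b * a) * b := by group
      _ = (b * a * b) * b := by rw [hb]
      _ = b * a * b ^ 2 := by
            simp only [pow_two]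
            group
  have c1 : b * ev ![z, y] f = A * b := by
    refine mul_inv_eq_iff_eq_mul.1 ?_
    rw [conj_ev2, g1]
    have e : b * y * b⁻¹ = y * 1 := by
      rw [hy]
      group
    rw [e]
    exact ev_central h.comm czx.inv_left czy.inv_left (Commute.one_left _) (Commute.one_left _)
      (Commute.one_right _)
  have c2 : ev ![x, z] f * a = a * A := by
    have e0 := conj_ev2 a⁻¹ x z f
    rw [inv_inv, g2] at e0
    have e : a⁻¹ * x * a = x * 1 := by
      rw [hx]
      group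
    rw [e] at e0
    have e1 : ev ![x * 1, y * ζ⁻¹] f = A :=
      ev_central h.comm (Commute.one_left _) (Commute.one_left _) czx.inv_left czy.inv_left
        (Commute.one_left _)
    rw [e1] at e0
    rw [← e0]
    group
  have c3 : (pow z m)⁻¹ * a = a * ((pow y m)⁻¹ * pow ζ m) := by
    have e0 := conj_pow' a⁻¹ z m
    rw [inv_inv, g2, pow_mul_comm24 czy.symm.inv_right, pow_inv24 ζ m] at e0
    have e1 : (pow z m)⁻¹ * a = a * (a⁻¹ * pow z m * a)⁻¹ := by group
    rw [e1, e0]
    have cc' : Commute (pow ζ m) (pow y m) := commute_pow (commute_pow czy.symm m).symm m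
    rw [mul_inv_rev, inv_inv]
    exact congrArg (a * ·) cc'.inv_right.eq
  have c4 : pow x m * (b * a) = b * a * pow y m := by
    have e0 := conj_pow' (b * a)⁻¹ x m
    have e1 : (b * a)⁻¹ * x * (b * a)⁻¹⁻¹ = y := by
      rw [inv_inv, mul_assoc, g3]
      group
    rw [e1] at e0
    rw [← e0]
    group
  have p1 : pow a lam = a * pow x m := by
    rw [hm, pow_lam, hx, pow_sq]
    group
  have p2 : pow a lam = pow x m * a := by
    rw [p1]
    exact (commute_pow ((Commute.refl a).pow_right 2) m).eq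
  have p3 : pow b lam = b * pow y m := by
    rw [hm, pow_lam, hy, pow_sq]
    group
  calc pow a lam * (A⁻¹ * pow b lam * A) * pow a lam
      = a * pow x m * (A⁻¹ * (b * pow y m) * A) * (pow x m * a) := by rw [← p1, ← p2, ← p3]
    _ = a * pow x m * A⁻¹ * b * (pow y m * A * pow x m) * a := by group
    _ = a * pow x m * A⁻¹ * (b * ev ![z, y] f) * (pow z m)⁻¹ * (ev ![x, z] f * a) := by
        rw [h5]
        group
    _ = a * pow x m * b * ((pow z m)⁻¹ * a) * A := by
        rw [c1, c2]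
        group
    _ = a * (pow x m * (b * a)) * (pow y m)⁻¹ * pow ζ m * A := by
        rw [c3]
        group
    _ = a * b * a * pow ζ m * A := by
        rw [c4]
        group

theorem conj_eta {lam : ZHat} {f : FHat 2} (h : IsGT lam f) {a b : G}
    (hb : a * b * a = b * a * b) :
    (ev ![a ^ 2, b ^ 2] f)⁻¹ * (a * b * a) = a * b * a * ev ![a ^ 2, b ^ 2] f := by
  have e : a * b * a * ev ![a ^ 2, b ^ 2] f * (a * b * a)⁻¹ = (ev ![a ^ 2, b ^ 2] f)⁻¹ := by
    have e1 : (a * b * a) * a ^ 2 * (a * b * a)⁻¹ = b ^ 2 := by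
      have e3 : (a * b * a) * a * (a * b * a)⁻¹ = b := by
        rw [mul_inv_eq_iff_eq_mul, hb]
        simp only [mul_assoc]
        rw [← mul_assoc a b a, hb]
        simp only [mul_assoc]
      rw [← conj_pow, e3]
    have e2 : (a * b * a) * b ^ 2 * (a * b * a)⁻¹ = a ^ 2 := by
      have e3 : (a * b * a) * b * (a * b * a)⁻¹ = a := by
        rw [mul_inv_eq_iff_eq_mul]
        simp only [mul_assoc]
        rw [← mul_assoc b a b, ← hb]
        simp only [mul_assoc]
      rw [← conj_pow, e3]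
    rw [conj_ev2, e1, e2]
    exact ev_two h.two _ _
  rw [← e]
  group

theorem hex' {lam : ZHat} {f : FHat 2} (h : IsGT lam f) {a b : G} (hb : a * b * a = b * a * b)
    {m : ZHat} (hm : lam = zgen * m * m) (h3' : ThreeCycle m f) :
    ((ev ![a ^ 2, b ^ 2] f)⁻¹ * pow b lam * ev ![a ^ 2, b ^ 2] f) * pow a lam *
      ((ev ![a ^ 2, b ^ 2] f)⁻¹ * pow b lam * ev ![a ^ 2, b ^ 2] f) =
      (ev ![a ^ 2, b ^ 2] f)⁻¹ * (a * b * a) * pow ((a * b) ^ 3) m := by
  have e1 := hex h hb.symm hm h3'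
  have e2 : ev ![b ^ 2, a ^ 2] f = (ev ![a ^ 2, b ^ 2] f)⁻¹ := ev_two h.two _ _
  rw [e2, inv_inv] at e1
  have e3 : (b * a) ^ 3 = (a * b) ^ 3 := by
    rw [cube_eq, cube_eq, hb]
  rw [e3, ← hb] at e1
  set A := ev ![a ^ 2, b ^ 2] f
  calc (A⁻¹ * pow b lam * A) * pow a lam * (A⁻¹ * pow b lam * A)
      = A⁻¹ * (pow b lam * (A * pow a lam * A⁻¹) * pow b lam) * A := by group
    _ = _ := by
        rw [e1]
        group

/-- The braid relation of the images. -/
theorem hexBraid {lam : ZHat} {f : FHat 2} (h : IsGT lam f) {a b : G}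
    (hb : a * b * a = b * a * b) :
    pow a lam * ((ev ![a ^ 2, b ^ 2] f)⁻¹ * pow b lam * ev ![a ^ 2, b ^ 2] f) * pow a lam =
    ((ev ![a ^ 2, b ^ 2] f)⁻¹ * pow b lam * ev ![a ^ 2, b ^ 2] f) * pow a lam *
      ((ev ![a ^ 2, b ^ 2] f)⁻¹ * pow b lam * ev ![a ^ 2, b ^ 2] f) := by
  obtain ⟨m, hm, h3⟩ := h.three
  rw [hex h hb hm h3, hex' h hb hm h3, conj_eta h hb]
  have cz : Commute (pow ((a * b) ^ 3) m) (ev ![a ^ 2, b ^ 2] f) := by
    refine (commute_pow ?_ m).symm
    exact (commute_ev2 ((comm_cube_aux hb).pow_right 2) ((comm_cube_aux' hb).pow_right 2) f).symm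
  rw [mul_assoc (a * b * a), cz.eq, ← mul_assoc]

/-- The image of the full twist. -/
theorem hexCube {lam : ZHat} {f : FHat 2} (h : IsGT lam f) {a b : G}
    (hb : a * b * a = b * a * b) :
    (pow a lam * ((ev ![a ^ 2, b ^ 2] f)⁻¹ * pow b lam * ev ![a ^ 2, b ^ 2] f)) ^ 3 =
      pow ((a * b) ^ 3) lam := by
  obtain ⟨m, hm, h3⟩ := h.three
  rw [cube_eq, hex h hb hm h3, hex' h hb hm h3, hm, pow_lam]
  set A := ev ![a ^ 2, b ^ 2] f
  have cz : ∀ g, Commute ((a * b) ^ 3) g → Commute (pow ((a * b) ^ 3) m) g :=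
    fun g hg => (commute_pow hg.symm m).symm
  have c1 : Commute ((a * b) ^ 3) (a * b * a) :=
    ((comm_cube_aux hb).mul_right (comm_cube_aux' hb)).mul_right (comm_cube_aux hb)
  have e1 : (a * b * a) * (a * b * a) = (a * b) ^ 3 := by
    rw [cube_eq, ← hb]
  calc a * b * a * pow ((a * b) ^ 3) m * A * (A⁻¹ * (a * b * a) * pow ((a * b) ^ 3) m)
      = a * b * a * (pow ((a * b) ^ 3) m * (a * b * a)) * pow ((a * b) ^ 3) m := by group
    _ = (a * b * a) * (a * b * a) * pow ((a * b) ^ 3) m * pow ((a * b) ^ 3) m := by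
        rw [(cz _ c1).eq]
        group
    _ = _ := by rw [e1]

end gen

variable {lam : ZHat} {f : FHat 2}

theorem hAinv (h : IsGT lam f) : fh f * (fA f)⁻¹ = (fP f)⁻¹ * fQ f * fR f := by
  have e := congrArg (·⁻¹) (pentagon h)
  simp only [mul_inv_rev, inv_inv] at e
  calc fh f * (fA f)⁻¹ = fh f * ((fA f)⁻¹ * (fR f)⁻¹) * fR f := by group
    _ = _ := by rw [e]

theorem comm_fR_one : Commute (fR f) (s 1) :=
  (commute_ev2 comm_cB_one.symm comm_dB_one.symm f).symm

theorem comm_fP_two : Commute (fP f) (s 2) :=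
  (commute_ev2 (comm_zero_two.symm.pow_right 2) comm_dB_two.symm f).symm

theorem comm_fh_zero : Commute (fh f) (s 0) :=
  (commute_ev2 comm_cB_zero.symm (comm_zero_two.pow_right 2) f).symm

theorem isBraid_Phi (h : IsGT lam f) :
    IsBraid ![pow (s 0) lam, (fA f)⁻¹ * pow (s 1) lam * fA f,
      (fh f)⁻¹ * pow (s 2) lam * fh f] := by
  obtain ⟨h1, h2, h3⟩ := isBraid_s
  refine ⟨hexBraid h h1, ?_, ?_⟩
  · show (fA f)⁻¹ * pow (s 1) lam * fA f * ((fh f)⁻¹ * pow (s 2) lam * fh f) *
      ((fA f)⁻¹ * pow (s 1) lam * fA f) =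
      (fh f)⁻¹ * pow (s 2) lam * fh f * ((fA f)⁻¹ * pow (s 1) lam * fA f) *
      ((fh f)⁻¹ * pow (s 2) lam * fh f)
    have e1 := hexBraid h h2.symm
    have e2 : ev ![s 2 ^ 2, s 1 ^ 2] f = (fQ f)⁻¹ := ev_two h.two _ _
    rw [e2, inv_inv] at e1
    -- conjugation by `P h`
    have k1 : (fA f)⁻¹ * pow (s 1) lam * fA f =
        (fP f * fh f)⁻¹ * (fQ f * pow (s 1) lam * (fQ f)⁻¹) * (fP f * fh f) := by
      have r1 : fR f * pow (s 1) lam * (fR f)⁻¹ = pow (s 1) lam := by
        rw [(commute_pow comm_fR_one lam).eq]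
        group
      have r2 : (fA f)⁻¹ = (fh f)⁻¹ * (fP f)⁻¹ * fQ f * fR f := by
        calc (fA f)⁻¹ = (fh f)⁻¹ * (fh f * (fA f)⁻¹) := by group
          _ = _ := by
            rw [hAinv h]
            group
      calc (fA f)⁻¹ * pow (s 1) lam * fA f
          = ((fh f)⁻¹ * (fP f)⁻¹ * fQ f * fR f) * pow (s 1) lam *
            ((fh f)⁻¹ * (fP f)⁻¹ * fQ f * fR f)⁻¹ := by rw [← r2, inv_inv]
        _ = (fP f * fh f)⁻¹ * (fQ f * (fR f * pow (s 1) lam * (fR f)⁻¹) * (fQ f)⁻¹) *
            (fP f * fh f) := by group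
        _ = _ := by rw [r1]
    have k2 : (fh f)⁻¹ * pow (s 2) lam * fh f =
        (fP f * fh f)⁻¹ * pow (s 2) lam * (fP f * fh f) := by
      have r1 : (fP f)⁻¹ * pow (s 2) lam * fP f = pow (s 2) lam := by
        rw [mul_assoc, ← (commute_pow comm_fP_two lam).eq]
        group
      calc (fh f)⁻¹ * pow (s 2) lam * fh f
          = (fh f)⁻¹ * ((fP f)⁻¹ * pow (s 2) lam * fP f) * fh f := by rw [r1]
        _ = _ := by group
    rw [k1, k2]
    have e3 := congrArg (fun t => (fP f * fh f)⁻¹ * t * (fP f * fh f)) e1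
    set g := fP f * fh f
    set u := fQ f * pow (s 1) lam * (fQ f)⁻¹
    set v := pow (s 2) lam
    calc g⁻¹ * u * g * (g⁻¹ * v * g) * (g⁻¹ * u * g) = g⁻¹ * (u * v * u) * g := by group
      _ = g⁻¹ * (v * u * v) * g := by rw [← e3]
      _ = _ := by group
  · show pow (s 0) lam * ((fh f)⁻¹ * pow (s 2) lam * fh f) =
      (fh f)⁻¹ * pow (s 2) lam * fh f * pow (s 0) lam
    have c1 : Commute (pow (s 0) lam) (fh f) := (commute_pow comm_fh_zero lam).symm
    have c2 : Commute (pow (s 0) lam) (pow (s 2) lam) :=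
      commute_pow (commute_pow comm_zero_two.symm lam).symm lam
    exact ((c1.inv_right.mul_right c2).mul_right c1).eq

/-- The automorphism of the profinite braid group attached to `(lam, f)`. -/
noncomputable def Phi (h : IsGT lam f) : Hat Braid4 →ₜ* Hat Braid4 := evB (isBraid_Phi h)

theorem Phi_zero (h : IsGT lam f) : Phi h (s 0) = pow (s 0) lam := evB_s _ _

theorem Phi_one (h : IsGT lam f) : Phi h (s 1) = (fA f)⁻¹ * pow (s 1) lam * fA f := evB_s _ _

theorem Phi_two (h : IsGT lam f) : Phi h (s 2) = (fh f)⁻¹ * pow (s 2) lam * fh f := evB_s _ _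

theorem Phi_cB (h : IsGT lam f) : Phi h cB = pow cB lam := by
  unfold cB
  rw [map_pow, map_mul, Phi_zero, Phi_one]
  exact hexCube h isBraid_s.1

theorem Phi_iota (h : IsGT lam f) (u : FHat 2) : Phi h (iota u) = iota (phi lam f u) := by
  refine FHat2_ext (φ := (Phi h).toMonoidHom.comp iota.toMonoidHom)
    (ψ := iota.toMonoidHom.comp (phi lam f).toMonoidHom)
    ((Phi h).continuous_toFun.comp iota.continuous_toFun)
    (iota.continuous_toFun.comp (phi lam f).continuous_toFun) ?_ ?_ u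
  · show Phi h (iota X) = iota (phi lam f X)
    have e : iota X = s 0 ^ 2 := ev_gen _ _
    rw [phi_X, map_pow', e, map_pow, Phi_zero, pow_sq, pow_two]
  · show Phi h (iota Y) = iota (phi lam f Y)
    have e : iota Y = s 1 ^ 2 := ev_gen _ _
    have e' : iota f = fA f := rfl
    rw [phi_Y, map_mul, map_mul, map_inv, map_pow', e, e', map_pow, Phi_one, pow_sq, pow_two]
    group

theorem rho_Phi (h : IsGT lam f) (g : Hat Braid4) : rho (Phi h g) = Phi h (rho g) := by
  refine braid_ext (φ := rho.toMonoidHom.comp (Phi h).toMonoidHom)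
    (ψ := (Phi h).toMonoidHom.comp rho.toMonoidHom)
    (rho.continuous_toFun.comp (Phi h).continuous_toFun)
    ((Phi h).continuous_toFun.comp rho.continuous_toFun) (fun i => ?_) g
  show rho (Phi h (s i)) = Phi h (rho (s i))
  fin_cases i
  · show rho (Phi h (s 0)) = Phi h (rho (s 0))
    rw [Phi_zero, rho_zero, Phi_zero, map_pow', rho_zero]
  · show rho (Phi h (s 1)) = Phi h (rho (s 1))
    rw [Phi_one, rho_one, Phi_one, map_mul, map_mul, map_inv, map_pow', rho_one]
    have e : rho (fA f) = fA f := by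
      unfold fA
      rw [map_ev2, map_pow, map_pow, rho_zero, rho_one]
    rw [e]
  · show rho (Phi h (s 2)) = Phi h (rho (s 2))
    rw [Phi_two, rho_two, Phi_zero, map_mul, map_mul, map_inv, map_pow', rho_two]
    have e : rho (fh f) = 1 := by
      unfold fh
      rw [map_ev2, rho_cB, map_pow, rho_two]
      exact ev_comm h.comm (comm_cB_zero.pow_right 2)
    rw [e]
    group

/-- `Φ` and the words in `ζ, σ₃²`. -/
theorem Phi_c2 (h : IsGT lam f) (u : FHat 2) :
    Phi h (ev ![cB, s 2 ^ 2] u) = ev ![cB, s 2 ^ 2] (phi lam f u) := by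
  refine FHat2_ext (φ := (Phi h).toMonoidHom.comp (ev ![cB, s 2 ^ 2]).toMonoidHom)
    (ψ := (ev ![cB, s 2 ^ 2]).toMonoidHom.comp (phi lam f).toMonoidHom)
    ((Phi h).continuous_toFun.comp (ev ![cB, s 2 ^ 2]).continuous_toFun)
    ((ev ![cB, s 2 ^ 2]).continuous_toFun.comp (phi lam f).continuous_toFun) ?_ ?_ u
  · show Phi h (ev ![cB, s 2 ^ 2] X) = ev ![cB, s 2 ^ 2] (phi lam f X)
    have e : ev ![cB, s 2 ^ 2] X = cB := ev_gen _ _
    rw [phi_X, map_pow', e, Phi_cB]
  · show Phi h (ev ![cB, s 2 ^ 2] Y) = ev ![cB, s 2 ^ 2] (phi lam f Y)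
    have e : ev ![cB, s 2 ^ 2] Y = s 2 ^ 2 := ev_gen _ _
    have e' : ev ![cB, s 2 ^ 2] f = fh f := rfl
    rw [phi_Y, map_mul, map_mul, map_inv, map_pow', e, e', map_pow, Phi_two, pow_sq, pow_two]
    group

theorem Phi_surj (h : IsGT lam f) : Surjective (Phi h) := by
  obtain ⟨mu, hmu⟩ := h.unit
  obtain ⟨g, hg⟩ := h.bij.2 f
  have hcl : IsClosed ((Phi h).toMonoidHom.range : Set (Hat Braid4)) := by
    rw [MonoidHom.coe_range]
    exact (isCompact_range (Phi h).continuous_toFun).isClosed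
  have pl : ∀ t : Hat Braid4, pow (pow t lam) mu = t := by
    intro t
    rw [pow_pow, hmu, pow_zgen]
  have key : ∀ x, x ∈ (Phi h).toMonoidHom.range := by
    refine braid_mem hcl (fun i => ?_)
    fin_cases i
    · refine ⟨pow (s 0) mu, ?_⟩
      show Phi h (pow (s 0) mu) = s 0
      rw [map_pow', Phi_zero, pl]
    · refine ⟨iota g * pow (s 1) mu * (iota g)⁻¹, ?_⟩
      show Phi h (iota g * pow (s 1) mu * (iota g)⁻¹) = s 1
      have e' : iota f = fA f := rfl
      have e2 : (fA f)⁻¹ * pow (s 1) lam * fA f = (fA f)⁻¹ * pow (s 1) lam * (fA f)⁻¹⁻¹ := by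
        rw [inv_inv]
      rw [map_mul, map_mul, map_inv, map_pow', Phi_one, Phi_iota, hg, e', e2, ← conj_pow', pl]
      group
    · refine ⟨ev ![cB, s 2 ^ 2] g * pow (s 2) mu * (ev ![cB, s 2 ^ 2] g)⁻¹, ?_⟩
      show Phi h (ev ![cB, s 2 ^ 2] g * pow (s 2) mu * (ev ![cB, s 2 ^ 2] g)⁻¹) = s 2
      have e' : ev ![cB, s 2 ^ 2] f = fh f := rfl
      have e2 : (fh f)⁻¹ * pow (s 2) lam * fh f = (fh f)⁻¹ * pow (s 2) lam * (fh f)⁻¹⁻¹ := by
        rw [inv_inv]
      rw [map_mul, map_mul, map_inv, map_pow', Phi_two, Phi_c2, hg, e', e2, ← conj_pow', pl]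
      group
  intro x
  exact key x

/-- The profinite braid group is Hopfian. -/
theorem hopf24 (Φ : Hat Braid4 →ₜ* Hat Braid4) (hs : Surjective Φ) : Injective Φ := by
  rw [injective_iff_map_eq_one]
  intro x hx
  refine eq_of_forall fun Q _ _ φ => ?_
  have hfin : Finite (Braid4 →* Q) := by
    refine Finite.of_injective (fun (φ : Braid4 →* Q) (i : Fin 3) => φ (σ i)) ?_
    intro φ ψ h
    exact braid_hom_ext fun i => congrFun h i
  let F : (Braid4 →* Q) → (Braid4 →* Q) := fun φ => ((lftF φ).comp Φ.toMonoidHom).comp of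
  have hF : ∀ (φ : Braid4 →* Q) (y : Hat Braid4), lftF (F φ) y = lftF φ (Φ y) := by
    intro φ
    refine hatF_ext (φ := lftF (F φ)) (ψ := (lftF φ).comp Φ.toMonoidHom)
      (fun S => (isClopen_lftF _ S).isClosed) (fun S => ?_) (fun g => ?_)
    · exact (isClopen_lftF φ S).isClosed.preimage Φ.continuous_toFun
    · rw [lftF_of]
      rfl
  have hinj : Injective F := by
    intro φ ψ h
    refine DFunLike.ext _ _ fun g => ?_
    obtain ⟨y, hy⟩ := hs (of g)
    have e1 := hF φ y
    have e2 := hF ψ y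
    rw [hy, lftF_of] at e1 e2
    rw [← e1, ← e2, h]
  obtain ⟨ψ, hψ⟩ := (Finite.injective_iff_surjective.1 hinj) φ
  rw [← hψ, hF, hx, map_one, map_one]

theorem Phi_bij (h : IsGT lam f) : Bijective (Phi h) := ⟨hopf24 _ (Phi_surj h), Phi_surj h⟩

end MPb66790.HK24
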