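import Pool.Agent.Lib.MP_b66790_nt.Hecke.F67
import Pool.Agent.Lib.MP_b66790_nt.Hecke.Phi24
import Pool.Agent.Lib.MP_b66790_nt.CY.Fin24

/-!
# Row T: the automorphism on the kernel of `rho`
-/

namespace MPb66790.HK24

open MPb66790 MPb66790.CY24 Function

namespace T51

section jH

theorem jH_eq (w : FHat 2) : jH w = jMap (ev ![X⁻¹ * Y, X] w) := by
  rw [map_ev]
  unfold jH
  congr 2
  funext i
  fin_cases i
  · show pB⁻¹ * rB = jMap (X⁻¹ * Y)
    rw [map_mul, map_inv]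
    unfold jMap X Y
    rw [ev_gen, ev_gen]
    rfl
  · show pB = jMap X
    unfold jMap X
    rw [ev_gen]
    rfl

theorem ev_inj (w : FHat 2) : ev ![Y, Y * X] (ev ![X⁻¹ * Y, X] w) = w := by
  refine FHat2_ext (φ := (ev ![Y, Y * X]).toMonoidHom.comp (ev ![X⁻¹ * Y, X]).toMonoidHom)
    (ψ := MonoidHom.id _)
    ((ev ![Y, Y * X]).continuous_toFun.comp (ev ![X⁻¹ * Y, X]).continuous_toFun)
    continuous_id ?_ ?_ w
  · show ev ![Y, Y * X] (ev ![X⁻¹ * Y, X] X) = X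
    have e1 : (ev ![X⁻¹ * Y, X] : FHat 2 →ₜ* FHat 2) X = X⁻¹ * Y := ev_gen _ 0
    have e2 : (ev ![Y, Y * X] : FHat 2 →ₜ* FHat 2) X = Y := ev_gen _ 0
    have e3 : (ev ![Y, Y * X] : FHat 2 →ₜ* FHat 2) Y = Y * X := ev_gen _ 1
    rw [e1, map_mul, map_inv, e2, e3]
    group
  · show ev ![Y, Y * X] (ev ![X⁻¹ * Y, X] Y) = Y
    have e1 : (ev ![X⁻¹ * Y, X] : FHat 2 →ₜ* FHat 2) Y = X := ev_gen _ 1
    have e2 : (ev ![Y, Y * X] : FHat 2 →ₜ* FHat 2) X = Y := ev_gen _ 0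
    rw [e1, e2]

theorem jH_inj : Injective jH := by
  intro v w h
  rw [jH_eq, jH_eq] at h
  have h1 := stD1 h
  rw [← ev_inj v, ← ev_inj w, h1]

theorem jH_surj {g : Hat Braid4} (h : rho g = 1) : ∃ w, jH w = g := by
  obtain ⟨w, hw⟩ := stD2 g h
  exact ⟨_, (jMap_eq w).symm.trans hw⟩

theorem rho_jH (w : FHat 2) : rho (jH w) = 1 := by
  rw [jH_eq, rho_jMap]

theorem jH_pow (w : FHat 2) (e : ZHat) : jH (pow w e) = pow (jH w) e := map_pow' _ _ _

end jH

section conj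

/-- The action of `σ₁`. -/
theorem c0_Y : s 0 * jH Y * (s 0)⁻¹ = jH Y := by
  rw [jH_Y]
  unfold pB
  have e : s 0 * (s 2)⁻¹ = (s 2)⁻¹ * s 0 := (comm_zero_two.inv_right).eq
  calc s 0 * (s 0 * (s 2)⁻¹) * (s 0)⁻¹ = s 0 * ((s 2)⁻¹ * s 0) * (s 0)⁻¹ := by rw [e]
    _ = s 0 * (s 2)⁻¹ := by group

theorem c0_X : s 0 * jH X * (s 0)⁻¹ = jH X * (jH Y)⁻¹ := by
  have h1 : s 0 * rB * (s 0)⁻¹ = rB * pB⁻¹ := w_a_r isBraid_s.1 isBraid_s.2.1
  have h2 : s 0 * pB * (s 0)⁻¹ = pB := by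
    have := c0_Y
    rwa [jH_Y] at this
  rw [jH_X, jH_Y]
  calc s 0 * (pB⁻¹ * rB) * (s 0)⁻¹ = (s 0 * pB * (s 0)⁻¹)⁻¹ * (s 0 * rB * (s 0)⁻¹) := by group
    _ = pB⁻¹ * rB * pB⁻¹ := by rw [h1, h2]; group

/-- The action of `σ₂`. -/
theorem c1_Y : s 1 * jH Y * (s 1)⁻¹ = jH Y * jH X := by
  rw [jH_X, jH_Y]
  show rB = _
  group

theorem c1_X : s 1 * jH X * (s 1)⁻¹ = jH X := by
  have c3 : (s 1)⁻¹ * pB * s 1 = pB * rB⁻¹ * pB := w_b_p isBraid_s.1 isBraid_s.2.1 isBraid_s.2.2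
  rw [jH_X]
  have c4 : s 1 * rB * (s 1)⁻¹ = rB * pB⁻¹ * rB := by
    have e1 : s 1 * ((s 1)⁻¹ * pB * s 1) * (s 1)⁻¹ = s 1 * (pB * rB⁻¹ * pB) * (s 1)⁻¹ :=
      congrArg (fun x => s 1 * x * (s 1)⁻¹) c3
    have e2 : s 1 * (pB * rB⁻¹ * pB) * (s 1)⁻¹ = rB * (s 1 * rB * (s 1)⁻¹)⁻¹ * rB := by
      unfold rB
      group
    rw [e2] at e1
    have e3 : s 1 * ((s 1)⁻¹ * pB * s 1) * (s 1)⁻¹ = pB := by group
    rw [e3] at e1
    rw [e1]
    group
  calc s 1 * (pB⁻¹ * rB) * (s 1)⁻¹ = (s 1 * pB * (s 1)⁻¹)⁻¹ * (s 1 * rB * (s 1)⁻¹) := by group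
    _ = rB⁻¹ * (rB * pB⁻¹ * rB) := by rw [c4]; rfl
    _ = _ := by group

theorem c01_Y : MulAut.conj (s 0 * s 1) (jH Y) = jH Y * jH X * (jH Y)⁻¹ := by
  rw [MulAut.conj_apply]
  calc s 0 * s 1 * jH Y * (s 0 * s 1)⁻¹ = s 0 * (s 1 * jH Y * (s 1)⁻¹) * (s 0)⁻¹ := by group
    _ = (s 0 * jH Y * (s 0)⁻¹) * (s 0 * jH X * (s 0)⁻¹) := by rw [c1_Y]; group
    _ = _ := by rw [c0_X, c0_Y]; group

theorem c01_X : MulAut.conj (s 0 * s 1) (jH X) = jH X * (jH Y)⁻¹ := by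
  rw [MulAut.conj_apply]
  calc s 0 * s 1 * jH X * (s 0 * s 1)⁻¹ = s 0 * (s 1 * jH X * (s 1)⁻¹) * (s 0)⁻¹ := by group
    _ = _ := by rw [c1_X, c0_X]

theorem conj_cB_apply (g : Hat Braid4) : cB * g * cB⁻¹ =
    MulAut.conj (s 0 * s 1) (MulAut.conj (s 0 * s 1) (MulAut.conj (s 0 * s 1) g)) := by
  have e : cB = s 0 * s 1 * (s 0 * s 1) * (s 0 * s 1) := by
    unfold cB
    rw [pow_succ, pow_two]
  simp only [MulAut.conj_apply]
  rw [e]
  group

theorem cB_Y : cB * jH Y * cB⁻¹ = jH (cc * Y⁻¹) := by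
  have h1 := c01_Y
  have h2 := c01_X
  rw [conj_cB_apply]
  generalize MulAut.conj (s 0 * s 1) = φ at *
  unfold cc
  simp only [h1, h2, map_mul, map_inv]
  group

theorem cB_X : cB * jH X * cB⁻¹ = jH (Y * X⁻¹ * Y⁻¹) := by
  have h1 := c01_Y
  have h2 := c01_X
  rw [conj_cB_apply]
  generalize MulAut.conj (s 0 * s 1) = φ at *
  simp only [h1, h2, map_mul, map_inv]
  group

end conj

section central

theorem conj_jH {g : Hat Braid4} {α : FHat 2 →ₜ* FHat 2} (hX : g * jH X * g⁻¹ = jH (α X))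
    (hY : g * jH Y * g⁻¹ = jH (α Y)) (w : FHat 2) : g * jH w * g⁻¹ = jH (α w) := by
  refine FHat2_ext (φ := (MulAut.conj g).toMonoidHom.comp jH.toMonoidHom)
    (ψ := jH.toMonoidHom.comp α.toMonoidHom) ?_ (jH.continuous_toFun.comp α.continuous_toFun)
    hX hY w
  exact (continuous_const.mul jH.continuous_toFun).mul continuous_const

theorem Dl2_comm (g : Hat Braid4) : Commute (Dl ^ 2) g := by
  have h : ∀ i, Dl ^ 2 * s i * (Dl ^ 2)⁻¹ = s i := by
    intro i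
    have e : Dl ^ 2 * s i * (Dl ^ 2)⁻¹ = Dl * (Dl * s i * Dl⁻¹) * Dl⁻¹ := by
      rw [pow_two]
      group
    rw [e]
    fin_cases i
    · show Dl * (Dl * s 0 * Dl⁻¹) * Dl⁻¹ = s 0
      rw [conj_zero, conj_two]
    · show Dl * (Dl * s 1 * Dl⁻¹) * Dl⁻¹ = s 1
      rw [conj_one, conj_one]
    · show Dl * (Dl * s 2 * Dl⁻¹) * Dl⁻¹ = s 2
      rw [conj_two, conj_zero]
  have h1 : Dl ^ 2 * g * (Dl ^ 2)⁻¹ = g := by
    refine braid_ext (φ := (MulAut.conj (Dl ^ 2)).toMonoidHom) (ψ := MonoidHom.id _) ?_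
      continuous_id h g
    exact (continuous_const.mul continuous_id).mul continuous_const
  exact mul_inv_eq_iff_eq_mul.1 h1

/-- An element of the image of `jH` that commutes with the image is trivial. -/
theorem center_jH {w : FHat 2} (h : ∀ v, Commute (jH w) (jH v)) : w = 1 := by
  have h1 : ∀ v, Commute w v := by
    intro v
    refine jH_inj ?_
    rw [map_mul, map_mul]
    exact (h v).eq
  exact Hecke.center67 (h1 X) (h1 Y)

/-- `ζ ^ 2 = c Δ ^ 2`. -/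
theorem cB_sq : cB ^ 2 = jH cc * Dl ^ 2 := by
  have hc : cB * jH cc * cB⁻¹ = jH cc := by
    have e : cB * jH cc * cB⁻¹ = (cB * jH Y * cB⁻¹) * (cB * jH X * cB⁻¹) * (cB * jH Y * cB⁻¹)⁻¹ *
        (cB * jH X * cB⁻¹)⁻¹ := by
      unfold cc
      simp only [map_mul, map_inv]
      group
    rw [e, cB_Y, cB_X]
    simp only [← map_mul, ← map_inv]
    congr 1
    unfold cc
    group
  have hY : cB ^ 2 * jH Y * (cB ^ 2)⁻¹ = jH cc * jH Y * (jH cc)⁻¹ := by
    calc cB ^ 2 * jH Y * (cB ^ 2)⁻¹ = cB * (cB * jH Y * cB⁻¹) * cB⁻¹ := by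
          rw [pow_two]
          group
      _ = cB * (jH cc * (jH Y)⁻¹) * cB⁻¹ := by rw [cB_Y, map_mul, map_inv]
      _ = (cB * jH cc * cB⁻¹) * (cB * jH Y * cB⁻¹)⁻¹ := by group
      _ = jH cc * (jH cc * (jH Y)⁻¹)⁻¹ := by rw [hc, cB_Y, map_mul, map_inv]
      _ = _ := by group
  have hX : cB ^ 2 * jH X * (cB ^ 2)⁻¹ = jH cc * jH X * (jH cc)⁻¹ := by
    calc cB ^ 2 * jH X * (cB ^ 2)⁻¹ = cB * (cB * jH X * cB⁻¹) * cB⁻¹ := by
          rw [pow_two]
          group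
      _ = cB * (jH Y * (jH X)⁻¹ * (jH Y)⁻¹) * cB⁻¹ := by
          rw [cB_X]
          simp only [map_mul, map_inv]
      _ = (cB * jH Y * cB⁻¹) * (cB * jH X * cB⁻¹)⁻¹ * (cB * jH Y * cB⁻¹)⁻¹ := by group
      _ = (jH cc * (jH Y)⁻¹) * (jH Y * (jH X)⁻¹ * (jH Y)⁻¹)⁻¹ * (jH cc * (jH Y)⁻¹)⁻¹ := by
          rw [cB_X, cB_Y]
          simp only [map_mul, map_inv]
      _ = _ := by group
  -- the difference is in the image of `jH` and centralises it
  have hker : rho ((jH cc)⁻¹ * cB ^ 2 * (Dl ^ 2)⁻¹) = 1 := by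
    rw [map_mul, map_mul, map_inv, rho_jH, map_pow, rho_cB, map_inv, map_pow, rho_Dl]
    group
  obtain ⟨w, hw⟩ := jH_surj hker
  have hcomm : ∀ v, Commute (jH w) (jH v) := by
    have h1 : ∀ v, (jH cc)⁻¹ * cB ^ 2 * jH v * ((jH cc)⁻¹ * cB ^ 2)⁻¹ = jH v := by
      have e : ∀ v, (jH cc)⁻¹ * cB ^ 2 * jH v * ((jH cc)⁻¹ * cB ^ 2)⁻¹ =
          (jH cc)⁻¹ * (cB ^ 2 * jH v * (cB ^ 2)⁻¹) * jH cc := by
        intro v
        group
      refine conj_jH (α := ContinuousMonoidHom.id _) ?_ ?_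
      · rw [e, hX]
        show _ = jH X
        group
      · rw [e, hY]
        show _ = jH Y
        group
    intro v
    rw [hw]
    have h2 : Commute ((jH cc)⁻¹ * cB ^ 2) (jH v) := mul_inv_eq_iff_eq_mul.1 (h1 v)
    exact h2.mul_left (Dl2_comm _).inv_left
  rw [center_jH hcomm, map_one] at hw
  have e := hw.symm
  rw [mul_inv_eq_one, inv_mul_eq_iff_eq_mul] at e
  exact e

end central

section norm

variable {G : Type} [Group G] [TopologicalSpace G] [IsTopologicalGroup G] [CompactSpace G]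
  [TotallyDisconnectedSpace G]

theorem ev_norm51 {S : Subgroup G} (hS : IsClosed (S : Set G)) {u v : G}
    (hu : ∀ t ∈ S, u * t * u⁻¹ ∈ S) (hu' : ∀ t ∈ S, u⁻¹ * t * u ∈ S) (hv : v ∈ S)
    {f : FHat 2} (hf : f ∈ (commutator (FHat 2)).topologicalClosure) : ev ![u, v] f ∈ S := by
  let R : Subgroup (G × G) :=
    { carrier := {p | p.1 * p.2⁻¹ ∈ S ∧ (∀ t ∈ S, p.2 * t * p.2⁻¹ ∈ S ∧ p.2⁻¹ * t * p.2 ∈ S)}
      one_mem' := by
        refine ⟨by simp, fun t ht => ?_⟩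
        simpa using ht
      mul_mem' := by
        rintro ⟨a, a'⟩ ⟨b, b'⟩ ⟨h1, h2⟩ ⟨h3, h4⟩
        simp only at h1 h2 h3 h4
        refine ⟨?_, fun t ht => ⟨?_, ?_⟩⟩
        · show a * b * (a' * b')⁻¹ ∈ S
          have e : a * b * (a' * b')⁻¹ = (a * a'⁻¹) * (a' * (b * b'⁻¹) * a'⁻¹) := by group
          rw [e]
          exact S.mul_mem h1 (h2 _ h3).1
        · show a' * b' * t * (a' * b')⁻¹ ∈ S
          have e : a' * b' * t * (a' * b')⁻¹ = a' * (b' * t * b'⁻¹) * a'⁻¹ := by group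
          rw [e]
          exact (h2 _ (h4 t ht).1).1
        · show (a' * b')⁻¹ * t * (a' * b') ∈ S
          have e : (a' * b')⁻¹ * t * (a' * b') = b'⁻¹ * (a'⁻¹ * t * a') * b' := by group
          rw [e]
          exact (h4 _ (h2 t ht).2).2
      inv_mem' := by
        rintro ⟨a, a'⟩ ⟨h1, h2⟩
        simp only at h1 h2
        refine ⟨?_, fun t ht => ⟨?_, ?_⟩⟩
        · show a⁻¹ * a'⁻¹⁻¹ ∈ S
          have e : a⁻¹ * a'⁻¹⁻¹ = a'⁻¹ * (a * a'⁻¹)⁻¹ * a' := by group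
          rw [e]
          exact (h2 _ (S.inv_mem h1)).2
        · show a'⁻¹ * t * a'⁻¹⁻¹ ∈ S
          rw [inv_inv]
          exact (h2 t ht).2
        · show a'⁻¹⁻¹ * t * a'⁻¹ ∈ S
          rw [inv_inv]
          exact (h2 t ht).1 }
  have hR : IsClosed (R : Set (G × G)) := by
    have e : (R : Set (G × G)) = (fun p : G × G => p.1 * p.2⁻¹) ⁻¹' (S : Set G) ∩
        ⋂ t ∈ S, ((fun p : G × G => p.2 * t * p.2⁻¹) ⁻¹' (S : Set G) ∩
          (fun p : G × G => p.2⁻¹ * t * p.2) ⁻¹' (S : Set G)) := by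
      ext p
      simp only [Set.mem_iInter, Set.mem_inter_iff, Set.mem_preimage, SetLike.mem_coe]
      rfl
    rw [e]
    refine (hS.preimage (continuous_fst.mul continuous_snd.inv)).inter ?_
    refine isClosed_biInter fun t _ => ?_
    exact (hS.preimage ((continuous_snd.mul continuous_const).mul continuous_snd.inv)).inter
      (hS.preimage ((continuous_snd.inv.mul continuous_const).mul continuous_snd))
  have h1 : ev (![(u, u), (v, 1)] : Fin 2 → G × G) f ∈ R := by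
    refine ev_mem hR (fun i => ?_) f
    fin_cases i
    · refine ⟨?_, fun t ht => ⟨hu t ht, hu' t ht⟩⟩
      show u * u⁻¹ ∈ S
      rw [mul_inv_cancel]
      exact S.one_mem
    · refine ⟨?_, fun t ht => ?_⟩
      · show v * (1 : G)⁻¹ ∈ S
        simpa using hv
      · show (1 : G) * t * (1 : G)⁻¹ ∈ S ∧ (1 : G)⁻¹ * t * 1 ∈ S
        simpa using ht
  let P1 : G × G →ₜ* G := ⟨MonoidHom.fst G G, continuous_fst⟩
  let P2 : G × G →ₜ* G := ⟨MonoidHom.snd G G, continuous_snd⟩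
  have e1 : (ev (![(u, u), (v, 1)] : Fin 2 → G × G) f).1 = ev ![u, v] f := by
    have := map_ev2 P1 (u, u) (v, 1) f
    exact this
  have e2 : (ev (![(u, u), (v, 1)] : Fin 2 → G × G) f).2 = 1 := by
    have := map_ev2 P2 (u, u) (v, 1) f
    refine Eq.trans this ?_
    exact ev_comm hf (Commute.one_right _)
  have h2 := h1.1
  rw [e1, e2] at h2
  simpa using h2

end norm

section heis

/-- The Heisenberg group. -/
@[ext] structure Hs (R : Type) where
  a : R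
  b : R
  c : R

instance instGroupHs (R : Type) [CommRing R] : Group (Hs R) where
  mul x y := ⟨x.a + y.a, x.b + y.b, x.c + y.c + x.a * y.b⟩
  one := ⟨0, 0, 0⟩
  inv x := ⟨-x.a, -x.b, -x.c + x.a * x.b⟩
  mul_assoc x y z := by
    refine Hs.ext ?_ ?_ ?_
    · show x.a + y.a + z.a = x.a + (y.a + z.a)
      ring
    · show x.b + y.b + z.b = x.b + (y.b + z.b)
      ring
    · show x.c + y.c + x.a * y.b + z.c + (x.a + y.a) * z.b =
        x.c + (y.c + z.c + y.a * z.b) + x.a * (y.b + z.b)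
      ring
  one_mul x := by
    refine Hs.ext ?_ ?_ ?_
    · show 0 + x.a = x.a
      ring
    · show 0 + x.b = x.b
      ring
    · show 0 + x.c + 0 * x.b = x.c
      ring
  mul_one x := by
    refine Hs.ext ?_ ?_ ?_
    · show x.a + 0 = x.a
      ring
    · show x.b + 0 = x.b
      ring
    · show x.c + 0 + x.a * 0 = x.c
      ring
  inv_mul_cancel x := by
    refine Hs.ext ?_ ?_ ?_
    · show -x.a + x.a = 0
      ring
    · show -x.b + x.b = 0
      ring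
    · show -x.c + x.a * x.b + x.c + -x.a * x.b = 0
      ring

instance (R : Type) [Finite R] : Finite (Hs R) :=
  Finite.of_injective (fun x : Hs R => (x.a, x.b, x.c)) (by
    intro x y h
    simp only [Prod.mk.injEq] at h
    exact Hs.ext h.1 h.2.1 h.2.2)

variable {R : Type} [CommRing R]

theorem Hs.mul_def (x y : Hs R) : x * y = ⟨x.a + y.a, x.b + y.b, x.c + y.c + x.a * y.b⟩ := rfl

theorem Hs.inv_def (x : Hs R) : x⁻¹ = ⟨-x.a, -x.b, -x.c + x.a * x.b⟩ := rfl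

theorem Hs.comm_c (x y : Hs R) : (y * x * y⁻¹ * x⁻¹).c = y.a * x.b - x.a * y.b := by
  simp only [Hs.mul_def, Hs.inv_def]
  ring

/-- The projections. -/
def pa : Hs R →* Multiplicative R where
  toFun x := Multiplicative.ofAdd x.a
  map_one' := rfl
  map_mul' _ _ := rfl

def pb : Hs R →* Multiplicative R where
  toFun x := Multiplicative.ofAdd x.b
  map_one' := rfl
  map_mul' _ _ := rfl

/-- The centre. -/
def ic (z : R) : Multiplicative R →* Hs R where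
  toFun t := ⟨0, 0, z * Multiplicative.toAdd t⟩
  map_one' := by
    refine Hs.ext rfl rfl ?_
    show z * 0 = 0
    ring
  map_mul' s t := by
    refine Hs.ext ?_ ?_ ?_
    · show (0 : R) = 0 + 0
      ring
    · show (0 : R) = 0 + 0
      ring
    · show z * (Multiplicative.toAdd s + Multiplicative.toAdd t) =
        z * Multiplicative.toAdd s + z * Multiplicative.toAdd t + 0 * 0
      ring

variable {n : ℕ}

/-- The exponent of `Y`. -/
noncomputable def chi2 (n : ℕ) : FHat 2 →* Multiplicative (ZMod (n + 1)) :=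
  evF ![1, Multiplicative.ofAdd 1]

noncomputable def thH (n : ℕ) : FHat 2 →* Hs (ZMod (n + 1)) := evF ![⟨1, 0, 0⟩, ⟨0, 1, 0⟩]

theorem thH_a (w : FHat 2) : (thH n w).a = Multiplicative.toAdd (chi n w) := by
  have h : pa (thH n w) = chi n w := by
    unfold thH chi
    rw [evF_map]
    congr 2
    funext i
    fin_cases i <;> rfl
  rw [← h]
  rfl

theorem thH_b (w : FHat 2) : (thH n w).b = Multiplicative.toAdd (chi2 n w) := by
  have h : pb (thH n w) = chi2 n w := by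
    unfold thH chi2
    rw [evF_map]
    congr 2
    funext i
    fin_cases i <;> rfl
  rw [← h]
  rfl

theorem thH_X : thH n X = ⟨1, 0, 0⟩ := evF_gen _ 0

theorem thH_Y : thH n Y = ⟨0, 1, 0⟩ := evF_gen _ 1

theorem thH_cc : thH n cc = ⟨0, 0, -1⟩ := by
  unfold cc
  simp only [map_mul, map_inv, thH_X, thH_Y, Hs.mul_def, Hs.inv_def]
  refine Hs.ext ?_ ?_ ?_
  · show (0 : ZMod (n + 1)) + 1 + -0 + -1 = 0
    ring
  · show (1 : ZMod (n + 1)) + 0 + -1 + -0 = 0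
    ring
  · show (0 : ZMod (n + 1)) + 0 + 0 * 0 + (-0 + 0 * 1) + (0 + 1) * -1 + (-0 + 1 * 0) +
      (0 + 1 + -0) * -0 = -1
    ring

theorem thH_ccpow (e : ZHat) : (thH n (pow cc e)).c = -red n e := by
  have h1 : thH n (pow cc e) = evF (fun _ : Fin 1 => thH n cc) e := evF_ev _ _ _
  have h2 : (ic (-1) : Multiplicative (ZMod (n + 1)) →* Hs (ZMod (n + 1)))
      (evF (fun _ : Fin 1 => Multiplicative.ofAdd (1 : ZMod (n + 1))) e) =
      evF (fun _ : Fin 1 => thH n cc) e := by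
    rw [evF_map]
    congr 2
    funext i
    rw [thH_cc]
    refine Hs.ext rfl rfl ?_
    show (-1 : ZMod (n + 1)) * 1 = -1
    ring
  rw [h1, ← h2]
  show (-1 : ZMod (n + 1)) * red n e = -red n e
  ring

theorem chi2_Y : chi2 n Y = Multiplicative.ofAdd 1 := evF_gen _ 1

theorem chi2_Ypow (e : ZHat) : chi2 n (pow Y e) = Multiplicative.ofAdd (red n e) := by
  have h1 : chi2 n (pow Y e) = evF (fun _ : Fin 1 => chi2 n Y) e := evF_ev _ _ _
  rw [h1, chi2_Y]
  rfl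

/-- The exponent of `X` of the image of `X`. -/
theorem chi_of_det {lam : ZHat} {f : FHat 2} (h : IsGT lam f) {Ψ : FHat 2 →* FHat 2}
    (hcc : Ψ cc = pow cc lam) (hY : chi n (Ψ Y) = 1)
    (hY2 : chi2 n (Ψ Y) = Multiplicative.ofAdd (red n lam)) : chi n (Ψ X) = chi n X := by
  have h1 : (thH n (Ψ cc)).c = -red n lam := by rw [hcc, thH_ccpow]
  have h2 : (thH n (Ψ cc)).c = -(Multiplicative.toAdd (chi n (Ψ X)) * red n lam) := by
    unfold cc
    simp only [map_mul, map_inv]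
    rw [Hs.comm_c, thH_a, thH_a, thH_b (Ψ Y), hY, hY2]
    show 0 * _ - _ * red n lam = _
    ring
  rw [h1] at h2
  have h3 : red n lam * Multiplicative.toAdd (chi n (Ψ X)) = red n lam * 1 := by
    rw [mul_one, mul_comm]
    exact (neg_injective h2).symm
  have h4 := red_inj h h3
  rw [chi_X]
  exact h4

end heis

end T51

open T51

/-- Row T. -/
theorem stT_51 : StT := by
  intro lam f h Φ hb h0 h1 h2 hc hr
  -- the restriction
  have hex : ∀ w, ∃ v, jH v = Φ (jH w) := by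
    intro w
    refine jH_surj ?_
    rw [hr, rho_jH, map_one]
  obtain ⟨vX, hvX⟩ := hex X
  obtain ⟨vY, hvY⟩ := hex Y
  let Ψ : FHat 2 →ₜ* FHat 2 := ev ![vX, vY]
  have hΨX : Ψ X = vX := ev_gen _ 0
  have hΨY : Ψ Y = vY := ev_gen _ 1
  have hΨ : ∀ w, jH (Ψ w) = Φ (jH w) := by
    intro w
    refine FHat2_ext (φ := jH.toMonoidHom.comp Ψ.toMonoidHom)
      (ψ := Φ.toMonoidHom.comp jH.toMonoidHom)
      (jH.continuous_toFun.comp Ψ.continuous_toFun)
      (Φ.continuous_toFun.comp jH.continuous_toFun) ?_ ?_ w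
    · show jH (Ψ X) = Φ (jH X)
      rw [hΨX, hvX]
    · show jH (Ψ Y) = Φ (jH Y)
      rw [hΨY, hvY]
  have hbij : Bijective Ψ := by
    refine ⟨fun v w hvw => ?_, fun v => ?_⟩
    · apply jH_inj
      apply hb.1
      rw [← hΨ, ← hΨ, hvw]
    · obtain ⟨g, hg⟩ := hb.2 (jH v)
      have h3 : rho g = 1 := by
        apply hb.1
        rw [← hr, hg, rho_jH, map_one]
      obtain ⟨w, hw⟩ := jH_surj h3
      refine ⟨w, jH_inj ?_⟩
      rw [hΨ, hw, hg]
  -- the centre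
  have hD : Φ (Dl ^ 2) = pow (Dl ^ 2) lam := by
    have hker : rho (Φ (Dl ^ 2) * (pow (Dl ^ 2) lam)⁻¹) = 1 := by
      rw [map_mul, hr, map_inv, map_pow', map_pow, rho_Dl, map_pow, hc, pow_sq, pow_two,
        mul_inv_cancel]
    obtain ⟨w, hw⟩ := jH_surj hker
    have hcm : ∀ v, Commute (jH w) (jH v) := by
      intro v
      rw [hw]
      obtain ⟨g, hg⟩ := hb.2 (jH v)
      have h3 : Commute (Φ (Dl ^ 2)) (jH v) := by
        rw [← hg]
        show Φ (Dl ^ 2) * Φ g = Φ g * Φ (Dl ^ 2)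
        rw [← map_mul, (Dl2_comm g).eq, map_mul]
      have h4 : Commute (pow (Dl ^ 2) lam) (jH v) := (commute_pow (Dl2_comm (jH v)).symm lam).symm
      exact h3.mul_left h4.inv_left
    rw [center_jH hcm, map_one] at hw
    exact (mul_inv_eq_one.1 hw.symm)
  have hccb : jH cc = cB ^ 2 * (Dl ^ 2)⁻¹ := by
    rw [cB_sq]
    group
  have hΨcc : Ψ cc = pow cc lam := by
    apply jH_inj
    rw [hΨ, jH_pow, hccb, map_mul, map_inv, hD, map_pow, hc,
      pow_mul_comm24 (Dl2_comm _).symm.inv_right, pow_inv24, pow_sq cB, pow_two]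
  -- the element `h`
  have hT : ∃ t, fh f = jH (ev ![Y, X * Y * X⁻¹] t) := by
    let E : FHat 2 →ₜ* FHat 2 := ev ![Y, X * Y * X⁻¹]
    have hE0 : E X = Y := ev_gen _ 0
    have hE1 : E Y = X * Y * X⁻¹ := ev_gen _ 1
    let J : FHat 2 →ₜ* Hat Braid4 := jH.comp E
    have hJ : ∀ w, J w = jH (E w) := fun _ => rfl
    have hS : IsClosed (J.toMonoidHom.range : Set (Hat Braid4)) := by
      rw [MonoidHom.coe_range]
      exact (isCompact_range J.continuous_toFun).isClosed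
    -- conjugation by `ζ`
    let α : FHat 2 →ₜ* FHat 2 := ev ![X * Y⁻¹ * X⁻¹, X⁻¹]
    have hα0 : α X = X * Y⁻¹ * X⁻¹ := ev_gen _ 0
    have hα1 : α Y = X⁻¹ := ev_gen _ 1
    have hconj : ∀ w, cB * J w * cB⁻¹ = J (α w) := by
      intro w
      refine FHat2_ext (φ := (MulAut.conj cB).toMonoidHom.comp J.toMonoidHom)
        (ψ := J.toMonoidHom.comp α.toMonoidHom) ?_
        (J.continuous_toFun.comp α.continuous_toFun) ?_ ?_ w
      · exact (continuous_const.mul J.continuous_toFun).mul continuous_const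
      · show cB * J X * cB⁻¹ = J (α X)
        have e : E (X * Y⁻¹ * X⁻¹) = cc * Y⁻¹ := by
          rw [map_mul, map_mul, map_inv, map_inv, hE0, hE1]
          unfold cc
          group
        rw [hJ, hJ, hE0, cB_Y, hα0, e]
      · show cB * J Y * cB⁻¹ = J (α Y)
        have e' : E X⁻¹ = Y⁻¹ := by rw [map_inv, hE0]
        rw [hJ, hJ, hE1, hα1, e']
        have e : cB * jH (X * Y * X⁻¹) * cB⁻¹ = (cB * jH X * cB⁻¹) * (cB * jH Y * cB⁻¹) *
            (cB * jH X * cB⁻¹)⁻¹ := by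
          simp only [map_mul, map_inv]
          group
        rw [e, cB_X, cB_Y]
        simp only [← map_mul, ← map_inv]
        congr 1
        unfold cc
        group
    let β : FHat 2 →ₜ* FHat 2 := ev ![Y⁻¹, Y * X⁻¹ * Y⁻¹]
    have hβ0 : β X = Y⁻¹ := ev_gen _ 0
    have hβ1 : β Y = Y * X⁻¹ * Y⁻¹ := ev_gen _ 1
    have hαβ : ∀ w, α (β w) = w := by
      intro w
      refine FHat2_ext (φ := α.toMonoidHom.comp β.toMonoidHom) (ψ := MonoidHom.id _)
        (α.continuous_toFun.comp β.continuous_toFun) continuous_id ?_ ?_ w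
      · show α (β X) = X
        rw [hβ0, map_inv, hα1, inv_inv]
      · show α (β Y) = Y
        rw [hβ1]
        simp only [map_mul, map_inv, hα0, hα1]
        group
    have hu : ∀ t ∈ J.toMonoidHom.range, cB * t * cB⁻¹ ∈ J.toMonoidHom.range := by
      rintro _ ⟨w, rfl⟩
      exact ⟨α w, (hconj w).symm⟩
    have hu' : ∀ t ∈ J.toMonoidHom.range, cB⁻¹ * t * cB ∈ J.toMonoidHom.range := by
      rintro _ ⟨w, rfl⟩
      refine ⟨β w, ?_⟩
      have e := hconj (β w)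
      rw [hαβ] at e
      show J (β w) = cB⁻¹ * J w * cB
      rw [← e]
      group
    have hv : (pB ^ 2)⁻¹ ∈ J.toMonoidHom.range := by
      refine ⟨(X ^ 2)⁻¹, ?_⟩
      show J ((X ^ 2)⁻¹) = _
      rw [hJ, map_inv, map_pow, hE0, map_inv, map_pow, jH_Y]
    have hm := ev_norm51 hS hu hu' hv h.comm
    obtain ⟨t, ht⟩ := hm
    refine ⟨t, ?_⟩
    have e1 : s 2 ^ 2 = (pB ^ 2)⁻¹ * s 0 ^ 2 := by
      have e : pB ^ 2 = s 0 ^ 2 * (s 2 ^ 2)⁻¹ := by
        unfold pB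
        rw [comm_zero_two.inv_right.mul_pow, inv_pow]
      rw [e]
      have c : Commute (s 0 ^ 2) (s 2 ^ 2) := comm_zero_two.pow_pow 2 2
      rw [mul_inv_rev, inv_inv, mul_assoc]
      rw [inv_mul_cancel, mul_one]
    have c0p : Commute (s 0) pB := by
      have := c0_Y
      rw [jH_Y] at this
      exact mul_inv_eq_iff_eq_mul.1 this
    have e2 : fh f = ev ![cB, (pB ^ 2)⁻¹] f := by
      unfold fh
      rw [e1]
      have e3 := ev_central (a := cB) (b := (pB ^ 2)⁻¹) (z := 1) (w := s 0 ^ 2) h.comm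
        (Commute.one_left _) (Commute.one_left _) (comm_cB_zero.symm.pow_left 2)
        ((c0p.pow_pow 2 2).inv_right) (Commute.one_left _)
      rw [mul_one] at e3
      exact e3
    rw [e2, ← ht]
    rfl
  obtain ⟨t0, ht0⟩ := hT
  have hvY2 : Ψ Y = (ev ![Y, X * Y * X⁻¹] t0)⁻¹ * pow Y lam * ev ![Y, X * Y * X⁻¹] t0 := by
    apply jH_inj
    rw [hΨ, map_mul, map_mul, map_inv, ← ht0, jH_pow, jH_Y]
    have c1 : Commute (pow (s 0) lam) (fh f) := (commute_pow comm_fh_zero lam).symm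
    have e1 : Φ pB = pow (s 0) lam * ((fh f)⁻¹ * pow (s 2) lam * fh f)⁻¹ := by
      unfold pB
      rw [map_mul, map_inv, h0, h2]
    have e2 : pow pB lam = pow (s 0) lam * (pow (s 2) lam)⁻¹ := by
      unfold pB
      rw [pow_mul_comm24 comm_zero_two.inv_right, pow_inv24]
    rw [e1, e2]
    calc pow (s 0) lam * ((fh f)⁻¹ * pow (s 2) lam * fh f)⁻¹
        = pow (s 0) lam * (fh f)⁻¹ * (pow (s 2) lam)⁻¹ * fh f := by group
      _ = (fh f)⁻¹ * pow (s 0) lam * (pow (s 2) lam)⁻¹ * fh f := by rw [c1.inv_right.eq]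
      _ = _ := by group
  refine ⟨Ψ, hbij, hΨ, hΨcc, ⟨t0⁻¹ * pow (gen 0) lam * t0, ?_⟩, fun n => ?_⟩
  · rw [hvY2, map_mul, map_mul, map_inv, ev_pow, ev_gen]
    rfl
  · have hE : ∀ t : FHat 2, chi n (ev ![Y, X * Y * X⁻¹] t) = 1 := by
      intro t
      have h3 : chi n (ev ![Y, X * Y * X⁻¹] t) =
          evF (fun i => chi n ((![Y, X * Y * X⁻¹] : Fin 2 → FHat 2) i)) t := evF_ev _ _ _
      rw [h3]
      refine evF_one (fun i => ?_) t
      fin_cases i
      · exact chi_Y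
      · show chi n (X * Y * X⁻¹) = 1
        rw [map_mul, map_mul, chi_Y, mul_one, map_inv, mul_inv_cancel]
    refine chi_of_det (Ψ := Ψ.toMonoidHom) h hΨcc ?_ ?_
    · show chi n (Ψ Y) = 1
      rw [hvY2, map_mul, map_mul, map_inv, hE, inv_one, one_mul, mul_one, CY24.chi_pow, chi_Y]
      exact evF_one' lam
    · show chi2 n (Ψ Y) = _
      rw [hvY2, map_mul, map_mul, map_inv, chi2_Ypow, mul_comm, ← mul_assoc, mul_inv_cancel,
        one_mul]

end MPb66790.HK24
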