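import Pool.Agent.Lib.MP_b66790_nt.Hecke.CN57
import Pool.Agent.Lib.MP_b66790_nt.Hecke.T51

/-!
# Row RM: the matrices of partners
-/

namespace MPb66790.HK24.RM51

open MPb66790 MPb66790.HK24 MPb66790.CY24 MPb66790.Th57 MPb66790.CN57 Function

/-- The `i`-th exponent modulo `m + 1`. -/
def psi (m : ℕ) (i : Fin 2) : Multiplicative (Fin 2 → ℤ) →* Multiplicative (ZMod (m + 1)) :=
  AddMonoidHom.toMultiplicative
    ((Int.castAddHom (ZMod (m + 1))).comp (Pi.evalAddMonoidHom (fun _ => ℤ) i))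

theorem psi_vec (m : ℕ) (i : Fin 2) (w : F2) :
    psi m i (vecH w) = Multiplicative.ofAdd ((vec w i : ℤ) : ZMod (m + 1)) := rfl

/-- Words with the same image in the profinite group have the same exponents. -/
theorem of_vec {u v : F2} (h : of u = of v) : vec u = vec v := by
  funext i
  by_contra hne
  set m := (vec u i - vec v i).natAbs with hm
  have h1 : lftF ((psi m i).comp vecH) (of u) = lftF ((psi m i).comp vecH) (of v) := by rw [h]
  rw [lftF_of, lftF_of] at h1
  have h2 : ((vec u i : ℤ) : ZMod (m + 1)) = ((vec v i : ℤ) : ZMod (m + 1)) := h1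
  have h3 : (((vec u i - vec v i : ℤ)) : ZMod (m + 1)) = 0 := by
    push_cast
    rw [h2, sub_self]
  rw [ZMod.intCast_zmod_eq_zero_iff_dvd] at h3
  have h4 : vec u i - vec v i ≠ 0 := sub_ne_zero.2 hne
  have h5 := Int.natAbs_dvd_natAbs.2 h3
  rw [← hm] at h5
  have h6 : 0 < m := by
    rw [hm]; exact Int.natAbs_pos.2 h4
  have h7 := Nat.le_of_dvd h6 h5
  have h8 : (((m + 1 : ℕ) : ℤ)).natAbs = m + 1 := Int.natAbs_natCast _
  omega

theorem chi_of (n : ℕ) (w : F2) :
    CY24.chi n (of w) = Multiplicative.ofAdd ((vec w 1 : ℤ) : ZMod (n + 1)) := by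
  have h : (CY24.chi n).comp of = (psi n 1).comp vecH := by
    refine FreeGroup.ext_hom _ _ (fun i => ?_)
    fin_cases i
    · show CY24.chi n X = _
      rw [chi_X]
      show _ = psi n 1 (vecH (FreeGroup.of 0))
      rw [psi_vec]
      simp [vec, vecH]
    · show CY24.chi n Y = _
      rw [chi_Y]
      show _ = psi n 1 (vecH (FreeGroup.of 1))
      rw [psi_vec]
      simp [vec, vecH]
  exact DFunLike.congr_fun h w

/-- The pairs of a braid and the automorphism of the free group which it induces. -/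
def Pr : Subgroup (Braid4 × MulAut F2) where
  carrier := {p | ∀ w, CJ p.1 w (p.2 w)}
  one_mem' := by
    intro w
    unfold CJ
    simp
  mul_mem' := by
    intro p q hp hq w
    exact CJ_mul hp hq w
  inv_mem' := by
    intro p hp w
    exact CJ_inv hp w

/-- The automorphisms which act by a sign on the exponents. -/
def Sg : Subgroup (MulAut F2) where
  carrier := {α | (∀ w, vec (α w) = vec w) ∨ ∀ w, vec (α w) = -vec w}
  one_mem' := Or.inl (fun _ => rfl)
  mul_mem' := by
    intro α β hα hβ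
    rcases hα with hα | hα <;> rcases hβ with hβ | hβ
    · left; intro w; rw [MulAut.mul_apply, hα, hβ]
    · right; intro w; rw [MulAut.mul_apply, hα, hβ]
    · right; intro w; rw [MulAut.mul_apply, hα, hβ]
    · left; intro w; rw [MulAut.mul_apply, hα, hβ, neg_neg]
  inv_mem' := by
    intro α hα
    rcases hα with hα | hα
    · left; intro w
      have h := hα (α⁻¹ w)
      rw [← MulAut.mul_apply, mul_inv_cancel, MulAut.one_apply] at h
      exact h.symm
    · right; intro w
      have h := hα (α⁻¹ w)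
      rw [← MulAut.mul_apply, mul_inv_cancel, MulAut.one_apply] at h
      rw [h, neg_neg]

/-- The action of `zD`. -/
def Zc : MulAut F2 := (P1 * P2) ^ 3

theorem mem_Pr_z : (zD, Zc) ∈ Pr := by
  have h1 : (σ 0, P1) ∈ Pr := CJ_P1
  have h2 : (σ 1, P2) ∈ Pr := CJ_P2
  exact Pr.pow_mem (Pr.mul_mem h1 h2) 3

theorem vec_P1 (w : F2) : vec (P1 w) = (!![1, -1; 0, 1] : Matrix (Fin 2) (Fin 2) ℤ).mulVec (vec w) := by
  refine vec_lin ?_ ?_ w
  · rw [P1_a, vec_a]
    ext i
    fin_cases i <;> simp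
  · rw [P1_b, vec_mul, vec_inv, vec_a, vec_b]
    ext i
    fin_cases i <;> simp

theorem vec_P2 (w : F2) : vec (P2 w) = (!![1, 0; 1, 1] : Matrix (Fin 2) (Fin 2) ℤ).mulVec (vec w) := by
  refine vec_lin ?_ ?_ w
  · rw [P2_a, vec_mul, vec_a, vec_b]
    ext i
    fin_cases i <;> simp
  · rw [P2_b, vec_b]
    ext i
    fin_cases i <;> simp

theorem vec_Zc (w : F2) : vec (Zc w) = -vec w := by
  unfold Zc
  have h3 : ((P1 * P2) ^ 3 : MulAut F2) w = P1 (P2 (P1 (P2 (P1 (P2 w))))) := by
    simp only [pow_succ, pow_zero, one_mul, MulAut.mul_apply]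
  rw [h3]
  simp only [vec_P1, vec_P2, Matrix.mulVec_mulVec]
  have hm : (!![1, -1; 0, 1] * (!![1, 0; 1, 1] * (!![1, -1; 0, 1] * (!![1, 0; 1, 1] *
      (!![1, -1; 0, 1] * !![1, 0; 1, 1])))) : Matrix (Fin 2) (Fin 2) ℤ) = -1 := by
    decide
  rw [hm, Matrix.neg_mulVec, Matrix.one_mulVec]

theorem mem_Sg_z : Zc ∈ Sg := Or.inr vec_Zc

theorem CJ_beta (k : F2) (j : ℤ) (w : F2) : CJ (iotaD k * zD ^ j) w ((Ac k * Zc ^ j) w) := by
  have h1 : (iotaD k, Ac k) ∈ Pr := CJ_Ac k
  have h2 : ((zD, Zc) : Braid4 × MulAut F2) ^ j ∈ Pr := Pr.zpow_mem mem_Pr_z j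
  exact Pr.mul_mem h1 h2 w

/-- The exponents of the covering and of the isogeny. -/
theorem vec_cov_iso (n : ℕ) (v : FreeGroup (Fin (n + 2))) :
    (dg n).mulVec (vec (covD n v)) = ((n : ℤ) + 1) • vec (isoD n v) := by
  refine word_ind' (p := fun v => (dg n).mulVec (vec (covD n v)) =
    ((n : ℤ) + 1) • vec (isoD n v)) ?_ ?_ ?_ ?_ ?_ v
  · rw [map_one, map_one, vec_one, Matrix.mulVec_zero, smul_zero]
  · unfold covD isoD
    rw [lift_d0, lift_d0]
    have h : ∀ m : ℕ, vec (b ^ m) = ![0, (m : ℤ)] := by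
      intro m
      induction m with
      | zero => rw [pow_zero, vec_one]; ext i; fin_cases i <;> simp
      | succ m ih =>
        rw [pow_succ, vec_mul, ih, vec_b]
        ext i
        fin_cases i <;> simp
    rw [h, vec_b]
    unfold dg
    ext i
    fin_cases i <;> simp
  · intro j
    unfold covD isoD
    rw [lift_dy, lift_dy]
    have h1 : vec (b ^ j.val * a * (b ^ j.val)⁻¹) = ![1, 0] := by
      rw [vec_mul, vec_mul, vec_inv, vec_a]
      abel
    have h2 : vec (if j = 0 then a else b * a * b⁻¹) = ![1, 0] := by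
      split_ifs
      · exact vec_a
      · rw [vec_mul, vec_mul, vec_inv, vec_a]
        abel
    rw [h1, h2]
    unfold dg
    ext i
    fin_cases i <;> simp
  · intro x hx
    rw [map_inv, map_inv, vec_inv, vec_inv, Matrix.mulVec_neg, hx, smul_neg]
  · intro x y hx hy
    rw [map_mul, map_mul, vec_mul, vec_mul, Matrix.mulVec_add, hx, hy, smul_add]

theorem mat_eq {A B : Matrix (Fin 2) (Fin 2) ℤ} {n : ℕ}
    (h1 : A.mulVec ![1, 0] = B.mulVec ![1, 0])
    (h2 : A.mulVec ![0, (n : ℤ) + 1] = B.mulVec ![0, (n : ℤ) + 1]) : A = B := by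
  have hn : ((n : ℤ) + 1) ≠ 0 := by positivity
  ext i j
  have e1 := congrFun h1 i
  have e2 := congrFun h2 i
  simp only [Matrix.mulVec, dotProduct, Fin.sum_univ_two] at e1 e2
  simp at e1 e2
  fin_cases j
  · exact e1
  · rcases e2 with e2 | e2
    · exact e2
    · exact absurd e2 hn

/-- RM. -/
theorem stRM_51 : StRM := by
  intro n h k j hR
  have key : ∀ v : FreeGroup (Fin (n + 2)), ∃ v', Ac h (covD n v) = covD n v' ∧
      vec ((Ac k * Zc ^ j) (isoD n v)) = vec (isoD n v') := by
    intro v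
    obtain ⟨w', h1, h2⟩ := hR (of v)
    rw [cov_of, jH_of, ← map_inv, ← map_mul, ← map_mul] at h1
    rw [iso_of, jH_of, ← map_inv, ← map_mul, ← map_mul] at h2
    have h3 : iotaD h * jD (covD n v) * (iotaD h)⁻¹ = jD (Ac h (covD n v)) := CJ_Ac h (covD n v)
    rw [h3, ← jH_of] at h1
    have h4 := T51.jH_inj h1
    have h5 : CY24.chi n (of (Ac h (covD n v))) = 1 := by rw [h4, chi_cov]
    rw [chi_of] at h5
    have h6 : ch (n + 1) (Ac h (covD n v)) = 0 := by
      rw [ch_vec]
      exact h5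
    obtain ⟨v', hv'⟩ := cov_surj h6
    refine ⟨v', hv'.symm, ?_⟩
    have h7 : w' = of v' := by
      apply cov_inj (n := n)
      rw [← h4, cov_of, hv']
    subst h7
    have h8 : iotaD k * zD ^ j * jD (isoD n v) * (iotaD k * zD ^ j)⁻¹ =
        jD ((Ac k * Zc ^ j) (isoD n v)) := CJ_beta k j (isoD n v)
    rw [h8, ← jH_of, iso_of] at h2
    exact of_vec (T51.jH_inj h2)
  have hv1 : vec (covD n (dy n 0)) = ![1, 0] := by
    unfold covD
    rw [lift_dy]
    rw [vec_mul, vec_mul, vec_inv, vec_a]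
    abel
  have hv2 : vec (covD n (FreeGroup.of 0)) = ![0, (n : ℤ) + 1] := by
    unfold covD
    rw [lift_d0]
    have h : ∀ m : ℕ, vec (b ^ m) = ![0, (m : ℤ)] := by
      intro m
      induction m with
      | zero => rw [pow_zero, vec_one]; ext i; fin_cases i <;> simp
      | succ m ih =>
        rw [pow_succ, vec_mul, ih, vec_b]
        ext i
        fin_cases i <;> simp
    rw [h]
    push_cast
    rfl
  have hZ : Zc ^ j ∈ Sg := Sg.zpow_mem mem_Sg_z j
  have main : ∀ (e : ℤ), (∀ w, vec ((Zc ^ j) w) = e • vec w) →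
      dg n * (matP h).1 = e • ((matP k).1 * dg n) := by
    intro e he
    have hall : ∀ v, (dg n * (matP h).1).mulVec (vec (covD n v)) =
        (e • ((matP k).1 * dg n)).mulVec (vec (covD n v)) := by
      intro v
      obtain ⟨v', h1, h2⟩ := key v
      have h3 := vec_Ac h (covD n v)
      have h4 := vec_cov_iso n v'
      have h5 := vec_cov_iso n v
      rw [MulAut.mul_apply, vec_Ac, he] at h2
      rw [← Matrix.mulVec_mulVec, ← h3, h1, h4, ← h2, Matrix.smul_mulVec, ← Matrix.mulVec_mulVec,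
        h5, Matrix.mulVec_smul, Matrix.mulVec_smul, smul_comm]
    refine mat_eq (n := n) ?_ ?_
    · rw [← hv1]; exact hall _
    · rw [← hv2]; exact hall _
  rcases hZ with hZ | hZ
  · left
    have := main 1 (fun w => by rw [hZ, one_smul])
    rw [one_smul] at this
    exact this
  · right
    have := main (-1) (fun w => by rw [hZ, neg_smul, one_smul])
    rw [neg_smul, one_smul] at this
    exact this

end MPb66790.HK24.RM51
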