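import Pool.Agent.Lib.MP_b66790_nt.Hecke.Orb24
import Pool.Agent.Lib.MP_b66790_nt.Hecke.RM51
import Pool.Agent.Lib.MP_b66790_nt.Hecke.M31
import Pool.Agent.Lib.MP_b66790_nt.Hecke.Cl32

/-!
# Row CL3: the closure lemma for dessins of type `(3, 2, ∞)`
-/

namespace MPb66790.HK24.Cl3_32

open MPb66790 MPb66790.CY24 MPb66790.HK24 MPb66790.Th57 MPb66790.CN57 Function

theorem iotD3_0 : iotD3 (FreeGroup.of 0) = σ 1 * σ 0 := by simp [iotD3]

theorem iotD3_1 : iotD3 (FreeGroup.of 1) = (σ 0 * σ 1 * σ 0)⁻¹ := by simp [iotD3]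

/-- The action. -/
def Ac3 : F2 →* MulAut F2 := FreeGroup.lift ![P2 * P1, (P1 * P2 * P1)⁻¹]

theorem Ac3_0 : Ac3 (FreeGroup.of 0) = P2 * P1 := by simp [Ac3]

theorem Ac3_1 : Ac3 (FreeGroup.of 1) = (P1 * P2 * P1)⁻¹ := by simp [Ac3]

theorem CJ_Ac3 (h : F2) : ∀ w, CJ (iotD3 h) w (Ac3 h w) := by
  refine word_ind (p := fun h => ∀ w, CJ (iotD3 h) w (Ac3 h w)) ?_ ?_ ?_ ?_ ?_ h
  · intro w
    unfold CJ
    simp
  · rw [iotD3_0, Ac3_0]
    exact CJ_mul CJ_P2 CJ_P1
  · rw [iotD3_1, Ac3_1]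
    exact CJ_inv (CJ_mul (CJ_mul CJ_P1 CJ_P2) CJ_P1)
  · intro x hx
    rw [map_inv, map_inv]
    exact CJ_inv hx
  · intro x y hx hy
    rw [map_mul, map_mul]
    exact CJ_mul hx hy

theorem vec_inv_aut {α : MulAut F2} {M N : Matrix (Fin 2) (Fin 2) ℤ} (hNM : N * M = 1)
    (h : ∀ w, vec (α w) = M.mulVec (vec w)) (w : F2) : vec (α⁻¹ w) = N.mulVec (vec w) := by
  have h1 := h (α⁻¹ w)
  rw [← MulAut.mul_apply, mul_inv_cancel, MulAut.one_apply] at h1
  rw [h1, Matrix.mulVec_mulVec, hNM, Matrix.one_mulVec]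

theorem vec_Ac3 (h : F2) : ∀ w, vec (Ac3 h w) = (matP3 h).1.mulVec (vec w) := by
  refine word_ind (p := fun h => ∀ w, vec (Ac3 h w) = (matP3 h).1.mulVec (vec w)) ?_ ?_ ?_ ?_ ?_ h
  · intro w
    simp
  · intro w
    have hm : (matP3 (FreeGroup.of 0)).1 = !![1, -1; 1, 0] := by simp [matP3]
    rw [hm, Ac3_0, MulAut.mul_apply, RM51.vec_P2, RM51.vec_P1, Matrix.mulVec_mulVec]
    congr 1
    decide
  · intro w
    have hm : (matP3 (FreeGroup.of 1)).1 = !![0, 1; -1, 0] := by simp [matP3]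
    rw [hm, Ac3_1]
    refine vec_inv_aut (M := !![0, -1; 1, 0]) (by decide) ?_ w
    intro w
    rw [MulAut.mul_apply, MulAut.mul_apply, RM51.vec_P1, RM51.vec_P2, RM51.vec_P1,
      Matrix.mulVec_mulVec, Matrix.mulVec_mulVec]
    congr 1
    decide
  · intro x hx w
    have h1 := hx (Ac3 x⁻¹ w)
    rw [← MulAut.mul_apply, ← map_mul, mul_inv_cancel, map_one, MulAut.one_apply] at h1
    rw [h1, Matrix.mulVec_mulVec, ← Matrix.SpecialLinearGroup.coe_mul, ← map_mul, inv_mul_cancel,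
      map_one]
    simp
  · intro x y hx hy w
    rw [map_mul, MulAut.mul_apply, hx, hy, Matrix.mulVec_mulVec, map_mul,
      Matrix.SpecialLinearGroup.coe_mul]

theorem iot3_of (k : F2) : iot3 (of k) = of (iotD3 k) := by
  unfold iot3 ev
  rw [lft_of]
  have h : (FreeGroup.lift ![s 1 * s 0, (s 0 * s 1 * s 0)⁻¹] : F2 →* Hat Braid4) =
      of.comp iotD3 := by
    refine FreeGroup.ext_hom _ _ (fun i => ?_)
    fin_cases i
    · show FreeGroup.lift _ (FreeGroup.of 0) = of (iotD3 (FreeGroup.of 0))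
      rw [FreeGroup.lift_apply_of, iotD3_0, map_mul, of_σ, of_σ]
      rfl
    · show FreeGroup.lift _ (FreeGroup.of 1) = of (iotD3 (FreeGroup.of 1))
      rw [FreeGroup.lift_apply_of, iotD3_1, map_inv, map_mul, map_mul, of_σ, of_σ]
      rfl
  rw [h]
  rfl

/-- The matrix of the action modulo `n + 1`. -/
noncomputable def MM3 (n : ℕ) : FHat 2 →* Matrix.SpecialLinearGroup (Fin 2) (ZMod (n + 1)) :=
  lftF ((Matrix.SpecialLinearGroup.map (Int.castRingHom (ZMod (n + 1)))).comp matP3)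

theorem MM3_of (n : ℕ) (k : F2) :
    (MM3 n (of k)).1 1 0 = (((matP3 k).1 1 0 : ℤ) : ZMod (n + 1)) := by
  unfold MM3
  rw [lftF_of]
  rfl

theorem vec_a3 (k : F2) : vec (Ac3 k (FreeGroup.of 1)) 1 = (matP3 k).1 1 0 := by
  rw [vec_Ac3]
  have hv : vec (FreeGroup.of 1) = ![1, 0] := vec_a
  rw [hv]
  simp [Matrix.mulVec, dotProduct, Fin.sum_univ_two]

/-- The lower left entry of the matrix of `iot3 x` is the `X`-exponent of the image of `Y`. -/
theorem entry3 (n : ℕ) (x z : FHat 2) (h : iot3 x * jH Y * (iot3 x)⁻¹ = jH z) :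
    CY24.chi n z = Multiplicative.ofAdd ((MM3 n x).1 1 0) := by
  have key : ∀ x : FHat 2, x ∈ Prod.fst '' {q : FHat 2 × FHat 2 |
      iot3 q.1 * jH Y * (iot3 q.1)⁻¹ = jH q.2 ∧
      CY24.chi n q.2 = Multiplicative.ofAdd ((MM3 n q.1).1 1 0)} := by
    refine fun x => hat_induction ?_ (fun k => ?_) x
    · refine (IsClosed.isCompact ?_).image continuous_fst |>.isClosed
      refine IsClosed.inter ?_ ?_
      · refine isClosed_eq ?_ ?_
        · exact ((iot3.continuous_toFun.comp continuous_fst).mul continuous_const).mul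
            (iot3.continuous_toFun.comp continuous_fst).inv
        · exact jH.continuous_toFun.comp continuous_snd
      · have hh : {q : FHat 2 × FHat 2 |
            CY24.chi n q.2 = Multiplicative.ofAdd ((MM3 n q.1).1 1 0)} =
            ⋃ c : ZMod (n + 1), ((MM3 n) ⁻¹' {A | A.1 1 0 = c}) ×ˢ
              ((CY24.chi n) ⁻¹' {Multiplicative.ofAdd c}) := by
          ext q
          simp only [Set.mem_ofPred_eq, Set.mem_iUnion, Set.mem_prod, Set.mem_preimage,
            Set.mem_singleton_iff]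
          constructor
          · intro hq
            exact ⟨_, rfl, hq⟩
          · rintro ⟨c, h1, h2⟩
            rw [h2, h1]
        change IsClosed {q : FHat 2 × FHat 2 | CY24.chi n q.2 =
          Multiplicative.ofAdd ((MM3 n q.1).1 1 0)}
        rw [hh]
        refine isClosed_iUnion_of_finite fun c => ?_
        exact (isClopen_lftF _ _).isClosed.prod (isClopen_lftF _ _).isClosed
    · refine ⟨(of k, of (Ac3 k (FreeGroup.of 1))), ⟨?_, ?_⟩, rfl⟩
      · show iot3 (of k) * jH (of (FreeGroup.of 1)) * (iot3 (of k))⁻¹ =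
          jH (of (Ac3 k (FreeGroup.of 1)))
        rw [iot3_of, Cl32.jH_of, Cl32.jH_of, ← map_inv, ← map_mul, ← map_mul]
        exact congrArg _ (CJ_Ac3 k (FreeGroup.of 1))
      · show CY24.chi n (of (Ac3 k (FreeGroup.of 1))) =
          Multiplicative.ofAdd ((MM3 n (of k)).1 1 0)
        rw [Cl32.chi_of, MM3_of, vec_a3]
  obtain ⟨⟨x', z'⟩, ⟨h1, h2⟩, h3⟩ := key x
  simp only at h1 h2 h3
  subst h3
  rw [h1] at h
  rw [← Cl32.jH_inj h]
  exact h2

theorem iotD3_range {g : Braid4} (hg : g ∈ B3) : ∃ k, g = iotD3 k := by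
  have h : B3 ≤ iotD3.range := by
    unfold B3
    rw [Subgroup.closure_le]
    have hb : σ 0 * σ 1 * σ 0 = σ 1 * σ 0 * σ 1 := isBraid_σ.1
    rintro x (rfl | rfl)
    · refine ⟨(FreeGroup.of 0 * FreeGroup.of 1)⁻¹, ?_⟩
      rw [map_inv, map_mul, iotD3_0, iotD3_1]
      group
    · refine ⟨FreeGroup.of 0 * FreeGroup.of 0 * FreeGroup.of 1, ?_⟩
      rw [map_mul, map_mul, iotD3_0, iotD3_1]
      have h2 : σ 1 * σ 0 * (σ 1 * σ 0) = σ 1 * (σ 0 * σ 1 * σ 0) := by group
      rw [h2, mul_assoc, mul_inv_cancel, mul_one]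
  obtain ⟨k, hk⟩ := h hg
  exact ⟨k, hk.symm⟩

theorem iotD3_mem (k : F2) : iotD3 k ∈ B3 := by
  refine word_ind (p := fun k => iotD3 k ∈ B3) ?_ ?_ ?_ ?_ ?_ k
  · rw [map_one]
    exact one_mem _
  · rw [iotD3_0]
    exact mul_mem (Subgroup.subset_closure (by simp)) (Subgroup.subset_closure (by simp))
  · rw [iotD3_1]
    exact inv_mem (mul_mem (mul_mem (Subgroup.subset_closure (by simp))
      (Subgroup.subset_closure (by simp))) (Subgroup.subset_closure (by simp)))
  · intro x hx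
    rw [map_inv]
    exact inv_mem hx
  · intro x y hx hy
    rw [map_mul]
    exact mul_mem hx hy

/-- Discrete pairs of partners. -/
def QQ3 (n : ℕ) : Set (FHat 2 × FHat 2) := {p | ∃ h k : F2, p = (of h, of k) ∧
  Rel n (of (iotD3 h)) (of (iotD3 k))}

theorem exists_v3 (hCNB : StCNB) (n : ℕ) (u : FHat 2) (hu : (MM3 n u).1 1 0 = 0) :
    ∃ v', (u, v') ∈ closure (QQ3 n) := by
  have hcl : IsClosed (Prod.fst '' closure (QQ3 n)) :=
    (isClosed_closure.isCompact.image continuous_fst).isClosed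
  have hO : IsOpen {x : FHat 2 | (MM3 n x).1 1 0 = 0} :=
    (isClopen_lftF _ {A : Matrix.SpecialLinearGroup (Fin 2) (ZMod (n + 1)) | A.1 1 0 = 0}).isOpen
  have h1 := (of_dense (Γ := F2)).open_subset_closure_inter hO
  have h2 : closure ({x : FHat 2 | (MM3 n x).1 1 0 = 0} ∩ Set.range (of : F2 → FHat 2)) ⊆
      Prod.fst '' closure (QQ3 n) := by
    refine closure_minimal ?_ hcl
    rintro _ ⟨hx, ⟨k, rfl⟩⟩
    have hx' : (MM3 n (of k)).1 1 0 = 0 := hx
    rw [MM3_of, ZMod.intCast_zmod_eq_zero_iff_dvd] at hx'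
    obtain ⟨β, hβ, hr⟩ := hCNB n (iotD3 k) (iotD3_mem k) (by
      intro w' hw'
      rw [M31.cj_unique (CJ_Ac3 k (FreeGroup.of 1)) hw', vec_a3]
      push_cast at hx'
      exact hx')
    obtain ⟨k', rfl⟩ := iotD3_range hβ
    exact ⟨(of k, of k'), subset_closure ⟨k, k', rfl, hr⟩, rfl⟩
  obtain ⟨⟨x, b⟩, hb, hxu⟩ := h2 (h1 hu)
  simp only at hxu
  subst hxu
  exact ⟨b, hb⟩

theorem matrix_zero3 {n : ℕ} {u : FHat 2} {g : Hat Braid4}
    (hrel : Rel n (iot3 u) g) : (MM3 n u).1 1 0 = 0 := by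
  obtain ⟨w', h1, -⟩ := hrel (gy 0)
  have hY : covMap n (gy 0) = Y := by
    rw [cov_gy, ZMod.val_zero]
    group
  rw [hY] at h1
  have h2 := entry3 n u _ h1
  rw [chi_cov] at h2
  exact (Multiplicative.ofAdd.injective h2).symm

theorem rel_closure3 {n : ℕ} {p : FHat 2 × FHat 2} (hp : p ∈ closure (QQ3 n)) :
    Rel n (iot3 p.1) (iot3 p.2) := by
  have hc : IsClosed ((fun p : FHat 2 × FHat 2 =>
      ((iot3 p.1, iot3 p.2) : Hat Braid4 × Hat Braid4)) ⁻¹'
      {p : Hat Braid4 × Hat Braid4 | Rel n p.1 p.2}) :=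
    (Cl32.rel_closed n).preimage ((iot3.continuous_toFun.comp continuous_fst).prodMk
      (iot3.continuous_toFun.comp continuous_snd))
  have h1 : closure (QQ3 n) ⊆
      ((fun p : FHat 2 × FHat 2 => ((iot3 p.1, iot3 p.2) : Hat Braid4 × Hat Braid4)) ⁻¹'
      {p : Hat Braid4 × Hat Braid4 | Rel n p.1 p.2}) := by
    refine closure_minimal ?_ hc
    rintro _ ⟨h, k, rfl, hr⟩
    have h2 : Rel n (iot3 (of h)) (iot3 (of k)) := by
      rw [iot3_of, iot3_of]
      exact hr
    exact h2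
  exact h1 hp

/-- The closure of the braid group on three strands. -/
noncomputable def DD3 : Subgroup (Hat Braid4) := (B3.map of).topologicalClosure

theorem DD3_closed : IsClosed (DD3 : Set (Hat Braid4)) := Subgroup.isClosed_topologicalClosure _

theorem of_mem_DD3 {β : Braid4} (h : β ∈ B3) : of β ∈ DD3 :=
  Subgroup.le_topologicalClosure _ (Subgroup.mem_map_of_mem _ h)

theorem iot3_mem (x : FHat 2) : iot3 x ∈ DD3 := by
  refine hat_induction (S := {x | iot3 x ∈ DD3}) ?_ (fun k => ?_) x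
  · exact DD3_closed.preimage iot3.continuous_toFun
  · show iot3 (of k) ∈ DD3
    rw [iot3_of]
    exact of_mem_DD3 (iotD3_mem k)

theorem zD_mem : zD ∈ B3 := pow_mem (mul_mem (Subgroup.subset_closure (by simp))
  (Subgroup.subset_closure (by simp))) 3

theorem powcB_mem (e : ZHat) : pow cB e ∈ DD3 := by
  refine hat_induction (S := {e : ZHat | pow cB e ∈ DD3}) ?_ (fun k => ?_) e
  · have h1 : Continuous (fun e : ZHat => pow cB e) := (ev (fun _ => cB)).continuous_toFun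
    exact DD3_closed.preimage h1
  · show pow cB (of k) ∈ DD3
    have h1 : pow cB (of k) ∈ Subgroup.zpowers cB := by
      unfold MPb66790.pow
      have h2 : (ev (fun _ : Fin 1 => cB) : ZHat →ₜ* Hat Braid4) (of k) =
          FreeGroup.lift (fun _ : Fin 1 => cB) k := by
        unfold ev
        rw [lft_of]
      rw [h2]
      have h3 : (FreeGroup.lift (fun _ : Fin 1 => cB) : FreeGroup (Fin 1) →* Hat Braid4).range ≤
          Subgroup.zpowers cB := by
        refine FreeGroup.range_lift_le ?_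
        rintro _ ⟨_, rfl⟩
        exact Subgroup.mem_zpowers _
      exact h3 ⟨k, rfl⟩
    have h4 : Subgroup.zpowers cB ≤ DD3 := by
      rw [Subgroup.zpowers_le, ← Cl32.of_zD]
      exact of_mem_DD3 zD_mem
    exact h4 h1

/-- An element of the closure of the braid group on three strands which centralises the image of
`jH` is a power of `ζ`. -/
theorem central3 {z : Hat Braid4} (hz : z ∈ DD3) (hc : ∀ w, Commute z (jH w)) :
    ∃ e : ZHat, z = pow cB e := by
  have hW : z ∈ Cl32.WW := by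
    have hp : ∀ x, Commute (perm z) (perm (jH x)) := by
      intro x
      have h1 : perm z * perm (jH x) = perm (jH x) * perm z := by
        rw [← map_mul, ← map_mul, (hc x).eq]
      exact h1
    exact ⟨by rw [← Cl32.perm_jH_Y]; exact hp Y, by rw [← Cl32.perm_jH_X]; exact hp X⟩
  have h1 : z ∈ closure (Cl32.WW ∩ ((B3.map of : Subgroup (Hat Braid4)) : Set (Hat Braid4))) :=
    Cl32.WW_open.inter_closure ⟨hW, hz⟩
  let GG : FHat 2 × ZHat → Hat Braid4 := fun q => iota q.1 * pow cB q.2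
  have hGc : Continuous GG := by
    have h1 : Continuous (fun e : ZHat => pow cB e) := (ev (fun _ => cB)).continuous_toFun
    exact (iota.continuous_toFun.comp continuous_fst).mul (h1.comp continuous_snd)
  have hcl : IsClosed (Set.range GG) := (isCompact_range hGc).isClosed
  have h2 : closure (Cl32.WW ∩ ((B3.map of : Subgroup (Hat Braid4)) : Set (Hat Braid4))) ⊆
      Set.range GG := by
    refine closure_minimal ?_ hcl
    rintro _ ⟨hw, ⟨β, hβ, rfl⟩⟩
    have hW2 : Commute (perm (of β)) Cl32.pa ∧ Commute (perm (of β)) Cl32.pb := hw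
    have hpe : perm (of β) = permHom β := lftF_of _ _
    rw [hpe] at hW2
    obtain ⟨k, j, rfl⟩ := Cl32.pure_of M31.stM2_31 hβ hW2.1 hW2.2
    refine ⟨(of k, zgen ^ j), ?_⟩
    show iota (of k) * pow cB (zgen ^ j) = of (iotaD k * zD ^ j)
    rw [map_mul, map_zpow, Cl32.of_zD, ← Cl32.iota_of, Cl32.pow_zp]
  obtain ⟨⟨u, e⟩, hu⟩ := h2 h1
  have hu' : iota u * pow cB e = z := hu
  have h3 : u = 1 := stF_67 u e fun w => by
    rw [hu']
    exact hc w
  refine ⟨e, ?_⟩
  rw [← hu', h3, map_one, one_mul]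

/-- Row CL3. -/
theorem stCl3_32 (hCNB : StCNB) (hRM : StRM3) : StCl3 := by
  intro n u v e hrel
  obtain ⟨v', hv'⟩ := exists_v3 hCNB n u (matrix_zero3 hrel)
  have hcomm := Cl32.comm_of_rel (rel_closure3 hv') hrel
  have hz : (iot3 v')⁻¹ * (iot3 v * pow cB e) ∈ DD3 :=
    mul_mem (inv_mem (iot3_mem v')) (mul_mem (iot3_mem v) (powcB_mem e))
  obtain ⟨e', he'⟩ := central3 hz hcomm
  refine ⟨v', e * e'⁻¹, ?_, ?_⟩
  · have h2 : pow cB (e * e'⁻¹) = pow cB e * (pow cB e')⁻¹ := by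
      rw [pow_mul']
      congr 1
      unfold MPb66790.pow
      rw [map_inv]
    rw [h2, ← mul_assoc, eq_mul_inv_iff_mul_eq, ← he', mul_inv_cancel_left]
  · refine closure_mono ?_ hv'
    rintro _ ⟨h, k, rfl, hr⟩
    refine ⟨h, k, hRM n h k 0 ?_, rfl⟩
    rw [zpow_zero, mul_one]
    exact hr

end MPb66790.HK24.Cl3_32
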