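import Pool.Agent.Lib.MP_b66790_nt.Hecke.Mix24
import Pool.Agent.Lib.MP_b66790_nt.Hecke.Cl3_32

/-!
# Row CLM: the closure lemma for an arbitrary dessin and a dessin of type `(3, 2, ∞)`
-/

namespace MPb66790.HK24.ClM_32

open MPb66790 MPb66790.CY24 MPb66790.HK24 MPb66790.Th57 MPb66790.CN57 Function

/-- Discrete pairs of partners. -/
def QQM (n : ℕ) : Set (FHat 2 × FHat 2) := {p | ∃ h k : F2, p = (of h, of k) ∧
  Rel n (of (iotaD h)) (of (iotD3 k))}

theorem exists_vM (hCN : StCN) (n : ℕ) (u : FHat 2) (hu : (Cl32.MM n u).1 1 0 = 0) :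
    ∃ v', (u, v') ∈ closure (QQM n) := by
  have hcl : IsClosed (Prod.fst '' closure (QQM n)) :=
    (isClosed_closure.isCompact.image continuous_fst).isClosed
  have hO : IsOpen {x : FHat 2 | (Cl32.MM n x).1 1 0 = 0} :=
    (isClopen_lftF _ {A : Matrix.SpecialLinearGroup (Fin 2) (ZMod (n + 1)) | A.1 1 0 = 0}).isOpen
  have h1 := (of_dense (Γ := F2)).open_subset_closure_inter hO
  have h2 : closure ({x : FHat 2 | (Cl32.MM n x).1 1 0 = 0} ∩ Set.range (of : F2 → FHat 2)) ⊆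
      Prod.fst '' closure (QQM n) := by
    refine closure_minimal ?_ hcl
    rintro _ ⟨hx, ⟨k, rfl⟩⟩
    have hx' : (Cl32.MM n (of k)).1 1 0 = 0 := hx
    rw [Cl32.MM_of, ZMod.intCast_zmod_eq_zero_iff_dvd] at hx'
    obtain ⟨β, hβ, hr⟩ := hCN n k (by push_cast at hx'; exact hx')
    obtain ⟨k', rfl⟩ := Cl3_32.iotD3_range hβ
    exact ⟨(of k, of k'), subset_closure ⟨k, k', rfl, hr⟩, rfl⟩
  obtain ⟨⟨x, b⟩, hb, hxu⟩ := h2 (h1 hu)
  simp only at hxu
  subst hxu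
  exact ⟨b, hb⟩

theorem rel_closureM {n : ℕ} {p : FHat 2 × FHat 2} (hp : p ∈ closure (QQM n)) :
    Rel n (iota p.1) (iot3 p.2) := by
  have hc : IsClosed ((fun p : FHat 2 × FHat 2 =>
      ((iota p.1, iot3 p.2) : Hat Braid4 × Hat Braid4)) ⁻¹'
      {p : Hat Braid4 × Hat Braid4 | Rel n p.1 p.2}) :=
    (Cl32.rel_closed n).preimage ((iota.continuous_toFun.comp continuous_fst).prodMk
      (iot3.continuous_toFun.comp continuous_snd))
  have h1 : closure (QQM n) ⊆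
      ((fun p : FHat 2 × FHat 2 => ((iota p.1, iot3 p.2) : Hat Braid4 × Hat Braid4)) ⁻¹'
      {p : Hat Braid4 × Hat Braid4 | Rel n p.1 p.2}) := by
    refine closure_minimal ?_ hc
    rintro _ ⟨h, k, rfl, hr⟩
    have h2 : Rel n (iota (of h)) (iot3 (of k)) := by
      rw [Cl32.iota_of, Cl3_32.iot3_of]
      exact hr
    exact h2
  exact h1 hp

/-- Row CLM. -/
theorem stClM_32 (hCN : StCN) (hRM : StRMM) : StClM := by
  intro n u v e hrel
  obtain ⟨v', hv'⟩ := exists_vM hCN n u (Cl32.matrix_zero M31.stM0_31 M31.stM1_31 hrel)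
  have hcomm := Cl32.comm_of_rel (rel_closureM hv') hrel
  have hz : (iot3 v')⁻¹ * (iot3 v * pow cB e) ∈ Cl3_32.DD3 :=
    mul_mem (inv_mem (Cl3_32.iot3_mem v')) (mul_mem (Cl3_32.iot3_mem v) (Cl3_32.powcB_mem e))
  obtain ⟨e', he'⟩ := Cl3_32.central3 hz hcomm
  refine ⟨v', e * e'⁻¹, ?_, ?_⟩
  · have h2 : pow cB (e * e'⁻¹) = pow cB e * (pow cB e')⁻¹ := by
      rw [pow_mul']
      congr 1
      unfold MPb66790.pow
      rw [map_inv]
    rw [h2, ← mul_assoc, eq_mul_inv_iff_mul_eq, ← he', mul_inv_cancel_left]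
  · refine closure_mono ?_ hv'
    rintro _ ⟨h, k, rfl, hr⟩
    refine ⟨h, k, hRM n h k 0 ?_, rfl⟩
    rw [zpow_zero, mul_one]
    exact hr

end MPb66790.HK24.ClM_32
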