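import Pool.Agent.Lib.MP_b66790_nt.Hecke.Orb24
import Pool.Agent.Lib.MP_b66790_nt.Hecke.Faith67
import Pool.Agent.Lib.MP_b66790_nt.Hecke.M31
import Pool.Agent.Lib.MP_b66790_nt.CY.Fin24

/-!
# Row CMP3: the comparison of the two actions on the group of type `(3, 2, ∞)`

The elements of the Grothendieck-Teichmueller group act on the profinite completion of the braid
group on three strands and on the free profinite group on two generators. We compare the two
actions on the quotient of the braid group by its centre, by the factorisation of the Belyi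
function of degree six from the `λ`-line to the `j`-line into `z²` and `z³`.
-/

namespace MPb66790.HK24

open MPb66790 MPb66790.CY24 Function

namespace Cmp67

section sym

variable {lam : ZHat} {f : FHat 2}

theorem evself (f : FHat 2) : ev ![X, Y] f = f := by
  have e3 : (![X, Y] : Fin 2 → FHat 2) = fun i => gen i := by
    funext i
    fin_cases i <;> rfl
  rw [e3, ev_gen_self]

theorem swp_f (h : IsGT lam f) : swpMap f = f⁻¹ := by
  have htwo : ev ![X, Y] f * ev ![Y, X] f = 1 := h.two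
  have h2 : ev ![Y, X] f = (ev ![X, Y] f)⁻¹ := ev_two htwo X Y
  rw [evself] at h2
  exact h2

/-- The swap, pointwise. -/
theorem swp_pt (h : IsGT lam f) (w : FHat 2) :
    phi lam f (swpMap w) = f⁻¹ * swpMap (phi lam f w) * f⁻¹⁻¹ := by
  refine rel_of_gen ?_ ?_ w
  · show phi lam f (swpMap X) = f⁻¹ * swpMap (phi lam f X) * f⁻¹⁻¹
    rw [swpMap_X, phi_Y, phi_X, map_pow', swpMap_X, inv_inv]
  · show phi lam f (swpMap Y) = f⁻¹ * swpMap (phi lam f Y) * f⁻¹⁻¹
    rw [swpMap_Y, phi_X, phi_Y, map_mul, map_mul, map_inv, swp_f h, map_pow', swpMap_Y]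
    group

/-- The rotation, pointwise. -/
theorem rot_pt (h : IsGT lam f) : ∃ c : FHat 2, ∀ w : FHat 2,
    phi lam f (rotMap w) = c * rotMap (phi lam f w) * c⁻¹ := by
  have htwo : ev ![X, Y] f * ev ![Y, X] f = 1 := h.two
  obtain ⟨m, hm, h3'⟩ := h.three
  have h3 : ev ![Z, X] f * pow Z m * ev ![Y, Z] f * pow Y m * ev ![X, Y] f * pow X m = 1 := h3'
  set a := ev ![Z, X] f with ha
  set b := ev ![Y, Z] f with hb
  rw [evself] at h3
  have hsw := congrArg swpMap h3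
  simp only [map_mul, map_one, map_pow', swpMap_X, swpMap_Y] at hsw
  have hZ' : swpMap Z = Y * Z * Y⁻¹ := by
    unfold Z
    rw [map_inv, map_mul, swpMap_X, swpMap_Y]
    group
  have hZ'' : swpMap Z = X⁻¹ * Z * X := by
    unfold Z
    rw [map_inv, map_mul, swpMap_X, swpMap_Y]
    group
  have esa : swpMap a = Y * b⁻¹ * Y⁻¹ := by
    rw [ha, map_ev2, swpMap_X, hZ', hb, ← ev_two htwo Y Z, conj_ev2]
    congr 3
    group
  have esb : swpMap b = X⁻¹ * a⁻¹ * X := by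
    rw [hb, map_ev2, swpMap_Y, hZ'', ha, ← ev_two htwo Z X]
    have := conj_ev2 X⁻¹ X Z f
    rw [inv_inv] at this
    rw [this]
    congr 3
    group
  rw [esa, esb, swp_f h, hZ'] at hsw
  rw [← conj_pow' Y Z m] at hsw
  have hYX : Y⁻¹ * X⁻¹ = Z := by
    unfold Z
    group
  have H2 : b⁻¹ * pow Z m * Z * a⁻¹ * X * pow X m * f⁻¹ * pow Y m * Y = 1 := by
    calc b⁻¹ * pow Z m * Z * a⁻¹ * X * pow X m * f⁻¹ * pow Y m * Y
        = Y⁻¹ * (Y * b⁻¹ * Y⁻¹ * (Y * pow Z m * Y⁻¹) * (X⁻¹ * a⁻¹ * X) * pow X m * f⁻¹ *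
          pow Y m) * Y := by
          rw [← hYX]
          group
      _ = 1 := by
          rw [hsw]
          group
  have h6' : pow X m * (a * pow Z m * b * pow Y m * f) = 1 := by
    have : a * pow Z m * b * pow Y m * f * pow X m = 1 := h3
    exact mul_eq_one_comm.1 this
  have h5 : pow X m * a * pow Z m = f⁻¹ * (pow Y m)⁻¹ * b⁻¹ := by
    calc pow X m * a * pow Z m
        = pow X m * (a * pow Z m * b * pow Y m * f) * (f⁻¹ * (pow Y m)⁻¹ * b⁻¹) := by group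
      _ = f⁻¹ * (pow Y m)⁻¹ * b⁻¹ := by rw [h6', one_mul]
  have hphiZ : phi lam f Z = pow X m * a * pow Z lam * a⁻¹ * (pow X m)⁻¹ := by
    have h4 : phi lam f Z = (phi lam f Y)⁻¹ * (phi lam f X)⁻¹ := by
      conv_lhs => unfold Z
      rw [map_inv, map_mul, mul_inv_rev]
    rw [h4, phi_X, phi_Y, hm, pow_lam, pow_lam, pow_lam]
    have cZ := (comm_pow_self Z m).eq
    have cX := (comm_pow_self X m).eq
    have cY := (comm_pow_self Y m).eq
    have h6 : pow Z m * Z * a⁻¹ * X * pow X m = b * Y⁻¹ * (pow Y m)⁻¹ * f := by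
      calc pow Z m * Z * a⁻¹ * X * pow X m
          = b * (b⁻¹ * pow Z m * Z * a⁻¹ * X * pow X m * f⁻¹ * pow Y m * Y) *
            (Y⁻¹ * (pow Y m)⁻¹ * f) := by group
        _ = b * Y⁻¹ * (pow Y m)⁻¹ * f := by rw [H2]; group
    have h7 : (pow X m * a * pow Z m) * (pow Z m * Z * a⁻¹ * X * pow X m) =
        f⁻¹ * (pow Y m)⁻¹ * Y⁻¹ * (pow Y m)⁻¹ * f := by
      rw [h5, h6]
      group
    have h8 : (f⁻¹ * (Y * pow Y m * pow Y m) * f)⁻¹ =
        f⁻¹ * (pow Y m)⁻¹ * Y⁻¹ * (pow Y m)⁻¹ * f := by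
      rw [cY]
      group
    rw [h8, ← h7]
    have h9 : pow Z m * pow Z m * Z = Z * pow Z m * pow Z m := by
      rw [mul_assoc, ← cZ, ← mul_assoc, ← cZ]
    have h10 : X * (pow X m)⁻¹ * X⁻¹ = (pow X m)⁻¹ := by
      rw [((comm_pow_self X m).inv_right).eq, mul_inv_cancel_right]
    calc (pow X m * a * pow Z m) * (pow Z m * Z * a⁻¹ * X * pow X m) *
          (X * pow X m * pow X m)⁻¹
        = pow X m * a * (pow Z m * pow Z m * Z) * a⁻¹ * (X * (pow X m)⁻¹ * X⁻¹) := by group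
      _ = pow X m * a * (Z * pow Z m * pow Z m) * a⁻¹ * (pow X m)⁻¹ := by rw [h9, h10]
  refine ⟨f⁻¹ * (pow Y m)⁻¹, ?_⟩
  refine rel_of_gen ?_ ?_
  · show phi lam f (rotMap X) = f⁻¹ * (pow Y m)⁻¹ * rotMap (phi lam f X) *
      (f⁻¹ * (pow Y m)⁻¹)⁻¹
    rw [rotMap_X, phi_Y, phi_X, map_pow', rotMap_X]
    have c : Commute (pow Y m) (pow Y lam) := commute_pow (comm_pow_self Y m).symm lam
    calc f⁻¹ * pow Y lam * f = f⁻¹ * (pow Y m)⁻¹ * (pow Y m * pow Y lam) * f := by group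
      _ = f⁻¹ * (pow Y m)⁻¹ * (pow Y lam * pow Y m) * f := by rw [c.eq]
      _ = _ := by group
  · show phi lam f (rotMap Y) = f⁻¹ * (pow Y m)⁻¹ * rotMap (phi lam f Y) *
      (f⁻¹ * (pow Y m)⁻¹)⁻¹
    have ebf : rotMap f = b := rfl
    rw [rotMap_Y, hphiZ, phi_Y, map_mul, map_mul, map_inv, ebf, map_pow', rotMap_Y]
    have c : Commute (pow Z m) (pow Z lam) := commute_pow (comm_pow_self Z m).symm lam
    calc pow X m * a * pow Z lam * a⁻¹ * (pow X m)⁻¹
        = pow X m * a * (pow Z lam * pow Z m) * (pow X m * a * pow Z m)⁻¹ := by group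
      _ = (pow X m * a * pow Z m) * pow Z lam * (pow X m * a * pow Z m)⁻¹ := by
          rw [← c.eq]; group
      _ = (f⁻¹ * (pow Y m)⁻¹ * b⁻¹) * pow Z lam * (f⁻¹ * (pow Y m)⁻¹ * b⁻¹)⁻¹ := by rw [← h5]
      _ = _ := by group

end sym

/-! ### The cyclic covers -/

section cover

/-- The inclusion of the group of the sphere minus `1, ζ ^ i` and a third point. -/
noncomputable def kap (n : ℕ) (i : ZMod (n + 1)) : FHat 2 →ₜ* FHat 2 :=
  ev ![Y, X ^ i.val * Y * (X ^ i.val)⁻¹]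

theorem kap_X (n : ℕ) (i : ZMod (n + 1)) : kap n i X = Y := ev_gen _ _

theorem kap_Y (n : ℕ) (i : ZMod (n + 1)) : kap n i Y = X ^ i.val * Y * (X ^ i.val)⁻¹ := ev_gen _ _

theorem cov_sig {n : ℕ} (i : ZMod (n + 1)) (p : FHat 2) :
    covMap n (ev ![gy 0, gy i] p) = kap n i p := by
  rw [map_ev2, cov_gy, cov_gy, ZMod.val_zero, pow_zero, one_mul, inv_one, mul_one]
  rfl

theorem fill_sig {n : ℕ} {i l : ZMod (n + 1)} (h0 : i ≠ 0) (p : FHat 2) :
    ev (fillThree n i l) (ev ![gy 0, gy i] p) = p := by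
  rw [map_ev2]
  have e0 : ev (fillThree n i l) (gy (0 : ZMod (n + 1))) = X := by
    unfold fillThree
    rw [ev_gy, if_pos rfl]
  have e1 : ev (fillThree n i l) (gy i) = Y := by
    unfold fillThree
    rw [ev_gy, if_neg h0, if_pos rfl]
  rw [e0, e1, evself]

variable {lam : ZHat} {f : FHat 2} {T : Type} [Group T]

theorem step (h : IsGT lam f) {n : ℕ} {i l i' l' : ZMod (n + 1)} (h0 : i ≠ 0) (hil : i ≠ l)
    (hi' : red n lam * i = i') (hl' : red n lam * l = l') (q : FHat 2 →* T)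
    (hq : ∀ w : FHat (n + 2), q (covMap n w) = q (kap n i' (ev (fillThree n i' l') w))) :
    ∃ g : FHat 2, ∀ p, q (phi lam f (kap n i p)) = q (kap n i' (g⁻¹ * phi lam f p * g)) := by
  obtain ⟨k, Φ, mm, L⟩ := exists_lift n h
  obtain ⟨g, hg⟩ := compat_three h L h0 hil
  refine ⟨g, fun p => ?_⟩
  have h1 := hg (ev ![gy 0, gy i] p)
  rw [fill_sig h0, hi', hl'] at h1
  rw [← cov_sig, ← L.hcov, hq, ← h1]
  congr 2
  group

end cover

/-! ### Composition -/

section comp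

/-- Words in the modular group. -/
theorem wp {G : Type} [Group G] {x y : G} (hx : x ^ 3 = 1) (hy : y ^ 2 = 1) :
    x⁻¹ = x * x ∧ y⁻¹ = y ∧ (∀ t, x * (x * (x * t)) = t) ∧ (∀ t, y * (y * t) = t) ∧
      x * (x * x) = 1 ∧ y * y = 1 := by
  have h1 : x * (x * x) = 1 := by
    rw [← hx, pow_succ, pow_two, mul_assoc]
  have h2 : y * y = 1 := by
    rw [← hy, pow_two]
  refine ⟨?_, ?_, ?_, ?_, h1, h2⟩
  · exact inv_eq_of_mul_eq_one_right h1
  · exact inv_eq_of_mul_eq_one_right h2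
  · intro t
    calc x * (x * (x * t)) = x * (x * x) * t := by group
      _ = t := by rw [h1, one_mul]
  · intro t
    rw [← mul_assoc, h2, one_mul]

/-- The group of type `(3, 3, ∞)` in the group of type `(3, 2, ∞)`. -/
noncomputable def bet : FHat 2 →ₜ* FHat 2 := swpMap.comp (kap 1 1)

noncomputable def bro : FHat 2 →ₜ* FHat 2 := bet.comp rotMap

/-- The group of type `(∞, ∞, ∞)` in the group of type `(3, 2, ∞)`. -/
noncomputable def alp : FHat 2 →ₜ* FHat 2 := bro.comp (kap 2 1)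

theorem bet_X : bet X = X := by
  show swpMap (kap 1 1 X) = X
  rw [kap_X, swpMap_Y]

theorem bet_Y : bet Y = Y * X * Y⁻¹ := by
  show swpMap (kap 1 1 Y) = _
  have e : (1 : ZMod (1 + 1)).val = 1 := rfl
  rw [kap_Y, e, pow_one, map_mul, map_mul, map_inv, swpMap_X, swpMap_Y]

theorem bet_Z : bet Z = (X * (Y * X * Y⁻¹))⁻¹ := by
  unfold Z
  rw [map_inv, map_mul, bet_X, bet_Y]

theorem bro_X : bro X = Y * X * Y⁻¹ := by
  show bet (rotMap X) = _
  rw [rotMap_X, bet_Y]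

theorem bro_Y : bro Y = (X * (Y * X * Y⁻¹))⁻¹ := by
  show bet (rotMap Y) = _
  rw [rotMap_Y, bet_Z]

theorem bro_XY : bro (X * Y) = X⁻¹ := by
  rw [map_mul, bro_X, bro_Y]
  group

theorem alp_X : alp X = (X * (Y * X * Y⁻¹))⁻¹ := by
  show bro (kap 2 1 X) = _
  rw [kap_X, bro_Y]

theorem alp_Y : alp Y = (Y * X * Y⁻¹) * (X * (Y * X * Y⁻¹))⁻¹ * (Y * X * Y⁻¹)⁻¹ := by
  show bro (kap 2 1 Y) = _
  have e : (1 : ZMod (2 + 1)).val = 1 := rfl
  rw [kap_Y, e, pow_one, map_mul, map_mul, map_inv, bro_X, bro_Y]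

variable {lam : ZHat} {f : FHat 2} {T : Type} [Group T] [TopologicalSpace T] [T2Space T]

theorem hq1 (q : FHat 2 →* T) (hqc : Continuous q) (hY : q Y ^ 2 = 1) (w : FHat 3) :
    q (swpMap (covMap 1 w)) = q (swpMap (kap 1 1 (ev (fillThree 1 1 0) w))) := by
  refine gen_ext (n := 1) (φ := q.comp (swpMap.toMonoidHom.comp (covMap 1).toMonoidHom))
    (ψ := q.comp (swpMap.toMonoidHom.comp ((kap 1 1).toMonoidHom.comp
      (ev (fillThree 1 1 0) : FHat (1 + 2) →ₜ* FHat 2).toMonoidHom)))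
    (hqc.comp (swpMap.continuous_toFun.comp (covMap 1).continuous_toFun))
    (hqc.comp (swpMap.continuous_toFun.comp ((kap 1 1).continuous_toFun.comp
      (ev (fillThree 1 1 0) : FHat (1 + 2) →ₜ* FHat 2).continuous_toFun))) ?_ ?_ w
  · show q (swpMap (covMap 1 (g0 1))) =
      q (swpMap (kap 1 1 ((ev (fillThree 1 1 0) : FHat (1 + 2) →ₜ* FHat 2) (g0 1))))
    have e : (ev (fillThree 1 1 0) : FHat (1 + 2) →ₜ* FHat 2) (g0 1) = 1 := ev_g0 _ _
    rw [e, map_one, map_one, map_one, cov_g0, map_pow, swpMap_X, map_pow, hY]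
  · intro j
    show q (swpMap (covMap 1 (gy j))) =
      q (swpMap (kap 1 1 ((ev (fillThree 1 1 0) : FHat (1 + 2) →ₜ* FHat 2) (gy j))))
    have hj : j = 0 ∨ j = 1 := by
      revert j
      decide
    rcases hj with rfl | rfl
    · have e : (ev (fillThree 1 1 0) : FHat (1 + 2) →ₜ* FHat 2) (gy 0) = X := ev_gy _ _ _
      rw [e, kap_X, cov_gy, ZMod.val_zero, pow_zero, one_mul, inv_one, mul_one]
    · have e : (ev (fillThree 1 1 0) : FHat (1 + 2) →ₜ* FHat 2) (gy 1) = Y := ev_gy _ _ _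
      rw [e, kap_Y, cov_gy]

theorem hq2 (q : FHat 2 →* T) (hqc : Continuous q) (hX : q X ^ 3 = 1) (hXY : q (X * Y) ^ 3 = 1)
    {r r' : ZMod (2 + 1)} (hr : (r = 1 ∧ r' = 2) ∨ (r = 2 ∧ r' = 1)) (w : FHat 4) :
    q (covMap 2 w) = q (kap 2 r (ev (fillThree 2 r r') w)) := by
  rw [map_mul] at hXY
  refine gen_ext (n := 2) (φ := q.comp (covMap 2).toMonoidHom)
    (ψ := q.comp ((kap 2 r).toMonoidHom.comp
      (ev (fillThree 2 r r') : FHat (2 + 2) →ₜ* FHat 2).toMonoidHom))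
    (hqc.comp (covMap 2).continuous_toFun)
    (hqc.comp ((kap 2 r).continuous_toFun.comp
      (ev (fillThree 2 r r') : FHat (2 + 2) →ₜ* FHat 2).continuous_toFun)) ?_ ?_ w
  · show q (covMap 2 (g0 2)) =
      q (kap 2 r ((ev (fillThree 2 r r') : FHat (2 + 2) →ₜ* FHat 2) (g0 2)))
    have e : (ev (fillThree 2 r r') : FHat (2 + 2) →ₜ* FHat 2) (g0 2) = 1 := ev_g0 _ _
    rw [e, map_one, map_one, cov_g0, map_pow]
    exact hX
  · intro j
    show q (covMap 2 (gy j)) =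
      q (kap 2 r ((ev (fillThree 2 r r') : FHat (2 + 2) →ₜ* FHat 2) (gy j)))
    have e : (ev (fillThree 2 r r') : FHat (2 + 2) →ₜ* FHat 2) (gy j) =
      if j = 0 then X else if j = r then Y else
        if j = r' then (if r.val < r'.val then Z else (Y * X)⁻¹) else 1 := ev_gy _ _ _
    have hj0 : ∀ j : ZMod (2 + 1), j = 0 ∨ j = 1 ∨ j = 2 := by decide
    have hj := hj0 j
    have v0 : (0 : ZMod (2 + 1)).val = 0 := rfl
    have v1 : (1 : ZMod (2 + 1)).val = 1 := rfl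
    have v2 : (2 : ZMod (2 + 1)).val = 2 := rfl
    have d10 : (1 : ZMod (2 + 1)) ≠ 0 := by decide
    have d20 : (2 : ZMod (2 + 1)) ≠ 0 := by decide
    have d21 : (2 : ZMod (2 + 1)) ≠ 1 := by decide
    have d12 : (1 : ZMod (2 + 1)) ≠ 2 := by decide
    set x := q X with hx
    set y := q Y with hy
    have h3 : x * y * (x * y) * (x * y) = 1 := by
      rw [← hXY, pow_succ, pow_two]
    rcases hr with ⟨rfl, rfl⟩ | ⟨rfl, rfl⟩
    · rcases hj with rfl | rfl | rfl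
      · rw [if_pos rfl] at e
        rw [e, kap_X, cov_gy, v0, pow_zero, one_mul, inv_one, mul_one]
      · rw [if_neg d10, if_pos rfl] at e
        rw [e, kap_Y, cov_gy]
      · rw [if_neg d20, if_neg d21, if_pos rfl, if_pos (by decide)] at e
        rw [e]
        unfold Z
        simp only [map_inv, map_mul, kap_X, kap_Y, cov_gy, v1, v2, map_pow, pow_one, ← hx, ← hy]
        rw [eq_inv_iff_mul_eq_one]
        rw [pow_two]
        calc x * x * y * (x * x)⁻¹ * (y * (x * y * x⁻¹))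
            = x * x * y * (x ^ 3)⁻¹ * x * (y * (x * y * x⁻¹)) := by
              rw [pow_succ, pow_two]
              group
          _ = x * (x * y * (x * y) * (x * y)) * x⁻¹ := by
              rw [hX]
              group
          _ = 1 := by
              rw [h3]
              group
    · rcases hj with rfl | rfl | rfl
      · rw [if_pos rfl] at e
        rw [e, kap_X, cov_gy, v0, pow_zero, one_mul, inv_one, mul_one]
      · rw [if_neg d10, if_neg d12, if_pos rfl, if_neg (by decide)] at e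
        rw [e]
        simp only [map_inv, map_mul, kap_X, kap_Y, cov_gy, v1, v2, map_pow, pow_one, ← hx, ← hy]
        rw [eq_inv_iff_mul_eq_one]
        rw [pow_two]
        calc x * y * x⁻¹ * (x * x * y * (x * x)⁻¹ * y)
            = x * y * x * y * (x ^ 3)⁻¹ * x * y := by
              rw [pow_succ, pow_two]
              group
          _ = x * y * (x * y) * (x * y) := by
              rw [hX]
              group
          _ = 1 := h3
      · rw [if_neg d20, if_pos rfl] at e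
        rw [e, kap_Y, cov_gy]

theorem turn (q : FHat 2 →* T) (hqc : Continuous q) (hX : q X ^ 3 = 1) (hY : q Y ^ 2 = 1)
    (w : FHat 2) :
    q (bro (kap 2 2 w)) = q (Z * alp w * Z⁻¹) := by
  obtain ⟨xi, yi, hx', hy', hx3, hy2⟩ := wp hX hY
  refine FHat2_ext (φ := q.comp (bro.toMonoidHom.comp (kap 2 2).toMonoidHom))
    (ψ := q.comp ((MulAut.conj Z).toMonoidHom.comp alp.toMonoidHom))
    (hqc.comp (bro.continuous_toFun.comp (kap 2 2).continuous_toFun))
    (hqc.comp ((continuous_const.mul alp.continuous_toFun).mul continuous_const)) ?_ ?_ w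
  · show q (bro (kap 2 2 X)) = q (Z * alp X * Z⁻¹)
    rw [kap_X, bro_Y, alp_X]
    unfold Z
    simp only [map_mul, map_inv, mul_inv_rev, inv_inv, xi, yi, mul_assoc, hx', hy', hx3, hy2,
      mul_one]
  · show q (bro (kap 2 2 Y)) = q (Z * alp Y * Z⁻¹)
    have v2 : (2 : ZMod (2 + 1)).val = 2 := rfl
    rw [kap_Y, v2, pow_two, map_mul bro, map_mul bro, map_inv bro, map_mul bro, bro_X, bro_Y,
      alp_Y]
    unfold Z
    simp only [map_mul, map_inv, mul_inv_rev, inv_inv, xi, yi, mul_assoc, hx', hy', hx3, hy2,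
      mul_one]

theorem chain (h : IsGT lam f) (q : FHat 2 →* T) (hqc : Continuous q)
    (hX : q X ^ 3 = 1) (hY : q Y ^ 2 = 1) :
    ∃ C : FHat 2, ∀ p, q (phi lam f (alp p)) = q (C * alp (phi lam f p) * C⁻¹) := by
  have o1 : (1 : ZMod (1 + 1)) ≠ 0 := by decide
  have o2 : (1 : ZMod (2 + 1)) ≠ 0 := by decide
  have r1 : red 1 lam * 1 = 1 := by
    have h1 : red 1 lam * 1 ≠ 0 := fun e => o1 (red_unit h e)
    have h2 : ∀ z : ZMod (1 + 1), z ≠ 0 → z = 1 := by decide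
    exact h2 _ h1
  obtain ⟨g1, hg1⟩ := step h (n := 1) (i := 1) (l := 0) (i' := 1) (l' := 0) o1
    o1 r1 (mul_zero _) (q.comp swpMap.toMonoidHom) (hq1 q hqc hY)
  obtain ⟨c, hc⟩ := rot_pt h
  have b3 : (q.comp bro.toMonoidHom) X ^ 3 = 1 := by
    show q (bro X) ^ 3 = 1
    rw [bro_X, map_mul, map_mul, map_inv, conj_pow, hX]
    group
  have b4 : (q.comp bro.toMonoidHom) (X * Y) ^ 3 = 1 := by
    show q (bro (X * Y)) ^ 3 = 1
    rw [bro_XY, map_inv, inv_pow, hX, inv_one]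
  have hbc : Continuous (q.comp bro.toMonoidHom) := hqc.comp bro.continuous_toFun
  obtain ⟨g2, t, hg2⟩ : ∃ g t : FHat 2, ∀ p, q (bro (phi lam f (kap 2 1 p))) =
      q (t * alp (g⁻¹ * phi lam f p * g) * t⁻¹) := by
    have h1 : red 2 lam * 1 ≠ 0 := fun e => o2 (red_unit h e)
    have h2 : ∀ z : ZMod (2 + 1), z * 1 ≠ 0 → z = 1 ∨ z = 2 := by decide
    rcases h2 _ h1 with e | e
    · obtain ⟨g2, hg2⟩ := step h (n := 2) (i := 1) (l := 2) (i' := 1) (l' := 2) o2
        (by decide) (by rw [e]; decide) (by rw [e]; decide) (q.comp bro.toMonoidHom)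
        (hq2 _ hbc b3 b4 (Or.inl ⟨rfl, rfl⟩))
      refine ⟨g2, 1, fun p => ?_⟩
      have h3 : q (bro (phi lam f (kap 2 1 p))) = q (bro (kap 2 1 (g2⁻¹ * phi lam f p * g2))) :=
        hg2 p
      rw [h3, one_mul, inv_one, mul_one]
      rfl
    · obtain ⟨g2, hg2⟩ := step h (n := 2) (i := 1) (l := 2) (i' := 2) (l' := 1) o2
        (by decide) (by rw [e]; decide) (by rw [e]; decide) (q.comp bro.toMonoidHom)
        (hq2 _ hbc b3 b4 (Or.inr ⟨rfl, rfl⟩))
      refine ⟨g2, Z, fun p => ?_⟩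
      have h3 : q (bro (phi lam f (kap 2 1 p))) = q (bro (kap 2 2 (g2⁻¹ * phi lam f p * g2))) :=
        hg2 p
      rw [h3, turn q hqc hX hY]
  refine ⟨f⁻¹ * bet (g1⁻¹ * c) * t * alp g2⁻¹, fun p => ?_⟩
  have h1 : phi lam f (alp p) = f⁻¹ * swpMap (phi lam f (kap 1 1 (rotMap (kap 2 1 p)))) * f⁻¹⁻¹ :=
    swp_pt h _
  have h2 : q (swpMap (phi lam f (kap 1 1 (rotMap (kap 2 1 p))))) =
      q (swpMap (kap 1 1 (g1⁻¹ * phi lam f (rotMap (kap 2 1 p)) * g1))) := hg1 _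
  have h3 : swpMap (kap 1 1 (g1⁻¹ * (c * rotMap (phi lam f (kap 2 1 p)) * c⁻¹) * g1)) =
      bet (g1⁻¹ * c) * bro (phi lam f (kap 2 1 p)) * (bet (g1⁻¹ * c))⁻¹ := by
    show bet (g1⁻¹ * (c * rotMap (phi lam f (kap 2 1 p)) * c⁻¹) * g1) =
      bet (g1⁻¹ * c) * bet (rotMap (phi lam f (kap 2 1 p))) * (bet (g1⁻¹ * c))⁻¹
    rw [← map_inv, ← map_mul, ← map_mul]
    congr 1
    group
  rw [h1, map_mul, map_mul, h2, hc, h3, map_mul, map_mul, hg2]
  simp only [map_mul, map_inv]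
  group

end comp

/-! ### The centre and the quotient -/

section quot

variable {lam : ZHat} {f : FHat 2}

theorem all_mem (S : Subgroup (FHat 2)) (hc : IsClosed (S : Set (FHat 2))) (hX : X ∈ S)
    (hY : Y ∈ S) (w : FHat 2) : w ∈ S := by
  have h1 : ∀ g : F2, (of g : FHat 2) ∈ S := by
    intro g
    have h2 : (⊤ : Subgroup F2) ≤ S.comap (of : F2 →* FHat 2) := by
      rw [← FreeGroup.closure_range_of, Subgroup.closure_le]
      rintro _ ⟨i, rfl⟩
      fin_cases i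
      · exact hX
      · exact hY
    exact h2 (Subgroup.mem_top g)
  exact of_dense.induction_on (p := fun w => w ∈ S) w hc h1

/-- The powers of `ζ`. -/
noncomputable def ZC : Subgroup (Hat Braid4) :=
  (ev (fun _ : Fin 1 => cB) : ZHat →ₜ* Hat Braid4).toMonoidHom.range

theorem pow_mem_ZC (e : ZHat) : pow cB e ∈ ZC := ⟨e, rfl⟩

theorem cB_mem : cB ∈ ZC := ⟨zgen, pow_zgen cB⟩

theorem isClosed_ZC : IsClosed (ZC : Set (Hat Braid4)) :=
  (isCompact_range (ev (fun _ : Fin 1 => cB) : ZHat →ₜ* Hat Braid4).continuous_toFun).isClosed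

theorem comm_iot3 (w : FHat 2) : Commute cB (iot3 w) := by
  unfold iot3
  refine commute_ev (fun i => ?_) w
  fin_cases i
  · exact comm_cB_one.mul_right comm_cB_zero
  · exact ((comm_cB_zero.mul_right comm_cB_one).mul_right comm_cB_zero).inv_right

theorem comm_ZC {g : Hat Braid4} (hg : g ∈ ZC) (w : FHat 2) : Commute g (iot3 w) := by
  obtain ⟨e, rfl⟩ := hg
  exact (commute_pow (comm_iot3 w).symm e).symm

theorem iot3_X : iot3 X = s 1 * s 0 := ev_gen _ _

theorem iot3_Y : iot3 Y = (s 0 * s 1 * s 0)⁻¹ := ev_gen _ _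

theorem iot3_X3 : iot3 (X ^ 3) = cB := by
  rw [map_pow, iot3_X]
  calc (s 1 * s 0) ^ 3 = (s 1 * (s 0 * s 1) * (s 1)⁻¹) ^ 3 := by
        congr 1
        group
    _ = s 1 * cB * (s 1)⁻¹ := conj_pow
    _ = cB := by rw [← comm_cB_one.eq, mul_inv_cancel_right]

theorem iot3_Y2 : iot3 (Y ^ 2) = cB⁻¹ := by
  have hb : s 0 * s 1 * s 0 = s 1 * s 0 * s 1 := isBraid_s.1
  rw [map_pow, iot3_Y, inv_pow, pow_two]
  congr 1
  calc s 0 * s 1 * s 0 * (s 0 * s 1 * s 0) = s 0 * s 1 * s 0 * (s 1 * s 0 * s 1) := by rw [← hb]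
    _ = cB := by
      unfold cB
      rw [pow_succ, pow_two]
      group

/-- The kernel modulo the powers of `ζ`. -/
noncomputable def N0 : Subgroup (FHat 2) := ZC.comap iot3.toMonoidHom

theorem mem_N0 {w : FHat 2} : w ∈ N0 ↔ iot3 w ∈ ZC := Iff.rfl

instance : N0.Normal := ⟨fun n hn g => by
  have hn' : iot3 n ∈ ZC := hn
  rw [mem_N0, map_mul, map_mul, map_inv, ← (comm_ZC hn' g).eq, mul_inv_cancel_right]
  exact hn'⟩

theorem isClosed_N0 : IsClosed (N0 : Set (FHat 2)) := isClosed_ZC.preimage iot3.continuous_toFun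

theorem X3_mem : X ^ 3 ∈ N0 := by
  show iot3 (X ^ 3) ∈ ZC
  rw [iot3_X3]
  exact cB_mem

theorem Y2_mem : Y ^ 2 ∈ N0 := by
  show iot3 (Y ^ 2) ∈ ZC
  rw [iot3_Y2]
  exact inv_mem cB_mem

theorem phiX3_mem : phi lam f (X ^ 3) ∈ N0 := by
  show iot3 (phi lam f (X ^ 3)) ∈ ZC
  rw [map_pow, phi_X, ← pow_npow', map_pow', iot3_X3]
  exact pow_mem_ZC lam

theorem phiY2_mem : phi lam f (Y ^ 2) ∈ N0 := by
  rw [map_pow, phi_Y]
  have e : (f⁻¹ * pow Y lam * f) ^ 2 = f⁻¹ * (pow Y lam) ^ 2 * f⁻¹⁻¹ := by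
    rw [← conj_pow, inv_inv]
  rw [e]
  refine (inferInstance : N0.Normal).conj_mem _ ?_ _
  show iot3 (pow Y lam ^ 2) ∈ ZC
  rw [← pow_npow', map_pow', iot3_Y2, pow_inv24]
  exact inv_mem (pow_mem_ZC lam)

/-- The images of the generators. -/
theorem iot3_alp_X : iot3 (alp X) = s 0 ^ 2 * cB⁻¹ := by
  have hb : s 0 * s 1 * s 0 = s 1 * s 0 * s 1 := isBraid_s.1
  have hc : cB = s 0 ^ 2 * (s 1 * s 0 * s 0 * s 1) := by
    unfold cB
    rw [pow_succ, pow_two, pow_two]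
    calc s 0 * s 1 * (s 0 * s 1) * (s 0 * s 1) = s 0 * (s 1 * s 0 * s 1) * s 0 * s 1 := by group
      _ = s 0 * (s 0 * s 1 * s 0) * s 0 * s 1 := by rw [hb]
      _ = _ := by group
  have hd : (s 0 * s 1 * s 0)⁻¹ * (s 1 * s 0) * (s 0 * s 1 * s 0)⁻¹⁻¹ = s 0 * s 1 := by
    rw [inv_inv, mul_assoc, inv_mul_eq_iff_eq_mul]
    calc s 1 * s 0 * (s 0 * s 1 * s 0) = s 1 * s 0 * (s 1 * s 0 * s 1) := by rw [hb]
      _ = s 1 * s 0 * s 1 * (s 0 * s 1) := by group
      _ = _ := by rw [← hb]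
  have hcc : s 0 ^ 2 * cB⁻¹ = cB⁻¹ * s 0 ^ 2 := ((comm_cB_zero.pow_right 2).inv_left).eq.symm
  rw [alp_X, map_inv, map_mul, map_mul, map_mul, map_inv, iot3_X, iot3_Y, hd, hcc, hc]
  group

theorem iot3_alp_Y : iot3 (alp Y) = s 1 ^ 2 * cB⁻¹ := by
  have hb : s 0 * s 1 * s 0 = s 1 * s 0 * s 1 := isBraid_s.1
  have hd : (s 0 * s 1 * s 0)⁻¹ * (s 1 * s 0) * (s 0 * s 1 * s 0)⁻¹⁻¹ = s 0 * s 1 := by
    rw [inv_inv, mul_assoc, inv_mul_eq_iff_eq_mul]
    calc s 1 * s 0 * (s 0 * s 1 * s 0) = s 1 * s 0 * (s 1 * s 0 * s 1) := by rw [hb]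
      _ = s 1 * s 0 * s 1 * (s 0 * s 1) := by group
      _ = _ := by rw [← hb]
  have e1 : iot3 (Y * X * Y⁻¹) = s 0 * s 1 := by
    rw [map_mul, map_mul, map_inv, iot3_X, iot3_Y, hd]
  have e2 : iot3 (X * (Y * X * Y⁻¹))⁻¹ = s 0 ^ 2 * cB⁻¹ := by
    rw [← alp_X, iot3_alp_X]
  have hc : Commute cB (s 0 * s 1) := comm_cB_zero.mul_right comm_cB_one
  have h3 : s 0 * s 1 * s 0 ^ 2 * (s 0 * s 1)⁻¹ = s 1 ^ 2 := by
    have h4 : s 0 * s 1 * s 0 * (s 0 * s 1)⁻¹ = s 1 := by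
      rw [mul_inv_eq_iff_eq_mul, hb]
      group
    calc s 0 * s 1 * s 0 ^ 2 * (s 0 * s 1)⁻¹ = (s 0 * s 1 * s 0 * (s 0 * s 1)⁻¹) ^ 2 :=
          conj_pow.symm
      _ = _ := by rw [h4]
  rw [alp_Y, map_mul, map_mul, e1, e2, map_inv, e1]
  calc s 0 * s 1 * (s 0 ^ 2 * cB⁻¹) * (s 0 * s 1)⁻¹
      = s 0 * s 1 * s 0 ^ 2 * (cB⁻¹ * (s 0 * s 1)⁻¹) := by group
    _ = s 0 * s 1 * s 0 ^ 2 * ((s 0 * s 1)⁻¹ * cB⁻¹) := by
        rw [(hc.inv_left.inv_right).eq]
    _ = (s 0 * s 1 * s 0 ^ 2 * (s 0 * s 1)⁻¹) * cB⁻¹ := by group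
    _ = _ := by rw [h3]

/-- The comparison of `iota` and `iot3`. -/
theorem alp_iota (p : FHat 2) : ∃ z ∈ ZC, iot3 (alp p) = iota p * z := by
  have e0 : iot3 (alp p) = ev ![s 0 ^ 2 * cB⁻¹, s 1 ^ 2 * cB⁻¹] p := by
    refine FHat2_ext (φ := iot3.toMonoidHom.comp alp.toMonoidHom)
      (ψ := (ev ![s 0 ^ 2 * cB⁻¹, s 1 ^ 2 * cB⁻¹] : FHat 2 →ₜ* Hat Braid4).toMonoidHom)
      (iot3.continuous_toFun.comp alp.continuous_toFun)
      (ev ![s 0 ^ 2 * cB⁻¹, s 1 ^ 2 * cB⁻¹] : FHat 2 →ₜ* Hat Braid4).continuous_toFun ?_ ?_ p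
    · show iot3 (alp X) = (ev ![s 0 ^ 2 * cB⁻¹, s 1 ^ 2 * cB⁻¹] : FHat 2 →ₜ* Hat Braid4) X
      rw [iot3_alp_X]
      exact (ev_gen (![s 0 ^ 2 * cB⁻¹, s 1 ^ 2 * cB⁻¹] : Fin 2 → Hat Braid4) 0).symm
    · show iot3 (alp Y) = (ev ![s 0 ^ 2 * cB⁻¹, s 1 ^ 2 * cB⁻¹] : FHat 2 →ₜ* Hat Braid4) Y
      rw [iot3_alp_Y]
      exact (ev_gen (![s 0 ^ 2 * cB⁻¹, s 1 ^ 2 * cB⁻¹] : Fin 2 → Hat Braid4) 1).symm
  have c0 : Commute cB⁻¹ (s 0 ^ 2) := (comm_cB_zero.pow_right 2).inv_left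
  have c1 : Commute cB⁻¹ (s 1 ^ 2) := (comm_cB_one.pow_right 2).inv_left
  refine ⟨ev ![cB⁻¹, cB⁻¹] p, ?_, ?_⟩
  · refine all_mem (ZC.comap (ev ![cB⁻¹, cB⁻¹] : FHat 2 →ₜ* Hat Braid4).toMonoidHom)
      (isClosed_ZC.preimage (ev ![cB⁻¹, cB⁻¹] : FHat 2 →ₜ* Hat Braid4).continuous_toFun) ?_ ?_ p
    · show (ev ![cB⁻¹, cB⁻¹] : FHat 2 →ₜ* Hat Braid4) (gen 0) ∈ ZC
      rw [ev_gen]
      exact inv_mem cB_mem
    · show (ev ![cB⁻¹, cB⁻¹] : FHat 2 →ₜ* Hat Braid4) (gen 1) ∈ ZC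
      rw [ev_gen]
      exact inv_mem cB_mem
  · rw [e0, ev_mul_central c0 c1 c0 c1]
    rfl

end quot

/-! ### Centralisers -/

section cent

/-- Representatives of the cosets of the pure braid group. -/
noncomputable def rr : Fin 6 → Hat Braid4 :=
  ![1, s 0, s 1, s 0 * s 1, s 1 * s 0, s 0 * s 1 * s 0]

theorem iot3_of67 (k : F2) : iot3 (of k) = of (iotD3 k) := by
  have e : iot3.toMonoidHom.comp (of : F2 →* FHat 2) = (of : Braid4 →* Hat Braid4).comp iotD3 := by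
    refine FreeGroup.ext_hom _ _ fun i => ?_
    fin_cases i
    · show iot3 X = of (iotD3 (FreeGroup.of 0))
      rw [iot3_X]
      unfold iotD3
      rw [FreeGroup.lift_apply_of]
      show _ = of (σ 1 * σ 0)
      rw [map_mul, of_σ, of_σ]
    · show iot3 Y = of (iotD3 (FreeGroup.of 1))
      rw [iot3_Y]
      unfold iotD3
      rw [FreeGroup.lift_apply_of]
      show _ = of (σ 0 * σ 1 * σ 0)⁻¹
      rw [map_inv, map_mul, map_mul, of_σ, of_σ]
  exact DFunLike.congr_fun e k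

theorem iotD3_mem (k : F2) : iotD3 k ∈ B3 := by
  have h0 : σ 0 ∈ B3 := Subgroup.subset_closure (Or.inl rfl)
  have h1 : σ 1 ∈ B3 := Subgroup.subset_closure (Or.inr rfl)
  have h : (⊤ : Subgroup F2) ≤ B3.comap iotD3 := by
    rw [← FreeGroup.closure_range_of, Subgroup.closure_le]
    rintro _ ⟨i, rfl⟩
    show iotD3 (FreeGroup.of i) ∈ B3
    unfold iotD3
    rw [FreeGroup.lift_apply_of]
    fin_cases i
    · exact mul_mem h1 h0
    · exact inv_mem (mul_mem (mul_mem h0 h1) h0)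
  exact h (Subgroup.mem_top k)

/-- The set of the products of the values of `iota` and of powers of `ζ`. -/
def KK : Set (Hat Braid4) := Set.range (fun p : FHat 2 × ZHat => iota p.1 * pow cB p.2)

theorem isClosed_KK : IsClosed KK := by
  refine (isCompact_range ?_).isClosed
  exact (iota.continuous_toFun.comp continuous_fst).mul
    ((ev (fun _ : Fin 1 => cB) : ZHat →ₜ* Hat Braid4).continuous_toFun.comp continuous_snd)

theorem nf67 (v : FHat 2) : ∃ (w : FHat 2) (e : ZHat) (i : Fin 6),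
    iot3 v = iota w * pow cB e * rr i := by
  have hcl : IsClosed {v : FHat 2 | ∃ i : Fin 6, iot3 v * (rr i)⁻¹ ∈ KK} := by
    have e : {v : FHat 2 | ∃ i : Fin 6, iot3 v * (rr i)⁻¹ ∈ KK} =
        ⋃ i : Fin 6, (fun v : FHat 2 => iot3 v * (rr i)⁻¹) ⁻¹' KK := by
      ext v
      simp
    rw [e]
    exact isClosed_iUnion_of_finite fun i =>
      isClosed_KK.preimage (iot3.continuous_toFun.mul continuous_const)
  have hd : ∀ k : F2, (of k : FHat 2) ∈ {v : FHat 2 | ∃ i : Fin 6, iot3 v * (rr i)⁻¹ ∈ KK} := by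
    intro k
    obtain ⟨v', hv'⟩ := M31.B3_range (iotD3_mem k)
    obtain ⟨k', n, i, h1, -⟩ := M31.nf31 v'
    refine ⟨i, (of k', zgen ^ n), ?_⟩
    show iota (of k') * pow cB (zgen ^ n) = iot3 (of k) * (rr i)⁻¹
    rw [iot3_of67, hv', h1, map_mul, map_mul, ← iota_of, of_zD]
    have e : of ((![1, σ 0, σ 1, σ 0 * σ 1, σ 1 * σ 0, σ 0 * σ 1 * σ 0] : Fin 6 → Braid4) i) =
        rr i := by
      fin_cases i
      · exact map_one _
      · exact of_σ 0
      · exact of_σ 1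
      · show of (σ 0 * σ 1) = s 0 * s 1
        rw [map_mul, of_σ, of_σ]
      · show of (σ 1 * σ 0) = s 1 * s 0
        rw [map_mul, of_σ, of_σ]
      · show of (σ 0 * σ 1 * σ 0) = s 0 * s 1 * s 0
        rw [map_mul, map_mul, of_σ, of_σ]
    rw [e, mul_inv_cancel_right]
  obtain ⟨i, ⟨w, e⟩, hw⟩ := of_dense.induction_on
    (p := fun v => v ∈ {v : FHat 2 | ∃ i : Fin 6, iot3 v * (rr i)⁻¹ ∈ KK}) v hcl hd
  refine ⟨w, e, i, ?_⟩
  have h : iota w * pow cB e = iot3 v * (rr i)⁻¹ := hw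
  rw [h, inv_mul_cancel_right]

abbrev S4 : Type := Matrix.SpecialLinearGroup (Fin 2) (ZMod 4)

def U1 : S4 := ⟨!![1, 1; 0, 1], by decide⟩

def U2 : S4 := ⟨!![1, 0; -1, 1], by decide⟩

theorem isBraid_U : IsBraid ![U1, U2, U1] := ⟨by decide, by decide, rfl⟩

noncomputable def m4 : Hat Braid4 →* S4 := evBF isBraid_U

theorem m4_0 : m4 (s 0) = U1 := evBF_s _ _

theorem m4_1 : m4 (s 1) = U2 := evBF_s _ _

/-- The principal congruence subgroup of level two. -/
def G2 : Subgroup S4 where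
  carrier := {A | 2 * A.1 0 1 = 0 ∧ 2 * A.1 1 0 = 0}
  one_mem' := by decide
  mul_mem' := by
    intro A B hA hB
    obtain ⟨a1, a2⟩ := hA
    obtain ⟨b1, b2⟩ := hB
    refine ⟨?_, ?_⟩
    · show 2 * (A.1 * B.1) 0 1 = 0
      rw [Matrix.mul_apply, Fin.sum_univ_two]
      linear_combination A.1 0 0 * b1 + B.1 1 1 * a1
    · show 2 * (A.1 * B.1) 1 0 = 0
      rw [Matrix.mul_apply, Fin.sum_univ_two]
      linear_combination B.1 0 0 * a2 + A.1 1 1 * b2
  inv_mem' := by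
    intro A hA
    obtain ⟨a1, a2⟩ := hA
    refine ⟨?_, ?_⟩
    · rw [Matrix.SpecialLinearGroup.SL2_inv_expl]
      show 2 * -A.1 0 1 = 0
      linear_combination -a1
    · rw [Matrix.SpecialLinearGroup.SL2_inv_expl]
      show 2 * -A.1 1 0 = 0
      linear_combination -a2

instance (A : S4) : Decidable (A ∈ G2) :=
  inferInstanceAs (Decidable (2 * A.1 0 1 = 0 ∧ 2 * A.1 1 0 = 0))

theorem mem_G2_of_comm {A : S4} (h0 : Commute A (U1 ^ 2)) (h1 : Commute A (U2 ^ 2)) : A ∈ G2 := by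
  have e0 := congrArg (fun M : S4 => M.1 0 0) h0.eq
  have e1 := congrArg (fun M : S4 => M.1 0 0) h1.eq
  have u0 : (U1 ^ 2).1 = !![1, 2; 0, 1] := by decide
  have u1 : (U2 ^ 2).1 = !![1, 0; -2, 1] := by decide
  simp only [Matrix.SpecialLinearGroup.coe_mul, u0, u1, Matrix.mul_apply, Fin.sum_univ_two] at e0 e1
  simp at e0 e1
  refine ⟨?_, ?_⟩
  · linear_combination e1
  · linear_combination e0

theorem m4_iota (w : FHat 2) : m4 (iota w) ∈ G2 := by
  have e : m4 (iota w) = evF (fun i => m4 ((![s 0 ^ 2, s 1 ^ 2] : Fin 2 → Hat Braid4) i)) w :=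
    lftF_ev _ _ w
  rw [e]
  refine evF_mem (fun i => ?_) w
  fin_cases i
  · show m4 (s 0 ^ 2) ∈ G2
    rw [map_pow, m4_0]
    decide
  · show m4 (s 1 ^ 2) ∈ G2
    rw [map_pow, m4_1]
    decide

theorem m4_pow (e : ZHat) : m4 (pow cB e) ∈ G2 := by
  have h : m4 (pow cB e) = evF (fun _ : Fin 1 => m4 cB) e := lftF_ev _ _ e
  rw [h]
  refine evF_mem (fun _ => ?_) e
  unfold cB
  rw [map_pow, map_mul, m4_0, m4_1]
  decide

theorem m4_rr (i : Fin 6) (h : m4 (rr i) ∈ G2) : i = 0 := by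
  fin_cases i
  · rfl
  · exfalso
    have e : m4 (s 0) ∈ G2 := h
    rw [m4_0] at e
    exact absurd e (by decide)
  · exfalso
    have e : m4 (s 1) ∈ G2 := h
    rw [m4_1] at e
    exact absurd e (by decide)
  · exfalso
    have e : m4 (s 0 * s 1) ∈ G2 := h
    rw [map_mul, m4_0, m4_1] at e
    exact absurd e (by decide)
  · exfalso
    have e : m4 (s 1 * s 0) ∈ G2 := h
    rw [map_mul, m4_0, m4_1] at e
    exact absurd e (by decide)
  · exfalso
    have e : m4 (s 0 * s 1 * s 0) ∈ G2 := h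
    rw [map_mul, map_mul, m4_0, m4_1] at e
    exact absurd e (by decide)

theorem iota_inj67 {w : FHat 2} (h : iota w = 1) : w = 1 := by
  refine Hecke.faith67 w 1 fun v => ?_
  have e : ev ![s 0 ^ 2, s 1 ^ 2] w * pow cB 1 = 1 := by
    have e1 : ev ![s 0 ^ 2, s 1 ^ 2] w = 1 := h
    have e2 : pow cB 1 = 1 := map_one _
    rw [e1, e2, mul_one]
  rw [e]
  exact Commute.one_left _

theorem comm_cB_iota67 (x : FHat 2) : Commute cB (iota x) := by
  unfold iota
  refine commute_ev (fun i => ?_) x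
  fin_cases i
  · exact comm_cB_zero.pow_right 2
  · exact comm_cB_one.pow_right 2

theorem iota_X67 : iota X = s 0 ^ 2 := ev_gen _ _

theorem iota_Y67 : iota Y = s 1 ^ 2 := ev_gen _ _

/-- The centraliser of the pure braids. -/
theorem cent67 {v : FHat 2} (h0 : Commute (iot3 v) (s 0 ^ 2)) (h1 : Commute (iot3 v) (s 1 ^ 2)) :
    iot3 v ∈ ZC := by
  obtain ⟨w, e, i, hv⟩ := nf67 v
  have hG : m4 (iot3 v) ∈ G2 := by
    refine mem_G2_of_comm ?_ ?_
    · have := h0.map m4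
      rwa [map_pow, m4_0] at this
    · have := h1.map m4
      rwa [map_pow, m4_1] at this
  have hi : i = 0 := by
    refine m4_rr i ?_
    have e1 : rr i = (iota w * pow cB e)⁻¹ * iot3 v := by
      rw [hv]
      group
    rw [e1, map_mul, map_inv, map_mul]
    exact mul_mem (inv_mem (mul_mem (m4_iota w) (m4_pow e))) hG
  subst hi
  have hv' : iot3 v = iota w * pow cB e := by
    rw [hv]
    exact mul_one _
  have hw : ∀ x, Commute (iot3 v) (iota x) → Commute w x := by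
    intro x hx
    have hc : Commute (pow cB e)⁻¹ (iota x) :=
      (commute_pow (comm_cB_iota67 x).symm e).symm.inv_left
    have h3 : Commute (iota w) (iota x) := by
      have e1 : iota w = iot3 v * (pow cB e)⁻¹ := by
        rw [hv']
        group
      rw [e1]
      exact hx.mul_left hc
    have h4 : iota (w * x * w⁻¹ * x⁻¹) = 1 := by
      rw [map_mul, map_mul, map_mul, map_inv, map_inv, h3.eq]
      group
    have h5 := iota_inj67 h4
    show w * x = x * w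
    rw [mul_inv_eq_one, mul_inv_eq_iff_eq_mul] at h5
    exact h5
  have hw1 : w = 1 := by
    refine Hecke.center67 (hw X ?_) (hw Y ?_)
    · rw [iota_X67]
      exact h0
    · rw [iota_Y67]
      exact h1
  rw [hv', hw1, map_one, one_mul]
  exact pow_mem_ZC e

/-- The profinite integers have no torsion. -/
theorem tf67 {e : ZHat} (n : ℕ) (h : pow (zgen ^ (n + 1)) e = 1) : e = 1 := by
  have h1 : covMap n (pow (g0 n) e) = 1 := by
    rw [map_pow', cov_g0]
    have h2 := congrArg (ev (fun _ : Fin 1 => (X : FHat 2))) h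
    rw [map_pow', map_pow, map_one] at h2
    have e1 : ev (fun _ : Fin 1 => (X : FHat 2)) zgen = X := ev_gen _ _
    rwa [e1] at h2
  have h2 : pow (g0 n) e = 1 := cov_inj (h1.trans (map_one _).symm)
  have h3 := congrArg (ev (mk zgen (fun _ : ZMod (n + 1) => (1 : ZHat)))) h2
  rw [map_pow', ev_g0, map_one] at h3
  have h4 : pow zgen e = e := by
    have : (fun _ : Fin 1 => zgen) = (fun i => gen i : Fin 1 → ZHat) := by
      funext i
      fin_cases i
      rfl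
    show ev (fun _ : Fin 1 => zgen) e = e
    rw [this, ev_gen_self]
  rwa [h4] at h3

theorem isBraid_z : IsBraid ![zgen, zgen, zgen] := ⟨rfl, rfl, rfl⟩

/-- The exponent sum. -/
noncomputable def ab67 : Hat Braid4 →ₜ* ZHat := evB isBraid_z

theorem zh_comm (a b : ZHat) : Commute a b := by
  have h4 : ∀ e : ZHat, pow zgen e = e := by
    intro e
    have : (fun _ : Fin 1 => zgen) = (fun i => gen i : Fin 1 → ZHat) := by
      funext i
      fin_cases i
      rfl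
    show ev (fun _ : Fin 1 => zgen) e = e
    rw [this, ev_gen_self]
  rw [← h4 a, ← h4 b]
  exact commute_pow (commute_pow (Commute.refl zgen) a).symm b

theorem ab_cB : ab67 cB = zgen ^ (5 + 1) := by
  have e0 : ab67 (s 0) = zgen := evB_s _ _
  have e1 : ab67 (s 1) = zgen := evB_s _ _
  unfold cB
  rw [map_pow, map_mul, e0, e1, ← pow_two, ← pow_mul]

theorem one_of_conj {t g z : Hat Braid4} (hz : z ∈ ZC) (h : t * g * t⁻¹ = g * z) : z = 1 := by
  obtain ⟨e, rfl⟩ := hz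
  have h1 := congrArg ab67 h
  rw [map_mul, map_mul, map_mul, map_inv, (zh_comm (ab67 t) (ab67 g)).eq,
    mul_inv_cancel_right] at h1
  have h2 : ab67 (pow cB e) = 1 := (mul_eq_left.1 h1.symm)
  rw [map_pow', ab_cB] at h2
  have h3 := tf67 5 h2
  show pow cB e = 1
  rw [h3]
  exact map_one _

end cent

/-! ### The comparison -/

section main

variable {lam : ZHat} {f : FHat 2}

/-- Conjugation by `X` on the pure part. -/
noncomputable def tX : FHat 2 →ₜ* FHat 2 := ev ![(Y * X)⁻¹, X]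

theorem tX_X : tX X = (Y * X)⁻¹ := ev_gen _ _

theorem tX_Y : tX Y = X := ev_gen _ _

variable {T : Type} [Group T] [TopologicalSpace T] [T2Space T]

theorem conjX (q : FHat 2 →* T) (hqc : Continuous q) (hX : q X ^ 3 = 1) (hY : q Y ^ 2 = 1)
    (w : FHat 2) : q (X * alp w * X⁻¹) = q (alp (tX w)) := by
  obtain ⟨xi, yi, hx', hy', hx3, hy2⟩ := wp hX hY
  refine FHat2_ext (φ := q.comp ((MulAut.conj X).toMonoidHom.comp alp.toMonoidHom))
    (ψ := q.comp (alp.toMonoidHom.comp tX.toMonoidHom))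
    (hqc.comp ((continuous_const.mul alp.continuous_toFun).mul continuous_const))
    (hqc.comp (alp.continuous_toFun.comp tX.continuous_toFun)) ?_ ?_ w
  · show q (X * alp X * X⁻¹) = q (alp (tX X))
    rw [tX_X, map_inv alp, map_mul alp, alp_Y, alp_X]
    simp only [map_mul, map_inv, mul_inv_rev, inv_inv, xi, yi, mul_assoc, hx', hy', hx3, hy2,
      mul_one]
  · show q (X * alp Y * X⁻¹) = q (alp (tX Y))
    rw [tX_Y, alp_Y, alp_X]
    simp only [map_mul, map_inv, mul_inv_rev, inv_inv, xi, yi, mul_assoc, hx', hy', hx3, hy2,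
      mul_one]

theorem conjY (q : FHat 2 →* T) (hqc : Continuous q) (hX : q X ^ 3 = 1) (hY : q Y ^ 2 = 1)
    (w : FHat 2) : q (Y * alp w * Y⁻¹) = q (alp (swpMap w)) := by
  obtain ⟨xi, yi, hx', hy', hx3, hy2⟩ := wp hX hY
  refine FHat2_ext (φ := q.comp ((MulAut.conj Y).toMonoidHom.comp alp.toMonoidHom))
    (ψ := q.comp (alp.toMonoidHom.comp swpMap.toMonoidHom))
    (hqc.comp ((continuous_const.mul alp.continuous_toFun).mul continuous_const))
    (hqc.comp (alp.continuous_toFun.comp swpMap.continuous_toFun)) ?_ ?_ w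
  · show q (Y * alp X * Y⁻¹) = q (alp (swpMap X))
    rw [swpMap_X, alp_Y, alp_X]
    simp only [map_mul, map_inv, mul_inv_rev, inv_inv, xi, yi, mul_assoc, hx', hy', hx3, hy2,
      mul_one]
  · show q (Y * alp Y * Y⁻¹) = q (alp (swpMap Y))
    rw [swpMap_Y, alp_Y, alp_X]
    simp only [map_mul, map_inv, mul_inv_rev, inv_inv, xi, yi, mul_assoc, hx', hy', hx3, hy2,
      mul_one]

instance : IsClosed (N0 : Set (FHat 2)) := isClosed_N0

/-- The projection to the quotient. -/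
noncomputable def qz : FHat 2 →* FHat 2 ⧸ N0 := QuotientGroup.mk' N0

theorem qz_cont : Continuous qz := continuous_quot_mk

theorem qz_eq {a b : FHat 2} : qz a = qz b ↔ ∃ z ∈ ZC, iot3 a = iot3 b * z := by
  have h : qz a = qz b ↔ b⁻¹ * a ∈ N0 := by
    rw [eq_comm]
    exact QuotientGroup.eq
  rw [h, mem_N0, map_mul, map_inv]
  constructor
  · intro hz
    exact ⟨_, hz, by group⟩
  · rintro ⟨z, hz, e⟩
    rw [e, inv_mul_cancel_left]
    exact hz

theorem qz_one {a : FHat 2} : qz a = 1 ↔ a ∈ N0 := QuotientGroup.eq_one_iff a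

theorem qz_X : qz X ^ 3 = 1 := by
  rw [← map_pow, qz_one]
  exact X3_mem

theorem qz_Y : qz Y ^ 2 = 1 := by
  rw [← map_pow, qz_one]
  exact Y2_mem

theorem Phi_ZC (h : IsGT lam f) {z : Hat Braid4} (hz : z ∈ ZC) : Phi h z ∈ ZC := by
  obtain ⟨e, rfl⟩ := hz
  show Phi h (pow cB e) ∈ ZC
  rw [map_pow', Phi_cB]
  have h1 := pow_mem_ZC lam
  have h2 : ∀ g ∈ ZC, ∀ e : ZHat, pow g e ∈ ZC := by
    rintro g ⟨e', rfl⟩ e
    refine ⟨pow e' e, ?_⟩
    show (ev (fun _ : Fin 1 => cB) : ZHat →ₜ* Hat Braid4) (pow e' e) = _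
    rw [map_pow']
    rfl
  exact h2 _ h1 e

/-- The lift of the action. -/
theorem exists_Psi3 (h : IsGT lam f) : ∃ Ψ : FHat 2 →ₜ* FHat 2,
    ∀ w, iot3 (Ψ w) = Phi h (iot3 w) := by
  have hR : IsClosed ((iot3.toMonoidHom.range : Subgroup (Hat Braid4)) : Set (Hat Braid4)) :=
    (isCompact_range iot3.continuous_toFun).isClosed
  have z0 : iot3 Z = s 0 := by
    unfold Z
    rw [map_inv, map_mul, iot3_X, iot3_Y]
    group
  have z1 : iot3 (X * Z⁻¹) = s 1 := by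
    rw [map_mul, map_inv, z0, iot3_X]
    group
  obtain ⟨z, hz, hf⟩ := alp_iota f
  have hf' : fA f = iot3 (alp f) * z⁻¹ := by
    have e1 : fA f = iota f := rfl
    rw [e1, hf, mul_inv_cancel_right]
  have p0 : Phi h (s 0) = iot3 (pow Z lam) := by rw [Phi_zero, map_pow', z0]
  have p1 : Phi h (s 1) = iot3 ((alp f)⁻¹ * pow (X * Z⁻¹) lam * alp f) := by
    rw [Phi_one, hf', map_mul, map_mul, map_inv, map_pow', z1]
    have c1 : Commute z (iot3 (alp f)) := comm_ZC hz _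
    have c2 : Commute z (pow (s 1) lam) := by
      have := comm_ZC hz (pow (X * Z⁻¹) lam)
      rwa [map_pow', z1] at this
    calc (iot3 (alp f) * z⁻¹)⁻¹ * pow (s 1) lam * (iot3 (alp f) * z⁻¹)
        = z * ((iot3 (alp f))⁻¹ * pow (s 1) lam * iot3 (alp f)) * z⁻¹ := by group
      _ = (iot3 (alp f))⁻¹ * pow (s 1) lam * iot3 (alp f) * z * z⁻¹ := by
          rw [((c1.inv_right.mul_right c2).mul_right c1).eq]
      _ = _ := by group
  refine ⟨ev ![(alp f)⁻¹ * pow (X * Z⁻¹) lam * alp f * pow Z lam,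
    (pow Z lam * ((alp f)⁻¹ * pow (X * Z⁻¹) lam * alp f) * pow Z lam)⁻¹], fun w => ?_⟩
  refine FHat2_ext (φ := iot3.toMonoidHom.comp (ev ![(alp f)⁻¹ * pow (X * Z⁻¹) lam * alp f *
      pow Z lam, (pow Z lam * ((alp f)⁻¹ * pow (X * Z⁻¹) lam * alp f) * pow Z lam)⁻¹] :
      FHat 2 →ₜ* FHat 2).toMonoidHom)
    (ψ := (Phi h).toMonoidHom.comp iot3.toMonoidHom)
    (iot3.continuous_toFun.comp (ev ![(alp f)⁻¹ * pow (X * Z⁻¹) lam * alp f *
      pow Z lam, (pow Z lam * ((alp f)⁻¹ * pow (X * Z⁻¹) lam * alp f) * pow Z lam)⁻¹] :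
      FHat 2 →ₜ* FHat 2).continuous_toFun)
    ((Phi h).continuous_toFun.comp iot3.continuous_toFun) ?_ ?_ w
  · show iot3 (ev ![(alp f)⁻¹ * pow (X * Z⁻¹) lam * alp f *
      pow Z lam, (pow Z lam * ((alp f)⁻¹ * pow (X * Z⁻¹) lam * alp f) * pow Z lam)⁻¹] (gen 0)) =
      Phi h (iot3 X)
    rw [ev_gen, iot3_X, map_mul (Phi h), p0, p1, ← map_mul]
    rfl
  · show iot3 (ev ![(alp f)⁻¹ * pow (X * Z⁻¹) lam * alp f *
      pow Z lam, (pow Z lam * ((alp f)⁻¹ * pow (X * Z⁻¹) lam * alp f) * pow Z lam)⁻¹] (gen 1)) =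
      Phi h (iot3 Y)
    rw [ev_gen, iot3_Y, map_inv (Phi h), map_mul (Phi h), map_mul (Phi h), p0, p1, ← map_mul,
      ← map_mul]
    exact map_inv iot3 _

/-- The elements of the quotient that commute with the pure part. -/
theorem cent_qz {t : FHat 2} (h : ∀ w, Commute (qz t) (qz (alp w))) : qz t = 1 := by
  have key : ∀ w, Commute (iot3 t) (iota w) := by
    intro w
    have h1 : qz (t * alp w * t⁻¹) = qz (alp w) := by
      rw [map_mul, map_mul, map_inv, (h w).eq, mul_inv_cancel_right]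
    obtain ⟨z, hz, e⟩ := qz_eq.1 h1
    obtain ⟨z', hz', e'⟩ := alp_iota w
    rw [map_mul, map_mul, map_inv] at e
    have hz1 := one_of_conj hz e
    rw [hz1, mul_one, mul_inv_eq_iff_eq_mul] at e
    have c1 : Commute (iot3 t) (iot3 (alp w)) := e
    have c2 : Commute (iot3 t) z'⁻¹ := (comm_ZC hz' t).symm.inv_right
    have e2 : iota w = iot3 (alp w) * z'⁻¹ := by rw [e', mul_inv_cancel_right]
    rw [e2]
    exact c1.mul_right c2
  rw [qz_one, mem_N0]
  refine cent67 ?_ ?_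
  · rw [← iota_X67]
    exact key X
  · rw [← iota_Y67]
    exact key Y

end main

end Cmp67

open Cmp67 in
/-- Row CMP3. -/
theorem stCmp3_67 : StCmp3 := by
  intro lam f h
  obtain ⟨Ψ, hΨ⟩ := exists_Psi3 h
  obtain ⟨C, hC⟩ := chain h qz qz_cont qz_X qz_Y
  -- the action on the quotient
  have hA : ∀ a b, qz a = qz b → qz (Ψ a) = qz (Ψ b) := by
    intro a b hab
    obtain ⟨z, hz, e⟩ := qz_eq.1 hab
    exact qz_eq.2 ⟨Phi h z, Phi_ZC h hz, by rw [hΨ, hΨ, e, map_mul]⟩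
  have hB : ∀ p, qz (Ψ (alp p)) = qz (alp (phi lam f p)) := by
    intro p
    obtain ⟨z, hz, e⟩ := alp_iota p
    obtain ⟨z', hz', e'⟩ := alp_iota (phi lam f p)
    refine qz_eq.2 ⟨z'⁻¹ * Phi h z, mul_mem (inv_mem hz') (Phi_ZC h hz), ?_⟩
    rw [hΨ, e, map_mul, Phi_iota, e']
    group
  have qX : (qz.comp (phi lam f).toMonoidHom) X ^ 3 = 1 := by
    rw [← map_pow]
    exact qz_one.2 phiX3_mem
  have qY : (qz.comp (phi lam f).toMonoidHom) Y ^ 2 = 1 := by
    rw [← map_pow]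
    exact qz_one.2 phiY2_mem
  have qc : Continuous (qz.comp (phi lam f).toMonoidHom) :=
    qz_cont.comp (phi lam f).continuous_toFun
  -- the central step
  have key : ∀ (u : FHat 2) (τ : FHat 2 → FHat 2), (∀ p, qz (u * alp p * u⁻¹) = qz (alp (τ p))) →
      (∀ p, qz (phi lam f (u * alp p * u⁻¹)) = qz (phi lam f (alp (τ p)))) →
      qz (Ψ u) = qz (C⁻¹ * phi lam f u * C) := by
    intro u τ h1 h2
    have h3 : ∀ p, qz (Ψ u) * qz (alp (phi lam f p)) * (qz (Ψ u))⁻¹ =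
        qz (alp (phi lam f (τ p))) := by
      intro p
      rw [← hB, ← hB, ← hA _ _ (h1 p)]
      simp only [map_mul, map_inv]
    have h4 : ∀ p, qz (C⁻¹ * phi lam f u * C) * qz (alp (phi lam f p)) *
        (qz (C⁻¹ * phi lam f u * C))⁻¹ = qz (alp (phi lam f (τ p))) := by
      intro p
      have h5 := h2 p
      rw [hC (τ p)] at h5
      simp only [map_mul, map_inv] at h5
      have h6 := hC p
      simp only [map_mul, map_inv] at h6
      rw [h6] at h5
      simp only [map_mul, map_inv]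
      calc (qz C)⁻¹ * qz (phi lam f u) * qz C * qz (alp (phi lam f p)) *
            ((qz C)⁻¹ * qz (phi lam f u) * qz C)⁻¹
          = (qz C)⁻¹ * (qz (phi lam f u) * (qz C * qz (alp (phi lam f p)) * (qz C)⁻¹) *
            (qz (phi lam f u))⁻¹) * qz C := by group
        _ = (qz C)⁻¹ * (qz C * qz (alp (phi lam f (τ p))) * (qz C)⁻¹) * qz C := by rw [h5]
        _ = _ := by group
    have h7 : qz ((C⁻¹ * phi lam f u * C)⁻¹ * Ψ u) = 1 := by
      refine cent_qz fun w => ?_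
      obtain ⟨p, rfl⟩ := h.bij.2 w
      show _ * _ = _ * _
      have h8 := (h3 p).trans (h4 p).symm
      rw [map_mul, map_inv]
      rw [mul_inv_eq_iff_eq_mul] at h8
      rw [mul_assoc, h8]
      group
    rw [map_mul, map_inv] at h7
    exact (inv_mul_eq_one.1 h7).symm
  have kX := key X tX (conjX qz qz_cont qz_X qz_Y) (conjX _ qc qX qY)
  have kY := key Y swpMap (conjY qz qz_cont qz_X qz_Y) (conjY _ qc qX qY)
  refine ⟨C⁻¹, fun u => ?_⟩
  have hall : qz (Ψ u) = qz (C⁻¹ * phi lam f u * C⁻¹⁻¹) := by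
    refine FHat2_ext (φ := qz.comp Ψ.toMonoidHom)
      (ψ := qz.comp ((MulAut.conj C⁻¹).toMonoidHom.comp (phi lam f).toMonoidHom))
      (qz_cont.comp Ψ.continuous_toFun)
      (qz_cont.comp ((continuous_const.mul (phi lam f).continuous_toFun).mul continuous_const))
      ?_ ?_ u
    · show qz (Ψ X) = qz (C⁻¹ * phi lam f X * C⁻¹⁻¹)
      rw [inv_inv]
      exact kX
    · show qz (Ψ Y) = qz (C⁻¹ * phi lam f Y * C⁻¹⁻¹)
      rw [inv_inv]
      exact kY
  obtain ⟨z, ⟨e, rfl⟩, he⟩ := qz_eq.1 hall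
  refine ⟨e, ?_⟩
  rw [← hΨ]
  exact he

end MPb66790.HK24
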