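import Pool.Agent.Lib.MP_b66790_nt.Hecke.Cheb24
import Pool.Agent.Lib.MP_b66790_nt.Hecke.Cent24

/-!
# `F` commutes with `z ^ (n + 1)`, pointwise
-/

namespace MPb66790.HK24

open MPb66790 MPb66790.CY24 Function

/-- From the residues modulo `2` to the residues modulo `2 n + 2`. -/
noncomputable def psi2 (n : ℕ) : Multiplicative (ZMod (1 + 1)) →*
    Multiplicative (ZMod (2 * n + 1 + 1)) :=
  AddMonoidHom.toMultiplicative (ZMod.lift (1 + 1)
    ⟨zmultiplesHom (ZMod (2 * n + 1 + 1)) ((n + 1 : ℕ) : ZMod (2 * n + 1 + 1)), by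
      rw [zmultiplesHom_apply]
      have e : ((1 + 1 : ℕ) : ℤ) • ((n + 1 : ℕ) : ZMod (2 * n + 1 + 1)) =
          ((2 * n + 1 + 1 : ℕ) : ZMod (2 * n + 1 + 1)) := by
        rw [zsmul_eq_mul]
        push_cast
        ring
      rw [e, ZMod.natCast_self]⟩)

theorem psi2_one (n : ℕ) : psi2 n (Multiplicative.ofAdd 1) =
    Multiplicative.ofAdd ((n + 1 : ℕ) : ZMod (2 * n + 1 + 1)) := by
  unfold psi2
  show Multiplicative.ofAdd (ZMod.lift (1 + 1) _ (1 : ZMod (1 + 1))) = _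
  congr 1
  have h := ZMod.lift_coe (1 + 1) (⟨zmultiplesHom (ZMod (2 * n + 1 + 1))
    ((n + 1 : ℕ) : ZMod (2 * n + 1 + 1)), by
      rw [zmultiplesHom_apply]
      have e : ((1 + 1 : ℕ) : ℤ) • ((n + 1 : ℕ) : ZMod (2 * n + 1 + 1)) =
          ((2 * n + 1 + 1 : ℕ) : ZMod (2 * n + 1 + 1)) := by
        rw [zsmul_eq_mul]
        push_cast
        ring
      rw [e, ZMod.natCast_self]⟩ : {f : ℤ →+ ZMod (2 * n + 1 + 1) // f ((1 + 1 : ℕ) : ℤ) = 0}) 1
  rw [Int.cast_one] at h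
  rw [h, zmultiplesHom_apply, one_zsmul]

theorem psi2_inj (n : ℕ) {a : Multiplicative (ZMod (1 + 1))} (h : psi2 n a = 1) : a = 1 := by
  have h1 : ∀ b : Multiplicative (ZMod (1 + 1)), b = 1 ∨ b = Multiplicative.ofAdd 1 := by decide
  rcases h1 a with e | e
  · exact e
  · exfalso
    rw [e, psi2_one] at h
    have h2 : ((n + 1 : ℕ) : ZMod (2 * n + 1 + 1)) = 0 := h
    rw [ZMod.natCast_eq_zero_iff] at h2
    have := Nat.le_of_dvd (by omega) h2
    omega

theorem chi_fill (n : ℕ) (k : FHat (n + 2)) :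
    chi (2 * n + 1) (covMap n k) = psi2 n (chi 1 (ev (fillTwo n 0) k)) := by
  have e1 : chi (2 * n + 1) (covMap n k) = evF (mk (Multiplicative.ofAdd
      ((n + 1 : ℕ) : ZMod (2 * n + 1 + 1))) (fun _ : ZMod (n + 1) => 1)) k := by
    have h : chi (2 * n + 1) (covMap n k) = evF (fun i => chi (2 * n + 1)
        (mk (X ^ (n + 1)) (fun j : ZMod (n + 1) => X ^ j.val * Y * (X ^ j.val)⁻¹) i)) k :=
      evF_ev _ _ _
    rw [h, comp_mk (chi (2 * n + 1))]
    congr 2
    congr 1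
    · rw [map_pow, chi_X, ofAdd_pow]
    · funext j
      rw [map_mul, map_mul, map_inv, chi_Y, mul_one, mul_inv_cancel]
  have e2 : chi 1 (ev (fillTwo n 0) k) = evF (mk (Multiplicative.ofAdd
      (1 : ZMod (1 + 1))) (fun _ : ZMod (n + 1) => 1)) k := by
    have h : chi 1 (ev (fillTwo n 0) k) = evF (fun i => chi 1
        (mk X (fun j : ZMod (n + 1) => if j = 0 then Y else if j = 0 then Z else 1) i)) k :=
      evF_ev _ _ _
    rw [h, comp_mk (chi 1)]
    congr 2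
    congr 1
    · exact chi_X
    · funext j
      by_cases hj : j = 0
      · rw [if_pos hj, chi_Y]
      · rw [if_neg hj, if_neg hj, map_one]
  rw [e1, e2, evF_map, comp_mk (psi2 n), psi2_one, map_one]

theorem chi1_powY (e : ZHat) : chi 1 (pow Y e) = 1 := by
  rw [chi_pow, chi_Y]
  exact evF_one' e

/-- Compatibility for `z ^ (n + 1)`. -/
theorem compat_zero {n : ℕ} {lam : ZHat} {f : FHat 2} {k : FHat (n + 2)}
    {Φ : FHat (n + 2) →ₜ* FHat (n + 2)} {mm : ZMod (n + 1) → ZHat} (h : IsGT lam f)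
    (L : Lift n lam f k Φ mm) : ∃ g : FHat 2, chi 1 g = 1 ∧ ∀ w, g * ev (fillTwo n 0) (Φ w) * g⁻¹ =
      phi lam f (ev (fillTwo n 0) w) := by
  obtain ⟨e, e', hK⟩ := firstP h L.hk (0 : ZMod (n + 1))
  have h1 : chi 1 (ev (fillTwo n 0) k) = 1 := by
    refine psi2_inj n ?_
    rw [← chi_fill, L.hk]
    exact chi_comm h.comm
  have h2 : chi 1 (pow X e') = 1 := by
    have h3 := congrArg (chi 1) hK
    rw [h1, map_mul, map_mul, chi1_powY, chi_comm h.comm, one_mul, one_mul] at h3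
    exact h3.symm
  set θ : FHat (n + 2) →ₜ* FHat 2 := ev (fillTwo n 0) with hθ
  have θ0 : θ (g0 n) = X := ev_g0 _ _
  have θy : ∀ j : ZMod (n + 1), θ (gy j) = if j = 0 then Y else if j = 0 then Z else 1 := ev_gy _ _
  have c0 : pow X e' * θ (Φ (g0 n)) * (pow X e')⁻¹ = pow X lam := by
    have hc : Commute (pow X e') (pow X lam) := commute_pow (comm_pow_self X e').symm lam
    rw [L.h0, map_pow', θ0, hc.eq, mul_inv_cancel_right]
  have c1 : pow X e' * θ (Φ (gy 0)) * (pow X e')⁻¹ = f⁻¹ * pow Y lam * f := by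
    rw [L.hy0, map_mul, map_mul, map_inv, map_pow', θy, if_pos rfl, hK,
      cyc_g (g := pow X e') (e := e)]
    group
  have c2 : ∀ j : ZMod (n + 1), j ≠ 0 → θ (Φ (gy j)) = 1 := by
    intro j hj
    obtain ⟨u, hu⟩ := L.fill hj θ
    have hj' : red n lam * j ≠ 0 := fun e => hj (red_unit h e)
    rw [hu, taun_gy0, θy, if_neg hj', if_neg hj', one_pow']
    group
  refine ⟨pow X e', h2, fun w => ?_⟩
  refine gen_ext (φ := (MulAut.conj (pow X e')).toMonoidHom.comp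
      (θ.toMonoidHom.comp Φ.toMonoidHom))
    (ψ := (phi lam f).toMonoidHom.comp θ.toMonoidHom) ?_
    ((phi lam f).continuous_toFun.comp θ.continuous_toFun) ?_ (fun j => ?_) w
  · exact (continuous_const.mul (θ.continuous_toFun.comp Φ.continuous_toFun)).mul continuous_const
  · show pow X e' * θ (Φ (g0 n)) * (pow X e')⁻¹ = phi lam f (θ (g0 n))
    rw [θ0, c0, phi_X]
  · show pow X e' * θ (Φ (gy j)) * (pow X e')⁻¹ = phi lam f (θ (gy j))
    rw [θy]
    by_cases hj : j = 0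
    · subst hj
      rw [if_pos rfl, c1, phi_Y]
    · rw [if_neg hj, if_neg hj, c2 j hj, map_one]
      group

/-- Row CYC. -/
theorem stCyc_24 : StCyc := by
  intro lam f h n
  obtain ⟨k, Φ, mm, L⟩ := exists_lift n h
  obtain ⟨g, h1, h2⟩ := compat_zero h L
  refine ⟨g⁻¹, by rw [map_inv, h1, inv_one], ?_⟩
  rintro u v ⟨w, hw⟩
  have e1 : covMap n w = u := congrArg Prod.fst hw
  have e2 : ev (fillTwo n 0) w = v := congrArg Prod.snd hw
  refine ⟨Φ w, Prod.ext ?_ ?_⟩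
  · show covMap n (Φ w) = phi lam f u
    rw [L.hcov, e1]
  · show ev (fillTwo n 0) (Φ w) = g⁻¹ * phi lam f v * g⁻¹⁻¹
    rw [← e2, ← h2]
    group

end MPb66790.HK24
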