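import Pool.Agent.Lib.MP_b66790_nt.Hecke.Tri24

/-!
# Dessins of type `(3, 2, ∞)`: assembly of the diagonal case
-/

namespace MPb66790.HK24

open MPb66790 MPb66790.CY24 Function

theorem Rel.mul {n : ℕ} {g g' h h' : Hat Braid4} (h1 : Rel n g g') (h2 : Rel n h h') :
    Rel n (g * h) (g' * h') := by
  intro w
  obtain ⟨w1, a1, a2⟩ := h2 w
  obtain ⟨w2, b1, b2⟩ := h1 w1
  refine ⟨w2, ?_, ?_⟩
  · rw [← b1, ← a1]
    group
  · rw [← b2, ← a2]
    group

/-- Partners up to powers of `ζ`. -/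
def CR3 (n : ℕ) : Set (FHat 2 × FHat 2) :=
  {p | ∃ e : ZHat, Rel n (iot3 p.1) (iot3 p.2 * pow cB e)}

theorem isClosed_CR3 (n : ℕ) : IsClosed (CR3 n) := by
  refine isClosed_proj (C := {q : (FHat 2 × FHat 2) × ZHat |
    Rel n (iot3 q.1.1) (iot3 q.1.2 * pow cB q.2)}) ?_
  have ci : Continuous iot3 := iot3.continuous_toFun
  have cp : Continuous (fun e : ZHat => pow cB e) := (ev (fun _ : Fin 1 => cB)).continuous_toFun
  have c : Continuous (fun q : (FHat 2 × FHat 2) × ZHat =>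
      ((iot3 q.1.1, iot3 q.1.2 * pow cB q.2) : Hat Braid4 × Hat Braid4)) :=
    (ci.comp (continuous_fst.comp continuous_fst)).prodMk
      ((ci.comp (continuous_snd.comp continuous_fst)).mul (cp.comp continuous_snd))
  exact (isClosed_Rel n).preimage c

theorem CR3_of_sim (hS : StSim3) {n : ℕ} {h k : F2} (hs : Sim3P (dg n) h k) :
    ((of h, of k) : FHat 2 × FHat 2) ∈ CR3 n := by
  obtain ⟨j, hj⟩ := hS n h k hs
  refine ⟨zgen ^ j, ?_⟩
  show Rel n (iot3 (of h)) (iot3 (of k) * pow cB (zgen ^ j))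
  rw [iot3_of, iot3_of, ← of_zD, ← map_mul]
  exact hj

theorem step3A (hS : StSim3) {n : ℕ} {H K : Subgroup F2}
    (h : ∀ h ∈ H, ∃ k ∈ K, Sim3P (dg n) h k) : ∀ u ∈ cl H, ∃ v ∈ cl K, (u, v) ∈ CR3 n := by
  have hK : IsClosed (cl K : Set (FHat 2)) := Subgroup.isClosed_topologicalClosure _
  have h1 : IsClosed {u : FHat 2 | ∃ v, (u, v) ∈ {p : FHat 2 × FHat 2 | p.2 ∈ cl K} ∩ CR3 n} :=
    isClosed_proj ((hK.preimage continuous_snd).inter (isClosed_CR3 n))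
  intro u hu
  have h2 : u ∈ {u : FHat 2 | ∃ v, (u, v) ∈ {p : FHat 2 × FHat 2 | p.2 ∈ cl K} ∩ CR3 n} := by
    have h3 : u ∈ closure ((H.map (of : F2 →* FHat 2) : Subgroup (FHat 2)) : Set (FHat 2)) := hu
    refine closure_minimal ?_ h1 h3
    rintro _ ⟨x, hx, rfl⟩
    obtain ⟨k, hk, hs⟩ := h x hx
    exact ⟨of k, Subgroup.le_topologicalClosure _ ⟨k, hk, rfl⟩, CR3_of_sim hS hs⟩
  obtain ⟨v, hv, hr⟩ := h2
  exact ⟨v, hv, hr⟩

theorem step3A' (hS : StSim3) {n : ℕ} {H K : Subgroup F2}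
    (h : ∀ k ∈ K, ∃ h ∈ H, Sim3P (dg n) h k) : ∀ v ∈ cl K, ∃ u ∈ cl H, (u, v) ∈ CR3 n := by
  have hH : IsClosed (cl H : Set (FHat 2)) := Subgroup.isClosed_topologicalClosure _
  have h1 : IsClosed {v : FHat 2 | ∃ u, (v, u) ∈ {p : FHat 2 × FHat 2 | p.2 ∈ cl H} ∩
      (Prod.swap ⁻¹' CR3 n)} :=
    isClosed_proj ((hH.preimage continuous_snd).inter ((isClosed_CR3 n).preimage continuous_swap))
  intro v hv
  have h2 : v ∈ {v : FHat 2 | ∃ u, (v, u) ∈ {p : FHat 2 × FHat 2 | p.2 ∈ cl H} ∩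
      (Prod.swap ⁻¹' CR3 n)} := by
    have h3 : v ∈ closure ((K.map (of : F2 →* FHat 2) : Subgroup (FHat 2)) : Set (FHat 2)) := hv
    refine closure_minimal ?_ h1 h3
    rintro _ ⟨x, hx, rfl⟩
    obtain ⟨k, hk, hs⟩ := h x hx
    exact ⟨of k, Subgroup.le_topologicalClosure _ ⟨k, hk, rfl⟩, CR3_of_sim hS hs⟩
  obtain ⟨u, hu, hr⟩ := h2
  exact ⟨u, hu, hr⟩

theorem iot3_Z : iot3 Z = s 0 := by
  have e1 : iot3 X = s 1 * s 0 := ev_gen _ _
  have e2 : iot3 Y = (s 0 * s 1 * s 0)⁻¹ := ev_gen _ _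
  unfold Z
  rw [map_inv, map_mul, e1, e2]
  group

theorem comm_cB_iot3 (w : FHat 2) : Commute cB (iot3 w) := by
  refine commute_ev2 (comm_cB_one.mul_right comm_cB_zero) ?_ w
  exact ((comm_cB_zero.mul_right comm_cB_one).mul_right comm_cB_zero).inv_right

theorem pow_inv_exp {G : Type} [Group G] [TopologicalSpace G] [IsTopologicalGroup G]
    [CompactSpace G] [TotallyDisconnectedSpace G] (g : G) (e : ZHat) :
    pow g e⁻¹ = (pow g e)⁻¹ := map_inv (ev (fun _ : Fin 1 => g)) e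

variable {lam : ZHat} {f : FHat 2}

theorem step3X (hT : StT) (hA : StAlpha) (hC : StCmp3) (hB : StCB) (h : IsGT lam f) (n : ℕ) :
    ∃ y z : FHat 2, ∀ u v, (u, v) ∈ CR3 n →
      (y * phi lam f u * y⁻¹, z * phi lam f v * z⁻¹) ∈ CR3 n := by
  obtain ⟨κ, hκ⟩ := rel_Phi hT hA h n
  obtain ⟨y, hy⟩ := hC lam f h
  refine ⟨y, pow Z κ * y, ?_⟩
  rintro u v ⟨e, he⟩
  obtain ⟨e1, h1⟩ := hy u
  obtain ⟨e2, h2⟩ := hy v
  have h3 := hκ _ _ he
  have e3 : pow (s 0) κ = iot3 (pow Z κ) := by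
    rw [map_pow', iot3_Z]
  have e4 : pow (s 0) κ * Phi h (iot3 v * pow cB e) * (pow (s 0) κ)⁻¹ =
      iot3 ((pow Z κ * y) * phi lam f v * (pow Z κ * y)⁻¹) * pow cB (e2 * pow lam e) := by
    rw [map_mul, map_pow', Phi_cB, pow_pow, h2, e3, pow_mul']
    have c : Commute (pow cB e2 * pow cB (pow lam e)) (iot3 (pow Z κ)) := by
      rw [← pow_mul']
      exact (commute_pow (comm_cB_iot3 _).symm _).symm
    calc iot3 (pow Z κ) * (iot3 (y * phi lam f v * y⁻¹) * pow cB e2 * pow cB (pow lam e)) *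
          (iot3 (pow Z κ))⁻¹
        = iot3 (pow Z κ) * iot3 (y * phi lam f v * y⁻¹) *
          ((pow cB e2 * pow cB (pow lam e)) * (iot3 (pow Z κ))⁻¹) := by group
      _ = iot3 (pow Z κ) * iot3 (y * phi lam f v * y⁻¹) * (iot3 (pow Z κ))⁻¹ *
          (pow cB e2 * pow cB (pow lam e)) := by
        rw [c.inv_right.eq]
        group
      _ = _ := by
        rw [← map_inv, ← map_mul, ← map_mul]
        congr 2
        group
  rw [h1, e4] at h3
  have h4 := h3.mul (hB n e1⁻¹)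
  refine ⟨e2 * pow lam e * e1⁻¹, ?_⟩
  have e5 : iot3 (y * phi lam f u * y⁻¹) * pow cB e1 * pow cB e1⁻¹ =
      iot3 (y * phi lam f u * y⁻¹) := by
    rw [pow_inv_exp]
    group
  have e6 : iot3 ((pow Z κ * y) * phi lam f v * (pow Z κ * y)⁻¹) * pow cB (e2 * pow lam e) *
      pow cB e1⁻¹ = iot3 ((pow Z κ * y) * phi lam f v * (pow Z κ * y)⁻¹) *
        pow cB (e2 * pow lam e * e1⁻¹) := by
    rw [pow_mul' cB (e2 * pow lam e)]
    group
  rw [e5, e6] at h4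
  exact h4

theorem Tri.act (h : IsGT lam f) {H : Subgroup (FHat 2)} (hc : IsClosed (H : Set (FHat 2)))
    (hT : Tri H) : Tri (act lam f H) := by
  obtain ⟨mu, hmu⟩ := h.unit
  obtain ⟨f0, hf0⟩ := h.bij.2 f
  have pl : ∀ t : FHat 2, pow (pow t lam) mu = t := by
    intro t
    rw [pow_pow, hmu, pow_zgen]
  have hp : ∀ (x : FHat 2), x ∈ H → pow x mu ∈ H := fun x hx => ev_mem hc (fun _ => hx) mu
  intro g
  obtain ⟨g0, rfl⟩ := h.bij.2 g
  constructor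
  · refine ⟨g0 * pow (X ^ 3) mu * g0⁻¹, ?_, ?_⟩
    · rw [conj_pow']
      exact hp _ (hT g0).1
    · show phi lam f (g0 * pow (X ^ 3) mu * g0⁻¹) = phi lam f g0 * X ^ 3 * (phi lam f g0)⁻¹
      have e1 : phi lam f (pow (X ^ 3) mu) = X ^ 3 := by
        rw [map_pow', map_pow, phi_X, ← pow_npow' X lam 3, pow_npow', pow_npow', pl]
      rw [map_mul, map_mul, map_inv, e1]
  · refine ⟨(g0 * f0) * pow (Y ^ 2) mu * (g0 * f0)⁻¹, ?_, ?_⟩
    · rw [conj_pow']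
      exact hp _ (hT (g0 * f0)).2
    · show phi lam f ((g0 * f0) * pow (Y ^ 2) mu * (g0 * f0)⁻¹) =
        phi lam f g0 * Y ^ 2 * (phi lam f g0)⁻¹
      have e1 : phi lam f (pow (Y ^ 2) mu) = f⁻¹ * Y ^ 2 * f := by
        have e2 : (f⁻¹ * pow Y lam * f) ^ 2 = f⁻¹ * (pow Y lam) ^ 2 * f := by
          simp only [pow_two]
          group
        have e3 := conj_pow' f⁻¹ ((pow Y lam) ^ 2) mu
        rw [inv_inv] at e3
        rw [map_pow', map_pow, phi_Y, e2, ← e3, pow_npow', pl]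
      rw [map_mul, map_mul, map_inv, map_mul, e1, hf0]
      group

/-- Conjugate subgroups. -/
theorem sd_iff {H K : Subgroup (FHat 2)} (hs : SameDessin H K) : ∃ g, K = cj g H := by
  obtain ⟨g, hg⟩ := hs
  refine ⟨g, ?_⟩
  ext x
  rw [mem_cj, hg]
  have e : g * (g⁻¹ * x * g) * g⁻¹ = x := by group
  rw [e]

theorem sd_iff' {H K : Subgroup (FHat 2)} (hs : SameDessin H K) : ∃ g, H = cj g K := by
  obtain ⟨g, hg⟩ := hs
  refine ⟨g⁻¹, ?_⟩
  ext x
  rw [mem_cj, hg, inv_inv]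

/-- The diagonal case. -/
theorem diag3_of (hT : StT) (hA : StAlpha) (hS : StSim3) (hCl : StCl3) (hK : StKer3) (hG : StGT)
    (hC : StCmp3) (hB : StCB) : StDiag3 := by
  rintro lam f h n H K ⟨tH, tK, H₀, K₀, fi1, fi2, h1, h2, s1, s2⟩
  obtain ⟨y, z, hX⟩ := step3X hT hA hC hB h n
  have p1 : ∀ h ∈ H₀, ∃ k ∈ K₀, Sim3P (dg n) h k := by
    intro x hx
    obtain ⟨k, hk, hs⟩ := h1 x hx
    exact ⟨k, hk, sim3P_of hs⟩
  have p2 : ∀ k ∈ K₀, ∃ h ∈ H₀, Sim3P (dg n) h k := by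
    intro x hx
    obtain ⟨k, hk, hs⟩ := h2 x hx
    exact ⟨k, hk, sim3P_of hs⟩
  have oH0 := isOpen_cl H₀
  have oK0 := isOpen_cl K₀
  have tH0 : Tri (cl H₀) := by
    obtain ⟨g, hg⟩ := sd_iff' s1
    rw [hg]
    exact tH.cj g
  have tK0 : Tri (cl K₀) := by
    obtain ⟨g, hg⟩ := sd_iff' s2
    rw [hg]
    exact tK.cj g
  have oH1 : IsOpen (H : Set (FHat 2)) := by
    obtain ⟨g, hg⟩ := sd_iff s1
    rw [hg]
    exact isOpen_cj g oH0
  have oK1 : IsOpen (K : Set (FHat 2)) := by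
    obtain ⟨g, hg⟩ := sd_iff s2
    rw [hg]
    exact isOpen_cj g oK0
  set S : Set (FHat 2 × FHat 2) := (fun p : F2 × F2 => ((of p.1, of p.2) : FHat 2 × FHat 2)) ''
    (RS3 n : Set (F2 × F2)) with hS'
  -- the closure relation
  have hcl : ∀ u v, (u, v) ∈ CR3 n → ((u, v) : FHat 2 × FHat 2) ∈ closure S := by
    rintro u v ⟨e, he⟩
    obtain ⟨v', e', h3, h4⟩ := hCl n u v e he
    let ρ : F2 × F2 →* FHat 2 × FHat 2 := MonoidHom.prodMap of of
    let C : Subgroup (FHat 2 × FHat 2) := ((RS3 n).map ρ).topologicalClosure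
    have hCS : (C : Set (FHat 2 × FHat 2)) = closure S := rfl
    have h5 : ((u, v') : FHat 2 × FHat 2) ∈ C := by
      show ((u, v') : FHat 2 × FHat 2) ∈ (C : Set (FHat 2 × FHat 2))
      rw [hCS]
      refine closure_mono ?_ h4
      rintro _ ⟨x, k, hs, rfl⟩
      exact ⟨(x, k), hs, rfl⟩
    have h6 : v⁻¹ * v' ∈ closure (of '' (N3 : Set F2) : Set (FHat 2)) := by
      refine ker3_closure hK (e := e') ?_
      rw [map_mul, map_inv, h3]
      group
    have h7 : ((1, v⁻¹ * v') : FHat 2 × FHat 2) ∈ C := by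
      let F : FHat 2 → FHat 2 × FHat 2 := fun w => (1, w)
      have hF : Continuous F := continuous_const.prodMk continuous_id
      have h8 := image_closure_subset_closure_image hF (Set.mem_image_of_mem F h6)
      show ((1, v⁻¹ * v') : FHat 2 × FHat 2) ∈ (C : Set (FHat 2 × FHat 2))
      rw [hCS]
      refine closure_mono ?_ h8
      rintro _ ⟨_, ⟨k, hk, rfl⟩, rfl⟩
      refine ⟨(1, k), rs3_of_one (mem_N3.1 hk), ?_⟩
      show ((of 1, of k) : FHat 2 × FHat 2) = (1, of k)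
      rw [map_one]
    have h9 := C.mul_mem h5 (C.inv_mem h7)
    have e9 : ((u, v') : FHat 2 × FHat 2) * (1, v⁻¹ * v')⁻¹ = (u, v) := by
      refine Prod.ext ?_ ?_
      · show u * 1⁻¹ = u
        group
      · show v' * (v⁻¹ * v')⁻¹ = v
        group
    rw [e9] at h9
    exact h9
  -- the new subgroups
  set H' := cj y (act lam f (cl H₀)) with hH'
  set K' := cj z (act lam f (cl K₀)) with hK'
  have oH : IsOpen (H' : Set (FHat 2)) := isOpen_cj _ (isOpen_act h oH0)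
  have oK : IsOpen (K' : Set (FHat 2)) := isOpen_cj _ (isOpen_act h oK0)
  have tH' : Tri H' := Tri.cj (Tri.act h (Subgroup.isClosed_of_isOpen _ oH0) tH0) y
  have tK' : Tri K' := Tri.cj (Tri.act h (Subgroup.isClosed_of_isOpen _ oK0) tK0) z
  have c1 : ∀ u ∈ H', ∃ v ∈ K', ((u, v) : FHat 2 × FHat 2) ∈ closure S := by
    rintro _ ⟨_, ⟨u, hu, rfl⟩, rfl⟩
    obtain ⟨v, hv, huv⟩ := step3A hS p1 u hu
    exact ⟨_, ⟨_, ⟨v, hv, rfl⟩, rfl⟩, hcl _ _ (hX u v huv)⟩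
  have c2 : ∀ v ∈ K', ∃ u ∈ H', ((u, v) : FHat 2 × FHat 2) ∈ closure S := by
    rintro _ ⟨_, ⟨v, hv, rfl⟩, rfl⟩
    obtain ⟨u, hu, huv⟩ := step3A' hS p2 v hv
    exact ⟨_, ⟨_, ⟨u, hu, rfl⟩, rfl⟩, hcl _ _ (hX u v huv)⟩
  -- finite index of the projections
  have g1 : ((RS3 n).map (MonoidHom.fst F2 F2)).FiniteIndex := by
    have hle : H₀ ≤ (RS3 n).map (MonoidHom.fst F2 F2) := by
      intro x hx
      obtain ⟨k, -, hs⟩ := p1 x hx
      exact ⟨(x, k), hs, rfl⟩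
    exact Subgroup.finiteIndex_of_le hle
  let sw : F2 × F2 →* F2 × F2 := (MonoidHom.snd F2 F2).prod (MonoidHom.fst F2 F2)
  have g2 : (((RS3 n).map sw).map (MonoidHom.fst F2 F2)).FiniteIndex := by
    have hle : K₀ ≤ ((RS3 n).map sw).map (MonoidHom.fst F2 F2) := by
      intro x hx
      obtain ⟨k, -, hs⟩ := p2 x hx
      exact ⟨(x, k), ⟨(k, x), hs, rfl⟩, rfl⟩
    exact Subgroup.finiteIndex_of_le hle
  refine ⟨Tri.act h (Subgroup.isClosed_of_isOpen _ oH1) tH,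
    Tri.act h (Subgroup.isClosed_of_isOpen _ oK1) tK, H'.comap of, K'.comap of,
    finiteIndex_comap oH, finiteIndex_comap oK, ?_, ?_, ?_, ?_⟩
  · intro x hx
    obtain ⟨v, hv, hxv⟩ := c1 (of x) hx
    obtain ⟨k, hk, hxk⟩ := hG (RS3 n) g1 K' oK
      (fun k hk g => ker3_mem hK (rs3_left hk) oK tK' g) x v hv hxv
    exact ⟨k, hk, sim3_of hxk⟩
  · intro x hx
    obtain ⟨u, hu, hxu⟩ := c2 (of x) hx
    have hxu' : ((of x, u) : FHat 2 × FHat 2) ∈
        closure ((fun p : F2 × F2 => ((of p.1, of p.2) : FHat 2 × FHat 2)) ''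
        ((RS3 n).map sw : Set (F2 × F2))) := by
      have h8 := image_closure_subset_closure_image (continuous_swap (X := FHat 2) (Y := FHat 2))
        (Set.mem_image_of_mem Prod.swap hxu)
      refine closure_mono ?_ h8
      rintro _ ⟨_, ⟨p, hp, rfl⟩, rfl⟩
      exact ⟨(p.2, p.1), ⟨p, hp, rfl⟩, rfl⟩
    obtain ⟨k, hk, q, hq, e⟩ := hG ((RS3 n).map sw) g2 H' oH (by
      rintro k ⟨q, hq, e⟩ g
      have e1 : q.2 = 1 := congrArg Prod.fst e
      have e2 : q.1 = k := congrArg Prod.snd e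
      have hq' : (k, (1 : F2)) ∈ RS3 n := by
        rw [← e1, ← e2]
        exact hq
      exact ker3_mem hK (rs3_right hq') oH tH' g) x u hu hxu'
    have e1 : q.2 = x := congrArg Prod.fst e
    have e2 : q.1 = k := congrArg Prod.snd e
    refine ⟨k, hk, sim3_of ?_⟩
    rw [← e1, ← e2]
    exact hq
  · rw [cl_open oH]
    exact sd_cj _ (sd_act h s1)
  · rw [cl_open oK]
    exact sd_cj _ (sd_act h s2)

end MPb66790.HK24
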