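import Pool.Agent.Lib.MP_b66790_nt.Hecke.Mix24

/-!
# Arbitrary dessins and dessins of type `(3, 2, ∞)`: the diagonal case
-/

namespace MPb66790.HK24

open MPb66790 MPb66790.CY24 Function

theorem simMP_of {n : ℕ} {h k : F2} (hs : SimM (dg n) h k) : SimMP (dg n) h k := by
  have h1 := conjE hs
  rw [EE_dg, ← matP_eq, ← matP3_eq] at h1
  exact h1

theorem simM_of {n : ℕ} {h k : F2} (hs : SimMP (dg n) h k) : SimM (dg n) h k := by
  have h1 := conjE hs
  rw [EE_dg, ← mat_eq, ← mat3_eq] at h1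
  exact h1

theorem simMP_iff {g : Matrix (Fin 2) (Fin 2) ℤ} {h k : F2} :
    SimMP g h k ↔ ∃ ε : ℤ, ε * ε = 1 ∧ g * (matP h).1 = ε • ((matP3 k).1 * g) := by
  constructor
  · rintro (e | e)
    · exact ⟨1, by norm_num, by rw [one_smul]; exact e⟩
    · exact ⟨-1, by norm_num, by rw [neg_one_smul]; exact e⟩
  · rintro ⟨ε, h1, e⟩
    rcases sgn_one h1 with rfl | rfl
    · left
      rwa [one_smul] at e
    · right
      rwa [neg_one_smul] at e

/-- The pairs of words whose matrices correspond, as a subgroup. -/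
def RSM (n : ℕ) : Subgroup (F2 × F2) where
  carrier := {p | SimMP (dg n) p.1 p.2}
  mul_mem' := by
    rintro ⟨a, b⟩ ⟨c, d⟩ h1 h2
    obtain ⟨ε, e1, e2⟩ := simMP_iff.1 h1
    obtain ⟨δ, e3, e4⟩ := simMP_iff.1 h2
    refine simMP_iff.2 ⟨ε * δ, ?_, ?_⟩
    · calc ε * δ * (ε * δ) = (ε * ε) * (δ * δ) := by ring
        _ = 1 := by rw [e1, e3, one_mul]
    · show dg n * (matP (a * c)).1 = (ε * δ) • ((matP3 (b * d)).1 * dg n)
      rw [map_mul, map_mul, Matrix.SpecialLinearGroup.coe_mul,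
        Matrix.SpecialLinearGroup.coe_mul]
      exact sgn_mul e2 e4
  one_mem' := by
    refine simMP_iff.2 ⟨1, by norm_num, ?_⟩
    simp
  inv_mem' := by
    rintro ⟨a, b⟩ h1
    obtain ⟨ε, e1, e2⟩ := simMP_iff.1 h1
    refine simMP_iff.2 ⟨ε, e1, ?_⟩
    show dg n * (matP a⁻¹).1 = ε • ((matP3 b⁻¹).1 * dg n)
    rw [map_inv, map_inv]
    exact sgn_inv e1 e2

theorem rsM_left {n : ℕ} {k : F2} (hk : ((1 : F2), k) ∈ RSM n) :
    (mat3 k).1 = 1 ∨ (mat3 k).1 = -1 := by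
  obtain ⟨ε, e1, e2⟩ := simMP_iff.1 (show SimMP (dg n) 1 k from hk)
  rw [map_one, Matrix.SpecialLinearGroup.coe_one] at e2
  exact mat3_one_of (dg_aux n e1 e2)

theorem rsM_right (hM : StM4) {n : ℕ} {k : F2} (hk : (k, (1 : F2)) ∈ RSM n) : k = 1 := by
  obtain ⟨ε, e1, e2⟩ := simMP_iff.1 (show SimMP (dg n) k 1 from hk)
  rw [map_one, Matrix.SpecialLinearGroup.coe_one] at e2
  exact hM k (dg_aux' n e1 e2)

theorem rsM_of_one {n : ℕ} {k : F2} (h : (mat3 k).1 = 1 ∨ (mat3 k).1 = -1) :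
    ((1 : F2), k) ∈ RSM n := by
  have h1 : (matP3 k).1 = 1 ∨ (matP3 k).1 = -1 := by
    rw [matP3_eq]
    rcases h with h | h
    · left
      rw [h, mul_one, EE_mul]
    · right
      rw [h, mul_neg, mul_one, neg_mul, EE_mul]
  show SimMP (dg n) 1 k
  rcases h1 with h1 | h1
  · left
    rw [h1, map_one]
    simp
  · right
    rw [h1, map_one]
    simp

/-- Partners up to powers of `ζ`. -/
def CRM (n : ℕ) : Set (FHat 2 × FHat 2) :=
  {p | ∃ e : ZHat, Rel n (iota p.1) (iot3 p.2 * pow cB e)}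

theorem isClosed_CRM (n : ℕ) : IsClosed (CRM n) := by
  refine isClosed_proj (C := {q : (FHat 2 × FHat 2) × ZHat |
    Rel n (iota q.1.1) (iot3 q.1.2 * pow cB q.2)}) ?_
  have ci : Continuous iota := iota.continuous_toFun
  have ci3 : Continuous iot3 := iot3.continuous_toFun
  have cp : Continuous (fun e : ZHat => pow cB e) := (ev (fun _ : Fin 1 => cB)).continuous_toFun
  have c : Continuous (fun q : (FHat 2 × FHat 2) × ZHat =>
      ((iota q.1.1, iot3 q.1.2 * pow cB q.2) : Hat Braid4 × Hat Braid4)) :=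
    (ci.comp (continuous_fst.comp continuous_fst)).prodMk
      ((ci3.comp (continuous_snd.comp continuous_fst)).mul (cp.comp continuous_snd))
  exact (isClosed_Rel n).preimage c

theorem CRM_of_sim (hS : StSimM) {n : ℕ} {h k : F2} (hs : SimMP (dg n) h k) :
    ((of h, of k) : FHat 2 × FHat 2) ∈ CRM n := by
  obtain ⟨j, hj⟩ := hS n h k hs
  refine ⟨zgen ^ j, ?_⟩
  show Rel n (iota (of h)) (iot3 (of k) * pow cB (zgen ^ j))
  rw [iota_of, iot3_of, ← of_zD, ← map_mul]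
  exact hj

theorem stepMA (hS : StSimM) {n : ℕ} {H K : Subgroup F2}
    (h : ∀ h ∈ H, ∃ k ∈ K, SimMP (dg n) h k) : ∀ u ∈ cl H, ∃ v ∈ cl K, (u, v) ∈ CRM n := by
  have hK : IsClosed (cl K : Set (FHat 2)) := Subgroup.isClosed_topologicalClosure _
  have h1 : IsClosed {u : FHat 2 | ∃ v, (u, v) ∈ {p : FHat 2 × FHat 2 | p.2 ∈ cl K} ∩ CRM n} :=
    isClosed_proj ((hK.preimage continuous_snd).inter (isClosed_CRM n))
  intro u hu
  have h2 : u ∈ {u : FHat 2 | ∃ v, (u, v) ∈ {p : FHat 2 × FHat 2 | p.2 ∈ cl K} ∩ CRM n} := by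
    have h3 : u ∈ closure ((H.map (of : F2 →* FHat 2) : Subgroup (FHat 2)) : Set (FHat 2)) := hu
    refine closure_minimal ?_ h1 h3
    rintro _ ⟨x, hx, rfl⟩
    obtain ⟨k, hk, hs⟩ := h x hx
    exact ⟨of k, Subgroup.le_topologicalClosure _ ⟨k, hk, rfl⟩, CRM_of_sim hS hs⟩
  obtain ⟨v, hv, hr⟩ := h2
  exact ⟨v, hv, hr⟩

theorem stepMA' (hS : StSimM) {n : ℕ} {H K : Subgroup F2}
    (h : ∀ k ∈ K, ∃ h ∈ H, SimMP (dg n) h k) : ∀ v ∈ cl K, ∃ u ∈ cl H, (u, v) ∈ CRM n := by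
  have hH : IsClosed (cl H : Set (FHat 2)) := Subgroup.isClosed_topologicalClosure _
  have h1 : IsClosed {v : FHat 2 | ∃ u, (v, u) ∈ {p : FHat 2 × FHat 2 | p.2 ∈ cl H} ∩
      (Prod.swap ⁻¹' CRM n)} :=
    isClosed_proj ((hH.preimage continuous_snd).inter ((isClosed_CRM n).preimage continuous_swap))
  intro v hv
  have h2 : v ∈ {v : FHat 2 | ∃ u, (v, u) ∈ {p : FHat 2 × FHat 2 | p.2 ∈ cl H} ∩
      (Prod.swap ⁻¹' CRM n)} := by
    have h3 : v ∈ closure ((K.map (of : F2 →* FHat 2) : Subgroup (FHat 2)) : Set (FHat 2)) := hv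
    refine closure_minimal ?_ h1 h3
    rintro _ ⟨x, hx, rfl⟩
    obtain ⟨k, hk, hs⟩ := h x hx
    exact ⟨of k, Subgroup.le_topologicalClosure _ ⟨k, hk, rfl⟩, CRM_of_sim hS hs⟩
  obtain ⟨u, hu, hr⟩ := h2
  exact ⟨u, hu, hr⟩

variable {lam : ZHat} {f : FHat 2}

theorem stepMX (hT : StT) (hA : StAlpha) (hC : StCmp3) (h : IsGT lam f) (n : ℕ) :
    ∃ z : FHat 2, ∀ u v, (u, v) ∈ CRM n → (phi lam f u, z * phi lam f v * z⁻¹) ∈ CRM n := by
  obtain ⟨κ, hκ⟩ := rel_Phi hT hA h n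
  obtain ⟨y, hy⟩ := hC lam f h
  refine ⟨pow Z κ * y, ?_⟩
  rintro u v ⟨e, he⟩
  obtain ⟨e2, h2⟩ := hy v
  have h3 := hκ _ _ he
  have e3 : pow (s 0) κ = iot3 (pow Z κ) := by
    rw [map_pow', iot3_Z]
  have e4 : pow (s 0) κ * Phi h (iot3 v * pow cB e) * (pow (s 0) κ)⁻¹ =
      iot3 ((pow Z κ * y) * phi lam f v * (pow Z κ * y)⁻¹) * pow cB (e2 * pow lam e) := by
    rw [map_mul, map_pow', Phi_cB, pow_pow, h2, e3, pow_mul']
    have c : Commute (pow cB e2 * pow cB (pow lam e)) (iot3 (pow Z κ)) := by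
      rw [← pow_mul']
      exact (commute_pow (comm_cB_iot3 _).symm _).symm
    calc iot3 (pow Z κ) * (iot3 (y * phi lam f v * y⁻¹) * pow cB e2 * pow cB (pow lam e)) *
          (iot3 (pow Z κ))⁻¹
        = iot3 (pow Z κ) * iot3 (y * phi lam f v * y⁻¹) *
          ((pow cB e2 * pow cB (pow lam e)) * (iot3 (pow Z κ))⁻¹) := by group
      _ = iot3 (pow Z κ) * iot3 (y * phi lam f v * y⁻¹) * (iot3 (pow Z κ))⁻¹ *
          (pow cB e2 * pow cB (pow lam e)) := by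
        rw [c.inv_right.eq]
        group
      _ = _ := by
        rw [← map_inv, ← map_mul, ← map_mul]
        congr 2
        group
  rw [Phi_iota, e4] at h3
  exact ⟨_, h3⟩

/-- The diagonal case. -/
theorem diagM_of (hT : StT) (hA : StAlpha) (hM : StM4) (hS : StSimM) (hCl : StClM) (hK : StKer3)
    (hG : StGT) (hC : StCmp3) : StDiagM := by
  rintro lam f h n H K ⟨tK, H₀, K₀, fi1, fi2, h1, h2, s1, s2⟩
  obtain ⟨z, hX⟩ := stepMX hT hA hC h n
  have p1 : ∀ h ∈ H₀, ∃ k ∈ K₀, SimMP (dg n) h k := by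
    intro x hx
    obtain ⟨k, hk, hs⟩ := h1 x hx
    exact ⟨k, hk, simMP_of hs⟩
  have p2 : ∀ k ∈ K₀, ∃ h ∈ H₀, SimMP (dg n) h k := by
    intro x hx
    obtain ⟨k, hk, hs⟩ := h2 x hx
    exact ⟨k, hk, simMP_of hs⟩
  have oH0 := isOpen_cl H₀
  have oK0 := isOpen_cl K₀
  have tK0 : Tri (cl K₀) := by
    obtain ⟨g, hg⟩ := sd_iff' s2
    rw [hg]
    exact tK.cj g
  have oK1 : IsOpen (K : Set (FHat 2)) := by
    obtain ⟨g, hg⟩ := sd_iff s2
    rw [hg]
    exact isOpen_cj g oK0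
  set S : Set (FHat 2 × FHat 2) := (fun p : F2 × F2 => ((of p.1, of p.2) : FHat 2 × FHat 2)) ''
    (RSM n : Set (F2 × F2)) with hS'
  -- the closure relation
  have hcl : ∀ u v, (u, v) ∈ CRM n → ((u, v) : FHat 2 × FHat 2) ∈ closure S := by
    rintro u v ⟨e, he⟩
    obtain ⟨v', e', h3, h4⟩ := hCl n u v e he
    let ρ : F2 × F2 →* FHat 2 × FHat 2 := MonoidHom.prodMap of of
    let C : Subgroup (FHat 2 × FHat 2) := ((RSM n).map ρ).topologicalClosure
    have hCS : (C : Set (FHat 2 × FHat 2)) = closure S := rfl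
    have h5 : ((u, v') : FHat 2 × FHat 2) ∈ C := by
      show ((u, v') : FHat 2 × FHat 2) ∈ (C : Set (FHat 2 × FHat 2))
      rw [hCS]
      refine closure_mono ?_ h4
      rintro _ ⟨x, k, hs, rfl⟩
      exact ⟨(x, k), hs, rfl⟩
    have h6 : v⁻¹ * v' ∈ closure (of '' (N3 : Set F2) : Set (FHat 2)) := by
      refine ker3_closure hK (e := e') ?_
      rw [map_mul, map_inv, h3]
      group
    have h7 : ((1, v⁻¹ * v') : FHat 2 × FHat 2) ∈ C := by
      let F : FHat 2 → FHat 2 × FHat 2 := fun w => (1, w)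
      have hF : Continuous F := continuous_const.prodMk continuous_id
      have h8 := image_closure_subset_closure_image hF (Set.mem_image_of_mem F h6)
      show ((1, v⁻¹ * v') : FHat 2 × FHat 2) ∈ (C : Set (FHat 2 × FHat 2))
      rw [hCS]
      refine closure_mono ?_ h8
      rintro _ ⟨_, ⟨k, hk, rfl⟩, rfl⟩
      refine ⟨(1, k), rsM_of_one (mem_N3.1 hk), ?_⟩
      show ((of 1, of k) : FHat 2 × FHat 2) = (1, of k)
      rw [map_one]
    have h9 := C.mul_mem h5 (C.inv_mem h7)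
    have e9 : ((u, v') : FHat 2 × FHat 2) * (1, v⁻¹ * v')⁻¹ = (u, v) := by
      refine Prod.ext ?_ ?_
      · show u * 1⁻¹ = u
        group
      · show v' * (v⁻¹ * v')⁻¹ = v
        group
    rw [e9] at h9
    exact h9
  -- the new subgroups
  set H' := act lam f (cl H₀) with hH'
  set K' := cj z (act lam f (cl K₀)) with hK'
  have oH : IsOpen (H' : Set (FHat 2)) := isOpen_act h oH0
  have oK : IsOpen (K' : Set (FHat 2)) := isOpen_cj _ (isOpen_act h oK0)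
  have tK' : Tri K' := Tri.cj (Tri.act h (Subgroup.isClosed_of_isOpen _ oK0) tK0) z
  have c1 : ∀ u ∈ H', ∃ v ∈ K', ((u, v) : FHat 2 × FHat 2) ∈ closure S := by
    rintro _ ⟨u, hu, rfl⟩
    obtain ⟨v, hv, huv⟩ := stepMA hS p1 u hu
    exact ⟨_, ⟨_, ⟨v, hv, rfl⟩, rfl⟩, hcl _ _ (hX u v huv)⟩
  have c2 : ∀ v ∈ K', ∃ u ∈ H', ((u, v) : FHat 2 × FHat 2) ∈ closure S := by
    rintro _ ⟨_, ⟨v, hv, rfl⟩, rfl⟩
    obtain ⟨u, hu, huv⟩ := stepMA' hS p2 v hv
    exact ⟨_, ⟨u, hu, rfl⟩, hcl _ _ (hX u v huv)⟩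
  -- finite index of the projections
  have g1 : ((RSM n).map (MonoidHom.fst F2 F2)).FiniteIndex := by
    have hle : H₀ ≤ (RSM n).map (MonoidHom.fst F2 F2) := by
      intro x hx
      obtain ⟨k, -, hs⟩ := p1 x hx
      exact ⟨(x, k), hs, rfl⟩
    exact Subgroup.finiteIndex_of_le hle
  let sw : F2 × F2 →* F2 × F2 := (MonoidHom.snd F2 F2).prod (MonoidHom.fst F2 F2)
  have g2 : (((RSM n).map sw).map (MonoidHom.fst F2 F2)).FiniteIndex := by
    have hle : K₀ ≤ ((RSM n).map sw).map (MonoidHom.fst F2 F2) := by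
      intro x hx
      obtain ⟨k, -, hs⟩ := p2 x hx
      exact ⟨(x, k), ⟨(k, x), hs, rfl⟩, rfl⟩
    exact Subgroup.finiteIndex_of_le hle
  refine ⟨Tri.act h (Subgroup.isClosed_of_isOpen _ oK1) tK, H'.comap of, K'.comap of,
    finiteIndex_comap oH, finiteIndex_comap oK, ?_, ?_, ?_, ?_⟩
  · intro x hx
    obtain ⟨v, hv, hxv⟩ := c1 (of x) hx
    obtain ⟨k, hk, hxk⟩ := hG (RSM n) g1 K' oK
      (fun k hk g => ker3_mem hK (rsM_left hk) oK tK' g) x v hv hxv
    exact ⟨k, hk, simM_of hxk⟩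
  · intro x hx
    obtain ⟨u, hu, hxu⟩ := c2 (of x) hx
    have hxu' : ((of x, u) : FHat 2 × FHat 2) ∈
        closure ((fun p : F2 × F2 => ((of p.1, of p.2) : FHat 2 × FHat 2)) ''
        ((RSM n).map sw : Set (F2 × F2))) := by
      have h8 := image_closure_subset_closure_image (continuous_swap (X := FHat 2) (Y := FHat 2))
        (Set.mem_image_of_mem Prod.swap hxu)
      refine closure_mono ?_ h8
      rintro _ ⟨_, ⟨p, hp, rfl⟩, rfl⟩
      exact ⟨(p.2, p.1), ⟨p, hp, rfl⟩, rfl⟩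
    obtain ⟨k, hk, q, hq, e⟩ := hG ((RSM n).map sw) g2 H' oH (by
      rintro k ⟨q, hq, e⟩ g
      have e1 : q.2 = 1 := congrArg Prod.fst e
      have e2 : q.1 = k := congrArg Prod.snd e
      have hq' : (k, (1 : F2)) ∈ RSM n := by
        rw [← e1, ← e2]
        exact hq
      rw [rsM_right hM hq', map_one, mul_one, mul_inv_cancel]
      exact H'.one_mem) x u hu hxu'
    have e1 : q.2 = x := congrArg Prod.fst e
    have e2 : q.1 = k := congrArg Prod.snd e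
    refine ⟨k, hk, simM_of ?_⟩
    rw [← e1, ← e2]
    exact hq
  · rw [cl_open oH]
    exact sd_act h s1
  · rw [cl_open oK]
    exact sd_cj _ (sd_act h s2)

end MPb66790.HK24
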