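import Pool.Agent.Lib.MP_b66790_nt.Hecke.Cl24

/-!
# Signs, openness, conjugate subgroups
-/

namespace MPb66790.HK24

open MPb66790 MPb66790.CY24 Function

theorem iota_X : iota X = s 0 ^ 2 := ev_gen _ _

theorem iota_Y : iota Y = s 1 ^ 2 := ev_gen _ _

theorem sgn_mul {γ A B A' B' : Matrix (Fin 2) (Fin 2) ℤ} {ε δ : ℤ} (h1 : γ * A = ε • (A' * γ))
    (h2 : γ * B = δ • (B' * γ)) : γ * (A * B) = (ε * δ) • (A' * B' * γ) := by
  rw [← mul_assoc, h1, smul_mul_assoc, mul_assoc, h2, mul_smul_comm, smul_smul, mul_assoc]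

theorem sgn_inv {γ : Matrix (Fin 2) (Fin 2) ℤ} {A A' : Matrix.SpecialLinearGroup (Fin 2) ℤ} {ε : ℤ}
    (hε : ε * ε = 1) (h1 : γ * A.1 = ε • (A'.1 * γ)) : γ * (A⁻¹).1 = ε • ((A'⁻¹).1 * γ) := by
  have a1 : A.1 * (A⁻¹).1 = 1 := by
    rw [← Matrix.SpecialLinearGroup.coe_mul, mul_inv_cancel, Matrix.SpecialLinearGroup.coe_one]
  have a2 : (A'⁻¹).1 * A'.1 = 1 := by
    rw [← Matrix.SpecialLinearGroup.coe_mul, inv_mul_cancel, Matrix.SpecialLinearGroup.coe_one]
  have h2 : (A'⁻¹).1 * (γ * A.1) * (A⁻¹).1 = (A'⁻¹).1 * (ε • (A'.1 * γ)) * (A⁻¹).1 := by rw [h1]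
  have h3 : (A'⁻¹).1 * (γ * A.1) * (A⁻¹).1 = (A'⁻¹).1 * γ := by
    rw [mul_assoc, mul_assoc γ, a1, mul_one]
  have h4 : (A'⁻¹).1 * (ε • (A'.1 * γ)) * (A⁻¹).1 = ε • (γ * (A⁻¹).1) := by
    rw [mul_smul_comm, smul_mul_assoc, ← mul_assoc, a2, one_mul]
  rw [h3, h4] at h2
  rw [h2, smul_smul, hε, one_smul]

theorem sgn_one {ε : ℤ} (h : ε * ε = 1) : ε = 1 ∨ ε = -1 := mul_self_eq_one_iff.1 h

theorem simP_iff {g : Matrix (Fin 2) (Fin 2) ℤ} {h k : F2} :
    SimP g h k ↔ ∃ ε : ℤ, ε * ε = 1 ∧ g * (matP h).1 = ε • ((matP k).1 * g) := by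
  constructor
  · rintro (e | e)
    · exact ⟨1, by norm_num, by rw [one_smul]; exact e⟩
    · exact ⟨-1, by norm_num, by rw [neg_one_smul]; exact e⟩
  · rintro ⟨ε, h1, e⟩
    rcases sgn_one h1 with rfl | rfl
    · left
      rwa [one_smul] at e
    · right
      rwa [neg_one_smul] at e

/-- The pairs of words whose matrices correspond, as a subgroup. -/
def RS (g : Matrix (Fin 2) (Fin 2) ℤ) : Subgroup (F2 × F2) where
  carrier := {p | SimP g p.1 p.2}
  mul_mem' := by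
    rintro ⟨a, b⟩ ⟨c, d⟩ h1 h2
    obtain ⟨ε, e1, e2⟩ := simP_iff.1 h1
    obtain ⟨δ, e3, e4⟩ := simP_iff.1 h2
    refine simP_iff.2 ⟨ε * δ, ?_, ?_⟩
    · calc ε * δ * (ε * δ) = (ε * ε) * (δ * δ) := by ring
        _ = 1 := by rw [e1, e3, one_mul]
    · show g * (matP (a * c)).1 = (ε * δ) • ((matP (b * d)).1 * g)
      rw [map_mul, map_mul, Matrix.SpecialLinearGroup.coe_mul,
        Matrix.SpecialLinearGroup.coe_mul]
      exact sgn_mul e2 e4
  one_mem' := by
    refine simP_iff.2 ⟨1, by norm_num, ?_⟩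
    simp
  inv_mem' := by
    rintro ⟨a, b⟩ h1
    obtain ⟨ε, e1, e2⟩ := simP_iff.1 h1
    refine simP_iff.2 ⟨ε, e1, ?_⟩
    show g * (matP a⁻¹).1 = ε • ((matP b⁻¹).1 * g)
    rw [map_inv, map_inv]
    exact sgn_inv e1 e2

/-! ## Dessins -/

variable {lam : ZHat} {f : FHat 2}

theorem isOpen_map {α : FHat 2 →ₜ* FHat 2} (hα : Bijective α) {H : Subgroup (FHat 2)}
    (hH : IsOpen (H : Set (FHat 2))) : IsOpen (H.map α.toMonoidHom : Set (FHat 2)) := by
  have e : ((H.map α.toMonoidHom : Subgroup (FHat 2)) : Set (FHat 2)) = α '' (H : Set (FHat 2)) :=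
    rfl
  have h1 : IsClosed (α '' (H : Set (FHat 2))ᶜ) :=
    (hH.isClosed_compl.isCompact.image α.continuous_toFun).isClosed
  rw [Set.image_compl_eq hα] at h1
  rw [e]
  exact isClosed_compl_iff.1 h1

theorem isOpen_act (h : IsGT lam f) {H : Subgroup (FHat 2)} (hH : IsOpen (H : Set (FHat 2))) :
    IsOpen (act lam f H : Set (FHat 2)) := isOpen_map h.bij hH

theorem mem_cj {g x : FHat 2} {H : Subgroup (FHat 2)} : x ∈ cj g H ↔ g⁻¹ * x * g ∈ H := by
  constructor
  · rintro ⟨y, hy, rfl⟩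
    have e : g⁻¹ * (MulAut.conj g).toMonoidHom y * g = y := by
      show g⁻¹ * (g * y * g⁻¹) * g = y
      group
    rw [e]
    exact hy
  · intro hx
    refine ⟨_, hx, ?_⟩
    show g * (g⁻¹ * x * g) * g⁻¹ = x
    group

theorem isOpen_cj (g : FHat 2) {H : Subgroup (FHat 2)} (hH : IsOpen (H : Set (FHat 2))) :
    IsOpen (cj g H : Set (FHat 2)) := by
  have e : (cj g H : Set (FHat 2)) = (fun x => g⁻¹ * x * g) ⁻¹' (H : Set (FHat 2)) := by
    ext x
    exact mem_cj
  rw [e]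
  exact hH.preimage ((continuous_const.mul continuous_id).mul continuous_const)

theorem sd_act (h : IsGT lam f) {H K : Subgroup (FHat 2)} (hs : SameDessin H K) :
    SameDessin (act lam f H) (act lam f K) := by
  obtain ⟨g, hg⟩ := hs
  refine ⟨phi lam f g, fun x => ?_⟩
  constructor
  · rintro ⟨y, hy, rfl⟩
    refine ⟨g * y * g⁻¹, (hg y).1 hy, ?_⟩
    show phi lam f (g * y * g⁻¹) = phi lam f g * phi lam f y * (phi lam f g)⁻¹
    rw [map_mul, map_mul, map_inv]
  · rintro ⟨y, hy, e⟩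
    have e' : phi lam f y = phi lam f g * x * (phi lam f g)⁻¹ := e
    refine ⟨g⁻¹ * y * g, (hg _).2 ?_, ?_⟩
    · have : g * (g⁻¹ * y * g) * g⁻¹ = y := by group
      rw [this]
      exact hy
    · show phi lam f (g⁻¹ * y * g) = x
      rw [map_mul, map_mul, map_inv, e']
      group

theorem sd_cj (g : FHat 2) {A B : Subgroup (FHat 2)} (hs : SameDessin A B) :
    SameDessin (cj g A) B := by
  obtain ⟨g0, h0⟩ := hs
  refine ⟨g0 * g⁻¹, fun x => ?_⟩
  rw [mem_cj, h0]
  have e : g0 * (g⁻¹ * x * g) * g0⁻¹ = g0 * g⁻¹ * x * (g0 * g⁻¹)⁻¹ := by group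
  rw [e]

theorem dg_left (n : ℕ) {k : F2} (hs : SimP (dg n) 1 k) : (matP k).1 = 1 ∨ (matP k).1 = -1 := by
  obtain ⟨ε, e1, e2⟩ := simP_iff.1 hs
  rw [map_one, Matrix.SpecialLinearGroup.coe_one, mul_one] at e2
  have hn : ((n : ℤ) + 1) ≠ 0 := by positivity
  have e00 := congrFun (congrFun e2 0) 0
  have e01 := congrFun (congrFun e2 0) 1
  have e10 := congrFun (congrFun e2 1) 0
  have e11 := congrFun (congrFun e2 1) 1
  simp [dg, Matrix.mul_apply, Fin.sum_univ_two] at e00 e01 e10 e11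
  have h00 : 1 = ε * (matP k).1 0 0 := by
    have : ((n : ℤ) + 1) * 1 = ((n : ℤ) + 1) * (ε * (matP k).1 0 0) := by
      rw [mul_one]
      calc (n : ℤ) + 1 = ε * ((matP k).1 0 0 * ((n : ℤ) + 1)) := e00
        _ = _ := by ring
    exact mul_left_cancel₀ hn this
  rcases sgn_one e1 with rfl | rfl
  · left
    ext i j
    fin_cases i <;> fin_cases j <;> simp
    · linarith
    · simpa using e01.symm
    · rcases e10 with e | e | e
      · norm_num at e
      · exact e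
      · exact absurd e hn
    · linarith
  · right
    ext i j
    fin_cases i <;> fin_cases j <;> simp
    · linarith
    · simpa using e01.symm
    · rcases e10 with e | e | e
      · norm_num at e
      · exact e
      · exact absurd e hn
    · linarith

theorem dg_right (n : ℕ) {h : F2} (hs : SimP (dg n) h 1) : (matP h).1 = 1 ∨ (matP h).1 = -1 := by
  obtain ⟨ε, e1, e2⟩ := simP_iff.1 hs
  rw [map_one, Matrix.SpecialLinearGroup.coe_one, one_mul] at e2
  have hn : ((n : ℤ) + 1) ≠ 0 := by positivity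
  have e00 := congrFun (congrFun e2 0) 0
  have e01 := congrFun (congrFun e2 0) 1
  have e10 := congrFun (congrFun e2 1) 0
  have e11 := congrFun (congrFun e2 1) 1
  simp [dg, Matrix.mul_apply, Fin.sum_univ_two] at e00 e01 e10 e11
  have h00 : (matP h).1 0 0 = ε := by
    have : ((n : ℤ) + 1) * (matP h).1 0 0 = ((n : ℤ) + 1) * ε := by
      calc ((n : ℤ) + 1) * (matP h).1 0 0 = ε * ((n : ℤ) + 1) := e00
        _ = _ := by ring
    exact mul_left_cancel₀ hn this
  have h01 : (matP h).1 0 1 = 0 := by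
    rcases e01 with e | e
    · exact absurd e hn
    · exact e
  rcases sgn_one e1 with rfl | rfl
  · left
    ext i j
    fin_cases i <;> fin_cases j <;> simp
    · exact h00
    · exact h01
    · exact e10
    · exact e11
  · right
    ext i j
    fin_cases i <;> fin_cases j <;> simp
    · exact h00
    · exact h01
    · exact e10
    · exact e11

end MPb66790.HK24
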