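import Pool.Agent.Lib.MP_b66790_nt.Hecke.Cyc24

/-!
# Composition with Chebyshev polynomials: descent from the even words and assembly
-/

namespace MPb66790.HK24

open MPb66790 MPb66790.CY24 MPb66790.Cent24 Function

/-! ## Parity -/

theorem par_X : par X = Multiplicative.ofAdd 1 := evF_gen _ _

theorem par_Y : par Y = Multiplicative.ofAdd 1 := evF_gen _ _

theorem par_pow {w : FHat 2} {e : ZHat} : par (pow w e) = evF (fun _ : Fin 1 => par w) e :=
  evF_ev _ _ _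

theorem par_lam {lam : ZHat} {f : FHat 2} (h : IsGT lam f) {w : FHat 2} :
    par (pow w lam) = par w := by
  obtain ⟨m, hm, -⟩ := h.three
  have e1 : ∀ t : Multiplicative (ZMod 2), t * t = 1 := by decide
  have e2 : evF (fun _ : Fin 1 => par w) zgen = par w := evF_gen _ _
  rw [par_pow, hm, map_mul, map_mul, e2, mul_assoc, e1, mul_one]

theorem par_conj (a w : FHat 2) : par (a * w * a⁻¹) = par w := by
  rw [map_mul, map_mul, map_inv, mul_comm (par a), mul_inv_cancel_right]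

theorem par_phi {lam : ZHat} {f : FHat 2} (h : IsGT lam f) (w : FHat 2) :
    par (phi lam f w) = par w := by
  have h1 : par (phi lam f w) =
      evF (fun i => par ((![pow X lam, f⁻¹ * pow Y lam * f] : Fin 2 → FHat 2) i)) w :=
    evF_ev _ _ _
  rw [h1]
  unfold par
  congr 2
  funext i
  fin_cases i
  · show par (pow X lam) = Multiplicative.ofAdd 1
    rw [par_lam h, par_X]
  · show par (f⁻¹ * pow Y lam * f) = Multiplicative.ofAdd 1
    have e := par_conj f⁻¹ (pow Y lam)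
    rw [inv_inv] at e
    rw [e, par_lam h, par_Y]

theorem par_cases (w : FHat 2) : par w = 1 ∨ par (X⁻¹ * w) = 1 := by
  rw [map_mul, map_inv, par_X]
  revert w
  have h : ∀ t : Multiplicative (ZMod 2), t = 1 ∨ (Multiplicative.ofAdd (1 : ZMod 2))⁻¹ * t = 1 := by
    decide
  exact fun w => h (par w)

theorem par_loop (m j : ℕ) : par (chebLoop m j) =
    if j = 0 ∨ j = m then Multiplicative.ofAdd 1 else 1 := by
  unfold chebLoop
  rw [par_conj, map_pow]
  have e : par (if j % 2 = 0 then X else Y) = Multiplicative.ofAdd 1 := by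
    split_ifs
    · exact par_X
    · exact par_Y
  rw [e]
  split_ifs
  · rw [pow_one]
  · decide

/-! ## The correspondence of the Chebyshev polynomial -/

variable {n : ℕ}

theorem cheb_gen (j : Fin (n + 2)) : chebCov n (gen j) = chebLoop (n + 1) j := ev_gen _ _

theorem fill_gen (j : Fin (n + 2)) : chebFill n (gen j) =
    if (j : ℕ) = 0 then X else if (j : ℕ) = n + 1 then Y else 1 := ev_gen _ _

theorem par_RC {u v : FHat 2} (h : (u, v) ∈ RC n) : par u = par v := by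
  obtain ⟨w, hw⟩ := h
  have e1 : chebCov n w = u := congrArg Prod.fst hw
  have e2 : chebFill n w = v := congrArg Prod.snd hw
  rw [← e1, ← e2]
  have h1 : par (chebCov n w) = evF (fun j : Fin (n + 2) => par (chebLoop (n + 1) j)) w :=
    evF_ev _ _ _
  have h2 : par (chebFill n w) = evF (fun j : Fin (n + 2) => par
      (if (j : ℕ) = 0 then X else if (j : ℕ) = n + 1 then Y else 1)) w := evF_ev _ _ _
  rw [h1, h2]
  congr 2
  funext j
  rw [par_loop]
  by_cases c0 : (j : ℕ) = 0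
  · rw [if_pos (Or.inl c0), if_pos c0, par_X]
  · by_cases c1 : (j : ℕ) = n + 1
    · rw [if_pos (Or.inr c1), if_neg c0, if_pos c1, par_Y]
    · rw [if_neg (by rintro (e | e); exacts [c0 e, c1 e]), if_neg c0, if_neg c1, map_one]

theorem mem_RC {w : FHat (n + 2)} : (chebCov n w, chebFill n w) ∈ RC n := ⟨w, rfl⟩

theorem fill_surj (v : FHat 2) : ∃ u, (u, v) ∈ RC n := by
  let w : FHat (n + 2) := ev ![gen 0, gen (Fin.last (n + 1))] v
  refine ⟨chebCov n w, w, Prod.ext rfl ?_⟩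
  show chebFill n (ev ![gen 0, gen (Fin.last (n + 1))] v) = v
  rw [map_ev2, fill_gen, fill_gen]
  have e0 : ((0 : Fin (n + 2)) : ℕ) = 0 := rfl
  have e : ((Fin.last (n + 1) : Fin (n + 2)) : ℕ) = n + 1 := rfl
  rw [e0, e, if_pos (rfl : (0 : ℕ) = 0), if_neg (by omega), if_pos rfl]
  have e3 : (![X, Y] : Fin 2 → FHat 2) = fun i => gen i := by
    funext i
    fin_cases i <;> rfl
  rw [e3, ev_gen_self]

theorem X_pow_RC (e : ZHat) : (pow X e, pow X e) ∈ RC n := by
  refine ⟨pow (gen 0) e, Prod.ext ?_ ?_⟩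
  · show chebCov n (pow (gen 0) e) = pow X e
    rw [map_pow', cheb_gen]
    have e1 : chebLoop (n + 1) ((0 : Fin (n + 2)) : ℕ) = X := by
      unfold chebLoop
      have : ((0 : Fin (n + 2)) : ℕ) = 0 := rfl
      rw [this]
      simp
    rw [e1]
  · show chebFill n (pow (gen 0) e) = pow X e
    have e0 : ((0 : Fin (n + 2)) : ℕ) = 0 := rfl
    rw [map_pow', fill_gen, e0, if_pos (rfl : (0 : ℕ) = 0)]

theorem pow_one24 (w : FHat 2) : pow w zgen = w := pow_zgen w

theorem X_RC : (X, X) ∈ RC n := by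
  have := X_pow_RC (n := n) zgen
  rwa [pow_zgen] at this

/-! ## Landen -/

theorem LT_pow (e : ZHat) : (pow (X ^ 2) e, pow Y e) ∈ LT := by
  refine ⟨pow (gen 0) e, Prod.ext ?_ ?_⟩
  · show (ev ![X ^ 2, Y ^ 2, Y * X] : FHat 3 →ₜ* FHat 2) (pow (gen 0) e) = pow (X ^ 2) e
    rw [map_pow']
    congr 1
    exact ev_gen _ _
  · show (ev ![Y, X⁻¹ * Y * X, (X ^ 2)⁻¹] : FHat 3 →ₜ* FHat 2) (pow (gen 0) e) = pow Y e
    rw [map_pow']
    congr 1
    exact ev_gen _ _

theorem LT_conj {a b u v : FHat 2} (h : (a, b) ∈ LT) (h' : (u, v) ∈ LT) :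
    (a * u * a⁻¹, b * v * b⁻¹) ∈ LT :=
  LT.mul_mem (LT.mul_mem h h') (LT.inv_mem h)

theorem RC_conj {a b u v : FHat 2} (h : (a, b) ∈ RC n) (h' : (u, v) ∈ RC n) :
    (a * u * a⁻¹, b * v * b⁻¹) ∈ RC n :=
  (RC n).mul_mem ((RC n).mul_mem h h') ((RC n).inv_mem h)

theorem CC_fun {u v v' : FHat 2} (h : (u, v) ∈ CC n) (h' : (u, v') ∈ CC n) : v = v' := by
  obtain ⟨w, hw⟩ := h
  obtain ⟨w', hw'⟩ := h'
  have e1 : covMap n w = u := congrArg Prod.fst hw
  have e2 : covMap n w' = u := congrArg Prod.fst hw'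
  have e3 : w = w' := cov_inj (e1.trans e2.symm)
  subst e3
  exact (congrArg Prod.snd hw).symm.trans (congrArg Prod.snd hw')

section main

variable {lam : ZHat} {f : FHat 2}

theorem RC_fun (hM1 : StMatch1) (hI : StInj) {u v v' : FHat 2} (h : (u, v) ∈ RC n)
    (h' : (u, v') ∈ RC n) : v = v' := by
  have h1 : ((1 : FHat 2), v⁻¹ * v') ∈ RC n := by
    have := (RC n).mul_mem ((RC n).inv_mem h) h'
    have e : ((u, v)⁻¹ * (u, v') : FHat 2 × FHat 2) = (1, v⁻¹ * v') :=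
      Prod.ext (inv_mul_cancel u) rfl
    rwa [e] at this
  obtain ⟨a, b, h2, h3, h4⟩ := hM1 n 1 (v⁻¹ * v') h1 (map_one par)
  have e1 : a = 1 := hI.1 1 a 1 h2 LT.one_mem
  subst e1
  have e2 : b = 1 := CC_fun h4 (CC n).one_mem
  subst e2
  exact inv_mul_eq_one.1 (hI.2.1 _ _ 1 h3 LT.one_mem)

theorem chi1_of_phi (h : IsGT lam f) {w : FHat 2} (hw : chi 1 (phi lam f w) = 1) :
    chi 1 w = 1 := chi_one_of_phi h hw

/-- The theorem. -/
theorem cheb_of (hLan : StLan) (hCyc : StCyc) (hM1 : StMatch1) (hM2 : StMatch2) (hI : StInj) :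
    StCheb := by
  intro lam f h n H
  obtain ⟨d, hd⟩ := hLan lam f h
  obtain ⟨c, hc, hcy⟩ := hCyc lam f h n
  obtain ⟨c₀, hc₀⟩ := hI.2.2.2.1 c hc
  let g := c₀ * d
  have Linj : ∀ {u u' v}, (u, v) ∈ LT → (u', v) ∈ LT → u = u' := fun h1 h2 => hI.2.1 _ _ _ h1 h2
  -- the second coordinate
  have hd2 : ∀ {v v'}, (v, v') ∈ LT → (g * phi lam f v * g⁻¹, c * phi lam f v' * c⁻¹) ∈ LT := by
    intro v v' hv
    have h1 := LT_conj hc₀ (hd v v' hv)
    have e : c₀ * (d * phi lam f v * d⁻¹) * c₀⁻¹ = g * phi lam f v * g⁻¹ := by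
      show _ = (c₀ * d) * phi lam f v * (c₀ * d)⁻¹
      group
    rwa [e] at h1
  -- even elements
  have E1 : ∀ {u v}, (u, v) ∈ RC n → par u = 1 →
      (d * phi lam f u * d⁻¹, g * phi lam f v * g⁻¹) ∈ RC n := by
    intro u v huv hp
    obtain ⟨u', v', h1, h2, h3⟩ := hM1 n u v huv hp
    have h4 := hcy _ _ h3
    have h5 := hd _ _ h1
    have h6 := hd2 h2
    obtain ⟨a, b, h7, h8, h9⟩ := hM2 n _ _ h4 (hI.2.2.2.2 _ _ h6).2
    rw [Linj h5 h7, Linj h6 h8]
    exact h9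
  -- the image of `x`
  obtain ⟨f₀, hf₀⟩ := hI.2.2.2.1 f (chi_comm h.comm)
  obtain ⟨w₀, hw₀⟩ : ∃ w₀, (f₀, w₀) ∈ RC n := by
    obtain ⟨k, hk⟩ := exists_cov_of_chi (n := n) (chi_comm h.comm)
    have h1 : (f, ev (fillTwo n 0) k) ∈ CC n := ⟨k, Prod.ext hk rfl⟩
    have h2 : chi 1 (ev (fillTwo n 0) k) = 1 := by
      refine psi2_inj n ?_
      rw [← chi_fill, hk]
      exact chi_comm h.comm
    obtain ⟨a, b, h3, h4, h5⟩ := hM2 n _ _ h1 h2
    rw [Linj h3 hf₀] at h5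
    exact ⟨b, h5⟩
  have hA : d * phi lam f X * d⁻¹ = f₀⁻¹ * pow X lam * f₀ := by
    have h1 := hd _ _ (LT_pow zgen)
    have h2 := LT_conj (LT.inv_mem hf₀) (LT_pow lam)
    have e1 : (f⁻¹ : FHat 2) * pow Y lam * f⁻¹⁻¹ = phi lam f (pow Y zgen) := by
      rw [pow_zgen, phi_Y, inv_inv]
    have e2 : (f₀⁻¹ * pow (X ^ 2) lam * f₀⁻¹⁻¹, f⁻¹ * pow Y lam * f⁻¹⁻¹) ∈ LT := h2
    rw [e1] at e2
    have h3 := Linj h1 e2
    rw [pow_zgen, map_pow, phi_X, ← pow_npow'] at h3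
    -- `f₀ d` commutes with `x ^ 2`
    have h4 : Commute (f₀ * d) (pow (X ^ 2) lam) := by
      show f₀ * d * pow (X ^ 2) lam = pow (X ^ 2) lam * (f₀ * d)
      calc f₀ * d * pow (X ^ 2) lam = f₀ * (d * pow (X ^ 2) lam * d⁻¹) * d := by group
        _ = _ := by
          rw [h3]
          group
    obtain ⟨mu, hmu⟩ := h.unit
    have h5 : Commute (f₀ * d) (X ^ 2) := by
      have h6 := commute_pow h4 mu
      have e3 : pow (pow (X ^ 2) lam) mu = X ^ 2 := by
        rw [pow_pow, hmu, pow_zgen]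
      rwa [e3] at h6
    obtain ⟨e, he⟩ := cent_X (by norm_num) h5
    have h7 : Commute (f₀ * d) (pow X lam) := by
      rw [he]
      exact commute_pow (comm_pow_self X e).symm lam
    rw [phi_X]
    calc d * pow X lam * d⁻¹ = f₀⁻¹ * (f₀ * d * pow X lam) * d⁻¹ := by group
      _ = f₀⁻¹ * (pow X lam * (f₀ * d)) * d⁻¹ := by rw [h7.eq]
      _ = _ := by group
  -- the partner
  have hAB' : (d * phi lam f X * d⁻¹, w₀⁻¹ * pow X lam * w₀) ∈ RC n := by
    have h1 := RC_conj ((RC n).inv_mem hw₀) (X_pow_RC (n := n) lam)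
    have h2 : (f₀⁻¹ * pow X lam * f₀⁻¹⁻¹, w₀⁻¹ * pow X lam * w₀⁻¹⁻¹) ∈ RC n := h1
    rw [inv_inv, inv_inv] at h2
    rw [hA]
    exact h2
  have hB : g * phi lam f X * g⁻¹ = w₀⁻¹ * pow X lam * w₀ := by
    have key : ∀ v : FHat 2, par v = 1 → Commute ((w₀⁻¹ * pow X lam * w₀)⁻¹ *
        (g * phi lam f X * g⁻¹)) v := by
      intro v hv
      obtain ⟨v1, hv1⟩ := h.bij.2 (g⁻¹ * v * g)
      have e1 : g * phi lam f v1 * g⁻¹ = v := by
        rw [hv1]
        group
      have hp1 : par v1 = 1 := by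
        rw [← par_phi h, hv1]
        have := par_conj g⁻¹ v
        rw [inv_inv] at this
        rw [this, hv]
      obtain ⟨u1, hu1⟩ := fill_surj (n := n) v1
      have hp2 : par u1 = 1 := by rw [par_RC hu1, hp1]
      have h1 := E1 hu1 hp2
      have h2 := RC_conj (X_RC (n := n)) hu1
      have h3 := E1 h2 (by rw [par_conj, hp2])
      have h4 := RC_conj hAB' h1
      have e2 : d * phi lam f (X * u1 * X⁻¹) * d⁻¹ = d * phi lam f X * d⁻¹ *
          (d * phi lam f u1 * d⁻¹) * (d * phi lam f X * d⁻¹)⁻¹ := by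
        rw [map_mul, map_mul, map_inv]
        group
      rw [e2] at h3
      have h5 := RC_fun hM1 hI h3 h4
      have e3 : g * phi lam f (X * v1 * X⁻¹) * g⁻¹ = g * phi lam f X * g⁻¹ * v *
          (g * phi lam f X * g⁻¹)⁻¹ := by
        rw [map_mul, map_mul, map_inv, ← e1]
        group
      rw [e3, e1] at h5
      set B := g * phi lam f X * g⁻¹
      set B' := w₀⁻¹ * pow X lam * w₀
      show B'⁻¹ * B * v = v * (B'⁻¹ * B)
      have h6 : B * v = B' * v * B'⁻¹ * B := by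
        rw [← h5]
        group
      rw [mul_assoc, h6]
      group
    have h1 := cent_XY (w := (w₀⁻¹ * pow X lam * w₀)⁻¹ * (g * phi lam f X * g⁻¹))
      (k := 2) (l := 2) (by norm_num) (by norm_num)
      (key _ (by rw [map_pow, par_X]; decide)) (key _ (by rw [map_pow, par_Y]; decide))
    exact (inv_mul_eq_one.1 h1).symm
  have hAB : (d * phi lam f X * d⁻¹, g * phi lam f X * g⁻¹) ∈ RC n := by
    rw [hB]
    exact hAB'
  -- all elements
  have E5 : ∀ {u v}, (u, v) ∈ RC n →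
      (d * phi lam f u * d⁻¹, g * phi lam f v * g⁻¹) ∈ RC n := by
    intro u v huv
    rcases par_cases u with hp | hp
    · exact E1 huv hp
    · have h1 : (X⁻¹ * u, X⁻¹ * v) ∈ RC n := (RC n).mul_mem ((RC n).inv_mem X_RC) huv
      have h2 := (RC n).mul_mem hAB (E1 h1 hp)
      have e1 : d * phi lam f X * d⁻¹ * (d * phi lam f (X⁻¹ * u) * d⁻¹) =
          d * phi lam f u * d⁻¹ := by
        rw [map_mul, map_inv]
        group
      have e2 : g * phi lam f X * g⁻¹ * (g * phi lam f (X⁻¹ * v) * g⁻¹) =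
          g * phi lam f v * g⁻¹ := by
        rw [map_mul, map_inv]
        group
      have h3 : (d * phi lam f X * d⁻¹ * (d * phi lam f (X⁻¹ * u) * d⁻¹),
          g * phi lam f X * g⁻¹ * (g * phi lam f (X⁻¹ * v) * g⁻¹)) ∈ RC n := h2
      rwa [e1, e2] at h3
  -- the converse
  have E6a : ∀ {u v}, (u, v) ∈ RC n → par u = 1 → ∃ a b, (a, b) ∈ RC n ∧
      d * phi lam f a * d⁻¹ = u ∧ g * phi lam f b * g⁻¹ = v := by
    intro u v huv hp
    obtain ⟨u', v', h1, h2, h3⟩ := hM1 n u v huv hp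
    obtain ⟨a', ha'⟩ := h.bij.2 u'
    obtain ⟨w, hw⟩ := h3
    have e1 : covMap n w = u' := congrArg Prod.fst hw
    obtain ⟨w1, hw1⟩ := exists_cov_of_chi (n := n) (w := a') (chi_one_of_phi h (by
      rw [ha', ← e1]
      exact chi_cov w))
    have h4 : (a', ev (fillTwo n 0) w1) ∈ CC n := ⟨w1, Prod.ext hw1 rfl⟩
    have h5 := hcy _ _ h4
    rw [ha'] at h5
    have h6 : (u', v') ∈ CC n := ⟨w, hw⟩
    have h7 := CC_fun h5 h6
    have h8 : chi 1 (ev (fillTwo n 0) w1) = 1 := by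
      refine chi1_of_phi h ?_
      have e2 := (hI.2.2.2.2 _ _ h2).2
      rw [← h7, map_mul, map_mul, hc, map_inv, hc, one_mul, inv_one, mul_one] at e2
      exact e2
    obtain ⟨a, b, h9, h10, h11⟩ := hM2 n _ _ h4 h8
    refine ⟨a, b, h11, ?_, ?_⟩
    · refine Linj (hd _ _ h9) ?_
      rw [ha']
      exact h1
    · refine Linj (hd2 h10) ?_
      rw [h7]
      exact h2
  have E6 : ∀ {u v}, (u, v) ∈ RC n → ∃ a b, (a, b) ∈ RC n ∧
      d * phi lam f a * d⁻¹ = u ∧ g * phi lam f b * g⁻¹ = v := by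
    intro u v huv
    rcases par_cases u with hp | hp
    · exact E6a huv hp
    · have h1 : ((d * phi lam f X * d⁻¹)⁻¹ * u, (g * phi lam f X * g⁻¹)⁻¹ * v) ∈ RC n :=
        (RC n).mul_mem ((RC n).inv_mem hAB) huv
      have hp1 : par ((d * phi lam f X * d⁻¹)⁻¹ * u) = 1 := by
        rw [map_mul, map_inv, par_conj, par_phi h]
        rw [map_mul, map_inv] at hp
        exact hp
      obtain ⟨a, b, h2, h3, h4⟩ := E6a h1 hp1
      refine ⟨X * a, X * b, (RC n).mul_mem X_RC h2, ?_, ?_⟩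
      · rw [map_mul]
        calc d * (phi lam f X * phi lam f a) * d⁻¹ =
            (d * phi lam f X * d⁻¹) * (d * phi lam f a * d⁻¹) := by group
          _ = u := by
            rw [h3]
            group
      · rw [map_mul]
        calc g * (phi lam f X * phi lam f b) * g⁻¹ =
            (g * phi lam f X * g⁻¹) * (g * phi lam f b * g⁻¹) := by group
          _ = v := by
            rw [h4]
            group
  -- the subgroups
  have hmem : ∀ (K : Subgroup (FHat 2)) (x : FHat 2), x ∈ cheb n K ↔ ∃ v ∈ K, (x, v) ∈ RC n := by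
    intro K x
    constructor
    · rintro ⟨w, hw, rfl⟩
      exact ⟨chebFill n w, hw, w, rfl⟩
    · rintro ⟨v, hv, w, hw⟩
      refine ⟨w, ?_, congrArg Prod.fst hw⟩
      have e : chebFill n w = v := congrArg Prod.snd hw
      show chebFill n w ∈ K
      rw [e]
      exact hv
  obtain ⟨g', hg'⟩ := fill_surj (n := n) g
  refine ⟨g'⁻¹ * d, fun x => ?_⟩
  rw [hmem]
  constructor
  · rintro ⟨u, hu, rfl⟩
    obtain ⟨v, hv, huv⟩ := (hmem H u).1 hu
    refine ⟨phi lam f v, ⟨v, hv, rfl⟩, ?_⟩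
    have h1 := RC_conj ((RC n).inv_mem hg') (E5 huv)
    have h2 : (g'⁻¹ * (d * phi lam f u * d⁻¹) * g'⁻¹⁻¹,
        g⁻¹ * (g * phi lam f v * g⁻¹) * g⁻¹⁻¹) ∈ RC n := h1
    have e1 : g'⁻¹ * (d * phi lam f u * d⁻¹) * g'⁻¹⁻¹ =
        g'⁻¹ * d * phi lam f u * (g'⁻¹ * d)⁻¹ := by group
    have e2 : g⁻¹ * (g * phi lam f v * g⁻¹) * g⁻¹⁻¹ = phi lam f v := by group
    rw [e1, e2] at h2
    exact h2
  · rintro ⟨_, ⟨v, hv, rfl⟩, hx⟩
    have hx' : (g'⁻¹ * d * x * (g'⁻¹ * d)⁻¹, phi lam f v) ∈ RC n := hx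
    have h1 := RC_conj hg' hx'
    have e1 : g' * (g'⁻¹ * d * x * (g'⁻¹ * d)⁻¹) * g'⁻¹ = d * x * d⁻¹ := by group
    rw [e1] at h1
    obtain ⟨a, b, h2, h3, h4⟩ := E6 h1
    have e2 : phi lam f a = x := mul_left_cancel (mul_right_cancel h3)
    have e3 : b = v := h.bij.1 (mul_left_cancel (mul_right_cancel h4))
    refine ⟨a, (hmem H a).2 ⟨v, hv, ?_⟩, e2⟩
    rw [← e3]
    exact h2

end main

end MPb66790.HK24
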