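import Pool.Agent.Lib.MP_b66790_nt.Hecke.Diag24
import Pool.Agent.Lib.MP_b66790_nt.Hecke.T51

/-!
# The twist is trivial
-/

namespace MPb66790.HK24

open MPb66790 MPb66790.CY24 Function

/-! ## The pair `σ₂ ^ (n + 1)`, `σ₂` -/

theorem s1pow_X (m : ℕ) : s 1 ^ m * jH X * (s 1 ^ m)⁻¹ = jH X := by
  have h : Commute (s 1) (jH X) := mul_inv_eq_iff_eq_mul.1 T51.c1_X
  exact mul_inv_eq_iff_eq_mul.2 (h.pow_left m).eq

theorem s1pow_Y (m : ℕ) : s 1 ^ m * jH Y * (s 1 ^ m)⁻¹ = jH Y * jH X ^ m := by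
  induction m with
  | zero => simp
  | succ m ih =>
    have h : s 1 * (jH X ^ m) * (s 1)⁻¹ = jH X ^ m := by
      have hc : Commute (s 1) (jH X) := mul_inv_eq_iff_eq_mul.1 T51.c1_X
      exact mul_inv_eq_iff_eq_mul.2 (hc.pow_right m).eq
    calc s 1 ^ (m + 1) * jH Y * (s 1 ^ (m + 1))⁻¹
        = s 1 * (s 1 ^ m * jH Y * (s 1 ^ m)⁻¹) * (s 1)⁻¹ := by
          rw [pow_succ']
          group
      _ = (s 1 * jH Y * (s 1)⁻¹) * (s 1 * (jH X ^ m) * (s 1)⁻¹) := by
          rw [ih]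
          group
      _ = jH Y * jH X ^ (m + 1) := by
          rw [T51.c1_Y, h, mul_assoc, ← pow_succ']

theorem iso_g0 (n : ℕ) : isoMap n (g0 n) = X := ev_g0 _ _

theorem iso_gy {n : ℕ} (j : ZMod (n + 1)) :
    isoMap n (gy j) = if j = 0 then Y else X * Y * X⁻¹ := ev_gy _ _ _

theorem rel_s1 (n : ℕ) : Rel n (s 1 ^ (n + 1)) (s 1) := by
  let τ : FHat (n + 2) →ₜ* FHat (n + 2) := ev (mk (g0 n) (fun j : ZMod (n + 1) => gy j * g0 n))
  have t0 : τ (g0 n) = g0 n := ev_g0 _ _
  have t1 : ∀ j : ZMod (n + 1), τ (gy j) = gy j * g0 n := fun j => ev_gy _ _ _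
  intro w
  refine ⟨τ w, ?_, ?_⟩
  · refine gen_ext (φ := (MulAut.conj (s 1 ^ (n + 1))).toMonoidHom.comp
      (jH.toMonoidHom.comp (covMap n).toMonoidHom))
      (ψ := (jH.toMonoidHom.comp (covMap n).toMonoidHom).comp τ.toMonoidHom) ?_ ?_ ?_ ?_ w
    · exact (continuous_const.mul (jH.continuous_toFun.comp
        (covMap n).continuous_toFun)).mul continuous_const
    · exact (jH.continuous_toFun.comp (covMap n).continuous_toFun).comp τ.continuous_toFun
    · show s 1 ^ (n + 1) * jH (covMap n (g0 n)) * (s 1 ^ (n + 1))⁻¹ = jH (covMap n (τ (g0 n)))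
      rw [t0, cov_g0, map_pow, ← conj_pow, s1pow_X]
    · intro j
      show s 1 ^ (n + 1) * jH (covMap n (gy j)) * (s 1 ^ (n + 1))⁻¹ = jH (covMap n (τ (gy j)))
      rw [t1, map_mul, cov_g0, cov_gy]
      simp only [map_mul, map_inv, map_pow]
      have e1 : s 1 ^ (n + 1) * (jH X ^ j.val * jH Y * (jH X ^ j.val)⁻¹) * (s 1 ^ (n + 1))⁻¹ =
          (s 1 ^ (n + 1) * jH X * (s 1 ^ (n + 1))⁻¹) ^ j.val *
          (s 1 ^ (n + 1) * jH Y * (s 1 ^ (n + 1))⁻¹) *
          ((s 1 ^ (n + 1) * jH X * (s 1 ^ (n + 1))⁻¹) ^ j.val)⁻¹ := by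
        rw [conj_pow]
        group
      have e2 : jH X ^ (n + 1) * (jH X ^ j.val)⁻¹ = (jH X ^ j.val)⁻¹ * jH X ^ (n + 1) := by
        exact (((Commute.refl (jH X)).pow_pow (n + 1) j.val).inv_right).eq
      rw [e1, s1pow_X, s1pow_Y]
      calc jH X ^ j.val * (jH Y * jH X ^ (n + 1)) * (jH X ^ j.val)⁻¹
          = jH X ^ j.val * jH Y * (jH X ^ (n + 1) * (jH X ^ j.val)⁻¹) := by group
        _ = _ := by
          rw [e2]
          group
  · refine gen_ext (φ := (MulAut.conj (s 1)).toMonoidHom.comp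
      (jH.toMonoidHom.comp (isoMap n).toMonoidHom))
      (ψ := (jH.toMonoidHom.comp (isoMap n).toMonoidHom).comp τ.toMonoidHom) ?_ ?_ ?_ ?_ w
    · exact (continuous_const.mul (jH.continuous_toFun.comp
        (isoMap n).continuous_toFun)).mul continuous_const
    · exact (jH.continuous_toFun.comp (isoMap n).continuous_toFun).comp τ.continuous_toFun
    · show s 1 * jH (isoMap n (g0 n)) * (s 1)⁻¹ = jH (isoMap n (τ (g0 n)))
      rw [t0, iso_g0, T51.c1_X]
    · intro j
      show s 1 * jH (isoMap n (gy j)) * (s 1)⁻¹ = jH (isoMap n (τ (gy j)))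
      rw [t1, map_mul, iso_g0, iso_gy]
      split_ifs with hj
      · rw [T51.c1_Y, map_mul]
      · simp only [map_mul, map_inv]
        calc s 1 * (jH X * jH Y * (jH X)⁻¹) * (s 1)⁻¹
            = (s 1 * jH X * (s 1)⁻¹) * (s 1 * jH Y * (s 1)⁻¹) * (s 1 * jH X * (s 1)⁻¹)⁻¹ := by
              group
          _ = _ := by
              rw [T51.c1_X, T51.c1_Y]
              group

/-! ## The action on the homology modulo two -/

/-- The plane over the field with two elements. -/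
abbrev V2 : Type := ZMod 2 × ZMod 2

/-- Translations. -/
def tr : Multiplicative V2 →* Equiv.Perm V2 where
  toFun v := Equiv.addLeft (Multiplicative.toAdd v)
  map_one' := by
    ext z
    · simp
    · simp
  map_mul' v w := by
    ext z
    · simp
    · simp

def q0 : Equiv.Perm V2 := ⟨fun z => (z.1 + z.2, z.2), fun z => (z.1 + z.2, z.2), by decide, by decide⟩

def q1 : Equiv.Perm V2 := ⟨fun z => (z.1, z.1 + z.2), fun z => (z.1, z.1 + z.2), by decide, by decide⟩

def q2 : Equiv.Perm V2 :=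
  ⟨fun z => (z.1 + z.2 + 1, z.2), fun z => (z.1 + z.2 + 1, z.2), by decide, by decide⟩

theorem isBraid_q : IsBraid ![q0, q1, q2] := by
  refine ⟨?_, ?_, ?_⟩ <;> decide

/-- The affine action of the braid group on the homology modulo two. -/
noncomputable def r2 : Hat Braid4 →* Equiv.Perm V2 := evBF isBraid_q

theorem r2_0 : r2 (s 0) = q0 := evBF_s _ _

theorem r2_1 : r2 (s 1) = q1 := evBF_s _ _

theorem r2_2 : r2 (s 2) = q2 := evBF_s _ _

theorem r2_Y : r2 (jH Y) = tr (Multiplicative.ofAdd (1, 0)) := by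
  rw [jH_Y]
  unfold pB
  rw [map_mul, map_inv, r2_0, r2_2]
  decide

theorem r2_X : r2 (jH X) = tr (Multiplicative.ofAdd (0, 1)) := by
  rw [jH_X]
  unfold rB pB
  simp only [map_mul, map_inv, r2_0, r2_1, r2_2]
  decide

/-- The homology class modulo two. -/
noncomputable def v2 : FHat 2 →* Multiplicative V2 :=
  evF ![Multiplicative.ofAdd (0, 1), Multiplicative.ofAdd (1, 0)]

theorem r2_jH (w : FHat 2) : r2 (jH w) = tr (v2 w) := by
  refine hatF_ext (φ := r2.comp jH.toMonoidHom) (ψ := tr.comp v2) (fun S => ?_) (fun S => ?_)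
    (fun g => ?_) w
  · exact (isClopen_lftF _ S).isClosed.preimage jH.continuous_toFun
  · exact (isClopen_lftF _ (tr ⁻¹' S)).isClosed
  · have e : (r2.comp jH.toMonoidHom).comp (of : F2 →* FHat 2) = (tr.comp v2).comp of := by
      refine FreeGroup.ext_hom _ _ fun i => ?_
      fin_cases i
      · show r2 (jH X) = tr (v2 X)
        have e : v2 X = Multiplicative.ofAdd (0, 1) := evF_gen _ _
        rw [e, r2_X]
      · show r2 (jH Y) = tr (v2 Y)
        have e : v2 Y = Multiplicative.ofAdd (1, 0) := evF_gen _ _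
        rw [e, r2_Y]
    exact DFunLike.congr_fun e g

/-- The exponent of `a` modulo two. -/
noncomputable def ae : FHat 2 →* Multiplicative (ZMod 2) :=
  (AddMonoidHom.toMultiplicative (AddMonoidHom.fst (ZMod 2) (ZMod 2))).comp v2

theorem ae_X : ae X = 1 := by
  have e : v2 X = Multiplicative.ofAdd (0, 1) := evF_gen _ _
  show (AddMonoidHom.toMultiplicative (AddMonoidHom.fst (ZMod 2) (ZMod 2))) (v2 X) = 1
  rw [e]
  rfl

theorem ae_cov_iso (n : ℕ) (w : FHat (n + 2)) : ae (covMap n w) = ae (isoMap n w) := by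
  have hcl : ∀ S : Set (Multiplicative (ZMod 2)), IsClosed (ae ⁻¹' S) := fun S =>
    (isClopen_lftF _ ((AddMonoidHom.toMultiplicative (AddMonoidHom.fst (ZMod 2) (ZMod 2))) ⁻¹'
      S)).isClosed
  refine hatF_ext (φ := ae.comp (covMap n).toMonoidHom) (ψ := ae.comp (isoMap n).toMonoidHom)
    (fun S => ?_) (fun S => ?_) (fun g => ?_) w
  · exact (hcl S).preimage (covMap n).continuous_toFun
  · exact (hcl S).preimage (isoMap n).continuous_toFun
  · have e : (ae.comp (covMap n).toMonoidHom).comp (of : FreeGroup (Fin (n + 2)) →* _) =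
        (ae.comp (isoMap n).toMonoidHom).comp of := by
      refine FreeGroup.ext_hom _ _ fun i => ?_
      show ae (covMap n (gen i)) = ae (isoMap n (gen i))
      rcases gen_eq i with h | ⟨j, h⟩
      · rw [h, cov_g0, iso_g0, map_pow, ae_X, one_pow]
      · rw [h, cov_gy, iso_gy]
        split_ifs with hj
        · rw [map_mul, map_mul, map_inv, map_pow, ae_X]
          simp
        · rw [map_mul, map_mul, map_inv, map_pow, map_mul, map_mul, map_inv, ae_X]
          simp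
    exact DFunLike.congr_fun e g

theorem tr_inj : Injective tr := by
  intro v w h
  have h1 := DFunLike.congr_fun h (0 : V2)
  have h2 : Multiplicative.toAdd v + 0 = Multiplicative.toAdd w + 0 := h1
  rw [add_zero, add_zero] at h2
  exact h2

/-- Partners have the same exponent of `a` modulo two in the image of `a`. -/
theorem no_rel {n : ℕ} {g g' : Hat Braid4} (h : Rel n g g') (h1 : r2 g = 1 ∨ r2 g = q1)
    (h2 : r2 g' = q0 * q1 * q0) : False := by
  obtain ⟨w', e1, e2⟩ := h (gy 0)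
  have c1 : covMap n (gy 0) = Y := by
    rw [cov_gy]
    simp
  have c2 : isoMap n (gy 0) = Y := by
    rw [iso_gy, if_pos rfl]
  rw [c1] at e1
  rw [c2] at e2
  have f1 := congrArg r2 e1
  have f2 := congrArg r2 e2
  rw [map_mul, map_mul, map_inv, r2_jH, r2_jH] at f1 f2
  have eY : v2 Y = Multiplicative.ofAdd (1, 0) := evF_gen _ _
  rw [eY] at f1 f2
  have a2 : v2 (isoMap n w') = Multiplicative.ofAdd (0, 1) := by
    apply tr_inj
    rw [← f2, h2]
    decide
  have a1 : v2 (covMap n w') = Multiplicative.ofAdd (1, 0) ∨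
      v2 (covMap n w') = Multiplicative.ofAdd (1, 1) := by
    rcases h1 with h1 | h1
    · left
      apply tr_inj
      rw [← f1, h1]
      decide
    · right
      apply tr_inj
      rw [← f1, h1]
      decide
  have a3 := ae_cov_iso n w'
  have a4 : (AddMonoidHom.toMultiplicative (AddMonoidHom.fst (ZMod 2) (ZMod 2))) (v2 (covMap n w')) =
    (AddMonoidHom.toMultiplicative (AddMonoidHom.fst (ZMod 2) (ZMod 2))) (v2 (isoMap n w')) := a3
  rw [a2] at a4
  rcases a1 with a1 | a1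
  · rw [a1] at a4
    exact absurd a4 (by decide)
  · rw [a1] at a4
    exact absurd a4 (by decide)

variable {lam : ZHat} {f : FHat 2}

theorem r2_pow_sq {t : Hat Braid4} (h : r2 (t ^ 2) = 1) (m : ZHat) : r2 (pow (t ^ 2) m) = 1 := by
  have e : r2 (pow (t ^ 2) m) = evF (fun _ : Fin 1 => r2 (t ^ 2)) m := evBF_ev _ _ _
  rw [e]
  exact evF_one (fun _ => h) m

theorem r2_sq0 : r2 (s 0 ^ 2) = 1 := by
  rw [map_pow, r2_0]
  decide

theorem r2_sq1 : r2 (s 1 ^ 2) = 1 := by
  rw [map_pow, r2_1]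
  decide

theorem r2_Phi1 (h : IsGT lam f) : r2 (Phi h (s 1)) = q1 := by
  obtain ⟨m, hm, -⟩ := h.three
  have e1 : r2 (fA f) = 1 := by
    have e : r2 (fA f) = evF (fun i => r2 ((![s 0 ^ 2, s 1 ^ 2] : Fin 2 → Hat Braid4) i)) f :=
      evBF_ev _ _ _
    rw [e]
    refine evF_one (fun i => ?_) f
    fin_cases i
    · exact r2_sq0
    · exact r2_sq1
  have e2 : pow (s 1) lam = s 1 * pow (s 1 ^ 2) m := by
    rw [hm, pow_lam, pow_sq, mul_assoc]
  rw [Phi_one, map_mul, map_mul, map_inv, e1, e2, map_mul, r2_pow_sq r2_sq1, r2_1]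
  simp

/-- The diagonal case, with the same matrix. -/
def StDiagX : Prop := ∀ (lam : ZHat) (f : FHat 2), IsGT lam f → ∀ (n : ℕ) (H K : Subgroup (FHat 2)),
  Isog (dg n) H K → Isog (dg n) (act lam f H) (act lam f K)

/-- The main theorem, with the same matrix. -/
def StAllX : Prop := ∀ (lam : ZHat) (f : FHat 2), IsGT lam f →
  ∀ (g : Matrix (Fin 2) (Fin 2) ℤ), 0 < g.det → ∀ (H K : Subgroup (FHat 2)), Isog g H K →
  Isog g (act lam f H) (act lam f K)

theorem stepX (hT : StT) (hA : StAlpha) (h : IsGT lam f) (n : ℕ) :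
    ∃ m : ZHat, ∀ u v, (u, v) ∈ CR n →
        (phi lam f u, pow X m * phi lam f v * (pow X m)⁻¹) ∈ CR n := by
  obtain ⟨κ, hκ⟩ := rel_Phi hT hA h n
  obtain ⟨r, hr, m, hm⟩ := exists_div 1 κ
  have eκ : pow (s 0) κ = s 0 ^ r * pow (s 0 ^ 2) m := by
    rw [hm, pow_mul']
    congr 1
    · exact (map_pow (ev (fun _ : Fin 1 => s 0)) zgen r).trans (by
        have : ev (fun _ : Fin 1 => s 0) zgen = s 0 := ev_gen _ _
        rw [this])
    · rw [← pow_pow]
      congr 1
      exact (map_pow (ev (fun _ : Fin 1 => s 0)) zgen 2).trans (by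
        have : ev (fun _ : Fin 1 => s 0) zgen = s 0 := ev_gen _ _
        rw [this])
  -- the parity
  have hr0 : r = 0 := by
    have hr2 : r = 0 ∨ r = 1 := by omega
    rcases hr2 with h0 | h1
    · exact h0
    · exfalso
      have h3 := hκ _ _ (rel_s1 n)
      refine no_rel h3 ?_ ?_
      · rw [map_pow, map_pow, r2_Phi1]
        rcases Nat.even_or_odd (n + 1) with ⟨k, hk⟩ | ⟨k, hk⟩
        · left
          rw [hk, ← two_mul, pow_mul]
          have : q1 ^ 2 = 1 := by decide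
          rw [this, one_pow]
        · right
          rw [hk, pow_succ, pow_mul]
          have : q1 ^ 2 = 1 := by decide
          rw [this, one_pow, one_mul]
      · rw [eκ, h1, pow_one, map_mul, map_mul, map_inv, map_mul, r2_pow_sq r2_sq0, r2_Phi1, r2_0]
        decide
  have eκ' : pow (s 0) κ = iota (pow X m) := by
    rw [eκ, hr0, pow_zero, one_mul, map_pow', iota_X]
  refine ⟨m, ?_⟩
  rintro u v ⟨e, he⟩
  have h1 := hκ _ _ he
  refine ⟨pow lam e, ?_⟩
  have e1 : pow (s 0) κ * Phi h (iota v * pow cB e) * (pow (s 0) κ)⁻¹ =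
      iota (pow X m * phi lam f v * (pow X m)⁻¹) * pow cB (pow lam e) := by
    rw [map_mul, map_pow', Phi_cB, pow_pow, Phi_iota, eκ']
    have c : Commute (pow cB (pow lam e)) (iota (pow X m)) :=
      (commute_pow (commute_ev2 (comm_cB_zero.pow_right 2) (comm_cB_one.pow_right 2) _).symm _).symm
    rw [map_mul, map_mul, map_inv]
    calc iota (pow X m) * (iota (phi lam f v) * pow cB (pow lam e)) * (iota (pow X m))⁻¹
        = iota (pow X m) * iota (phi lam f v) *
          (pow cB (pow lam e) * (iota (pow X m))⁻¹) := by group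
      _ = iota (pow X m) * iota (phi lam f v) *
          ((iota (pow X m))⁻¹ * pow cB (pow lam e)) := by rw [c.inv_right.eq]
      _ = _ := by group
  rw [e1] at h1
  rw [← Phi_iota h]
  exact h1

/-- The diagonal case. -/
theorem diagX_of (hT : StT) (hA : StAlpha) (hS : StSim) (hCl : StCl) (hG : StG) (hM : StM4) :
    StDiagX := by
  rintro lam f h n H K ⟨H₀, K₀, fi1, fi2, h1, h2, s1, s2⟩
  obtain ⟨m, hB⟩ := stepX hT hA h n
  have p1 : ∀ h ∈ H₀, ∃ k ∈ K₀, SimP (dg n) h k := by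
    intro x hx
    obtain ⟨k, hk, hs⟩ := h1 x hx
    have := simP_of_sim hs
    rw [EE_dg] at this
    exact ⟨k, hk, this⟩
  have p2 : ∀ k ∈ K₀, ∃ h ∈ H₀, SimP (dg n) h k := by
    intro x hx
    obtain ⟨k, hk, hs⟩ := h2 x hx
    have := simP_of_sim hs
    rw [EE_dg] at this
    exact ⟨k, hk, this⟩
  set R := RS (dg n) with hR
  have g1 : (R.map (MonoidHom.fst F2 F2)).FiniteIndex := by
    have hle : H₀ ≤ R.map (MonoidHom.fst F2 F2) := by
      intro x hx
      obtain ⟨k, -, hs⟩ := p1 x hx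
      exact ⟨(x, k), hs, rfl⟩
    exact Subgroup.finiteIndex_of_le hle
  have g2 : (R.map (MonoidHom.snd F2 F2)).FiniteIndex := by
    have hle : K₀ ≤ R.map (MonoidHom.snd F2 F2) := by
      intro x hx
      obtain ⟨k, -, hs⟩ := p2 x hx
      exact ⟨(k, x), hs, rfl⟩
    exact Subgroup.finiteIndex_of_le hle
  have g3 : ∀ k, ((1 : F2), k) ∈ R → k = 1 := fun k hk => hM _ (dg_left n hk)
  have g4 : ∀ h, (h, (1 : F2)) ∈ R → h = 1 := fun x hx => hM _ (dg_right n hx)
  obtain ⟨G1, G2⟩ := hG R g1 g2 g3 g4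
  -- the closure relation
  have hcl : ∀ u v, (u, v) ∈ CR n → ((phi lam f u, pow X m * phi lam f v * (pow X m)⁻¹) :
      FHat 2 × FHat 2) ∈ closure ((fun p : F2 × F2 => ((of p.1, of p.2) : FHat 2 × FHat 2)) ''
        (R : Set (F2 × F2))) := by
    intro u v huv
    obtain ⟨e, he⟩ := hB u v huv
    have h3 : ((phi lam f u, pow X m * phi lam f v * (pow X m)⁻¹) : FHat 2 × FHat 2) ∈ R0 n :=
      hCl n _ _ e he
    refine closure_mono ?_ h3
    rintro _ ⟨x, y, hs, rfl⟩
    exact ⟨(x, y), hs, rfl⟩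
  -- the new subgroups
  set H' := act lam f (cl H₀) with hH'
  set K' := cj (pow X m) (act lam f (cl K₀)) with hK'
  have oH : IsOpen (H' : Set (FHat 2)) := isOpen_act h (isOpen_cl H₀)
  have oK : IsOpen (K' : Set (FHat 2)) := isOpen_cj _ (isOpen_act h (isOpen_cl K₀))
  have c1 : ∀ u ∈ H', ∃ v ∈ K', ((u, v) : FHat 2 × FHat 2) ∈
      closure ((fun p : F2 × F2 => ((of p.1, of p.2) : FHat 2 × FHat 2)) ''
        (R : Set (F2 × F2))) := by
    rintro _ ⟨u, hu, rfl⟩
    obtain ⟨v, hv, huv⟩ := stepA hS p1 u hu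
    exact ⟨_, ⟨_, ⟨v, hv, rfl⟩, rfl⟩, hcl u v huv⟩
  have c2 : ∀ v ∈ K', ∃ u ∈ H', ((u, v) : FHat 2 × FHat 2) ∈
      closure ((fun p : F2 × F2 => ((of p.1, of p.2) : FHat 2 × FHat 2)) ''
        (R : Set (F2 × F2))) := by
    rintro _ ⟨_, ⟨v, hv, rfl⟩, rfl⟩
    obtain ⟨u, hu, huv⟩ := stepA' hS p2 v hv
    exact ⟨_, ⟨u, hu, rfl⟩, hcl u v huv⟩
  have hsim : ∀ x y, (x, y) ∈ R → Sim (dg n) x y := by
    intro x y hxy
    have e1 := sim_of_simP (g := dg n) (h := x) (k := y) hxy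
    rwa [EE_dg] at e1
  refine ⟨H'.comap of, K'.comap of, finiteIndex_comap oH, finiteIndex_comap oK, ?_, ?_, ?_, ?_⟩
  · intro x hx
    obtain ⟨v, hv, hxv⟩ := c1 (of x) hx
    obtain ⟨k, rfl, hk⟩ := G1 x v hxv
    exact ⟨k, hv, hsim _ _ hk⟩
  · intro y hy
    obtain ⟨u, hu, huy⟩ := c2 (of y) hy
    obtain ⟨x, rfl, hx⟩ := G2 u y huy
    exact ⟨x, hu, hsim _ _ hx⟩
  · rw [cl_open oH]
    exact sd_act h s1
  · rw [cl_open oK]
    exact sd_cj _ (sd_act h s2)


end MPb66790.HK24
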