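import Pool.Agent.Lib.MP_b66790_nt.Hecke.Orb24
import Pool.Agent.Lib.MP_b66790_nt.Hecke.AllDiag67

/-!
# Row GEN3: from the diagonal matrices to all matrices for the type `(3, 2, ∞)`
-/

namespace MPb66790.HK24

open MPb66790 MPb66790.CY24 Function

theorem mat3_surj31 : Surjective mat3 := by
  have h : mat3.range = ⊤ := by
    refine top_le_iff.1 ?_
    rw [← SpecialLinearGroup.SL2Z_generators, Subgroup.closure_le]
    rintro x (rfl | rfl)
    · exact ⟨FreeGroup.of 1, by simp [mat3]; rfl⟩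
    · refine ⟨(FreeGroup.of 0 * FreeGroup.of 1)⁻¹, ?_⟩
      rw [map_inv, map_mul]
      simp only [mat3, FreeGroup.lift_apply_of]
      decide
  exact MonoidHom.range_eq_top.1 h

/-- The conjugation by a word. -/
def cw31 (p : F2) : F2 →* F2 := (MulAut.conj p).toMonoidHom

theorem cw_apply31 (p w : F2) : cw31 p w = p * w * p⁻¹ := rfl

theorem cw_inv31 (p w : F2) : cw31 p (cw31 p⁻¹ w) = w := by
  rw [cw_apply31, cw_apply31]
  group

theorem cw_inv31' (p w : F2) : cw31 p⁻¹ (cw31 p w) = w := by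
  rw [cw_apply31, cw_apply31]
  group

theorem hx_cw31 (p : F2) (w : FHat 2) : hx (cw31 p) w = of p * w * (of p)⁻¹ := by
  refine hat_ext (φ := (hx (cw31 p)).toMonoidHom) (ψ := (MulAut.conj (of p)).toMonoidHom)
    (hx (cw31 p)).continuous_toFun ((continuous_const.mul continuous_id).mul continuous_const)
    (fun g => ?_) w
  show hx (cw31 p) (of g) = of p * of g * (of p)⁻¹
  rw [hx_of, cw_apply31, map_mul, map_mul, map_inv]

theorem cl_cw31 (p : F2) (H : Subgroup F2) : SameDessin (cl (H.map (cw31 p))) (cl H) := by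
  rw [cl_map67]
  have e : (cl H).map (hx (cw31 p)).toMonoidHom = (cl H).map (MulAut.conj (of p)).toMonoidHom := by
    congr 1
    ext w
    exact hx_cw31 p w
  rw [e]
  exact sd_symm67 (sd_conj67 _ _)

theorem isog3_of31 {g g' : Matrix (Fin 2) (Fin 2) ℤ} (p q : F2)
    (hs : ∀ h k, Sim3 g h k → Sim3 g' (cw31 p h) (cw31 q k)) {H K : Subgroup (FHat 2)}
    (hI : Isog3 g H K) : Isog3 g' H K := by
  obtain ⟨T1, T2, H₀, K₀, f1, f2, hk, kh, s1, s2⟩ := hI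
  refine ⟨T1, T2, H₀.map (cw31 p), K₀.map (cw31 q),
    finIndex_map67 (cw_inv31 p) (cw_inv31' p) f1, finIndex_map67 (cw_inv31 q) (cw_inv31' q) f2,
    ?_, ?_, sd_trans67 (cl_cw31 p H₀) s1, sd_trans67 (cl_cw31 q K₀) s2⟩
  · rintro _ ⟨a, ha, rfl⟩
    obtain ⟨b, hb, hab⟩ := hk a ha
    exact ⟨cw31 q b, ⟨b, hb, rfl⟩, hs a b hab⟩
  · rintro _ ⟨b, hb, rfl⟩
    obtain ⟨a, ha, hab⟩ := kh b hb
    exact ⟨cw31 p a, ⟨a, ha, rfl⟩, hs a b hab⟩

theorem mat3_cw31 {p : F2} {B : Matrix.SpecialLinearGroup (Fin 2) ℤ} (hp : mat3 p = B) (h : F2) :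
    (mat3 (cw31 p h)).1 = B.1 * (mat3 h).1 * (B⁻¹).1 := by
  rw [cw_apply31, map_mul, map_mul, map_inv, hp]
  rfl

theorem sim3_iff_PM31 (g : Matrix (Fin 2) (Fin 2) ℤ) (h k : F2) :
    Sim3 g h k ↔ PM (g * (mat3 h).1) ((mat3 k).1 * g) := Iff.rfl

theorem isog3_down31 {d : ℤ} (hd : d ≠ 0) (A B : Matrix.SpecialLinearGroup (Fin 2) ℤ)
    {g D : Matrix (Fin 2) (Fin 2) ℤ} (hg : g = d • (A.1 * D * B.1)) {H K : Subgroup (FHat 2)}
    (hI : Isog3 g H K) : Isog3 D H K := by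
  obtain ⟨p, hp⟩ := mat3_surj31 B
  obtain ⟨q, hq⟩ := mat3_surj31 A⁻¹
  refine isog3_of31 p q (fun h k hs => ?_) hI
  rw [sim3_iff_PM31] at hs ⊢
  rw [hg, Matrix.smul_mul, Matrix.mul_smul] at hs
  have h1 := PM.smul hd hs
  have h2 := (h1.left (A⁻¹).1).right (B⁻¹).1
  rw [mat3_cw31 hp, mat3_cw31 hq, inv_inv]
  have e5 : D * (B.1 * (mat3 h).1 * (B⁻¹).1) =
      (A⁻¹).1 * (A.1 * D * B.1 * (mat3 h).1) * (B⁻¹).1 := by
    calc D * (B.1 * (mat3 h).1 * (B⁻¹).1) = 1 * D * B.1 * (mat3 h).1 * (B⁻¹).1 := by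
          simp only [one_mul, mul_assoc]
      _ = _ := by rw [← inv_mul_val A]; simp only [mul_assoc]
  have e6 : (A⁻¹).1 * (mat3 k).1 * A.1 * D =
      (A⁻¹).1 * ((mat3 k).1 * (A.1 * D * B.1)) * (B⁻¹).1 := by
    calc (A⁻¹).1 * (mat3 k).1 * A.1 * D = (A⁻¹).1 * (mat3 k).1 * A.1 * D * 1 := by rw [mul_one]
      _ = _ := by rw [← mul_inv_val B]; simp only [mul_assoc]
  rw [e5, e6]
  exact h2

theorem isog3_up31 (d : ℤ) (A B : Matrix.SpecialLinearGroup (Fin 2) ℤ)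
    {g D : Matrix (Fin 2) (Fin 2) ℤ} (hg : g = d • (A.1 * D * B.1)) {H K : Subgroup (FHat 2)}
    (hI : Isog3 D H K) : Isog3 g H K := by
  obtain ⟨p, hp⟩ := mat3_surj31 B⁻¹
  obtain ⟨q, hq⟩ := mat3_surj31 A
  refine isog3_of31 p q (fun h k hs => ?_) hI
  rw [sim3_iff_PM31] at hs ⊢
  have h2 := (hs.left A.1).right B.1
  rw [mat3_cw31 hp, mat3_cw31 hq, inv_inv]
  have e5 : g * ((B⁻¹).1 * (mat3 h).1 * B.1) = d • (A.1 * (D * (mat3 h).1) * B.1) := by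
    rw [hg, Matrix.smul_mul]
    congr 1
    calc A.1 * D * B.1 * ((B⁻¹).1 * (mat3 h).1 * B.1) =
        A.1 * D * (B.1 * (B⁻¹).1) * (mat3 h).1 * B.1 := by simp only [mul_assoc]
      _ = _ := by rw [mul_inv_val, mul_one]; simp only [mul_assoc]
  have e6 : A.1 * (mat3 k).1 * (A⁻¹).1 * g = d • (A.1 * ((mat3 k).1 * D) * B.1) := by
    rw [hg, Matrix.mul_smul]
    congr 1
    calc A.1 * (mat3 k).1 * (A⁻¹).1 * (A.1 * D * B.1) =
        A.1 * (mat3 k).1 * ((A⁻¹).1 * A.1) * D * B.1 := by simp only [mul_assoc]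
      _ = _ := by rw [inv_mul_val, mul_one]; simp only [mul_assoc]
  rw [e5, e6]
  rcases h2 with h2 | h2
  · exact Or.inl (by rw [h2])
  · exact Or.inr (by rw [h2, smul_neg])

/-- Row GEN3. -/
theorem stGen3_31 : HK24.StGen3 := by
  intro hD lam f h g hg H K hI
  obtain ⟨A, B, d, N, hd, hN, he⟩ := HK31.smith31 g hg
  obtain ⟨n, rfl⟩ : ∃ n, N = n + 1 := ⟨N - 1, by omega⟩
  have hd' : (d : ℤ) ≠ 0 := by exact_mod_cast hd.ne'
  have hgd : g = (d : ℤ) • (A.1 * dg n * B.1) := by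
    rw [he]
    have e : (!![(d : ℤ) * ((n + 1 : ℕ) : ℤ), 0; 0, (d : ℤ)] : Matrix (Fin 2) (Fin 2) ℤ) =
        (d : ℤ) • dg n := by
      ext i j
      fin_cases i <;> fin_cases j <;> simp [dg]
    rw [e, Matrix.mul_smul, Matrix.smul_mul]
  exact isog3_up31 d A B hgd (hD lam f h n H K (isog3_down31 hd' A B hgd hI))

end MPb66790.HK24
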