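import Pool.Agent.Lib.MP_b66790_nt.Hecke.GTk_31

/-!
# Row KER3: the kernel of `iot3` modulo the powers of `ζ`
-/

namespace MPb66790.HK24

open MPb66790 MPb66790.CY24 Function

theorem tri_braid31 {Q : Type} [Group Q] {x y : Q} (hx : x ^ 3 = 1) (hy : y ^ 2 = 1) :
    IsBraid ![(x * y)⁻¹, x * x * y, (x * y)⁻¹] := by
  have h1 : (x * y)⁻¹ * (x * x * y) * (x * y)⁻¹ = x * x * y * (x * y)⁻¹ * (x * x * y) := by
    have e1 : (x * y)⁻¹ * (x * x * y) * (x * y)⁻¹ = y⁻¹ := by group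
    have e2 : x * x * y * (x * y)⁻¹ * (x * x * y) = x ^ 3 * y := by
      rw [pow_succ, pow_two]
      group
    have e3 : y⁻¹ = y := by
      rw [inv_eq_iff_mul_eq_one, ← pow_two, hy]
    rw [e1, e2, hx, one_mul, e3]
  exact ⟨h1, h1.symm, rfl⟩

/-- Row KER3. -/
theorem stKer3_31 : HK24.StKer3 := by
  intro w e hw H hH hT
  obtain ⟨Q, _, _, φ, hs, hφ⟩ := open_sub31 hH
  have hs' : Surjective (lftF φ) := by
    intro q
    obtain ⟨g, hg⟩ := hs q
    exact ⟨of g, by rw [lftF_of, hg]⟩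
  let M : Subgroup Q := H.normalCore.map (lftF φ)
  have hM : M.Normal := Subgroup.Normal.map inferInstance _ hs'
  let Φ : F2 →* Q ⧸ M := (QuotientGroup.mk' M).comp φ
  have hΦ : ∀ x : FHat 2, lftF Φ x = QuotientGroup.mk' M (lftF φ x) := lftF_comp _ _
  have hΦ1 : ∀ x : FHat 2, x ∈ H.normalCore → lftF Φ x = 1 := by
    intro x hx
    rw [hΦ]
    exact (QuotientGroup.eq_one_iff _).2 ⟨x, hx, rfl⟩
  have hΦ2 : ∀ x : FHat 2, lftF Φ x = 1 → x ∈ H := by
    intro x hx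
    rw [hΦ] at hx
    obtain ⟨y, hy, hyx⟩ := (QuotientGroup.eq_one_iff _).1 hx
    have h3 := hφ (y⁻¹ * x) (by rw [map_mul, map_inv, hyx, inv_mul_cancel])
    have h4 := H.mul_mem (Subgroup.normalCore_le H hy) h3
    rwa [mul_inv_cancel_left] at h4
  set x : Q ⧸ M := Φ (FreeGroup.of 0) with hx
  set y : Q ⧸ M := Φ (FreeGroup.of 1) with hy
  have hx3 : x ^ 3 = 1 := by
    have h := hΦ1 (X ^ 3) (fun g => (hT g).1)
    rw [map_pow] at h
    have h2 : lftF Φ X = x := lftF_of Φ _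
    rwa [h2] at h
  have hy2 : y ^ 2 = 1 := by
    have h := hΦ1 (Y ^ 2) (fun g => (hT g).2)
    rw [map_pow] at h
    have h2 : lftF Φ Y = y := lftF_of Φ _
    rwa [h2] at h
  have hB := tri_braid31 hx3 hy2
  have b0 : evBF hB (s 0) = (x * y)⁻¹ := evBF_s hB 0
  have b1 : evBF hB (s 1) = x * x * y := evBF_s hB 1
  apply hΦ2
  have h5 : evBF hB (iot3 w) = lftF Φ w := by
    have h6 : evBF hB (iot3 w) = evF ![evBF hB (s 1 * s 0), evBF hB ((s 0 * s 1 * s 0)⁻¹)] w :=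
      evBF_ev2 hB _ _ w
    rw [h6, lftF_eq_evF]
    congr 2
    funext i
    fin_cases i
    · show evBF hB (s 1 * s 0) = x
      rw [map_mul, b0, b1]
      group
    · show evBF hB ((s 0 * s 1 * s 0)⁻¹) = y
      rw [map_inv, map_mul, map_mul, b0, b1]
      group
  have h7 : evBF hB cB = 1 := by
    have h8 : evBF hB cB = ((x * y)⁻¹ * (x * x * y)) ^ 3 := by
      show evBF hB ((s 0 * s 1) ^ 3) = _
      rw [map_pow, map_mul, b0, b1]
    have h9 : ((x * y)⁻¹ * (x * x * y)) ^ 3 = y⁻¹ * x ^ 3 * y := by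
      rw [pow_succ, pow_two, pow_succ, pow_two]
      group
    rw [h8, h9, hx3, mul_one, inv_mul_cancel]
  rw [← h5, hw]
  show evBF hB (ev _ e) = 1
  rw [evBF_ev, h7]
  obtain ⟨g, hg⟩ := exists_word (fun _ : Fin 1 => (1 : Q ⧸ M)) e
  rw [hg]
  have h10 : FreeGroup.lift (fun _ : Fin 1 => (1 : Q ⧸ M)) = 1 := by
    ext i
    simp
  rw [h10]
  rfl

end MPb66790.HK24
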