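import Pool.Agent.Lib.MP_b66790_nt.Hecke.Orb24
import Pool.Agent.Lib.MP_b66790_nt.Hecke.RM51
import Pool.Agent.Lib.MP_b66790_nt.Hecke.Ind67

/-!
# Rows RM3 and CB: the matrices of partners in level one, and `ζ` is a partner of `ζ`
-/

namespace MPb66790.HK24.RM3_51

open MPb66790 MPb66790.HK24 MPb66790.CY24 MPb66790.Th57 MPb66790.CN57 RM51 Function

/-! ## RM3 -/

/-- The action of the image of `iotD3`. -/
def Ac3 : F2 →* MulAut F2 := FreeGroup.lift ![P2 * P1, (P1 * P2 * P1)⁻¹]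

theorem iotD3_0 : iotD3 (FreeGroup.of 0) = σ 1 * σ 0 := by simp [iotD3]
theorem iotD3_1 : iotD3 (FreeGroup.of 1) = (σ 0 * σ 1 * σ 0)⁻¹ := by simp [iotD3]
theorem Ac3_0 : Ac3 (FreeGroup.of 0) = P2 * P1 := by simp [Ac3]
theorem Ac3_1 : Ac3 (FreeGroup.of 1) = (P1 * P2 * P1)⁻¹ := by simp [Ac3]

theorem mem_Ac3 (h : F2) : (iotD3 h, Ac3 h) ∈ Pr := by
  have h1 : (σ 0, P1) ∈ Pr := CJ_P1
  have h2 : (σ 1, P2) ∈ Pr := CJ_P2
  refine word_ind (p := fun h => (iotD3 h, Ac3 h) ∈ Pr) ?_ ?_ ?_ ?_ ?_ h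
  · rw [map_one, map_one]
    exact Pr.one_mem
  · rw [iotD3_0, Ac3_0]
    exact Pr.mul_mem h2 h1
  · rw [iotD3_1, Ac3_1]
    exact Pr.inv_mem (Pr.mul_mem (Pr.mul_mem h1 h2) h1)
  · intro x hx
    rw [map_inv, map_inv]
    exact Pr.inv_mem hx
  · intro x y hx hy
    rw [map_mul, map_mul]
    exact Pr.mul_mem hx hy

/-- The pairs of an automorphism and a matrix in `SL₂(ℤ)` by which it acts on the exponents. -/
def Vm : Subgroup (MulAut F2 × Matrix.SpecialLinearGroup (Fin 2) ℤ) where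
  carrier := {p | ∀ w, vec (p.1 w) = (p.2).1.mulVec (vec w)}
  one_mem' := by
    intro w
    simp
  mul_mem' := by
    intro p q hp hq w
    show vec (p.1 (q.1 w)) = (p.2 * q.2).1.mulVec (vec w)
    rw [hp, hq, Matrix.mulVec_mulVec, Matrix.SpecialLinearGroup.coe_mul]
  inv_mem' := by
    intro p hp w
    show vec (p.1⁻¹ w) = (p.2⁻¹).1.mulVec (vec w)
    have h := hp (p.1⁻¹ w)
    rw [← MulAut.mul_apply, mul_inv_cancel, MulAut.one_apply] at h
    rw [h, Matrix.mulVec_mulVec, ← Matrix.SpecialLinearGroup.coe_mul, inv_mul_cancel]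
    simp

/-- The matrix of `σ₁`. -/
def M1 : Matrix.SpecialLinearGroup (Fin 2) ℤ := ⟨!![1, -1; 0, 1], by simp [Matrix.det_fin_two]⟩

/-- The matrix of `σ₂`. -/
def M2 : Matrix.SpecialLinearGroup (Fin 2) ℤ := ⟨!![1, 0; 1, 1], by simp [Matrix.det_fin_two]⟩

theorem matP3_0 : matP3 (FreeGroup.of 0) = M2 * M1 := by
  unfold matP3
  rw [FreeGroup.lift_apply_of]
  apply Subtype.ext
  rw [Matrix.SpecialLinearGroup.coe_mul]
  show (!![1, -1; 1, 0] : Matrix (Fin 2) (Fin 2) ℤ) = !![1, 0; 1, 1] * !![1, -1; 0, 1]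
  decide

theorem matP3_1 : matP3 (FreeGroup.of 1) = (M1 * M2 * M1)⁻¹ := by
  rw [eq_inv_iff_mul_eq_one]
  unfold matP3
  rw [FreeGroup.lift_apply_of]
  apply Subtype.ext
  simp only [Matrix.SpecialLinearGroup.coe_mul]
  show (!![0, 1; -1, 0] * (!![1, -1; 0, 1] * !![1, 0; 1, 1] * !![1, -1; 0, 1]) :
    Matrix (Fin 2) (Fin 2) ℤ) = 1
  decide

theorem mem_Vm3 (h : F2) : (Ac3 h, matP3 h) ∈ Vm := by
  have h1 : (P1, M1) ∈ Vm := vec_P1
  have h2 : (P2, M2) ∈ Vm := vec_P2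
  refine word_ind (p := fun h => (Ac3 h, matP3 h) ∈ Vm) ?_ ?_ ?_ ?_ ?_ h
  · rw [map_one, map_one]
    exact Vm.one_mem
  · rw [Ac3_0, matP3_0]
    exact Vm.mul_mem h2 h1
  · rw [Ac3_1, matP3_1]
    exact Vm.inv_mem (Vm.mul_mem (Vm.mul_mem h1 h2) h1)
  · intro x hx
    rw [map_inv, map_inv]
    exact Vm.inv_mem hx
  · intro x y hx hy
    rw [map_mul, map_mul]
    exact Vm.mul_mem hx hy

/-- The matrices of partners, in general. -/
theorem rm_gen {n : ℕ} {g g' : Braid4} {α α' : MulAut F2} (hα : (g, α) ∈ Pr)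
    (hα' : (g', α') ∈ Pr) {M M' : Matrix (Fin 2) (Fin 2) ℤ}
    (hM : ∀ w, vec (α w) = M.mulVec (vec w)) (hM' : ∀ w, vec (α' w) = M'.mulVec (vec w))
    (hR : Rel n (of g) (of g')) : dg n * M = M' * dg n := by
  have key : ∀ v : FreeGroup (Fin (n + 2)), ∃ v', α (covD n v) = covD n v' ∧
      vec (α' (isoD n v)) = vec (isoD n v') := by
    intro v
    obtain ⟨w', h1, h2⟩ := hR (of v)
    rw [cov_of, jH_of, ← map_inv, ← map_mul, ← map_mul] at h1
    rw [iso_of, jH_of, ← map_inv, ← map_mul, ← map_mul] at h2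
    have h3 : g * jD (covD n v) * g⁻¹ = jD (α (covD n v)) := hα (covD n v)
    rw [h3, ← jH_of] at h1
    have h4 := T51.jH_inj h1
    have h5 : CY24.chi n (of (α (covD n v))) = 1 := by rw [h4, chi_cov]
    rw [chi_of] at h5
    have h6 : ch (n + 1) (α (covD n v)) = 0 := by
      rw [ch_vec]
      exact h5
    obtain ⟨v', hv'⟩ := cov_surj h6
    refine ⟨v', hv'.symm, ?_⟩
    have h7 : w' = of v' := by
      apply cov_inj (n := n)
      rw [← h4, cov_of, hv']
    subst h7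
    have h8 : g' * jD (isoD n v) * g'⁻¹ = jD (α' (isoD n v)) := hα' (isoD n v)
    rw [h8, ← jH_of, iso_of] at h2
    exact of_vec (T51.jH_inj h2)
  have hv1 : vec (covD n (dy n 0)) = ![1, 0] := by
    unfold covD
    rw [lift_dy]
    rw [vec_mul, vec_mul, vec_inv, vec_a]
    abel
  have hv2 : vec (covD n (FreeGroup.of 0)) = ![0, (n : ℤ) + 1] := by
    unfold covD
    rw [lift_d0]
    have h : ∀ m : ℕ, vec (b ^ m) = ![0, (m : ℤ)] := by
      intro m
      induction m with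
      | zero => rw [pow_zero, vec_one]; ext i; fin_cases i <;> simp
      | succ m ih =>
        rw [pow_succ, vec_mul, ih, vec_b]
        ext i
        fin_cases i <;> simp
    rw [h]
    push_cast
    rfl
  have hall : ∀ v, (dg n * M).mulVec (vec (covD n v)) =
      (M' * dg n).mulVec (vec (covD n v)) := by
    intro v
    obtain ⟨v', h1, h2⟩ := key v
    have h4 := vec_cov_iso n v'
    have h5 := vec_cov_iso n v
    rw [hM'] at h2
    rw [← Matrix.mulVec_mulVec, ← hM, h1, h4, ← h2, ← Matrix.mulVec_mulVec,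
      h5, Matrix.mulVec_smul]
  refine RM51.mat_eq (n := n) ?_ ?_
  · rw [← hv1]; exact hall _
  · rw [← hv2]; exact hall _

/-- RM3. -/
theorem stRM3_51 : StRM3 := by
  intro n h k j hR
  have hZ : Zc ^ j ∈ Sg := Sg.zpow_mem mem_Sg_z j
  have h2 : ((zD, Zc) : Braid4 × MulAut F2) ^ j ∈ Pr := Pr.zpow_mem mem_Pr_z j
  have hP : (iotD3 k * zD ^ j, Ac3 k * Zc ^ j) ∈ Pr := Pr.mul_mem (mem_Ac3 k) h2
  have main : ∀ (e : ℤ), (∀ w, vec ((Zc ^ j) w) = e • vec w) →
      dg n * (matP3 h).1 = (e • (matP3 k).1) * dg n := by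
    intro e he
    refine rm_gen (mem_Ac3 h) hP (mem_Vm3 h) (fun w => ?_) hR
    rw [MulAut.mul_apply]
    have h3 : vec (Ac3 k ((Zc ^ j) w)) = (matP3 k).1.mulVec (vec ((Zc ^ j) w)) := mem_Vm3 k _
    rw [h3, he, Matrix.mulVec_smul, Matrix.smul_mulVec]
  rcases hZ with hZ | hZ
  · left
    have := main 1 (fun w => by rw [hZ, one_smul])
    rw [one_smul] at this
    exact this
  · right
    have := main (-1) (fun w => by rw [hZ, neg_smul, one_smul])
    rw [neg_smul, one_smul, Matrix.neg_mul] at this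
    exact this

/-! ## CB -/

theorem Rel.mul51 {n : ℕ} {g g' h h' : Hat Braid4} (hg : Rel n g g') (hh : Rel n h h') :
    Rel n (g * h) (g' * h') := by
  intro w
  obtain ⟨w1, h1, h2⟩ := hh w
  obtain ⟨w2, h3, h4⟩ := hg w1
  refine ⟨w2, ?_, ?_⟩
  · rw [← h3, ← h1]
    group
  · rw [← h4, ← h2]
    group

variable {n : ℕ}

/-- The preimage of `X Y X⁻¹`. -/
theorem pre_one : ∃ w : FHat (n + 2), covMap n w = X * Y * X⁻¹ ∧ isoMap n w = X * Y * X⁻¹ := by
  by_cases h : (1 : ZMod (n + 1)) = 0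
  · have hn : n = 0 := by
      by_contra hn
      have : Fact (1 < n + 1) := ⟨by omega⟩
      exact one_ne_zero h
    subst hn
    refine ⟨g0 0 * gy 0 * (g0 0)⁻¹, ?_, ?_⟩
    · rw [map_mul, map_mul, map_inv, cov_g0, cov_gy, ZMod.val_zero]
      group
    · rw [map_mul, map_mul, map_inv, iso_g0, iso_gy, if_pos rfl]
  · refine ⟨gy 1, ?_, ?_⟩
    · have hv : (1 : ZMod (n + 1)).val = 1 := by
        have h2 := val_succ (n := n) (j := 0) (by rw [zero_add]; exact h)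
        rw [zero_add, ZMod.val_zero] at h2
        exact h2
      rw [cov_gy, hv, pow_one]
    · rw [iso_gy, if_neg h]

/-- The preimage of `X ^ (1 - j) Y X ^ (j - 1)` for `j ≠ 0`. -/
theorem pre_neg (j : ZMod (n + 1)) (hj : j ≠ 0) : ∃ w : FHat (n + 2),
    covMap n w = X * (X ^ j.val)⁻¹ * Y * X ^ j.val * X⁻¹ ∧ isoMap n w = Y := by
  by_cases h1 : j = 1
  · refine ⟨gy 0, ?_, ?_⟩
    · have hv : (1 : ZMod (n + 1)).val = 1 := by
        have h2 := val_succ (n := n) (j := 0) (by rw [zero_add, ← h1]; exact hj)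
        rw [zero_add, ZMod.val_zero] at h2
        exact h2
      rw [cov_gy, ZMod.val_zero, h1, hv]
      group
    · rw [iso_gy, if_pos rfl]
  · have h2 : (1 - j : ZMod (n + 1)) ≠ 0 := fun h => h1 (sub_eq_zero.1 h).symm
    have hv : (1 - j : ZMod (n + 1)).val + j.val = n + 1 + 1 := by
      have h3 : (-j : ZMod (n + 1)).val = n + 1 - j.val := by
        rw [ZMod.neg_val, if_neg hj]
      have h4 : (-j + 1 : ZMod (n + 1)).val = (-j : ZMod (n + 1)).val + 1 :=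
        val_succ (by rw [neg_add_eq_sub]; exact h2)
      have h5 : j.val < n + 1 := ZMod.val_lt j
      rw [sub_eq_neg_add, h4, h3]
      omega
    refine ⟨(g0 n)⁻¹ * gy (1 - j) * g0 n, ?_, ?_⟩
    · have e : X ^ (1 - j : ZMod (n + 1)).val = X ^ (n + 1) * X * (X ^ j.val)⁻¹ := by
        rw [eq_mul_inv_iff_mul_eq, ← pow_add, hv, pow_succ]
      rw [map_mul, map_mul, map_inv, cov_g0, cov_gy, e]
      group
    · rw [map_mul, map_mul, map_inv, iso_g0, iso_gy, if_neg h2]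
      group

/-- The conjugation by `ζ` on the kernel of `rho`. -/
noncomputable def th51 : FHat 2 →ₜ* FHat 2 := ev ![Y * X⁻¹ * Y⁻¹, cc * Y⁻¹]

theorem th_X : th51 X = Y * X⁻¹ * Y⁻¹ := ev_gen _ _

theorem th_Y : th51 Y = cc * Y⁻¹ := ev_gen _ _

theorem conj_cB51 (w : FHat 2) : cB * jH w * cB⁻¹ = jH (th51 w) := by
  refine T51.conj_jH ?_ ?_ w
  · rw [th_X]
    exact T51.cB_X
  · rw [th_Y]
    exact T51.cB_Y

/-- The words whose image has a partner. -/
def Sb (n : ℕ) : Subgroup (FHat (n + 2)) where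
  carrier := {w | ∃ w', th51 (covMap n w) = covMap n w' ∧ th51 (isoMap n w) = isoMap n w'}
  one_mem' := ⟨1, by simp, by simp⟩
  mul_mem' := by
    rintro w v ⟨w', h1, h2⟩ ⟨v', h3, h4⟩
    exact ⟨w' * v', by simp [h1, h3], by simp [h2, h4]⟩
  inv_mem' := by
    rintro w ⟨w', h1, h2⟩
    exact ⟨w'⁻¹, by simp [h1], by simp [h2]⟩

theorem isClosed_Sb (n : ℕ) : IsClosed (Sb n : Set (FHat (n + 2))) := by
  have c1 : Continuous (covMap n) := (covMap n).continuous_toFun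
  have c2 : Continuous (isoMap n) := (isoMap n).continuous_toFun
  have c3 : Continuous th51 := th51.continuous_toFun
  refine isClosed_proj (C := {q : FHat (n + 2) × FHat (n + 2) |
    th51 (covMap n q.1) = covMap n q.2 ∧ th51 (isoMap n q.1) = isoMap n q.2}) ?_
  exact (isClosed_eq (c3.comp (c1.comp continuous_fst)) (c1.comp continuous_snd)).inter
    (isClosed_eq (c3.comp (c2.comp continuous_fst)) (c2.comp continuous_snd))

theorem mem_Sb (w : FHat (n + 2)) : w ∈ Sb n := by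
  rw [← ev_gen_self w]
  refine ev_mem (isClosed_Sb n) (fun i => ?_) w
  have hy0 : covMap n (gy 0) = Y := by
    rw [cov_gy, ZMod.val_zero]
    group
  have hi0 : isoMap n (gy 0) = Y := by rw [iso_gy, if_pos rfl]
  rcases gen_eq i with e | ⟨j, e⟩
  · rw [e]
    refine ⟨gy 0 * (g0 n)⁻¹ * (gy 0)⁻¹, ?_, ?_⟩
    · rw [cov_g0, map_pow, th_X, map_mul, map_mul, map_inv, map_inv, hy0, cov_g0, conj_pow, inv_pow]
    · rw [iso_g0, th_X, map_mul, map_mul, map_inv, map_inv, hi0, iso_g0]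
  · rw [e]
    by_cases hj : j = 0
    · obtain ⟨w1, h1, h2⟩ := pre_one (n := n)
      refine ⟨gy 0 * w1⁻¹ * (gy 0)⁻¹, ?_, ?_⟩
      · rw [hj, hy0, th_Y, map_mul, map_mul, map_inv, map_inv, hy0, h1]
        unfold cc
        group
      · rw [hj, hi0, th_Y, map_mul, map_mul, map_inv, map_inv, hi0, h2]
        unfold cc
        group
    · obtain ⟨w1, h1, h2⟩ := pre_neg j hj
      refine ⟨gy 0 * w1⁻¹ * (gy 0)⁻¹, ?_, ?_⟩
      · rw [cov_gy, map_mul, map_mul, map_inv, map_pow, th_X, th_Y, map_mul, map_mul, map_inv,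
          map_inv, hy0, h1, conj_pow, inv_pow]
        unfold cc
        group
      · rw [iso_gy, if_neg hj, map_mul, map_mul, map_inv, th_X, th_Y, map_mul, map_mul, map_inv,
          map_inv, hi0, h2]
        unfold cc
        group

theorem rel_cB (n : ℕ) : Rel n cB cB := by
  intro w
  obtain ⟨w', h1, h2⟩ := mem_Sb w
  exact ⟨w', by rw [conj_cB51, h1], by rw [conj_cB51, h2]⟩

theorem pre_cc : ∃ w : FHat (n + 2), covMap n w = cc ∧ isoMap n w = cc := by
  obtain ⟨w1, h1, h2⟩ := pre_one (n := n)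
  refine ⟨gy 0 * w1⁻¹, ?_, ?_⟩
  · rw [map_mul, map_inv, h1, cov_gy, ZMod.val_zero]
    unfold cc
    group
  · rw [map_mul, map_inv, h2, iso_gy, if_pos rfl]
    unfold cc
    group

theorem conj_cB_inv (w : FHat 2) : cB⁻¹ * jH w * cB⁻¹⁻¹ = cB * jH (cc⁻¹ * w * cc) * cB⁻¹ := by
  have h := T51.cB_sq
  have hD : ∀ g, Commute (Dl ^ 2) g := T51.Dl2_comm
  have h1 : cB ^ 2 * jH (cc⁻¹ * w * cc) * (cB ^ 2)⁻¹ = jH w := by
    rw [h, map_mul, map_mul, map_inv]
    have e : jH cc * Dl ^ 2 * ((jH cc)⁻¹ * jH w * jH cc) * (jH cc * Dl ^ 2)⁻¹ =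
        jH cc * (Dl ^ 2 * ((jH cc)⁻¹ * jH w * jH cc) * (Dl ^ 2)⁻¹) * (jH cc)⁻¹ := by group
    rw [e, mul_inv_eq_iff_eq_mul.2 (hD _).eq]
    group
  rw [← h1]
  group

theorem rel_cB_inv (n : ℕ) : Rel n cB⁻¹ cB⁻¹ := by
  intro w
  obtain ⟨u, h1, h2⟩ := pre_cc (n := n)
  obtain ⟨w', h3, h4⟩ := rel_cB n (u⁻¹ * w * u)
  have e1 : covMap n (u⁻¹ * w * u) = cc⁻¹ * covMap n w * cc := by
    rw [map_mul, map_mul, map_inv, h1]
  have e2 : isoMap n (u⁻¹ * w * u) = cc⁻¹ * isoMap n w * cc := by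
    rw [map_mul, map_mul, map_inv, h2]
  exact ⟨w', by rw [conj_cB_inv, ← h3, e1], by rw [conj_cB_inv, ← h4, e2]⟩

/-- CB. -/
theorem stCB_51 : StCB := by
  intro n e
  have cp : Continuous (fun e : ZHat => pow cB e) := (ev (fun _ : Fin 1 => cB)).continuous_toFun
  refine hat_induction (S := {e : ZHat | Rel n (pow cB e) (pow cB e)})
    ((isClosed_Rel n).preimage (cp.prodMk cp)) (fun g => ?_) e
  show Rel n (pow cB (of g)) (pow cB (of g))
  have hgen : ∀ i : Fin 1, pow cB (of (FreeGroup.of i) : ZHat) = cB := by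
    intro i
    have e : i = 0 := Subsingleton.elim _ _
    rw [e]
    exact pow_zgen cB
  refine FreeGroup.induction_on g ?_ (fun i => ?_) (fun i _ => ?_) (fun x y hx hy => ?_)
  · rw [map_one]
    have e1 : pow cB (1 : ZHat) = 1 := map_one (ev (fun _ : Fin 1 => cB))
    rw [e1]
    intro w
    exact ⟨w, by group, by group⟩
  · show Rel n (pow cB (of (FreeGroup.of i))) (pow cB (of (FreeGroup.of i)))
    rw [hgen]
    exact rel_cB n
  · show Rel n (pow cB (of (FreeGroup.of i)⁻¹)) (pow cB (of (FreeGroup.of i)⁻¹))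
    have e1 : pow cB (of (FreeGroup.of i)⁻¹ : ZHat) = cB⁻¹ := by
      rw [map_inv]
      have e2 : pow cB ((of (FreeGroup.of i))⁻¹ : ZHat) = (pow cB (of (FreeGroup.of i)))⁻¹ :=
        map_inv (ev (fun _ : Fin 1 => cB)) _
      rw [e2, hgen]
    rw [e1]
    exact rel_cB_inv n
  · rw [map_mul, pow_mul']
    exact Rel.mul51 hx hy

end MPb66790.HK24.RM3_51
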