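import Pool.Agent.Lib.MP_b66790_nt.Hecke.Dia3_24
import Pool.Agent.Lib.MP_b66790_nt.Hecke.Gen3_31
import Pool.Agent.Lib.MP_b66790_nt.Hecke.Cl3_32
import Pool.Agent.Lib.MP_b66790_nt.Hecke.Ker3_31
import Pool.Agent.Lib.MP_b66790_nt.Hecke.RM3_51
import Pool.Agent.Lib.MP_b66790_nt.Hecke.CNB57
import Pool.Agent.Lib.MP_b66790_nt.Hecke.Cmp67
import Pool.Agent.Lib.MP_b66790_nt.Hecke.T51

/-!
# Dessins of type `(3, 2, ∞)`: the theorem
-/

namespace MPb66790.HK24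

open MPb66790 MPb66790.CNB57 MPb66790.HK24.RM3_51 MPb66790.HK24.Cl3_32 MPb66790.HK24.Cmp67

theorem diag3_24 : StDiag3 :=
  diag3_of stT_51 stAlpha_67 stSim3_57 (stCl3_32 stCNB_57 stRM3_51) stKer3_31 stGT_31
    stCmp3_67 stCB_51

theorem all3_24 : StAll3 := stGen3_31 diag3_24

end MPb66790.HK24
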