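import Pool.Agent.Lib.MP_b66790_nt.Hecke.Mix24
import Pool.Agent.Lib.MP_b66790_nt.Hecke.Gen3_31

/-!
# Row GENM: from the diagonal matrices to all matrices, mixed case
-/

namespace MPb66790.HK24

open MPb66790 MPb66790.CY24 Function

theorem simM_iff_PM31 (g : Matrix (Fin 2) (Fin 2) ℤ) (h k : F2) :
    SimM g h k ↔ PM (g * (mat h).1) ((mat3 k).1 * g) := Iff.rfl

/-- Row GENM. -/
theorem stGenM_31 : HK24.StGenM := by
  intro hD lam f h g hg H K hI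
  obtain ⟨A, B, d, N, hd, hN, he⟩ := HK31.smith31 g hg
  obtain ⟨n, rfl⟩ : ∃ n, N = n + 1 := ⟨N - 1, by omega⟩
  have hd' : (d : ℤ) ≠ 0 := by exact_mod_cast hd.ne'
  have hgd : g = (d : ℤ) • (A.1 * dg n * B.1) := by
    rw [he]
    have e : (!![(d : ℤ) * ((n + 1 : ℕ) : ℤ), 0; 0, (d : ℤ)] : Matrix (Fin 2) (Fin 2) ℤ) =
        (d : ℤ) • dg n := by
      ext i j
      fin_cases i <;> fin_cases j <;> simp [dg]
    rw [e, Matrix.mul_smul, Matrix.smul_mul]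
  obtain ⟨θ, θ', e1, e2, hm, hc⟩ := adm_all B
  obtain ⟨q, hq⟩ := mat3_surj31 A⁻¹
  obtain ⟨p, hp⟩ := mat3_surj31 A
  obtain ⟨T2, H₀, K₀, f1, f2, hk, kh, s1, s2⟩ := hI
  -- from `g` to the diagonal matrix
  have down : ∀ a b : F2, SimM g a b → SimM (dg n) (θ a) (cw31 q b) := by
    intro a b hab
    rw [simM_iff_PM31] at hab ⊢
    rw [hgd, Matrix.smul_mul, Matrix.mul_smul] at hab
    have h1 := PM.smul hd' hab
    have h2 := (h1.left (A⁻¹).1).right (B⁻¹).1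
    have h3 : PM (dg n * (mat (θ a)).1) (dg n * (B * mat a * B⁻¹).1) := (hm a).left (dg n)
    rw [mat3_cw31 hq, inv_inv]
    have e5 : dg n * (B * mat a * B⁻¹).1 =
        (A⁻¹).1 * (A.1 * dg n * B.1 * (mat a).1) * (B⁻¹).1 := by
      show dg n * (B.1 * (mat a).1 * (B⁻¹).1) = _
      calc dg n * (B.1 * (mat a).1 * (B⁻¹).1) = 1 * dg n * B.1 * (mat a).1 * (B⁻¹).1 := by
            simp only [one_mul, mul_assoc]
        _ = _ := by rw [← inv_mul_val A]; simp only [mul_assoc]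
    have e6 : (A⁻¹).1 * (mat3 b).1 * A.1 * dg n =
        (A⁻¹).1 * ((mat3 b).1 * (A.1 * dg n * B.1)) * (B⁻¹).1 := by
      calc (A⁻¹).1 * (mat3 b).1 * A.1 * dg n = (A⁻¹).1 * (mat3 b).1 * A.1 * dg n * 1 := by
            rw [mul_one]
        _ = _ := by rw [← mul_inv_val B]; simp only [mul_assoc]
    rw [e5] at h3
    rw [e6]
    exact h3.trans h2
  have I1 : IsogM (dg n) (cl (H₀.map θ)) K := by
    refine ⟨T2, H₀.map θ, K₀.map (cw31 q), finIndex_map67 e1 e2 f1,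
      finIndex_map67 (cw_inv31 q) (cw_inv31' q) f2, ?_, ?_, sd_refl67 _,
      sd_trans67 (cl_cw31 q K₀) s2⟩
    · rintro _ ⟨a, ha, rfl⟩
      obtain ⟨b, hb, hab⟩ := hk a ha
      exact ⟨cw31 q b, ⟨b, hb, rfl⟩, down a b hab⟩
    · rintro _ ⟨b, hb, rfl⟩
      obtain ⟨a, ha, hab⟩ := kh b hb
      exact ⟨θ a, ⟨a, ha, rfl⟩, down a b hab⟩
  obtain ⟨T4, H₁, K₁, f3, f4, hk1, kh1, s3, s4⟩ := hD lam f h n _ _ I1
  have up : ∀ a b : F2, SimM (dg n) (θ a) b → SimM g a (cw31 p b) := by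
    intro a b hab
    rw [simM_iff_PM31] at hab ⊢
    have h1 : PM (dg n * (B * mat a * B⁻¹).1) ((mat3 b).1 * dg n) :=
      ((hm a).left (dg n)).symm.trans hab
    have h2 := (h1.left A.1).right B.1
    have e5 : A.1 * (dg n * (B * mat a * B⁻¹).1) * B.1 = (A.1 * dg n * B.1) * (mat a).1 := by
      show A.1 * (dg n * (B.1 * (mat a).1 * (B⁻¹).1)) * B.1 = _
      calc A.1 * (dg n * (B.1 * (mat a).1 * (B⁻¹).1)) * B.1 =
          A.1 * dg n * B.1 * (mat a).1 * ((B⁻¹).1 * B.1) := by simp only [mul_assoc]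
        _ = _ := by rw [inv_mul_val, mul_one]
    rw [e5] at h2
    rw [mat3_cw31 hp, hgd, Matrix.smul_mul, Matrix.mul_smul]
    have e6 : A.1 * (mat3 b).1 * (A⁻¹).1 * (A.1 * dg n * B.1) =
        A.1 * ((mat3 b).1 * dg n) * B.1 := by
      calc A.1 * (mat3 b).1 * (A⁻¹).1 * (A.1 * dg n * B.1) =
          A.1 * (mat3 b).1 * ((A⁻¹).1 * A.1) * dg n * B.1 := by simp only [mul_assoc]
        _ = _ := by rw [inv_mul_val, mul_one]; simp only [mul_assoc]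
    rw [e6]
    rcases h2 with h2 | h2
    · exact Or.inl (by rw [h2])
    · exact Or.inr (by rw [h2, smul_neg])
  refine ⟨T4, H₁.map θ', K₁.map (cw31 p), finIndex_map67 e2 e1 f3,
    finIndex_map67 (cw_inv31 p) (cw_inv31' p) f4, ?_, ?_, ?_, sd_trans67 (cl_cw31 p K₁) s4⟩
  · rintro _ ⟨a, ha, rfl⟩
    obtain ⟨b, hb, hab⟩ := hk1 a ha
    refine ⟨cw31 p b, ⟨b, hb, rfl⟩, up _ _ ?_⟩
    rw [e1]
    exact hab
  · rintro _ ⟨b, hb, rfl⟩
    obtain ⟨a, ha, hab⟩ := kh1 b hb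
    refine ⟨θ' a, ⟨a, ha, rfl⟩, up _ _ ?_⟩
    rw [e1]
    exact hab
  · rw [cl_map67] at s3 ⊢
    have t1 := sd_trans67 s3 (sd_trans67 (hc lam f h (cl H₀))
      (sd_map67 (hx θ).toMonoidHom (sd_map67 (phi lam f).toMonoidHom s1)))
    have t2 := sd_map67 (hx θ').toMonoidHom t1
    rw [map_hx_hx e2] at t2
    exact t2

end MPb66790.HK24
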