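import Pool.Agent.Lib.MP_b66790_nt.Hecke.Mix24

/-!
# Row RMM: the matrices of partners, an arbitrary dessin and a dessin of type `(3, 2, ∞)`
-/

namespace MPb66790.HK24.RM3_51

open MPb66790 MPb66790.HK24 MPb66790.CY24 MPb66790.Th57 MPb66790.CN57 RM51 Function

/-- RMM. -/
theorem stRMM_51 : StRMM := by
  intro n h k j hR
  have hZ : Zc ^ j ∈ Sg := Sg.zpow_mem mem_Sg_z j
  have h2 : ((zD, Zc) : Braid4 × MulAut F2) ^ j ∈ Pr := Pr.zpow_mem mem_Pr_z j
  have hP : (iotD3 k * zD ^ j, Ac3 k * Zc ^ j) ∈ Pr := Pr.mul_mem (mem_Ac3 k) h2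
  have hA : (iotaD h, Ac h) ∈ Pr := CJ_Ac h
  have main : ∀ (e : ℤ), (∀ w, vec ((Zc ^ j) w) = e • vec w) →
      dg n * (matP h).1 = (e • (matP3 k).1) * dg n := by
    intro e he
    refine rm_gen hA hP (vec_Ac h) (fun w => ?_) hR
    rw [MulAut.mul_apply]
    have h3 : vec (Ac3 k ((Zc ^ j) w)) = (matP3 k).1.mulVec (vec ((Zc ^ j) w)) := mem_Vm3 k _
    rw [h3, he, Matrix.mulVec_smul, Matrix.smul_mulVec]
  rcases hZ with hZ | hZ
  · left
    have := main 1 (fun w => by rw [hZ, one_smul])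
    rw [one_smul] at this
    exact this
  · right
    have := main (-1) (fun w => by rw [hZ, neg_smul, one_smul])
    rw [neg_smul, one_smul, Matrix.neg_mul] at this
    exact this

end MPb66790.HK24.RM3_51
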