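import Pool.Agent.Lib.MP_b66790_nt.Hecke.Mix24
import Pool.Agent.Lib.MP_b66790_nt.Hecke.CNB57

/-!
# Row SIMM: matrices related by `dg n` come from partners, an arbitrary dessin and a dessin of
type `(3, 2, ∞)`
-/

namespace MPb66790.HK24.SimM67

open MPb66790 MPb66790.HK24 MPb66790.CY24 MPb66790.Th57 MPb66790.CN57 MPb66790.M31
open MPb66790.HK24.RM51 MPb66790.HK24.RM3_51 MPb66790.CNB57

theorem iotaD_mem67 (k : F2) : iotaD k ∈ B3 := by
  have h0 : σ 0 ∈ B3 := Subgroup.subset_closure (Or.inl rfl)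
  have h1 : σ 1 ∈ B3 := Subgroup.subset_closure (Or.inr rfl)
  refine word_ind (p := fun k => iotaD k ∈ B3) ?_ ?_ ?_ ?_ ?_ k
  · rw [map_one]
    exact B3.one_mem
  · have e : iotaD (FreeGroup.of 0) = σ 0 ^ 2 := by simp [iotaD]
    rw [e]
    exact B3.pow_mem h0 2
  · have e : iotaD (FreeGroup.of 1) = σ 1 ^ 2 := by simp [iotaD]
    rw [e]
    exact B3.pow_mem h1 2
  · intro x hx
    rw [map_inv]
    exact B3.inv_mem hx
  · intro x y hx hy
    rw [map_mul]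
    exact B3.mul_mem hx hy

/-- Row SIMM. -/
theorem stSimM_67 : StSimM := by
  intro n h k hS
  obtain ⟨s, hs, hM⟩ : ∃ s : ℤ, (s = 1 ∨ s = -1) ∧
      dg n * (matP h).1 = s • ((matP3 k).1 * dg n) := by
    rcases hS with e | e
    · exact ⟨1, Or.inl rfl, by rw [e, one_smul]⟩
    · exact ⟨-1, Or.inr rfl, by rw [e, neg_smul, one_smul]⟩
  have hvh : ∀ w, vec (Ac h w) = (matP h).1.mulVec (vec w) := vec_Ac h
  have hdiv : ((n : ℤ) + 1) ∣ (matP h).1 1 0 := by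
    have h10 := congrFun (congrFun hM 1) 0
    simp [dg, Matrix.mul_apply, Fin.sum_univ_two] at h10
    rw [h10]
    exact ⟨s * (matP3 k).1 1 0, by ring⟩
  have hα : ∀ w, CJ (iotaD h) w (Ac h w) := CJ_Ac h
  obtain ⟨β, hβ, hR⟩ := stCNB_57 n (iotaD h) (iotaD_mem67 h) (fun w' hw' => by
    rw [cj_unique (hα (FreeGroup.of 1)) hw', hvh]
    have e1 : vec (FreeGroup.of 1) = ![1, 0] := vec_a
    rw [e1]
    simpa [Matrix.mulVec, dotProduct, Fin.sum_univ_two] using hdiv)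
  obtain ⟨v, rfl⟩ := B3_range hβ
  have hm := rm_gen (n := n) (g := iotaD h) (g' := wB v) (α := Ac h) (α' := Ax v) hα (CJ_Ax v)
    hvh (vec_Ax v) hR
  have h2 : (mQ v).1 * dg n = (s • (matP3 k).1) * dg n := by
    rw [← hm, hM, Matrix.smul_mul]
  have hQ : (mQ v).1 = s • (matP3 k).1 := dg_cancel h2
  have hg : wB v * (iotD3 k)⁻¹ ∈ B3 := B3.mul_mem hβ (B3.inv_mem (iotD3_mem k))
  have key : ∀ w w', CJ (wB v * (iotD3 k)⁻¹) w w' → vec w' = s • vec w := by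
    intro w w' hw
    have h3 : CJ (wB v * (iotD3 k)⁻¹) w ((Ax v * (Ac3 k)⁻¹) w) :=
      (Pr.mul_mem (x := (wB v, Ax v)) (CJ_Ax v) (Pr.inv_mem (mem_Ac3 k))) w
    rw [cj_unique h3 hw]
    show vec (Ax v ((Ac3 k)⁻¹ w)) = s • vec w
    rw [vec_Ax, hQ]
    have h7 : vec (Ac3 k ((Ac3 k)⁻¹ w)) = (matP3 k).1.mulVec (vec ((Ac3 k)⁻¹ w)) :=
      mem_Vm3 k ((Ac3 k)⁻¹ w)
    rw [MulAut.apply_inv_self] at h7
    rw [Matrix.smul_mulVec, ← h7]
  obtain ⟨j, hj⟩ := stM3_31 _ hg (by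
    rcases hs with rfl | rfl
    · exact Or.inl fun w w' hw => by rw [key w w' hw, one_smul]
    · exact Or.inr fun w w' hw => by rw [key w w' hw, neg_smul, one_smul])
  refine ⟨j, ?_⟩
  have e : wB v = iotD3 k * zD ^ j := by
    rw [← ((comm_zD_B3 (iotD3_mem k)).zpow_left j).eq, ← hj, inv_mul_cancel_right]
  rw [← e]
  exact hR

end MPb66790.HK24.SimM67
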