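import Pool.Agent.Lib.MP_b66790_nt.Hecke.DiaM24
import Pool.Agent.Lib.MP_b66790_nt.Hecke.RMM_51
import Pool.Agent.Lib.MP_b66790_nt.Hecke.ClM_32
import Pool.Agent.Lib.MP_b66790_nt.Hecke.GenM_31
import Pool.Agent.Lib.MP_b66790_nt.Hecke.SimM67

/-!
# Arbitrary dessins and dessins of type `(3, 2, ∞)`: the theorem
-/

namespace MPb66790.HK24

open MPb66790 MPb66790.CN57 MPb66790.M31 MPb66790.HK24.RM3_51 MPb66790.HK24.ClM_32
  MPb66790.HK24.Cmp67

theorem allM_24 : StAllM :=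
  stGenM_31 (diagM_of stT_51 stAlpha_67 stM4_31 SimM67.stSimM_67 (stClM_32 stCN_57 stRMM_51)
    stKer3_31 stGT_31 stCmp3_67)

theorem isogB_true {g : Matrix (Fin 2) (Fin 2) ℤ} {H K : Subgroup (FHat 2)} :
    IsogB true g H K ↔ Isog3 g H K :=
  ⟨fun h => ⟨h.1 rfl, h.2⟩, fun h => ⟨fun _ => h.1, h.2⟩⟩

theorem isogB_false {g : Matrix (Fin 2) (Fin 2) ℤ} {H K : Subgroup (FHat 2)} :
    IsogB false g H K ↔ IsogM g H K :=
  ⟨fun h => h.2, fun h => ⟨fun e => absurd e (by decide), h⟩⟩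

/-- The theorem. -/
theorem allB_24 {lam : ZHat} {f : FHat 2} (h : IsGT lam f)
    (g : Matrix (Fin 2) (Fin 2) ℤ) (hg : 0 < g.det) (b : Bool) (H K : Subgroup (FHat 2))
    (hHK : IsogB b g H K) : IsogB b g (act lam f H) (act lam f K) := by
  cases b with
  | true => exact isogB_true.2 (all3_24 lam f h g hg H K (isogB_true.1 hHK))
  | false => exact isogB_false.2 (allM_24 lam f h g hg H K (isogB_false.1 hHK))

end MPb66790.HK24
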