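import Pool.Agent.Lib.MP_b66790_nt.Hecke.Cheb24

/-!
# Row INJ: the Landen correspondence is the graph of a bijection
-/

namespace MPb66790.HK24.Inj51

open MPb66790 MPb66790.HK24 MPb66790.CY24 Function

/-! ## The two legs -/

/-- The first leg. -/
noncomputable def al : FHat 3 →ₜ* FHat 2 := ev ![X ^ 2, Y ^ 2, Y * X]

/-- The second leg. -/
noncomputable def be : FHat 3 →ₜ* FHat 2 := ev ![Y, X⁻¹ * Y * X, (X ^ 2)⁻¹]

theorem mem_LT {u v : FHat 2} : (u, v) ∈ LT ↔ ∃ w, al w = u ∧ be w = v := by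
  constructor
  · rintro ⟨w, hw⟩
    have h := Prod.ext_iff.1 hw
    exact ⟨w, h.1, h.2⟩
  · rintro ⟨w, h1, h2⟩
    exact ⟨w, Prod.ext h1 h2⟩

/-! ## Automorphisms -/

/-- `x ↦ x`, `y ↦ y x`. -/
noncomputable def aA : FHat 2 →ₜ* FHat 2 := ev ![X, Y * X]

/-- `x ↦ x`, `y ↦ y x⁻¹`. -/
noncomputable def aB : FHat 2 →ₜ* FHat 2 := ev ![X, Y * X⁻¹]

theorem aA_X : aA X = X := ev_gen _ _
theorem aA_Y : aA Y = Y * X := ev_gen _ _
theorem aB_X : aB X = X := ev_gen _ _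
theorem aB_Y : aB Y = Y * X⁻¹ := ev_gen _ _

theorem aA_aB (x : FHat 2) : aA (aB x) = x := by
  refine ev_hom_ext (φ := aA.toMonoidHom.comp aB.toMonoidHom) (ψ := MonoidHom.id _)
    (aA.continuous_toFun.comp aB.continuous_toFun) continuous_id (fun i => ?_) x
  fin_cases i
  · show aA (aB X) = X
    rw [aB_X, aA_X]
  · show aA (aB Y) = Y
    rw [aB_Y, map_mul, map_inv, aA_X, aA_Y]
    group

theorem aB_aA (x : FHat 2) : aB (aA x) = x := by
  refine ev_hom_ext (φ := aB.toMonoidHom.comp aA.toMonoidHom) (ψ := MonoidHom.id _)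
    (aB.continuous_toFun.comp aA.continuous_toFun) continuous_id (fun i => ?_) x
  fin_cases i
  · show aB (aA X) = X
    rw [aA_X, aB_X]
  · show aB (aA Y) = Y
    rw [aA_Y, map_mul, aB_X, aB_Y]
    group

theorem par_X : par X = Multiplicative.ofAdd 1 := evF_gen _ _
theorem par_Y : par Y = Multiplicative.ofAdd 1 := evF_gen _ _

theorem par_aA (x : FHat 2) : par (aA x) = CY24.chi 1 x := by
  have h : par (aA x) = evF (fun i => par ((![X, Y * X] : Fin 2 → FHat 2) i)) x := evF_ev _ _ _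
  rw [h]
  unfold CY24.chi
  congr 1
  congr 1
  funext i
  fin_cases i
  · exact par_X
  · show par (Y * X) = 1
    rw [map_mul, par_X, par_Y]
    decide

/-- The generators of the group of the sphere minus `0, ∞` and `1, -1`. -/
noncomputable def dl : FHat 3 →ₜ* FHat (1 + 2) :=
  ev ![g0 1, gy 0 * (g0 1)⁻¹ * gy 1, gy 0]

/-- The inverse of `dl`. -/
noncomputable def dl' : FHat (1 + 2) →ₜ* FHat 3 :=
  ev (mk (gen 0) (fun j : ZMod (1 + 1) => if j = 0 then gen 2 else gen 0 * (gen 2)⁻¹ * gen 1))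

theorem dl_0 : dl (gen 0) = g0 1 := ev_gen _ _
theorem dl_1 : dl (gen 1) = gy 0 * (g0 1)⁻¹ * gy 1 := ev_gen _ _
theorem dl_2 : dl (gen 2) = gy 0 := ev_gen _ _
theorem dl'_g0 : dl' (g0 1) = gen 0 := ev_g0 _ _
theorem dl'_0 : dl' (gy 0) = gen 2 := by
  have h : dl' (gy 0) = if (0 : ZMod (1 + 1)) = 0 then gen 2 else gen 0 * (gen 2)⁻¹ * gen 1 :=
    ev_gy _ _ _
  rw [h, if_pos rfl]
theorem dl'_1 : dl' (gy 1) = gen 0 * (gen 2)⁻¹ * gen 1 := by
  have h : dl' (gy 1) = if (1 : ZMod (1 + 1)) = 0 then gen 2 else gen 0 * (gen 2)⁻¹ * gen 1 :=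
    ev_gy _ _ _
  rw [h, if_neg (by decide)]

theorem dl'_dl (x : FHat 3) : dl' (dl x) = x := by
  refine ev_hom_ext (φ := dl'.toMonoidHom.comp dl.toMonoidHom) (ψ := MonoidHom.id _)
    (dl'.continuous_toFun.comp dl.continuous_toFun) continuous_id (fun i => ?_) x
  fin_cases i
  · show dl' (dl (gen 0)) = gen 0
    rw [dl_0, dl'_g0]
  · show dl' (dl (gen 1)) = gen 1
    rw [dl_1, map_mul, map_mul, map_inv, dl'_g0, dl'_0, dl'_1]
    group
  · show dl' (dl (gen 2)) = gen 2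
    rw [dl_2, dl'_0]

theorem two_cases (j : ZMod (1 + 1)) : j = 0 ∨ j = 1 := by
  revert j
  decide

theorem dl_dl' (x : FHat (1 + 2)) : dl (dl' x) = x := by
  refine gen_ext (φ := dl.toMonoidHom.comp dl'.toMonoidHom) (ψ := MonoidHom.id _)
    (dl.continuous_toFun.comp dl'.continuous_toFun) continuous_id ?_ (fun j => ?_) x
  · show dl (dl' (g0 1)) = g0 1
    rw [dl'_g0, dl_0]
  · rcases two_cases j with rfl | rfl
    · show dl (dl' (gy 0)) = gy 0
      rw [dl'_0, dl_2]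
    · show dl (dl' (gy 1)) = gy 1
      rw [dl'_1, map_mul, map_mul, map_inv, dl_0, dl_1, dl_2]
      group

/-- The permutation of the generators for the second leg. -/
noncomputable def ga : FHat 3 →ₜ* FHat (1 + 2) := ev ![gy 1, gy 0, (g0 1)⁻¹]

/-- The inverse of `ga`. -/
noncomputable def ga' : FHat (1 + 2) →ₜ* FHat 3 :=
  ev (mk (gen 2)⁻¹ (fun j : ZMod (1 + 1) => if j = 0 then gen 1 else gen 0))

theorem ga_0 : ga (gen 0) = gy 1 := ev_gen _ _
theorem ga_1 : ga (gen 1) = gy 0 := ev_gen _ _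
theorem ga_2 : ga (gen 2) = (g0 1)⁻¹ := ev_gen _ _
theorem ga'_g0 : ga' (g0 1) = (gen 2)⁻¹ := ev_g0 _ _
theorem ga'_0 : ga' (gy 0) = gen 1 := by
  have h : ga' (gy 0) = if (0 : ZMod (1 + 1)) = 0 then gen 1 else gen 0 := ev_gy _ _ _
  rw [h, if_pos rfl]
theorem ga'_1 : ga' (gy 1) = gen 0 := by
  have h : ga' (gy 1) = if (1 : ZMod (1 + 1)) = 0 then gen 1 else gen 0 := ev_gy _ _ _
  rw [h, if_neg (by decide)]

theorem ga'_ga (x : FHat 3) : ga' (ga x) = x := by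
  refine ev_hom_ext (φ := ga'.toMonoidHom.comp ga.toMonoidHom) (ψ := MonoidHom.id _)
    (ga'.continuous_toFun.comp ga.continuous_toFun) continuous_id (fun i => ?_) x
  fin_cases i
  · show ga' (ga (gen 0)) = gen 0
    rw [ga_0, ga'_1]
  · show ga' (ga (gen 1)) = gen 1
    rw [ga_1, ga'_0]
  · show ga' (ga (gen 2)) = gen 2
    rw [ga_2, map_inv, ga'_g0, inv_inv]

theorem ga_ga' (x : FHat (1 + 2)) : ga (ga' x) = x := by
  refine gen_ext (φ := ga.toMonoidHom.comp ga'.toMonoidHom) (ψ := MonoidHom.id _)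
    (ga.continuous_toFun.comp ga'.continuous_toFun) continuous_id ?_ (fun j => ?_) x
  · show ga (ga' (g0 1)) = g0 1
    rw [ga'_g0, map_inv, ga_2, inv_inv]
  · rcases two_cases j with rfl | rfl
    · show ga (ga' (gy 0)) = gy 0
      rw [ga'_0, ga_1]
    · show ga (ga' (gy 1)) = gy 1
      rw [ga'_1, ga_0]

/-! ## Factorisation of the legs -/

theorem cov_0 : covMap 1 (gy 0) = Y := by
  rw [cov_gy, ZMod.val_zero]
  group

theorem cov_1 : covMap 1 (gy 1) = X * Y * X⁻¹ := by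
  rw [cov_gy]
  have h : (1 : ZMod (1 + 1)).val = 1 := rfl
  rw [h, pow_one]

theorem cov_2 : covMap 1 (g0 1) = X ^ 2 := cov_g0

theorem al_eq (x : FHat 3) : al x = aA (covMap 1 (dl x)) := by
  refine ev_hom_ext (φ := al.toMonoidHom)
    (ψ := aA.toMonoidHom.comp ((covMap 1).toMonoidHom.comp dl.toMonoidHom)) al.continuous_toFun
    (aA.continuous_toFun.comp ((covMap 1).continuous_toFun.comp dl.continuous_toFun))
    (fun i => ?_) x
  fin_cases i
  · show al (gen 0) = aA (covMap 1 (dl (gen 0)))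
    have e : al (gen 0) = X ^ 2 := ev_gen _ _
    rw [e, dl_0, cov_2, map_pow, aA_X]
  · show al (gen 1) = aA (covMap 1 (dl (gen 1)))
    have e : al (gen 1) = Y ^ 2 := ev_gen _ _
    have e1 : covMap 1 (gy 0 * (g0 1)⁻¹ * gy 1) = Y * (X ^ 2)⁻¹ * (X * Y * X⁻¹) := by
      rw [map_mul, map_mul, map_inv, cov_0, cov_1, cov_2]
    rw [e, dl_1, e1]
    simp only [map_mul, map_inv, map_pow, aA_X, aA_Y]
    rw [pow_two Y]
    group
  · show al (gen 2) = aA (covMap 1 (dl (gen 2)))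
    have e : al (gen 2) = Y * X := ev_gen _ _
    rw [e, dl_2, cov_0, aA_Y]

theorem be_eq (x : FHat 3) : be x = X⁻¹ * covMap 1 (ga x) * X⁻¹⁻¹ := by
  refine ev_hom_ext (φ := be.toMonoidHom)
    (ψ := (MulAut.conj (X⁻¹ : FHat 2)).toMonoidHom.comp
      ((covMap 1).toMonoidHom.comp ga.toMonoidHom)) be.continuous_toFun
    ((continuous_const.mul ((covMap 1).continuous_toFun.comp ga.continuous_toFun)).mul
      continuous_const) (fun i => ?_) x
  fin_cases i
  · show be (gen 0) = X⁻¹ * covMap 1 (ga (gen 0)) * X⁻¹⁻¹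
    have e : be (gen 0) = Y := ev_gen _ _
    rw [e, ga_0, cov_1]
    group
  · show be (gen 1) = X⁻¹ * covMap 1 (ga (gen 1)) * X⁻¹⁻¹
    have e : be (gen 1) = X⁻¹ * Y * X := ev_gen _ _
    rw [e, ga_1, cov_0]
    group
  · show be (gen 2) = X⁻¹ * covMap 1 (ga (gen 2)) * X⁻¹⁻¹
    have e : be (gen 2) = (X ^ 2)⁻¹ := ev_gen _ _
    rw [e, ga_2, map_inv, cov_2]
    group

theorem al_inj : Injective al := by
  intro x y h
  rw [al_eq, al_eq] at h
  have h1 := congrArg aB h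
  rw [aB_aA, aB_aA] at h1
  have h2 := congrArg dl' (cov_inj h1)
  rwa [dl'_dl, dl'_dl] at h2

theorem be_inj : Injective be := by
  intro x y h
  rw [be_eq, be_eq] at h
  have h1 : covMap 1 (ga x) = covMap 1 (ga y) := mul_left_cancel (mul_right_cancel h)
  have h2 := congrArg ga' (cov_inj h1)
  rwa [ga'_ga, ga'_ga] at h2

theorem al_surj {u : FHat 2} (h : par u = 1) : ∃ w, al w = u := by
  have h1 : CY24.chi 1 (aB u) = 1 := by rw [← par_aA, aA_aB, h]
  obtain ⟨k, hk⟩ := exists_cov_of_chi h1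
  exact ⟨dl' k, by rw [al_eq, dl_dl', hk, aA_aB]⟩

theorem be_surj {v : FHat 2} (h : CY24.chi 1 v = 1) : ∃ w, be w = v := by
  have h1 : CY24.chi 1 (X * v * X⁻¹) = 1 := by
    rw [map_mul, map_mul, h, map_inv]
    group
  obtain ⟨k, hk⟩ := exists_cov_of_chi h1
  refine ⟨ga' k, ?_⟩
  rw [be_eq, ga_ga', hk]
  group

theorem par_al (w : FHat 3) : par (al w) = 1 := by rw [al_eq, par_aA, chi_cov]

theorem chi_be (w : FHat 3) : CY24.chi 1 (be w) = 1 := by
  rw [be_eq, map_mul, map_mul, chi_cov, mul_one, ← map_mul, mul_inv_cancel, map_one]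

/-- INJ. -/
theorem stInj_51 : StInj := by
  refine ⟨fun u v v' h h' => ?_, fun u u' v h h' => ?_, fun u h => ?_, fun v h => ?_,
    fun u v h => ?_⟩
  · obtain ⟨w, h1, h2⟩ := mem_LT.1 h
    obtain ⟨w', h3, h4⟩ := mem_LT.1 h'
    have e : w = w' := al_inj (h1.trans h3.symm)
    rw [← h2, ← h4, e]
  · obtain ⟨w, h1, h2⟩ := mem_LT.1 h
    obtain ⟨w', h3, h4⟩ := mem_LT.1 h'
    have e : w = w' := be_inj (h2.trans h4.symm)
    rw [← h1, ← h3, e]
  · obtain ⟨w, hw⟩ := al_surj h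
    exact ⟨be w, mem_LT.2 ⟨w, hw, rfl⟩⟩
  · obtain ⟨w, hw⟩ := be_surj h
    exact ⟨al w, mem_LT.2 ⟨w, rfl, hw⟩⟩
  · obtain ⟨w, h1, h2⟩ := mem_LT.1 h
    exact ⟨by rw [← h1, par_al], by rw [← h2, chi_be]⟩

end MPb66790.HK24.Inj51
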