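import Pool.Agent.Lib.MP_b66790_nt.Hecke.Stmt24b

/-!
# Row G: the graph lemma
-/

namespace MPb66790.HK24

open MPb66790 MPb66790.CY24 Function

theorem finiteIndex_map67 {R : Subgroup (F2 × F2)}
    (h1 : (R.map (MonoidHom.fst F2 F2)).FiniteIndex) {K : Subgroup (F2 × F2)}
    (hK : K.FiniteIndex) : ((R ⊓ K).map (MonoidHom.fst F2 F2)).FiniteIndex := by
  set P := R.map (MonoidHom.fst F2 F2) with hP
  set V := (R ⊓ K).map (MonoidHom.fst F2 F2) with hV
  have hle : V ≤ P := Subgroup.map_mono inf_le_left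
  have h2 : V.relIndex P ≠ 0 := by
    have h3 := Subgroup.index_map_dvd (K.subgroupOf R)
      ((MonoidHom.fst F2 F2).subgroupMap_surjective R)
    have h4 : (K.subgroupOf R).map ((MonoidHom.fst F2 F2).subgroupMap R) = V.subgroupOf P := by
      ext x
      simp only [Subgroup.mem_map, Subgroup.mem_subgroupOf]
      constructor
      · rintro ⟨y, hy, rfl⟩
        exact ⟨y.1, ⟨y.2, hy⟩, rfl⟩
      · rintro ⟨y, hy, hyx⟩
        exact ⟨⟨y, hy.1⟩, hy.2, Subtype.ext hyx⟩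
    rw [h4] at h3
    intro h5
    have h6 : (V.subgroupOf P).index = 0 := h5
    rw [h6, zero_dvd_iff] at h3
    have h8 : (K.subgroupOf R).FiniteIndex := inferInstance
    exact h8.index_ne_zero h3
  refine ⟨?_⟩
  rw [← Subgroup.relIndex_mul_index hle]
  exact mul_ne_zero h2 h1.index_ne_zero

theorem closure_mul67 {R : Subgroup (F2 × F2)} {x : FHat 2 × FHat 2}
    (hx : x ∈ closure ((fun p : F2 × F2 => ((of p.1, of p.2) : FHat 2 × FHat 2)) ''
      (R : Set (F2 × F2)))) {p : F2 × F2} (hp : p ∈ R) :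
    x * (of p.1, of p.2) ∈ closure ((fun p : F2 × F2 => ((of p.1, of p.2) : FHat 2 × FHat 2)) ''
      (R : Set (F2 × F2))) := by
  have hc : Continuous (fun y : FHat 2 × FHat 2 => y * (of p.1, of p.2)) :=
    continuous_id.mul continuous_const
  have h1 := image_closure_subset_closure_image hc ⟨x, hx, rfl⟩
  refine closure_mono ?_ h1
  rintro _ ⟨_, ⟨q, hq, rfl⟩, rfl⟩
  refine ⟨q * p, R.mul_mem hq hp, ?_⟩
  show (of (q.1 * p.1), of (q.2 * p.2)) = (of q.1 * of p.1, of q.2 * of p.2)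
  rw [map_mul, map_mul]

theorem graph67 {R : Subgroup (F2 × F2)} (h1 : (R.map (MonoidHom.fst F2 F2)).FiniteIndex)
    (h3 : ∀ k, ((1 : F2), k) ∈ R → k = 1) (h : F2) (v : FHat 2)
    (hv : ((of h, v) : FHat 2 × FHat 2) ∈
      closure ((fun p : F2 × F2 => ((of p.1, of p.2) : FHat 2 × FHat 2)) '' (R : Set (F2 × F2)))) :
    ∃ k, v = of k ∧ (h, k) ∈ R := by
  classical
  -- `h` belongs to the first projection
  have hP : h ∈ R.map (MonoidHom.fst F2 F2) := by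
    have hf := h1
    set P := R.map (MonoidHom.fst F2 F2) with hPdef
    have hfin : Finite (F2 ⧸ P.normalCore) := Subgroup.finite_quotient_of_finiteIndex
    let π : F2 →* F2 ⧸ P.normalCore := QuotientGroup.mk' P.normalCore
    have hopen : IsOpen {x : FHat 2 × FHat 2 | lftF π x.1 = π h} :=
      (isClopen_lftF π {π h}).isOpen.preimage continuous_fst
    have hmem : ((of h, v) : FHat 2 × FHat 2) ∈ {x : FHat 2 × FHat 2 | lftF π x.1 = π h} :=
      lftF_of π h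
    obtain ⟨x, hx1, ⟨p, hp, rfl⟩⟩ := mem_closure_iff.1 hv _ hopen hmem
    have hx2 : lftF π (of p.1) = π h := hx1
    rw [lftF_of] at hx2
    have hx3 : p.1⁻¹ * h ∈ P.normalCore := QuotientGroup.eq.1 hx2
    have hp1 : p.1 ∈ P := ⟨p, hp, rfl⟩
    have hx4 := P.mul_mem hp1 (Subgroup.normalCore_le P hx3)
    rwa [mul_inv_cancel_left] at hx4
  obtain ⟨⟨h', k⟩, hhk, rfl⟩ := hP
  refine ⟨k, ?_, hhk⟩
  have hv1 := closure_mul67 hv (R.inv_mem hhk)
  have e1 : ((of ((MonoidHom.fst F2 F2) (h', k)), v) : FHat 2 × FHat 2) *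
      (of ((h', k) : F2 × F2)⁻¹.1, of ((h', k) : F2 × F2)⁻¹.2) = (1, v * (of k)⁻¹) := by
    show (of h' * of (h'⁻¹), v * of (k⁻¹)) = (1, v * (of k)⁻¹)
    rw [map_inv, map_inv, mul_inv_cancel]
  rw [e1] at hv1
  by_contra hne
  have hne' : v * (of k)⁻¹ ≠ 1 := fun e => hne (mul_inv_eq_one.1 e)
  obtain ⟨Q, _, _, φ, -, hφ⟩ := sep_one hne'
  let K : Subgroup (F2 × F2) := (φ.comp (MonoidHom.snd F2 F2)).ker
  have hK : K.FiniteIndex := by
    have : Finite (φ.comp (MonoidHom.snd F2 F2)).range := inferInstance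
    exact Subgroup.finiteIndex_ker _
  have hV := finiteIndex_map67 h1 hK
  set V := (R ⊓ K).map (MonoidHom.fst F2 F2) with hVdef
  have hfin : Finite (F2 ⧸ V.normalCore) := Subgroup.finite_quotient_of_finiteIndex
  let π : F2 →* F2 ⧸ V.normalCore := QuotientGroup.mk' V.normalCore
  have hopen : IsOpen {x : FHat 2 × FHat 2 | lftF π x.1 = 1 ∧ lftF φ x.2 ≠ 1} :=
    ((isClopen_lftF π {1}).isOpen.preimage continuous_fst).inter
      ((isClopen_lftF φ {1}ᶜ).isOpen.preimage continuous_snd)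
  have hmem : ((1, v * (of k)⁻¹) : FHat 2 × FHat 2) ∈
      {x : FHat 2 × FHat 2 | lftF π x.1 = 1 ∧ lftF φ x.2 ≠ 1} := ⟨map_one _, hφ⟩
  obtain ⟨x, ⟨hx1, hx2⟩, ⟨p, hp, rfl⟩⟩ := mem_closure_iff.1 hv1 _ hopen hmem
  have hx3 : lftF π (of p.1) = 1 := hx1
  have hx4 : lftF φ (of p.2) ≠ 1 := hx2
  rw [lftF_of] at hx3 hx4
  have hx5 : p.1 ∈ V := Subgroup.normalCore_le V ((QuotientGroup.eq_one_iff p.1).1 hx3)
  obtain ⟨q, ⟨hqR, hqK⟩, hq⟩ := hx5
  have hq' : q.1 = p.1 := hq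
  have h5 : ((1 : F2), p.2 * q.2⁻¹) ∈ R := by
    have h6 := R.mul_mem hp (R.inv_mem hqR)
    have h7 : p * q⁻¹ = ((1 : F2), p.2 * q.2⁻¹) := by
      refine Prod.ext ?_ rfl
      show p.1 * q.1⁻¹ = 1
      rw [hq', mul_inv_cancel]
    rwa [h7] at h6
  have h8 := h3 _ h5
  have h9 : p.2 = q.2 := mul_inv_eq_one.1 h8
  apply hx4
  rw [h9]
  exact hqK

/-- Row G. -/
theorem stG_67 : HK24.StG := by
  intro R h1 h2 h3 h4
  refine ⟨fun h v hv => graph67 h1 h3 h v hv, fun u k hu => ?_⟩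
  let R' : Subgroup (F2 × F2) := R.map (MulEquiv.prodComm (M := F2) (N := F2)).toMonoidHom
  have hR' : ∀ a b : F2, (a, b) ∈ R' ↔ (b, a) ∈ R := by
    intro a b
    constructor
    · rintro ⟨p, hp, hpe⟩
      have e : p = (b, a) := by
        have e1 : p.swap = (a, b) := hpe
        rw [← Prod.swap_swap p, e1]
        rfl
      rwa [← e]
    · intro hp
      exact ⟨(b, a), hp, rfl⟩
  have h1' : (R'.map (MonoidHom.fst F2 F2)).FiniteIndex := by
    have e : R'.map (MonoidHom.fst F2 F2) = R.map (MonoidHom.snd F2 F2) := by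
      ext x
      constructor
      · rintro ⟨⟨a, b⟩, hp, rfl⟩
        exact ⟨(b, a), (hR' a b).1 hp, rfl⟩
      · rintro ⟨⟨a, b⟩, hp, rfl⟩
        exact ⟨(b, a), (hR' b a).2 hp, rfl⟩
    rw [e]
    exact h2
  have h3' : ∀ k, ((1 : F2), k) ∈ R' → k = 1 := fun k hk => h4 k ((hR' 1 k).1 hk)
  have hu' : ((of k, u) : FHat 2 × FHat 2) ∈
      closure ((fun p : F2 × F2 => ((of p.1, of p.2) : FHat 2 × FHat 2)) ''
        (R' : Set (F2 × F2))) := by
    have h5 := image_closure_subset_closure_image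
      (f := (Prod.swap : FHat 2 × FHat 2 → FHat 2 × FHat 2)) continuous_swap ⟨_, hu, rfl⟩
    refine closure_mono ?_ h5
    rintro _ ⟨_, ⟨q, hq, rfl⟩, rfl⟩
    exact ⟨(q.2, q.1), (hR' _ _).2 hq, rfl⟩
  obtain ⟨h, e1, e2⟩ := graph67 h1' h3' k u hu'
  exact ⟨h, e1, (hR' k h).1 e2⟩

end MPb66790.HK24
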