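import Pool.Agent.Lib.MP_b66790_nt.Hecke.CN57
import Pool.Agent.Lib.MP_b66790_nt.Hecke.F67
import Pool.Agent.Lib.MP_b66790_nt.ModE

/-!
# Row SIM: matrices that correspond give partners
-/

namespace MPb66790.Sim67

open Function MPb66790 MPb66790.HK24 MPb66790.CY24 MPb66790.Th57 MPb66790.CN57 MPb66790.Niel57

/-! ### `jH` is injective -/

theorem jH_eq (w : FHat 2) : jH w = jMap (ev ![X⁻¹ * Y, X] w) := by
  rw [map_ev]
  unfold jH
  congr 2
  funext i
  fin_cases i
  · show pB⁻¹ * rB = jMap (X⁻¹ * Y)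
    rw [map_mul, map_inv]
    have e1 : jMap X = pB := ev_gen _ 0
    have e2 : jMap Y = rB := ev_gen _ 1
    rw [e1, e2]
  · show pB = jMap X
    have e1 : jMap X = pB := ev_gen _ 0
    exact e1.symm

theorem jH_inj67 : Injective jH := by
  intro u v h
  rw [jH_eq, jH_eq] at h
  have h1 := stD1 h
  have key : ∀ w : FHat 2, ev ![Y, Y * X] (ev ![X⁻¹ * Y, X] w) = w := by
    intro w
    refine FHat2_ext (φ := (ev ![Y, Y * X] : FHat 2 →ₜ* FHat 2).toMonoidHom.comp
      (ev ![X⁻¹ * Y, X] : FHat 2 →ₜ* FHat 2).toMonoidHom) (ψ := MonoidHom.id _)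
      ((ev ![Y, Y * X] : FHat 2 →ₜ* FHat 2).continuous_toFun.comp
        (ev ![X⁻¹ * Y, X] : FHat 2 →ₜ* FHat 2).continuous_toFun) continuous_id ?_ ?_ w
    · show ev ![Y, Y * X] (ev ![X⁻¹ * Y, X] (gen 0)) = X
      rw [ev_gen]
      show ev ![Y, Y * X] (X⁻¹ * Y) = X
      have e1 : ev ![Y, Y * X] X = Y := ev_gen _ 0
      have e2 : ev ![Y, Y * X] Y = Y * X := ev_gen _ 1
      rw [map_mul, map_inv, e1, e2]
      group
    · show ev ![Y, Y * X] (ev ![X⁻¹ * Y, X] (gen 1)) = Y
      rw [ev_gen]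
      show ev ![Y, Y * X] X = Y
      exact ev_gen _ 0
  have h2 := congrArg (ev ![Y, Y * X] : FHat 2 →ₜ* FHat 2) h1
  rwa [key, key] at h2

/-! ### Exponents modulo `m + 1` -/

/-- The exponent of `a = Y`. -/
noncomputable def eA (m : ℕ) : FHat 2 →* Multiplicative (ZMod (m + 1)) :=
  evF ![1, Multiplicative.ofAdd 1]

/-- The exponent of `b = X`. -/
noncomputable def eB (m : ℕ) : FHat 2 →* Multiplicative (ZMod (m + 1)) :=
  evF ![Multiplicative.ofAdd 1, 1]

theorem eA_X (m : ℕ) : eA m X = 1 := evF_gen _ _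

theorem eA_Y (m : ℕ) : eA m Y = Multiplicative.ofAdd 1 := evF_gen _ _

theorem eB_X (m : ℕ) : eB m X = Multiplicative.ofAdd 1 := evF_gen _ _

theorem eB_Y (m : ℕ) : eB m Y = 1 := evF_gen _ _

theorem eA_of (m : ℕ) (w : F2) : eA m (of w) = Multiplicative.ofAdd ((vec w 0 : ℤ) : ZMod (m + 1)) := by
  refine word_ind (p := fun w => eA m (of w) =
    Multiplicative.ofAdd ((vec w 0 : ℤ) : ZMod (m + 1))) ?_ ?_ ?_ ?_ ?_ w
  · rw [map_one, map_one, vec_one]
    simp
  · have e : vec (FreeGroup.of 0) = ![0, 1] := vec_b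
    rw [e]
    refine (eA_X m).trans ?_
    simp
  · have e : vec (FreeGroup.of 1) = ![1, 0] := vec_a
    rw [e]
    refine (eA_Y m).trans ?_
    simp
  · intro x hx
    rw [map_inv, map_inv, hx, vec_inv]
    simp
  · intro x y hx hy
    rw [map_mul, map_mul, hx, hy, vec_mul]
    simp

theorem eB_of (m : ℕ) (w : F2) : eB m (of w) = Multiplicative.ofAdd ((vec w 1 : ℤ) : ZMod (m + 1)) := by
  refine word_ind (p := fun w => eB m (of w) =
    Multiplicative.ofAdd ((vec w 1 : ℤ) : ZMod (m + 1))) ?_ ?_ ?_ ?_ ?_ w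
  · rw [map_one, map_one, vec_one]
    simp
  · have e : vec (FreeGroup.of 0) = ![0, 1] := vec_b
    rw [e]
    refine (eB_X m).trans ?_
    simp
  · have e : vec (FreeGroup.of 1) = ![1, 0] := vec_a
    rw [e]
    refine (eB_Y m).trans ?_
    simp
  · intro x hx
    rw [map_inv, map_inv, hx, vec_inv]
    simp
  · intro x y hx hy
    rw [map_mul, map_mul, hx, hy, vec_mul]
    simp

variable {n : ℕ}

theorem eA_iso (m : ℕ) (w : FHat (n + 2)) : eA m (isoMap n w) = eA m (covMap n w) := by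
  have hc : Continuous (eA m) := continuous_lftF _
  refine gen_ext (H := Multiplicative (ZMod (m + 1)))
    (φ := (eA m).comp (isoMap n).toMonoidHom) (ψ := (eA m).comp (covMap n).toMonoidHom)
    (hc.comp (isoMap n).continuous_toFun) (hc.comp (covMap n).continuous_toFun) ?_ (fun j => ?_) w
  · show eA m (isoMap n (g0 n)) = eA m (covMap n (g0 n))
    have e1 : isoMap n (g0 n) = X := ev_g0 _ _
    rw [e1, cov_g0, map_pow, eA_X, one_pow]
  · show eA m (isoMap n (gy j)) = eA m (covMap n (gy j))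
    have e1 : isoMap n (gy j) = if j = 0 then Y else X * Y * X⁻¹ := ev_gy _ _ _
    rw [e1, cov_gy]
    split_ifs
    · simp [eA_X]
    · simp [eA_X]

theorem eB_iso (m : ℕ) (w : FHat (n + 2)) :
    (eB m (isoMap n w)) ^ (n + 1) = eB m (covMap n w) := by
  have hc : Continuous (eB m) := continuous_lftF _
  have hp : Continuous (powMonoidHom (n + 1) : Multiplicative (ZMod (m + 1)) →* _) :=
    continuous_pow (n + 1)
  refine gen_ext (H := Multiplicative (ZMod (m + 1)))
    (φ := (powMonoidHom (n + 1)).comp ((eB m).comp (isoMap n).toMonoidHom))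
    (ψ := (eB m).comp (covMap n).toMonoidHom)
    (hp.comp (hc.comp (isoMap n).continuous_toFun)) (hc.comp (covMap n).continuous_toFun) ?_
    (fun j => ?_) w
  · show (eB m (isoMap n (g0 n))) ^ (n + 1) = eB m (covMap n (g0 n))
    have e1 : isoMap n (g0 n) = X := ev_g0 _ _
    rw [e1, cov_g0, map_pow]
  · show (eB m (isoMap n (gy j))) ^ (n + 1) = eB m (covMap n (gy j))
    have e1 : isoMap n (gy j) = if j = 0 then Y else X * Y * X⁻¹ := ev_gy _ _ _
    rw [e1, cov_gy]
    split_ifs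
    · simp [eB_Y]
    · simp [eB_Y]

theorem int_eq {x y : ℤ} (h : ∀ m : ℕ, ((x : ℤ) : ZMod (m + 1)) = ((y : ℤ) : ZMod (m + 1))) :
    x = y := by
  have h1 := h (x - y).natAbs
  rw [ZMod.intCast_eq_intCast_iff_dvd_sub] at h1
  by_contra hne
  have h2 : y - x ≠ 0 := fun e => hne (by omega)
  have h3 := Int.le_of_dvd (abs_pos.2 h2) ((dvd_abs _ _).2 h1)
  have h4 : (((x - y).natAbs : ℕ) : ℤ) = |y - x| := by
    rw [Int.natCast_natAbs, abs_sub_comm]
  rw [Nat.cast_add, Nat.cast_one, h4] at h3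
  omega

/-- The exponents of discrete elements that correspond. -/
theorem vec_rel {w : FHat (n + 2)} {u v : F2} (hu : covMap n w = of u) (hv : isoMap n w = of v) :
    vec v 0 = vec u 0 ∧ ((n : ℤ) + 1) * vec v 1 = vec u 1 := by
  constructor
  · refine int_eq fun m => ?_
    have h := eA_iso m w
    rw [hu, hv, eA_of, eA_of] at h
    exact Multiplicative.ofAdd.injective h
  · refine int_eq fun m => ?_
    have h := eB_iso m w
    rw [hu, hv, eB_of, eB_of, ← ofAdd_nsmul] at h
    have h1 := Multiplicative.ofAdd.injective h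
    rw [← h1]
    push_cast
    rw [nsmul_eq_mul]
    push_cast
    ring

theorem f2ext {G : Type*} [Group G] {φ ψ : F2 →* G} (h0 : φ (FreeGroup.of 0) = ψ (FreeGroup.of 0))
    (h1 : φ (FreeGroup.of 1) = ψ (FreeGroup.of 1)) (w : F2) : φ w = ψ w := by
  have e : φ = ψ := by
    refine FreeGroup.ext_hom _ _ fun i => ?_
    fin_cases i
    · exact h0
    · exact h1
  rw [e]

theorem comm_zD_0 : Commute zD (σ 0) := comm_cube_aux isBraid_σ.1

theorem comm_zD_1 : Commute zD (σ 1) := comm_cube_aux' isBraid_σ.1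

theorem comm_zD (k : F2) : Commute zD (iotaD k) := by
  refine word_ind (p := fun k => Commute zD (iotaD k)) ?_ ?_ ?_ ?_ ?_ k
  · rw [map_one]
    exact Commute.one_right _
  · rw [iotaD_0]
    exact comm_zD_0.pow_right 2
  · rw [iotaD_1]
    exact comm_zD_1.pow_right 2
  · intro x hx
    rw [map_inv]
    exact hx.inv_right
  · intro x y hx hy
    rw [map_mul]
    exact hx.mul_right hy

theorem iotaD_mem (k : F2) : iotaD k ∈ B3 := by
  have h0 : σ 0 ∈ B3 := Subgroup.subset_closure (Or.inl rfl)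
  have h1 : σ 1 ∈ B3 := Subgroup.subset_closure (Or.inr rfl)
  refine word_ind (p := fun k => iotaD k ∈ B3) ?_ ?_ ?_ ?_ ?_ k
  · rw [map_one]
    exact B3.one_mem
  · rw [iotaD_0]
    exact B3.pow_mem h0 2
  · rw [iotaD_1]
    exact B3.pow_mem h1 2
  · intro x hx
    rw [map_inv]
    exact B3.inv_mem hx
  · intro x y hx hy
    rw [map_mul]
    exact B3.mul_mem hx hy

/-- The action of a partner on the exponents. -/
theorem vec_partner {h k : F2} {β : Braid4} {s : ℤ}
    (hR : Rel n (of (iotaD h)) (of β))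
    (hM : dg n * (matP h).1 = s • ((matP k).1 * dg n)) {v v' : F2} (hv : CJ β v v') :
    vec v' = s • (matP k).1.mulVec (vec v) := by
  -- a discrete lift of `v`
  let v0 : FreeGroup (Fin (n + 2)) := FreeGroup.lift ![FreeGroup.of 0, dy n 0] v
  have hiso : isoD n v0 = v := by
    refine f2ext (φ := (isoD n).comp (FreeGroup.lift ![FreeGroup.of 0, dy n 0]))
      (ψ := MonoidHom.id _) ?_ ?_ v
    · show isoD n (FreeGroup.lift ![FreeGroup.of 0, dy n 0] (FreeGroup.of 0)) = FreeGroup.of 0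
      rw [FreeGroup.lift_apply_of]
      exact lift_d0 _ _
    · show isoD n (FreeGroup.lift ![FreeGroup.of 0, dy n 0] (FreeGroup.of 1)) = FreeGroup.of 1
      rw [FreeGroup.lift_apply_of]
      show isoD n (dy n 0) = FreeGroup.of 1
      unfold isoD
      rw [lift_dy, if_pos rfl]
      rfl
  obtain ⟨w', h1, h2⟩ := hR (of v0)
  have e1 : covMap n w' = of (Ac h (covD n v0)) := by
    apply jH_inj67
    rw [← h1, cov_of, jH_of, jH_of, ← CJ_Ac h (covD n v0), map_mul, map_mul, map_inv]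
  have e2 : isoMap n w' = of v' := by
    apply jH_inj67
    have hv2 : β * jD v * β⁻¹ = jD v' := hv
    rw [← h2, iso_of, jH_of, jH_of, hiso, ← hv2, map_mul, map_mul, map_inv]
  have r1 := vec_rel e1 e2
  have r0 := vec_rel (cov_of v0) (iso_of v0)
  rw [vec_Ac] at r1
  rw [hiso] at r0
  have hn : ((n : ℤ) + 1) ≠ 0 := by positivity
  have m00 := congrFun (congrFun hM 0) 0
  have m01 := congrFun (congrFun hM 0) 1
  have m10 := congrFun (congrFun hM 1) 0
  have m11 := congrFun (congrFun hM 1) 1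
  simp [dg, Matrix.mul_apply, Fin.sum_univ_two] at m00 m01 m10 m11
  have r10 := r1.1
  have r11 := r1.2
  simp only [Matrix.mulVec, dotProduct, Fin.sum_univ_two] at r10 r11
  obtain ⟨r00, r01⟩ := r0
  have a00 : (matP h).1 0 0 = s * (matP k).1 0 0 := by
    have : ((n : ℤ) + 1) * ((matP h).1 0 0 - s * (matP k).1 0 0) = 0 := by linear_combination m00
    have h3 := (mul_eq_zero.1 this).resolve_left hn
    linear_combination h3
  funext i
  fin_cases i
  · show vec v' 0 = s • ((matP k).1.mulVec (vec v)) 0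
    simp only [Matrix.mulVec, dotProduct, Fin.sum_univ_two, smul_eq_mul]
    rw [r10, ← r00, ← r01, a00]
    linear_combination (vec v 1) * m01
  · show vec v' 1 = s • ((matP k).1.mulVec (vec v)) 1
    simp only [Matrix.mulVec, dotProduct, Fin.sum_univ_two, smul_eq_mul]
    have : ((n : ℤ) + 1) * (vec v' 1 - s * ((matP k).1 1 0 * vec v 0 + (matP k).1 1 1 * vec v 1)) =
        0 := by
      rw [← r00, ← r01] at r11
      linear_combination r11 + (vec v 0) * m10 + ((n : ℤ) + 1) * (vec v 1) * m11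
    have h3 := (mul_eq_zero.1 this).resolve_left hn
    linear_combination h3

/-- Row SIM. -/
theorem stSim_67 (hM3 : StM3) : StSim := by
  intro n h k hS
  obtain ⟨s, hs, hM⟩ : ∃ s : ℤ, (s = 1 ∨ s = -1) ∧
      dg n * (matP h).1 = s • ((matP k).1 * dg n) := by
    rcases hS with e | e
    · exact ⟨1, Or.inl rfl, by rw [e, one_smul]⟩
    · exact ⟨-1, Or.inr rfl, by rw [e, neg_smul, one_smul]⟩
  have hdiv : ((n : ℤ) + 1) ∣ (matP h).1 1 0 := by
    have h10 := congrFun (congrFun hM 1) 0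
    simp [dg, Matrix.mul_apply, Fin.sum_univ_two] at h10
    rw [h10]
    exact ⟨s * (matP k).1 1 0, by ring⟩
  obtain ⟨β, hβ, hR⟩ := stCN_57 n h hdiv
  have hg : β * (iotaD k)⁻¹ ∈ B3 := B3.mul_mem hβ (B3.inv_mem (iotaD_mem k))
  have key : ∀ w w', CJ (β * (iotaD k)⁻¹) w w' → vec w' = s • vec w := by
    intro w w' hw
    have hw1 : β * (iotaD k)⁻¹ * jD w * (β * (iotaD k)⁻¹)⁻¹ = jD w' := hw
    have h3 : CJ (iotaD k) ((Ac k)⁻¹ w) w := by
      have h4 := CJ_Ac k ((Ac k)⁻¹ w)
      rwa [MulAut.apply_inv_self] at h4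
    have h5 : iotaD k * jD ((Ac k)⁻¹ w) * (iotaD k)⁻¹ = jD w := h3
    have h6 : CJ β ((Ac k)⁻¹ w) w' := by
      show β * jD ((Ac k)⁻¹ w) * β⁻¹ = jD w'
      rw [← hw1, ← h5]
      group
    rw [vec_partner hR hM h6]
    have h7 := vec_Ac k ((Ac k)⁻¹ w)
    rw [MulAut.apply_inv_self] at h7
    rw [h7]
  obtain ⟨j, hj⟩ := hM3 _ hg (by
    rcases hs with rfl | rfl
    · exact Or.inl fun w w' hw => by rw [key w w' hw, one_smul]
    · exact Or.inr fun w w' hw => by rw [key w w' hw, neg_smul, one_smul])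
  refine ⟨j, ?_⟩
  have e : β = iotaD k * zD ^ j := by
    rw [← ((comm_zD k).zpow_left j).eq, ← hj, inv_mul_cancel_right]
  rw [← e]
  exact hR

end MPb66790.Sim67
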