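import Pool.Agent.Lib.MP_b66790_nt.Hecke.Even24
import Pool.Agent.Lib.MP_b66790_nt.Hecke.AllDiag67
import Pool.Agent.Lib.MP_b66790_nt.Hecke.Sim67
import Pool.Agent.Lib.MP_b66790_nt.Hecke.RM51
import Pool.Agent.Lib.MP_b66790_nt.Hecke.M31
import Pool.Agent.Lib.MP_b66790_nt.Hecke.Chain57
import Pool.Agent.Lib.MP_b66790_nt.Hecke.Cl32
import Pool.Agent.Lib.MP_b66790_nt.Hecke.T51
import Pool.Agent.Lib.MP_b66790_nt.Hecke.CN57
import Pool.Agent.Lib.MP_b66790_nt.Hecke.G67
import Pool.Agent.Lib.MP_b66790_nt.Hecke.Ind67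
import Pool.Agent.Lib.MP_b66790_nt.Hecke.F67

/-!
# The profinite Grothendieck-Teichmueller group commutes with the Hecke correspondences
-/

namespace MPb66790.HK24

open MPb66790 MPb66790.Sim67 MPb66790.M31 MPb66790.HK24.RM51 MPb66790.HK24.Cl32 MPb66790.CN57

theorem diagX24 : StDiagX :=
  diagX_of stT_51 stAlpha_67 (stSim_67 stM3_31)
    (stCl_32 stCN_57 stM0_31 stM1_31 stM2_31 stRM_51 stF_67) stG_67 stM4_31

theorem allX24 : StAllX := fun lam f h g hg _ _ hI =>
  stAllX_67 h (diagX24 lam f h) g hg hI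

theorem chain24 {lam : ZHat} {f : FHat 2} (h : IsGT lam f) {H K : Subgroup (FHat 2)}
    (hc : Chain H K) : Chain (act lam f H) (act lam f K) :=
  Chain57.chain_act (fun g hg H K => allX24 lam f h g hg H K) h hc

end MPb66790.HK24
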