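import Pool.Agent.Lib.MP_b66790_nt.Hecke.Cheb24
import Pool.Agent.Lib.MP_b66790_nt.Hecke.Final24

/-!
# Row LAN1: `F` commutes with the Landen correspondence
-/

namespace MPb66790.HK24

open MPb66790 MPb66790.CY24 MPb66790.Sim67 MPb66790.M31 MPb66790.HK24.RM51 MPb66790.HK24.Cl32
  MPb66790.CN57 Function

/-! ## Words -/

def x31 : F2 := FreeGroup.of 0

def y31 : F2 := FreeGroup.of 1

def U31 : FreeGroup (Fin 3) →* F2 := FreeGroup.lift ![x31, y31 ^ 2, y31 * x31 * y31⁻¹]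

def V31 : FreeGroup (Fin 3) →* F2 := FreeGroup.lift ![x31 ^ 2, y31, ((y31 * x31) ^ 2)⁻¹]

theorem U31_0 : U31 (FreeGroup.of 0) = x31 := by simp [U31]

theorem U31_1 : U31 (FreeGroup.of 1) = y31 ^ 2 := by simp [U31]

theorem U31_2 : U31 (FreeGroup.of 2) = y31 * x31 * y31⁻¹ := by simp [U31]

theorem V31_0 : V31 (FreeGroup.of 0) = x31 ^ 2 := by simp [V31]

theorem V31_1 : V31 (FreeGroup.of 1) = y31 := by simp [V31]

theorem V31_2 : V31 (FreeGroup.of 2) = ((y31 * x31) ^ 2)⁻¹ := by simp [V31]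

theorem range_sub31 {n : ℕ} {G : Type} [Group G] (φ : FreeGroup (Fin n) →* G) (S : Subgroup G)
    (h : ∀ i, φ (FreeGroup.of i) ∈ S) (g : FreeGroup (Fin n)) : φ g ∈ S := by
  induction g using FreeGroup.induction_on with
  | C1 =>
    rw [map_one]
    exact S.one_mem
  | of i => exact h i
  | inv_of i hi =>
    rw [map_inv]
    exact S.inv_mem hi
  | mul a b ha hb =>
    rw [map_mul]
    exact S.mul_mem ha hb

theorem x_mem31 : x31 ∈ U31.range := ⟨_, U31_0⟩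

theorem y2_mem31 : y31 ^ 2 ∈ U31.range := ⟨_, U31_1⟩

theorem yx_mem31 : y31 * x31 * y31⁻¹ ∈ U31.range := ⟨_, U31_2⟩

theorem conj_y31 {z : F2} (hz : z ∈ U31.range) : y31 * z * y31⁻¹ ∈ U31.range := by
  obtain ⟨g, rfl⟩ := hz
  refine range_sub31 ((MulAut.conj y31).toMonoidHom.comp U31) U31.range (fun i => ?_) g
  fin_cases i
  · show y31 * U31 (FreeGroup.of 0) * y31⁻¹ ∈ U31.range
    rw [U31_0]
    exact yx_mem31
  · show y31 * U31 (FreeGroup.of 1) * y31⁻¹ ∈ U31.range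
    rw [U31_1]
    have e : y31 * y31 ^ 2 * y31⁻¹ = y31 ^ 2 := by group
    rw [e]
    exact y2_mem31
  · show y31 * U31 (FreeGroup.of 2) * y31⁻¹ ∈ U31.range
    rw [U31_2]
    have e : y31 * (y31 * x31 * y31⁻¹) * y31⁻¹ = y31 ^ 2 * x31 * (y31 ^ 2)⁻¹ := by
      simp only [pow_two]
      group
    rw [e]
    exact mul_mem (mul_mem y2_mem31 x_mem31) (inv_mem y2_mem31)

theorem cover31 (h : F2) : h ∈ U31.range ∨ h * y31⁻¹ ∈ U31.range := by
  induction h using FreeGroup.induction_on with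
  | C1 => exact Or.inl (one_mem _)
  | of i =>
    fin_cases i
    · exact Or.inl x_mem31
    · refine Or.inr ?_
      show y31 * y31⁻¹ ∈ U31.range
      rw [mul_inv_cancel]
      exact one_mem _
  | inv_of i _ =>
    fin_cases i
    · exact Or.inl (inv_mem x_mem31)
    · refine Or.inr ?_
      show y31⁻¹ * y31⁻¹ ∈ U31.range
      have e : y31⁻¹ * y31⁻¹ = (y31 ^ 2)⁻¹ := by group
      rw [e]
      exact inv_mem y2_mem31
  | mul a b ha hb =>
    rcases ha with ha | ha <;> rcases hb with hb | hb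
    · exact Or.inl (mul_mem ha hb)
    · refine Or.inr ?_
      rw [mul_assoc]
      exact mul_mem ha hb
    · refine Or.inr ?_
      have e : a * b * y31⁻¹ = (a * y31⁻¹) * (y31 * b * y31⁻¹) := by group
      rw [e]
      exact mul_mem ha (conj_y31 hb)
    · refine Or.inl ?_
      have e : a * b = (a * y31⁻¹) * (y31 * (b * y31⁻¹) * y31⁻¹) * y31 ^ 2 := by group
      rw [e]
      exact mul_mem (mul_mem ha (conj_y31 hb)) y2_mem31

/-! ## Matrices -/

theorem matP_x31 : (matP x31).1 = !![1, -2; 0, 1] := by simp [matP, x31]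

theorem matP_y31 : (matP y31).1 = !![1, 0; 2, 1] := by simp [matP, y31]

theorem evenP31 (k : F2) : ∃ c : ℤ, (matP k).1 1 0 = 2 * c := by
  let ρ : Matrix.SpecialLinearGroup (Fin 2) ℤ →* Matrix.SpecialLinearGroup (Fin 2) (ZMod 2) :=
    Matrix.SpecialLinearGroup.map (Int.castRingHom (ZMod 2))
  have h : ρ.comp matP = 1 := by
    refine FreeGroup.ext_hom _ _ fun i => ?_
    apply Matrix.SpecialLinearGroup.ext
    intro a b
    fin_cases i
    · show ((matP x31).1 a b : ZMod 2) = (1 : Matrix (Fin 2) (Fin 2) (ZMod 2)) a b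
      rw [matP_x31]
      fin_cases a <;> fin_cases b <;> decide
    · show ((matP y31).1 a b : ZMod 2) = (1 : Matrix (Fin 2) (Fin 2) (ZMod 2)) a b
      rw [matP_y31]
      fin_cases a <;> fin_cases b <;> decide
  have h1 : ρ (matP k) = 1 := DFunLike.congr_fun h k
  have h2 : ((matP k).1 1 0 : ZMod 2) = 0 := by
    have h3 := congrArg (fun M : Matrix.SpecialLinearGroup (Fin 2) (ZMod 2) => M.1 1 0) h1
    exact h3
  obtain ⟨c, hc⟩ := (ZMod.intCast_zmod_eq_zero_iff_dvd _ 2).1 h2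
  exact ⟨c, hc⟩

theorem UV_RS31 (g : FreeGroup (Fin 3)) : (U31 g, V31 g) ∈ RS (dg 1) := by
  refine range_sub31 (U31.prod V31) (RS (dg 1)) (fun i => ?_) g
  have ex : (matP x31).1 = !![1, -2; 0, 1] := matP_x31
  have ey : (matP y31).1 = !![1, 0; 2, 1] := matP_y31
  fin_cases i
  · show SimP (dg 1) (U31 (FreeGroup.of 0)) (V31 (FreeGroup.of 0))
    rw [U31_0, V31_0]
    refine Or.inl ?_
    rw [pow_two, map_mul, Matrix.SpecialLinearGroup.coe_mul, ex]
    unfold dg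
    decide
  · show SimP (dg 1) (U31 (FreeGroup.of 1)) (V31 (FreeGroup.of 1))
    rw [U31_1, V31_1]
    refine Or.inl ?_
    rw [pow_two, map_mul, Matrix.SpecialLinearGroup.coe_mul, ey]
    unfold dg
    decide
  · show SimP (dg 1) (U31 (FreeGroup.of 2)) (V31 (FreeGroup.of 2))
    rw [U31_2, V31_2]
    refine Or.inl ?_
    rw [map_inv matP ((y31 * x31) ^ 2), pow_two, map_mul, map_mul, map_mul, map_mul, map_inv]
    have mx : matP x31 = ⟨!![1, -2; 0, 1], by simp [Matrix.det_fin_two]⟩ := Subtype.ext ex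
    have my : matP y31 = ⟨!![1, 0; 2, 1], by simp [Matrix.det_fin_two]⟩ := Subtype.ext ey
    rw [mx, my]
    unfold dg
    decide

theorem exists_UV31 {h k : F2} (hs : SimP (dg 1) h k) : ∃ g, U31 g = h ∧ V31 g = k := by
  have hs' : (h, k) ∈ RS (dg 1) := hs
  rcases cover31 h with ⟨g, hg⟩ | ⟨g, hg⟩
  · refine ⟨g, hg, ?_⟩
    have h1 := mul_mem (inv_mem (UV_RS31 g)) hs'
    have h2 : (U31 g, V31 g)⁻¹ * (h, k) = ((1 : F2), (V31 g)⁻¹ * k) := by
      refine Prod.ext ?_ rfl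
      show (U31 g)⁻¹ * h = 1
      rw [hg, inv_mul_cancel]
    rw [h2] at h1
    have h3 := stM4_31 _ (dg_left 1 h1)
    exact inv_mul_eq_one.1 h3
  · exfalso
    have h1 := mul_mem (inv_mem (UV_RS31 g)) hs'
    have h2 : (U31 g, V31 g)⁻¹ * (h, k) = (y31, (V31 g)⁻¹ * k) := by
      refine Prod.ext ?_ rfl
      show (U31 g)⁻¹ * h = y31
      rw [hg]
      group
    rw [h2] at h1
    generalize (V31 g)⁻¹ * k = k' at h1
    obtain ⟨c, hc⟩ := evenP31 k'
    have h3 : SimP (dg 1) y31 k' := h1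
    have key : ∀ ε : ℤ, (ε = 1 ∨ ε = -1) →
        dg 1 * (matP y31).1 = ε • ((matP k').1 * dg 1) → False := by
      intro ε hε e
      have e1 := congrFun (congrFun e 1) 0
      rw [matP_y31] at e1
      simp [dg, Matrix.mul_apply, Fin.sum_univ_two] at e1
      rw [hc] at e1
      rcases hε with rfl | rfl <;> omega
    rcases h3 with h3 | h3
    · exact key 1 (Or.inl rfl) (by rw [one_smul]; exact h3)
    · exact key (-1) (Or.inr rfl) (by rw [neg_one_smul]; exact h3)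

/-! ## The correspondence `LT1` and the relation of partners -/

theorem evU31 (g : FreeGroup (Fin 3)) :
    (ev ![X, Y ^ 2, Y * X * Y⁻¹] : FHat 3 →ₜ* FHat 2) (of g) = of (U31 g) := by
  have e : (ev ![X, Y ^ 2, Y * X * Y⁻¹] : FHat 3 →ₜ* FHat 2).toMonoidHom.comp
      (of : FreeGroup (Fin 3) →* FHat 3) = (of : F2 →* FHat 2).comp U31 := by
    refine FreeGroup.ext_hom _ _ fun i => ?_
    show ev ![X, Y ^ 2, Y * X * Y⁻¹] (gen i) = of (U31 (FreeGroup.of i))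
    rw [ev_gen]
    fin_cases i
    · show X = of (U31 (FreeGroup.of 0))
      rw [U31_0]
      rfl
    · show Y ^ 2 = of (U31 (FreeGroup.of 1))
      rw [U31_1, map_pow]
      rfl
    · show Y * X * Y⁻¹ = of (U31 (FreeGroup.of 2))
      rw [U31_2, map_mul, map_mul, map_inv]
      rfl
  exact DFunLike.congr_fun e g

theorem evV31 (g : FreeGroup (Fin 3)) :
    (ev ![X ^ 2, Y, ((Y * X) ^ 2)⁻¹] : FHat 3 →ₜ* FHat 2) (of g) = of (V31 g) := by
  have e : (ev ![X ^ 2, Y, ((Y * X) ^ 2)⁻¹] : FHat 3 →ₜ* FHat 2).toMonoidHom.comp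
      (of : FreeGroup (Fin 3) →* FHat 3) = (of : F2 →* FHat 2).comp V31 := by
    refine FreeGroup.ext_hom _ _ fun i => ?_
    show ev ![X ^ 2, Y, ((Y * X) ^ 2)⁻¹] (gen i) = of (V31 (FreeGroup.of i))
    rw [ev_gen]
    fin_cases i
    · show X ^ 2 = of (V31 (FreeGroup.of 0))
      rw [V31_0, map_pow]
      rfl
    · show Y = of (V31 (FreeGroup.of 1))
      rw [V31_1]
      rfl
    · show ((Y * X) ^ 2)⁻¹ = of (V31 (FreeGroup.of 2))
      rw [V31_2, map_inv, map_pow, map_mul]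
      rfl
  exact DFunLike.congr_fun e g

theorem mem_LT1_31 {u v : FHat 2} : (u, v) ∈ LT1 ↔ ∃ w : FHat 3,
    ev ![X, Y ^ 2, Y * X * Y⁻¹] w = u ∧ ev ![X ^ 2, Y, ((Y * X) ^ 2)⁻¹] w = v := by
  constructor
  · rintro ⟨w, hw⟩
    exact ⟨w, congrArg Prod.fst hw, congrArg Prod.snd hw⟩
  · rintro ⟨w, h1, h2⟩
    exact ⟨w, Prod.ext h1 h2⟩

theorem isClosed_LT1_31 : IsClosed (LT1 : Set (FHat 2 × FHat 2)) := by
  have c : Continuous (fun w : FHat 3 => (((ev ![X, Y ^ 2, Y * X * Y⁻¹] : FHat 3 →ₜ* FHat 2) w,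
      (ev ![X ^ 2, Y, ((Y * X) ^ 2)⁻¹] : FHat 3 →ₜ* FHat 2) w) : FHat 2 × FHat 2)) :=
    (ev ![X, Y ^ 2, Y * X * Y⁻¹] : FHat 3 →ₜ* FHat 2).continuous_toFun.prodMk
      (ev ![X ^ 2, Y, ((Y * X) ^ 2)⁻¹] : FHat 3 →ₜ* FHat 2).continuous_toFun
  exact (isCompact_range c).isClosed

theorem le_CR31 {u v : FHat 2} (h : (u, v) ∈ LT1) : (u, v) ∈ CR 1 := by
  obtain ⟨w, rfl, rfl⟩ := mem_LT1_31.1 h
  have c : Continuous (fun w : FHat 3 => (((ev ![X, Y ^ 2, Y * X * Y⁻¹] : FHat 3 →ₜ* FHat 2) w,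
      (ev ![X ^ 2, Y, ((Y * X) ^ 2)⁻¹] : FHat 3 →ₜ* FHat 2) w) : FHat 2 × FHat 2)) :=
    (ev ![X, Y ^ 2, Y * X * Y⁻¹] : FHat 3 →ₜ* FHat 2).continuous_toFun.prodMk
      (ev ![X ^ 2, Y, ((Y * X) ^ 2)⁻¹] : FHat 3 →ₜ* FHat 2).continuous_toFun
  refine hat_induction (S := {w : FHat 3 | (((ev ![X, Y ^ 2, Y * X * Y⁻¹] : FHat 3 →ₜ* FHat 2) w,
      (ev ![X ^ 2, Y, ((Y * X) ^ 2)⁻¹] : FHat 3 →ₜ* FHat 2) w) : FHat 2 × FHat 2) ∈ CR 1})
    ((isClosed_CR 1).preimage c) (fun g => ?_) w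
  show ((ev ![X, Y ^ 2, Y * X * Y⁻¹] (of g), ev ![X ^ 2, Y, ((Y * X) ^ 2)⁻¹] (of g)) :
    FHat 2 × FHat 2) ∈ CR 1
  rw [evU31, evV31]
  exact CR_of_simP (stSim_67 stM3_31) (UV_RS31 g)

theorem CR_le31 {u v : FHat 2} (h : (u, v) ∈ CR 1) : (u, v) ∈ LT1 := by
  obtain ⟨e, he⟩ := h
  have h1 : (u, v) ∈ R0 1 :=
    (stCl_32 stCN_57 stM0_31 stM1_31 stM2_31 stRM_51 stF_67) 1 u v e he
  have h2 : R0 1 ⊆ (LT1 : Set (FHat 2 × FHat 2)) := by
    refine closure_minimal ?_ isClosed_LT1_31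
    rintro _ ⟨x, y, hs, rfl⟩
    obtain ⟨g, rfl, rfl⟩ := exists_UV31 hs
    exact mem_LT1_31.2 ⟨of g, evU31 g, evV31 g⟩
  exact h2 h1

/-! ## The parity -/

/-- The dihedral group of order eight. -/
abbrev D31 : Type := DihedralGroup 4

noncomputable def pA31 : FHat 2 →* D31 := evF ![DihedralGroup.sr 1, DihedralGroup.sr 0]

noncomputable def pB31 : FHat 2 →* D31 := evF ![DihedralGroup.sr 0, DihedralGroup.sr 1]

theorem pA_X : pA31 X = DihedralGroup.sr 1 := evF_gen _ _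

theorem pA_Y : pA31 Y = DihedralGroup.sr 0 := evF_gen _ _

theorem pB_X : pB31 X = DihedralGroup.sr 0 := evF_gen _ _

theorem pB_Y : pB31 Y = DihedralGroup.sr 1 := evF_gen _ _

theorem evF_mem31 {n : ℕ} {Q : Type} [Group Q] [Finite Q] (S : Subgroup Q) (v : Fin n → Q)
    (h : ∀ i, v i ∈ S) (w : FHat n) : evF v w ∈ S := by
  obtain ⟨g, hg⟩ := exists_word v w
  rw [hg]
  exact range_sub31 _ S (fun i => by rw [FreeGroup.lift_apply_of]; exact h i) g

/-- The subgroup generated by the images of the generators of `LT1`. -/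
def S31 : Subgroup (D31 × D31) where
  carrier := {p | ((p.1 = 1 ∨ p.1 = DihedralGroup.sr 1) ∧ (p.2 = 1 ∨ p.2 = DihedralGroup.sr 1)) ∨
    ((p.1 = DihedralGroup.sr 3 ∨ p.1 = DihedralGroup.r 2) ∧
      (p.2 = DihedralGroup.r 2 ∨ p.2 = DihedralGroup.sr 3))}
  mul_mem' := by
    rintro ⟨a, b⟩ ⟨c, d⟩ h1 h2
    simp only [Set.mem_ofPred_eq] at h1 h2 ⊢
    rcases h1 with ⟨rfl | rfl, rfl | rfl⟩ | ⟨rfl | rfl, rfl | rfl⟩ <;>
      rcases h2 with ⟨rfl | rfl, rfl | rfl⟩ | ⟨rfl | rfl, rfl | rfl⟩ <;> decide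
  one_mem' := by
    simp only [Set.mem_ofPred_eq]
    decide
  inv_mem' := by
    rintro ⟨a, b⟩ h1
    simp only [Set.mem_ofPred_eq] at h1 ⊢
    rcases h1 with ⟨rfl | rfl, rfl | rfl⟩ | ⟨rfl | rfl, rfl | rfl⟩ <;> decide

theorem LT1_S31 {u v : FHat 2} (h : (u, v) ∈ LT1) : (pA31 u, pB31 v) ∈ S31 := by
  obtain ⟨w, rfl, rfl⟩ := mem_LT1_31.1 h
  let q : Fin 3 → D31 × D31 := ![(DihedralGroup.sr 1, 1), (1, DihedralGroup.sr 1),
    (DihedralGroup.sr 3, DihedralGroup.r 2)]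
  have hq : evF q w ∈ S31 := by
    refine evF_mem31 S31 q (fun i => ?_) w
    fin_cases i
    · exact Or.inl ⟨Or.inr rfl, Or.inl rfl⟩
    · exact Or.inl ⟨Or.inl rfl, Or.inr rfl⟩
    · exact Or.inr ⟨Or.inl rfl, Or.inl rfl⟩
  have e1 : pA31 (ev ![X, Y ^ 2, Y * X * Y⁻¹] w) = (evF q w).1 := by
    have h1 : pA31 (ev ![X, Y ^ 2, Y * X * Y⁻¹] w) =
        evF (fun i => pA31 ((![X, Y ^ 2, Y * X * Y⁻¹] : Fin 3 → FHat 2) i)) w := evF_ev _ _ _
    have h2 := evF_map (MonoidHom.fst D31 D31) q w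
    rw [h1]
    refine Eq.trans ?_ h2.symm
    congr 2
    funext i
    fin_cases i
    · exact pA_X
    · show pA31 (Y ^ 2) = 1
      rw [map_pow, pA_Y]
      decide
    · show pA31 (Y * X * Y⁻¹) = DihedralGroup.sr 3
      rw [map_mul, map_mul, map_inv, pA_Y, pA_X]
      decide
  have e2 : pB31 (ev ![X ^ 2, Y, ((Y * X) ^ 2)⁻¹] w) = (evF q w).2 := by
    have h1 : pB31 (ev ![X ^ 2, Y, ((Y * X) ^ 2)⁻¹] w) =
        evF (fun i => pB31 ((![X ^ 2, Y, ((Y * X) ^ 2)⁻¹] : Fin 3 → FHat 2) i)) w := evF_ev _ _ _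
    have h2 := evF_map (MonoidHom.snd D31 D31) q w
    rw [h1]
    refine Eq.trans ?_ h2.symm
    congr 2
    funext i
    fin_cases i
    · show pB31 (X ^ 2) = 1
      rw [map_pow, pB_X]
      decide
    · exact pB_Y
    · show pB31 (((Y * X) ^ 2)⁻¹) = DihedralGroup.r 2
      rw [map_inv, map_pow, map_mul, pB_Y, pB_X]
      decide
  rw [e1, e2]
  exact hq

theorem center31 (a b g : D31) : g * (a * b * a⁻¹ * b⁻¹) = a * b * a⁻¹ * b⁻¹ * g := by
  revert a b g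
  decide

variable {lam : ZHat} {f : FHat 2}

theorem evF_comm31 (hf : f ∈ (commutator (FHat 2)).topologicalClosure) (v : Fin 2 → D31) (g : D31) :
    g * evF v f = evF v f * g := by
  have h1 : (commutator (FHat 2)).topologicalClosure ≤
      (Subgroup.center D31).comap (evF v) := by
    refine Subgroup.topologicalClosure_minimal _ ?_ ?_
    · rw [commutator_def, Subgroup.commutator_le]
      intro a _ b _
      show evF v (a * b * a⁻¹ * b⁻¹) ∈ Subgroup.center D31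
      rw [Subgroup.mem_center_iff]
      intro g
      rw [map_mul, map_mul, map_mul, map_inv, map_inv]
      exact center31 _ _ g
    · exact (isClopen_lftF _ _).isClosed
  exact (Subgroup.mem_center_iff.1 (h1 hf)) g

theorem pow_one31 {v : Fin 2 → D31} {x : FHat 2} (h : evF v x = 1) (e : ZHat) :
    evF v (pow x e) = 1 := by
  have e1 : evF v (pow x e) = evF (fun _ : Fin 1 => evF v x) e := evF_ev _ _ _
  rw [e1]
  exact evF_one (fun _ => h) e

theorem phi_Y31 (h : IsGT lam f) (v : Fin 2 → D31) (hv : v 1 ^ 2 = 1) :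
    evF v (phi lam f Y) = v 1 := by
  obtain ⟨m, hm, -⟩ := h.three
  have e0 : evF v Y = v 1 := evF_gen _ _
  have e1 : phi lam f Y = f⁻¹ * pow Y lam * f := ev_gen _ _
  have e2 : pow Y lam = Y * pow (Y ^ 2) m := by
    rw [hm, pow_lam, pow_sq, mul_assoc]
  have e3 : evF v (Y ^ 2) = 1 := by rw [map_pow, e0, hv]
  rw [e1, e2, map_mul, map_mul, map_inv, map_mul, e0, pow_one31 e3, mul_one, mul_assoc,
    evF_comm31 h.comm, inv_mul_cancel_left]

/-- Row LAN1. -/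
theorem stLan1_31 : HK24.StLan1 := by
  intro lam f h
  obtain ⟨m, hm⟩ := stepX stT_51 stAlpha_67 h 1
  obtain ⟨r, hr, m', hm'⟩ := exists_div 1 m
  have eX : pow X m = X ^ r * pow (X ^ 2) m' := by
    rw [hm', pow_mul', pow_zgen_pow, pow_pow_zgen]
  have hr0 : r = 0 := by
    have hr2 : r = 0 ∨ r = 1 := by omega
    rcases hr2 with h0 | h1
    · exact h0
    · exfalso
      have h2 : (Y ^ 2, Y) ∈ LT1 :=
        mem_LT1_31.2 ⟨gen 1, ev_gen _ _, ev_gen _ _⟩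
      have h3 := LT1_S31 (CR_le31 (hm _ _ (le_CR31 h2)))
      have a1 : pA31 (phi lam f (Y ^ 2)) = 1 := by
        have a2 : pA31 (phi lam f Y) = DihedralGroup.sr 0 := phi_Y31 h _ (by decide)
        rw [map_pow, map_pow, a2]
        decide
      have b1 : pB31 (pow X m * phi lam f Y * (pow X m)⁻¹) = DihedralGroup.sr 3 := by
        have b2 : pB31 (phi lam f Y) = DihedralGroup.sr 1 := phi_Y31 h _ (by decide)
        have b3 : pB31 (X ^ 2) = 1 := by
          rw [map_pow, pB_X]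
          decide
        have b4 : pB31 (pow (X ^ 2) m') = 1 := pow_one31 b3 _
        rw [eX, h1, pow_one, map_mul, map_mul, map_inv, map_mul, b4, b2, pB_X]
        decide
      rw [a1, b1] at h3
      have h4 : ¬ ((1, DihedralGroup.sr 3) : D31 × D31) ∈ S31 := by
        intro h5
        have h6 : (((1 : D31) = 1 ∨ (1 : D31) = DihedralGroup.sr 1) ∧
            ((DihedralGroup.sr 3 : D31) = 1 ∨ (DihedralGroup.sr 3 : D31) = DihedralGroup.sr 1)) ∨
            (((1 : D31) = DihedralGroup.sr 3 ∨ (1 : D31) = DihedralGroup.r 2) ∧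
            ((DihedralGroup.sr 3 : D31) = DihedralGroup.r 2 ∨
              (DihedralGroup.sr 3 : D31) = DihedralGroup.sr 3)) := h5
        revert h6
        decide
      exact h4 h3
  rw [hr0, pow_zero, one_mul] at eX
  refine ⟨(pow X m')⁻¹, fun u v huv => ?_⟩
  have h1 := CR_le31 (hm u v (le_CR31 huv))
  have h2 : (pow X m', pow (X ^ 2) m') ∈ LT1 := by
    refine mem_LT1_31.2 ⟨pow (gen 0) m', ?_, ?_⟩
    · rw [ev_pow, ev_gen]
      rfl
    · rw [ev_pow, ev_gen]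
      rfl
  have h3 := LT1.mul_mem (LT1.mul_mem (LT1.inv_mem h2) h1) h2
  have h4 : ((pow X m', pow (X ^ 2) m') : FHat 2 × FHat 2)⁻¹ *
      (phi lam f u, pow X m * phi lam f v * (pow X m)⁻¹) * (pow X m', pow (X ^ 2) m') =
      ((pow X m')⁻¹ * phi lam f u * (pow X m')⁻¹⁻¹, phi lam f v) := by
    refine Prod.ext ?_ ?_
    · show (pow X m')⁻¹ * phi lam f u * pow X m' = _
      rw [inv_inv]
    · show (pow (X ^ 2) m')⁻¹ * (pow X m * phi lam f v * (pow X m)⁻¹) * pow (X ^ 2) m' = _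
      rw [eX]
      group
  rw [h4] at h3
  exact h3

end MPb66790.HK24
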