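import Pool.Agent.Lib.MP_b66790_nt.Hecke.Cheb24
import Pool.Agent.Lib.MP_b66790_nt.Hecke.Cmp67

/-!
# Row LAN: from one form of the Landen correspondence to the other
-/

namespace MPb66790.HK24

open MPb66790 MPb66790.CY24 Function

namespace Lan67

theorem rot_Z : rotMap Z = X := by
  unfold Z
  rw [map_inv, map_mul, rotMap_X, rotMap_Y]
  unfold Z
  group

theorem rot3 (w : FHat 2) : rotMap (rotMap (rotMap w)) = w := by
  refine FHat2_ext (φ := rotMap.toMonoidHom.comp (rotMap.toMonoidHom.comp rotMap.toMonoidHom))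
    (ψ := MonoidHom.id _)
    (rotMap.continuous_toFun.comp (rotMap.continuous_toFun.comp rotMap.continuous_toFun))
    continuous_id ?_ ?_ w
  · show rotMap (rotMap (rotMap X)) = X
    rw [rotMap_X, rotMap_Y, rot_Z]
  · show rotMap (rotMap (rotMap Y)) = Y
    rw [rotMap_Y, rot_Z, rotMap_X]

/-- The map of `LT`. -/
noncomputable def P0 : FHat 3 →* FHat 2 × FHat 2 :=
  (ev ![X ^ 2, Y ^ 2, Y * X] : FHat 3 →ₜ* FHat 2).toMonoidHom.prod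
    (ev ![Y, X⁻¹ * Y * X, (X ^ 2)⁻¹] : FHat 3 →ₜ* FHat 2).toMonoidHom

/-- The map of `LT1`. -/
noncomputable def P1 : FHat 3 →* FHat 2 × FHat 2 :=
  (ev ![X, Y ^ 2, Y * X * Y⁻¹] : FHat 3 →ₜ* FHat 2).toMonoidHom.prod
    (ev ![X ^ 2, Y, ((Y * X) ^ 2)⁻¹] : FHat 3 →ₜ* FHat 2).toMonoidHom

theorem P0_cont : Continuous P0 :=
  (ev ![X ^ 2, Y ^ 2, Y * X] : FHat 3 →ₜ* FHat 2).continuous_toFun.prodMk
    (ev ![Y, X⁻¹ * Y * X, (X ^ 2)⁻¹] : FHat 3 →ₜ* FHat 2).continuous_toFun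

theorem P1_cont : Continuous P1 :=
  (ev ![X, Y ^ 2, Y * X * Y⁻¹] : FHat 3 →ₜ* FHat 2).continuous_toFun.prodMk
    (ev ![X ^ 2, Y, ((Y * X) ^ 2)⁻¹] : FHat 3 →ₜ* FHat 2).continuous_toFun

theorem P0_0 : P0 (gen 0) = (X ^ 2, Y) := Prod.ext (ev_gen _ 0) (ev_gen _ 0)
theorem P0_1 : P0 (gen 1) = (Y ^ 2, X⁻¹ * Y * X) := Prod.ext (ev_gen _ 1) (ev_gen _ 1)
theorem P0_2 : P0 (gen 2) = (Y * X, (X ^ 2)⁻¹) := Prod.ext (ev_gen _ 2) (ev_gen _ 2)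
theorem P1_0 : P1 (gen 0) = (X, X ^ 2) := Prod.ext (ev_gen _ 0) (ev_gen _ 0)
theorem P1_1 : P1 (gen 1) = (Y ^ 2, Y) := Prod.ext (ev_gen _ 1) (ev_gen _ 1)
theorem P1_2 : P1 (gen 2) = (Y * X * Y⁻¹, ((Y * X) ^ 2)⁻¹) := Prod.ext (ev_gen _ 2) (ev_gen _ 2)

/-- `(u, v) ↦ (y (rot u) y⁻¹, v)`. -/
noncomputable def rh : FHat 2 × FHat 2 →* FHat 2 × FHat 2 :=
  ((MulAut.conj Y).toMonoidHom.comp rotMap.toMonoidHom).prodMap (MonoidHom.id _)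

theorem rh_apply (u v : FHat 2) : rh (u, v) = (Y * rotMap u * Y⁻¹, v) := rfl

theorem rh_cont : Continuous rh :=
  ((continuous_const.mul (rotMap.continuous_toFun.comp continuous_fst)).mul
    continuous_const).prodMk continuous_snd

theorem rh_inj : Injective rh := by
  rintro ⟨u, v⟩ ⟨u', v'⟩ h
  rw [rh_apply, rh_apply] at h
  obtain ⟨h1, h2⟩ := Prod.mk.inj h
  have h3 : rotMap u = rotMap u' := mul_left_cancel (mul_right_cancel h1)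
  have h4 : u = u' := by rw [← rot3 u, h3, rot3]
  have h5 : v = v' := h2
  rw [h4, h5]

/-- The substitutions. -/
noncomputable def sS : FHat 3 →ₜ* FHat 3 := ev ![gen 1, (gen 2 * gen 1 * gen 0)⁻¹, (gen 0)⁻¹]

noncomputable def sT : FHat 3 →ₜ* FHat 3 := ev ![(gen 2)⁻¹, gen 0, (gen 1)⁻¹ * gen 2 * (gen 0)⁻¹]

theorem sS_0 : sS (gen 0) = gen 1 := ev_gen _ 0
theorem sS_1 : sS (gen 1) = (gen 2 * gen 1 * gen 0)⁻¹ := ev_gen _ 1
theorem sS_2 : sS (gen 2) = (gen 0)⁻¹ := ev_gen _ 2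
theorem sT_0 : sT (gen 0) = (gen 2)⁻¹ := ev_gen _ 0
theorem sT_1 : sT (gen 1) = gen 0 := ev_gen _ 1
theorem sT_2 : sT (gen 2) = (gen 1)⁻¹ * gen 2 * (gen 0)⁻¹ := ev_gen _ 2

theorem val0 : rh (X ^ 2, Y) = (Y ^ 2, Y) := by
  rw [rh_apply, map_pow, rotMap_X]
  congr 1
  group

theorem val1 : rh (Y ^ 2, X⁻¹ * Y * X) = (((Y * X) ^ 2)⁻¹, X⁻¹ * Y * X) := by
  rw [rh_apply, map_pow, rotMap_Y]
  congr 1
  unfold Z
  rw [pow_two, pow_two]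
  group

theorem val2 : rh (Y * X, (X ^ 2)⁻¹) = (X⁻¹, (X ^ 2)⁻¹) := by
  rw [rh_apply, map_mul, rotMap_X, rotMap_Y]
  congr 1
  unfold Z
  group

theorem rh_P0 (w : FHat 3) : rh (P0 w) = P1 (sS w) := by
  refine ev_hom_ext (φ := rh.comp P0) (ψ := P1.comp sS.toMonoidHom) (rh_cont.comp P0_cont)
    (P1_cont.comp sS.continuous_toFun) (fun i => ?_) w
  show rh (P0 (gen i)) = P1 (sS (gen i))
  fin_cases i
  · show rh (P0 (gen 0)) = P1 (sS (gen 0))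
    rw [P0_0, sS_0, P1_1, val0]
  · show rh (P0 (gen 1)) = P1 (sS (gen 1))
    rw [P0_1, sS_1, map_inv, map_mul, map_mul, P1_0, P1_1, P1_2, val1]
    refine Prod.ext ?_ ?_
    · show ((Y * X) ^ 2)⁻¹ = (Y * X * Y⁻¹ * Y ^ 2 * X)⁻¹
      rw [pow_two, pow_two]
      group
    · show X⁻¹ * Y * X = (((Y * X) ^ 2)⁻¹ * Y * X ^ 2)⁻¹
      rw [pow_two, pow_two]
      group
  · show rh (P0 (gen 2)) = P1 (sS (gen 2))
    rw [P0_2, sS_2, map_inv, P1_0, val2]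
    rfl

theorem rh_P0_T (w : FHat 3) : rh (P0 (sT w)) = P1 w := by
  refine ev_hom_ext (φ := rh.comp (P0.comp sT.toMonoidHom)) (ψ := P1)
    (rh_cont.comp (P0_cont.comp sT.continuous_toFun)) P1_cont (fun i => ?_) w
  show rh (P0 (sT (gen i))) = P1 (gen i)
  fin_cases i
  · show rh (P0 (sT (gen 0))) = P1 (gen 0)
    rw [sT_0, map_inv, map_inv, P0_2, val2, P1_0]
    refine Prod.ext ?_ ?_
    · show X⁻¹⁻¹ = X
      rw [inv_inv]
    · show ((X ^ 2)⁻¹)⁻¹ = X ^ 2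
      rw [inv_inv]
  · show rh (P0 (sT (gen 1))) = P1 (gen 1)
    rw [sT_1, P0_0, val0, P1_1]
  · show rh (P0 (sT (gen 2))) = P1 (gen 2)
    rw [sT_2, map_mul, map_mul, map_mul, map_mul, map_inv, map_inv, map_inv, map_inv, P0_0, P0_1,
      P0_2, val0, val1, val2, P1_2]
    refine Prod.ext ?_ ?_
    · show (((Y * X) ^ 2)⁻¹)⁻¹ * X⁻¹ * (Y ^ 2)⁻¹ = Y * X * Y⁻¹
      rw [pow_two, pow_two]
      group
    · show (X⁻¹ * Y * X)⁻¹ * (X ^ 2)⁻¹ * Y⁻¹ = ((Y * X) ^ 2)⁻¹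
      rw [pow_two, pow_two]
      group

/-- The two forms of the Landen correspondence. -/
theorem mem_iff (u v : FHat 2) : (u, v) ∈ LT ↔ (Y * rotMap u * Y⁻¹, v) ∈ LT1 := by
  constructor
  · rintro ⟨w, hw⟩
    refine ⟨sS w, ?_⟩
    have h : P0 w = (u, v) := hw
    show P1 (sS w) = _
    rw [← rh_P0, h, rh_apply]
  · rintro ⟨w, hw⟩
    refine ⟨sT w, ?_⟩
    have h : P1 w = (Y * rotMap u * Y⁻¹, v) := hw
    show P0 (sT w) = (u, v)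
    apply rh_inj
    rw [rh_P0_T, h, rh_apply]

end Lan67

open Lan67 in
/-- Row LAN. -/
theorem stLan_67 (hL : StLan1) : StLan := by
  intro lam f h
  obtain ⟨a, ha⟩ := hL lam f h
  obtain ⟨c, hc⟩ := Cmp67.rot_pt h
  refine ⟨rotMap (rotMap (Y⁻¹ * a * phi lam f Y * c)), fun u v huv => ?_⟩
  rw [mem_iff] at huv ⊢
  have h1 := ha _ _ huv
  rw [map_mul, map_mul, map_inv, hc] at h1
  rw [map_mul, map_mul, map_inv, rot3]
  have e : Y * (Y⁻¹ * a * phi lam f Y * c * rotMap (phi lam f u) *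
      (Y⁻¹ * a * phi lam f Y * c)⁻¹) * Y⁻¹ =
      a * (phi lam f Y * (c * rotMap (phi lam f u) * c⁻¹) * (phi lam f Y)⁻¹) * a⁻¹ := by
    group
  rw [e]
  exact h1

end MPb66790.HK24
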