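import Pool.Agent.Lib.MP_b66790_nt.Hecke.Mat2_32

/-!
# Row MATCH1: from the Chebyshev polynomial to `z ^ (n + 1)`
-/

namespace MPb66790.HK24.Mat1_32

open MPb66790 MPb66790.CY24 MPb66790.HK24 MPb66790.HK24.Mat2_32 Function

theorem CC_closed (n : ℕ) : IsClosed (CC n : Set (FHat 2 × FHat 2)) := closed_range _ _

/-- The pairs that go to the correspondence of the power. -/
noncomputable def SS (n : ℕ) : Subgroup (FHat 2 × FHat 2) where
  carrier := {p | ∃ u' v', (p.1, u') ∈ LT ∧ (p.2, v') ∈ LT ∧ (u', v') ∈ CC n}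
  one_mem' := ⟨1, 1, one_mem _, one_mem _, one_mem _⟩
  mul_mem' := by
    rintro p q ⟨u, v, h1, h2, h3⟩ ⟨u', v', h1', h2', h3'⟩
    exact ⟨u * u', v * v', mul_mem h1 h1', mul_mem h2 h2', mul_mem h3 h3'⟩
  inv_mem' := by
    rintro p ⟨u, v, h1, h2, h3⟩
    exact ⟨u⁻¹, v⁻¹, inv_mem h1, inv_mem h2, inv_mem h3⟩

theorem SS_closed (n : ℕ) : IsClosed (SS n : Set (FHat 2 × FHat 2)) := by
  have h : (SS n : Set (FHat 2 × FHat 2)) = Prod.snd ''
      {q : (FHat 2 × FHat 2) × (FHat 2 × FHat 2) | (q.2.1, q.1.1) ∈ LT ∧ (q.2.2, q.1.2) ∈ LT ∧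
        q.1 ∈ CC n} := by
    ext p
    constructor
    · rintro ⟨u, v, h1, h2, h3⟩
      exact ⟨((u, v), p), ⟨h1, h2, h3⟩, rfl⟩
    · rintro ⟨⟨⟨u, v⟩, p'⟩, ⟨h1, h2, h3⟩, rfl⟩
      exact ⟨u, v, h1, h2, h3⟩
  rw [h]
  refine (IsClosed.isCompact ?_).image continuous_snd |>.isClosed
  refine IsClosed.inter ?_ (IsClosed.inter ?_ ?_)
  · exact LT_closed.preimage ((continuous_fst.comp continuous_snd).prodMk
      (continuous_fst.comp continuous_fst))
  · exact LT_closed.preimage ((continuous_snd.comp continuous_snd).prodMk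
      (continuous_snd.comp continuous_fst))
  · exact (CC_closed n).preimage continuous_fst

/-! ## Members of `CC` -/

theorem cc_of {n : ℕ} {u v u' v' : FHat 2} (h : (u, v) ∈ CC n) (h1 : u = u') (h2 : v = v') :
    (u', v') ∈ CC n := by
  rw [← h1, ← h2]; exact h

theorem cc_t (n : ℕ) : (X ^ (n + 1), X) ∈ CC n := ⟨g0 n, ee_g0 n⟩

theorem cc_gy (n : ℕ) (j : ZMod (n + 1)) :
    (X ^ j.val * Y * (X ^ j.val)⁻¹, if j = 0 then Y else 1) ∈ CC n := ⟨gy j, ee_gy n j⟩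

theorem cc_s0 (n : ℕ) : (Y, Y) ∈ CC n := by
  refine cc_of (cc_gy n 0) ?_ (if_pos rfl)
  rw [ZMod.val_zero]
  group

theorem cc_s (n j : ℕ) (h0 : 0 < j) (h1 : j < n + 1) : (X ^ j * Y * (X ^ j)⁻¹, 1) ∈ CC n := by
  have hv : ((j : ℕ) : ZMod (n + 1)).val = j := ZMod.val_cast_of_lt h1
  have hne : ((j : ℕ) : ZMod (n + 1)) ≠ 0 := by
    intro e
    rw [e, ZMod.val_zero] at hv
    omega
  refine cc_of (cc_gy n (j : ZMod (n + 1))) ?_ (if_neg hne)
  rw [hv]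

theorem cc_a (n j : ℕ) (h0 : 0 < j) (h1 : j < n + 1) : ((X ^ j)⁻¹ * Y * X ^ j, 1) ∈ CC n := by
  have hs := cc_s n (n + 1 - j) (by omega) (by omega)
  refine cc_of (mul_mem (mul_mem (inv_mem (cc_t n)) hs) (cc_t n)) ?_ ?_
  · show (X ^ (n + 1))⁻¹ * (X ^ (n + 1 - j) * Y * (X ^ (n + 1 - j))⁻¹) * X ^ (n + 1) = _
    have e : (X : FHat 2) ^ (n + 1) = X ^ (n + 1 - j) * X ^ j := by
      rw [← pow_add]
      congr 1
      omega
    rw [e]
    generalize (X : FHat 2) ^ (n + 1 - j) = w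
    generalize (X : FHat 2) ^ j = v
    group
  · show X⁻¹ * 1 * X = (1 : FHat 2)
    group

theorem cc_P (n j : ℕ) (h1 : j < n + 1) : ((Y * X) ^ (j + 1) * (X ^ (j + 1))⁻¹, Y) ∈ CC n := by
  induction j with
  | zero =>
    refine cc_of (cc_s0 n) ?_ rfl
    rw [zero_add, pow_one, pow_one]
    group
  | succ j ih =>
    have hP := ih (by omega)
    have hs := cc_s n (j + 1) (by omega) h1
    refine cc_of (mul_mem hP hs) ?_ ?_
    · show (Y * X) ^ (j + 1) * (X ^ (j + 1))⁻¹ * (X ^ (j + 1) * Y * (X ^ (j + 1))⁻¹) =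
        (Y * X) ^ (j + 1 + 1) * (X ^ (j + 1 + 1))⁻¹
      rw [pow_succ (Y * X) (j + 1), pow_succ X (j + 1)]
      generalize (Y * X) ^ (j + 1) = w
      generalize (X : FHat 2) ^ (j + 1) = v
      group
    · show Y * 1 = (Y : FHat 2)
      group

theorem cc_b (n j : ℕ) (h0 : 0 < j) (h1 : j < n + 1) :
    ((Y * X) ^ j * Y * ((Y * X) ^ j)⁻¹, 1) ∈ CC n := by
  obtain ⟨i, rfl⟩ : ∃ i, j = i + 1 := ⟨j - 1, by omega⟩
  have hP := cc_P n i (by omega)
  have hs := cc_s n (i + 1) (by omega) h1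
  refine cc_of (mul_mem (mul_mem hP hs) (inv_mem hP)) ?_ ?_
  · show (Y * X) ^ (i + 1) * (X ^ (i + 1))⁻¹ * (X ^ (i + 1) * Y * (X ^ (i + 1))⁻¹) *
      ((Y * X) ^ (i + 1) * (X ^ (i + 1))⁻¹)⁻¹ = _
    generalize (Y * X) ^ (i + 1) = w
    generalize (X : FHat 2) ^ (i + 1) = v
    group
  · show Y * 1 * Y⁻¹ = (1 : FHat 2)
    group

theorem cc_c (n : ℕ) : ((X ^ (n + 1))⁻¹ * ((Y * X) ^ (n + 1))⁻¹, (X ^ 2)⁻¹ * Y⁻¹) ∈ CC n := by
  have h := inv_mem (mul_mem (cc_P n n (by omega)) (pow_mem (cc_t n) 2))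
  refine cc_of h ?_ ?_
  · show ((Y * X) ^ (n + 1) * (X ^ (n + 1))⁻¹ * (X ^ (n + 1)) ^ 2)⁻¹ = _
    rw [pow_two ((X : FHat 2) ^ (n + 1))]
    generalize (Y * X) ^ (n + 1) = w
    generalize (X : FHat 2) ^ (n + 1) = v
    group
  · show (Y * X ^ 2)⁻¹ = (X ^ 2)⁻¹ * (Y⁻¹ : FHat 2)
    rw [mul_inv_rev]

theorem cc_d (n : ℕ) : ((Y * X) ^ (n + 1) * Y * X ^ (n + 1), (Y * X) ^ 2) ∈ CC n := by
  have h := mul_mem (mul_mem (mul_mem (cc_P n n (by omega)) (cc_t n)) (cc_s0 n)) (cc_t n)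
  refine cc_of h ?_ ?_
  · show (Y * X) ^ (n + 1) * (X ^ (n + 1))⁻¹ * X ^ (n + 1) * Y * X ^ (n + 1) = _
    generalize (Y * X) ^ (n + 1) = w
    generalize (X : FHat 2) ^ (n + 1) = v
    group
  · show Y * X * Y * X = (Y * X : FHat 2) ^ 2
    rw [pow_two]
    group

/-! ## Members of `SS` -/

/-- The map whose image is the correspondence `RC`. -/
noncomputable def rr (n : ℕ) : FHat (n + 2) →* FHat 2 × FHat 2 :=
  (chebCov n).toMonoidHom.prod (chebFill n).toMonoidHom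

theorem rr_cont (n : ℕ) : Continuous (rr n) :=
  (chebCov n).continuous_toFun.prodMk (chebFill n).continuous_toFun

/-- The loop around `cos (π j / m)`. -/
noncomputable def rl (j : ℕ) (e : ℕ) : FHat 2 :=
  (Y * X) ^ (j / 2) * (if j % 2 = 0 then X else Y) ^ e * ((Y * X) ^ (j / 2))⁻¹

theorem rr_gen (n : ℕ) (j : Fin (n + 2)) : rr n (gen j) = (X, X) ∨
    (∃ i : ℕ, 0 < i ∧ i < n + 1 ∧ rr n (gen j) = (rl i 2, 1)) ∨
    rr n (gen j) = (rl (n + 1) 1, Y) := by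
  have h : rr n (gen j) = (chebLoop (n + 1) j,
      if (j : ℕ) = 0 then X else if (j : ℕ) = n + 1 then Y else 1) :=
    Prod.ext (ev_gen _ _) (ev_gen _ _)
  rw [h]
  obtain ⟨j, hj⟩ := j
  by_cases h0 : j = 0
  · left
    subst h0
    refine Prod.ext ?_ ?_
    · show chebLoop (n + 1) 0 = X
      unfold chebLoop
      simp
    · show (if (0 : ℕ) = 0 then X else if 0 = n + 1 then Y else (1 : FHat 2)) = X
      rw [if_pos rfl]
  · by_cases h1 : j = n + 1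
    · right
      right
      subst h1
      refine Prod.ext ?_ ?_
      · show chebLoop (n + 1) (n + 1) = rl (n + 1) 1
        unfold chebLoop rl
        have h2 : (n + 1 = 0 ∨ n + 1 = n + 1) := Or.inr rfl
        rw [if_pos h2]
      · show (if n + 1 = 0 then X else if n + 1 = n + 1 then Y else (1 : FHat 2)) = Y
        rw [if_neg (by omega), if_pos rfl]
    · right
      left
      refine ⟨j, by omega, by omega, Prod.ext ?_ ?_⟩
      · show chebLoop (n + 1) j = rl j 2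
        unfold chebLoop rl
        have h2 : ¬ (j = 0 ∨ j = n + 1) := by omega
        rw [if_neg h2]
      · show (if j = 0 then X else if j = n + 1 then Y else (1 : FHat 2)) = 1
        rw [if_neg h0, if_neg h1]

theorem ss_0 (n : ℕ) : ((X, X) : FHat 2 × FHat 2) * (X, X) ∈ SS n := by
  refine ⟨Y, Y, ?_, ?_, cc_s0 n⟩
  · exact lt_of lt_X2 (pow_two X) rfl
  · exact lt_of lt_X2 (pow_two X) rfl

theorem ss_a (n i : ℕ) (h0 : 0 < i) (h1 : i < n + 1) :
    ((rl i 2, 1) : FHat 2 × FHat 2) ∈ SS n :=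
  ⟨_, 1, lt_a i, one_mem _, cc_a n i h0 h1⟩

theorem ss_b (n i : ℕ) (h0 : 0 < i) (h1 : i < n + 1) :
    ((X, X) : FHat 2 × FHat 2) * (rl i 2, 1) * (X, X)⁻¹ ∈ SS n := by
  refine ⟨_, 1, lt_b i, ?_, cc_b n i h0 h1⟩
  refine lt_of (one_mem LT) ?_ rfl
  show (1 : FHat 2) = X * 1 * X⁻¹
  group

theorem ss_c (n : ℕ) : ((rl (n + 1) 1, Y) : FHat 2 × FHat 2) * (X, X)⁻¹ ∈ SS n := by
  refine ⟨_, (X ^ 2)⁻¹ * Y⁻¹, lt_c (n + 1), ?_, cc_c n⟩
  refine lt_of (mul_mem lt_YX (inv_mem lt_X2)) ?_ rfl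
  show Y * X * (X ^ 2)⁻¹ = Y * X⁻¹
  group

theorem ss_d (n : ℕ) : ((X, X) : FHat 2 × FHat 2) * (rl (n + 1) 1, Y) ∈ SS n :=
  ⟨_, (Y * X) ^ 2, lt_d (n + 1), lt_XY, cc_d n⟩

/-- The union of the two cosets. -/
def VV (n : ℕ) : Set (FHat 2 × FHat 2) := {z | z ∈ SS n ∨ ((X, X) : FHat 2 × FHat 2)⁻¹ * z ∈ SS n}

theorem VV_closed (n : ℕ) : IsClosed (VV n) :=
  IsClosed.union (SS_closed n) ((SS_closed n).preimage (continuous_const.mul continuous_id))

/-- Generic step: `g` in the subgroup together with its conjugate by `t`. -/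
theorem stepA {n : ℕ} {g z : FHat 2 × FHat 2} (h1 : g ∈ SS n)
    (h2 : (X, X) * g * (X, X)⁻¹ ∈ SS n) (h : z ∈ VV n) : g * z ∈ VV n := by
  have h3 : ((X, X) : FHat 2 × FHat 2)⁻¹ * g * (X, X) ∈ SS n := by
    have h4 := mul_mem (mul_mem (inv_mem (ss_0 n)) h2) (ss_0 n)
    have e : (((X, X) : FHat 2 × FHat 2) * (X, X))⁻¹ * ((X, X) * g * (X, X)⁻¹) *
        ((X, X) * (X, X)) = (X, X)⁻¹ * g * (X, X) := by
      generalize ((X, X) : FHat 2 × FHat 2) = t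
      group
    rwa [e] at h4
  rcases h with h | h
  · left
    exact mul_mem h1 h
  · right
    have e : ((X, X) : FHat 2 × FHat 2)⁻¹ * (g * z) = (X, X)⁻¹ * g * (X, X) * ((X, X)⁻¹ * z) := by
      generalize ((X, X) : FHat 2 × FHat 2) = t
      group
    rw [e]
    exact mul_mem h3 h

/-- Generic step: `g` in the other coset. -/
theorem stepB {n : ℕ} {g z : FHat 2 × FHat 2} (h1 : (X, X) * g ∈ SS n)
    (h2 : g * (X, X)⁻¹ ∈ SS n) (h : z ∈ VV n) : g * z ∈ VV n := by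
  rcases h with h | h
  · right
    have e : ((X, X) : FHat 2 × FHat 2)⁻¹ * (g * z) =
        ((X, X) * (X, X))⁻¹ * ((X, X) * g) * z := by
      generalize ((X, X) : FHat 2 × FHat 2) = t
      group
    rw [e]
    exact mul_mem (mul_mem (inv_mem (ss_0 n)) h1) h
  · left
    have e : g * z = g * (X, X)⁻¹ * ((X, X) * (X, X)) * ((X, X)⁻¹ * z) := by
      generalize ((X, X) : FHat 2 × FHat 2) = t
      group
    rw [e]
    exact mul_mem (mul_mem h2 (ss_0 n)) h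

theorem stepB' {n : ℕ} {g z : FHat 2 × FHat 2} (h1 : (X, X) * g ∈ SS n)
    (h2 : g * (X, X)⁻¹ ∈ SS n) (h : z ∈ VV n) : g⁻¹ * z ∈ VV n := by
  refine stepB ?_ ?_ h
  · have e : ((X, X) : FHat 2 × FHat 2) * g⁻¹ = (g * (X, X)⁻¹)⁻¹ := by
      generalize ((X, X) : FHat 2 × FHat 2) = t
      group
    rw [e]
    exact inv_mem h2
  · have e : g⁻¹ * ((X, X) : FHat 2 × FHat 2)⁻¹ = ((X, X) * g)⁻¹ := by
      generalize ((X, X) : FHat 2 × FHat 2) = t
      group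
    rw [e]
    exact inv_mem h1

theorem stepA' {n : ℕ} {g z : FHat 2 × FHat 2} (h1 : g ∈ SS n)
    (h2 : (X, X) * g * (X, X)⁻¹ ∈ SS n) (h : z ∈ VV n) : g⁻¹ * z ∈ VV n := by
  refine stepA (inv_mem h1) ?_ h
  have e : ((X, X) : FHat 2 × FHat 2) * g⁻¹ * (X, X)⁻¹ = ((X, X) * g * (X, X)⁻¹)⁻¹ := by
    generalize ((X, X) : FHat 2 × FHat 2) = t
    group
  rw [e]
  exact inv_mem h2

theorem gen_step (n : ℕ) (j : Fin (n + 2)) {z : FHat 2 × FHat 2} (h : z ∈ VV n) :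
    rr n (gen j) * z ∈ VV n ∧ (rr n (gen j))⁻¹ * z ∈ VV n := by
  rcases rr_gen n j with e | ⟨i, h0, h1, e⟩ | e
  · rw [e]
    have h2 : ((X, X) : FHat 2 × FHat 2) * (X, X)⁻¹ ∈ SS n := by
      rw [mul_inv_cancel]
      exact one_mem _
    exact ⟨stepB (ss_0 n) h2 h, stepB' (ss_0 n) h2 h⟩
  · rw [e]
    exact ⟨stepA (ss_a n i h0 h1) (ss_b n i h0 h1) h, stepA' (ss_a n i h0 h1) (ss_b n i h0 h1) h⟩
  · rw [e]
    exact ⟨stepB (ss_d n) (ss_c n) h, stepB' (ss_d n) (ss_c n) h⟩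

theorem step_word (n : ℕ) (g : FreeGroup (Fin (n + 2))) :
    ∀ z ∈ VV n, rr n (of g) * z ∈ VV n := by
  induction g using FreeGroup.induction_on with
  | C1 => intro z hz; rw [map_one, map_one, one_mul]; exact hz
  | of i =>
    intro z hz
    exact (gen_step n i hz).1
  | inv_of i _ =>
    intro z hz
    rw [map_inv, map_inv]
    exact (gen_step n i hz).2
  | mul a b ha hb =>
    intro z hz
    rw [map_mul, map_mul, mul_assoc]
    exact ha _ (hb _ hz)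

theorem rr_mem (n : ℕ) (k : FHat (n + 2)) : rr n k ∈ VV n := by
  refine hat_induction (S := {k | rr n k ∈ VV n}) ((VV_closed n).preimage (rr_cont n))
    (fun g => ?_) k
  have h := step_word n g 1 (Or.inl (one_mem _))
  rw [mul_one] at h
  exact h

theorem par_X : par X = Multiplicative.ofAdd (1 : ZMod 2) := evF_gen _ _

theorem par_Y : par Y = Multiplicative.ofAdd (1 : ZMod 2) := evF_gen _ _

theorem LT_par {u v : FHat 2} (h : (u, v) ∈ LT) : par u = 1 := by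
  obtain ⟨k, hk⟩ := h
  have h1 : ev ![X ^ 2, Y ^ 2, Y * X] k = u := congrArg Prod.fst hk
  have hx := par_X
  have hy := par_Y
  rw [← h1]
  unfold par at *
  rw [evF_ev]
  have e : (fun i : Fin 3 => evF (fun _ : Fin 2 => Multiplicative.ofAdd (1 : ZMod 2))
      ((![X ^ 2, Y ^ 2, Y * X] : Fin 3 → FHat 2) i)) = fun _ => 1 := by
    funext i
    fin_cases i
    · show evF (fun _ : Fin 2 => Multiplicative.ofAdd (1 : ZMod 2)) (X ^ 2) = 1
      rw [map_pow, hx]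
      rfl
    · show evF (fun _ : Fin 2 => Multiplicative.ofAdd (1 : ZMod 2)) (Y ^ 2) = 1
      rw [map_pow, hy]
      rfl
    · show evF (fun _ : Fin 2 => Multiplicative.ofAdd (1 : ZMod 2)) (Y * X) = 1
      rw [map_mul, hx, hy]
      rfl
  rw [e]
  have h := evF_map (1 : Multiplicative (ZMod 2) →* Multiplicative (ZMod 2))
    (fun _ : Fin 3 => (1 : Multiplicative (ZMod 2))) k
  exact h.symm

/-- Row MATCH1. -/
theorem stMatch1_32 : StMatch1 := by
  intro n u v hRC hpar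
  obtain ⟨k, hk⟩ := hRC
  have hk' : rr n k = (u, v) := hk
  have h := rr_mem n k
  rw [hk'] at h
  rcases h with h | h
  · exact h
  · exfalso
    obtain ⟨u', v', h1, -, -⟩ := h
    have h3 : (X⁻¹ * u, u') ∈ LT := h1
    have h4 := LT_par h3
    rw [map_mul, map_inv, hpar, mul_one, par_X, inv_eq_one] at h4
    exact absurd h4 (by decide)

end MPb66790.HK24.Mat1_32
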