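import Pool.Agent.Lib.MP_b66790_nt.Hecke.Cheb24

/-!
# Row MATCH2: from `z ^ (n + 1)` to the Chebyshev polynomial
-/

namespace MPb66790.HK24.Mat2_32

open MPb66790 MPb66790.CY24 MPb66790.HK24 Function

theorem closed_range {k a b : ℕ} (φ : FHat k →ₜ* FHat a) (ψ : FHat k →ₜ* FHat b) :
    IsClosed ((φ.toMonoidHom.prod ψ.toMonoidHom).range : Set (FHat a × FHat b)) := by
  have h : ((φ.toMonoidHom.prod ψ.toMonoidHom).range : Set (FHat a × FHat b)) =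
      Set.range (fun x => ((φ x, ψ x) : FHat a × FHat b)) := rfl
  rw [h]
  exact (isCompact_range (φ.continuous_toFun.prodMk ψ.continuous_toFun)).isClosed

theorem LT_closed : IsClosed (LT : Set (FHat 2 × FHat 2)) := closed_range _ _

theorem RC_closed (n : ℕ) : IsClosed (RC n : Set (FHat 2 × FHat 2)) := closed_range _ _

/-- The pairs that come from the correspondence of the Chebyshev polynomial. -/
noncomputable def TT (n : ℕ) : Subgroup (FHat 2 × FHat 2) where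
  carrier := {p | ∃ u v, (u, p.1) ∈ LT ∧ (v, p.2) ∈ LT ∧ (u, v) ∈ RC n}
  one_mem' := ⟨1, 1, one_mem _, one_mem _, one_mem _⟩
  mul_mem' := by
    rintro p q ⟨u, v, h1, h2, h3⟩ ⟨u', v', h1', h2', h3'⟩
    exact ⟨u * u', v * v', mul_mem h1 h1', mul_mem h2 h2', mul_mem h3 h3'⟩
  inv_mem' := by
    rintro p ⟨u, v, h1, h2, h3⟩
    exact ⟨u⁻¹, v⁻¹, inv_mem h1, inv_mem h2, inv_mem h3⟩

theorem TT_closed (n : ℕ) : IsClosed (TT n : Set (FHat 2 × FHat 2)) := by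
  have h : (TT n : Set (FHat 2 × FHat 2)) = Prod.snd ''
      {q : (FHat 2 × FHat 2) × (FHat 2 × FHat 2) | (q.1.1, q.2.1) ∈ LT ∧ (q.1.2, q.2.2) ∈ LT ∧
        q.1 ∈ RC n} := by
    ext p
    constructor
    · rintro ⟨u, v, h1, h2, h3⟩
      exact ⟨((u, v), p), ⟨h1, h2, h3⟩, rfl⟩
    · rintro ⟨⟨⟨u, v⟩, p'⟩, ⟨h1, h2, h3⟩, rfl⟩
      exact ⟨u, v, h1, h2, h3⟩
  rw [h]
  refine (IsClosed.isCompact ?_).image continuous_snd |>.isClosed
  refine IsClosed.inter ?_ (IsClosed.inter ?_ ?_)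
  · exact LT_closed.preimage ((continuous_fst.comp continuous_fst).prodMk
      (continuous_fst.comp continuous_snd))
  · exact LT_closed.preimage ((continuous_snd.comp continuous_fst).prodMk
      (continuous_snd.comp continuous_snd))
  · exact (RC_closed n).preimage continuous_fst

/-! ## The Landen correspondence -/

theorem lt_X2 : (X ^ 2, Y) ∈ LT :=
  ⟨gen 0, Prod.ext (ev_gen _ _) (ev_gen _ _)⟩

theorem lt_Y2 : (Y ^ 2, X⁻¹ * Y * X) ∈ LT :=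
  ⟨gen 1, Prod.ext (ev_gen _ _) (ev_gen _ _)⟩

theorem lt_YX : (Y * X, (X ^ 2)⁻¹) ∈ LT :=
  ⟨gen 2, Prod.ext (ev_gen _ _) (ev_gen _ _)⟩

theorem lt_XY : (X * Y, (Y * X) ^ 2) ∈ LT := by
  have h := mul_mem (mul_mem lt_X2 (inv_mem lt_YX)) lt_Y2
  have e : (X ^ 2, Y) * (Y * X, (X ^ 2)⁻¹)⁻¹ * (Y ^ 2, X⁻¹ * Y * X) =
      ((X * Y, (Y * X) ^ 2) : FHat 2 × FHat 2) := by
    refine Prod.ext ?_ ?_
    · show X ^ 2 * (Y * X)⁻¹ * Y ^ 2 = X * Y
      group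
    · show Y * ((X ^ 2)⁻¹)⁻¹ * (X⁻¹ * Y * X) = (Y * X) ^ 2
      rw [pow_two (Y * X)]
      group
  rwa [e] at h

theorem lt_pYX (k : ℕ) : ((Y * X) ^ k, (X ^ (2 * k))⁻¹) ∈ LT := by
  have h := pow_mem lt_YX k
  have e : ((Y * X, (X ^ 2)⁻¹) : FHat 2 × FHat 2) ^ k = ((Y * X) ^ k, (X ^ (2 * k))⁻¹) := by
    refine Prod.ext rfl ?_
    show ((X ^ 2)⁻¹) ^ k = (X ^ (2 * k))⁻¹
    rw [inv_pow, pow_mul]
  rwa [e] at h

theorem lt_pXY (k : ℕ) : ((X * Y) ^ k, (Y * X) ^ (2 * k)) ∈ LT := by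
  have h := pow_mem lt_XY k
  have e : ((X * Y, (Y * X) ^ 2) : FHat 2 × FHat 2) ^ k = ((X * Y) ^ k, (Y * X) ^ (2 * k)) := by
    refine Prod.ext rfl ?_
    show ((Y * X) ^ 2) ^ k = (Y * X) ^ (2 * k)
    rw [pow_mul]
  rwa [e] at h

theorem shiftX (k : ℕ) : X * (Y * X) ^ k = (X * Y) ^ k * X := by
  induction k with
  | zero => simp
  | succ k ih =>
    rw [pow_succ, ← mul_assoc, ih, pow_succ]
    group

/-- Members of `LT`, with an equation. -/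
theorem lt_of {u v u' v' : FHat 2} (h : (u, v) ∈ LT) (h1 : u = u') (h2 : v = v') :
    (u', v') ∈ LT := by
  rw [← h1, ← h2]; exact h

/-- The image of the loops `r_j ^ 2`. -/
theorem lt_a (j : ℕ) : ((Y * X) ^ (j / 2) * (if j % 2 = 0 then X else Y) ^ 2 *
    ((Y * X) ^ (j / 2))⁻¹, (X ^ j)⁻¹ * Y * X ^ j) ∈ LT := by
  rcases Nat.even_or_odd' j with ⟨k, rfl | rfl⟩
  · have e1 : 2 * k / 2 = k := by omega
    have e2 : 2 * k % 2 = 0 := by omega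
    rw [e1, if_pos e2]
    refine lt_of (mul_mem (mul_mem (lt_pYX k) lt_X2) (inv_mem (lt_pYX k))) rfl ?_
    show (X ^ (2 * k))⁻¹ * Y * ((X ^ (2 * k))⁻¹)⁻¹ = _
    rw [inv_inv]
  · have e1 : (2 * k + 1) / 2 = k := by omega
    have e2 : ¬ (2 * k + 1) % 2 = 0 := by omega
    rw [e1, if_neg e2]
    refine lt_of (mul_mem (mul_mem (lt_pYX k) lt_Y2) (inv_mem (lt_pYX k))) rfl ?_
    show (X ^ (2 * k))⁻¹ * (X⁻¹ * Y * X) * ((X ^ (2 * k))⁻¹)⁻¹ = _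
    rw [inv_inv, pow_succ']
    have e3 : X * X ^ (2 * k) = X ^ (2 * k) * X := by rw [← pow_succ', ← pow_succ]
    rw [mul_inv_rev]
    group

/-- The image of the loops `x r_j ^ 2 x ^ (-1)`. -/
theorem lt_b (j : ℕ) : (X * ((Y * X) ^ (j / 2) * (if j % 2 = 0 then X else Y) ^ 2 *
    ((Y * X) ^ (j / 2))⁻¹) * X⁻¹, (Y * X) ^ j * Y * ((Y * X) ^ j)⁻¹) ∈ LT := by
  rcases Nat.even_or_odd' j with ⟨k, rfl | rfl⟩
  · have e1 : 2 * k / 2 = k := by omega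
    have e2 : 2 * k % 2 = 0 := by omega
    rw [e1, if_pos e2]
    refine lt_of (mul_mem (mul_mem (lt_pXY k) lt_X2) (inv_mem (lt_pXY k))) ?_ rfl
    show (X * Y) ^ k * X ^ 2 * ((X * Y) ^ k)⁻¹ = X * ((Y * X) ^ k * X ^ 2 * ((Y * X) ^ k)⁻¹) * X⁻¹
    have h : (Y * X) ^ k = X⁻¹ * ((X * Y) ^ k * X) := by rw [← shiftX, inv_mul_cancel_left]
    rw [h]
    generalize (X * Y) ^ k = w
    group
  · have e1 : (2 * k + 1) / 2 = k := by omega
    have e2 : ¬ (2 * k + 1) % 2 = 0 := by omega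
    rw [e1, if_neg e2]
    refine lt_of (mul_mem (mul_mem (lt_pXY k) (mul_mem (mul_mem lt_XY lt_YX) (inv_mem lt_X2)))
      (inv_mem (lt_pXY k))) ?_ ?_
    · show (X * Y) ^ k * (X * Y * (Y * X) * (X ^ 2)⁻¹) * ((X * Y) ^ k)⁻¹ =
        X * ((Y * X) ^ k * Y ^ 2 * ((Y * X) ^ k)⁻¹) * X⁻¹
      have h : (Y * X) ^ k = X⁻¹ * ((X * Y) ^ k * X) := by rw [← shiftX, inv_mul_cancel_left]
      rw [h, pow_two Y]
      generalize (X * Y) ^ k = w
      group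
    · show (Y * X) ^ (2 * k) * ((Y * X) ^ 2 * (X ^ 2)⁻¹ * Y⁻¹) * ((Y * X) ^ (2 * k))⁻¹ =
        (Y * X) ^ (2 * k + 1) * Y * ((Y * X) ^ (2 * k + 1))⁻¹
      rw [pow_succ (Y * X) (2 * k), pow_two (Y * X)]
      generalize (Y * X) ^ (2 * k) = w
      group

/-- The image of `r_m x ^ (-1)`. -/
theorem lt_c (j : ℕ) : ((Y * X) ^ (j / 2) * (if j % 2 = 0 then X else Y) ^ 1 *
    ((Y * X) ^ (j / 2))⁻¹ * X⁻¹, (X ^ j)⁻¹ * ((Y * X) ^ j)⁻¹) ∈ LT := by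
  rcases Nat.even_or_odd' j with ⟨k, rfl | rfl⟩
  · have e1 : 2 * k / 2 = k := by omega
    have e2 : 2 * k % 2 = 0 := by omega
    rw [e1, if_pos e2]
    refine lt_of (mul_mem (lt_pYX k) (inv_mem (lt_pXY k))) ?_ rfl
    show (Y * X) ^ k * ((X * Y) ^ k)⁻¹ = (Y * X) ^ k * X ^ 1 * ((Y * X) ^ k)⁻¹ * X⁻¹
    have h : (X * Y) ^ k = X * (Y * X) ^ k * X⁻¹ := by rw [shiftX, mul_inv_cancel_right]
    rw [h]
    generalize (Y * X) ^ k = w
    group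
  · have e1 : (2 * k + 1) / 2 = k := by omega
    have e2 : ¬ (2 * k + 1) % 2 = 0 := by omega
    rw [e1, if_neg e2]
    refine lt_of (mul_mem (mul_mem (lt_pYX k) (mul_mem lt_YX (inv_mem lt_X2)))
      (inv_mem (lt_pXY k))) ?_ ?_
    · show (Y * X) ^ k * (Y * X * (X ^ 2)⁻¹) * ((X * Y) ^ k)⁻¹ =
        (Y * X) ^ k * Y ^ 1 * ((Y * X) ^ k)⁻¹ * X⁻¹
      have h : (X * Y) ^ k = X * (Y * X) ^ k * X⁻¹ := by rw [shiftX, mul_inv_cancel_right]
      rw [h]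
      generalize (Y * X) ^ k = w
      group
    · show (X ^ (2 * k))⁻¹ * ((X ^ 2)⁻¹ * Y⁻¹) * ((Y * X) ^ (2 * k))⁻¹ =
        (X ^ (2 * k + 1))⁻¹ * ((Y * X) ^ (2 * k + 1))⁻¹
      rw [pow_succ' (Y * X) (2 * k), pow_succ' X (2 * k)]
      have e3 : X * X ^ (2 * k) = X ^ (2 * k) * X := by rw [← pow_succ', ← pow_succ]
      have e4 : (Y * X) * (Y * X) ^ (2 * k) = (Y * X) ^ (2 * k) * (Y * X) := by
        rw [← pow_succ', ← pow_succ]
      rw [e4, e3]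
      have e5 : ∀ a b : FHat 2, a⁻¹ * ((X ^ 2)⁻¹ * Y⁻¹) * b⁻¹ = a⁻¹ * X⁻¹ * ((Y * X)⁻¹ * b⁻¹) := by
        intro a b
        group
      rw [e5, ← mul_inv_rev, ← mul_inv_rev, ← e3]

/-- The image of `x r_m`. -/
theorem lt_d (j : ℕ) : (X * ((Y * X) ^ (j / 2) * (if j % 2 = 0 then X else Y) ^ 1 *
    ((Y * X) ^ (j / 2))⁻¹), (Y * X) ^ j * Y * X ^ j) ∈ LT := by
  rcases Nat.even_or_odd' j with ⟨k, rfl | rfl⟩
  · have e1 : 2 * k / 2 = k := by omega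
    have e2 : 2 * k % 2 = 0 := by omega
    rw [e1, if_pos e2]
    refine lt_of (mul_mem (mul_mem (lt_pXY k) lt_X2) (inv_mem (lt_pYX k))) ?_ ?_
    · show (X * Y) ^ k * X ^ 2 * ((Y * X) ^ k)⁻¹ = X * ((Y * X) ^ k * X ^ 1 * ((Y * X) ^ k)⁻¹)
      have h : (X * Y) ^ k = X * (Y * X) ^ k * X⁻¹ := by rw [shiftX, mul_inv_cancel_right]
      rw [h]
      generalize (Y * X) ^ k = w
      group
    · show (Y * X) ^ (2 * k) * Y * ((X ^ (2 * k))⁻¹)⁻¹ = _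
      rw [inv_inv]
  · have e1 : (2 * k + 1) / 2 = k := by omega
    have e2 : ¬ (2 * k + 1) % 2 = 0 := by omega
    rw [e1, if_neg e2]
    refine lt_of (mul_mem (mul_mem (lt_pXY k) lt_XY) (inv_mem (lt_pYX k))) ?_ ?_
    · show (X * Y) ^ k * (X * Y) * ((Y * X) ^ k)⁻¹ = X * ((Y * X) ^ k * Y ^ 1 * ((Y * X) ^ k)⁻¹)
      have h : (X * Y) ^ k = X * (Y * X) ^ k * X⁻¹ := by rw [shiftX, mul_inv_cancel_right]
      rw [h]
      generalize (Y * X) ^ k = w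
      group
    · show (Y * X) ^ (2 * k) * (Y * X) ^ 2 * ((X ^ (2 * k))⁻¹)⁻¹ =
        (Y * X) ^ (2 * k + 1) * Y * X ^ (2 * k + 1)
      rw [inv_inv, pow_succ (Y * X) (2 * k), pow_two (Y * X), pow_succ' X (2 * k)]
      generalize (Y * X) ^ (2 * k) = w
      generalize X ^ (2 * k) = v
      group

/-! ## The loops of the Chebyshev polynomial -/

theorem rc_gen (n : ℕ) (j : Fin (n + 2)) : (chebLoop (n + 1) j,
    if (j : ℕ) = 0 then X else if (j : ℕ) = n + 1 then Y else 1) ∈ RC n :=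
  ⟨gen j, Prod.ext (ev_gen _ _) (ev_gen _ _)⟩

theorem rc_zero (n : ℕ) : (X, X) ∈ RC n := by
  have h := rc_gen n 0
  have e : chebLoop (n + 1) ((0 : Fin (n + 2)) : ℕ) = X := by
    unfold chebLoop
    simp
  rw [e] at h
  simpa using h

theorem rc_mid (n j : ℕ) (h0 : 0 < j) (h1 : j < n + 1) : ((Y * X) ^ (j / 2) *
    (if j % 2 = 0 then X else Y) ^ 2 * ((Y * X) ^ (j / 2))⁻¹, 1) ∈ RC n := by
  have h := rc_gen n ⟨j, by omega⟩
  have e : chebLoop (n + 1) j = (Y * X) ^ (j / 2) *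
    (if j % 2 = 0 then X else Y) ^ 2 * ((Y * X) ^ (j / 2))⁻¹ := by
    unfold chebLoop
    have h2 : ¬ (j = 0 ∨ j = n + 1) := by omega
    rw [if_neg h2]
  rw [← e]
  have e2 : (if j = 0 then X else if j = n + 1 then Y else (1 : FHat 2)) = 1 := by
    rw [if_neg (by omega), if_neg (by omega)]
  rw [← e2]
  exact h

theorem rc_last (n : ℕ) : ((Y * X) ^ ((n + 1) / 2) *
    (if (n + 1) % 2 = 0 then X else Y) ^ 1 * ((Y * X) ^ ((n + 1) / 2))⁻¹, Y) ∈ RC n := by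
  have h := rc_gen n ⟨n + 1, by omega⟩
  have e : chebLoop (n + 1) (n + 1) = (Y * X) ^ ((n + 1) / 2) *
    (if (n + 1) % 2 = 0 then X else Y) ^ 1 * ((Y * X) ^ ((n + 1) / 2))⁻¹ := by
    unfold chebLoop
    have h2 : (n + 1 = 0 ∨ n + 1 = n + 1) := Or.inr rfl
    rw [if_pos h2]
  rw [← e]
  have e2 : (if n + 1 = 0 then X else if n + 1 = n + 1 then Y else (1 : FHat 2)) = Y := by
    rw [if_neg (by omega), if_pos rfl]
  rw [← e2]
  exact h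

/-! ## Members of `TT` -/

theorem tt_s0 (n : ℕ) : (Y, Y) ∈ TT n :=
  ⟨X ^ 2, X ^ 2, lt_X2, lt_X2, pow_mem (rc_zero n) 2⟩

theorem tt_a (n j : ℕ) (h0 : 0 < j) (h1 : j < n + 1) : ((X ^ j)⁻¹ * Y * X ^ j, 1) ∈ TT n :=
  ⟨_, 1, lt_a j, one_mem _, rc_mid n j h0 h1⟩

theorem tt_b (n j : ℕ) (h0 : 0 < j) (h1 : j < n + 1) :
    ((Y * X) ^ j * Y * ((Y * X) ^ j)⁻¹, 1) ∈ TT n := by
  refine ⟨_, 1, lt_b j, one_mem _, ?_⟩
  have h := mul_mem (mul_mem (rc_zero n) (rc_mid n j h0 h1)) (inv_mem (rc_zero n))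
  have e : (X : FHat 2) * 1 * X⁻¹ = 1 := by group
  rw [← e]
  exact h

theorem tt_c (n : ℕ) : ((X ^ (n + 1))⁻¹ * ((Y * X) ^ (n + 1))⁻¹, (X ^ 2)⁻¹ * Y⁻¹) ∈ TT n := by
  refine ⟨_, Y * X * (X ^ 2)⁻¹, lt_c (n + 1), mul_mem lt_YX (inv_mem lt_X2), ?_⟩
  have h := mul_mem (rc_last n) (inv_mem (rc_zero n))
  have e : (Y : FHat 2) * X * (X ^ 2)⁻¹ = Y * X⁻¹ := by group
  rw [e]
  exact h

theorem tt_d (n : ℕ) : ((Y * X) ^ (n + 1) * Y * X ^ (n + 1), (Y * X) ^ 2) ∈ TT n :=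
  ⟨_, X * Y, lt_d (n + 1), lt_XY, mul_mem (rc_zero n) (rc_last n)⟩

theorem tt_of {n : ℕ} {u v u' v' : FHat 2} (h : (u, v) ∈ TT n) (h1 : u = u') (h2 : v = v') :
    (u', v') ∈ TT n := by
  rw [← h1, ← h2]; exact h

theorem tt_P (n j : ℕ) (h1 : j < n + 1) : ((Y * X) ^ (j + 1) * (X ^ (j + 1))⁻¹, Y) ∈ TT n := by
  induction j with
  | zero =>
    refine tt_of (tt_s0 n) ?_ rfl
    rw [zero_add, pow_one, pow_one]
    group
  | succ j ih =>
    have hP := ih (by omega)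
    have hb := tt_b n (j + 1) (by omega) h1
    have h := mul_mem hP (mul_mem (mul_mem (inv_mem hP) hb) hP)
    refine tt_of h ?_ ?_
    · show (Y * X) ^ (j + 1) * (X ^ (j + 1))⁻¹ * (((Y * X) ^ (j + 1) * (X ^ (j + 1))⁻¹)⁻¹ *
        ((Y * X) ^ (j + 1) * Y * ((Y * X) ^ (j + 1))⁻¹) *
        ((Y * X) ^ (j + 1) * (X ^ (j + 1))⁻¹)) = (Y * X) ^ (j + 1 + 1) * (X ^ (j + 1 + 1))⁻¹
      rw [pow_succ (Y * X) (j + 1), pow_succ X (j + 1)]
      generalize (Y * X) ^ (j + 1) = w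
      generalize (X : FHat 2) ^ (j + 1) = v
      group
    · show Y * (Y⁻¹ * 1 * Y) = (Y : FHat 2)
      group

theorem tt_s (n j : ℕ) (h0 : 0 < j) (h1 : j < n + 1) : (X ^ j * Y * (X ^ j)⁻¹, 1) ∈ TT n := by
  obtain ⟨i, rfl⟩ : ∃ i, j = i + 1 := ⟨j - 1, by omega⟩
  have hP := tt_P n i (by omega)
  have hb := tt_b n (i + 1) (by omega) h1
  refine tt_of (mul_mem (mul_mem (inv_mem hP) hb) hP) ?_ ?_
  · show ((Y * X) ^ (i + 1) * (X ^ (i + 1))⁻¹)⁻¹ *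
        ((Y * X) ^ (i + 1) * Y * ((Y * X) ^ (i + 1))⁻¹) *
        ((Y * X) ^ (i + 1) * (X ^ (i + 1))⁻¹) = _
    generalize (Y * X) ^ (i + 1) = w
    generalize (X : FHat 2) ^ (i + 1) = v
    group
  · show Y⁻¹ * 1 * Y = (1 : FHat 2)
    group

theorem tt_t2 (n : ℕ) : ((X ^ (n + 1)) ^ 2, X ^ 2) ∈ TT n := by
  have h := mul_mem (inv_mem (tt_P n n (by omega))) (inv_mem (tt_c n))
  refine tt_of h ?_ ?_
  · show ((Y * X) ^ (n + 1) * (X ^ (n + 1))⁻¹)⁻¹ *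
      ((X ^ (n + 1))⁻¹ * ((Y * X) ^ (n + 1))⁻¹)⁻¹ = (X ^ (n + 1)) ^ 2
    rw [pow_two ((X : FHat 2) ^ (n + 1))]
    generalize (Y * X) ^ (n + 1) = w
    generalize (X : FHat 2) ^ (n + 1) = v
    group
  · show Y⁻¹ * ((X ^ 2)⁻¹ * Y⁻¹)⁻¹ = (X : FHat 2) ^ 2
    group

/-- `t s_j t ^ (-1)`. -/
theorem tt_ts (n j : ℕ) (h0 : 0 < j) (h1 : j < n + 1) :
    (X ^ (n + 1) * (X ^ j * Y * (X ^ j)⁻¹) * (X ^ (n + 1))⁻¹, 1) ∈ TT n := by
  have ha := tt_a n (n + 1 - j) (by omega) (by omega)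
  refine tt_of (mul_mem (mul_mem (tt_t2 n) ha) (inv_mem (tt_t2 n))) ?_ ?_
  · show (X ^ (n + 1)) ^ 2 * ((X ^ (n + 1 - j))⁻¹ * Y * X ^ (n + 1 - j)) *
      ((X ^ (n + 1)) ^ 2)⁻¹ = _
    have e : (X : FHat 2) ^ (n + 1) = X ^ j * X ^ (n + 1 - j) := by
      rw [← pow_add]
      congr 1
      omega
    have e2 : (X : FHat 2) ^ j * X ^ (n + 1 - j) = X ^ (n + 1 - j) * X ^ j := by
      rw [← pow_add, ← pow_add, add_comm]
    have e3 : (X : FHat 2) ^ j = X ^ (n + 1) * (X ^ (n + 1 - j))⁻¹ := by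
      rw [e, mul_inv_cancel_right]
    have e4 : (X : FHat 2) ^ (n + 1) * (X ^ (n + 1 - j))⁻¹ =
        (X ^ (n + 1 - j))⁻¹ * X ^ (n + 1) := by
      rw [← e3, e, e2, inv_mul_cancel_left]
    rw [e3]
    generalize (X : FHat 2) ^ (n + 1) = v at *
    generalize (X : FHat 2) ^ (n + 1 - j) = w at *
    rw [pow_two]
    group
  · show X ^ 2 * 1 * (X ^ 2)⁻¹ = (1 : FHat 2)
    group

theorem tt_ts0 (n : ℕ) : (X ^ (n + 1) * Y * (X ^ (n + 1))⁻¹, X * Y * X⁻¹) ∈ TT n := by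
  have h := mul_mem (mul_mem (inv_mem (tt_P n n (by omega))) (tt_d n)) (inv_mem (tt_t2 n))
  refine tt_of h ?_ ?_
  · show ((Y * X) ^ (n + 1) * (X ^ (n + 1))⁻¹)⁻¹ * ((Y * X) ^ (n + 1) * Y * X ^ (n + 1)) *
      ((X ^ (n + 1)) ^ 2)⁻¹ = _
    generalize (Y * X) ^ (n + 1) = w
    generalize (X : FHat 2) ^ (n + 1) = v
    group
  · show Y⁻¹ * (Y * X) ^ 2 * (X ^ 2)⁻¹ = (X * Y * X⁻¹ : FHat 2)
    rw [pow_two (Y * X)]
    group

/-! ## The cyclic correspondence -/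

/-- The map whose image is the correspondence `CC`. -/
noncomputable def ee (n : ℕ) : FHat (n + 2) →* FHat 2 × FHat 2 :=
  (covMap n).toMonoidHom.prod (ev (fillTwo n 0) : FHat (n + 2) →ₜ* FHat 2).toMonoidHom

theorem ee_cont (n : ℕ) : Continuous (ee n) :=
  (covMap n).continuous_toFun.prodMk (ev (fillTwo n 0) : FHat (n + 2) →ₜ* FHat 2).continuous_toFun

theorem ee_g0 (n : ℕ) : ee n (g0 n) = (X ^ (n + 1), X) :=
  Prod.ext cov_g0 (ev_g0 _ _)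

theorem ee_gy (n : ℕ) (j : ZMod (n + 1)) : ee n (gy j) =
    (X ^ j.val * Y * (X ^ j.val)⁻¹, if j = 0 then Y else 1) := by
  refine Prod.ext (cov_gy j) ?_
  show ev (fillTwo n 0) (gy j) = _
  unfold fillTwo
  rw [ev_gy]
  split_ifs <;> rfl

theorem gy_mem (n : ℕ) (j : ZMod (n + 1)) : ee n (gy j) ∈ TT n := by
  rw [ee_gy]
  by_cases h : j = 0
  · subst h
    rw [if_pos rfl]
    refine tt_of (tt_s0 n) ?_ rfl
    rw [ZMod.val_zero]
    group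
  · rw [if_neg h]
    exact tt_s n j.val (Nat.pos_of_ne_zero fun e => h ((ZMod.val_eq_zero j).1 e)) (ZMod.val_lt j)

theorem tgy_mem (n : ℕ) (j : ZMod (n + 1)) :
    ee n (g0 n) * ee n (gy j) * (ee n (g0 n))⁻¹ ∈ TT n := by
  rw [ee_gy, ee_g0]
  by_cases h : j = 0
  · subst h
    rw [if_pos rfl]
    refine tt_of (tt_ts0 n) ?_ rfl
    show _ = X ^ (n + 1) * (X ^ (0 : ZMod (n + 1)).val * Y * (X ^ (0 : ZMod (n + 1)).val)⁻¹) *
      (X ^ (n + 1))⁻¹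
    rw [ZMod.val_zero]
    group
  · rw [if_neg h]
    refine tt_of (tt_ts n j.val (Nat.pos_of_ne_zero fun e => h ((ZMod.val_eq_zero j).1 e))
      (ZMod.val_lt j)) rfl ?_
    show (1 : FHat 2) = X * 1 * X⁻¹
    group

theorem g0_sq (n : ℕ) : ee n (g0 n) * ee n (g0 n) ∈ TT n := by
  rw [ee_g0]
  refine tt_of (tt_t2 n) ?_ ?_
  · rw [pow_two]
  · rw [pow_two]

theorem gyt_mem (n : ℕ) (j : ZMod (n + 1)) :
    (ee n (g0 n))⁻¹ * ee n (gy j) * ee n (g0 n) ∈ TT n := by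
  have h := mul_mem (mul_mem (inv_mem (g0_sq n)) (tgy_mem n j)) (g0_sq n)
  have e : (ee n (g0 n) * ee n (g0 n))⁻¹ *
      (ee n (g0 n) * ee n (gy j) * (ee n (g0 n))⁻¹) * (ee n (g0 n) * ee n (g0 n)) =
      (ee n (g0 n))⁻¹ * ee n (gy j) * ee n (g0 n) := by group
  rwa [e] at h

/-- The union of the two cosets. -/
def UU (n : ℕ) : Set (FHat 2 × FHat 2) := {z | z ∈ TT n ∨ (ee n (g0 n))⁻¹ * z ∈ TT n}

theorem UU_closed (n : ℕ) : IsClosed (UU n) :=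
  IsClosed.union (TT_closed n) ((TT_closed n).preimage (continuous_const.mul continuous_id))

theorem step_t {n : ℕ} {z : FHat 2 × FHat 2} (h : z ∈ UU n) : ee n (g0 n) * z ∈ UU n := by
  rcases h with h | h
  · right
    rw [inv_mul_cancel_left]
    exact h
  · left
    have e : ee n (g0 n) * z = ee n (g0 n) * ee n (g0 n) * ((ee n (g0 n))⁻¹ * z) := by group
    rw [e]
    exact mul_mem (g0_sq n) h

theorem step_ti {n : ℕ} {z : FHat 2 × FHat 2} (h : z ∈ UU n) : (ee n (g0 n))⁻¹ * z ∈ UU n := by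
  rcases h with h | h
  · right
    have e : (ee n (g0 n))⁻¹ * ((ee n (g0 n))⁻¹ * z) = (ee n (g0 n) * ee n (g0 n))⁻¹ * z := by
      group
    rw [e]
    exact mul_mem (inv_mem (g0_sq n)) h
  · left
    exact h

theorem step_s {n : ℕ} {z : FHat 2 × FHat 2} (j : ZMod (n + 1)) (h : z ∈ UU n) :
    ee n (gy j) * z ∈ UU n := by
  rcases h with h | h
  · left
    exact mul_mem (gy_mem n j) h
  · right
    have e : (ee n (g0 n))⁻¹ * (ee n (gy j) * z) =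
        (ee n (g0 n))⁻¹ * ee n (gy j) * ee n (g0 n) * ((ee n (g0 n))⁻¹ * z) := by group
    rw [e]
    exact mul_mem (gyt_mem n j) h

theorem step_si {n : ℕ} {z : FHat 2 × FHat 2} (j : ZMod (n + 1)) (h : z ∈ UU n) :
    (ee n (gy j))⁻¹ * z ∈ UU n := by
  rcases h with h | h
  · left
    exact mul_mem (inv_mem (gy_mem n j)) h
  · right
    have e : (ee n (g0 n))⁻¹ * ((ee n (gy j))⁻¹ * z) =
        ((ee n (g0 n))⁻¹ * ee n (gy j) * ee n (g0 n))⁻¹ * ((ee n (g0 n))⁻¹ * z) := by group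
    rw [e]
    exact mul_mem (inv_mem (gyt_mem n j)) h

theorem step_word (n : ℕ) (g : FreeGroup (Fin (n + 2))) :
    ∀ z ∈ UU n, ee n (of g) * z ∈ UU n := by
  induction g using FreeGroup.induction_on with
  | C1 => intro z hz; rw [map_one, map_one, one_mul]; exact hz
  | of i =>
    intro z hz
    rcases gen_eq i with e | ⟨j, e⟩
    · have e' : (of (FreeGroup.of i) : FHat (n + 2)) = g0 n := e
      rw [e']; exact step_t hz
    · have e' : (of (FreeGroup.of i) : FHat (n + 2)) = gy j := e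
      rw [e']; exact step_s j hz
  | inv_of i _ =>
    intro z hz
    rcases gen_eq i with e | ⟨j, e⟩
    · have e' : (of (FreeGroup.of i) : FHat (n + 2)) = g0 n := e
      rw [map_inv, map_inv, e']; exact step_ti hz
    · have e' : (of (FreeGroup.of i) : FHat (n + 2)) = gy j := e
      rw [map_inv, map_inv, e']; exact step_si j hz
  | mul a b ha hb =>
    intro z hz
    rw [map_mul, map_mul, mul_assoc]
    exact ha _ (hb _ hz)

theorem ee_mem (n : ℕ) (k : FHat (n + 2)) : ee n k ∈ UU n := by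
  refine hat_induction (S := {k | ee n k ∈ UU n}) ((UU_closed n).preimage (ee_cont n))
    (fun g => ?_) k
  have h := step_word n g 1 (Or.inl (one_mem _))
  rw [mul_one] at h
  exact h

theorem LT_chi {u v : FHat 2} (h : (u, v) ∈ LT) : chi 1 v = 1 := by
  obtain ⟨k, hk⟩ := h
  have h1 : ev ![Y, X⁻¹ * Y * X, (X ^ 2)⁻¹] k = v := congrArg Prod.snd hk
  rw [← h1]
  unfold chi
  rw [evF_ev]
  have e : (fun i : Fin 3 => evF ![Multiplicative.ofAdd (1 : ZMod (1 + 1)), 1]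
      ((![Y, X⁻¹ * Y * X, (X ^ 2)⁻¹] : Fin 3 → FHat 2) i)) = fun _ => 1 := by
    have hx : evF ![Multiplicative.ofAdd (1 : ZMod (1 + 1)), 1] X =
      Multiplicative.ofAdd (1 : ZMod (1 + 1)) := evF_gen _ _
    have hy : evF ![Multiplicative.ofAdd (1 : ZMod (1 + 1)), 1] Y = 1 := evF_gen _ _
    funext i
    fin_cases i
    · exact hy
    · show evF ![Multiplicative.ofAdd (1 : ZMod (1 + 1)), 1] (X⁻¹ * Y * X) = 1
      rw [map_mul, map_mul, map_inv, hx, hy]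
      group
    · show evF ![Multiplicative.ofAdd (1 : ZMod (1 + 1)), 1] (X ^ 2)⁻¹ = 1
      rw [map_inv, map_pow, hx]
      rfl
  rw [e]
  have h := evF_map (1 : Multiplicative (ZMod (1 + 1)) →* Multiplicative (ZMod (1 + 1)))
    (fun _ : Fin 3 => (1 : Multiplicative (ZMod (1 + 1)))) k
  exact h.symm

/-- Row MATCH2. -/
theorem stMatch2_32 : StMatch2 := by
  intro n u' v' hCC hchi
  obtain ⟨k, hk⟩ := hCC
  have hk' : ee n k = (u', v') := hk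
  have h := ee_mem n k
  rw [hk'] at h
  rcases h with h | h
  · exact h
  · exfalso
    obtain ⟨u, v, -, h2, -⟩ := h
    rw [ee_g0] at h2
    have h3 : (v, X⁻¹ * v') ∈ LT := h2
    have h4 := LT_chi h3
    rw [map_mul, map_inv, hchi, mul_one, chi_X, inv_eq_one] at h4
    exact absurd h4 (by decide)

end MPb66790.HK24.Mat2_32
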