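import Pool.Agent.Lib.MP_b66790_nt.Hecke.Dsc24
import Pool.Agent.Lib.MP_b66790_nt.Hecke.Lan67
import Pool.Agent.Lib.MP_b66790_nt.Hecke.Lan1_31
import Pool.Agent.Lib.MP_b66790_nt.Hecke.Mat1_32
import Pool.Agent.Lib.MP_b66790_nt.Hecke.Mat2_32
import Pool.Agent.Lib.MP_b66790_nt.Hecke.Inj51

/-!
# Composition with Chebyshev polynomials: the theorem
-/

namespace MPb66790.HK24

open MPb66790 MPb66790.HK24.Mat2_32 MPb66790.HK24.Inj51

/-- The theorem. -/
theorem cheb_24 : StCheb :=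
  cheb_of (stLan_67 stLan1_31) stCyc_24 Mat1_32.stMatch1_32 stMatch2_32 stInj_51

end MPb66790.HK24
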