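import Pool.Agent.Lib.MP_b66790_nt.Hecke.Orb24
import Pool.Agent.Lib.MP_b66790_nt.Hecke.G67

/-!
# Row GT: the graph lemma with a kernel
-/

namespace MPb66790.HK24

open MPb66790 MPb66790.CY24 Function

theorem open_sub31 {K : Subgroup (FHat 2)} (hK : IsOpen (K : Set (FHat 2))) :
    ∃ (Q : Type) (_ : Group Q) (_ : Finite Q) (φ : F2 →* Q), Surjective φ ∧
      ∀ x : FHat 2, lftF φ x = 1 → x ∈ K := by
  obtain ⟨Q, i1, i2, φ, h1, h2⟩ := sep (C := (K : Set (FHat 2))ᶜ) (x := (1 : FHat 2))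
    hK.isClosed_compl (fun h => h K.one_mem)
  refine ⟨Q, i1, i2, φ, h1, fun x hx => ?_⟩
  by_contra hne
  exact h2 x hne (by rw [hx, map_one])

/-- Row GT. -/
theorem stGT_31 : HK24.StGT := by
  intro R h1 K hK _ h v hvK hv
  classical
  obtain ⟨Q, _, _, φ, -, hφ⟩ := open_sub31 hK
  let K' : Subgroup (F2 × F2) := (φ.comp (MonoidHom.snd F2 F2)).ker
  have hK' : K'.FiniteIndex := by
    have : Finite (φ.comp (MonoidHom.snd F2 F2)).range := inferInstance
    exact Subgroup.finiteIndex_ker _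
  have hV := finiteIndex_map67 h1 hK'
  set V := (R ⊓ K').map (MonoidHom.fst F2 F2) with hVdef
  have hfin : Finite (F2 ⧸ V.normalCore) := Subgroup.finite_quotient_of_finiteIndex
  let π : F2 →* F2 ⧸ V.normalCore := QuotientGroup.mk' V.normalCore
  have hopen : IsOpen {x : FHat 2 × FHat 2 | lftF π x.1 = π h ∧ lftF φ x.2 = lftF φ v} :=
    ((isClopen_lftF π {π h}).isOpen.preimage continuous_fst).inter
      ((isClopen_lftF φ {lftF φ v}).isOpen.preimage continuous_snd)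
  have hmem : ((of h, v) : FHat 2 × FHat 2) ∈
      {x : FHat 2 × FHat 2 | lftF π x.1 = π h ∧ lftF φ x.2 = lftF φ v} := ⟨lftF_of π h, rfl⟩
  obtain ⟨x, ⟨hx1, hx2⟩, ⟨p, hp, rfl⟩⟩ := mem_closure_iff.1 hv _ hopen hmem
  have hx3 : lftF π (of p.1) = π h := hx1
  have hx4 : lftF φ (of p.2) = lftF φ v := hx2
  rw [lftF_of] at hx3
  have hx5 : p.1⁻¹ * h ∈ V := Subgroup.normalCore_le V (QuotientGroup.eq.1 hx3)
  obtain ⟨q, ⟨hqR, hqK⟩, hq⟩ := hx5
  have hq' : q.1 = p.1⁻¹ * h := hq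
  have hq2 : φ q.2 = 1 := hqK
  refine ⟨p.2 * q.2, ?_, ?_⟩
  · have h5 : lftF φ (v⁻¹ * of (p.2 * q.2)) = 1 := by
      rw [map_mul, map_inv, map_mul, map_mul, hx4, lftF_of, hq2, mul_one, inv_mul_cancel]
    have h6 := K.mul_mem hvK (hφ _ h5)
    rwa [mul_inv_cancel_left] at h6
  · have h6 := R.mul_mem hp hqR
    have h7 : p * q = (h, p.2 * q.2) := by
      refine Prod.ext ?_ rfl
      show p.1 * q.1 = h
      rw [hq', mul_inv_cancel_left]
    rwa [h7] at h6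

end MPb66790.HK24
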