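import Pool.Agent.Lib.MP_b66790_nt.Hecke.Fin3_24

/-!
# Arbitrary dessins and dessins of type `(3, 2, ∞)`: definitions and statements of the modules
-/

namespace MPb66790.HK24

open MPb66790 MPb66790.CY24 Function

/-- The representation of the words of a dessin: `mat3` if the dessin is considered as a dessin of
type `(3, 2, ∞)` and `mat` otherwise. -/
def rep (b : Bool) : F2 →* Matrix.SpecialLinearGroup (Fin 2) ℤ := if b then mat3 else mat

/-- `g` conjugates `h` to `k` up to sign. -/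
def SimB (b : Bool) (g : Matrix (Fin 2) (Fin 2) ℤ) (h k : F2) : Prop :=
  g * (rep b h).1 = (mat3 k).1 * g ∨ g * (rep b h).1 = -((mat3 k).1 * g)

/-- The dessin `H` (of type `(3, 2, ∞)` if `b` is true, arbitrary otherwise) and the dessin `K` of
type `(3, 2, ∞)` are related by `g`. -/
def IsogB (b : Bool) (g : Matrix (Fin 2) (Fin 2) ℤ) (H K : Subgroup (FHat 2)) : Prop :=
  (b = true → Tri H) ∧ Tri K ∧ ∃ H₀ K₀ : Subgroup F2, H₀.FiniteIndex ∧ K₀.FiniteIndex ∧
    (∀ h ∈ H₀, ∃ k ∈ K₀, SimB b g h k) ∧ (∀ k ∈ K₀, ∃ h ∈ H₀, SimB b g h k) ∧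
    SameDessin (cl H₀) H ∧ SameDessin (cl K₀) K

/-- `g` conjugates `h` to `k` up to sign. -/
def SimM (g : Matrix (Fin 2) (Fin 2) ℤ) (h k : F2) : Prop :=
  g * (mat h).1 = (mat3 k).1 * g ∨ g * (mat h).1 = -((mat3 k).1 * g)

/-- The dessin `H` and the dessin `K` of type `(3, 2, ∞)` are related by `g`. -/
def IsogM (g : Matrix (Fin 2) (Fin 2) ℤ) (H K : Subgroup (FHat 2)) : Prop :=
  Tri K ∧ ∃ H₀ K₀ : Subgroup F2, H₀.FiniteIndex ∧ K₀.FiniteIndex ∧
    (∀ h ∈ H₀, ∃ k ∈ K₀, SimM g h k) ∧ (∀ k ∈ K₀, ∃ h ∈ H₀, SimM g h k) ∧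
    SameDessin (cl H₀) H ∧ SameDessin (cl K₀) K

/-- The same as `SimM` with `matP`, `matP3`. -/
def SimMP (g : Matrix (Fin 2) (Fin 2) ℤ) (h k : F2) : Prop :=
  g * (matP h).1 = (matP3 k).1 * g ∨ g * (matP h).1 = -((matP3 k).1 * g)

/-- RMM (51). -/
def StRMM : Prop := ∀ (n : ℕ) (h k : F2) (j : ℤ), Rel n (of (iotaD h)) (of (iotD3 k * zD ^ j)) →
  SimMP (dg n) h k

/-- SIMM (57). -/
def StSimM : Prop := ∀ (n : ℕ) (h k : F2), SimMP (dg n) h k →
  ∃ j : ℤ, Rel n (of (iotaD h)) (of (iotD3 k * zD ^ j))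

/-- CLM (32): the closure lemma. -/
def StClM : Prop := ∀ (n : ℕ) (u v : FHat 2) (e : ZHat), Rel n (iota u) (iot3 v * pow cB e) →
  ∃ (v' : FHat 2) (e' : ZHat), iot3 v' = iot3 v * pow cB e' ∧
    ((u, v') : FHat 2 × FHat 2) ∈ closure {p | ∃ h k : F2, SimMP (dg n) h k ∧ p = (of h, of k)}

/-- The theorem for the diagonal matrices. -/
def StDiagM : Prop := ∀ (lam : ZHat) (f : FHat 2), IsGT lam f → ∀ (n : ℕ) (H K : Subgroup (FHat 2)),
  IsogM (dg n) H K → IsogM (dg n) (act lam f H) (act lam f K)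

/-- The theorem. -/
def StAllM : Prop := ∀ (lam : ZHat) (f : FHat 2), IsGT lam f →
  ∀ (g : Matrix (Fin 2) (Fin 2) ℤ), 0 < g.det → ∀ (H K : Subgroup (FHat 2)), IsogM g H K →
  IsogM g (act lam f H) (act lam f K)

/-- GENM (31): from the diagonal case to all (Smith normal form; the left factor is absorbed by an
inner automorphism of `K` as in `stGen3_31`, the right factor by `Adm` as in `stAllX_67`). -/
def StGenM : Prop := StDiagM → StAllM

end MPb66790.HK24
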