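import Pool.Agent.Lib.MP_b66790_nt.Hecke.Stmts24

/-!
# Commensurabilities of dessins on the same curve: further statements
-/

namespace MPb66790.HK24

open MPb66790 MPb66790.CY24 Function

/-- The diagonal matrix of the isogeny of degree `n + 1`, in the basis `a, b`. -/
def dg (n : ℕ) : Matrix (Fin 2) (Fin 2) ℤ := !![(n : ℤ) + 1, 0; 0, 1]

/-- The same as `Sim` with `matP`. -/
def SimP (g : Matrix (Fin 2) (Fin 2) ℤ) (h k : F2) : Prop :=
  g * (matP h).1 = (matP k).1 * g ∨ g * (matP h).1 = -((matP k).1 * g)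

/-- T (51): the automorphism `Φ` of the profinite braid group (row P1, helper24) on the kernel of
`rho`. -/
def StT : Prop := ∀ (lam : ZHat) (f : FHat 2), IsGT lam f → ∀ Φ : Hat Braid4 →ₜ* Hat Braid4,
  Bijective Φ → Φ (s 0) = pow (s 0) lam → Φ (s 1) = (fA f)⁻¹ * pow (s 1) lam * fA f →
  Φ (s 2) = (fh f)⁻¹ * pow (s 2) lam * fh f → Φ cB = pow cB lam →
  (∀ g, rho (Φ g) = Φ (rho g)) →
  ∃ Ψ : FHat 2 →ₜ* FHat 2, Bijective Ψ ∧ (∀ w, jH (Ψ w) = Φ (jH w)) ∧ Ψ cc = pow cc lam ∧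
    (∃ t, Ψ Y = ev ![Y, X * Y * X⁻¹] t) ∧ ∀ n, chi n (Ψ X) = chi n X

/-- IND (67): the induced endomorphism. -/
def StInd : Prop := ∀ (n : ℕ) (φ : FHat 2 →ₜ* FHat 2), (∃ l, φ cc = pow cc l) →
  chi n (φ Y) = 1 → (∀ i : ℕ, 0 < i → i < n + 1 → chi n (φ X) ^ i ≠ 1) →
  ∃ α : FHat 2 →ₜ* FHat 2, ∀ w : FHat (n + 2), ∃ w' : FHat (n + 2),
    φ (covMap n w) = covMap n w' ∧ α (isoMap n w) = isoMap n w'

/-- ALPHA (67, from IND). -/
def StAlpha : Prop := ∀ Ψ : FHat 2 →ₜ* FHat 2, Bijective Ψ → (∃ l, Ψ cc = pow cc l) →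
  (∃ t, Ψ Y = ev ![Y, X * Y * X⁻¹] t) → (∀ n, chi n (Ψ X) = chi n X) → ∀ n, ∃ k : ZHat,
  ∀ w : FHat (n + 2), ∃ w' : FHat (n + 2), Ψ (covMap n w) = covMap n w' ∧
    isoMap n w' = Ψ (ev ![X * pow Y k, Y] (isoMap n w))

/-- CN (57): every discrete `h` in the stabiliser has a discrete partner. -/
def StCN : Prop := ∀ (n : ℕ) (h : F2), ((n : ℤ) + 1) ∣ (matP h).1 1 0 →
  ∃ β ∈ B3, Rel n (of (iotaD h)) (of β)

/-- RM (31): the matrices of partners. -/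
def StRM : Prop := ∀ (n : ℕ) (h k : F2) (j : ℤ), Rel n (of (iotaD h)) (of (iotaD k * zD ^ j)) →
  SimP (dg n) h k

/-- SIM (31, from CN): matrices that correspond give partners. -/
def StSim : Prop := ∀ (n : ℕ) (h k : F2), SimP (dg n) h k →
  ∃ j : ℤ, Rel n (of (iotaD h)) (of (iotaD k * zD ^ j))

/-- The pairs of words whose matrices correspond. -/
def R0 (n : ℕ) : Set (FHat 2 × FHat 2) :=
  closure {p | ∃ h k : F2, SimP (dg n) h k ∧ p = (of h, of k)}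

/-- CL (32, from CN, F, M2, RM): the closure lemma. -/
def StCl : Prop := ∀ (n : ℕ) (u v : FHat 2) (e : ZHat), Rel n (iota u) (iota v * pow cB e) →
  (u, v) ∈ R0 n

end MPb66790.HK24
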