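import Pool.Agent.Lib.MP_b66790_nt.Hecke.Niel57
import Pool.Agent.Lib.MP_b66790_nt.Hecke.Stmt24b

/-!
# Nielsen's theorem in the braid group on four strands
-/

namespace MPb66790.N57

open MPb66790.HK24

section braid

variable {G : Type*} [Group G] {x y z : G}

theorem id1 (h1 : x * y * x = y * x * y) (h2 : y * z * y = z * y * z) :
    x * (y * (x * z⁻¹) * y⁻¹) * x⁻¹ = (y * (x * z⁻¹) * y⁻¹) * (x * z⁻¹)⁻¹ := by
  have e2 : y * z⁻¹ * y⁻¹ = z⁻¹ * y⁻¹ * z := by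
    calc y * z⁻¹ * y⁻¹ = z⁻¹ * y⁻¹ * (y * z * y) * z⁻¹ * y⁻¹ := by group
      _ = z⁻¹ * y⁻¹ * (z * y * z) * z⁻¹ * y⁻¹ := by rw [h2]
      _ = z⁻¹ * y⁻¹ * z := by group
  calc x * (y * (x * z⁻¹) * y⁻¹) * x⁻¹ = (x * y * x) * z⁻¹ * y⁻¹ * x⁻¹ := by group
    _ = (y * x * y) * z⁻¹ * y⁻¹ * x⁻¹ := by rw [h1]
    _ = y * x * (y * z⁻¹ * y⁻¹) * x⁻¹ := by group
    _ = y * x * (z⁻¹ * y⁻¹ * z) * x⁻¹ := by rw [e2]
    _ = (y * (x * z⁻¹) * y⁻¹) * (x * z⁻¹)⁻¹ := by group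

theorem id2 (h1 : x * y * x = y * x * y) (h2 : y * z * y = z * y * z) (h3 : x * z = z * x) :
    y * (y * (x * z⁻¹) * y⁻¹) * y⁻¹ =
      (y * (x * z⁻¹) * y⁻¹) * (x * z⁻¹)⁻¹ * (y * (x * z⁻¹) * y⁻¹) := by
  have e3 : y⁻¹ * z * y = z * y * z⁻¹ := by
    calc y⁻¹ * z * y = y⁻¹ * (z * y * z) * z⁻¹ := by group
      _ = y⁻¹ * (y * z * y) * z⁻¹ := by rw [h2]
      _ = z * y * z⁻¹ := by group
  have e4 : y⁻¹ * x⁻¹ * y = x * y⁻¹ * x⁻¹ := by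
    calc y⁻¹ * x⁻¹ * y = x * (x⁻¹ * y⁻¹ * x⁻¹) * y := by group
      _ = x * (x * y * x)⁻¹ * y := by group
      _ = x * (y * x * y)⁻¹ * y := by rw [h1]
      _ = x * y⁻¹ * x⁻¹ := by group
  have e5 : z⁻¹ * x = x * z⁻¹ := by
    calc z⁻¹ * x = z⁻¹ * (x * z) * z⁻¹ := by group
      _ = z⁻¹ * (z * x) * z⁻¹ := by rw [h3]
      _ = x * z⁻¹ := by group
  have key : y * (x * z⁻¹) * y⁻¹ =
      (x * z⁻¹) * (y⁻¹ * (x * z⁻¹)⁻¹ * y) * (x * z⁻¹) := by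
    symm
    calc (x * z⁻¹) * (y⁻¹ * (x * z⁻¹)⁻¹ * y) * (x * z⁻¹)
        = (x * z⁻¹) * ((y⁻¹ * z * y) * (y⁻¹ * x⁻¹ * y)) * (x * z⁻¹) := by group
      _ = (x * z⁻¹) * ((z * y * z⁻¹) * (x * y⁻¹ * x⁻¹)) * (x * z⁻¹) := by rw [e3, e4]
      _ = x * y * (z⁻¹ * x) * y⁻¹ * z⁻¹ := by group
      _ = x * y * (x * z⁻¹) * y⁻¹ * z⁻¹ := by rw [e5]
      _ = (x * y * x) * (z * y * z)⁻¹ := by group
      _ = (y * x * y) * (y * z * y)⁻¹ := by rw [h1, h2]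
      _ = y * (x * z⁻¹) * y⁻¹ := by group
  calc y * (y * (x * z⁻¹) * y⁻¹) * y⁻¹
      = y * ((x * z⁻¹) * (y⁻¹ * (x * z⁻¹)⁻¹ * y) * (x * z⁻¹)) * y⁻¹ := by rw [← key]
    _ = (y * (x * z⁻¹) * y⁻¹) * (x * z⁻¹)⁻¹ * (y * (x * z⁻¹) * y⁻¹) := by group

theorem id0 (h3 : x * z = z * x) : x * (x * z⁻¹) * x⁻¹ = x * z⁻¹ := by
  have e5 : z⁻¹ * x⁻¹ = x⁻¹ * z⁻¹ := by
    rw [← mul_inv_rev, ← mul_inv_rev, h3]
  calc x * (x * z⁻¹) * x⁻¹ = x * x * (z⁻¹ * x⁻¹) := by group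
    _ = x * x * (x⁻¹ * z⁻¹) := by rw [e5]
    _ = x * z⁻¹ := by group

end braid

/-- From words in `a, b' = a b` to words in `b = X`, `a = Y`. -/
def ka : F2 →* F2 := Niel57.hom2 (FreeGroup.of 1) (FreeGroup.of 1 * FreeGroup.of 0)

/-- The inverse of `ka`. -/
def kb : F2 →* F2 := FreeGroup.lift ![Niel57.a⁻¹ * Niel57.b, Niel57.a]

theorem ka_kb (w : F2) : ka (kb w) = w := by
  have h : ka.comp kb = MonoidHom.id F2 := by
    ext i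
    fin_cases i
    · simp [ka, kb]
    · simp [ka, kb]
  exact DFunLike.congr_fun h w

theorem kb_ka (w : F2) : kb (ka w) = w := by
  have h : kb.comp ka = MonoidHom.id F2 := by
    refine Niel57.hom_ext2 ?_ ?_
    · simp [ka, kb]
    · simp [ka, kb]
  exact DFunLike.congr_fun h w

/-- `a ↦ σ₁ σ₃⁻¹`, `b' ↦ σ₂ a σ₂⁻¹`. -/
def J : F2 →* Braid4 := jD.comp ka

theorem J_a : J Niel57.a = aD := by
  simp [J, ka, jD]

theorem J_b : J Niel57.b = σ 1 * aD * (σ 1)⁻¹ := by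
  simp [J, ka, jD]

theorem J_S1 (w : F2) : σ 0 * J w * (σ 0)⁻¹ = J (Niel57.S1 w) := by
  have h : (MulAut.conj (σ 0)).toMonoidHom.comp J = J.comp Niel57.S1.toMonoidHom := by
    refine Niel57.hom_ext2 ?_ ?_
    · show σ 0 * J Niel57.a * (σ 0)⁻¹ = J (Niel57.S1 Niel57.a)
      rw [Niel57.S1_a, J_a]
      exact id0 isBraid_σ.2.2
    · show σ 0 * J Niel57.b * (σ 0)⁻¹ = J (Niel57.S1 Niel57.b)
      rw [Niel57.S1_b, map_mul, map_inv, J_a, J_b]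
      exact id1 isBraid_σ.1 isBraid_σ.2.1
  exact DFunLike.congr_fun h w

theorem J_S2 (w : F2) : σ 1 * J w * (σ 1)⁻¹ = J (Niel57.S2 w) := by
  have h : (MulAut.conj (σ 1)).toMonoidHom.comp J = J.comp Niel57.S2.toMonoidHom := by
    refine Niel57.hom_ext2 ?_ ?_
    · show σ 1 * J Niel57.a * (σ 1)⁻¹ = J (Niel57.S2 Niel57.a)
      rw [Niel57.S2_a, J_a, J_b]
    · show σ 1 * J Niel57.b * (σ 1)⁻¹ = J (Niel57.S2 Niel57.b)
      rw [Niel57.S2_b, map_mul, map_mul, map_inv, J_a, J_b]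
      exact id2 isBraid_σ.1 isBraid_σ.2.1 isBraid_σ.2.2
  exact DFunLike.congr_fun h w

theorem J_G3 {β : MulAut F2} (hβ : β ∈ Niel57.G3) :
    ∃ g ∈ B3, ∀ w, g * J w * g⁻¹ = J (β w) := by
  unfold Niel57.G3 at hβ
  induction hβ using Subgroup.closure_induction with
  | mem x hx =>
    rcases hx with rfl | rfl
    · exact ⟨σ 0, Subgroup.subset_closure (by simp), J_S1⟩
    · exact ⟨σ 1, Subgroup.subset_closure (by simp), J_S2⟩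
  | one => exact ⟨1, one_mem _, fun w => by simp⟩
  | mul x y _ _ hx hy =>
    obtain ⟨g, hg, h1⟩ := hx
    obtain ⟨g', hg', h2⟩ := hy
    refine ⟨g * g', mul_mem hg hg', fun w => ?_⟩
    rw [MulAut.mul_apply, ← h1, ← h2]
    group
  | inv x _ hx =>
    obtain ⟨g, hg, h1⟩ := hx
    refine ⟨g⁻¹, inv_mem hg, fun w => ?_⟩
    have h2 := h1 (x⁻¹ w)
    rw [← MulAut.mul_apply, mul_inv_cancel, MulAut.one_apply] at h2
    rw [← h2]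
    group

theorem stN_57 : StN := by
  intro τ hτ
  have hcc : (kb.comp (τ.comp ka)) Niel57.cc = Niel57.cc := by
    have h1 : ka Niel57.cc = cD⁻¹ := by
      simp [Niel57.cc, ka, cD, mul_assoc]
    show kb (τ (ka Niel57.cc)) = Niel57.cc
    rw [h1, map_inv, hτ, ← h1, kb_ka]
  obtain ⟨β, hβ, h2⟩ := Niel57.nielsen _ hcc
  obtain ⟨g, hg, h3⟩ := J_G3 hβ
  refine ⟨g, hg, fun w => ?_⟩
  have h4 := h3 (kb w)
  rw [← h2] at h4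
  have h5 : ∀ w, J (kb w) = jD w := fun w => by
    show jD (ka (kb w)) = jD w
    rw [ka_kb]
  show g * jD w * g⁻¹ = jD (τ w)
  rw [← h5, h4]
  show jD (ka (kb (τ (ka (kb w))))) = jD (τ w)
  rw [ka_kb, ka_kb]

end MPb66790.N57
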