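import Mathlib

/-!
# Nielsen: endomorphisms of the free group on `a, b` fixing `a⁻¹ b a b⁻¹` come from the braid
group on three strands

Proof by Markov descent in `SL(2, ℤ)`.
-/

set_option linter.unusedSimpArgs false

namespace MPb66790.Niel57


/-- The free group on `a, b`. -/
abbrev F : Type := FreeGroup (Fin 2)

/-- the first generator -/
def a : F := FreeGroup.of 0

/-- the second generator -/
def b : F := FreeGroup.of 1

theorem hom_ext2 {G : Type*} [Group G] {f g : F →* G} (ha : f a = g a) (hb : f b = g b) :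
    f = g := by
  ext i
  fin_cases i
  · exact ha
  · exact hb

/-- homomorphism given by two values -/
def hom2 {G : Type*} [Group G] (u v : G) : F →* G := FreeGroup.lift ![u, v]

@[simp] theorem hom2_a {G : Type*} [Group G] (u v : G) : hom2 u v a = u := by
  simp [hom2, a]

@[simp] theorem hom2_b {G : Type*} [Group G] (u v : G) : hom2 u v b = v := by
  simp [hom2, b]

/-- The action of the braid generator `s1`: `a ↦ a`, `b ↦ b a⁻¹`. -/
def S1 : MulAut F := MonoidHom.toMulEquiv (hom2 a (b * a⁻¹)) (hom2 a (b * a))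
  (hom_ext2 (by simp) (by simp)) (hom_ext2 (by simp) (by simp))

/-- The action of the braid generator `s2`: `a ↦ b`, `b ↦ b a⁻¹ b`. -/
def S2 : MulAut F := MonoidHom.toMulEquiv (hom2 b (b * a⁻¹ * b)) (hom2 (a * b⁻¹ * a) a)
  (hom_ext2 (by simp) (by simp [mul_assoc])) (hom_ext2 (by simp [mul_assoc]) (by simp))

@[simp] theorem S1_a : S1 a = a := hom2_a a (b * a⁻¹)
@[simp] theorem S1_b : S1 b = b * a⁻¹ := hom2_b a (b * a⁻¹)
@[simp] theorem S2_a : S2 a = b := hom2_a b (b * a⁻¹ * b)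
@[simp] theorem S2_b : S2 b = b * a⁻¹ * b := hom2_b b (b * a⁻¹ * b)
@[simp] theorem S1i_a : S1⁻¹ a = a := hom2_a a (b * a)
@[simp] theorem S1i_b : S1⁻¹ b = b * a := hom2_b a (b * a)
@[simp] theorem S2i_a : S2⁻¹ a = a * b⁻¹ * a := hom2_a (a * b⁻¹ * a) a
@[simp] theorem S2i_b : S2⁻¹ b = a := hom2_b (a * b⁻¹ * a) a

/-- The image of the braid group. -/
def G3 : Subgroup (MulAut F) := Subgroup.closure {S1, S2}

theorem S1_mem : S1 ∈ G3 := Subgroup.subset_closure (by simp)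
theorem S2_mem : S2 ∈ G3 := Subgroup.subset_closure (by simp)

/-- the fixed commutator -/
def cc : F := a⁻¹ * b * a * b⁻¹

theorem S1_cc : S1 cc = cc := by simp [cc, mul_assoc]
theorem S2_cc : S2 cc = cc := by simp [cc, mul_assoc]

/-! ### The faithful representation -/

/-- two by two integral matrices of determinant one -/
abbrev SL2 : Type := Matrix.SpecialLinearGroup (Fin 2) ℤ

/-- the matrix of `a⁻¹` -/
def A0 : SL2 := ⟨!![2, 1; 1, 1], by decide⟩

/-- the matrix of `b` -/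
def B0 : SL2 := ⟨!![2, -1; -1, 1], by decide⟩

/-- the matrix `T` -/
def T0 : SL2 := ⟨!![1, 1; 0, 1], by decide⟩

/-- the matrix of `cc` -/
def C0 : SL2 := ⟨!![-1, -6; 0, -1], by decide⟩

/-- the representation -/
def io : F →* SL2 := hom2 A0⁻¹ B0

@[simp] theorem io_a : io a = A0⁻¹ := hom2_a _ _
@[simp] theorem io_b : io b = B0 := hom2_b _ _

theorem ext4 {A B : SL2} (h1 : A.1 0 0 = B.1 0 0) (h2 : A.1 0 1 = B.1 0 1)
    (h3 : A.1 1 0 = B.1 1 0) (h4 : A.1 1 1 = B.1 1 1) : A = B := by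
  apply Subtype.ext
  ext i j
  fin_cases i <;> fin_cases j
  · exact h1
  · exact h2
  · exact h3
  · exact h4

theorem mul00 (A B : SL2) : (A * B).1 0 0 = A.1 0 0 * B.1 0 0 + A.1 0 1 * B.1 1 0 := by
  simp [Matrix.SpecialLinearGroup.coe_mul, Matrix.mul_apply, Fin.sum_univ_two]

theorem mul01 (A B : SL2) : (A * B).1 0 1 = A.1 0 0 * B.1 0 1 + A.1 0 1 * B.1 1 1 := by
  simp [Matrix.SpecialLinearGroup.coe_mul, Matrix.mul_apply, Fin.sum_univ_two]

theorem mul10 (A B : SL2) : (A * B).1 1 0 = A.1 1 0 * B.1 0 0 + A.1 1 1 * B.1 1 0 := by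
  simp [Matrix.SpecialLinearGroup.coe_mul, Matrix.mul_apply, Fin.sum_univ_two]

theorem mul11 (A B : SL2) : (A * B).1 1 1 = A.1 1 0 * B.1 0 1 + A.1 1 1 * B.1 1 1 := by
  simp [Matrix.SpecialLinearGroup.coe_mul, Matrix.mul_apply, Fin.sum_univ_two]

theorem inv00 (A : SL2) : (A⁻¹).1 0 0 = A.1 1 1 := by
  simp [Matrix.SpecialLinearGroup.coe_inv, Matrix.adjugate_fin_two]

theorem inv01 (A : SL2) : (A⁻¹).1 0 1 = -A.1 0 1 := by
  simp [Matrix.SpecialLinearGroup.coe_inv, Matrix.adjugate_fin_two]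

theorem inv10 (A : SL2) : (A⁻¹).1 1 0 = -A.1 1 0 := by
  simp [Matrix.SpecialLinearGroup.coe_inv, Matrix.adjugate_fin_two]

theorem inv11 (A : SL2) : (A⁻¹).1 1 1 = A.1 0 0 := by
  simp [Matrix.SpecialLinearGroup.coe_inv, Matrix.adjugate_fin_two]

theorem det2 (A : SL2) : A.1 0 0 * A.1 1 1 - A.1 0 1 * A.1 1 0 = 1 := by
  have h := A.2
  rw [Matrix.det_fin_two] at h
  exact h

theorem neg00 (A : SL2) : (-A).1 0 0 = -A.1 0 0 := rfl
theorem neg01 (A : SL2) : (-A).1 0 1 = -A.1 0 1 := rfl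
theorem neg10 (A : SL2) : (-A).1 1 0 = -A.1 1 0 := rfl
theorem neg11 (A : SL2) : (-A).1 1 1 = -A.1 1 1 := rfl

theorem comm0 : A0 * B0 * A0⁻¹ * B0⁻¹ = C0 := by decide

theorem T0A0 : T0 * A0 * T0⁻¹ = A0 * B0 := by decide
theorem T0B0 : T0 * B0 * T0⁻¹ = A0⁻¹ := by decide

/-! ### Markov descent -/

/-- the braid relation of the pair -/
def Rel (A B : SL2) : Prop := A * B = C0 * (B * A)

theorem trB {A B : SL2} (h : Rel A B) : B.1 0 0 + B.1 1 1 = -3 * B.1 1 0 := by
  have e00 := congrArg (fun M : SL2 => M.1 0 0) h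
  have e01 := congrArg (fun M : SL2 => M.1 0 1) h
  have e10 := congrArg (fun M : SL2 => M.1 1 0) h
  have e11 := congrArg (fun M : SL2 => M.1 1 1) h
  simp only [mul00, mul01, mul10, mul11, show C0.1 0 0 = -1 from rfl, show C0.1 0 1 = -6 from rfl,
    show C0.1 1 0 = 0 from rfl, show C0.1 1 1 = -1 from rfl] at e00 e01 e10 e11
  have dA := det2 A
  have : 2 * (B.1 0 0 + B.1 1 1) = -6 * B.1 1 0 := by
    linear_combination (A.1 1 1) * e00 - (A.1 1 0) * e01 - (A.1 0 1) * e10 + (A.1 0 0) * e11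
      - (2 * B.1 0 0 + 2 * B.1 1 1 + 6 * B.1 1 0) * dA
  linarith

theorem trA {A B : SL2} (h : Rel A B) : A.1 0 0 + A.1 1 1 = 3 * A.1 1 0 := by
  have e00 := congrArg (fun M : SL2 => M.1 0 0) h
  have e01 := congrArg (fun M : SL2 => M.1 0 1) h
  have e10 := congrArg (fun M : SL2 => M.1 1 0) h
  have e11 := congrArg (fun M : SL2 => M.1 1 1) h
  simp only [mul00, mul01, mul10, mul11, show C0.1 0 0 = -1 from rfl, show C0.1 0 1 = -6 from rfl,
    show C0.1 1 0 = 0 from rfl, show C0.1 1 1 = -1 from rfl] at e00 e01 e10 e11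
  have dB := det2 B
  have : 2 * (A.1 0 0 + A.1 1 1) = 6 * A.1 1 0 := by
    linear_combination (B.1 1 1) * (e00 - 6 * e10) - (B.1 1 0) * (e01 - 6 * e11)
      - (B.1 0 1) * e10 + (B.1 0 0) * e11 - (2 * A.1 0 0 + 2 * A.1 1 1 - 6 * A.1 1 0) * dB
  linarith

/-- the third Markov number -/
def zz (A B : SL2) : ℤ := -(B * A).1 1 0

theorem trAB {A B : SL2} (h : Rel A B) :
    A.1 0 0 * B.1 0 0 + A.1 0 1 * B.1 1 0 + (A.1 1 0 * B.1 0 1 + A.1 1 1 * B.1 1 1) =
      3 * zz A B := by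
  have e00 := congrArg (fun M : SL2 => M.1 0 0) h
  have e11 := congrArg (fun M : SL2 => M.1 1 1) h
  simp only [mul00, mul01, mul10, mul11, show C0.1 0 0 = -1 from rfl, show C0.1 0 1 = -6 from rfl,
    show C0.1 1 0 = 0 from rfl, show C0.1 1 1 = -1 from rfl] at e00 e11
  unfold zz
  rw [mul10]
  have : 2 * (A.1 0 0 * B.1 0 0 + A.1 0 1 * B.1 1 0 + (A.1 1 0 * B.1 0 1 + A.1 1 1 * B.1 1 1)) =
      -6 * (B.1 1 0 * A.1 0 0 + B.1 1 1 * A.1 1 0) := by
    linear_combination e00 + e11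
  linarith

theorem markov {A B : SL2} (h : Rel A B) :
    (A.1 1 0) ^ 2 + (B.1 1 0) ^ 2 + (zz A B) ^ 2 = -3 * A.1 1 0 * B.1 1 0 * zz A B := by
  have hA := trA h
  have hB := trB h
  have hz := trAB h
  have dA := det2 A
  have dB := det2 B
  have h1 : A.1 1 1 = 3 * A.1 1 0 - A.1 0 0 := by linarith
  have h2 : B.1 1 1 = -3 * B.1 1 0 - B.1 0 0 := by linarith
  have h3 : zz A B = -(B.1 1 0 * A.1 0 0 + B.1 1 1 * A.1 1 0) := by
    unfold zz
    rw [mul10]
  rw [h2] at h3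
  rw [h1, h2] at hz
  rw [h1] at dA
  rw [h2] at dB
  generalize zz A B = z at *
  generalize A.1 0 0 = p at *
  generalize A.1 0 1 = q at *
  generalize A.1 1 0 = x at *
  generalize B.1 0 0 = p' at *
  generalize B.1 0 1 = q' at *
  generalize B.1 1 0 = y at *
  subst h3
  linear_combination (-(x * y)) * hz - y ^ 2 * dA - x ^ 2 * dB

/-! ### The braid moves -/

/-- `(A, B)` is up to signs the image of a braid translate of `(a⁻¹, b)` -/
def PP (A B : SL2) : Prop := ∃ β ∈ G3, (A = io (β a⁻¹) ∨ A = -io (β a⁻¹)) ∧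
  (B = io (β b) ∨ B = -io (β b))

/-- the move `a⁻¹ ↦ a⁻¹`, `b ↦ b a⁻¹` is `S1`; `a⁻¹ ↦ a⁻¹ b⁻¹`, `b ↦ b` is `R2` -/
def R2 : MulAut F := S2 * S1 * S2⁻¹

theorem R2_mem : R2 ∈ G3 := mul_mem (mul_mem S2_mem S1_mem) (inv_mem S2_mem)

theorem R2_b : R2 b = b := by
  show S2 (S1 (S2⁻¹ b)) = b
  rw [S2i_b, S1_a, S2_a]

theorem R2_a : R2 a = b * a := by
  show S2 (S1 (S2⁻¹ a)) = b * a
  rw [S2i_a]
  simp [mul_assoc]

theorem R2i_b : R2⁻¹ b = b := by
  have h : R2⁻¹ (R2 b) = b := by rw [← MulAut.mul_apply, inv_mul_cancel, MulAut.one_apply]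
  rwa [R2_b] at h

theorem R2i_a : R2⁻¹ a = b⁻¹ * a := by
  have h : R2⁻¹ (R2 a) = a := by rw [← MulAut.mul_apply, inv_mul_cancel, MulAut.one_apply]
  rw [R2_a, map_mul, R2i_b] at h
  exact eq_inv_mul_of_mul_eq h

/-- conjugation by `T` : `a ↦ b⁻¹ a`, `b ↦ a` -/
def Om : MulAut F := (S2 * S1)⁻¹

theorem Om_mem : Om ∈ G3 := inv_mem (mul_mem S2_mem S1_mem)

theorem Om_b : Om b = a := by
  show (S2 * S1)⁻¹ b = a
  rw [mul_inv_rev]
  show S1⁻¹ (S2⁻¹ b) = a
  rw [S2i_b, S1i_a]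

theorem Om_a : Om a = b⁻¹ * a := by
  show (S2 * S1)⁻¹ a = b⁻¹ * a
  rw [mul_inv_rev]
  show S1⁻¹ (S2⁻¹ a) = b⁻¹ * a
  rw [S2i_a, map_mul, map_mul, map_inv, S1i_a, S1i_b, mul_inv_rev]
  simp

theorem io_Om (w : F) : io (Om w) = T0 * io w * T0⁻¹ := by
  have h : io.comp Om.toMonoidHom = (MulAut.conj T0).toMonoidHom.comp io := by
    refine hom_ext2 ?_ ?_
    · show io (Om a) = T0 * io a * T0⁻¹
      rw [Om_a, map_mul, map_inv, io_a, io_b]
      have := congrArg (fun M : SL2 => M⁻¹) T0A0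
      simp only [mul_inv_rev, inv_inv] at this
      rw [← this, mul_assoc]
    · show io (Om b) = T0 * io b * T0⁻¹
      rw [Om_b, io_a, io_b, T0B0]
  exact DFunLike.congr_fun h w

theorem PP_mulA {A B : SL2} (h : PP A (B * A)) : PP A B := by
  obtain ⟨β, hβ, h1, h2⟩ := h
  refine ⟨β * S1⁻¹, mul_mem hβ (inv_mem S1_mem), ?_, ?_⟩
  · show A = io (β (S1⁻¹ a⁻¹)) ∨ A = -io (β (S1⁻¹ a⁻¹))
    rw [map_inv, S1i_a]
    exact h1
  · show B = io (β (S1⁻¹ b)) ∨ B = -io (β (S1⁻¹ b))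
    rw [S1i_b]
    have e : B = (B * A) * A⁻¹ := by simp
    rw [map_mul, map_mul]
    rw [map_inv, map_inv] at h1
    rcases h1 with h1 | h1 <;> rcases h2 with h2 | h2
    · left; rw [e, h2, h1, inv_inv]
    · right; rw [e, h2, h1, inv_inv, neg_mul]
    · right; rw [e, h2, h1]; simp
    · left; rw [e, h2, h1]; simp

theorem PP_mulAi {A B : SL2} (h : PP A (B * A⁻¹)) : PP A B := by
  obtain ⟨β, hβ, h1, h2⟩ := h
  refine ⟨β * S1, mul_mem hβ S1_mem, ?_, ?_⟩
  · show A = io (β (S1 a⁻¹)) ∨ A = -io (β (S1 a⁻¹))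
    rw [map_inv, S1_a]
    exact h1
  · show B = io (β (S1 b)) ∨ B = -io (β (S1 b))
    rw [S1_b]
    have e : B = (B * A⁻¹) * A := by simp
    rw [map_mul, map_mul]
    rcases h1 with h1 | h1 <;> rcases h2 with h2 | h2
    · left; rw [e, h2, ← h1]
    · right; rw [e, h2, ← h1, neg_mul]
    · right; rw [e, h2]; nth_rw 1 [h1]; rw [mul_neg]
    · left; rw [e, h2]; nth_rw 1 [h1]; rw [mul_neg, neg_mul, neg_neg]

theorem PP_mulB {A B : SL2} (h : PP (A * B) B) : PP A B := by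
  obtain ⟨β, hβ, h1, h2⟩ := h
  refine ⟨β * R2, mul_mem hβ R2_mem, ?_, ?_⟩
  · show A = io (β (R2 a⁻¹)) ∨ A = -io (β (R2 a⁻¹))
    rw [map_inv, R2_a, mul_inv_rev, map_mul, map_mul, map_inv β b, map_inv io]
    have e : A = (A * B) * B⁻¹ := by simp
    rcases h1 with h1 | h1 <;> rcases h2 with h2 | h2
    · left; rw [e, ← h1, ← h2]
    · right; rw [e, ← h1]; nth_rw 2 [h2]; simp
    · right; rw [e, h1, ← h2]; simp
    · left; rw [e, h1]; nth_rw 1 [h2]; simp
  · show B = io (β (R2 b)) ∨ B = -io (β (R2 b))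
    rw [R2_b]
    exact h2

theorem PP_mulBi {A B : SL2} (h : PP (A * B⁻¹) B) : PP A B := by
  obtain ⟨β, hβ, h1, h2⟩ := h
  refine ⟨β * R2⁻¹, mul_mem hβ (inv_mem R2_mem), ?_, ?_⟩
  · show A = io (β (R2⁻¹ a⁻¹)) ∨ A = -io (β (R2⁻¹ a⁻¹))
    rw [map_inv, R2i_a, mul_inv_rev, inv_inv, map_mul, map_mul]
    have e : A = (A * B⁻¹) * B := by simp
    rcases h1 with h1 | h1 <;> rcases h2 with h2 | h2
    · left; rw [e, ← h1, ← h2]
    · right; rw [e, ← h1]; nth_rw 2 [h2]; simp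
    · right; rw [e, h1, ← h2]; simp
    · left; rw [e, h1]; nth_rw 1 [h2]; simp
  · show B = io (β (R2⁻¹ b)) ∨ B = -io (β (R2⁻¹ b))
    rw [R2i_b]
    exact h2

theorem PP_negA {A B : SL2} (h : PP (-A) B) : PP A B := by
  obtain ⟨β, hβ, h1, h2⟩ := h
  refine ⟨β, hβ, ?_, h2⟩
  rcases h1 with h1 | h1
  · right; rw [← h1, neg_neg]
  · left; exact neg_injective h1

theorem PP_negB {A B : SL2} (h : PP A (-B)) : PP A B := by
  obtain ⟨β, hβ, h1, h2⟩ := h
  refine ⟨β, hβ, h1, ?_⟩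
  rcases h2 with h2 | h2
  · right; rw [← h2, neg_neg]
  · left; exact neg_injective h2

theorem Rel_mulA {A B : SL2} (h : Rel A B) : Rel A (B * A) := by
  unfold Rel at *
  rw [← mul_assoc, h]
  simp only [mul_assoc]

theorem Rel_mulAi {A B : SL2} (h : Rel A B) : Rel A (B * A⁻¹) := by
  unfold Rel at *
  rw [← mul_assoc, h, inv_mul_cancel_right, mul_assoc, mul_inv_cancel_right]

theorem Rel_mulB {A B : SL2} (h : Rel A B) : Rel (A * B) B := by
  unfold Rel at *
  have : A * B * B = C0 * (B * A) * B := by rw [h]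
  rw [this]
  simp only [mul_assoc]

theorem Rel_mulBi {A B : SL2} (h : Rel A B) : Rel (A * B⁻¹) B := by
  unfold Rel at *
  have h2 : A = C0 * (B * A) * B⁻¹ := by rw [← h, mul_inv_cancel_right]
  rw [inv_mul_cancel_right]
  nth_rw 1 [h2]
  simp only [mul_assoc]

theorem Rel_negA {A B : SL2} (h : Rel A B) : Rel (-A) B := by
  unfold Rel at *
  rw [neg_mul, h, mul_neg, mul_neg]

theorem Rel_negB {A B : SL2} (h : Rel A B) : Rel A (-B) := by
  unfold Rel at *
  rw [mul_neg, h, neg_mul, mul_neg]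

/-- the numeric descent -/
theorem desc {x y z z' : ℤ} (hx : 0 < x) (hy : 0 < y) (hz : 0 < z) (hz' : 0 < z')
    (h1 : z * z' = x ^ 2 + y ^ 2) (h2 : z + z' = 3 * x * y) (hne : ¬(x = 1 ∧ y = 1))
    (hxy : y ≤ x) : z < x ∨ z' < x := by
  by_contra hc
  push Not at hc
  obtain ⟨c1, c2⟩ := hc
  have h3 : 0 ≤ (z - x) * (z' - x) := mul_nonneg (by linarith) (by linarith)
  have h4 : 3 * x ^ 2 * y ≤ 2 * x ^ 2 + y ^ 2 := by nlinarith
  have hy2 : y ^ 2 ≤ x ^ 2 := by nlinarith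
  have hy1 : y = 1 := by
    by_contra hy1
    have : 2 ≤ y := by omega
    nlinarith [mul_pos hx hx]
  subst hy1
  have hx1 : x = 1 := by nlinarith
  exact hne ⟨hx1, rfl⟩

theorem T0_zpow (t : ℤ) : (T0 ^ t).1 = !![1, t; 0, 1] := by
  have h : T0 = ModularGroup.T := by decide
  rw [h]
  exact ModularGroup.coe_T_zpow t

theorem io_Omz (t : ℤ) (w : F) : io ((Om ^ t) w) = T0 ^ t * io w * (T0 ^ t)⁻¹ := by
  have hi : ∀ w : F, io (Om⁻¹ w) = T0⁻¹ * io w * T0 := by
    intro w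
    have h := io_Om (Om⁻¹ w)
    rw [← MulAut.mul_apply, mul_inv_cancel, MulAut.one_apply] at h
    rw [h]
    simp [mul_assoc]
  induction t using Int.induction_on generalizing w with
  | zero => simp
  | succ n ih =>
    rw [zpow_add_one, zpow_add_one, MulAut.mul_apply, ih, io_Om]
    simp only [mul_assoc, mul_inv_rev]
  | pred n ih =>
    rw [zpow_sub_one, zpow_sub_one, MulAut.mul_apply, ih, hi]
    simp only [mul_assoc, mul_inv_rev, inv_inv]

theorem zz_eq {A B : SL2} (h : Rel A B) :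
    zz A B = -B.1 1 0 * A.1 0 0 + A.1 1 0 * B.1 0 0 + 3 * A.1 1 0 * B.1 1 0 := by
  have hB := trB h
  have h2 : B.1 1 1 = -3 * B.1 1 0 - B.1 0 0 := by linarith
  unfold zz
  rw [mul10, h2]
  ring

theorem base1 {A B : SL2} (h : Rel A B) (hx : A.1 1 0 = 1) (hy : B.1 1 0 = -1)
    (hz : zz A B = 1) : PP A B := by
  have hA := trA h
  have hB := trB h
  have dA := det2 A
  have dB := det2 B
  rw [zz_eq h, hx, hy] at hz
  rw [hx] at hA dA
  rw [hy] at hB dB
  have e1 : A.1 1 1 = 3 - A.1 0 0 := by linarith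
  have e2 : B.1 0 0 = 4 - A.1 0 0 := by linarith
  have e3 : B.1 1 1 = A.1 0 0 - 1 := by linarith
  rw [e1] at dA
  rw [e2, e3] at dB
  refine ⟨Om ^ (A.1 0 0 - 2), zpow_mem Om_mem _, Or.inl ?_, Or.inl ?_⟩
  · rw [io_Omz, map_inv, io_a, inv_inv]
    refine ext4 ?_ ?_ ?_ ?_
    · simp only [mul00, mul01, mul10, mul11, inv00, inv01, inv10, inv11, T0_zpow]
      simp [A0]
    · simp only [mul00, mul01, mul10, mul11, inv00, inv01, inv10, inv11, T0_zpow]
      simp [A0]
      linarith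
    · simp only [mul00, mul01, mul10, mul11, inv00, inv01, inv10, inv11, T0_zpow]
      simp [A0, hx]
    · simp only [mul00, mul01, mul10, mul11, inv00, inv01, inv10, inv11, T0_zpow]
      simp [A0]
      linarith
  · rw [io_Omz, io_b]
    refine ext4 ?_ ?_ ?_ ?_
    · simp only [mul00, mul01, mul10, mul11, inv00, inv01, inv10, inv11, T0_zpow]
      simp [B0]
      linarith
    · simp only [mul00, mul01, mul10, mul11, inv00, inv01, inv10, inv11, T0_zpow]
      simp [B0]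
      linarith
    · simp only [mul00, mul01, mul10, mul11, inv00, inv01, inv10, inv11, T0_zpow]
      simp [B0, hy]
    · simp only [mul00, mul01, mul10, mul11, inv00, inv01, inv10, inv11, T0_zpow]
      simp [B0]
      linarith

theorem new1 {A B : SL2} : (B * A).1 1 0 = -zz A B := by
  unfold zz
  ring

theorem new2 {A B : SL2} (h : Rel A B) :
    (B * A⁻¹).1 1 0 = -(-3 * A.1 1 0 * B.1 1 0 - zz A B) := by
  have hA := trA h
  have hB := trB h
  have h1 : A.1 1 1 = 3 * A.1 1 0 - A.1 0 0 := by linarith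
  have h2 : B.1 1 1 = -3 * B.1 1 0 - B.1 0 0 := by linarith
  rw [zz_eq h, mul10, inv00, inv10, h1, h2]
  ring

theorem new3 {A B : SL2} (h : Rel A B) : (A * B).1 1 0 = zz A B := by
  have e10 := congrArg (fun M : SL2 => M.1 1 0) h
  simp only [mul10 C0, show C0.1 1 0 = 0 from rfl, show C0.1 1 1 = -1 from rfl] at e10
  rw [e10]
  unfold zz
  ring

theorem new4 {A B : SL2} (h : Rel A B) :
    (A * B⁻¹).1 1 0 = -3 * A.1 1 0 * B.1 1 0 - zz A B := by
  have hA := trA h
  have hB := trB h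
  have h1 : A.1 1 1 = 3 * A.1 1 0 - A.1 0 0 := by linarith
  have h2 : B.1 1 1 = -3 * B.1 1 0 - B.1 0 0 := by linarith
  rw [zz_eq h, mul10, inv00, inv10, h1, h2]
  ring

theorem base {A B : SL2} (h : Rel A B) (hx : A.1 1 0 = 1) (hy : B.1 1 0 = -1) : PP A B := by
  have hm := markov h
  rw [hx, hy] at hm
  have h3 : (zz A B - 1) * (zz A B - 2) = 0 := by linarith
  rcases mul_eq_zero.1 h3 with h3 | h3
  · exact base1 h hx hy (by linarith)
  · apply PP_mulAi
    refine base1 (Rel_mulAi h) hx ?_ ?_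
    · rw [new2 h, hx, hy]
      linarith
    · unfold zz
      rw [inv_mul_cancel_right, hy]
      norm_num

theorem descent (n : ℕ) : ∀ A B : SL2, Rel A B → 0 < A.1 1 0 → 0 < -B.1 1 0 →
    A.1 1 0 + -B.1 1 0 ≤ n → PP A B := by
  induction n with
  | zero =>
    intro A B _ h1 h2 h3
    push_cast at h3
    exfalso
    linarith
  | succ n ih =>
    intro A B h hx hy hn
    have hm := markov h
    have hz : 0 < zz A B := by
      by_contra hc
      push Not at hc
      have : 0 ≤ A.1 1 0 * -B.1 1 0 * -zz A B :=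
        mul_nonneg (mul_nonneg hx.le hy.le) (by linarith)
      nlinarith [mul_pos hx hx]
    have hzz : zz A B * (-3 * A.1 1 0 * B.1 1 0 - zz A B) = A.1 1 0 ^ 2 + (-B.1 1 0) ^ 2 := by
      linear_combination -hm
    have hz' : 0 < -3 * A.1 1 0 * B.1 1 0 - zz A B := by
      by_contra hc
      push Not at hc
      nlinarith [mul_pos hx hx]
    by_cases h11 : A.1 1 0 = 1 ∧ -B.1 1 0 = 1
    · exact base h h11.1 (by linarith [h11.2])
    rcases le_total (-B.1 1 0) (A.1 1 0) with hle | hle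
    · rcases desc hx hy hz hz' hzz (by ring) h11 hle with h4 | h4
      · refine PP_mulB (ih _ _ (Rel_mulB h) ?_ hy ?_)
        · rw [new3 h]; exact hz
        · rw [new3 h]; push_cast at hn; linarith
      · refine PP_mulBi (ih _ _ (Rel_mulBi h) ?_ hy ?_)
        · rw [new4 h]; exact hz'
        · rw [new4 h]; push_cast at hn; linarith
    · have h11' : ¬(-B.1 1 0 = 1 ∧ A.1 1 0 = 1) := fun hh => h11 ⟨hh.2, hh.1⟩
      rcases desc hy hx hz hz' (by rw [hzz]; ring) (by ring) h11' hle with h4 | h4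
      · refine PP_mulA (ih _ _ (Rel_mulA h) hx ?_ ?_)
        · rw [new1]; linarith
        · rw [new1]; push_cast at hn; linarith
      · refine PP_mulAi (ih _ _ (Rel_mulAi h) hx ?_ ?_)
        · rw [new2 h]; linarith
        · rw [new2 h]; push_cast at hn; linarith

theorem all {A B : SL2} (h : Rel A B) : PP A B := by
  have hm := markov h
  have key : ∀ A B : SL2, Rel A B → 0 < A.1 1 0 → 0 < -B.1 1 0 → PP A B := fun A B h h1 h2 =>
    descent (A.1 1 0 + -B.1 1 0).toNat A B h h1 h2 (by rw [Int.toNat_of_nonneg (by linarith)])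
  have hx0 : A.1 1 0 ≠ 0 := by
    intro h0
    have hA := trA h
    have dA := det2 A
    rw [h0] at hA dA
    have : A.1 1 1 = -A.1 0 0 := by linarith
    rw [this] at dA
    nlinarith [sq_nonneg (A.1 0 0)]
  have hy0 : B.1 1 0 ≠ 0 := by
    intro h0
    have hA := trB h
    have dA := det2 B
    rw [h0] at hA dA
    have : B.1 1 1 = -B.1 0 0 := by linarith
    rw [this] at dA
    nlinarith [sq_nonneg (B.1 0 0)]
  have k2 : ∀ A B : SL2, Rel A B → 0 < A.1 1 0 → B.1 1 0 ≠ 0 → PP A B := by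
    intro A B h h1 h2
    rcases lt_or_gt_of_ne h2 with h3 | h3
    · exact key A B h h1 (by linarith)
    · refine PP_negB (key A (-B) (Rel_negB h) h1 ?_)
      rw [neg10]
      linarith
  rcases lt_or_gt_of_ne hx0 with h3 | h3
  · refine PP_negA (k2 (-A) B (Rel_negA h) ?_ hy0)
    rw [neg10]
    linarith
  · exact k2 A B h h3 hy0

/-! ### The representation is faithful -/

/-- the linear action -/
def lin (M : SL2) (v : ℤ × ℤ) : ℤ × ℤ :=
  (M.1 0 0 * v.1 + M.1 0 1 * v.2, M.1 1 0 * v.1 + M.1 1 1 * v.2)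

theorem lin_mul (M N : SL2) (v : ℤ × ℤ) : lin (M * N) v = lin M (lin N v) := by
  unfold lin
  refine Prod.ext ?_ ?_
  · show (M * N).1 0 0 * v.1 + (M * N).1 0 1 * v.2 = _
    rw [mul00, mul01]
    ring
  · show (M * N).1 1 0 * v.1 + (M * N).1 1 1 * v.2 = _
    rw [mul10, mul11]
    ring

theorem lin_one (v : ℤ × ℤ) : lin 1 v = v := by
  unfold lin
  simp

/-- first sign of the sector of a letter -/
def e1 : Fin 2 × Bool → ℤ
  | (0, true) => -1
  | (0, false) => 1
  | (1, true) => -1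
  | (1, false) => 1

/-- second sign of the sector of a letter -/
def e2 : Fin 2 × Bool → ℤ
  | (0, true) => -1
  | (0, false) => 1
  | (1, true) => 1
  | (1, false) => -1

/-- the closed sector of a letter -/
def att (l : Fin 2 × Bool) (v : ℤ × ℤ) : Prop :=
  0 ≤ e1 l * (v.1 * v.2) ∧ 0 ≤ e2 l * (v.1 ^ 2 - v.2 ^ 2)

/-- the matrix of a letter -/
def ml (l : Fin 2 × Bool) : SL2 := io (FreeGroup.mk [l])

/-- the matrix of `a` -/
def A1 : SL2 := ⟨!![1, -1; -1, 2], by decide⟩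

/-- the matrix of `b⁻¹` -/
def B1 : SL2 := ⟨!![1, 1; 1, 2], by decide⟩

theorem A1_eq : A0⁻¹ = A1 := by decide
theorem B1_eq : B0⁻¹ = B1 := by decide

theorem ml_cases : ml (0, true) = A0⁻¹ ∧ ml (0, false) = A0 ∧ ml (1, true) = B0 ∧
    ml (1, false) = B0⁻¹ := by
  have h1 : ∀ i : Fin 2, (FreeGroup.mk [(i, false)] : F) = (FreeGroup.of i)⁻¹ := by
    intro i
    rfl
  refine ⟨io_a, ?_, io_b, ?_⟩
  · show io (FreeGroup.mk [((0 : Fin 2), false)]) = A0
    rw [h1, map_inv]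
    exact (congrArg (fun M => M⁻¹) io_a).trans (inv_inv _)
  · show io (FreeGroup.mk [((1 : Fin 2), false)]) = B0⁻¹
    rw [h1, map_inv]
    exact congrArg (fun M => M⁻¹) io_b

theorem step (l l' : Fin 2 × Bool) (hl : l.1 = l'.1 → l.2 = l'.2) (v : ℤ × ℤ)
    (hv : att l' v) : att l (lin (ml l) v) := by
  obtain ⟨u, w⟩ := v
  obtain ⟨c1, c2, c3, c4⟩ := ml_cases
  obtain ⟨i, x⟩ := l
  obtain ⟨j, y⟩ := l'
  rw [A1_eq] at c1
  rw [B1_eq] at c4
  unfold att lin at *
  fin_cases i <;> fin_cases j <;> cases x <;> cases y <;>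
    simp [e1, e2, c1, c2, c3, c4, A0, B0, A1, B1] at hl hv ⊢ <;>
    constructor <;> nlinarith [sq_nonneg (u + w), sq_nonneg (u - w), sq_nonneg u, sq_nonneg w]

theorem step0 (l : Fin 2 × Bool) (v : ℤ × ℤ) (hv : v.1 * v.2 = 0) : att l (lin (ml l) v) := by
  obtain ⟨u, w⟩ := v
  obtain ⟨c1, c2, c3, c4⟩ := ml_cases
  obtain ⟨i, x⟩ := l
  rw [A1_eq] at c1
  rw [B1_eq] at c4
  have hv : u * w = 0 := hv
  unfold att lin
  fin_cases i <;> cases x <;>
    simp [e1, e2, c1, c2, c3, c4, A0, B0, A1, B1] <;>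
    constructor <;> nlinarith [sq_nonneg u, sq_nonneg w]

theorem word_att (L : List (Fin 2 × Bool)) : ∀ l : Fin 2 × Bool, FreeGroup.IsReduced (l :: L) →
    ∀ v : ℤ × ℤ, v.1 * v.2 = 0 → att l (lin (io (FreeGroup.mk (l :: L))) v) := by
  induction L with
  | nil =>
    intro l _ v hv
    exact step0 l v hv
  | cons l' L ih =>
    intro l hL v hv
    have h1 : (FreeGroup.mk (l :: l' :: L) : F) = FreeGroup.mk [l] * FreeGroup.mk (l' :: L) := by
      rw [FreeGroup.mul_mk]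
      rfl
    rw [h1, map_mul, lin_mul]
    have hc := List.isChain_cons_cons.1 hL
    exact step l l' hc.1 _ (ih l' hc.2 v hv)

theorem io_injective : Function.Injective io := by
  rw [injective_iff_map_eq_one]
  intro g hg
  by_contra hne
  have hw : g.toWord ≠ [] := by
    intro h0
    exact hne (FreeGroup.toWord_eq_nil_iff.1 h0)
  obtain ⟨l, L, hL⟩ := List.exists_cons_of_ne_nil hw
  have hred : FreeGroup.IsReduced (l :: L) := hL ▸ FreeGroup.isReduced_toWord
  have hmk : FreeGroup.mk (l :: L) = g := by rw [← hL, FreeGroup.mk_toWord]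
  have key := word_att L l hred
  rw [hmk, hg] at key
  have k1 := key (1, 0) (by norm_num)
  have k2 := key (0, 1) (by norm_num)
  rw [lin_one] at k1 k2
  unfold att at k1 k2
  obtain ⟨i, x⟩ := l
  fin_cases i <;> cases x <;> simp [e2] at k1 k2

/-! ### Nielsen's theorem -/

/-- Every endomorphism of the free group fixing the commutator `cc` is in the image of the
braid group on three strands. -/
theorem nielsen (τ : F →* F) (h : τ cc = cc) : ∃ β ∈ G3, ∀ w, τ w = β w := by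
  have hio : io cc = C0 := by
    unfold cc
    rw [map_mul, map_mul, map_mul, map_inv, map_inv, io_a, io_b, inv_inv]
    exact comm0
  have hrel : Rel (io (τ a⁻¹)) (io (τ b)) := by
    unfold Rel
    have h2 : io (τ cc) = C0 := by rw [h, hio]
    unfold cc at h2
    simp only [map_mul, map_inv] at h2
    simp only [map_inv]
    rw [← h2]
    group
  obtain ⟨β, hβ, h1, h2⟩ := all hrel
  have tf : ∀ g g' : F, io g ≠ -io g' := by
    intro g g' hg
    have h3 : io (g * g'⁻¹) = -1 := by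
      rw [map_mul, map_inv, hg]
      simp
    have h4 : io ((g * g'⁻¹) * (g * g'⁻¹)) = io 1 := by
      rw [map_mul, h3, map_one]
      simp
    have h5 := io_injective h4
    have h6 : g * g'⁻¹ = 1 := by
      have : (g * g'⁻¹) ^ 2 = 1 := by rw [pow_two, h5]
      exact (pow_eq_one_iff_left two_ne_zero).1 this
    rw [h6, map_one] at h3
    have h7 := congrArg (fun M : SL2 => M.1 0 0) h3
    simp only [neg00] at h7
    simp at h7
  have h1' : τ a⁻¹ = β a⁻¹ := by
    rcases h1 with h1 | h1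
    · exact io_injective h1
    · exact absurd h1 (tf _ _)
  have h2' : τ b = β b := by
    rcases h2 with h2 | h2
    · exact io_injective h2
    · exact absurd h2 (tf _ _)
  refine ⟨β, hβ, fun w => ?_⟩
  have h3 : τ = β.toMonoidHom := by
    refine hom_ext2 ?_ h2'
    rw [map_inv, map_inv] at h1'
    exact inv_injective h1'
  exact DFunLike.congr_fun h3 w

end MPb66790.Niel57
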