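import Pool.Agent.Lib.MP_b66790_nt.Hecke.Even24

/-!
# Dessins of type `(3, 2, ∞)`: definitions and statements of the modules

A dessin is of type `(3, 2, ∞)` if all its ramification indices over `0` divide `3` and all its
ramification indices over `1` divide `2`. These are the subgroups of the modular group.
-/

namespace MPb66790.HK24

open MPb66790 MPb66790.CY24 Function

/-- The standard representation for the type `(3, 2, ∞)`: `x` goes to a rotation of order three,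
`y` to a rotation of order two (up to sign) and `(x y)⁻¹` to `[1 1; 0 1]`. -/
def mat3 : F2 →* Matrix.SpecialLinearGroup (Fin 2) ℤ :=
  FreeGroup.lift ![⟨!![1, 1; -1, 0], by simp [Matrix.det_fin_two]⟩,
    ⟨!![0, -1; 1, 0], by simp [Matrix.det_fin_two]⟩]

/-- The dessin `H` is of type `(3, 2, ∞)`. -/
def Tri (H : Subgroup (FHat 2)) : Prop := ∀ g : FHat 2, g * X ^ 3 * g⁻¹ ∈ H ∧ g * Y ^ 2 * g⁻¹ ∈ H

/-- `g` conjugates `h` to `k` up to sign. -/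
def Sim3 (g : Matrix (Fin 2) (Fin 2) ℤ) (h k : F2) : Prop :=
  g * (mat3 h).1 = (mat3 k).1 * g ∨ g * (mat3 h).1 = -((mat3 k).1 * g)

/-- The dessins `H` and `K` of type `(3, 2, ∞)` are related by `g`. -/
def Isog3 (g : Matrix (Fin 2) (Fin 2) ℤ) (H K : Subgroup (FHat 2)) : Prop :=
  Tri H ∧ Tri K ∧ ∃ H₀ K₀ : Subgroup F2, H₀.FiniteIndex ∧ K₀.FiniteIndex ∧
    (∀ h ∈ H₀, ∃ k ∈ K₀, Sim3 g h k) ∧ (∀ k ∈ K₀, ∃ h ∈ H₀, Sim3 g h k) ∧
    SameDessin (cl H₀) H ∧ SameDessin (cl K₀) K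

/-- `x ↦ σ₂ σ₁`, `y ↦ (σ₁ σ₂ σ₁)⁻¹`, so that `(x y)⁻¹ ↦ σ₁`. -/
noncomputable def iot3 : FHat 2 →ₜ* Hat Braid4 := ev ![s 1 * s 0, (s 0 * s 1 * s 0)⁻¹]

/-- `x ↦ σ₂ σ₁`, `y ↦ (σ₁ σ₂ σ₁)⁻¹`, so that `(x y)⁻¹ ↦ σ₁`. -/
def iotD3 : F2 →* Braid4 := FreeGroup.lift ![σ 1 * σ 0, (σ 0 * σ 1 * σ 0)⁻¹]

/-- The matrices of `σ₂ σ₁` and `(σ₁ σ₂ σ₁)⁻¹` on the homology in the basis `a, b`. -/
def matP3 : F2 →* Matrix.SpecialLinearGroup (Fin 2) ℤ :=
  FreeGroup.lift ![⟨!![1, -1; 1, 0], by simp [Matrix.det_fin_two]⟩,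
    ⟨!![0, 1; -1, 0], by simp [Matrix.det_fin_two]⟩]

/-- The same as `Sim3` with `matP3`. -/
def Sim3P (g : Matrix (Fin 2) (Fin 2) ℤ) (h k : F2) : Prop :=
  g * (matP3 h).1 = (matP3 k).1 * g ∨ g * (matP3 h).1 = -((matP3 k).1 * g)

/-! ## Statements -/

/-- CNB (57): every element of `B₃` in the stabiliser has a discrete partner. -/
def StCNB : Prop := ∀ (n : ℕ), ∀ g ∈ B3,
  (∀ w', CJ g (FreeGroup.of 1) w' → ((n : ℤ) + 1) ∣ vec w' 1) → ∃ β ∈ B3, Rel n (of g) (of β)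

/-- SIM3 (57, from CNB and M3). -/
def StSim3 : Prop := ∀ (n : ℕ) (h k : F2), Sim3P (dg n) h k →
  ∃ j : ℤ, Rel n (of (iotD3 h)) (of (iotD3 k * zD ^ j))

/-- RM3 (51). -/
def StRM3 : Prop := ∀ (n : ℕ) (h k : F2) (j : ℤ), Rel n (of (iotD3 h)) (of (iotD3 k * zD ^ j)) →
  Sim3P (dg n) h k

/-- CB (51): `ζ` is a partner of `ζ`. -/
def StCB : Prop := ∀ (n : ℕ) (e : ZHat), Rel n (pow cB e) (pow cB e)

/-- CL3 (32): the closure lemma. -/
def StCl3 : Prop := ∀ (n : ℕ) (u v : FHat 2) (e : ZHat), Rel n (iot3 u) (iot3 v * pow cB e) →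
  ∃ (v' : FHat 2) (e' : ZHat), iot3 v' = iot3 v * pow cB e' ∧
    ((u, v') : FHat 2 × FHat 2) ∈ closure {p | ∃ h k : F2, Sim3P (dg n) h k ∧ p = (of h, of k)}

/-- KER3 (31): the kernel of `iot3` modulo the powers of `ζ`. -/
def StKer3 : Prop := ∀ (w : FHat 2) (e : ZHat), iot3 w = pow cB e →
  ∀ H : Subgroup (FHat 2), IsOpen (H : Set (FHat 2)) → Tri H → w ∈ H

/-- GT (31): the graph lemma with a kernel. -/
def StGT : Prop := ∀ R : Subgroup (F2 × F2), (R.map (MonoidHom.fst F2 F2)).FiniteIndex →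
  ∀ K : Subgroup (FHat 2), IsOpen (K : Set (FHat 2)) →
  (∀ k, ((1 : F2), k) ∈ R → ∀ g : FHat 2, g * of k * g⁻¹ ∈ K) →
  ∀ (h : F2) (v : FHat 2), v ∈ K → ((of h, v) : FHat 2 × FHat 2) ∈
      closure ((fun p : F2 × F2 => ((of p.1, of p.2) : FHat 2 × FHat 2)) '' (R : Set (F2 × F2))) →
    ∃ k, of k ∈ K ∧ (h, k) ∈ R

/-- CMP3 (67): the comparison of the two actions. -/
def StCmp3 : Prop := ∀ (lam : ZHat) (f : FHat 2) (h : IsGT lam f), ∃ y : FHat 2, ∀ u : FHat 2,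
  ∃ e : ZHat, Phi h (iot3 u) = iot3 (y * phi lam f u * y⁻¹) * pow cB e

/-- The theorem for the diagonal matrices. -/
def StDiag3 : Prop := ∀ (lam : ZHat) (f : FHat 2), IsGT lam f → ∀ (n : ℕ) (H K : Subgroup (FHat 2)),
  Isog3 (dg n) H K → Isog3 (dg n) (act lam f H) (act lam f K)

/-- The theorem. -/
def StAll3 : Prop := ∀ (lam : ZHat) (f : FHat 2), IsGT lam f →
  ∀ (g : Matrix (Fin 2) (Fin 2) ℤ), 0 < g.det → ∀ (H K : Subgroup (FHat 2)), Isog3 g H K →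
  Isog3 g (act lam f H) (act lam f K)

/-- GEN3 (31 or 57): from the diagonal case to all (Smith normal form; `mat3` is onto up to sign,
so only inner automorphisms are needed). -/
def StGen3 : Prop := StDiag3 → StAll3

end MPb66790.HK24
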