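import Pool.Agent.Lib.MP_b66790_nt.Hecke.Phi24
import Pool.Agent.Lib.MP_b66790_nt.ModH

/-!
# The action of `Φ` on the relation of partners
-/

namespace MPb66790.HK24

open MPb66790 MPb66790.CY24 Function

theorem jH_X : jH X = pB⁻¹ * rB := ev_gen _ _

theorem jH_Y : jH Y = pB := ev_gen _ _

theorem s0_p : s 0 * pB * (s 0)⁻¹ = pB := by
  have e : Commute (s 0) pB := by
    unfold pB
    exact (Commute.refl _).mul_right comm_zero_two.inv_right
  exact mul_inv_eq_iff_eq_mul.2 e.eq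

theorem s0_r : s 0 * rB * (s 0)⁻¹ = rB * pB⁻¹ := w_a_r isBraid_s.1 isBraid_s.2.1

/-- `σ₁ b σ₁⁻¹ = b a⁻¹`. -/
theorem s0_b : s 0 * jH X * (s 0)⁻¹ = jH X * (jH Y)⁻¹ := by
  rw [jH_X, jH_Y]
  calc s 0 * (pB⁻¹ * rB) * (s 0)⁻¹ = (s 0 * pB * (s 0)⁻¹)⁻¹ * (s 0 * rB * (s 0)⁻¹) := by group
    _ = _ := by
      rw [s0_p, s0_r]
      group

theorem comm_s0_a : Commute (s 0) (jH Y) := by
  rw [jH_Y]
  exact mul_inv_eq_iff_eq_mul.1 s0_p

/-- `σ₁ᵉ b σ₁⁻ᵉ = b a⁻ᵉ`. -/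
theorem s0_pow_b (e : ZHat) :
    pow (s 0) e * jH X * (pow (s 0) e)⁻¹ = jH X * (pow (jH Y) e)⁻¹ := by
  have h1 : (jH X)⁻¹ * s 0 * jH X = (jH Y)⁻¹ * s 0 := by
    have h2 : s 0 * jH X = jH X * (jH Y)⁻¹ * s 0 := mul_inv_eq_iff_eq_mul.1 s0_b
    rw [mul_assoc, h2]
    group
  have h2 := conj_pow' (jH X)⁻¹ (s 0) e
  rw [inv_inv, h1, pow_mul_comm24 comm_s0_a.symm.inv_left, pow_inv24 (jH Y) e] at h2
  have h3 : pow (s 0) e * jH X = jH X * ((jH Y |> fun a => (pow a e)⁻¹) * pow (s 0) e) := by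
    show pow (s 0) e * jH X = jH X * ((pow (jH Y) e)⁻¹ * pow (s 0) e)
    rw [← h2]
    group
  rw [h3]
  show jH X * ((pow (jH Y) e)⁻¹ * pow (s 0) e) * (pow (s 0) e)⁻¹ = _
  group

/-- Conjugation by `σ₁⁻ᵏ` on the kernel of `rho`. -/
theorem jH_twist (k : ZHat) (w : FHat 2) :
    jH (ev ![X * pow Y k, Y] w) = (pow (s 0) k)⁻¹ * jH w * (pow (s 0) k)⁻¹⁻¹ := by
  refine FHat2_ext (φ := jH.toMonoidHom.comp (ev ![X * pow Y k, Y]).toMonoidHom)
    (ψ := (MulAut.conj (pow (s 0) k)⁻¹).toMonoidHom.comp jH.toMonoidHom)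
    (jH.continuous_toFun.comp (ev ![X * pow Y k, Y]).continuous_toFun) ?_ ?_ ?_ w
  · exact (continuous_const.mul jH.continuous_toFun).mul continuous_const
  · show jH (ev ![X * pow Y k, Y] X) = (pow (s 0) k)⁻¹ * jH X * (pow (s 0) k)⁻¹⁻¹
    have e : ev ![X * pow Y k, Y] X = X * pow Y k := ev_gen _ _
    have h := s0_pow_b k
    rw [e, map_mul, map_pow', inv_inv]
    have c : Commute (pow (s 0) k) (pow (jH Y) k) :=
      commute_pow (commute_pow comm_s0_a.symm k).symm k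
    have h2 : jH X * (pow (jH Y) k)⁻¹ * pow (s 0) k = pow (s 0) k * jH X := by
      rw [← h]
      group
    have h3 : jH X * pow (s 0) k * (pow (jH Y) k)⁻¹ = pow (s 0) k * jH X := by
      rw [← h2, mul_assoc, c.inv_right.eq, ← mul_assoc]
    have h4 : jH X * pow (s 0) k = pow (s 0) k * jH X * pow (jH Y) k := by
      rw [← h3]
      group
    rw [mul_assoc, h4]
    group
  · show jH (ev ![X * pow Y k, Y] Y) = (pow (s 0) k)⁻¹ * jH Y * (pow (s 0) k)⁻¹⁻¹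
    have e : ev ![X * pow Y k, Y] Y = Y := ev_gen _ _
    have c : Commute (pow (s 0) k) (jH Y) := (commute_pow comm_s0_a.symm k).symm
    rw [e, inv_inv, mul_assoc, ← c.eq]
    group

variable {lam : ZHat} {f : FHat 2}

/-- `Φ` maps partners to partners, up to a power of `σ₁`. -/
theorem rel_Phi (hT : StT) (hA : StAlpha) (h : IsGT lam f) (n : ℕ) : ∃ κ : ZHat,
    ∀ g g' : Hat Braid4, Rel n g g' →
      Rel n (Phi h g) (pow (s 0) κ * Phi h g' * (pow (s 0) κ)⁻¹) := by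
  obtain ⟨Ψ, hΨ, hj, hc, ht, hchi⟩ := hT lam f h (Phi h) (Phi_bij h) (Phi_zero h) (Phi_one h)
    (Phi_two h) (Phi_cB h) (rho_Phi h)
  obtain ⟨k, hk⟩ := hA Ψ hΨ ⟨lam, hc⟩ ht hchi n
  have hchiY : chi n (Ψ Y) = 1 := by
    obtain ⟨t, ht⟩ := ht
    rw [ht]
    have e1 : chi n (ev ![Y, X * Y * X⁻¹] t) =
        evF (fun i => chi n ((![Y, X * Y * X⁻¹] : Fin 2 → FHat 2) i)) t := evF_ev _ _ _
    have e2 : (fun i => chi n ((![Y, X * Y * X⁻¹] : Fin 2 → FHat 2) i)) = fun _ => 1 := by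
      funext i
      fin_cases i
      · exact chi_Y
      · show chi n (X * Y * X⁻¹) = 1
        rw [map_mul, map_mul, map_inv, chi_Y]
        group
    rw [e1, e2]
    exact evF_one' t
  have hchi' : ∀ x, chi n (Ψ x) = chi n x := by
    intro x
    refine hatF_ext (φ := (chi n).comp Ψ.toMonoidHom) (ψ := chi n) (fun S => ?_)
      (fun S => (isClopen_lftF _ S).isClosed) (fun g => ?_) x
    · exact (isClopen_lftF _ S).isClosed.preimage Ψ.continuous_toFun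
    · have e : (((chi n).comp Ψ.toMonoidHom).comp of : FreeGroup (Fin 2) →* _) =
          (chi n).comp of := by
        refine FreeGroup.ext_hom _ _ fun i => ?_
        fin_cases i
        · exact hchi n
        · show chi n (Ψ Y) = chi n Y
          rw [hchiY, chi_Y]
      exact DFunLike.congr_fun e g
  refine ⟨(pow lam k)⁻¹, fun g g' hg w => ?_⟩
  obtain ⟨x, hx⟩ := hΨ.2 (covMap n w)
  obtain ⟨w1, hw1⟩ : ∃ w1, covMap n w1 = x := by
    refine exists_cov_of_chi ?_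
    rw [← hchi', hx, chi_cov]
  obtain ⟨w2, h1, h2⟩ := hg w1
  obtain ⟨w1', h3, h4⟩ := hk w1
  obtain ⟨w2', h5, h6⟩ := hk w2
  have hw : w1' = w := by
    refine cov_inj ?_
    rw [← h3, hw1, hx]
  rw [hw] at h4
  refine ⟨w2', ?_, ?_⟩
  · rw [← h5, hj, ← h1, map_mul, map_mul, map_inv, ← hj, hw1, hx]
  · have e1 : jH (isoMap n w) =
        Phi h ((pow (s 0) k)⁻¹ * jH (isoMap n w1) * (pow (s 0) k)⁻¹⁻¹) := by
      rw [h4, hj, jH_twist]
    have e2 : jH (isoMap n w2') =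
        Phi h ((pow (s 0) k)⁻¹ * jH (isoMap n w2) * (pow (s 0) k)⁻¹⁻¹) := by
      rw [h6, hj, jH_twist]
    have e3 : pow (s 0) (pow lam k)⁻¹ = Phi h (pow (s 0) k)⁻¹ := by
      rw [map_inv, map_pow', Phi_zero, pow_pow]
      exact map_inv (ev (fun _ : Fin 1 => s 0)) (pow lam k)
    rw [e1, e2, ← h2, e3, ← map_inv, ← map_mul, ← map_mul, ← map_inv, ← map_mul, ← map_mul]
    congr 1
    group

end MPb66790.HK24
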