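import Pool.Agent.Lib.MP_b66790_nt.Hecke.Orb24
import Pool.Agent.Lib.MP_b66790_nt.Hecke.Sl31
import Pool.Agent.Lib.MP_b66790_nt.Hecke.Ind67

/-!
# Dessins of type `(3, 2, ∞)`: the diagonal case
-/

namespace MPb66790.HK24

open MPb66790 MPb66790.CY24 Function

/-! ## Matrices -/

theorem matP3_eq (k : F2) : (matP3 k).1 = EE * (mat3 k).1 * EE := by
  have hinv : ∀ A B : Matrix.SpecialLinearGroup (Fin 2) ℤ, A.1 = EE * B.1 * EE →
      (A⁻¹).1 = EE * (B⁻¹).1 * EE := by
    intro A B h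
    rw [Matrix.SpecialLinearGroup.coe_inv, Matrix.SpecialLinearGroup.coe_inv, h]
    have eE : Matrix.adjugate EE = -EE := by
      unfold EE
      rw [Matrix.adjugate_fin_two]
      ext i j
      fin_cases i <;> fin_cases j <;> simp
    rw [Matrix.adjugate_mul_distrib, Matrix.adjugate_mul_distrib, eE]
    simp [mul_assoc]
  induction k using FreeGroup.induction_on with
  | C1 => simp [EE_mul]
  | of i =>
    fin_cases i
    · show (matP3 (FreeGroup.of 0)).1 = EE * (mat3 (FreeGroup.of 0)).1 * EE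
      unfold matP3 mat3 EE
      rw [FreeGroup.lift_apply_of, FreeGroup.lift_apply_of]
      ext i j
      fin_cases i <;> fin_cases j <;> simp [Matrix.mul_apply, Fin.sum_univ_two]
    · show (matP3 (FreeGroup.of 1)).1 = EE * (mat3 (FreeGroup.of 1)).1 * EE
      unfold matP3 mat3 EE
      rw [FreeGroup.lift_apply_of, FreeGroup.lift_apply_of]
      ext i j
      fin_cases i <;> fin_cases j <;> simp [Matrix.mul_apply, Fin.sum_univ_two]
  | inv_of i ih =>
    rw [map_inv, map_inv]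
    exact hinv _ _ ih
  | mul a b ha hb =>
    rw [map_mul, map_mul, Matrix.SpecialLinearGroup.coe_mul, Matrix.SpecialLinearGroup.coe_mul,
      ha, hb]
    calc EE * (mat3 a).1 * EE * (EE * (mat3 b).1 * EE)
        = EE * (mat3 a).1 * (EE * EE) * (mat3 b).1 * EE := by noncomm_ring
      _ = _ := by rw [EE_mul]; noncomm_ring

theorem mat3_eq (k : F2) : (mat3 k).1 = EE * (matP3 k).1 * EE := by
  rw [matP3_eq]
  calc (mat3 k).1 = (EE * EE) * (mat3 k).1 * (EE * EE) := by rw [EE_mul]; simp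
    _ = _ := by noncomm_ring

/-- Conjugation of a relation by `E`. -/
theorem conjE {g A B : Matrix (Fin 2) (Fin 2) ℤ} (h : g * A = B * g ∨ g * A = -(B * g)) :
    EE * g * EE * (EE * A * EE) = EE * B * EE * (EE * g * EE) ∨
      EE * g * EE * (EE * A * EE) = -(EE * B * EE * (EE * g * EE)) := by
  have e1 : EE * g * EE * (EE * A * EE) = EE * (g * A) * EE := by
    calc EE * g * EE * (EE * A * EE) = EE * g * (EE * EE) * A * EE := by noncomm_ring
      _ = _ := by rw [EE_mul]; noncomm_ring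
  have e2 : EE * B * EE * (EE * g * EE) = EE * (B * g) * EE := by
    calc EE * B * EE * (EE * g * EE) = EE * B * (EE * EE) * g * EE := by noncomm_ring
      _ = _ := by rw [EE_mul]; noncomm_ring
  rw [e1, e2]
  rcases h with h | h
  · left
    rw [h]
  · right
    rw [h]
    noncomm_ring

theorem sim3P_of {n : ℕ} {h k : F2} (hs : Sim3 (dg n) h k) : Sim3P (dg n) h k := by
  have h1 := conjE hs
  rw [EE_dg, ← matP3_eq, ← matP3_eq] at h1
  exact h1

theorem sim3_of {n : ℕ} {h k : F2} (hs : Sim3P (dg n) h k) : Sim3 (dg n) h k := by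
  have h1 := conjE hs
  rw [EE_dg, ← mat3_eq, ← mat3_eq] at h1
  exact h1

theorem sim3P_iff {g : Matrix (Fin 2) (Fin 2) ℤ} {h k : F2} :
    Sim3P g h k ↔ ∃ ε : ℤ, ε * ε = 1 ∧ g * (matP3 h).1 = ε • ((matP3 k).1 * g) := by
  constructor
  · rintro (e | e)
    · exact ⟨1, by norm_num, by rw [one_smul]; exact e⟩
    · exact ⟨-1, by norm_num, by rw [neg_one_smul]; exact e⟩
  · rintro ⟨ε, h1, e⟩
    rcases sgn_one h1 with rfl | rfl
    · left
      rwa [one_smul] at e
    · right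
      rwa [neg_one_smul] at e

/-- The pairs of words whose matrices correspond, as a subgroup. -/
def RS3 (n : ℕ) : Subgroup (F2 × F2) where
  carrier := {p | Sim3P (dg n) p.1 p.2}
  mul_mem' := by
    rintro ⟨a, b⟩ ⟨c, d⟩ h1 h2
    obtain ⟨ε, e1, e2⟩ := sim3P_iff.1 h1
    obtain ⟨δ, e3, e4⟩ := sim3P_iff.1 h2
    refine sim3P_iff.2 ⟨ε * δ, ?_, ?_⟩
    · calc ε * δ * (ε * δ) = (ε * ε) * (δ * δ) := by ring
        _ = 1 := by rw [e1, e3, one_mul]
    · show dg n * (matP3 (a * c)).1 = (ε * δ) • ((matP3 (b * d)).1 * dg n)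
      rw [map_mul, map_mul, Matrix.SpecialLinearGroup.coe_mul,
        Matrix.SpecialLinearGroup.coe_mul]
      exact sgn_mul e2 e4
  one_mem' := by
    refine sim3P_iff.2 ⟨1, by norm_num, ?_⟩
    simp
  inv_mem' := by
    rintro ⟨a, b⟩ h1
    obtain ⟨ε, e1, e2⟩ := sim3P_iff.1 h1
    refine sim3P_iff.2 ⟨ε, e1, ?_⟩
    show dg n * (matP3 a⁻¹).1 = ε • ((matP3 b⁻¹).1 * dg n)
    rw [map_inv, map_inv]
    exact sgn_inv e1 e2

/-- A matrix that is related to `1` by a diagonal matrix. -/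
theorem dg_aux (n : ℕ) {A : Matrix (Fin 2) (Fin 2) ℤ} {ε : ℤ} (e1 : ε * ε = 1)
    (e2 : dg n * 1 = ε • (A * dg n)) : A = 1 ∨ A = -1 := by
  rw [mul_one] at e2
  have hn : ((n : ℤ) + 1) ≠ 0 := by positivity
  have e00 := congrFun (congrFun e2 0) 0
  have e01 := congrFun (congrFun e2 0) 1
  have e10 := congrFun (congrFun e2 1) 0
  have e11 := congrFun (congrFun e2 1) 1
  simp [dg, Matrix.mul_apply, Fin.sum_univ_two] at e00 e01 e10 e11
  have h00 : 1 = ε * A 0 0 := by
    have : ((n : ℤ) + 1) * 1 = ((n : ℤ) + 1) * (ε * A 0 0) := by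
      rw [mul_one]
      calc (n : ℤ) + 1 = ε * (A 0 0 * ((n : ℤ) + 1)) := e00
        _ = _ := by ring
    exact mul_left_cancel₀ hn this
  rcases sgn_one e1 with rfl | rfl
  · left
    ext i j
    fin_cases i <;> fin_cases j <;> simp
    · linarith
    · simpa using e01.symm
    · rcases e10 with e | e | e
      · norm_num at e
      · exact e
      · exact absurd e hn
    · linarith
  · right
    ext i j
    fin_cases i <;> fin_cases j <;> simp
    · linarith
    · simpa using e01.symm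
    · rcases e10 with e | e | e
      · norm_num at e
      · exact e
      · exact absurd e hn
    · linarith

theorem dg_aux' (n : ℕ) {A : Matrix (Fin 2) (Fin 2) ℤ} {ε : ℤ} (e1 : ε * ε = 1)
    (e2 : dg n * A = ε • (1 * dg n)) : A = 1 ∨ A = -1 := by
  rw [one_mul] at e2
  have hn : ((n : ℤ) + 1) ≠ 0 := by positivity
  have e00 := congrFun (congrFun e2 0) 0
  have e01 := congrFun (congrFun e2 0) 1
  have e10 := congrFun (congrFun e2 1) 0
  have e11 := congrFun (congrFun e2 1) 1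
  simp [dg, Matrix.mul_apply, Fin.sum_univ_two] at e00 e01 e10 e11
  have h00 : A 0 0 = ε := by
    have : ((n : ℤ) + 1) * A 0 0 = ((n : ℤ) + 1) * ε := by
      calc ((n : ℤ) + 1) * A 0 0 = ε * ((n : ℤ) + 1) := e00
        _ = _ := by ring
    exact mul_left_cancel₀ hn this
  have h01 : A 0 1 = 0 := by
    rcases e01 with e | e
    · exact absurd e hn
    · exact e
  rcases sgn_one e1 with rfl | rfl
  · left
    ext i j
    fin_cases i <;> fin_cases j <;> simp
    · exact h00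
    · exact h01
    · exact e10
    · exact e11
  · right
    ext i j
    fin_cases i <;> fin_cases j <;> simp
    · exact h00
    · exact h01
    · exact e10
    · exact e11

theorem mat3_one_of {k : F2} (h : (matP3 k).1 = 1 ∨ (matP3 k).1 = -1) :
    (mat3 k).1 = 1 ∨ (mat3 k).1 = -1 := by
  rw [mat3_eq]
  rcases h with h | h
  · left
    rw [h, mul_one, EE_mul]
  · right
    rw [h, mul_neg, mul_one, neg_mul, EE_mul]

theorem rs3_left {n : ℕ} {k : F2} (hk : ((1 : F2), k) ∈ RS3 n) :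
    (mat3 k).1 = 1 ∨ (mat3 k).1 = -1 := by
  obtain ⟨ε, e1, e2⟩ := sim3P_iff.1 (show Sim3P (dg n) 1 k from hk)
  rw [map_one, Matrix.SpecialLinearGroup.coe_one] at e2
  exact mat3_one_of (dg_aux n e1 e2)

theorem rs3_right {n : ℕ} {k : F2} (hk : (k, (1 : F2)) ∈ RS3 n) :
    (mat3 k).1 = 1 ∨ (mat3 k).1 = -1 := by
  obtain ⟨ε, e1, e2⟩ := sim3P_iff.1 (show Sim3P (dg n) k 1 from hk)
  rw [map_one, Matrix.SpecialLinearGroup.coe_one] at e2
  exact mat3_one_of (dg_aux' n e1 e2)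

theorem rs3_of_one {n : ℕ} {k : F2} (h : (mat3 k).1 = 1 ∨ (mat3 k).1 = -1) :
    ((1 : F2), k) ∈ RS3 n := by
  have h1 : (matP3 k).1 = 1 ∨ (matP3 k).1 = -1 := by
    rw [matP3_eq]
    rcases h with h | h
    · left
      rw [h, mul_one, EE_mul]
    · right
      rw [h, mul_neg, mul_one, neg_mul, EE_mul]
  show Sim3P (dg n) 1 k
  rcases h1 with h1 | h1
  · left
    rw [h1, map_one]
    simp
  · right
    rw [h1, map_one]
    simp

/-! ## The kernel -/

theorem ext2 {G : Type} [Group G] {φ ψ : F2 →* G} (h0 : φ (FreeGroup.of 0) = ψ (FreeGroup.of 0))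
    (h1 : φ (FreeGroup.of 1) = ψ (FreeGroup.of 1)) (w : F2) : φ w = ψ w := by
  have e : φ = ψ := by
    refine FreeGroup.ext_hom _ _ fun i => ?_
    fin_cases i
    · exact h0
    · exact h1
  rw [e]

/-- The words in `σ₁, σ₂`. -/
def th3 : F2 →* F2 := FreeGroup.lift ![FreeGroup.of 1 * FreeGroup.of 0,
  (FreeGroup.of 0 * FreeGroup.of 1 * FreeGroup.of 0)⁻¹]

theorem iotD3_eq (k : F2) : iotD3 k = FreeGroup.lift ![σ 0, σ 1] (th3 k) := by
  refine ext2 (φ := iotD3) (ψ := (FreeGroup.lift ![σ 0, σ 1]).comp th3) ?_ ?_ k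
  · show iotD3 (FreeGroup.of 0) = FreeGroup.lift ![σ 0, σ 1] (th3 (FreeGroup.of 0))
    unfold iotD3 th3
    rw [FreeGroup.lift_apply_of, FreeGroup.lift_apply_of]
    show σ 1 * σ 0 = FreeGroup.lift ![σ 0, σ 1] (FreeGroup.of 1 * FreeGroup.of 0)
    rw [map_mul, FreeGroup.lift_apply_of, FreeGroup.lift_apply_of]
    rfl
  · show iotD3 (FreeGroup.of 1) = FreeGroup.lift ![σ 0, σ 1] (th3 (FreeGroup.of 1))
    unfold iotD3 th3
    rw [FreeGroup.lift_apply_of, FreeGroup.lift_apply_of]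
    show (σ 0 * σ 1 * σ 0)⁻¹ = FreeGroup.lift ![σ 0, σ 1]
      (FreeGroup.of 0 * FreeGroup.of 1 * FreeGroup.of 0)⁻¹
    rw [map_inv, map_mul, map_mul, FreeGroup.lift_apply_of, FreeGroup.lift_apply_of]
    rfl

theorem mat3_eq_m3 (k : F2) : mat3 k = HK31.m3_31 (th3 k) := by
  refine ext2 (φ := mat3) (ψ := HK31.m3_31.comp th3) ?_ ?_ k
  · show mat3 (FreeGroup.of 0) = HK31.m3_31 (th3 (FreeGroup.of 0))
    unfold mat3 th3 HK31.m3_31
    rw [FreeGroup.lift_apply_of, FreeGroup.lift_apply_of]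
    show _ = FreeGroup.lift ![HK31.u1_31, HK31.u2_31] (FreeGroup.of 1 * FreeGroup.of 0)
    rw [map_mul, FreeGroup.lift_apply_of, FreeGroup.lift_apply_of]
    show (⟨!![1, 1; -1, 0], _⟩ : Matrix.SpecialLinearGroup (Fin 2) ℤ) = HK31.u2_31 * HK31.u1_31
    decide
  · show mat3 (FreeGroup.of 1) = HK31.m3_31 (th3 (FreeGroup.of 1))
    unfold mat3 th3 HK31.m3_31
    rw [FreeGroup.lift_apply_of, FreeGroup.lift_apply_of]
    show _ = FreeGroup.lift ![HK31.u1_31, HK31.u2_31]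
      (FreeGroup.of 0 * FreeGroup.of 1 * FreeGroup.of 0)⁻¹
    rw [map_inv, map_mul, map_mul, FreeGroup.lift_apply_of, FreeGroup.lift_apply_of]
    show (⟨!![0, -1; 1, 0], _⟩ : Matrix.SpecialLinearGroup (Fin 2) ℤ) =
      (HK31.u1_31 * HK31.u2_31 * HK31.u1_31)⁻¹
    decide

/-- A word with matrix `1` or `-1` goes to a power of `ζ`. -/
theorem ker3 {k : F2} (h : (mat3 k).1 = 1 ∨ (mat3 k).1 = -1) : ∃ j : ℤ, iotD3 k = zD ^ j := by
  have h1 : HK31.m3_31 (th3 k) = 1 ∨ HK31.m3_31 (th3 k) = -1 := by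
    rw [← mat3_eq_m3]
    rcases h with h | h
    · left
      exact Subtype.ext h
    · right
      exact Subtype.ext (by rw [h]; rfl)
  obtain ⟨j, hj⟩ := HK31.d3_31 isBraid_σ.1 (th3 k) h1
  exact ⟨j, by rw [iotD3_eq, hj]; rfl⟩

theorem iot3_of (k : F2) : iot3 (of k) = of (iotD3 k) := by
  refine ext2 (φ := iot3.toMonoidHom.comp of) (ψ := of.comp iotD3) ?_ ?_ k
  · show iot3 X = of (iotD3 (FreeGroup.of 0))
    have e1 : iot3 X = s 1 * s 0 := ev_gen _ _
    unfold iotD3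
    rw [e1, FreeGroup.lift_apply_of]
    show _ = of (σ 1 * σ 0)
    rw [map_mul, of_σ, of_σ]
  · show iot3 Y = of (iotD3 (FreeGroup.of 1))
    have e1 : iot3 Y = (s 0 * s 1 * s 0)⁻¹ := ev_gen _ _
    unfold iotD3
    rw [e1, FreeGroup.lift_apply_of]
    show _ = of (σ 0 * σ 1 * σ 0)⁻¹
    rw [map_inv, map_mul, map_mul, of_σ, of_σ]

theorem Tri.cj {H : Subgroup (FHat 2)} (h : Tri H) (y : FHat 2) : Tri (cj y H) := by
  intro g
  constructor
  · rw [mem_cj]
    have e : y⁻¹ * (g * X ^ 3 * g⁻¹) * y = (y⁻¹ * g) * X ^ 3 * (y⁻¹ * g)⁻¹ := by group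
    rw [e]
    exact (h _).1
  · rw [mem_cj]
    have e : y⁻¹ * (g * Y ^ 2 * g⁻¹) * y = (y⁻¹ * g) * Y ^ 2 * (y⁻¹ * g)⁻¹ := by group
    rw [e]
    exact (h _).2

/-- The kernel is contained in every open subgroup of type `(3, 2, ∞)`. -/
theorem ker3_mem (hK : StKer3) {k : F2} (h : (mat3 k).1 = 1 ∨ (mat3 k).1 = -1)
    {H : Subgroup (FHat 2)} (hH : IsOpen (H : Set (FHat 2))) (hT : Tri H) (g : FHat 2) :
    g * of k * g⁻¹ ∈ H := by
  obtain ⟨j, hj⟩ := ker3 h
  have h1 : iot3 (of k) = pow cB (zgen ^ j) := by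
    rw [iot3_of, hj, of_zD]
  have h2 := hK (of k) _ h1 (cj g⁻¹ H) (isOpen_cj _ hH) (hT.cj _)
  rw [mem_cj] at h2
  have e : g⁻¹⁻¹ * of k * g⁻¹ = g * of k * g⁻¹ := by group
  rwa [e] at h2

/-- The words with matrix `1` or `-1`. -/
def N3 : Subgroup F2 := (RS3 0).comap (MonoidHom.inr F2 F2)

theorem mem_N3 {k : F2} : k ∈ N3 ↔ (mat3 k).1 = 1 ∨ (mat3 k).1 = -1 := by
  constructor
  · intro h
    exact rs3_left (n := 0) h
  · intro h
    exact rs3_of_one h

theorem conj_N3 {k : F2} (hk : k ∈ N3) (g : F2) : g * k * g⁻¹ ∈ N3 := by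
  rw [mem_N3] at hk ⊢
  have a1 : (mat3 g).1 * (mat3 g⁻¹).1 = 1 := by
    rw [← Matrix.SpecialLinearGroup.coe_mul, ← map_mul, mul_inv_cancel, map_one,
      Matrix.SpecialLinearGroup.coe_one]
  rw [map_mul, map_mul, Matrix.SpecialLinearGroup.coe_mul, Matrix.SpecialLinearGroup.coe_mul]
  rcases hk with h | h
  · left
    rw [h, mul_one, a1]
  · right
    rw [h, mul_neg, mul_one, neg_mul, a1]

/-- The kernel is the closure of the discrete kernel. -/
theorem ker3_closure (hK : StKer3) {w : FHat 2} {e : ZHat} (hw : iot3 w = pow cB e) :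
    w ∈ closure (of '' (N3 : Set F2) : Set (FHat 2)) := by
  by_contra hne
  obtain ⟨Q, i1, i2, φ, hφ, h2⟩ := sep (C := closure (of '' (N3 : Set F2) : Set (FHat 2)))
    isClosed_closure hne
  let M : Subgroup Q := N3.map φ
  let H : Subgroup (FHat 2) := M.comap (lftF φ)
  have hH : IsOpen (H : Set (FHat 2)) := by
    have e1 : (H : Set (FHat 2)) = lftF φ ⁻¹' (M : Set Q) := rfl
    rw [e1]
    exact (isClopen_lftF φ _).isOpen
  have hconj : ∀ k ∈ N3, ∀ g : FHat 2, g * of k * g⁻¹ ∈ H := by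
    intro k hk g
    obtain ⟨g0, hg0⟩ := exists_rep φ g
    show lftF φ (g * of k * g⁻¹) ∈ M
    rw [map_mul, map_mul, map_inv, hg0, lftF_of, ← map_mul, ← map_inv, ← map_mul]
    exact ⟨_, conj_N3 hk g0, rfl⟩
  have hT : Tri H := by
    intro g
    constructor
    · have e1 : X ^ 3 = of ((FreeGroup.of 0 : F2) ^ 3) := by
        rw [map_pow]
        rfl
      rw [e1]
      refine hconj _ (mem_N3.2 ?_) g
      right
      rw [map_pow, Matrix.SpecialLinearGroup.coe_pow]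
      unfold mat3
      rw [FreeGroup.lift_apply_of]
      show (!![1, 1; -1, 0] : Matrix (Fin 2) (Fin 2) ℤ) ^ 3 = -1
      decide
    · have e1 : Y ^ 2 = of ((FreeGroup.of 1 : F2) ^ 2) := by
        rw [map_pow]
        rfl
      rw [e1]
      refine hconj _ (mem_N3.2 ?_) g
      right
      rw [map_pow, Matrix.SpecialLinearGroup.coe_pow]
      unfold mat3
      rw [FreeGroup.lift_apply_of]
      show (!![0, -1; 1, 0] : Matrix (Fin 2) (Fin 2) ℤ) ^ 2 = -1
      decide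
  obtain ⟨k, hk, hk'⟩ := hK w e hw H hH hT
  refine h2 (of k) (subset_closure ⟨k, hk, rfl⟩) ?_
  rw [lftF_of]
  exact hk'

end MPb66790.HK24
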